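import Pool.Agent.SLog.Targets
import Pool.Agent.LLog.KAK

set_option autoImplicit false

/-! SLog AVG: averages over boxes. -/

namespace Pool.Agent.SLog

open MeasureTheory Set
open scoped ENNReal NNReal
open Pool.Agent.KSP (dot)
open Pool.Agent.LLog (nv tv bx)

namespace AVG_

lemma bx_sym (t A B : ℝ) (x y : ℝ × ℝ) : y ∈ bx t x A B ↔ x ∈ bx t y A B := by
  have h1 : dot (x - y) (nv t) = - dot (y - x) (nv t) := by
    simp only [dot, Prod.fst_sub, Prod.snd_sub]
    ring
  have h2 : dot (x - y) (tv t) = - dot (y - x) (tv t) := by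
    simp only [dot, Prod.fst_sub, Prod.snd_sub]
    ring
  simp only [bx, mem_ofPred_eq, h1, h2, abs_neg]

/-- pairs of close points -/
def SS (t A B : ℝ) : Set ((ℝ × ℝ) × (ℝ × ℝ)) := {p | p.2 ∈ bx t p.1 A B}

lemma SS_meas (t A B : ℝ) : MeasurableSet (SS t A B) := by
  have h : SS t A B = (fun p : (ℝ × ℝ) × (ℝ × ℝ) => p.2 - p.1) ⁻¹' (bx t 0 A B) := by
    ext p
    simp only [SS, bx, mem_ofPred_eq, mem_preimage, sub_zero]
  rw [h]
  exact (measurable_snd.sub measurable_fst) (LLog.KAK_.bx_meas t 0 A B)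

lemma set_eq (t A B : ℝ) (g : ℝ × ℝ → ℝ≥0∞) (x : ℝ × ℝ) :
    ∫⁻ y in bx t x A B, g y = ∫⁻ y, (SS t A B).indicator (fun p => g p.2) (x, y) := by
  rw [← lintegral_indicator (LLog.KAK_.bx_meas t x A B)]
  refine lintegral_congr fun y => ?_
  by_cases h : y ∈ bx t x A B
  · rw [indicator_of_mem h, indicator_of_mem (show (x, y) ∈ SS t A B from h)]
  · rw [indicator_of_notMem h, indicator_of_notMem (show (x, y) ∉ SS t A B from h)]

lemma ker_meas (t A B : ℝ) {g : ℝ × ℝ → ℝ≥0∞} (hg : Measurable g) :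
    Measurable ((SS t A B).indicator (fun p : (ℝ × ℝ) × (ℝ × ℝ) => g p.2)) :=
  (hg.comp measurable_snd).indicator (SS_meas t A B)

lemma int_meas (t A B : ℝ) {g : ℝ × ℝ → ℝ≥0∞} (hg : Measurable g) :
    Measurable (fun x => ∫⁻ y in bx t x A B, g y) := by
  simp only [set_eq]
  exact (ker_meas t A B hg).lintegral_prod_right'

lemma int_sym (t A B : ℝ) {f g : ℝ × ℝ → ℝ≥0∞} (hf : Measurable f) (hg : Measurable g) :
    ∫⁻ x, f x * ∫⁻ y in bx t x A B, g y = ∫⁻ x, (∫⁻ y in bx t x A B, f y) * g x := by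
  have h1 : ∀ x, f x * ∫⁻ y in bx t x A B, g y =
      ∫⁻ y, f x * (SS t A B).indicator (fun p => g p.2) (x, y) := by
    intro x
    rw [set_eq, lintegral_const_mul]
    exact (ker_meas t A B hg).comp measurable_prodMk_left
  have h2 : ∀ y, (∫⁻ x in bx t y A B, f x) * g y =
      ∫⁻ x, f x * (SS t A B).indicator (fun p => g p.2) (x, y) := by
    intro y
    have hm : Measurable fun x : ℝ × ℝ =>
        (SS t A B).indicator (fun p : (ℝ × ℝ) × (ℝ × ℝ) => f p.2) (y, x) :=
      (ker_meas t A B hf).comp measurable_prodMk_left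
    rw [set_eq, ← lintegral_mul_const _ hm]
    refine lintegral_congr fun x => ?_
    by_cases h : (x, y) ∈ SS t A B
    · have h' : (y, x) ∈ SS t A B := (bx_sym t A B x y).1 h
      rw [indicator_of_mem h, indicator_of_mem h']
    · have h' : (y, x) ∉ SS t A B := fun h0 => h ((bx_sym t A B x y).2 h0)
      rw [indicator_of_notMem h, indicator_of_notMem h', zero_mul, mul_zero]
  simp only [h1, h2]
  rw [lintegral_lintegral_swap]
  exact ((hf.comp measurable_fst).mul (ker_meas t A B hg)).aemeasurable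

end AVG_

open AVG_ in
/-- A9 averages over boxes -/
theorem pAVG : tAVG := by
  intro t A B g hA hB hg
  have hc : (0 : ℝ) < 4 * A * B := by positivity
  have hc0 : ENNReal.ofReal (4 * A * B) ≠ 0 := by
    rw [Ne, ENNReal.ofReal_eq_zero, not_le]
    exact hc
  refine ⟨(int_meas t A B hg).const_mul _, fun x => LLog.KAK_.bx_vol t x A B hA hB, ?_, ?_, ?_, ?_⟩
  · intro f hf
    have h1 : ∀ x, f x * av t A B g x =
        (ENNReal.ofReal (4 * A * B))⁻¹ * (f x * ∫⁻ y in bx t x A B, g y) := by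
      intro x
      unfold av
      ring
    have h2 : ∀ x, av t A B f x * g x =
        (ENNReal.ofReal (4 * A * B))⁻¹ * ((∫⁻ y in bx t x A B, f y) * g x) := by
      intro x
      unfold av
      ring
    simp only [h1, h2]
    have m1 : Measurable fun x => f x * ∫⁻ y in bx t x A B, g y := hf.mul (int_meas t A B hg)
    have m2 : Measurable fun x => (∫⁻ y in bx t x A B, f y) * g x := (int_meas t A B hf).mul hg
    rw [lintegral_const_mul _ m1, lintegral_const_mul _ m2, int_sym t A B hf hg]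
  · intro x h1
    have h2 : ∫⁻ y in bx t x A B, g y ≤ ENNReal.ofReal (4 * A * B) := by
      calc ∫⁻ y in bx t x A B, g y ≤ ∫⁻ _ in bx t x A B, 1 := lintegral_mono fun y => h1 y
        _ = ENNReal.ofReal (4 * A * B) := by
          rw [setLIntegral_one, LLog.KAK_.bx_vol t x A B hA hB]
    unfold av
    calc (ENNReal.ofReal (4 * A * B))⁻¹ * ∫⁻ y in bx t x A B, g y
        ≤ (ENNReal.ofReal (4 * A * B))⁻¹ * ENNReal.ofReal (4 * A * B) := by gcongr
      _ = 1 := ENNReal.inv_mul_cancel hc0 ENNReal.ofReal_ne_top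
  · intro t' A' B' x y hA' hB' hs
    have hc' : (0 : ℝ) < 4 * A' * B' := by positivity
    have h1 : (ENNReal.ofReal (4 * A * B))⁻¹ =
        ENNReal.ofReal (A' * B' / (A * B)) * (ENNReal.ofReal (4 * A' * B'))⁻¹ := by
      rw [← ENNReal.ofReal_inv_of_pos hc, ← ENNReal.ofReal_inv_of_pos hc',
        ← ENNReal.ofReal_mul (by positivity)]
      congr 1
      field_simp
    unfold av
    rw [← mul_assoc, ← h1]
    gcongr
  · intro x y A' B' hy z hz
    simp only [bx, mem_ofPred_eq] at hy hz ⊢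
    have e1 : dot (z - x) (nv t) = dot (z - y) (nv t) + dot (y - x) (nv t) := by
      simp only [dot, Prod.fst_sub, Prod.snd_sub]
      ring
    have e2 : dot (z - x) (tv t) = dot (z - y) (tv t) + dot (y - x) (tv t) := by
      simp only [dot, Prod.fst_sub, Prod.snd_sub]
      ring
    rw [e1, e2]
    refine ⟨lt_of_le_of_lt (abs_add_le _ _) ?_, lt_of_le_of_lt (abs_add_le _ _) ?_⟩
    · linarith [hy.1, hz.1]
    · linarith [hy.2, hz.2]

end Pool.Agent.SLog
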