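import Pool.Agent.SLog.Targets

set_option autoImplicit false

/-! ETP: smooth cutoffs of sets where an average is large. -/

namespace Pool.Agent.SLog

open MeasureTheory Set
open scoped ENNReal NNReal
open Pool.Agent.KSP (ee dot nr Ex Ex1 Bd Bd1 n1 n2 lg V0 ann)
open Pool.Agent.LLog (PA cd cdr cp fr tp Nn nv tv Core bx sa sd Qx kc psi kap GK psR psA anf mu Bf hat)

namespace ETP_

theorem Lg_pos (a l : ℕ) : 0 < Lg a l := by
  unfold Lg
  positivity

theorem bb_pos (a l : ℕ) : 0 < bb a l := by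
  unfold bb
  positivity

theorem bx_symm {t : ℝ} {x y : ℝ × ℝ} {A B : ℝ} (h : y ∈ bx t x A B) : x ∈ bx t y A B := by
  have h' : |dot (y - x) (nv t)| < A ∧ |dot (y - x) (tv t)| < B := h
  have e : ∀ v : ℝ × ℝ, dot (x - y) v = - dot (y - x) v := by
    intro v
    unfold dot
    simp only [Prod.fst_sub, Prod.snd_sub]
    ring
  show |dot (x - y) (nv t)| < A ∧ |dot (x - y) (tv t)| < B
  rw [e, e, abs_neg, abs_neg]
  exact h'

theorem m_pos {a m : ℕ} (h : PA a m) : 1 ≤ m := by
  obtain ⟨h1, -, h3⟩ := h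
  by_contra hm
  have : m = 0 := by omega
  subst this
  have h4 : 0 < 2 ^ a := Nat.pow_pos (by norm_num)
  omega

theorem forty {a m : ℕ} (h : PA a m) : (40 * m : ℝ) < 2 ^ (2 * a) := by
  obtain ⟨h1, h2, -⟩ := h
  have h40 : 40 ≤ 2 ^ a := by
    calc 40 ≤ 2 ^ 20 := by norm_num
      _ ≤ 2 ^ a := Nat.pow_le_pow_right (by norm_num) h1
  have : 40 * m < 2 ^ (2 * a) := by
    calc 40 * m < 40 * 2 ^ a := by omega
      _ ≤ 2 ^ a * 2 ^ a := Nat.mul_le_mul_right _ h40
      _ = 2 ^ (2 * a) := by rw [two_mul, pow_add]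
  exact_mod_cast this

theorem len1 {a m : ℕ} (h : PA a m) (l : ℕ) : 40 * (m : ℝ) / bb a l < Lg a l := by
  unfold bb Lg
  rw [div_div_eq_mul_div, div_one]
  have h4 : (0 : ℝ) < 4 ^ l * 2 ^ (24 * a) := by positivity
  calc 40 * (m : ℝ) * (4 ^ l * 2 ^ (24 * a)) < 2 ^ (2 * a) * (4 ^ l * 2 ^ (24 * a)) :=
        mul_lt_mul_of_pos_right (forty h) h4
    _ = 4 ^ l * 2 ^ (26 * a) := by
        rw [show 26 * a = 2 * a + 24 * a by ring, pow_add]
        ring

theorem len2 {a m : ℕ} (h : PA a m) (l i : ℕ) :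
    40 * (m : ℝ) / (2 ^ i * bb a l) < Lg a l / 2 ^ i := by
  have h2 : (0 : ℝ) < 2 ^ i := by positivity
  have e : 40 * (m : ℝ) / (2 ^ i * bb a l) = 40 * (m : ℝ) / bb a l / 2 ^ i := by
    rw [div_div, mul_comm (bb a l)]
  rw [e]
  exact div_lt_div_of_pos_right (len1 h l) h2

end ETP_

open ETP_

theorem pETP (hETA : tETA) (hAVG : tAVG) : tETP := by
  intro a m l i b sl τ G A hPA hτ hG hGi hA
  have hL := Lg_pos a l
  have hb := bb_pos a l
  have h2i : (0 : ℝ) < 2 ^ i := by positivity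
  have hb2 : 0 < 2 ^ i * bb a l := by positivity
  have hLi : 0 < Lg a l / 2 ^ i := by positivity
  set t := tp sl i b with ht
  have hτ' : (0 : ℝ≥0∞) < τ := by exact_mod_cast hτ
  -- averages
  obtain ⟨hm2, -, hsw, -, -, hsub2⟩ := hAVG t (2 * Lg a l) (2 * Lg a l / 2 ^ i) G (by positivity)
    (by positivity) hG
  obtain ⟨-, -, -, -, hcmp1, hsub1⟩ := hAVG t (1 * Lg a l) (1 * Lg a l / 2 ^ i) G (by positivity)
    (by positivity) hG
  obtain ⟨-, -, -, -, hcmp2, -⟩ := hAVG t (2 * Lg a l) (2 * Lg a l / 2 ^ i) G (by positivity)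
    (by positivity) hG
  obtain ⟨-, -, -, hone, -, -⟩ := hAVG t (2 * Lg a l) (2 * Lg a l / 2 ^ i) (fun _ => 1)
    (by positivity) (by positivity) measurable_const
  have hAm : MeasurableSet A := by
    rw [hA]
    exact measurableSet_le measurable_const hm2
  have hint : ∫⁻ x, avL a l sl 2 i b G x ≤ ∫⁻ x, G x := by
    have e1 := hsw (fun _ => 1) measurable_const
    calc ∫⁻ x, avL a l sl 2 i b G x = ∫⁻ x, 1 * av t (2 * Lg a l) (2 * Lg a l / 2 ^ i) G x := by
          simp only [one_mul]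
          rfl
      _ = ∫⁻ x, av t (2 * Lg a l) (2 * Lg a l / 2 ^ i) (fun _ => 1) x * G x := e1
      _ ≤ ∫⁻ x, 1 * G x := by
          apply lintegral_mono
          intro x
          exact mul_le_mul_left (hone x fun _ => le_rfl) _
      _ = ∫⁻ x, G x := by simp only [one_mul]
  have hAv : volume A < ⊤ := by
    have hM := mul_meas_ge_le_lintegral (μ := volume) (f := avL a l sl 2 i b G) hm2 (τ : ℝ≥0∞)
    rw [← hA] at hM
    have h3 : (τ : ℝ≥0∞) * volume A < ⊤ := (hM.trans hint).trans_lt (lt_top_iff_ne_top.2 hGi)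
    by_contra h
    rw [not_lt, top_le_iff] at h
    rw [h, ENNReal.mul_top hτ'.ne'] at h3
    exact lt_irrefl _ h3
  obtain ⟨-, h01, hout, hin, -⟩ := hETA m t (bb a l) (2 ^ i * bb a l) A (m_pos hPA) hb hb2 hAm hAv
  have heti : ∀ x, eti a m sl l i b A x = et m t (bb a l) (2 ^ i * bb a l) A x := fun _ => rfl
  refine ⟨hAm, hAv, ?_, ?_⟩
  · intro x
    by_cases hall : ∀ y ∈ bx t x (Lg a l) (Lg a l / 2 ^ i), y ∈ A
    · have h1 := hin x (Lg a l) (Lg a l / 2 ^ i) (len1 hPA l) (len2 hPA l i) hall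
      refine le_trans ?_ le_add_self
      apply mul_le_mul_left
      apply ENNReal.ofReal_le_ofReal
      rw [heti]
      linarith
    · push Not at hall
      obtain ⟨y, hy, hyA⟩ := hall
      have hyτ : avL a l sl 2 i b G y < τ := by
        rw [hA] at hyA
        exact not_le.1 hyA
      have hsubs : bx t x (1 * Lg a l) (1 * Lg a l / 2 ^ i) ⊆
          bx t y (2 * Lg a l) (2 * Lg a l / 2 ^ i) := by
        have h1 := hsub1 y x (Lg a l) (Lg a l / 2 ^ i) (bx_symm hy)
        have e1 : 1 * Lg a l + Lg a l = 2 * Lg a l := by ring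
        have e2 : 1 * Lg a l / 2 ^ i + Lg a l / 2 ^ i = 2 * Lg a l / 2 ^ i := by ring
        rw [e1, e2] at h1
        exact h1
      have hle := hcmp1 t (2 * Lg a l) (2 * Lg a l / 2 ^ i) x y (by positivity) (by positivity)
        hsubs
      have er : 2 * Lg a l * (2 * Lg a l / 2 ^ i) / (1 * Lg a l * (1 * Lg a l / 2 ^ i)) = 4 := by
        field_simp
        norm_num
      rw [er] at hle
      have h4 : ENNReal.ofReal 4 = 4 := by norm_num
      rw [h4] at hle
      have hle' : avL a l sl 1 i b G x ≤ 4 * τ :=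
        hle.trans (mul_le_mul_right hyτ.le _)
      have h1e : ENNReal.ofReal (1 - eti a m sl l i b A x) ≤ 1 := by
        apply ENNReal.ofReal_le_one.2
        rw [heti]
        linarith [(h01 x).1]
      calc ENNReal.ofReal (1 - eti a m sl l i b A x) * avL a l sl 1 i b G x ≤
            1 * avL a l sl 1 i b G x := mul_le_mul_left h1e _
        _ = avL a l sl 1 i b G x := one_mul _
        _ ≤ 4 * τ := hle'
        _ ≤ _ := le_self_add
  · intro x
    by_cases hall : ∀ y ∈ bx t x (Lg a l) (Lg a l / 2 ^ i), y ∉ A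
    · have h1 := hout x (Lg a l) (Lg a l / 2 ^ i) (len1 hPA l) (len2 hPA l i) hall
      refine le_trans ?_ le_add_self
      apply mul_le_mul_left
      apply ENNReal.ofReal_le_ofReal
      rw [heti]
      exact h1
    · push Not at hall
      obtain ⟨y, hy, hyA⟩ := hall
      have hyτ : (τ : ℝ≥0∞) ≤ avL a l sl 2 i b G y := by
        rw [hA] at hyA
        exact hyA
      have hsubs : bx t y (2 * Lg a l) (2 * Lg a l / 2 ^ i) ⊆
          bx t x (3 * Lg a l) (3 * Lg a l / 2 ^ i) := by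
        have h1 := hsub2 x y (Lg a l) (Lg a l / 2 ^ i) hy
        have e1 : 2 * Lg a l + Lg a l = 3 * Lg a l := by ring
        have e2 : 2 * Lg a l / 2 ^ i + Lg a l / 2 ^ i = 3 * Lg a l / 2 ^ i := by ring
        rw [e1, e2] at h1
        exact h1
      have hle := hcmp2 t (3 * Lg a l) (3 * Lg a l / 2 ^ i) y x (by positivity) (by positivity)
        hsubs
      have er : 3 * Lg a l * (3 * Lg a l / 2 ^ i) / (2 * Lg a l * (2 * Lg a l / 2 ^ i)) = 9 / 4 := by
        field_simp
        norm_num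
      rw [er] at hle
      have h4 : ENNReal.ofReal (9 / 4) = 9 / 4 := by
        rw [ENNReal.ofReal_div_of_pos (by norm_num)]
        norm_num
      rw [h4] at hle
      have hle' : (τ : ℝ≥0∞) ≤ 9 / 4 * avL a l sl 3 i b G x := hyτ.trans hle
      have h1e : ENNReal.ofReal (eti a m sl l i b A x) ≤ 1 := by
        apply ENNReal.ofReal_le_one.2
        rw [heti]
        exact (h01 x).2
      calc ENNReal.ofReal (eti a m sl l i b A x) * τ ≤ 1 * τ := mul_le_mul_left h1e _
        _ = τ := one_mul _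
        _ ≤ 9 / 4 * avL a l sl 3 i b G x := hle'
        _ ≤ _ := le_self_add

end Pool.Agent.SLog
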