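import Pool.Agent.SLog.Targets

/-! C7 (tK0): square sums on a set.  helper74 -/

set_option autoImplicit false

namespace Pool.Agent.SLog

open MeasureTheory Set
open scoped ENNReal NNReal ComplexConjugate
open Pool.Agent.KSP (ee dot nr Ex Ex1 Bd Bd1 n1 n2 lg V0 ann)
open Pool.Agent.LLog (PA cd cdr cp fr tp Nn nv tv Core bx sa sd Qx kc psi kap GK psR psA anf mu Bf hat)

namespace K0_

lemma ee_norm (t : ℝ) : ‖ee t‖ = 1 := by
  rw [ee, show (2 * Real.pi * Complex.I * (t : ℂ)) = ((2 * Real.pi * t : ℝ) : ℂ) * Complex.I by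
    push_cast; ring, Complex.norm_exp_ofReal_mul_I]

lemma ee_cont : Continuous ee := by
  unfold ee; fun_prop

lemma ee_mul_neg (t : ℝ) : ee t * ee (-t) = 1 := by
  rw [ee, ee, ← Complex.exp_add]
  push_cast
  rw [show (2 * Real.pi * Complex.I * (t : ℂ) + 2 * Real.pi * Complex.I * (-(t : ℂ))) = 0 by ring,
    Complex.exp_zero]

/-- `Ex h` is continuous for every `h` -/
lemma cont_Ex (h : ℝ × ℝ → ℂ) : Continuous (Ex h) := by
  have hd : ∀ x : ℝ × ℝ, Continuous (fun ξ : ℝ × ℝ => ee (dot x ξ)) := by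
    intro x
    refine ee_cont.comp ?_
    unfold dot
    fun_prop
  by_cases hi : Integrable h
  · unfold Ex
    refine continuous_of_dominated (bound := fun ξ => ‖h ξ‖) ?_ ?_ hi.norm ?_
    · intro x
      exact hi.aestronglyMeasurable.mul (hd x).aestronglyMeasurable
    · intro x
      refine Filter.Eventually.of_forall (fun ξ => ?_)
      rw [norm_mul, ee_norm, mul_one]
    · refine Filter.Eventually.of_forall (fun ξ => ?_)
      refine continuous_const.mul (ee_cont.comp ?_)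
      unfold dot
      fun_prop
  · have h0 : Ex h = fun _ => 0 := by
      funext x
      unfold Ex
      apply integral_undef
      intro hc
      apply hi
      have h1 : h = fun ξ => (h ξ * ee (dot x ξ)) * ee (-(dot x ξ)) := by
        funext ξ
        rw [mul_assoc, ee_mul_neg, mul_one]
      have hneg : Continuous (fun ξ : ℝ × ℝ => ee (-(dot x ξ))) := by
        refine ee_cont.comp ?_
        unfold dot
        fun_prop
      rw [h1]
      refine hc.mul_bdd (c := 1) hneg.aestronglyMeasurable ?_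
      exact Filter.Eventually.of_forall (fun ξ => (ee_norm _).le)
    rw [h0]
    exact continuous_const

lemma meas_VV (a m : ℕ) (sg sl : ℝ) (l : ℕ) (g : ℝ × ℝ → ℂ) (c p : ℕ) :
    Measurable (VV a m sg sl l g c p) := by
  unfold VV vv
  exact ((cont_Ex _).measurable.enorm).pow_const 2

lemma Nn_pos (t : ℝ) : 0 < Nn t := Real.sqrt_pos.mpr (by positivity)

lemma one_add_abs_le (t : ℝ) : 1 + |t| ≤ 2 * Nn t := by
  have h1 : (1 + |t|) ^ 2 ≤ (2 * Nn t) ^ 2 := by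
    rw [mul_pow, Nn, Real.sq_sqrt (by positivity)]
    nlinarith [sq_abs t, sq_nonneg (1 - |t|)]
  exact abs_le_of_sq_le_sq' h1 (by have := Nn_pos t; linarith) |>.2

lemma dot_nv (t s : ℝ) (v : ℝ × ℝ) (h1 : |v.1| ≤ s) (h2 : |v.2| ≤ s) : |dot v (nv t)| ≤ 2 * s := by
  have hN := Nn_pos t
  have hs : 0 ≤ s := (abs_nonneg _).trans h1
  have e : dot v (nv t) = (v.1 + t * v.2) / Nn t := by
    simp only [dot, nv]; field_simp
  rw [e, abs_div, abs_of_pos hN, div_le_iff₀ hN]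
  have h3 : |v.1 + t * v.2| ≤ s + |t| * s := by
    refine (abs_add_le _ _).trans (add_le_add h1 ?_)
    rw [abs_mul]
    exact mul_le_mul_of_nonneg_left h2 (abs_nonneg _)
  have h4 := one_add_abs_le t
  nlinarith

lemma dot_tv (t s : ℝ) (v : ℝ × ℝ) (h1 : |v.1| ≤ s) (h2 : |v.2| ≤ s) : |dot v (tv t)| ≤ 2 * s := by
  have hN := Nn_pos t
  have hs : 0 ≤ s := (abs_nonneg _).trans h1
  have e : dot v (tv t) = (-(t * v.1) + v.2) / Nn t := by
    simp only [dot, tv]; field_simp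
  rw [e, abs_div, abs_of_pos hN, div_le_iff₀ hN]
  have h3 : |-(t * v.1) + v.2| ≤ |t| * s + s := by
    refine (abs_add_le _ _).trans (add_le_add ?_ h2)
    rw [abs_neg, abs_mul]
    exact mul_le_mul_of_nonneg_left h1 (abs_nonneg _)
  have h4 := one_add_abs_le t
  nlinarith

lemma av_le_KM (t A s : ℝ) (Z : Set (ℝ × ℝ)) (y z : ℝ × ℝ) (ht : t ∈ Icc (-2 : ℝ) 2) (hs : 0 < s)
    (hA : 4 * s ≤ A) (h1 : |y.1 - z.1| ≤ s) (h2 : |y.2 - z.2| ≤ s) :
    av t A (4 * s) (Z.indicator 1) z ≤ KM A (4 * s) Z y := by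
  have hy : y ∈ bx t z A (4 * s) := by
    have e1 := dot_nv t s (y - z) h1 h2
    have e2 := dot_tv t s (y - z) h1 h2
    exact ⟨by linarith, by linarith⟩
  unfold KM
  exact le_iSup_of_le t (le_iSup_of_le ht (le_iSup_of_le z (le_iSup_of_le hy le_rfl)))

lemma tp_mem (a l p : ℕ) (sl : ℝ) (h1 : 1 ≤ sl) (h2 : sl < 2) (hp : p ∈ PP a l) :
    tp sl (l + 8 * a) p ∈ Icc (-2 : ℝ) 2 := by
  have hp' : p < 3 * 2 ^ (l + 8 * a) := Finset.mem_range.mp hp
  have h3 : (p : ℝ) / 2 ^ (l + 8 * a) ≤ 3 := by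
    rw [div_le_iff₀ (by positivity)]
    exact_mod_cast hp'.le
  have h4 : 0 ≤ (p : ℝ) / 2 ^ (l + 8 * a) := by positivity
  unfold tp
  constructor <;> linarith

lemma meas_EE (l : ℕ) (w : ℕ → ℝ × ℝ → ℂ) (hw : Fm w) : MeasurableSet (EE l w) := by
  have : EE l w = ⋃ c ∈ CC l, {x | w c x ≠ 0} := by
    ext x
    simp [EE]
  rw [this]
  refine Finset.measurableSet_biUnion _ (fun c _ => ?_)
  exact (hw.1 c).1.1 (measurableSet_singleton 0).compl

lemma pow_a (a : ℕ) (ha : 20 ≤ a) : 2 * (32 * a + 1) ≤ 2 ^ a := by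
  induction a, ha using Nat.le_induction with
  | base => norm_num
  | succ n hn ih => rw [pow_succ]; omega

end K0_

open K0_ in
theorem pK0 (hKQ : tKQ) (hKKM : tKKM) : tK0 := by
  obtain ⟨C, hC⟩ := hKKM
  refine ⟨11 * C, ?_⟩
  intro a m l sg sl w Z hHP hFm hZ
  have hHP' := hHP
  obtain ⟨⟨ha, hm1, hm2⟩, hl, hlm, hsg0, hsg1, hsl1, hsl2⟩ := hHP'
  have hs : (0 : ℝ) < 2 ^ (l + 16 * a) := by positivity
  have hBA : (4 : ℝ) * 2 ^ (l + 16 * a) ≤ 2 * (4 ^ l * 2 ^ (7 * a)) := by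
    have e1 : (4 : ℝ) ^ l = 2 ^ (2 * l) := by rw [pow_mul]; norm_num
    rw [e1, ← pow_add]
    have e2 : (4 : ℝ) * 2 ^ (l + 16 * a) = 2 ^ (l + 16 * a + 2) := by rw [pow_add]; ring
    have e3 : (2 : ℝ) * 2 ^ (2 * l + 7 * a) = 2 ^ (2 * l + 7 * a + 1) := by rw [pow_add]; ring
    rw [e2, e3]
    exact pow_le_pow_right₀ (by norm_num) (by omega)
  have hEm := meas_EE l w hFm
  obtain ⟨hKm, hK1, hK2⟩ := hC (10 * m) (2 * (4 ^ l * 2 ^ (7 * a))) (4 * 2 ^ (l + 16 * a)) Z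
    ((EE l w).indicator 1) hZ (by positivity) hBA (measurable_one.indicator hEm)
    (fun x => by
      by_cases hx : x ∈ EE l w
      · simp [hx]
      · simp [hx])
  have hmain := hKQ a m l sg sl w (fun _ => Z.indicator 1)
    (KM (2 * (4 ^ l * 2 ^ (7 * a))) (4 * 2 ^ (l + 16 * a)) Z) hHP hFm
    (fun p => ⟨measurable_one.indicator hZ, fun x => by
      by_cases hx : x ∈ Z
      · simp [hx]
      · simp [hx]⟩) hKm
    (fun p hp y z h1 h2 => av_le_KM _ _ _ Z y z (tp_mem a l p sl hsl1 hsl2 hp) hs hBA h1 h2)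
  have e1 : ∫⁻ x in Z, ∑ c ∈ CC l, ∑ p ∈ PP a l, VV a m sg sl l (w c) c p x =
      ∑ c ∈ CC l, ∑ p ∈ PP a l, ∫⁻ x, (Z.indicator 1 x : ℝ≥0∞) * VV a m sg sl l (w c) c p x := by
    rw [lintegral_finsetSum _ (fun c _ => Finset.measurable_fun_sum _ (fun p _ => meas_VV a m sg sl l _ c p))]
    refine Finset.sum_congr rfl (fun c _ => ?_)
    rw [lintegral_finsetSum _ (fun p _ => meas_VV a m sg sl l _ c p)]
    refine Finset.sum_congr rfl (fun p _ => ?_)
    rw [← lintegral_indicator hZ]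
    refine lintegral_congr (fun x => ?_)
    by_cases hx : x ∈ Z
    · simp [hx]
    · simp [hx]
  have e2 : ∫⁻ x in EE l w, KM (2 * (4 ^ l * 2 ^ (7 * a))) (4 * 2 ^ (l + 16 * a)) Z x =
      ∫⁻ x, ((EE l w).indicator 1 x : ℝ≥0∞) *
        KM (2 * (4 ^ l * 2 ^ (7 * a))) (4 * 2 ^ (l + 16 * a)) Z x := by
    rw [← lintegral_indicator hEm]
    refine lintegral_congr (fun x => ?_)
    by_cases hx : x ∈ EE l w
    · simp [hx]
    · simp [hx]
  have e3 : ∫⁻ x, ((EE l w).indicator 1 x : ℝ≥0∞) = volume (EE l w) := by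
    rw [lintegral_indicator_one hEm]
  rw [e1]
  rw [e2] at hmain
  rw [e3] at hK2
  -- numerical facts
  have hm32 : 32 * a + 1 ≤ m := by
    have := pow_a a ha
    omega
  have n1 : ((10 * m : ℕ) : ℝ≥0∞) + 1 ≤ 11 * 2 ^ a := by
    have : 10 * m + 1 ≤ 11 * 2 ^ a := by omega
    exact_mod_cast this
  have n2 : ENNReal.ofReal (1 + Real.log (2 * (4 ^ l * 2 ^ (7 * a)) / (4 * 2 ^ (l + 16 * a)))) ≤
      2 ^ a := by
    have h1 : (2 * (4 ^ l * 2 ^ (7 * a)) : ℝ) / (4 * 2 ^ (l + 16 * a)) ≤ 2 ^ l := by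
      rw [div_le_iff₀ (by positivity)]
      have e1 : (4 : ℝ) ^ l = 2 ^ (2 * l) := by rw [pow_mul]; norm_num
      have e2 : (2 : ℝ) ^ l * (4 * 2 ^ (l + 16 * a)) = 2 ^ (2 * l + 16 * a + 2) := by
        rw [pow_add, pow_add, pow_add, pow_mul]; ring
      have e3 : (2 : ℝ) * (2 ^ (2 * l) * 2 ^ (7 * a)) = 2 ^ (2 * l + 7 * a + 1) := by
        rw [pow_add, pow_add]; ring
      rw [e1, e2, e3]
      exact pow_le_pow_right₀ (by norm_num) (by omega)
    have h2 : Real.log (2 * (4 ^ l * 2 ^ (7 * a)) / (4 * 2 ^ (l + 16 * a))) ≤ m := by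
      refine (Real.log_le_log (by positivity) h1).trans ?_
      rw [Real.log_pow]
      have h3 : Real.log 2 ≤ 1 := by
        have := Real.log_le_sub_one_of_pos (show (0 : ℝ) < 2 by norm_num)
        linarith
      have h4 : (l : ℝ) ≤ m := by exact_mod_cast hlm
      have h5 : (0 : ℝ) ≤ l := Nat.cast_nonneg _
      have h6 : 0 ≤ Real.log 2 := Real.log_nonneg (by norm_num)
      nlinarith
    have h3 : (1 : ℝ) + m ≤ 2 ^ a := by
      have : 1 + m ≤ 2 ^ a := by omega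
      exact_mod_cast this
    calc ENNReal.ofReal _ ≤ ENNReal.ofReal (2 ^ a) := ENNReal.ofReal_le_ofReal (by linarith)
      _ = 2 ^ a := by rw [ENNReal.ofReal_pow (by norm_num)]; norm_num
  have n3 : (2 : ℝ≥0∞) ^ (32 * a) * ENNReal.ofReal (1 / 2 ^ (10 * m)) +
      ENNReal.ofReal (1 / 2 ^ (20 * m)) ≤ ENNReal.ofReal (1 / 2 ^ (9 * m)) := by
    have h1 : (2 : ℝ≥0∞) ^ (32 * a) = ENNReal.ofReal (2 ^ (32 * a)) := by
      rw [ENNReal.ofReal_pow (by norm_num)]; norm_num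
    rw [h1, ← ENNReal.ofReal_mul (by positivity), ← ENNReal.ofReal_add (by positivity) (by positivity)]
    apply ENNReal.ofReal_le_ofReal
    have h2 : (2 : ℝ) ^ (32 * a) * 2 ≤ 2 ^ m := by
      rw [← pow_succ]
      exact pow_le_pow_right₀ (by norm_num) hm32
    have h3 : (2 : ℝ) ^ (32 * a) * (1 / 2 ^ (10 * m)) ≤ 1 / 2 ^ (9 * m) / 2 := by
      have : (2 : ℝ) ^ (10 * m) = 2 ^ (9 * m) * 2 ^ m := by rw [← pow_add]; congr 1; ring
      rw [this, mul_one_div, div_div, div_le_div_iff₀ (by positivity) (by positivity)]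
      have hp : (0 : ℝ) < 2 ^ (9 * m) := by positivity
      nlinarith
    have h4 : (1 : ℝ) / 2 ^ (20 * m) ≤ 1 / 2 ^ (9 * m) / 2 := by
      rw [div_div, ← pow_succ]
      apply one_div_le_one_div_of_le (by positivity)
      exact pow_le_pow_right₀ (by norm_num) (by omega)
    linarith
  refine hmain.trans ?_
  calc (2 : ℝ≥0∞) ^ (32 * a) * (∫⁻ x, ((EE l w).indicator 1 x : ℝ≥0∞) *
        KM (2 * (4 ^ l * 2 ^ (7 * a))) (4 * 2 ^ (l + 16 * a)) Z x) +
        ENNReal.ofReal (1 / 2 ^ (20 * m)) * volume (EE l w)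
      ≤ 2 ^ (32 * a) * (C * (((10 * m : ℕ) : ℝ≥0∞) + 1) *
          ENNReal.ofReal (1 + Real.log (2 * (4 ^ l * 2 ^ (7 * a)) / (4 * 2 ^ (l + 16 * a)))) *
          volume (EE l w) ^ (1 / 2 : ℝ) * volume Z ^ (1 / 2 : ℝ) +
          ENNReal.ofReal (1 / 2 ^ (10 * m)) * volume (EE l w)) +
        ENNReal.ofReal (1 / 2 ^ (20 * m)) * volume (EE l w) := by
        gcongr
    _ ≤ 2 ^ (32 * a) * (C * (11 * 2 ^ a) * 2 ^ a *
          volume (EE l w) ^ (1 / 2 : ℝ) * volume Z ^ (1 / 2 : ℝ) +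
          ENNReal.ofReal (1 / 2 ^ (10 * m)) * volume (EE l w)) +
        ENNReal.ofReal (1 / 2 ^ (20 * m)) * volume (EE l w) := by
        gcongr
    _ = ((11 * C : ℝ≥0) : ℝ≥0∞) * 2 ^ (34 * a) * volume (EE l w) ^ (1 / 2 : ℝ) *
          volume Z ^ (1 / 2 : ℝ) +
        (2 ^ (32 * a) * ENNReal.ofReal (1 / 2 ^ (10 * m)) + ENNReal.ofReal (1 / 2 ^ (20 * m))) *
          volume (EE l w) := by
        rw [show 34 * a = 32 * a + a + a by ring, pow_add, pow_add]
        push_cast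
        ring
    _ ≤ _ := by
        gcongr

end Pool.Agent.SLog
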