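import Pool.Agent.SLog.UND
import Pool.Agent.SLog.K0
import Pool.Agent.SLog.ETP

set_option autoImplicit false

/-! BDZ: heavy part on the set where the density is large.  helper20 -/

namespace Pool.Agent.SLog

open MeasureTheory Set
open scoped ENNReal NNReal ComplexConjugate
open Pool.Agent.KSP (ee dot nr Ex Ex1 Bd Bd1 n1 n2 lg V0 ann sq pPl2)
open Pool.Agent.KSP.Base_
open Pool.Agent.LLog (PA cd cdr cp fr tp Nn nv tv Core bx sa sd Qx kc psi kap GK psR psA anf mu Bf hat)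
open Pool.Agent.LLog.DUA_

namespace BDZ_

lemma pow_a (a : ℕ) (ha : 20 ≤ a) : 1000 * a ≤ 2 ^ a := by
  induction a, ha using Nat.le_induction with
  | base => norm_num
  | succ n hn ih => rw [pow_succ]; omega

lemma m_ge {a m : ℕ} (h : PA a m) : 500 * a ≤ m := by
  obtain ⟨h1, -, h3⟩ := h
  have := pow_a a h1
  omega

lemma nb_open (a l : ℕ) (Y : Set (ℝ × ℝ)) : IsOpen (nb a l Y) := by
  have : nb a l Y = ⋃ y ∈ Y, {x : ℝ × ℝ | |y.1 - x.1| < 2 ^ (l + 15 * a) ∧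
      |y.2 - x.2| < 2 ^ (l + 15 * a)} := by
    ext x
    simp only [nb, mem_setOf_eq, mem_iUnion, exists_prop]
  rw [this]
  refine isOpen_biUnion fun y _ => ?_
  have h1 : Continuous fun x : ℝ × ℝ => |y.1 - x.1| := by fun_prop
  have h2 : Continuous fun x : ℝ × ℝ => |y.2 - x.2| := by fun_prop
  exact (isOpen_lt h1 continuous_const).inter (isOpen_lt h2 continuous_const)

lemma sub_nb (a l : ℕ) (Y : Set (ℝ × ℝ)) : Y ⊆ nb a l Y := by
  intro y hy
  refine ⟨y, hy, ?_, ?_⟩ <;> simp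

/-- comparison of the densities at neighbouring points -/
lemma nn_comp (hAVG : tAVG) {a m l : ℕ} {sg sl : ℝ} {w : ℕ → ℝ × ℝ → ℂ} (ha : 20 ≤ a)
    {x y : ℝ × ℝ} (h1 : |y.1 - x.1| < 2 ^ (l + 15 * a)) (h2 : |y.2 - x.2| < 2 ^ (l + 15 * a)) :
    NN a m sg sl l w 3 y ≤ ENNReal.ofReal (16 / 9) * NN a m sg sl l w 4 x := by
  unfold NN
  simp only [Finset.mul_sum]
  refine Finset.sum_le_sum fun c _ => Finset.sum_le_sum fun i hi => Finset.sum_le_sum fun b _ => ?_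
  have hL := ETP_.Lg_pos a l
  have h2i : (0 : ℝ) < 2 ^ i := by positivity
  have hi' : i ≤ l + 8 * a := by have := Finset.mem_range.1 hi; omega
  have hg : Measurable (fun z => ∑ p ∈ near a l i b, VV a m sg sl l (w c) c p z) :=
    Finset.measurable_fun_sum _ fun p _ => K0_.meas_VV a m sg sl l _ c p
  have hs : (2 : ℝ) * 2 ^ (l + 15 * a) < Lg a l / 2 ^ i := by
    rw [lt_div_iff₀ h2i]
    have e1 : (4 : ℝ) ^ l = 2 ^ (2 * l) := by rw [pow_mul]; norm_num
    unfold Lg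
    rw [e1, ← pow_add]
    calc (2 : ℝ) * 2 ^ (l + 15 * a) * 2 ^ i = 2 ^ (l + 15 * a + i + 1) := by
          rw [pow_succ, pow_add]; ring
      _ < 2 ^ (2 * l + 26 * a) := pow_lt_pow_right₀ (by norm_num) (by omega)
  have hs' : (2 : ℝ) * 2 ^ (l + 15 * a) < Lg a l := by
    refine hs.trans_le (div_le_self hL.le ?_)
    exact one_le_pow₀ (by norm_num)
  have hy : y ∈ bx (tp sl i b) x (Lg a l) (Lg a l / 2 ^ i) := by
    have e1 := K0_.dot_nv (tp sl i b) (2 ^ (l + 15 * a)) (y - x) h1.le h2.le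
    have e2 := K0_.dot_tv (tp sl i b) (2 ^ (l + 15 * a)) (y - x) h1.le h2.le
    exact ⟨by linarith, by linarith⟩
  have hA3 : 0 < 3 * Lg a l := by positivity
  have hB3 : 0 < 3 * Lg a l / 2 ^ i := by positivity
  have hA4 : 0 < 4 * Lg a l := by positivity
  have hB4 : 0 < 4 * Lg a l / 2 ^ i := by positivity
  obtain ⟨-, -, -, -, k5, k6⟩ := hAVG (tp sl i b) (3 * Lg a l) (3 * Lg a l / 2 ^ i) _ hA3 hB3 hg
  have hsub := k6 x y _ _ hy
  have e3 : 3 * Lg a l + Lg a l = 4 * Lg a l := by ring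
  have e4 : 3 * Lg a l / 2 ^ i + Lg a l / 2 ^ i = 4 * Lg a l / 2 ^ i := by ring
  rw [e3, e4] at hsub
  have h5 := k5 (tp sl i b) _ _ y x hA4 hB4 hsub
  have e5 : 4 * Lg a l * (4 * Lg a l / 2 ^ i) / (3 * Lg a l * (3 * Lg a l / 2 ^ i)) = 16 / 9 := by
    field_simp
    norm_num
  rw [e5] at h5
  exact h5

/-- Cauchy-Schwarz with weights in `[0, 1]` -/
lemma cs (S : Finset ℕ) (e : ℕ → ℝ) (v : ℕ → ℂ) (he : ∀ c ∈ S, 0 ≤ e c ∧ e c ≤ 1) (K : ℝ≥0∞)
    (hK : ∑ c ∈ S, ENNReal.ofReal (e c) ≤ K) :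
    ‖∑ c ∈ S, (e c : ℂ) * v c‖ₑ ^ 2 ≤ K * ∑ c ∈ S, ‖v c‖ₑ ^ 2 := by
  have h1 : ‖∑ c ∈ S, (e c : ℂ) * v c‖ ≤ ∑ c ∈ S, e c * ‖v c‖ := by
    refine (norm_sum_le _ _).trans (Finset.sum_le_sum fun c hc => ?_)
    rw [norm_mul, Complex.norm_real, Real.norm_eq_abs, abs_of_nonneg (he c hc).1]
  have h2 : (∑ c ∈ S, e c * ‖v c‖) ^ 2 ≤ (∑ c ∈ S, e c) * ∑ c ∈ S, e c * ‖v c‖ ^ 2 := by
    refine Finset.sum_sq_le_sum_mul_sum_of_sq_le_mul S (fun c hc => (he c hc).1)
      (fun c hc => mul_nonneg (he c hc).1 (by positivity)) fun c hc => le_of_eq ?_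
    ring
  have h3 : ∑ c ∈ S, e c * ‖v c‖ ^ 2 ≤ ∑ c ∈ S, ‖v c‖ ^ 2 :=
    Finset.sum_le_sum fun c hc => mul_le_of_le_one_left (by positivity) (he c hc).2
  have h4 : 0 ≤ ∑ c ∈ S, e c := Finset.sum_nonneg fun c hc => (he c hc).1
  have h5 : ‖∑ c ∈ S, (e c : ℂ) * v c‖ ^ 2 ≤ (∑ c ∈ S, e c) * ∑ c ∈ S, ‖v c‖ ^ 2 :=
    (pow_le_pow_left₀ (norm_nonneg _) h1 2).trans (h2.trans (mul_le_mul_of_nonneg_left h3 h4))
  have e1 : ∀ z : ℂ, ‖z‖ₑ ^ 2 = ENNReal.ofReal (‖z‖ ^ 2) := fun z => by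
    rw [ENNReal.ofReal_pow (norm_nonneg _), ofReal_norm]
  calc ‖∑ c ∈ S, (e c : ℂ) * v c‖ₑ ^ 2 = ENNReal.ofReal (‖∑ c ∈ S, (e c : ℂ) * v c‖ ^ 2) := e1 _
    _ ≤ ENNReal.ofReal ((∑ c ∈ S, e c) * ∑ c ∈ S, ‖v c‖ ^ 2) := ENNReal.ofReal_le_ofReal h5
    _ = (∑ c ∈ S, ENNReal.ofReal (e c)) * ∑ c ∈ S, ‖v c‖ₑ ^ 2 := by
        rw [ENNReal.ofReal_mul h4, ENNReal.ofReal_sum_of_nonneg fun c hc => (he c hc).1,
          ENNReal.ofReal_sum_of_nonneg fun c _ => by positivity]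
        simp only [e1]
    _ ≤ _ := mul_le_mul' hK le_rfl

/-- the real inequality: a small set -/
lemma small (C x y A B E : ℝ) (hC : 0 ≤ C) (hx : 0 ≤ x) (hy : 0 ≤ y) (hA : 0 < A) (hB : 0 < B)
    (hE : E ≤ B ^ 2 / A) (h : A * x ^ 2 ≤ C * B * (y * x) + E * y ^ 2) :
    x ≤ (C + 1) * (B / A) * y := by
  by_contra hcon
  push Not at hcon
  have hBA : 0 < B / A := by positivity
  have h0 : 0 ≤ (C + 1) * (B / A) * y := by positivity
  have hx0 : 0 < x := lt_of_le_of_lt h0 hcon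
  have h1 : A * x * x > A * ((C + 1) * (B / A) * y) * x := by
    have := mul_lt_mul_of_pos_left hcon hA
    exact mul_lt_mul_of_pos_right this hx0
  have h2 : A * ((C + 1) * (B / A) * y) * x = C * B * (y * x) + B * (y * x) := by
    field_simp
  have h3 : B / A * y ≤ x := by
    refine le_trans ?_ hcon.le
    have : B / A * y ≤ (C + 1) * (B / A * y) :=
      le_mul_of_one_le_left (by positivity) (by linarith)
    linarith [this, mul_assoc (C + 1) (B / A) y]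
  have h4 : E * y ^ 2 ≤ B * (y * x) := by
    calc E * y ^ 2 ≤ B ^ 2 / A * y ^ 2 := mul_le_mul_of_nonneg_right hE (by positivity)
      _ = B * (y * (B / A * y)) := by ring
      _ ≤ B * (y * x) := by gcongr
  nlinarith

end BDZ_

open BDZ_

theorem pBDZ (hLCP : tLCP) (hFRQ : tFRQ) (hBXV : tBXV) (hOVL : tOVL) (hK0 : tK0) (hKN : tKN)
    (hAVG : tAVG) (hVB : tVB) (hETA : tETA) (hETP : tETP) : tBDZ := by
  obtain ⟨C0, hC0⟩ := hK0
  obtain ⟨C1, hC1⟩ := hKN
  refine ⟨42 * (C0 * (C1 + 1) + 1) + 21, ?_⟩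
  intro a m l sg sl w Y hP hPf
  have hP' := hP
  obtain ⟨hPA, hl, hlm, hsg0, hsg1, hsl1, hsl2⟩ := hP'
  have ha : 20 ≤ a := hPA.1
  have hm := m_ge hPA
  have hm1 : 1 ≤ m := by omega
  have hFm : Fm w := hPf.1
  have hbf : ∀ c, Bf (w c) := fun c => (hFm.1 c).1
  -- volumes
  have hEEf : volume (EE l w) < ⊤ := by
    rw [UND_.EE_eq]
    refine (measure_biUnion_finset_le _ _).trans_lt ?_
    exact ENNReal.sum_lt_top.2 fun c _ => (hbf c).2.2
  have hYf : ∀ c, volume (nb a l (Y c)) < ⊤ := fun c => by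
    refine (measure_mono (sub_nb a l (nb a l (Y c)))).trans_lt ?_
    refine (hPf.2.2.1 c).trans_lt ?_
    exact ENNReal.mul_lt_top (ENNReal.mul_lt_top (by norm_num) (ENNReal.pow_lt_top (by norm_num)))
      (hbf c).2.2
  -- the sets
  set Z : Set (ℝ × ℝ) := {x | 2 ^ (210 * a) < NN a m sg sl l w 3 x} with hZ
  set Z' : Set (ℝ × ℝ) := {x | 2 ^ (209 * a) < NN a m sg sl l w 4 x} with hZ'
  have hN3 : Measurable (NN a m sg sl l w 3) := by
    have := (hC1 a m l 3 sg sl w univ hP hFm MeasurableSet.univ (by norm_num) (by norm_num)).1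
    norm_num at this
    exact this
  have hN4 : Measurable (NN a m sg sl l w 4) := by
    have := (hC1 a m l 4 sg sl w univ hP hFm MeasurableSet.univ (by norm_num) (by norm_num)).1
    norm_num at this
    exact this
  have hZm : MeasurableSet Z := measurableSet_lt measurable_const hN3
  have hZm' : MeasurableSet Z' := measurableSet_lt measurable_const hN4
  obtain ⟨-, hi4, hj4⟩ := hC1 a m l 4 sg sl w Z' hP hFm hZm' (by norm_num) (by norm_num)
  rw [Nat.cast_ofNat] at hi4 hj4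
  have hsub : nb a l Z ⊆ Z' := by
    rintro x ⟨y, hy, h1, h2⟩
    have h3 := nn_comp hAVG (m := m) (sg := sg) (sl := sl) (w := w) ha h1 h2
    by_contra hx
    have hx' : NN a m sg sl l w 4 x ≤ 2 ^ (209 * a) := not_lt.1 hx
    have hy' : 2 ^ (210 * a) < NN a m sg sl l w 3 y := hy
    have h4 : ENNReal.ofReal (16 / 9) * NN a m sg sl l w 4 x ≤ 2 ^ (210 * a) := by
      calc ENNReal.ofReal (16 / 9) * NN a m sg sl l w 4 x ≤ 2 * 2 ^ (209 * a) := by
            refine mul_le_mul' ?_ hx'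
            rw [show (2 : ℝ≥0∞) = ENNReal.ofReal 2 by simp]
            exact ENNReal.ofReal_le_ofReal (by norm_num)
        _ = 2 ^ (209 * a + 1) := by rw [pow_succ]; ring
        _ ≤ 2 ^ (210 * a) := pow_le_pow_right₀ (by norm_num) (by omega)
    exact absurd (hy'.trans_le (h3.trans h4)) (lt_irrefl _)
  have hmark : 2 ^ (209 * a) * volume Z' ≤ ∫⁻ x in Z', NN a m sg sl l w 4 x := by
    rw [← setLIntegral_const]
    exact setLIntegral_mono hN4 fun x hx => (le_of_lt hx)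
  have hZf : volume Z' < ⊤ := by
    by_contra h
    rw [not_lt, top_le_iff] at h
    rw [h] at hmark
    rw [ENNReal.mul_top (by positivity), top_le_iff] at hmark
    have h1 : ∫⁻ x in Z', NN a m sg sl l w 4 x ≤ 2 ^ (2 * a) * volume (EE l w) :=
      (setLIntegral_le_lintegral _ _).trans hi4
    rw [hmark, top_le_iff] at h1
    exact (ENNReal.mul_lt_top (ENNReal.pow_lt_top (by norm_num)) hEEf).ne h1
  have hnbf : volume (nb a l Z) < ⊤ := (measure_mono hsub).trans_lt hZf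
  -- the frequency pieces
  have hk0 : ∀ c p, ∃ k : ℝ × ℝ → ℂ, c ∈ CC l → p ∈ PP a l →
      Bd k ∧ (∀ ξ, k ξ ≠ 0 → ξ ∈ BX a l sg sl (1 / 2 ^ (4 * a) / 4) c p) ∧
      ∀ x, Ex k x = (eh a m sl l (Y c) p x : ℂ) * vv a m sg sl l (w c) c p x := by
    intro c p
    by_cases hc : c ∈ CC l
    · by_cases hp : p ∈ PP a l
      · obtain ⟨k, hk⟩ := (hFRQ a m l c p sg sl (w c) (Y c) hP hc hp (hbf c) (hPf.2.1 c).1
          (hYf c)).1
        exact ⟨k, fun _ _ => hk⟩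
      · exact ⟨0, fun _ h => absurd h hp⟩
    · exact ⟨0, fun h => absurd h hc⟩
  choose k hk using hk0
  set u : ℕ → ℝ × ℝ → ℂ := fun p ξ => ∑ c ∈ CC l, k c p ξ with hu
  have hub : ∀ p ∈ PP a l, Bd (u p) := fun p hp =>
    bd_sum (CC l) (fun c => k c p) fun c hc => (hk c p hc hp).1
  have huE : ∀ p ∈ PP a l, ∀ x, Ex (u p) x =
      ∑ c ∈ CC l, (eh a m sl l (Y c) p x : ℂ) * vv a m sg sl l (w c) c p x := by
    intro p hp x
    rw [hu]
    simp only
    rw [UND_.Ex_sum (CC l) (fun c => k c p) (fun c hc => (hk c p hc hp).1) x]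
    exact Finset.sum_congr rfl fun c hc => (hk c p hc hp).2.2 x
  have hε : (1 : ℝ) / 2 ^ (4 * a) / 4 = 1 / 2 ^ (4 * a + 2) := by
    rw [pow_add]
    field_simp
    norm_num
  have hε0 : (0 : ℝ) < 1 / 2 ^ (4 * a) / 4 := by positivity
  have hε1 : (1 : ℝ) / 2 ^ (4 * a) / 4 ≤ 1 / 2 ^ (4 * a) := div_le_self (by positivity) (by norm_num)
  have hus : ∀ p ∈ PP a l, ∀ ξ, u p ξ ≠ 0 → ξ ∈ V0 ∧ cp sl (l + 8 * a) p ξ ∧
      fr (1 / 2 ^ (4 * a + 2)) (2 ^ (l + 8 * a) * (ξ.2 / ξ.1 + sl)) := by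
    intro p hp ξ hξ
    obtain ⟨c, hc, hkc⟩ := Finset.exists_ne_zero_of_sum_ne_zero hξ
    have h1 := (hk c p hc hp).2.1 ξ hkc
    obtain ⟨q1, -, q3, -, q5⟩ := (hBXV a l c p sg sl _ ξ ha hl hsl1 hsl2 hp hε1 h1).1 hε0
    rw [hε] at q5
    exact ⟨q1, q3, q5⟩
  have hmain := hLCP a m l (3 * 2 ^ (l + 8 * a)) sl Z u hPA hlm hZm hnbf
    (fun p hp => ⟨hub p (Finset.mem_range.2 hp), hus p (Finset.mem_range.2 hp)⟩)
  -- the weights
  have hehb : ∀ c, ∀ p x, 0 ≤ eh a m sl l (Y c) p x ∧ eh a m sl l (Y c) p x ≤ 1 := by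
    intro c p x
    have hG : Measurable ((nb a l (Y c)).indicator (1 : ℝ × ℝ → ℝ≥0∞)) :=
      measurable_one.indicator (nb_open a l (Y c)).measurableSet
    have hGi : ∫⁻ x, (nb a l (Y c)).indicator (1 : ℝ × ℝ → ℝ≥0∞) x ≠ ⊤ := by
      rw [lintegral_indicator_one (nb_open a l (Y c)).measurableSet]
      exact (hYf c).ne
    obtain ⟨q1, q2, -, -⟩ := hETP a m l (l + 8 * a) p sl (Real.toNNReal (1 / 2 ^ (58 * a))) _
      (Hv a l sl (Y c) p) hPA (Real.toNNReal_pos.2 (by positivity)) hG hGi rfl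
    have h2 : (0 : ℝ) < 2 ^ (l + 8 * a) * bb a l := mul_pos (by positivity) (ETP_.bb_pos a l)
    exact (hETA m (tp sl (l + 8 * a) p) (bb a l) (2 ^ (l + 8 * a) * bb a l) _ hm1
      (ETP_.bb_pos a l) h2 q1 q2).2.1 x
  have hpt : ∀ p ∈ PP a l, ∀ x, ‖Ex (u p) x‖ₑ ^ 2 ≤
      21 * 2 ^ (118 * a) * ∑ c ∈ CC l, VV a m sg sl l (w c) c p x := by
    intro p hp x
    rw [huE p hp x]
    exact cs (CC l) (fun c => eh a m sl l (Y c) p x) (fun c => vv a m sg sl l (w c) c p x)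
      (fun c _ => hehb c p x) _ ((hOVL a m l sg sl w Y hP hPf x).1 p hp)
  have hVm : ∀ c p, Measurable (VV a m sg sl l (w c) c p) := fun c p =>
    K0_.meas_VV a m sg sl l _ c p
  -- first term
  have hT1 : ∑ p ∈ PP a l, ∫⁻ x in nb a l Z, ‖Ex (u p) x‖ₑ ^ 2 ≤
      21 * 2 ^ (118 * a) *
        ∫⁻ x in Z', ∑ c ∈ CC l, ∑ p ∈ PP a l, VV a m sg sl l (w c) c p x := by
    calc ∑ p ∈ PP a l, ∫⁻ x in nb a l Z, ‖Ex (u p) x‖ₑ ^ 2
        ≤ ∑ p ∈ PP a l, ∫⁻ x in Z', 21 * 2 ^ (118 * a) *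
            ∑ c ∈ CC l, VV a m sg sl l (w c) c p x := by
          refine Finset.sum_le_sum fun p hp => ?_
          exact (lintegral_mono_set hsub).trans (lintegral_mono fun x => hpt p hp x)
      _ = 21 * 2 ^ (118 * a) * ∑ p ∈ PP a l, ∫⁻ x in Z',
            ∑ c ∈ CC l, VV a m sg sl l (w c) c p x := by
          rw [Finset.mul_sum]
          refine Finset.sum_congr rfl fun p _ => ?_
          rw [lintegral_const_mul _ (Finset.measurable_fun_sum _ fun c _ => hVm c p)]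
      _ = _ := by
          rw [← lintegral_finsetSum _ fun p _ => Finset.measurable_fun_sum _ fun c _ => hVm c p]
          congr 1
          refine lintegral_congr fun x => ?_
          exact Finset.sum_comm
  -- second term
  have hT2 : ∑ p ∈ PP a l, n2 (u p) ≤ 21 * 2 ^ (118 * a) * volume (EE l w) := by
    calc ∑ p ∈ PP a l, n2 (u p)
        ≤ ∑ p ∈ PP a l, 21 * 2 ^ (118 * a) * ∑ c ∈ CC l, ∫⁻ x, VV a m sg sl l (w c) c p x := by
          refine Finset.sum_le_sum fun p hp => ?_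
          rw [← (pPl2 (u p) (hub p hp)).2, ← lintegral_finsetSum _ fun c _ => hVm c p,
            ← lintegral_const_mul _ (Finset.measurable_fun_sum _ fun c _ => hVm c p)]
          exact lintegral_mono fun x => hpt p hp x
      _ = 21 * 2 ^ (118 * a) * ∑ c ∈ CC l, ∑ p ∈ PP a l, ∫⁻ x, VV a m sg sl l (w c) c p x := by
          rw [← Finset.mul_sum, Finset.sum_comm]
      _ ≤ _ := by
          refine mul_le_mul' le_rfl (le_trans (Finset.sum_le_sum fun c hc => ?_)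
            (UND_.sum_sq_le hFm))
          have h1 := (hVB a m l sg sl (w c) hP (hbf c)).2.2
          refine le_trans ?_ h1
          exact Finset.single_le_sum (f := fun c' => ∑ p ∈ PP a l,
            ∫⁻ x, VV a m sg sl l (w c) c' p x) (fun _ _ => zero_le) hc
  -- small volume of Z'
  set y : ℝ := √(volume (EE l w)).toReal with hy
  set x : ℝ := √(volume Z').toReal with hx
  have hx0 : 0 ≤ x := Real.sqrt_nonneg _
  have hy0 : 0 ≤ y := Real.sqrt_nonneg _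
  have hEEy : volume (EE l w) = ENNReal.ofReal (y ^ 2) := by
    rw [hy, Real.sq_sqrt ENNReal.toReal_nonneg, ENNReal.ofReal_toReal hEEf.ne]
  have hZx : volume Z' = ENNReal.ofReal (x ^ 2) := by
    rw [hx, Real.sq_sqrt ENNReal.toReal_nonneg, ENNReal.ofReal_toReal hZf.ne]
  have hroot : ∀ s : ℝ, 0 ≤ s → ENNReal.ofReal (s ^ 2) ^ (1 / 2 : ℝ) = ENNReal.ofReal s := by
    intro s hs
    rw [ENNReal.ofReal_rpow_of_nonneg (by positivity) (by norm_num), ← Real.sqrt_eq_rpow,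
      Real.sqrt_sq hs]
  have hpow : ∀ n : ℕ, (2 : ℝ≥0∞) ^ n = ENNReal.ofReal (2 ^ n) := by
    intro n
    rw [ENNReal.ofReal_pow (by norm_num)]
    simp
  have hxy : x ≤ (C1 + 1) * (2 ^ (36 * a) / 2 ^ (209 * a)) * y := by
    have h1 := hmark.trans hj4
    rw [hEEy, hZx, hroot y hy0, hroot x hx0, hpow, hpow, ← ENNReal.ofReal_coe_nnreal,
      ← ENNReal.ofReal_mul (by positivity), ← ENNReal.ofReal_mul (by positivity),
      ← ENNReal.ofReal_mul (by positivity), ← ENNReal.ofReal_mul (by positivity),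
      ← ENNReal.ofReal_mul (by positivity), ← ENNReal.ofReal_add (by positivity) (by positivity),
      ENNReal.ofReal_le_ofReal_iff (by positivity)] at h1
    refine small C1 x y (2 ^ (209 * a)) (2 ^ (36 * a)) (1 / 2 ^ (7 * m)) (by positivity) hx0 hy0
      (by positivity) (by positivity) ?_ (by linarith [h1])
    rw [div_le_div_iff₀ (by positivity) (by positivity), one_mul, ← pow_mul, ← pow_add]
    exact pow_le_pow_right₀ (by norm_num) (by omega)
  have hint : ∫⁻ x in Z', ∑ c ∈ CC l, ∑ p ∈ PP a l, VV a m sg sl l (w c) c p x ≤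
      ENNReal.ofReal ((C0 * (C1 + 1) + 1) / 2 ^ (139 * a)) * volume (EE l w) := by
    refine (hC0 a m l sg sl w Z' hP hFm hZm').trans ?_
    rw [hEEy, hZx, hroot y hy0, hroot x hx0, hpow, ← ENNReal.ofReal_coe_nnreal,
      ← ENNReal.ofReal_mul (by positivity), ← ENNReal.ofReal_mul (by positivity),
      ← ENNReal.ofReal_mul (by positivity), ← ENNReal.ofReal_mul (by positivity),
      ← ENNReal.ofReal_mul (by positivity), ← ENNReal.ofReal_add (by positivity) (by positivity)]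
    refine ENNReal.ofReal_le_ofReal ?_
    have e1 : (2 : ℝ) ^ (209 * a) = 2 ^ (173 * a) * 2 ^ (36 * a) := by
      rw [← pow_add]; congr 1; ring
    have e2 : (2 : ℝ) ^ (173 * a) = 2 ^ (139 * a) * 2 ^ (34 * a) := by
      rw [← pow_add]; congr 1; ring
    have h1 : (C0 : ℝ) * 2 ^ (34 * a) * y * x ≤ C0 * (C1 + 1) / 2 ^ (139 * a) * y ^ 2 := by
      calc (C0 : ℝ) * 2 ^ (34 * a) * y * x
          ≤ C0 * 2 ^ (34 * a) * y * ((C1 + 1) * (2 ^ (36 * a) / 2 ^ (209 * a)) * y) :=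
            mul_le_mul_of_nonneg_left hxy (by positivity)
        _ = _ := by
            rw [e1, e2]
            field_simp
    have h2 : (1 : ℝ) / 2 ^ (9 * m) ≤ 1 / 2 ^ (139 * a) := by
      refine one_div_le_one_div_of_le (by positivity) ?_
      exact pow_le_pow_right₀ (by norm_num) (by omega)
    calc (C0 : ℝ) * 2 ^ (34 * a) * y * x + 1 / 2 ^ (9 * m) * y ^ 2
        ≤ C0 * (C1 + 1) / 2 ^ (139 * a) * y ^ 2 + 1 / 2 ^ (139 * a) * y ^ 2 :=
          add_le_add h1 (mul_le_mul_of_nonneg_right h2 (by positivity))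
      _ = _ := by ring
  -- conclusion
  have hLHS : ∫⁻ x in Z, ‖∑ c ∈ CC l, ∑ p ∈ PP a l,
      (eh a m sl l (Y c) p x : ℂ) * vv a m sg sl l (w c) c p x‖ₑ ^ 2 =
      ∫⁻ x in Z, ‖∑ p ∈ Finset.range (3 * 2 ^ (l + 8 * a)), Ex (u p) x‖ₑ ^ 2 := by
    refine lintegral_congr fun x => ?_
    rw [Finset.sum_comm]
    congr 2
    exact Finset.sum_congr rfl fun p hp => (huE p hp x).symm
  rw [hLHS]
  refine hmain.trans ?_
  change 2 * (∑ p ∈ PP a l, ∫⁻ x in nb a l Z, ‖Ex (u p) x‖ₑ ^ 2) +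
      ENNReal.ofReal (1 / 2 ^ (38 * m)) * ∑ p ∈ PP a l, n2 (u p) ≤ _
  calc 2 * (∑ p ∈ PP a l, ∫⁻ x in nb a l Z, ‖Ex (u p) x‖ₑ ^ 2) +
        ENNReal.ofReal (1 / 2 ^ (38 * m)) * ∑ p ∈ PP a l, n2 (u p)
      ≤ 2 * (21 * 2 ^ (118 * a) *
          (ENNReal.ofReal ((C0 * (C1 + 1) + 1) / 2 ^ (139 * a)) * volume (EE l w))) +
        ENNReal.ofReal (1 / 2 ^ (38 * m)) * (21 * 2 ^ (118 * a) * volume (EE l w)) :=
        add_le_add (mul_le_mul' le_rfl (hT1.trans (mul_le_mul' le_rfl hint)))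
          (mul_le_mul' le_rfl hT2)
    _ = (2 * (21 * 2 ^ (118 * a) * ENNReal.ofReal ((C0 * (C1 + 1) + 1) / 2 ^ (139 * a))) +
        ENNReal.ofReal (1 / 2 ^ (38 * m)) * (21 * 2 ^ (118 * a))) * volume (EE l w) := by ring
    _ ≤ _ := by
        refine mul_le_mul' ?_ le_rfl
        have e2 : (2 : ℝ≥0∞) = ENNReal.ofReal 2 := by simp
        have e21 : (21 : ℝ≥0∞) = ENNReal.ofReal 21 := by simp
        rw [hpow, ← ENNReal.ofReal_coe_nnreal, e21, ← ENNReal.ofReal_mul (by positivity),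
          ← ENNReal.ofReal_mul (by positivity), e2, ← ENNReal.ofReal_mul (by positivity),
          ← ENNReal.ofReal_mul (by positivity), ← ENNReal.ofReal_mul (by positivity),
          ← ENNReal.ofReal_add (by positivity) (by positivity)]
        refine ENNReal.ofReal_le_ofReal ?_
        push_cast
        have e3 : (2 : ℝ) ^ (139 * a) = 2 ^ (118 * a) * (2 ^ a * 2 ^ (20 * a)) := by
          rw [← pow_add, ← pow_add]; congr 1; ring
        have h1 : (2 : ℝ) * (21 * 2 ^ (118 * a) * ((C0 * (C1 + 1) + 1) / 2 ^ (139 * a))) ≤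
            42 * (C0 * (C1 + 1) + 1) * (1 / 2 ^ (20 * a)) := by
          have h3 : (2 : ℝ) * (21 * 2 ^ (118 * a) * ((C0 * (C1 + 1) + 1) / 2 ^ (139 * a))) =
              42 * (C0 * (C1 + 1) + 1) * (1 / 2 ^ (20 * a)) * (1 / 2 ^ a) := by
            rw [e3]
            field_simp
            ring
          rw [h3]
          refine mul_le_of_le_one_right (by positivity) ?_
          rw [div_le_one (by positivity)]
          exact one_le_pow₀ (by norm_num)
        have h2 : (1 : ℝ) / 2 ^ (38 * m) * (21 * 2 ^ (118 * a)) ≤ 21 * (1 / 2 ^ (20 * a)) := by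
          have h3 : (1 : ℝ) / 2 ^ (38 * m) ≤ 1 / (2 ^ (118 * a) * 2 ^ (20 * a)) := by
            refine one_div_le_one_div_of_le (by positivity) ?_
            rw [← pow_add]
            exact pow_le_pow_right₀ (by norm_num) (by omega)
          calc (1 : ℝ) / 2 ^ (38 * m) * (21 * 2 ^ (118 * a))
              ≤ 1 / (2 ^ (118 * a) * 2 ^ (20 * a)) * (21 * 2 ^ (118 * a)) :=
                mul_le_mul_of_nonneg_right h3 (by positivity)
            _ = _ := by field_simp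
        linarith

end Pool.Agent.SLog
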