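import Pool.Agent.SLog.Targets
import Pool.Agent.KSP.Ker

set_option autoImplicit false

/-! MP_ee701d_an: Bessel inequality on short intervals (tBES). -/

namespace Pool.Agent.SLog

open MeasureTheory Set
open scoped ENNReal NNReal ComplexConjugate
open Pool.Agent.KSP (ee)
open Pool.Agent.KSP.Ker_ (norm_ee cont_ee conj_ee ee_add parseval)

namespace BES_

lemma sq_eq (z : ℂ) : ‖z‖ ^ 2 = ‖z‖ * ‖z‖ := sq _

/-- bounded measurable functions are interval integrable -/
lemma ii {g : ℝ → ℂ} (hm : Measurable g) {B : ℝ} (hB : ∀ s, ‖g s‖ ≤ B) (a b : ℝ) :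
    IntervalIntegrable g volume a b := by
  have h1 : IntervalIntegrable (fun _ : ℝ => B) volume a b := intervalIntegrable_const
  refine h1.mono_fun' hm.aestronglyMeasurable ?_
  exact ae_of_all _ hB

lemma ii_sq {g : ℝ → ℂ} (hm : Measurable g) {B : ℝ} (hB : ∀ s, ‖g s‖ ≤ B) (a b : ℝ) :
    IntervalIntegrable (fun s => ‖g s‖ ^ 2) volume a b := by
  have h1 : IntervalIntegrable (fun _ : ℝ => B ^ 2) volume a b := intervalIntegrable_const
  refine h1.mono_fun' ((hm.norm.pow_const 2).aestronglyMeasurable) ?_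
  refine ae_of_all _ fun s => ?_
  have h0 := norm_nonneg (g s)
  have h2 := hB s
  change ‖‖g s‖ ^ 2‖ ≤ B ^ 2
  rw [Real.norm_of_nonneg (by positivity)]
  nlinarith

/-- Bessel's inequality on the unit interval -/
lemma bes1 (S : Finset ℕ) {g : ℝ → ℂ} (hm : Measurable g) {B : ℝ} (hB : ∀ s, ‖g s‖ ≤ B) :
    ∑ l ∈ S, ‖∫ s in (0 : ℝ)..1, g s * ee (l * s)‖ ^ 2 ≤ ∫ s in (0 : ℝ)..1, ‖g s‖ ^ 2 := by
  set c : ℕ → ℂ := fun l => ∫ s in (0 : ℝ)..1, g s * ee (l * s) with hc
  set h : ℝ → ℂ := fun s => ∑ l ∈ S, c l * ee (-(l * s)) with hh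
  have hhc : Continuous h := by
    refine continuous_finsetSum _ fun l _ => continuous_const.mul (cont_ee.comp (by fun_prop))
  have hP : ∫ s in (0 : ℝ)..1, ‖h s‖ ^ 2 = ∑ l ∈ S, ‖c l‖ ^ 2 := by
    have h1 := parseval 0 S (fun l => conj (c l))
    rw [zero_add] at h1
    have h2 : ∀ s : ℝ, ‖h s‖ = ‖∑ l ∈ S, conj (c l) * ee (l * s)‖ := by
      intro s
      rw [← RCLike.norm_conj (h s)]
      congr 1
      simp only [hh]
      rw [map_sum]
      refine Finset.sum_congr rfl fun l _ => ?_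
      rw [map_mul, conj_ee, neg_neg]
    simp only [h2]
    rw [h1]
    refine Finset.sum_congr rfl fun l _ => ?_
    rw [RCLike.norm_conj]
  have i1 : IntervalIntegrable (fun s => ‖g s‖ ^ 2) volume 0 1 := ii_sq hm hB 0 1
  have i2 : IntervalIntegrable (fun s => ‖h s‖ ^ 2) volume 0 1 :=
    (hhc.norm.pow 2).intervalIntegrable _ _
  have i3c : ∀ l : ℕ, IntervalIntegrable (fun s => conj (c l) * (g s * ee (l * s))) volume 0 1 := by
    intro l
    refine IntervalIntegrable.const_mul ?_ _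
    refine ii (B := B) (hm.mul (cont_ee.comp (by fun_prop)).measurable) (fun s => ?_) 0 1
    change ‖g s * ee (l * s)‖ ≤ B
    rw [norm_mul, norm_ee, mul_one]
    exact hB s
  have e3 : ∀ s, g s * conj (h s) = ∑ l ∈ S, conj (c l) * (g s * ee (l * s)) := by
    intro s
    simp only [hh]
    rw [map_sum, Finset.mul_sum]
    refine Finset.sum_congr rfl fun l _ => ?_
    rw [map_mul, conj_ee, neg_neg]; ring
  have hcross : ∫ s in (0 : ℝ)..1, g s * conj (h s) = ((∑ l ∈ S, ‖c l‖ ^ 2 : ℝ) : ℂ) := by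
    simp only [e3]
    rw [intervalIntegral.integral_finsetSum fun l _ => i3c l]
    push_cast
    refine Finset.sum_congr rfl fun l _ => ?_
    rw [intervalIntegral.integral_const_mul]
    change conj (c l) * c l = _
    rw [mul_comm, Complex.mul_conj']
  have i3 : IntervalIntegrable (fun s => g s * conj (h s)) volume 0 1 := by
    have e : (fun s => g s * conj (h s)) = ∑ l ∈ S, fun s => conj (c l) * (g s * ee (l * s)) := by
      ext s
      rw [Finset.sum_apply]
      exact e3 s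
    rw [e]
    exact IntervalIntegrable.sum _ fun l _ => i3c l
  have hre : ∫ s in (0 : ℝ)..1, (g s * conj (h s)).re = ∑ l ∈ S, ‖c l‖ ^ 2 := by
    have := congrArg Complex.re hcross
    rw [Complex.ofReal_re] at this
    rw [← this]
    rw [intervalIntegral.integral_of_le zero_le_one, intervalIntegral.integral_of_le zero_le_one]
    have i3' : Integrable (fun s => g s * conj (h s)) (volume.restrict (Ioc 0 1)) := i3.1
    exact integral_re i3'
  have hpos : 0 ≤ ∫ s in (0 : ℝ)..1, ‖g s - h s‖ ^ 2 :=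
    intervalIntegral.integral_nonneg zero_le_one fun s _ => by positivity
  have hexp : ∫ s in (0 : ℝ)..1, ‖g s - h s‖ ^ 2 =
      (∫ s in (0 : ℝ)..1, ‖g s‖ ^ 2) - 2 * (∑ l ∈ S, ‖c l‖ ^ 2) + ∑ l ∈ S, ‖c l‖ ^ 2 := by
    have e : ∀ s, ‖g s - h s‖ ^ 2 = (‖g s‖ ^ 2 - 2 * (g s * conj (h s)).re) + ‖h s‖ ^ 2 := by
      intro s
      rw [← Complex.normSq_eq_norm_sq, ← Complex.normSq_eq_norm_sq, ← Complex.normSq_eq_norm_sq,
        Complex.normSq_sub]
      ring
    simp only [e]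
    have ire : IntervalIntegrable (fun s => 2 * (g s * conj (h s)).re) volume 0 1 := by
      refine IntervalIntegrable.const_mul ?_ 2
      rw [intervalIntegrable_iff_integrableOn_Ioc_of_le zero_le_one] at i3 ⊢
      exact i3.re
    rw [intervalIntegral.integral_add (i1.sub ire) i2, intervalIntegral.integral_sub i1 ire,
      intervalIntegral.integral_const_mul, hre, hP]
  linarith

/-- an interval of length `T` -/
lemma besT (S : Finset ℕ) {F : ℝ → ℂ} (hm : Measurable F) {B : ℝ} (hB : ∀ s, ‖F s‖ ≤ B)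
    {T : ℝ} (hT : 0 < T) (s0 : ℝ) :
    ∑ l ∈ S, ‖∫ s in s0..(s0 + T), F s * ee (l * s / T)‖ ^ 2 ≤
      T * ∫ s in s0..(s0 + T), ‖F s‖ ^ 2 := by
  have h1 := bes1 S (g := fun u => F (T * u + s0)) (B := B)
    (hm.comp (by fun_prop)) (fun s => hB _)
  have e1 : ∫ u in (0 : ℝ)..1, ‖F (T * u + s0)‖ ^ 2 = T⁻¹ * ∫ s in s0..(s0 + T), ‖F s‖ ^ 2 := by
    have := intervalIntegral.integral_comp_mul_add (a := 0) (b := 1)
      (fun s => ‖F s‖ ^ 2) hT.ne' s0
    rw [this]
    simp only [smul_eq_mul, mul_zero, zero_add, mul_one]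
    rw [add_comm T s0]
  have e2 : ∀ l : ℕ, ‖∫ u in (0 : ℝ)..1, F (T * u + s0) * ee (l * u)‖
      = T⁻¹ * ‖∫ s in s0..(s0 + T), F s * ee (l * s / T)‖ := by
    intro l
    have h2 : ∀ u : ℝ, F (T * u + s0) * ee (l * u) = ee (-(l * s0 / T)) *
        (F (T * u + s0) * ee (l * (T * u + s0) / T)) := by
      intro u
      have h3 : (l : ℝ) * (T * u + s0) / T = l * u + l * s0 / T := by field_simp
      rw [h3, ee_add]
      have h4 : ee (-(l * s0 / T)) * ee (l * s0 / T) = 1 := by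
        rw [← ee_add]; simp [ee]
      linear_combination (-(F (T * u + s0) * ee (l * u))) * h4
    simp only [h2]
    rw [intervalIntegral.integral_const_mul, norm_mul, norm_ee, one_mul]
    have := intervalIntegral.integral_comp_mul_add (a := 0) (b := 1)
      (fun s => F s * ee (l * s / T)) hT.ne' s0
    rw [this, norm_smul]
    simp only [mul_zero, zero_add, mul_one]
    rw [add_comm T s0, Real.norm_of_nonneg (by positivity)]
  simp only [e2] at h1
  rw [e1] at h1
  have h3 : ∑ l ∈ S, (T⁻¹ * ‖∫ s in s0..(s0 + T), F s * ee (l * s / T)‖) ^ 2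
      = T⁻¹ ^ 2 * ∑ l ∈ S, ‖∫ s in s0..(s0 + T), F s * ee (l * s / T)‖ ^ 2 := by
    rw [Finset.mul_sum]
    exact Finset.sum_congr rfl fun l _ => by ring
  rw [h3] at h1
  set A := ∑ l ∈ S, ‖∫ s in s0..(s0 + T), F s * ee (l * s / T)‖ ^ 2 with hA
  set I := ∫ s in s0..(s0 + T), ‖F s‖ ^ 2 with hI
  have h4 : T ^ 2 * (T⁻¹ ^ 2 * A) ≤ T ^ 2 * (T⁻¹ * I) :=
    mul_le_mul_of_nonneg_left h1 (by positivity)
  have h5 : T ^ 2 * (T⁻¹ ^ 2 * A) = A := by field_simp
  have h6 : T ^ 2 * (T⁻¹ * I) = T * I := by field_simp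
  rw [h5, h6] at h4
  exact h4

lemma besR (n N : ℕ) {F : ℝ → ℂ} (hm : Measurable F) {B : ℝ} (hB : ∀ s, ‖F s‖ ≤ B)
    {T : ℝ} (hT : 0 < T) :
    ∑ l ∈ Finset.range n, ‖∫ s in (-(N * T))..(N * T), F s * ee (l * s / T)‖ ^ 2 ≤
      2 * N * T * ∫ s in (-(N * T))..(N * T), ‖F s‖ ^ 2 := by
  set P : ℕ → ℝ := fun k => -(N * T) + k * T with hP
  have hP0 : P 0 = -(N * T) := by simp [hP]
  have hPe : P (2 * N) = N * T := by simp only [hP]; push_cast; ring
  have hPs : ∀ k, P (k + 1) = P k + T := fun k => by simp only [hP]; push_cast; ring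
  have hmul : ∀ l : ℕ, ∀ a b : ℝ, IntervalIntegrable (fun s => F s * ee (l * s / T)) volume a b := by
    intro l a b
    have hc1 : Continuous fun s : ℝ => (l : ℝ) * s / T := by fun_prop
    refine ii (B := B) (hm.mul (cont_ee.comp hc1).measurable) (fun s => ?_) a b
    change ‖F s * ee (l * s / T)‖ ≤ B
    rw [norm_mul, norm_ee, mul_one]
    exact hB s
  have hsplit : ∀ l : ℕ, ∫ s in (-(N * T))..(N * T), F s * ee (l * s / T)
      = ∑ k ∈ Finset.range (2 * N), ∫ s in P k..(P k + T), F s * ee (l * s / T) := by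
    intro l
    rw [← hP0, ← hPe, ← intervalIntegral.sum_integral_adjacent_intervals
      (fun k _ => hmul l _ _)]
    simp only [hPs]
  have hsplit2 : ∫ s in (-(N * T))..(N * T), ‖F s‖ ^ 2
      = ∑ k ∈ Finset.range (2 * N), ∫ s in P k..(P k + T), ‖F s‖ ^ 2 := by
    rw [← hP0, ← hPe, ← intervalIntegral.sum_integral_adjacent_intervals
      (fun k _ => ii_sq hm hB _ _)]
    simp only [hPs]
  have hCS : ∀ l : ℕ, ‖∫ s in (-(N * T))..(N * T), F s * ee (l * s / T)‖ ^ 2 ≤
      2 * N * ∑ k ∈ Finset.range (2 * N), ‖∫ s in P k..(P k + T), F s * ee (l * s / T)‖ ^ 2 := by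
    intro l
    rw [hsplit]
    calc ‖∑ k ∈ Finset.range (2 * N), ∫ s in P k..(P k + T), F s * ee (l * s / T)‖ ^ 2
        ≤ (∑ k ∈ Finset.range (2 * N), ‖∫ s in P k..(P k + T), F s * ee (l * s / T)‖) ^ 2 :=
          pow_le_pow_left₀ (norm_nonneg _) (norm_sum_le _ _) 2
      _ ≤ (Finset.range (2 * N)).card * ∑ k ∈ Finset.range (2 * N),
          ‖∫ s in P k..(P k + T), F s * ee (l * s / T)‖ ^ 2 := sq_sum_le_card_mul_sum_sq
      _ = _ := by rw [Finset.card_range]; push_cast; rfl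
  calc ∑ l ∈ Finset.range n, ‖∫ s in (-(N * T))..(N * T), F s * ee (l * s / T)‖ ^ 2
      ≤ ∑ l ∈ Finset.range n, 2 * N * ∑ k ∈ Finset.range (2 * N),
        ‖∫ s in P k..(P k + T), F s * ee (l * s / T)‖ ^ 2 :=
        Finset.sum_le_sum fun l _ => hCS l
    _ = 2 * N * ∑ k ∈ Finset.range (2 * N), ∑ l ∈ Finset.range n,
        ‖∫ s in P k..(P k + T), F s * ee (l * s / T)‖ ^ 2 := by
        rw [← Finset.mul_sum, Finset.sum_comm]
    _ ≤ 2 * N * ∑ k ∈ Finset.range (2 * N), T * ∫ s in P k..(P k + T), ‖F s‖ ^ 2 := by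
        refine mul_le_mul_of_nonneg_left ?_ (by positivity)
        exact Finset.sum_le_sum fun k _ => besT _ hm hB hT (P k)
    _ = 2 * N * T * ∫ s in (-(N * T))..(N * T), ‖F s‖ ^ 2 := by
        rw [hsplit2, ← Finset.mul_sum]; ring

end BES_

open BES_

theorem pBES : tBES := by
  intro n N T F hT hm ⟨B, hB⟩
  have hle : -(N * T) ≤ N * T := by
    have : 0 ≤ (N : ℝ) * T := by positivity
    linarith
  have e1 : ∀ c : ℕ, ∫ s in Ico (-(N * T)) (N * T), F s * ee (c * s / T)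
      = ∫ s in (-(N * T))..(N * T), F s * ee (c * s / T) := by
    intro c
    rw [intervalIntegral.integral_of_le hle, integral_Ico_eq_integral_Ioc]
  have e2 : ∫⁻ s in Ico (-(N * T)) (N * T), ‖F s‖ₑ ^ 2
      = ENNReal.ofReal (∫ s in (-(N * T))..(N * T), ‖F s‖ ^ 2) := by
    rw [intervalIntegral.integral_of_le hle, ← integral_Ico_eq_integral_Ioc]
    have h1 : IntegrableOn (fun s => ‖F s‖ ^ 2) (Ico (-(N * T)) (N * T)) := by
      have := ii_sq hm hB (-(N * T)) (N * T)
      rw [intervalIntegrable_iff_integrableOn_Ico_of_le hle] at this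
      exact this
    rw [ofReal_integral_eq_lintegral_ofReal h1 (ae_of_all _ fun s => by positivity)]
    refine lintegral_congr fun s => ?_
    rw [ENNReal.ofReal_pow (norm_nonneg _), ofReal_norm_eq_enorm]
  simp only [e1]
  rw [e2]
  have e3 : ∀ c : ℕ, ‖∫ s in (-(N * T))..(N * T), F s * ee (c * s / T)‖ₑ ^ 2
      = ENNReal.ofReal (‖∫ s in (-(N * T))..(N * T), F s * ee (c * s / T)‖ ^ 2) := by
    intro c
    rw [ENNReal.ofReal_pow (norm_nonneg _), ofReal_norm_eq_enorm]
  simp only [e3]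
  rw [← ENNReal.ofReal_sum_of_nonneg (fun _ _ => by positivity),
    ← ENNReal.ofReal_mul (by positivity)]
  exact ENNReal.ofReal_le_ofReal (besR n N hm hB hT)

end Pool.Agent.SLog
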