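import Pool.Agent.SLog.BR3

set_option autoImplicit false

/-! The maximal Bochner-Riesz operator of order `δ`, `0 < δ ≤ 1`, in the plane. -/

namespace Pool.Agent.SEnd

open MeasureTheory FourierTransform Set Filter Topology
open scoped ENNReal NNReal
open Pool.Agent.MBS (E ex S)
open Pool.Agent.KSP (IE BdE tPlE)

/-- the maximal Bochner-Riesz operators of order `δ → 0` -/
def tBRs (α : ℕ) : Prop := ∃ C : ℝ≥0, ∀ (δ : ℝ) (f : E 2 → ℂ), 0 < δ → δ ≤ 1 →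
  Measurable f → Integrable f → MemLp f 2 →
  ∫⁻ x, (⨆ (R : ℝ) (_ : 0 < R), ‖BRm δ f R x‖ₑ) ^ 2 ≤
    C * ENNReal.ofReal (Real.log (3 + δ⁻¹) ^ α) * ∫⁻ x, ‖f x‖ₑ ^ 2

namespace BR_

lemma AA_pos {h : ℝ} (h0 : 0 < h) : ∀ R ∈ AA h, 0 < R := by
  rintro R ⟨j, rfl⟩
  exact Real.sqrt_pos.2 (zpow_pos (by linarith) j)

lemma AA_sep {h : ℝ} (h0 : 0 < h) (h1 : h ≤ 1 / 2) :
    ∀ R ∈ AA h, ∀ R' ∈ AA h, R < R' → R + h / 4 * R' ≤ R' := by
  rintro R ⟨i, rfl⟩ R' ⟨j, rfl⟩ hlt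
  set y : ℝ := 1 + h with hy
  have hy1 : 1 < y := by linarith
  have hy0 : 0 < y := by linarith
  have hyi : 0 < y ^ i := zpow_pos hy0 i
  have hyj : 0 < y ^ j := zpow_pos hy0 j
  have h2 : y ^ i < y ^ j := by
    have := (Real.sqrt_lt_sqrt_iff hyi.le).1 hlt
    exact this
  have hij : i < j := (zpow_lt_zpow_iff_right₀ hy1).1 h2
  have h3 : y ^ i * y ≤ y ^ j := by
    rw [← zpow_add_one₀ hy0.ne']
    exact zpow_le_zpow_right₀ hy1.le (by omega)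
  have h4 : 1 ≤ y * (1 - h / 4) ^ 2 := by
    rw [hy]
    nlinarith [mul_pos h0 h0, mul_nonneg h0.le (sub_nonneg.2 h1)]
  have h5 : y ^ i ≤ ((1 - h / 4) * √(y ^ j)) ^ 2 := by
    rw [mul_pow, Real.sq_sqrt hyj.le]
    have h6 : y ^ i ≤ y ^ i * (y * (1 - h / 4) ^ 2) := le_mul_of_one_le_right hyi.le h4
    nlinarith [sq_nonneg (1 - h / 4)]
  have h7 : √(y ^ i) ≤ (1 - h / 4) * √(y ^ j) := by
    rw [Real.sqrt_le_left (mul_nonneg (by linarith) (Real.sqrt_nonneg _))]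
    exact h5
  show √(y ^ i) + h / 4 * √(y ^ j) ≤ √(y ^ j)
  linarith

lemma Err_meas {f : E 2 → ℂ} (hf : Integrable f) (h : ℝ) : Measurable (Err f h) := by
  unfold Err
  refine Measurable.tsum fun j => ?_
  exact (Dj_meas2 hf (1 + h) j).lintegral_prod_right'.const_mul _

lemma S_meas {f : E 2 → ℂ} (hf : Integrable f) (R : ℝ) : Measurable fun x => S f R x := by
  have h2 : Measurable fun x : E 2 => ((R, x) : ℝ × E 2) := by fun_prop
  exact (meas_S hf).comp h2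

lemma NN_meas {f : E 2 → ℂ} (hf : Integrable f) (h : ℝ) : Measurable (NN f h) := by
  unfold NN
  refine Measurable.add ?_ ((Err_meas hf h).const_mul _)
  refine (Measurable.pow_const ?_ 2).const_mul _
  refine Measurable.biSup (AA h) (countable_range _) fun R _ => ?_
  exact (S_meas hf R).enorm

lemma NN_int {α : ℕ} (hD : tDSs α) (hP : tPlE) : ∃ C : ℝ≥0, ∀ (k : ℕ) (f : E 2 → ℂ),
    Measurable f → Integrable f → MemLp f 2 → ∫⁻ x, NN f ((1 / 2) ^ (k + 1)) x ≤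
      C * ENNReal.ofReal (Real.log (3 + Real.log (2 ^ (k + 3))) ^ α) * ∫⁻ x, ‖f x‖ₑ ^ 2 := by
  obtain ⟨C, hC⟩ := hD
  refine ⟨2 * C + 2, fun k f hm hf h2 => ?_⟩
  set h : ℝ := (1 / 2) ^ (k + 1) with hh
  have h0 : 0 < h := by positivity
  have h1 : h ≤ 1 / 2 := by
    rw [hh, pow_succ]
    have : (1 / 2 : ℝ) ^ k ≤ 1 := pow_le_one₀ (by norm_num) (by norm_num)
    linarith
  have h3 := hC (h / 4) (AA h) f (by positivity) (by linarith) (AA_pos h0) (AA_sep h0 h1) hm hf h2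
  have h4 : (h / 4)⁻¹ = 2 ^ (k + 3) := by
    rw [hh, pow_succ 2 (k + 2), pow_succ 2 (k + 1), one_div, inv_pow]
    field_simp
    norm_num
  rw [h4] at h3
  set L : ℝ≥0∞ := ENNReal.ofReal (Real.log (3 + Real.log (2 ^ (k + 3))) ^ α) with hL
  have hL1 : 1 ≤ L := by
    rw [hL, ← ENNReal.ofReal_one]
    refine ENNReal.ofReal_le_ofReal (one_le_pow₀ ?_)
    have h5 : 0 ≤ Real.log (2 ^ (k + 3)) := Real.log_nonneg (one_le_pow₀ (by norm_num))
    rw [Real.le_log_iff_exp_le (by linarith)]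
    have := Real.exp_one_lt_d9
    linarith
  unfold NN
  rw [lintegral_add_right _ ((Err_meas hf h).const_mul _), lintegral_const_mul' _ _ (by norm_num),
    lintegral_const_mul' _ _ (by norm_num)]
  calc _ ≤ 2 * (C * L * ∫⁻ x, ‖f x‖ₑ ^ 2) + 2 * (L * ∫⁻ x, ‖f x‖ₑ ^ 2) := by
        refine add_le_add (mul_le_mul' le_rfl h3) (mul_le_mul' le_rfl ?_)
        refine (err_int hP hf h2 h0).trans ?_
        calc ∫⁻ x, ‖f x‖ₑ ^ 2 = 1 * ∫⁻ x, ‖f x‖ₑ ^ 2 := (one_mul _).symm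
          _ ≤ _ := mul_le_mul' hL1 le_rfl
    _ = _ := by
        push_cast
        ring

/-- the numerical inequality for one `k` -/
lemma num1 {δ : ℝ} (hδ : 0 < δ) (hδ1 : δ ≤ 1) (k : ℕ) :
    Real.log (3 + Real.log (2 ^ (k + 3))) ≤ 2 * Real.log (3 + δ⁻¹) * (1 + δ * k) := by
  have hi : 1 ≤ δ⁻¹ := (one_le_inv₀ hδ).2 hδ1
  have hk : (0 : ℝ) ≤ k := Nat.cast_nonneg k
  have h1 : Real.log (2 ^ (k + 3)) ≤ k + 3 := by
    rw [Real.log_pow]
    have := Real.log_two_lt_d9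
    push_cast
    nlinarith
  have h5 : 0 ≤ Real.log (2 ^ (k + 3)) := Real.log_nonneg (one_le_pow₀ (by norm_num))
  have hL1 : 1 ≤ Real.log (3 + δ⁻¹) := by
    rw [Real.le_log_iff_exp_le (by linarith)]
    have := Real.exp_one_lt_d9
    linarith
  have h2 : 3 + Real.log (2 ^ (k + 3)) ≤ (3 + δ⁻¹) ^ 2 * (1 + δ * k) := by
    have h6 : δ⁻¹ * δ = 1 := inv_mul_cancel₀ hδ.ne'
    have h7 : (3 + δ⁻¹) ^ 2 * (1 + δ * k) = (3 + δ⁻¹) ^ 2 + (3 + δ⁻¹) * (3 * δ * k + k) := by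
      linear_combination (3 + δ⁻¹) * k * h6
    rw [h7]
    have h8 : (16 : ℝ) ≤ (3 + δ⁻¹) ^ 2 := by nlinarith
    have h9 : (k : ℝ) ≤ (3 + δ⁻¹) * (3 * δ * k + k) := by
      have : 0 ≤ 3 * δ * k := by positivity
      nlinarith
    linarith
  calc _ ≤ Real.log ((3 + δ⁻¹) ^ 2 * (1 + δ * k)) := Real.log_le_log (by linarith) h2
    _ = 2 * Real.log (3 + δ⁻¹) + Real.log (1 + δ * k) := by
        rw [Real.log_mul (by positivity) (by positivity), Real.log_pow]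
        norm_num
    _ ≤ 2 * Real.log (3 + δ⁻¹) + δ * k := by
        have := Real.log_le_sub_one_of_pos (x := 1 + δ * k) (by positivity)
        linarith
    _ ≤ _ := by
        have : 0 ≤ δ * k := by positivity
        nlinarith

lemma num2 (α : ℕ) {x : ℝ} (hx : 0 ≤ x) :
    (1 + x) ^ α ≤ (α.factorial * 3 ^ α * 2 : ℝ) * 2 ^ (x / 2) := by
  have hl : 0.6931471803 < Real.log 2 := Real.log_two_gt_d9
  have h1 : ((1 + x) * (Real.log 2 / 2)) ^ α / α.factorial ≤ Real.exp ((1 + x) * (Real.log 2 / 2)) :=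
    Real.pow_div_factorial_le_exp _ (by positivity) α
  have h2 : Real.exp ((1 + x) * (Real.log 2 / 2)) = 2 ^ ((1 + x) / 2) := by
    rw [Real.rpow_def_of_pos (by norm_num)]
    congr 1
    ring
  have h3 : (2 : ℝ) ^ ((1 + x) / 2) ≤ 2 * 2 ^ (x / 2) := by
    calc (2 : ℝ) ^ ((1 + x) / 2) ≤ 2 ^ (1 + x / 2) :=
          Real.rpow_le_rpow_of_exponent_le (by norm_num) (by linarith)
      _ = 2 * 2 ^ (x / 2) := by rw [Real.rpow_add (by norm_num), Real.rpow_one]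
  have h4 : (1 + x) ^ α ≤ 3 ^ α * ((1 + x) * (Real.log 2 / 2)) ^ α := by
    rw [← mul_pow]
    refine pow_le_pow_left₀ (by positivity) ?_ α
    nlinarith
  rw [div_le_iff₀ (by positivity)] at h1
  calc (1 + x) ^ α ≤ 3 ^ α * ((1 + x) * (Real.log 2 / 2)) ^ α := h4
    _ ≤ 3 ^ α * (Real.exp ((1 + x) * (Real.log 2 / 2)) * α.factorial) := by gcongr
    _ ≤ 3 ^ α * ((2 * 2 ^ (x / 2)) * α.factorial) := by
        rw [h2]
        gcongr
    _ = _ := by ring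

lemma num3 {δ : ℝ} (hδ : 0 < δ) (hδ1 : δ ≤ 1) :
    ∑' k : ℕ, ENNReal.ofReal (δ * 2 ^ (-(δ * k / 2))) ≤ 4 := by
  set r : ℝ := 2 ^ (-(δ / 2)) with hr
  have hr0 : 0 < r := by positivity
  have hr1 : r ≤ 1 - δ / 4 := by
    have h1 := _root_.rpow_one_add_le_one_add_mul_self (s := -(1 / 2)) (p := δ / 2) (by norm_num)
      (by positivity) (by linarith)
    have h2 : (1 + -(1 / 2) : ℝ) ^ (δ / 2) = r := by
      rw [hr, Real.rpow_neg (by norm_num), ← Real.inv_rpow (by norm_num)]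
      norm_num
    rw [h2] at h1
    linarith
  have h3 : ∀ k : ℕ, δ * 2 ^ (-(δ * k / 2)) = δ * r ^ k := by
    intro k
    rw [hr, ← Real.rpow_natCast, ← Real.rpow_mul (by norm_num)]
    congr 2
    ring
  simp only [h3]
  have hs : Summable fun k : ℕ => δ * r ^ k :=
    (summable_geometric_of_lt_one hr0.le (by linarith)).mul_left _
  rw [← ENNReal.ofReal_tsum_of_nonneg (fun k => by positivity) hs, tsum_mul_left,
    tsum_geometric_of_lt_one hr0.le (by linarith)]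
  rw [show (4 : ℝ≥0∞) = ENNReal.ofReal 4 by simp]
  refine ENNReal.ofReal_le_ofReal ?_
  rw [← div_eq_mul_inv, div_le_iff₀ (by linarith)]
  linarith

lemma num (α : ℕ) : ∃ K : ℝ≥0, ∀ δ : ℝ, 0 < δ → δ ≤ 1 →
    ∑' k : ℕ, ENNReal.ofReal (δ * 2 ^ (-(δ * k))) *
      ENNReal.ofReal (Real.log (3 + Real.log (2 ^ (k + 3))) ^ α) ≤
      K * ENNReal.ofReal (Real.log (3 + δ⁻¹) ^ α) := by
  set K0 : ℝ := α.factorial * 3 ^ α * 2 with hK0
  have hK0' : 0 ≤ K0 := by positivity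
  refine ⟨Real.toNNReal (2 ^ α * K0) * 4, fun δ hδ hδ1 => ?_⟩
  have hi : 1 ≤ δ⁻¹ := (one_le_inv₀ hδ).2 hδ1
  set L : ℝ := Real.log (3 + δ⁻¹) with hL
  have hL0 : 0 ≤ L := Real.log_nonneg (by linarith)
  have key : ∀ k : ℕ, ENNReal.ofReal (δ * 2 ^ (-(δ * k))) *
      ENNReal.ofReal (Real.log (3 + Real.log (2 ^ (k + 3))) ^ α) ≤
      ENNReal.ofReal (2 ^ α * K0) * ENNReal.ofReal (L ^ α) *
        ENNReal.ofReal (δ * 2 ^ (-(δ * k / 2))) := by
    intro k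
    have hk : (0 : ℝ) ≤ k := Nat.cast_nonneg k
    have hδk : 0 ≤ δ * k := by positivity
    rw [← ENNReal.ofReal_mul (by positivity), ← ENNReal.ofReal_mul (by positivity),
      ← ENNReal.ofReal_mul (by positivity)]
    refine ENNReal.ofReal_le_ofReal ?_
    have h5 : 0 ≤ Real.log (2 ^ (k + 3)) := Real.log_nonneg (one_le_pow₀ (by norm_num))
    have h6 : 0 ≤ Real.log (3 + Real.log (2 ^ (k + 3))) := Real.log_nonneg (by linarith)
    have h7 : Real.log (3 + Real.log (2 ^ (k + 3))) ^ α ≤ (2 * L * (1 + δ * k)) ^ α :=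
      pow_le_pow_left₀ h6 (num1 hδ hδ1 k) α
    have h8 := num2 α hδk
    have h9 : (2 : ℝ) ^ (-(δ * k)) * 2 ^ (δ * k / 2) = 2 ^ (-(δ * k / 2)) := by
      rw [← Real.rpow_add (by norm_num)]
      congr 1
      ring
    calc δ * 2 ^ (-(δ * k)) * Real.log (3 + Real.log (2 ^ (k + 3))) ^ α
        ≤ δ * 2 ^ (-(δ * k)) * (2 * L * (1 + δ * k)) ^ α := by gcongr
      _ = δ * 2 ^ (-(δ * k)) * (2 ^ α * L ^ α * (1 + δ * k) ^ α) := by
          rw [mul_pow, mul_pow]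
      _ ≤ δ * 2 ^ (-(δ * k)) * (2 ^ α * L ^ α * (K0 * 2 ^ (δ * k / 2))) := by gcongr
      _ = 2 ^ α * K0 * L ^ α * (δ * (2 ^ (-(δ * k)) * 2 ^ (δ * k / 2))) := by ring
      _ = _ := by rw [h9]
  calc _ ≤ ∑' k : ℕ, ENNReal.ofReal (2 ^ α * K0) * ENNReal.ofReal (L ^ α) *
        ENNReal.ofReal (δ * 2 ^ (-(δ * k / 2))) := ENNReal.tsum_le_tsum key
    _ ≤ ENNReal.ofReal (2 ^ α * K0) * ENNReal.ofReal (L ^ α) * 4 := by
        rw [ENNReal.tsum_mul_left]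
        exact mul_le_mul' le_rfl (num3 hδ hδ1)
    _ = _ := by
        push_cast
        rw [ENNReal.ofReal]
        ring

end BR_

open BR_ in
theorem pBRs {α : ℕ} (hD : tDSs α) (hP : tPlE) : tBRs α := by
  obtain ⟨C, hC⟩ := NN_int hD hP
  obtain ⟨K, hK⟩ := BR_.num α
  refine ⟨3 * C * K, fun δ f hδ hδ1 hm hf h2 => ?_⟩
  have pt : ∀ x, (⨆ (R : ℝ) (_ : 0 < R), ‖BRm δ f R x‖ₑ) ^ 2 ≤
      3 * ∑' k : ℕ, ENNReal.ofReal (δ * 2 ^ (-(δ * k))) * NN f ((1 / 2) ^ (k + 1)) x := by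
    intro x
    set Y := 3 * ∑' k : ℕ, ENNReal.ofReal (δ * 2 ^ (-(δ * k))) * NN f ((1 / 2) ^ (k + 1)) x with hY
    have h3 : (⨆ (R : ℝ) (_ : 0 < R), ‖BRm δ f R x‖ₑ) ≤ Y ^ (1 / 2 : ℝ) := by
      refine iSup₂_le fun R hR => ?_
      have h4 : ‖BRm δ f R x‖ₑ ^ 2 ≤ Y := by
        refine (BR_le hδ hf hR x).trans ?_
        refine dyad (G := fun q => ‖S f (√q) x‖ₑ ^ 2)
          (N := fun k => NN f ((1 / 2) ^ (k + 1)) x) (fun k Q hQ => ?_) hδ hδ1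
          (Q := R ^ 2) (by positivity)
        refine window hf (by positivity) ?_ hQ x
        exact pow_lt_one₀ (by norm_num) (by norm_num) (by omega)
      calc ‖BRm δ f R x‖ₑ = (‖BRm δ f R x‖ₑ ^ 2) ^ (1 / 2 : ℝ) := by
            rw [← ENNReal.rpow_natCast, ← ENNReal.rpow_mul]; norm_num
        _ ≤ Y ^ (1 / 2 : ℝ) := ENNReal.rpow_le_rpow h4 (by norm_num)
    calc _ ≤ (Y ^ (1 / 2 : ℝ)) ^ 2 := pow_le_pow_left' h3 2
      _ = Y := by rw [← ENNReal.rpow_natCast, ← ENNReal.rpow_mul]; norm_num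
  calc _ ≤ ∫⁻ x, 3 * ∑' k : ℕ, ENNReal.ofReal (δ * 2 ^ (-(δ * k))) *
        NN f ((1 / 2) ^ (k + 1)) x := lintegral_mono pt
    _ = 3 * ∑' k : ℕ, ENNReal.ofReal (δ * 2 ^ (-(δ * k))) *
        ∫⁻ x, NN f ((1 / 2) ^ (k + 1)) x := by
        rw [lintegral_const_mul' _ _ (by norm_num),
          lintegral_tsum fun k => ((NN_meas hf _).const_mul _).aemeasurable]
        congr 1
        refine tsum_congr fun k => ?_
        rw [lintegral_const_mul' _ _ ENNReal.ofReal_ne_top]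
    _ ≤ 3 * ∑' k : ℕ, ENNReal.ofReal (δ * 2 ^ (-(δ * k))) *
        (C * ENNReal.ofReal (Real.log (3 + Real.log (2 ^ (k + 3))) ^ α) *
          ∫⁻ x, ‖f x‖ₑ ^ 2) := by
        gcongr with k
        exact hC k f hm hf h2
    _ = 3 * C * (∑' k : ℕ, ENNReal.ofReal (δ * 2 ^ (-(δ * k))) *
        ENNReal.ofReal (Real.log (3 + Real.log (2 ^ (k + 3))) ^ α)) * ∫⁻ x, ‖f x‖ₑ ^ 2 := by
        have h5 : ∀ k : ℕ, ENNReal.ofReal (δ * 2 ^ (-(δ * k))) *
            (C * ENNReal.ofReal (Real.log (3 + Real.log (2 ^ (k + 3))) ^ α) *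
              ∫⁻ x, ‖f x‖ₑ ^ 2) = C * (ENNReal.ofReal (δ * 2 ^ (-(δ * k))) *
            ENNReal.ofReal (Real.log (3 + Real.log (2 ^ (k + 3))) ^ α)) *
              ∫⁻ x, ‖f x‖ₑ ^ 2 := by
          intro k
          ring
        simp only [h5]
        rw [ENNReal.tsum_mul_right, ENNReal.tsum_mul_left]
        ring
    _ ≤ 3 * C * (K * ENNReal.ofReal (Real.log (3 + δ⁻¹) ^ α)) * ∫⁻ x, ‖f x‖ₑ ^ 2 := by
        gcongr
        exact hK δ hδ hδ1
    _ = _ := by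
        push_cast
        ring

end Pool.Agent.SEnd
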