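import Pool.Agent.SLog.Targets

set_option autoImplicit false

/-! MP_ee701d_an, SLog, A5: cells with margins. -/

namespace Pool.Agent.SLog

open MeasureTheory Set
open Pool.Agent.KSP (dot nr V0)
open Pool.Agent.LLog (cd cdr cp fr tp Nn nv tv)

namespace BXV_

lemma Nn_sq (t : ℝ) : Nn t ^ 2 = 1 + t ^ 2 := by
  unfold Nn
  exact Real.sq_sqrt (by positivity)

lemma Nn_pos (t : ℝ) : 0 < Nn t := by
  unfold Nn
  exact Real.sqrt_pos.2 (by positivity)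

lemma one_le_Nn (t : ℝ) : 1 ≤ Nn t := by
  unfold Nn
  exact Real.one_le_sqrt.2 (by nlinarith [sq_nonneg t])

lemma dot_tv (t : ℝ) (ξ : ℝ × ℝ) : dot ξ (tv t) = (ξ.2 - t * ξ.1) / Nn t := by
  unfold dot tv
  have := (Nn_pos t).ne'
  field_simp
  ring

lemma dot_frame (t : ℝ) (ξ ζ : ℝ × ℝ) :
    ξ.1 * ζ.1 + ξ.2 * ζ.2 = dot ξ (nv t) * dot ζ (nv t) + dot ξ (tv t) * dot ζ (tv t) := by
  unfold dot nv tv
  have h := (Nn_pos t).ne'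
  have h2 := Nn_sq t
  simp only
  field_simp
  rw [h2]
  ring

lemma nr_nonneg (ξ : ℝ × ℝ) : 0 ≤ nr ξ := Real.sqrt_nonneg _

lemma nr_sq' (ξ : ℝ × ℝ) : nr ξ ^ 2 = ξ.1 ^ 2 + ξ.2 ^ 2 := by
  unfold nr
  exact Real.sq_sqrt (by positivity)

lemma fr_of {x e : ℝ} {c : ℕ} (he : 0 < e) (h1 : (c : ℝ) + e ≤ x) (h2 : x ≤ c + 1 - e) : fr e x := by
  have hf : Int.fract x = x - c := by
    rw [Int.fract]
    have : ⌊x⌋ = (c : ℤ) := by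
      rw [Int.floor_eq_iff]
      push_cast
      constructor <;> linarith
    rw [this]
    push_cast
    ring
  unfold fr
  rw [hf]
  constructor <;> linarith

/-- the first part -/
lemma first {sg sl e η K J : ℝ} {c p : ℕ} {ξ : ℝ × ℝ} (hη : η ≤ 1 / 100)
    (he : 0 < e)
    (h1 : 6 / 5 - (η - e) ≤ ξ.1) (h2 : ξ.1 ≤ 3 / 2 + (η - e)) (h3 : |ξ.2| ≤ 1 / 2 + (η - e))
    (h4 : c + e ≤ K * (nr ξ - sg)) (h5 : K * (nr ξ - sg) ≤ c + 1 - e)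
    (h6 : p + e ≤ J * (ξ.2 / ξ.1 + sl)) (h7 : J * (ξ.2 / ξ.1 + sl) ≤ p + 1 - e) :
    ξ ∈ V0 ∧ ((c : ℝ) ≤ K * (nr ξ - sg) ∧ K * (nr ξ - sg) < c + 1) ∧
      (0 < ξ.1 ∧ (p : ℝ) ≤ J * (ξ.2 / ξ.1 + sl) ∧ J * (ξ.2 / ξ.1 + sl) < p + 1) ∧
      fr e (K * (nr ξ - sg)) ∧ fr e (J * (ξ.2 / ξ.1 + sl)) := by
  have a1 : 1.19 ≤ ξ.1 := by norm_num at hη h1 ⊢; linarith
  have a2 : ξ.1 ≤ 1.51 := by norm_num at hη h2 ⊢; linarith
  have a3 : |ξ.2| ≤ 0.51 := by norm_num at hη h3 ⊢; linarith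
  have hn := nr_sq' ξ
  have hn0 := nr_nonneg ξ
  have hab := abs_le.1 a3
  refine ⟨⟨by norm_num at a1 a3 ⊢; linarith, ?_, ?_⟩, ⟨by linarith, by linarith⟩,
    ⟨by norm_num at a1 ⊢; linarith, by linarith, by linarith⟩, fr_of he h4 h5, fr_of he h6 h7⟩
  · norm_num at a1
    nlinarith
  · norm_num at a1 a2 hab
    by_contra h
    push Not at h
    nlinarith [hab.1, hab.2]

lemma alg1 {M x p sl : ℝ} (hM : 0 < M) : M * (x - (p / M - sl)) = M * (x + sl) - p := by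
  field_simp
  ring

lemma alg2 {L q : ℝ} (hL : 0 < L) (hq : 0 < q) :
    L ^ 2 * (2 * (1.6 * (1 / (L ^ 2 * q ^ 7)) + 1.51 / (L * q ^ 8) * (1 / (L * q ^ 14))) +
      2 * (1 / (L * q ^ 14)) ^ 2) = 3.2 / q ^ 7 + 3.02 / q ^ 22 + 2 / q ^ 28 := by
  have e1 : L ^ 2 * (2 * (1.6 * (1 / (L ^ 2 * q ^ 7)))) = 3.2 / q ^ 7 := by
    field_simp
    norm_num
  have e2 : L ^ 2 * (2 * (1.51 / (L * q ^ 8) * (1 / (L * q ^ 14)))) = 3.02 / q ^ 22 := by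
    field_simp
    norm_num
  have e3 : L ^ 2 * (2 * (1 / (L * q ^ 14)) ^ 2) = 2 / q ^ 28 := by
    field_simp
  rw [← e1, ← e2, ← e3]
  ring

lemma alg3 {L q : ℝ} (hL : 0 < L) (hq : 0 < q) :
    L * q ^ 8 * ((2 * (1 / (L * q ^ 14)) * 1.51 + 2 * (1 / (L * q ^ 14)) * 0.51) / 1) =
      4.04 / q ^ 6 := by
  have e1 : L * q ^ 8 * (1 / (L * q ^ 14)) = 1 / q ^ 6 := by
    field_simp
  have e2 : L * q ^ 8 * ((2 * (1 / (L * q ^ 14)) * 1.51 + 2 * (1 / (L * q ^ 14)) * 0.51) / 1) =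
      4.04 * (L * q ^ 8 * (1 / (L * q ^ 14))) := by ring
  rw [e2, e1]
  ring

lemma slope_change {x y dx dy B M : ℝ} (hx1 : 119 / 100 ≤ x) (hx2 : x ≤ 151 / 100)
    (hy : |y| ≤ 51 / 100) (h1 : |dx| ≤ 2 * B) (h2 : |dy| ≤ 2 * B) (hB : 2 * B ≤ 1 / 100)
    (hM : 0 < M) :
    |M * ((y + dy) / (x + dx) - y / x)| ≤ M * ((2 * B * 1.51 + 2 * B * 0.51) / 1) := by
  have hB0 : 0 ≤ 2 * B := le_trans (abs_nonneg _) h1
  have b1 := abs_le.1 h1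
  have hx0 : 0 < x := by linarith
  have hs1 : 1 ≤ x + dx := by linarith [b1.1]
  have hs0 : 0 < x + dx := by linarith
  have e1 : (y + dy) / (x + dx) - y / x = (dy * x - dx * y) / (x * (x + dx)) := by
    field_simp
    ring
  have hx3 : |x| ≤ 1.51 := by rw [abs_of_pos hx0]; norm_num; linarith
  have hy3 : |y| ≤ 0.51 := by norm_num; linarith
  have e2 : |dy * x - dx * y| ≤ 2 * B * 1.51 + 2 * B * 0.51 := by
    have e : |dy * x - dx * y| ≤ |dy * x| + |dx * y| := by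
      have := abs_add_le (dy * x) (-(dx * y))
      rw [abs_neg] at this
      rwa [sub_eq_add_neg]
    have e' : |dy * x| ≤ 2 * B * 1.51 := by
      rw [abs_mul]
      exact mul_le_mul h2 hx3 (abs_nonneg _) hB0
    have e'' : |dx * y| ≤ 2 * B * 0.51 := by
      rw [abs_mul]
      exact mul_le_mul h1 hy3 (abs_nonneg _) hB0
    linarith
  have e3 : 1 ≤ x * (x + dx) := by nlinarith
  have e4 : |dy * x - dx * y| / (x * (x + dx)) ≤ (2 * B * 1.51 + 2 * B * 0.51) / 1 :=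
    div_le_div₀ (le_trans (abs_nonneg _) e2) e2 one_pos e3
  rw [e1, abs_mul, abs_of_pos hM, abs_div, abs_of_pos (show 0 < x * (x + dx) by positivity)]
  exact mul_le_mul_of_nonneg_left e4 hM.le

lemma radial_change {t A B C : ℝ} {ξ ζ : ℝ × ℝ} (hn1 : 1 ≤ nr ξ) (hn2 : nr ξ ≤ 1.6)
    (hA0 : 0 ≤ A) (hAB : A ≤ B) (hC : |dot ξ (tv t)| ≤ C)
    (z1 : |dot ζ (nv t)| ≤ A) (z2 : |dot ζ (tv t)| ≤ B) :
    |nr (ξ + ζ) - nr ξ| ≤ 2 * (1.6 * A + C * B) + 2 * B ^ 2 := by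
  have hB0 : 0 ≤ B := hA0.trans hAB
  have hC0 : 0 ≤ C := le_trans (abs_nonneg _) hC
  have hz : ζ.1 ^ 2 + ζ.2 ^ 2 = dot ζ (nv t) ^ 2 + dot ζ (tv t) ^ 2 := by
    have := dot_frame t ζ ζ
    linarith only [this]
  have hz1 : dot ζ (nv t) ^ 2 ≤ A ^ 2 := sq_le_sq' (by linarith [abs_le.1 z1]) (abs_le.1 z1).2
  have hz2 : dot ζ (tv t) ^ 2 ≤ B ^ 2 := sq_le_sq' (by linarith [abs_le.1 z2]) (abs_le.1 z2).2
  have hA2 : A ^ 2 ≤ B ^ 2 := pow_le_pow_left₀ hA0 hAB 2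
  have hn := nr_sq' ξ
  have hnv : |dot ξ (nv t)| ≤ 1.6 := by
    have e := dot_frame t ξ ξ
    apply abs_le_of_sq_le_sq _ (by norm_num)
    have : nr ξ ^ 2 ≤ 1.6 ^ 2 := pow_le_pow_left₀ (by linarith) hn2 2
    nlinarith only [sq_nonneg (dot ξ (tv t)), e, this, hn]
  have hdot : |ξ.1 * ζ.1 + ξ.2 * ζ.2| ≤ 1.6 * A + C * B := by
    rw [dot_frame t ξ ζ]
    have e0 := abs_add_le (dot ξ (nv t) * dot ζ (nv t)) (dot ξ (tv t) * dot ζ (tv t))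
    have e1 : |dot ξ (nv t) * dot ζ (nv t)| ≤ 1.6 * A := by
      rw [abs_mul]
      exact mul_le_mul hnv z1 (abs_nonneg _) (by norm_num)
    have e2 : |dot ξ (tv t) * dot ζ (tv t)| ≤ C * B := by
      rw [abs_mul]
      exact mul_le_mul hC z2 (abs_nonneg _) hC0
    linarith
  have hm := nr_sq' (ξ + ζ)
  have hm0 := nr_nonneg (ξ + ζ)
  have hprod : (nr (ξ + ζ) - nr ξ) * (nr (ξ + ζ) + nr ξ) =
      2 * (ξ.1 * ζ.1 + ξ.2 * ζ.2) + (ζ.1 ^ 2 + ζ.2 ^ 2) := by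
    have e1 : (ξ + ζ).1 = ξ.1 + ζ.1 := rfl
    have e2 : (ξ + ζ).2 = ξ.2 + ζ.2 := rfl
    rw [e1, e2] at hm
    have e3 : (nr (ξ + ζ) - nr ξ) * (nr (ξ + ζ) + nr ξ) = nr (ξ + ζ) ^ 2 - nr ξ ^ 2 := by ring
    rw [e3, hm, hn]
    ring
  have e1 : |nr (ξ + ζ) - nr ξ| * 1 ≤ |nr (ξ + ζ) - nr ξ| * (nr (ξ + ζ) + nr ξ) :=
    mul_le_mul_of_nonneg_left (by linarith) (abs_nonneg _)
  have e2 : |nr (ξ + ζ) - nr ξ| * (nr (ξ + ζ) + nr ξ) =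
      |(nr (ξ + ζ) - nr ξ) * (nr (ξ + ζ) + nr ξ)| := by
    rw [abs_mul, abs_of_nonneg (show 0 ≤ nr (ξ + ζ) + nr ξ by linarith)]
  have e3 : |2 * (ξ.1 * ζ.1 + ξ.2 * ζ.2) + (ζ.1 ^ 2 + ζ.2 ^ 2)| ≤
      2 * |ξ.1 * ζ.1 + ξ.2 * ζ.2| + (ζ.1 ^ 2 + ζ.2 ^ 2) := by
    have := abs_add_le (2 * (ξ.1 * ζ.1 + ξ.2 * ζ.2)) (ζ.1 ^ 2 + ζ.2 ^ 2)
    rw [abs_mul, abs_of_nonneg (show 0 ≤ ζ.1 ^ 2 + ζ.2 ^ 2 by positivity),
      abs_of_pos (show (0 : ℝ) < 2 by norm_num)] at this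
    exact this
  rw [hprod] at e2
  have e4 : ζ.1 ^ 2 + ζ.2 ^ 2 ≤ 2 * B ^ 2 := by rw [hz]; linarith
  linarith

lemma coord_small {t A B : ℝ} {ζ : ℝ × ℝ} (hA0 : 0 ≤ A) (hAB : A ≤ B)
    (z1 : |dot ζ (nv t)| ≤ A) (z2 : |dot ζ (tv t)| ≤ B) : |ζ.1| ≤ 2 * B ∧ |ζ.2| ≤ 2 * B := by
  have hB0 : 0 ≤ B := hA0.trans hAB
  have hz : ζ.1 ^ 2 + ζ.2 ^ 2 = dot ζ (nv t) ^ 2 + dot ζ (tv t) ^ 2 := by
    have := dot_frame t ζ ζ
    linarith only [this]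
  have hz1 : dot ζ (nv t) ^ 2 ≤ A ^ 2 := sq_le_sq' (by linarith [abs_le.1 z1]) (abs_le.1 z1).2
  have hz2 : dot ζ (tv t) ^ 2 ≤ B ^ 2 := sq_le_sq' (by linarith [abs_le.1 z2]) (abs_le.1 z2).2
  have hA2 : A ^ 2 ≤ B ^ 2 := pow_le_pow_left₀ hA0 hAB 2
  constructor
  · apply abs_le_of_sq_le_sq _ (by linarith)
    nlinarith only [sq_nonneg ζ.2, hz, hz1, hz2, hA2, sq_nonneg B]
  · apply abs_le_of_sq_le_sq _ (by linarith)
    nlinarith only [sq_nonneg ζ.1, hz, hz1, hz2, hA2, sq_nonneg B]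

lemma tv_small {M sl p : ℝ} {ξ : ℝ × ℝ} (hM : 0 < M) (hx0 : 0 < ξ.1) (hx2 : ξ.1 ≤ 151 / 100)
    (h6 : p ≤ M * (ξ.2 / ξ.1 + sl)) (h7 : M * (ξ.2 / ξ.1 + sl) ≤ p + 1) :
    |dot ξ (tv (p / M - sl))| ≤ 1.51 / M := by
  have e0 : M * (ξ.2 / ξ.1 - (p / M - sl)) = M * (ξ.2 / ξ.1 + sl) - p := alg1 hM
  have hsl1 : 0 ≤ ξ.2 / ξ.1 - (p / M - sl) := by
    have : 0 ≤ M * (ξ.2 / ξ.1 - (p / M - sl)) := by rw [e0]; linarith
    exact nonneg_of_mul_nonneg_right this hM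
  have hs : ξ.2 / ξ.1 - (p / M - sl) ≤ 1 / M := by
    rw [le_div_iff₀ hM]; linarith
  generalize p / M - sl = t at *
  have hN1 := one_le_Nn t
  have e1 : dot ξ (tv t) = ξ.1 * (ξ.2 / ξ.1 - t) / Nn t := by
    rw [dot_tv]
    congr 1
    field_simp
  have hp : 0 ≤ ξ.1 * (ξ.2 / ξ.1 - t) := mul_nonneg hx0.le hsl1
  rw [e1, abs_of_nonneg (div_nonneg hp (by linarith))]
  calc ξ.1 * (ξ.2 / ξ.1 - t) / Nn t ≤ ξ.1 * (ξ.2 / ξ.1 - t) / 1 :=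
        div_le_div_of_nonneg_left hp one_pos hN1
    _ = ξ.1 * (ξ.2 / ξ.1 - t) := by ring
    _ ≤ 1.51 * (1 / M) := by
      apply mul_le_mul _ hs hsl1 (by norm_num)
      norm_num; linarith
    _ = 1.51 / M := by ring

lemma pow_small {q : ℝ} (hq : 1000000 ≤ q) : 1 / q ^ 4 ≤ 1 / 100 ∧ 1 / q ^ 5 ≤ 1 / 100 ∧
    3.2 / q ^ 7 + 3.02 / q ^ 22 + 2 / q ^ 28 ≤ 1 / q ^ 5 ∧ 4.04 / q ^ 6 ≤ 1 / q ^ 5 := by
  have hq0 : 0 < q := by linarith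
  have hq1 : 1 ≤ q := by linarith
  refine ⟨?_, ?_, ?_, ?_⟩
  · apply one_div_le_one_div_of_le (by norm_num)
    calc (100 : ℝ) ≤ q := by linarith
      _ = q ^ 1 := by ring
      _ ≤ q ^ 4 := pow_le_pow_right₀ hq1 (by norm_num)
  · apply one_div_le_one_div_of_le (by norm_num)
    calc (100 : ℝ) ≤ q := by linarith
      _ = q ^ 1 := by ring
      _ ≤ q ^ 5 := pow_le_pow_right₀ hq1 (by norm_num)
  · have e2 : 3.02 / q ^ 22 ≤ 3.02 / q ^ 7 :=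
      div_le_div_of_nonneg_left (by norm_num) (by positivity)
        (pow_le_pow_right₀ hq1 (by norm_num))
    have e3 : 2 / q ^ 28 ≤ 2 / q ^ 7 :=
      div_le_div_of_nonneg_left (by norm_num) (by positivity)
        (pow_le_pow_right₀ hq1 (by norm_num))
    have e4 : 10 / q ^ 7 ≤ 1 / q ^ 5 := by
      rw [div_le_div_iff₀ (by positivity) (by positivity)]
      have : (10 : ℝ) ≤ q ^ 2 := by nlinarith
      calc 10 * q ^ 5 ≤ q ^ 2 * q ^ 5 := mul_le_mul_of_nonneg_right this (by positivity)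
        _ = 1 * q ^ 7 := by ring
    have e5 : 3.2 / q ^ 7 + 3.02 / q ^ 7 + 2 / q ^ 7 ≤ 10 / q ^ 7 := by
      rw [← add_div, ← add_div]
      exact div_le_div_of_nonneg_right (by norm_num) (by positivity)
    linarith
  · rw [div_le_div_iff₀ (by positivity) (by positivity)]
    have : (4.04 : ℝ) ≤ q := by norm_num; linarith
    calc 4.04 * q ^ 5 ≤ q * q ^ 5 := mul_le_mul_of_nonneg_right this (by positivity)
      _ = 1 * q ^ 6 := by ring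

lemma AB_small {q L : ℝ} (hq : 1000000 ≤ q) (hL : q ^ 10 ≤ L) :
    1 / (L ^ 2 * q ^ 7) ≤ 1 / (L * q ^ 14) ∧ 2 * (1 / (L * q ^ 14)) ≤ 1 / q ^ 5 := by
  have hq0 : 0 < q := by linarith
  have hq1 : 1 ≤ q := by linarith
  have hL0 : 0 < L := lt_of_lt_of_le (by positivity) hL
  have hL1 : 1 ≤ L := le_trans (one_le_pow₀ hq1) hL
  constructor
  · apply one_div_le_one_div_of_le (by positivity)
    have : q ^ 14 ≤ L * q ^ 7 := by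
      calc q ^ 14 ≤ q ^ 17 := pow_le_pow_right₀ hq1 (by norm_num)
        _ = q ^ 10 * q ^ 7 := by ring
        _ ≤ L * q ^ 7 := mul_le_mul_of_nonneg_right hL (by positivity)
    calc L * q ^ 14 ≤ L * (L * q ^ 7) := mul_le_mul_of_nonneg_left this hL0.le
      _ = L ^ 2 * q ^ 7 := by ring
  · rw [mul_one_div, div_le_div_iff₀ (by positivity) (by positivity)]
    have e : (2 : ℝ) ≤ q := by linarith
    have e' : q ^ 6 ≤ q ^ 14 := pow_le_pow_right₀ hq1 (by norm_num)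
    calc 2 * q ^ 5 ≤ q * q ^ 5 := mul_le_mul_of_nonneg_right e (by positivity)
      _ = 1 * q ^ 6 := by ring
      _ ≤ L * q ^ 14 := mul_le_mul hL1 e' (by positivity) hL0.le
      _ = 1 * (L * q ^ 14) := by ring

lemma nr_range {ξ : ℝ × ℝ} (a1 : 119 / 100 ≤ ξ.1) (a2 : ξ.1 ≤ 151 / 100)
    (a3 : |ξ.2| ≤ 51 / 100) : 1 ≤ nr ξ ∧ nr ξ ≤ 1.6 := by
  have hn := nr_sq' ξ
  have hn0 := nr_nonneg ξ
  have b3 := abs_le.1 a3
  constructor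
  · nlinarith
  · norm_num
    by_contra h
    push Not at h
    nlinarith [b3.1, b3.2]

/-- the second part -/
lemma second {q L sg sl e : ℝ} {c p : ℕ} {ξ ζ : ℝ × ℝ} (hq : 1000000 ≤ q) (hL : q ^ 10 ≤ L)
    (he : 0 ≤ e) (hη : e ≤ 1 / q ^ 4)
    (h1 : 6 / 5 - (1 / q ^ 4 - e) ≤ ξ.1) (h2 : ξ.1 ≤ 3 / 2 + (1 / q ^ 4 - e))
    (h3 : |ξ.2| ≤ 1 / 2 + (1 / q ^ 4 - e))
    (h4 : c + e ≤ L ^ 2 * (nr ξ - sg)) (h5 : L ^ 2 * (nr ξ - sg) ≤ c + 1 - e)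
    (h6 : p + e ≤ L * q ^ 8 * (ξ.2 / ξ.1 + sl)) (h7 : L * q ^ 8 * (ξ.2 / ξ.1 + sl) ≤ p + 1 - e)
    (z1 : |dot ζ (nv (p / (L * q ^ 8) - sl))| ≤ 1 / (L ^ 2 * q ^ 7))
    (z2 : |dot ζ (tv (p / (L * q ^ 8) - sl))| ≤ 1 / (L * q ^ 14)) :
    6 / 5 - (1 / q ^ 4 - (e - 1 / q ^ 5)) ≤ (ξ + ζ).1 ∧
    (ξ + ζ).1 ≤ 3 / 2 + (1 / q ^ 4 - (e - 1 / q ^ 5)) ∧
    |(ξ + ζ).2| ≤ 1 / 2 + (1 / q ^ 4 - (e - 1 / q ^ 5)) ∧
    c + (e - 1 / q ^ 5) ≤ L ^ 2 * (nr (ξ + ζ) - sg) ∧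
    L ^ 2 * (nr (ξ + ζ) - sg) ≤ c + 1 - (e - 1 / q ^ 5) ∧
    p + (e - 1 / q ^ 5) ≤ L * q ^ 8 * ((ξ + ζ).2 / (ξ + ζ).1 + sl) ∧
    L * q ^ 8 * ((ξ + ζ).2 / (ξ + ζ).1 + sl) ≤ p + 1 - (e - 1 / q ^ 5) := by
  have hq0 : 0 < q := by linarith
  have hL0 : 0 < L := lt_of_lt_of_le (by positivity) hL
  obtain ⟨k4, k5, k6, k7⟩ := pow_small hq
  obtain ⟨hAB, hBq⟩ := AB_small hq hL
  have hLq : 0 < L * q ^ 8 := by positivity
  have hA0 : 0 ≤ 1 / (L ^ 2 * q ^ 7) := by positivity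
  have a1 : 119 / 100 ≤ ξ.1 := by linarith
  have a2 : ξ.1 ≤ 151 / 100 := by linarith
  have a3 : |ξ.2| ≤ 51 / 100 := by linarith
  obtain ⟨c1, c2⟩ := coord_small hA0 hAB z1 z2
  obtain ⟨n1, n2⟩ := nr_range a1 a2 a3
  have htv := tv_small (sl := sl) (p := p) hLq (by linarith) a2 (by linarith) (by linarith)
  have hrad := radial_change n1 n2 hA0 hAB htv z1 z2
  have hS := slope_change a1 a2 a3 c1 c2 (hBq.trans k5) hLq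
  rw [alg3 hL0 hq0] at hS
  have hR : |L ^ 2 * (nr (ξ + ζ) - nr ξ)| ≤ 1 / q ^ 5 := by
    rw [abs_mul, abs_of_pos (show 0 < L ^ 2 by positivity)]
    refine (mul_le_mul_of_nonneg_left hrad (by positivity)).trans ?_
    rw [alg2 hL0 hq0]
    exact k6
  have hR' := abs_le.1 hR
  have hS' := abs_le.1 (hS.trans k7)
  have b1 := abs_le.1 (c1.trans hBq)
  have f1 : (ξ + ζ).1 = ξ.1 + ζ.1 := rfl
  have f2 : (ξ + ζ).2 = ξ.2 + ζ.2 := rfl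
  have g1 : L ^ 2 * (nr (ξ + ζ) - sg) = L ^ 2 * (nr ξ - sg) + L ^ 2 * (nr (ξ + ζ) - nr ξ) := by ring
  have g2 : L * q ^ 8 * ((ξ.2 + ζ.2) / (ξ.1 + ζ.1) + sl) = L * q ^ 8 * (ξ.2 / ξ.1 + sl) +
      L * q ^ 8 * ((ξ.2 + ζ.2) / (ξ.1 + ζ.1) - ξ.2 / ξ.1) := by ring
  rw [f1, f2, g1, g2]
  have g3 := abs_add_le ξ.2 ζ.2
  exact ⟨by linarith [b1.1], by linarith [b1.2], by linarith, by linarith [hR'.1],
    by linarith [hR'.2], by linarith [hS'.1], by linarith [hS'.2]⟩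

end BXV_

theorem pBXV : tBXV := by
  intro a l c p sg sl e ξ ha hl hs1 hs2 hp he hξ
  obtain ⟨h1, h2, h3, h4, h5, h6, h7⟩ := hξ
  have hq : (1000000 : ℝ) ≤ 2 ^ a := by
    calc (1000000 : ℝ) ≤ 2 ^ 20 := by norm_num
      _ ≤ 2 ^ a := pow_le_pow_right₀ (by norm_num) ha
  have hq4 : (2 : ℝ) ^ (4 * a) = (2 ^ a) ^ 4 := by rw [← pow_mul]; congr 1; ring
  have hq5 : (2 : ℝ) ^ (5 * a) = (2 ^ a) ^ 5 := by rw [← pow_mul]; congr 1; ring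
  have hq7 : (2 : ℝ) ^ (7 * a) = (2 ^ a) ^ 7 := by rw [← pow_mul]; congr 1; ring
  have hj8 : (2 : ℝ) ^ (l + 8 * a) = 2 ^ l * (2 ^ a) ^ 8 := by
    rw [pow_add, ← pow_mul]; congr 2; ring
  have hj14 : (2 : ℝ) ^ (l + 14 * a) = 2 ^ l * (2 ^ a) ^ 14 := by
    rw [pow_add, ← pow_mul]; congr 2; ring
  have h4l : (4 : ℝ) ^ l = (2 ^ l) ^ 2 := by
    rw [← pow_mul, mul_comm, pow_mul]; norm_num
  have hL : ((2 : ℝ) ^ a) ^ 10 ≤ 2 ^ l := by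
    rw [← pow_mul]
    exact pow_le_pow_right₀ (by norm_num) (by omega)
  constructor
  · intro he0
    have hη : (1 : ℝ) / 2 ^ (4 * a) ≤ 1 / 100 := by
      apply one_div_le_one_div_of_le (by norm_num)
      calc (100 : ℝ) ≤ 2 ^ 20 := by norm_num
        _ ≤ 2 ^ (4 * a) := pow_le_pow_right₀ (by norm_num) (by omega)
    exact BXV_.first hη he0 h1 h2 h3 h4 h5 h6 h7
  · intro he0 ζ z1 z2
    unfold tp at z1 z2
    unfold BX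
    rw [Set.mem_ofPred_eq]
    rw [hj8] at z1 z2
    rw [h4l, hq7] at z1
    rw [hj14] at z2
    rw [hq4] at he h1 h2 h3
    rw [h4l] at h4 h5
    rw [hj8] at h6 h7
    rw [hq4, hq5, h4l, hj8]
    exact BXV_.second hq hL he0 he h1 h2 h3 h4 h5 h6 h7 z1 z2

end Pool.Agent.SLog
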