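import Pool.Agent.SLog.Targets

set_option autoImplicit false

/-! MP_ee701d_an (SLog): CHI, the cutoff `chi`. -/

namespace Pool.Agent.SLog

open MeasureTheory Set
open scoped ENNReal NNReal ComplexConjugate
open Pool.Agent.KSP (ee dot nr Ex Ex1 Bd Bd1 n1 n2 lg V0 ann)
open Pool.Agent.LLog (PA cd cdr cp fr tp Nn nv tv Core bx sa sd Qx kc psi kap GK psR psA anf mu Bf hat)

namespace CHI_

theorem sqle (a : ℕ) (ha : 20 ≤ a) : (10 + a) ^ 2 ≤ 2 ^ a := by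
  induction a, ha using Nat.le_induction with
  | base => norm_num
  | succ n hn ih =>
    rw [pow_succ 2 n]
    nlinarith

theorem Nn0 : Nn 0 = 1 := by
  unfold Nn
  norm_num

theorem dnv (ξ : ℝ × ℝ) : dot ξ (nv 0) = ξ.1 := by
  unfold dot nv
  rw [Nn0]
  norm_num

theorem dtv (ξ : ℝ × ℝ) : dot ξ (tv 0) = ξ.2 := by
  unfold dot tv
  rw [Nn0]
  norm_num

theorem psiBd1 (h : LLog.tPSI) (N : ℕ) (α β δ : ℝ) (hN : 2 ≤ N) (hδ : 0 < δ)
    (hab : α + 2 * δ ≤ β) : Bd1 (fun ζ => (psi N α β δ ζ : ℂ)) := by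
  obtain ⟨h1, h2, h3, h4, h5, h6⟩ := h N α β δ hN hδ hab
  refine ⟨Complex.measurable_ofReal.comp h1, ⟨1, fun τ => ?_⟩, ⟨max |α| |β|, fun τ hτ => ?_⟩⟩
  · rw [Complex.norm_real, Real.norm_eq_abs, abs_of_nonneg (h2 τ).1]
    exact (h2 τ).2
  · have h7 : ¬ (τ < α ∨ β < τ) := by
      intro h8
      refine hτ ?_
      show (psi N α β δ τ : ℂ) = 0
      rw [h4 τ h8, Complex.ofReal_zero]
    push Not at h7
    exact abs_le_max_abs_abs h7.1 h7.2

theorem mulsum (x y : ℝ) (hx : 0 ≤ x) (hy : 0 ≤ y) :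
    ENNReal.ofReal x * ENNReal.ofReal y + ENNReal.ofReal y * ENNReal.ofReal x =
      ENNReal.ofReal (x * y + y * x) := by
  rw [ENNReal.ofReal_add (mul_nonneg hx hy) (mul_nonneg hy hx), ENNReal.ofReal_mul hx,
    ENNReal.ofReal_mul hy]

end CHI_

open CHI_

theorem pCHI (hPSI : LLog.tPSI) (hPRD : LLog.tPRD) : tCHI := by
  intro a m hPA
  obtain ⟨ha, hm1, hm2⟩ := hPA
  have hsq := sqle a ha
  have hm0 : 1 ≤ m := by
    have : 0 < 2 ^ a := by positivity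
    omega
  have hm0' : (1 : ℝ) ≤ m := by exact_mod_cast hm0
  have hN : 2 ≤ 40 * m := by omega
  have hm1' : (m : ℝ) ≤ 2 ^ a := by exact_mod_cast hm1.le
  obtain ⟨p1, p2, p3, p4, p5, p6⟩ := hPSI (40 * m) (6 / 5) (3 / 2) (1 / 20) hN (by norm_num)
    (by norm_num)
  obtain ⟨q1, q2, q3, q4, q5, q6⟩ := hPSI (40 * m) (-(1 / 2)) (1 / 2) (1 / 10) hN (by norm_num)
    (by norm_num)
  have b1 := psiBd1 hPSI (40 * m) (6 / 5) (3 / 2) (1 / 20) hN (by norm_num) (by norm_num)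
  have b2 := psiBd1 hPSI (40 * m) (-(1 / 2)) (1 / 2) (1 / 10) hN (by norm_num) (by norm_num)
  have hA : (0 : ℝ) < 2 ^ (2 * a) := by positivity
  obtain ⟨r1, r2, r3, r4⟩ := hPRD 0 (2 ^ (2 * a)) (2 ^ (2 * a)) _ _ b1 b2 hA hA
  have hfun : (fun ξ : ℝ × ℝ => (psi (40 * m) (6 / 5) (3 / 2) (1 / 20) (dot ξ (nv 0)) : ℂ) *
      (psi (40 * m) (-(1 / 2)) (1 / 2) (1 / 10) (dot ξ (tv 0)) : ℂ)) =
      fun ξ => (chi m ξ : ℂ) := by
    funext ξ
    rw [dnv, dtv, chi]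
    push_cast
    rfl
  rw [hfun] at r1 r3 r4
  -- sizes
  have hpow : (2 : ℝ) ^ 10 ≤ 2 ^ a := pow_le_pow_right₀ (by norm_num) (by omega)
  have hlog : ∀ c : ℝ, 0 < c → c ≤ 512 → 4 + Real.log (c * m) ≤ 10 + a := by
    intro c hc0 hc
    have h1 : Real.log (c * m) ≤ Real.log (2 ^ (9 + a)) := by
      apply Real.log_le_log (by positivity)
      rw [pow_add]
      have : (2 : ℝ) ^ 9 = 512 := by norm_num
      rw [this]
      exact mul_le_mul hc hm1' (by positivity) (by norm_num)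
    rw [Real.log_pow] at h1
    have h2 : Real.log 2 < 0.6931471808 := Real.log_two_lt_d9
    have ha' : (20 : ℝ) ≤ a := by exact_mod_cast ha
    push_cast at h1
    nlinarith
  have l1 : 4 + Real.log (((40 * m : ℕ) : ℝ) * (3 / 2 - 6 / 5) / (1 / 20)) ≤ 10 + a := by
    have : ((40 * m : ℕ) : ℝ) * (3 / 2 - 6 / 5) / (1 / 20) = 240 * m := by push_cast; ring
    rw [this]
    exact hlog 240 (by norm_num) (by norm_num)
  have l2 : 4 + Real.log (((40 * m : ℕ) : ℝ) * (1 / 2 - -(1 / 2)) / (1 / 10)) ≤ 10 + a := by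
    have : ((40 * m : ℕ) : ℝ) * (1 / 2 - -(1 / 2)) / (1 / 10) = 400 * m := by push_cast; ring
    rw [this]
    exact hlog 400 (by norm_num) (by norm_num)
  have hcast : ENNReal.ofReal (10 + a) = ((10 + a : ℕ) : ℝ≥0∞) := by
    rw [← ENNReal.ofReal_natCast]
    push_cast
    rfl
  have n1' := p6.trans (ENNReal.ofReal_le_ofReal l1)
  have n2' := q6.trans (ENNReal.ofReal_le_ofReal l2)
  have t1 : ∫⁻ s in {s : ℝ | 2 ^ (2 * a) < |s|},
      ‖Ex1 (fun ζ => (psi (40 * m) (6 / 5) (3 / 2) (1 / 20) ζ : ℂ)) s‖ₑ ≤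
      ENNReal.ofReal (1 / 2 ^ (40 * m)) := by
    refine (lintegral_mono_set fun s hs => ?_).trans p5
    have h1 : ((40 * m : ℕ) : ℝ) / (1 / 20) ≤ 2 ^ (2 * a) := by
      push_cast
      have : (2 : ℝ) ^ (2 * a) = 2 ^ a * 2 ^ a := by rw [two_mul, pow_add]
      rw [this]
      nlinarith
    exact lt_of_le_of_lt h1 hs
  have t2 : ∫⁻ s in {s : ℝ | 2 ^ (2 * a) < |s|},
      ‖Ex1 (fun ζ => (psi (40 * m) (-(1 / 2)) (1 / 2) (1 / 10) ζ : ℂ)) s‖ₑ ≤
      ENNReal.ofReal (1 / 2 ^ (40 * m)) := by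
    refine (lintegral_mono_set fun s hs => ?_).trans q5
    have h1 : ((40 * m : ℕ) : ℝ) / (1 / 10) ≤ 2 ^ (2 * a) := by
      push_cast
      have : (2 : ℝ) ^ (2 * a) = 2 ^ a * 2 ^ a := by rw [two_mul, pow_add]
      rw [this]
      nlinarith
    exact lt_of_le_of_lt h1 hs
  refine ⟨?_, ?_, ?_, ?_, r1, ?_, ?_⟩
  · exact (p1.comp measurable_fst).mul (q1.comp measurable_snd)
  · intro ξ
    exact ⟨mul_nonneg (p2 _).1 (q2 _).1, mul_le_one₀ (p2 _).2 (q2 _).1 (q2 _).2⟩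
  · intro ξ h1 h2 h3
    obtain ⟨h4, h5⟩ := abs_le.1 h3
    rw [chi, p3 _ (by linarith) (by linarith), q3 _ (by linarith) (by linarith), mul_one]
  · intro ξ hξ
    have h1 := left_ne_zero_of_mul hξ
    have h2 := right_ne_zero_of_mul hξ
    have h3 : ¬ (ξ.1 < 6 / 5 ∨ 3 / 2 < ξ.1) := fun h => h1 (p4 _ h)
    have h4 : ¬ (ξ.2 < -(1 / 2) ∨ 1 / 2 < ξ.2) := fun h => h2 (q4 _ h)
    push Not at h3 h4
    exact ⟨h3.1, h3.2, abs_le.2 h4⟩
  · rw [r3]
    calc _ ≤ ENNReal.ofReal (10 + a) * ENNReal.ofReal (10 + a) := mul_le_mul' n1' n2'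
      _ = (((10 + a) ^ 2 : ℕ) : ℝ≥0∞) := by
          rw [hcast, ← Nat.cast_mul, sq]
      _ ≤ ((2 ^ a : ℕ) : ℝ≥0∞) := by exact_mod_cast hsq
      _ = 2 ^ a := by push_cast; rfl
  · have hset : {z : ℝ × ℝ | ¬ (|z.1| ≤ 2 ^ (2 * a) ∧ |z.2| ≤ 2 ^ (2 * a))} =
        {z : ℝ × ℝ | ¬ (|dot z (nv 0)| ≤ 2 ^ (2 * a) ∧ |dot z (tv 0)| ≤ 2 ^ (2 * a))} := by
      ext z
      simp only [mem_ofPred_eq, dnv, dtv]
    rw [hset]
    refine r4.trans ?_
    calc _ ≤ ENNReal.ofReal (1 / 2 ^ (40 * m)) * ENNReal.ofReal (10 + a) +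
          ENNReal.ofReal (10 + a) * ENNReal.ofReal (1 / 2 ^ (40 * m)) :=
            add_le_add (mul_le_mul' t1 n2') (mul_le_mul' n1' t2)
      _ = ENNReal.ofReal (1 / 2 ^ (40 * m) * (10 + a) + (10 + a) * (1 / 2 ^ (40 * m))) :=
          mulsum _ _ (by positivity) (by positivity)
      _ ≤ ENNReal.ofReal (1 / 2 ^ (35 * m)) := by
          apply ENNReal.ofReal_le_ofReal
          have h1 : (2 * (10 + a) : ℝ) ≤ 2 ^ (5 * m) := by
            have h2 : 2 * (10 + a) ≤ 2 ^ (5 * m) := by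
              have h3 : 2 * (10 + a) ≤ (10 + a) ^ 2 := by nlinarith
              have h4 : 2 * m ≤ 2 ^ (2 * m) := (Nat.lt_two_pow_self).le
              have h5 : 2 ^ (2 * m) ≤ 2 ^ (5 * m) := Nat.pow_le_pow_right (by norm_num) (by omega)
              omega
            exact_mod_cast h2
          have h2 : (2 : ℝ) ^ (40 * m) = 2 ^ (35 * m) * 2 ^ (5 * m) := by
            rw [← pow_add]; congr 1; ring
          have h3 : (1 : ℝ) / 2 ^ (40 * m) * (10 + a) + (10 + a) * (1 / 2 ^ (40 * m)) =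
              1 / 2 ^ (35 * m) * ((2 * (10 + a)) / 2 ^ (5 * m)) := by
            rw [h2]
            field_simp
            ring
          rw [h3]
          apply mul_le_of_le_one_right (by positivity)
          exact div_le_one_of_le₀ h1 (by positivity)

end Pool.Agent.SLog
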