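import Pool.Agent.SLog.Targets
import Pool.Agent.KSP.Conv

set_option autoImplicit false

/-! A7: products of `Ex` and `1 - Ex`. -/

namespace Pool.Agent.SLog

open MeasureTheory Set
open scoped ENNReal NNReal ComplexConjugate
open Pool.Agent.KSP (ee dot nr Ex Ex1 Bd Bd1 n1 n2 lg V0 ann cv)
open Pool.Agent.LLog (nv tv)

namespace CHN_

lemma dot_sub_add (ξ η ζ v : ℝ × ℝ) : dot (ξ - ζ) v = dot (ξ - η - ζ) v + dot η v := by
  unfold Pool.Agent.KSP.dot
  simp only [Prod.fst_sub, Prod.snd_sub]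
  ring

lemma Bd_sub {f g : ℝ × ℝ → ℂ} (hf : Bd f) (hg : Bd g) : Bd (fun ξ => f ξ - g ξ) := by
  obtain ⟨hfm, ⟨B, hB⟩, R, hR⟩ := hf
  obtain ⟨hgm, ⟨B', hB'⟩, R', hR'⟩ := hg
  refine ⟨hfm.sub hgm, ⟨B + B', fun ξ => (norm_sub_le _ _).trans (add_le_add (hB ξ) (hB' ξ))⟩,
    max R R', ?_⟩
  intro ξ hξ
  by_cases h1 : f ξ = 0
  · have h2 : g ξ ≠ 0 := by
      intro h2
      apply hξ
      show f ξ - g ξ = 0
      rw [h1, h2, sub_zero]
    have := hR' ξ h2
    exact ⟨this.1.trans (le_max_right _ _), this.2.trans (le_max_right _ _)⟩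
  · have := hR ξ h1
    exact ⟨this.1.trans (le_max_left _ _), this.2.trans (le_max_left _ _)⟩

lemma int_ker {f : ℝ × ℝ → ℂ} (hf : Bd f) (x : ℝ × ℝ) :
    Integrable (fun ξ => f ξ * ee (dot x ξ)) := by
  refine (Pool.Agent.KSP.Conv_.Bd_int hf).mul_bdd (c := 1) ?_ ?_
  · exact (Pool.Agent.KSP.Conv_.cont_ker x).aestronglyMeasurable
  · exact Filter.Eventually.of_forall fun p => (Pool.Agent.KSP.Conv_.norm_ee _).le

lemma Ex_sub {f g : ℝ × ℝ → ℂ} (hf : Bd f) (hg : Bd g) (x : ℝ × ℝ) :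
    Ex (fun ξ => f ξ - g ξ) x = Ex f x - Ex g x := by
  unfold Pool.Agent.KSP.Ex
  rw [← integral_sub (int_ker hf x) (int_ker hg x)]
  refine integral_congr_ae (Filter.Eventually.of_forall fun ξ => ?_)
  exact sub_mul _ _ _

end CHN_

open CHN_ in
theorem pCHN : tCHN := by
  intro n t k0 e α β hk0
  induction n with
  | zero =>
    intro _
    refine ⟨k0, hk0, fun ξ hξ => ⟨ξ, hξ, ?_, ?_⟩, fun x => by simp⟩
    · rw [sub_self]
      simp [Pool.Agent.KSP.dot]
    · rw [sub_self]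
      simp [Pool.Agent.KSP.dot]
  | succ n ih =>
    intro he
    obtain ⟨k, hkB, hks, hkE⟩ := ih fun i hi => he i (Nat.lt_succ_of_lt hi)
    obtain ⟨heB, hα, hβ, hes⟩ := he n (Nat.lt_succ_self n)
    obtain ⟨hcB, hcs, hcE⟩ := Pool.Agent.KSP.pCv (e n) k heB hkB
    refine ⟨fun ξ => k ξ - cv (e n) k ξ, Bd_sub hkB hcB, ?_, ?_⟩
    · intro ξ hξ
      by_cases h1 : k ξ = 0
      · have h2 : cv (e n) k ξ ≠ 0 := by
          intro h2
          apply hξ
          show k ξ - cv (e n) k ξ = 0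
          rw [h1, h2, sub_zero]
        obtain ⟨η, hη, hkη⟩ := hcs ξ h2
        obtain ⟨ξ0, h0, ha, hb⟩ := hks _ hkη
        obtain ⟨ha', hb'⟩ := hes η hη
        refine ⟨ξ0, h0, ?_, ?_⟩
        · rw [Finset.sum_range_succ, dot_sub_add ξ η ξ0]
          exact (abs_add_le _ _).trans (add_le_add ha ha')
        · rw [Finset.sum_range_succ, dot_sub_add ξ η ξ0]
          exact (abs_add_le _ _).trans (add_le_add hb hb')
      · obtain ⟨ξ0, h0, ha, hb⟩ := hks ξ h1
        refine ⟨ξ0, h0, ?_, ?_⟩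
        · rw [Finset.sum_range_succ]
          linarith
        · rw [Finset.sum_range_succ]
          linarith
    · intro x
      rw [Ex_sub hkB hcB, hcE x, hkE x, Finset.prod_range_succ]
      ring

end Pool.Agent.SLog
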