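import Pool.Agent.SLog.Targets

/-! SLG-CNT: the number of pairs of cells with a given sum (`tCNT`). -/

namespace Pool.Agent.SLog

open MeasureTheory Set
open scoped ENNReal NNReal
open Pool.Agent.KSP (nr)

namespace CNT_

lemma sqb {t b : ℝ} (h : |t| ≤ b) : t ^ 2 ≤ b ^ 2 := by
  rw [← sq_abs t]
  exact pow_le_pow_left₀ (abs_nonneg _) h 2

lemma sqd {D1 D2 K : ℝ} (h : 0 ≤ D1 * D2) (hK : |D1 ^ 2 - D2 ^ 2| ≤ K) : (D1 - D2) ^ 2 ≤ K := by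
  refine le_trans ?_ hK
  have h1 : D1 ^ 2 - D2 ^ 2 = (D1 - D2) * (D1 + D2) := by ring
  rw [h1, abs_mul, ← sq_abs, sq]
  refine mul_le_mul_of_nonneg_left ?_ (abs_nonneg _)
  refine sq_le_sq.1 ?_
  nlinarith

lemma mulb {u v b c : ℝ} (hu : |u| ≤ b) (hv : |v| ≤ c) : |u * v| ≤ b * c := by
  rw [abs_mul]
  exact mul_le_mul hu hv (abs_nonneg _) ((abs_nonneg _).trans hu)

lemma addb {u v b c : ℝ} (hu : |u| ≤ b) (hv : |v| ≤ c) : |u + v| ≤ b + c :=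
  (abs_add_le _ _).trans (add_le_add hu hv)

lemma subb {u v b c : ℝ} (hu : |u| ≤ b) (hv : |v| ≤ c) : |u - v| ≤ b + c :=
  (abs_sub _ _).trans (add_le_add hu hv)

/-- abstract form of the estimate of the cross product -/
lemma keyA {Z E1 E2 D1 D2 n s w : ℝ} (hs : 0 ≤ s) (hs1 : s ≤ 1) (hZ1 : Z ≤ 10.2) (hZ2 : 5.6 ≤ Z)
    (hn : |n| ≤ 3.2 * s ^ 2) (f1 : |Z - 2 * E1| ≤ 3.2 * s ^ 2) (f2 : |Z - 2 * E2| ≤ 3.2 * s ^ 2)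
    (hDD : D1 ^ 2 - D2 ^ 2 = Z * n - (E1 - E2) * (E1 + E2)) (hD : 0 ≤ D1 * D2)
    (hD1 : |D1| ≤ 3.1) (hw : Z * w = E1 * (D2 - D1) + D1 * (E1 - E2)) : |w| ≤ 13 * s := by
  have hss : s ^ 2 ≤ s := by nlinarith
  obtain ⟨n2l, n2r⟩ := abs_le.1 f1
  obtain ⟨n3l, n3r⟩ := abs_le.1 f2
  have hE1 : |E1| ≤ 6.7 := abs_le.2 ⟨by linarith, by linarith⟩
  have hE2 : |E2| ≤ 6.7 := abs_le.2 ⟨by linarith, by linarith⟩
  have hEd : |E1 - E2| ≤ 3.2 * s ^ 2 := abs_le.2 ⟨by linarith, by linarith⟩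
  have hZ : |Z| ≤ 10.2 := abs_le.2 ⟨by linarith, hZ1⟩
  have h1 : |D1 ^ 2 - D2 ^ 2| ≤ 81 * s ^ 2 := by
    rw [hDD]
    refine (subb (mulb hZ hn) (mulb hEd (addb hE1 hE2))).trans ?_
    have hss0 : 0 ≤ s ^ 2 := sq_nonneg s
    linarith
  have h6 : |D2 - D1| ≤ 9 * s := by
    rw [abs_sub_comm]
    refine abs_le_of_sq_le_sq ?_ (by positivity)
    calc (D1 - D2) ^ 2 ≤ 81 * s ^ 2 := sqd hD h1
      _ = (9 * s) ^ 2 := by ring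
  have h7 : |Z * w| ≤ 71 * s := by
    rw [hw]
    refine (addb (mulb hE1 h6) (mulb hD1 hEd)).trans ?_
    linarith
  rw [abs_mul, abs_of_nonneg (by linarith : (0 : ℝ) ≤ Z)] at h7
  have h15 : 5.6 * |w| ≤ Z * |w| := mul_le_mul_of_nonneg_right hZ2 (abs_nonneg _)
  linarith

/-- elementary geometry of two decompositions of `z` in sums of vectors of almost equal length -/
lemma key (z1 z2 x1 y1 x2 y2 s : ℝ) (hs : 0 ≤ s) (hs1 : s ≤ 1)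
    (a1 : 1.19 ≤ x1) (a2 : x1 ≤ 1.51) (a3 : |y1| ≤ 0.51)
    (c1 : 1.19 ≤ z1 - x1) (c2 : z1 - x1 ≤ 1.51) (c3 : |z2 - y1| ≤ 0.51)
    (n1 : |(x1 ^ 2 + y1 ^ 2) - (x2 ^ 2 + y2 ^ 2)| ≤ 3.2 * s ^ 2)
    (n2 : |((z1 - x1) ^ 2 + (z2 - y1) ^ 2) - (x1 ^ 2 + y1 ^ 2)| ≤ 3.2 * s ^ 2)
    (n3 : |((z1 - x2) ^ 2 + (z2 - y2) ^ 2) - (x2 ^ 2 + y2 ^ 2)| ≤ 3.2 * s ^ 2)
    (hD : 0 ≤ (z1 * y1 - z2 * x1) * (z1 * y2 - z2 * x2)) :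
    |x1 * y2 - x2 * y1| ≤ 13 * s := by
  have hz1 : 2.38 ≤ z1 := by linarith
  have hz1' : |z1| ≤ 3.02 := abs_le.2 ⟨by linarith, by linarith⟩
  have hx1 : |x1| ≤ 1.51 := abs_le.2 ⟨by linarith, a2⟩
  have hz2 : |z2| ≤ 1.02 := by
    have := addb c3 a3
    rw [sub_add_cancel] at this
    refine this.trans ?_
    norm_num
  have q1 := sqb hz1'
  have q2 := sqb hz2
  have q3 : 2.38 ^ 2 ≤ z1 ^ 2 := pow_le_pow_left₀ (by norm_num) hz1 2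
  have q4 := sq_nonneg z2
  norm_num at q1 q2 q3
  refine keyA (Z := z1 ^ 2 + z2 ^ 2) (E1 := z1 * x1 + z2 * y1) (E2 := z1 * x2 + z2 * y2)
    (D1 := z1 * y1 - z2 * x1) (D2 := z1 * y2 - z2 * x2) hs hs1
    (by norm_num; linarith) (by norm_num; linarith) n1 ?_ ?_ (by ring) hD ?_ (by ring)
  · have e1 : (z1 - x1) ^ 2 + (z2 - y1) ^ 2 - (x1 ^ 2 + y1 ^ 2)
        = z1 ^ 2 + z2 ^ 2 - 2 * (z1 * x1 + z2 * y1) := by ring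
    rw [← e1]; exact n2
  · have e2 : (z1 - x2) ^ 2 + (z2 - y2) ^ 2 - (x2 ^ 2 + y2 ^ 2)
        = z1 ^ 2 + z2 ^ 2 - 2 * (z1 * x2 + z2 * y2) := by ring
    rw [← e2]; exact n3
  · refine (subb (mulb hz1' a3) (mulb hz2 hx1)).trans ?_
    norm_num

/-- the slopes differ by at most `10 s` -/
lemma slope (x1 y1 x2 y2 s : ℝ) (hs : 0 ≤ s)
    (a1 : 1.19 ≤ x1) (b1 : 1.19 ≤ x2) (h : |x1 * y2 - x2 * y1| ≤ 13 * s) :
    |y1 / x1 - y2 / x2| ≤ 10 * s := by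
  have h1 : 0 < x1 := by linarith
  have h2 : 0 < x2 := by linarith
  have h3 : y1 / x1 - y2 / x2 = -(x1 * y2 - x2 * y1) / (x1 * x2) := by
    field_simp
    ring
  rw [h3, abs_div, abs_neg, abs_of_pos (mul_pos h1 h2), div_le_iff₀ (mul_pos h1 h2)]
  have h4 : 1.41 ≤ x1 * x2 := by nlinarith
  nlinarith

/-- the data of a point of a cell that are used -/
lemma data {a l c p : ℕ} {sg sl : ℝ} {ξ : ℝ × ℝ} (ha : 20 ≤ a)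
    (h : ξ ∈ BX a l sg sl (1 / 2 ^ (4 * a) / 4) c p) :
    1.19 ≤ ξ.1 ∧ ξ.1 ≤ 1.51 ∧ |ξ.2| ≤ 0.51 ∧ nr ξ ^ 2 = ξ.1 ^ 2 + ξ.2 ^ 2 ∧ 0 ≤ nr ξ ∧
      nr ξ ≤ 1.6 ∧ (c : ℝ) ≤ 4 ^ l * (nr ξ - sg) ∧ 4 ^ l * (nr ξ - sg) ≤ c + 1 ∧
      (p : ℝ) ≤ 2 ^ (l + 8 * a) * (ξ.2 / ξ.1 + sl) ∧
      2 ^ (l + 8 * a) * (ξ.2 / ξ.1 + sl) ≤ p + 1 := by
  obtain ⟨h1, h2, h3, h4, h5, h6, h7⟩ := h
  have hη : (1 : ℝ) / 2 ^ (4 * a) ≤ 1 / 1000 := by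
    refine one_div_le_one_div_of_le (by norm_num) ?_
    calc (1000 : ℝ) ≤ 2 ^ 10 := by norm_num
      _ ≤ 2 ^ (4 * a) := pow_le_pow_right₀ (by norm_num) (by omega)
  have hη0 : (0 : ℝ) ≤ 1 / 2 ^ (4 * a) := by positivity
  set η : ℝ := 1 / 2 ^ (4 * a) with hηd
  have k1 : 1.19 ≤ ξ.1 := by linarith
  have k2 : ξ.1 ≤ 1.51 := by linarith
  have k3 : |ξ.2| ≤ 0.51 := by linarith
  have k4 : nr ξ ^ 2 = ξ.1 ^ 2 + ξ.2 ^ 2 := Real.sq_sqrt (by positivity)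
  have k5 : 0 ≤ nr ξ := Real.sqrt_nonneg _
  have k6 : nr ξ ≤ 1.6 := by
    obtain ⟨q1, q2⟩ := abs_le.1 k3
    by_contra hc
    push Not at hc
    nlinarith
  exact ⟨k1, k2, k3, k4, k5, k6, by linarith, by linarith, by linarith, by linarith⟩

/-- two points with norms in the same cell -/
lemma nrdiff {l c : ℕ} {sg u v : ℝ} (hu0 : 0 ≤ u) (hv0 : 0 ≤ v) (hu : u ≤ 1.6) (hv : v ≤ 1.6)
    (u1 : (c : ℝ) ≤ 4 ^ l * (u - sg)) (u2 : 4 ^ l * (u - sg) ≤ c + 1)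
    (v1 : (c : ℝ) ≤ 4 ^ l * (v - sg)) (v2 : 4 ^ l * (v - sg) ≤ c + 1) :
    |u ^ 2 - v ^ 2| ≤ 3.2 * (1 / 2 ^ l) ^ 2 := by
  have h4 : (4 : ℝ) ^ l = 2 ^ l * 2 ^ l := by
    rw [← mul_pow]; norm_num
  have hp : (0 : ℝ) < 2 ^ l := by positivity
  have hs : (1 / (2 : ℝ) ^ l) ^ 2 = 1 / 4 ^ l := by
    rw [h4]; field_simp
  rw [hs]
  have hp4 : (0 : ℝ) < 4 ^ l := by positivity
  have h5 : |u - v| ≤ 1 / 4 ^ l := by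
    rw [abs_le, le_div_iff₀ hp4, neg_le_iff_add_nonneg]
    constructor
    · have : (4 : ℝ) ^ l * (u - v) ≥ -1 := by nlinarith
      have h6 : (4 : ℝ) ^ l * (u - v + 1 / 4 ^ l) ≥ 0 := by
        rw [mul_add, mul_one_div_cancel hp4.ne']
        linarith
      exact nonneg_of_mul_nonneg_right h6 hp4
    · nlinarith
  have h6 : u ^ 2 - v ^ 2 = (u - v) * (u + v) := by ring
  rw [h6, abs_mul]
  have h7 : |u + v| ≤ 3.2 := by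
    rw [abs_le]; constructor <;> linarith
  calc |u - v| * |u + v| ≤ 1 / 4 ^ l * 3.2 :=
        mul_le_mul h5 h7 (abs_nonneg _) (by positivity)
    _ = 3.2 * (1 / 4 ^ l) := by ring

/-- the cap numbers are close -/
lemma caps {a l p1 p2 : ℕ} {sl t1 t2 : ℝ} (h : |t1 - t2| ≤ 10 * (1 / 2 ^ l))
    (u1 : (p1 : ℝ) ≤ 2 ^ (l + 8 * a) * (t1 + sl)) (u2 : 2 ^ (l + 8 * a) * (t1 + sl) ≤ p1 + 1)
    (v1 : (p2 : ℝ) ≤ 2 ^ (l + 8 * a) * (t2 + sl)) (v2 : 2 ^ (l + 8 * a) * (t2 + sl) ≤ p2 + 1) :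
    p1 ≤ p2 + 11 * 2 ^ (8 * a) ∧ p2 ≤ p1 + 11 * 2 ^ (8 * a) := by
  have hp : (0 : ℝ) < 2 ^ l := by positivity
  have hq : (1 : ℝ) ≤ 2 ^ (8 * a) := one_le_pow₀ (by norm_num)
  have e : (2 : ℝ) ^ (l + 8 * a) = 2 ^ l * 2 ^ (8 * a) := pow_add _ _ _
  have h1 : |2 ^ (l + 8 * a) * (t1 - t2)| ≤ 10 * 2 ^ (8 * a) := by
    rw [abs_mul, abs_of_pos (by positivity), e]
    calc (2 : ℝ) ^ l * 2 ^ (8 * a) * |t1 - t2| ≤ 2 ^ l * 2 ^ (8 * a) * (10 * (1 / 2 ^ l)) :=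
          mul_le_mul_of_nonneg_left h (by positivity)
      _ = 10 * 2 ^ (8 * a) := by field_simp
  obtain ⟨h2, h3⟩ := abs_le.1 h1
  constructor
  · have : (p1 : ℝ) ≤ p2 + 11 * 2 ^ (8 * a) := by nlinarith
    exact_mod_cast this
  · have : (p2 : ℝ) ≤ p1 + 11 * 2 ^ (8 * a) := by nlinarith
    exact_mod_cast this

/-- two pairs on the same side have close cap numbers -/
lemma close {a l c : ℕ} {sg sl : ℝ} {ζ ξ1 ξ2 : ℝ × ℝ} {p1 p1' p2 p2' : ℕ} (ha : 20 ≤ a)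
    (h1 : ξ1 ∈ BX a l sg sl (1 / 2 ^ (4 * a) / 4) c p1)
    (h1' : ζ - ξ1 ∈ BX a l sg sl (1 / 2 ^ (4 * a) / 4) c p1')
    (h2 : ξ2 ∈ BX a l sg sl (1 / 2 ^ (4 * a) / 4) c p2)
    (h2' : ζ - ξ2 ∈ BX a l sg sl (1 / 2 ^ (4 * a) / 4) c p2')
    (hD : 0 ≤ (ζ.1 * ξ1.2 - ζ.2 * ξ1.1) * (ζ.1 * ξ2.2 - ζ.2 * ξ2.1)) :
    (p1 ≤ p2 + 11 * 2 ^ (8 * a) ∧ p2 ≤ p1 + 11 * 2 ^ (8 * a)) ∧
    (p1' ≤ p2' + 11 * 2 ^ (8 * a) ∧ p2' ≤ p1' + 11 * 2 ^ (8 * a)) := by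
  obtain ⟨a1, a2, a3, a4, a5, a6, a7, a8, a9, a10⟩ := data ha h1
  obtain ⟨b1, b2, b3, b4, b5, b6, b7, b8, b9, b10⟩ := data ha h1'
  obtain ⟨c1, c2, c3, c4, c5, c6, c7, c8, c9, c10⟩ := data ha h2
  obtain ⟨d1, d2, d3, d4, d5, d6, d7, d8, d9, d10⟩ := data ha h2'
  simp only [Prod.fst_sub, Prod.snd_sub] at b1 b2 b3 b4 b9 b10 d1 d2 d3 d4 d9 d10
  have hs : (0 : ℝ) ≤ 1 / 2 ^ l := by positivity
  have hs1 : (1 : ℝ) / 2 ^ l ≤ 1 := by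
    rw [div_le_one (by positivity)]
    exact one_le_pow₀ (by norm_num)
  have m1 := nrdiff a5 c5 a6 c6 a7 a8 c7 c8
  have m2 := nrdiff b5 a5 b6 a6 b7 b8 a7 a8
  have m3 := nrdiff d5 c5 d6 c6 d7 d8 c7 c8
  have m4 := nrdiff b5 d5 b6 d6 b7 b8 d7 d8
  have m5 := nrdiff a5 b5 a6 b6 a7 a8 b7 b8
  have m6 := nrdiff c5 d5 c6 d6 c7 c8 d7 d8
  rw [a4, c4] at m1
  rw [b4, a4] at m2
  rw [d4, c4] at m3
  rw [b4, d4] at m4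
  rw [a4, b4] at m5
  rw [c4, d4] at m6
  have k1 := key ζ.1 ζ.2 ξ1.1 ξ1.2 ξ2.1 ξ2.2 _ hs hs1 a1 a2 a3 b1 b2 b3 m1 m2 m3 hD
  have k2 := key ζ.1 ζ.2 (ζ.1 - ξ1.1) (ζ.2 - ξ1.2) (ζ.1 - ξ2.1) (ζ.2 - ξ2.2) _ hs hs1
    b1 b2 b3 (by rw [sub_sub_cancel]; exact a1) (by rw [sub_sub_cancel]; exact a2)
    (by rw [sub_sub_cancel]; exact a3) m4
    (by rw [sub_sub_cancel, sub_sub_cancel]; exact m5)
    (by rw [sub_sub_cancel, sub_sub_cancel]; exact m6)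
    (by
      have : (ζ.1 * (ζ.2 - ξ1.2) - ζ.2 * (ζ.1 - ξ1.1)) * (ζ.1 * (ζ.2 - ξ2.2) - ζ.2 * (ζ.1 - ξ2.1))
        = (ζ.1 * ξ1.2 - ζ.2 * ξ1.1) * (ζ.1 * ξ2.2 - ζ.2 * ξ2.1) := by ring
      rw [this]; exact hD)
  exact ⟨caps (slope _ _ _ _ _ hs a1 c1 k1) a9 a10 c9 c10,
    caps (slope _ _ _ _ _ hs b1 d1 k2) b9 b10 d9 d10⟩

/-- a finite set of pairs that are close to each other -/
lemma card_close (T : Finset (ℕ × ℕ)) (M : ℕ)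
    (h : ∀ P ∈ T, ∀ P' ∈ T, P.1 ≤ P'.1 + M ∧ P.2 ≤ P'.2 + M) : T.card ≤ (2 * M + 1) ^ 2 := by
  rcases T.eq_empty_or_nonempty with rfl | ⟨P0, h0⟩
  · simp
  have hsub : T ⊆ Finset.Icc (P0.1 - M) (P0.1 + M) ×ˢ Finset.Icc (P0.2 - M) (P0.2 + M) := by
    intro P hP
    have h1 := h P hP P0 h0
    have h2 := h P0 h0 P hP
    simp only [Finset.mem_product, Finset.mem_Icc]
    omega
  refine (Finset.card_le_card hsub).trans ?_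
  rw [Finset.card_product, Nat.card_Icc, Nat.card_Icc, sq]
  exact Nat.mul_le_mul (by omega) (by omega)

end CNT_

open CNT_

theorem pCNT : tCNT := by
  classical
  refine ⟨1058, ?_⟩
  intro a l c sg sl ζ S ha hl hsg hsg1 hsl hsl2 hS
  choose! f hf using fun P hP => (hS P hP).2.2
  set g : ℕ × ℕ → ℝ := fun P => ζ.1 * (f P).2 - ζ.2 * (f P).1 with hg
  have hq : 1 ≤ 2 ^ (8 * a) := Nat.one_le_two_pow
  have key2 : ∀ T : Finset (ℕ × ℕ), T ⊆ S → (∀ P ∈ T, ∀ P' ∈ T, 0 ≤ g P * g P') →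
      T.card ≤ 529 * 2 ^ (16 * a) := by
    intro T hT hgT
    have h1 : T.card ≤ (2 * (11 * 2 ^ (8 * a)) + 1) ^ 2 := by
      refine card_close T _ ?_
      intro P hP P' hP'
      have h := close ha (hf P (hT hP)).1 (hf P (hT hP)).2 (hf P' (hT hP')).1
        (hf P' (hT hP')).2 (hgT P hP P' hP')
      exact ⟨h.1.1, h.2.1⟩
    refine h1.trans ?_
    have h2 : 2 * (11 * 2 ^ (8 * a)) + 1 ≤ 23 * 2 ^ (8 * a) := by omega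
    calc (2 * (11 * 2 ^ (8 * a)) + 1) ^ 2 ≤ (23 * 2 ^ (8 * a)) ^ 2 := Nat.pow_le_pow_left h2 2
      _ = 529 * 2 ^ (16 * a) := by
        rw [mul_pow, ← pow_mul]
        have : 8 * a * 2 = 16 * a := by ring
        rw [this]
        norm_num
  have h1 := key2 (S.filter fun P => 0 ≤ g P) (Finset.filter_subset _ _) (by
    intro P hP P' hP'
    exact mul_nonneg (Finset.mem_filter.1 hP).2 (Finset.mem_filter.1 hP').2)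
  have h2 := key2 (S.filter fun P => ¬ 0 ≤ g P) (Finset.filter_subset _ _) (by
    intro P hP P' hP'
    have h3 := (Finset.mem_filter.1 hP).2
    have h4 := (Finset.mem_filter.1 hP').2
    push Not at h3 h4
    exact mul_nonneg_of_nonpos_of_nonpos h3.le h4.le)
  rw [← Finset.card_filter_add_card_filter_not (fun P => 0 ≤ g P)]
  linarith

end Pool.Agent.SLog
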