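import Pool.Agent.SLog.Targets
import Pool.Agent.KSP.Base
import Pool.Agent.LLog.HAT

set_option autoImplicit false

/-! SLG-D: the dual estimate `tD`. -/

namespace Pool.Agent.SLog

open MeasureTheory Set
open scoped ENNReal NNReal ComplexConjugate
open Pool.Agent.KSP (ee dot nr Ex Ex1 Bd Bd1 n1 n2 lg V0 ann sq)
open Pool.Agent.LLog (PA cd cdr cp fr tp Nn nv tv Core bx sa sd Qx kc psi kap GK psR psA anf mu Bf hat)

namespace D_

open Pool.Agent.KSP.Base_ (bd_memLp)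
open Pool.Agent.LLog.HAT_ (bf_int norm_ee continuous_ee)

lemma cont_ee_dot (x : ℝ × ℝ) : Continuous (fun ξ : ℝ × ℝ => ee (dot x ξ)) := by
  refine continuous_ee.comp ?_
  unfold dot
  fun_prop

lemma bd_int {k : ℝ × ℝ → ℂ} (hk : Bd k) (x : ℝ × ℝ) :
    Integrable (fun ξ => k ξ * ee (dot x ξ)) := by
  have hki : Integrable k := memLp_one_iff_integrable.1 (bd_memLp hk 1)
  exact hki.mul_bdd (c := 1) (cont_ee_dot x).aestronglyMeasurable
    (ae_of_all _ fun p => (norm_ee _).le)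

lemma Ex_add {k1 k2 : ℝ × ℝ → ℂ} (h1 : Bd k1) (h2 : Bd k2) (x : ℝ × ℝ) :
    Ex (fun ξ => k1 ξ + k2 ξ) x = Ex k1 x + Ex k2 x := by
  unfold Ex
  rw [← integral_add (bd_int h1 x) (bd_int h2 x)]
  congr 1
  funext ξ
  ring

lemma Ex_zero (x : ℝ × ℝ) : Ex (fun _ => 0) x = 0 := by
  unfold Ex
  simp

lemma Bd_zero : Bd (fun _ : ℝ × ℝ => (0 : ℂ)) := by
  refine ⟨measurable_const, ⟨0, fun ξ => by simp⟩, ⟨0, fun ξ h => ?_⟩⟩
  exact absurd rfl h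

lemma Bd_add {k1 k2 : ℝ × ℝ → ℂ} (h1 : Bd k1) (h2 : Bd k2) : Bd (fun ξ => k1 ξ + k2 ξ) := by
  obtain ⟨m1, ⟨B1, b1⟩, ⟨R1, r1⟩⟩ := h1
  obtain ⟨m2, ⟨B2, b2⟩, ⟨R2, r2⟩⟩ := h2
  refine ⟨m1.add m2, ⟨B1 + B2, fun ξ => (norm_add_le _ _).trans (add_le_add (b1 ξ) (b2 ξ))⟩,
    ⟨max R1 R2, fun ξ h => ?_⟩⟩
  by_cases hk : k1 ξ = 0
  · have : k2 ξ ≠ 0 := by
      intro h0
      apply h
      simp only [hk, h0, add_zero]
    exact ⟨(r2 ξ this).1.trans (le_max_right _ _), (r2 ξ this).2.trans (le_max_right _ _)⟩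
  · exact ⟨(r1 ξ hk).1.trans (le_max_left _ _), (r1 ξ hk).2.trans (le_max_left _ _)⟩

lemma Bd_sum {ι : Type*} (F : Finset ι) (k : ι → ℝ × ℝ → ℂ) (hk : ∀ i ∈ F, Bd (k i)) :
    Bd (fun ξ => ∑ i ∈ F, k i ξ) ∧ ∀ x, Ex (fun ξ => ∑ i ∈ F, k i ξ) x = ∑ i ∈ F, Ex (k i) x := by
  classical
  induction F using Finset.induction_on with
  | empty =>
    simp only [Finset.sum_empty]
    exact ⟨Bd_zero, Ex_zero⟩
  | insert i F hi ih =>
    have hF := ih (fun j hj => hk j (Finset.mem_insert_of_mem hj))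
    have h1 := hk i (Finset.mem_insert_self i F)
    simp only [Finset.sum_insert hi]
    exact ⟨Bd_add h1 hF.1, fun x => by rw [Ex_add h1 hF.1, hF.2]⟩

/-- orthogonality of pieces with disjoint frequency supports -/
lemma orth {ι : Type*} (F : Finset ι) (k : ι → ℝ × ℝ → ℂ) (hk : ∀ i ∈ F, Bd (k i))
    (hd : ∀ i ∈ F, ∀ j ∈ F, ∀ ξ, k i ξ ≠ 0 → k j ξ ≠ 0 → i = j) :
    ∫⁻ x, ‖∑ i ∈ F, Ex (k i) x‖ₑ ^ 2 = ∑ i ∈ F, ∫⁻ x, ‖Ex (k i) x‖ₑ ^ 2 := by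
  have hS := Bd_sum F k hk
  have e1 : ∫⁻ x, ‖∑ i ∈ F, Ex (k i) x‖ₑ ^ 2 = n2 (fun ξ => ∑ i ∈ F, k i ξ) := by
    rw [← (Pool.Agent.KSP.pPl2 _ hS.1).2]
    refine lintegral_congr fun x => ?_
    rw [hS.2 x]
  have e2 : ∀ i ∈ F, ∫⁻ x, ‖Ex (k i) x‖ₑ ^ 2 = n2 (k i) := fun i hi =>
    (Pool.Agent.KSP.pPl2 _ (hk i hi)).2
  rw [e1, Finset.sum_congr rfl e2]
  unfold n2
  rw [← lintegral_finsetSum' F (fun i hi =>
    ((hk i hi).1.enorm.pow_const 2).aemeasurable)]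
  refine lintegral_congr fun ξ => ?_
  beta_reduce
  by_cases h : ∃ i ∈ F, k i ξ ≠ 0
  · obtain ⟨i, hi, hki⟩ := h
    rw [Finset.sum_eq_single i, Finset.sum_eq_single i]
    · intro j hj hji
      have : k j ξ = 0 := by
        by_contra h0
        exact hji (hd j hj i hi ξ h0 hki)
      simp [this]
    · intro h0
      exact absurd hi h0
    · intro j hj hji
      by_contra h0
      exact hji (hd j hj i hi ξ h0 hki)
    · intro h0
      exact absurd hi h0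
  · push Not at h
    rw [Finset.sum_eq_zero h, Finset.sum_eq_zero]
    · simp
    · intro i hi
      simp [h i hi]

lemma cast_uniq {c c' : ℕ} {y ε : ℝ} (hε : 0 < ε) (h1 : c + ε ≤ y) (h2 : y ≤ c + 1 - ε)
    (h3 : c' + ε ≤ y) (h4 : y ≤ c' + 1 - ε) : c = c' := by
  have a1 : (c : ℝ) < c' + 1 := by linarith
  have a2 : (c' : ℝ) < c + 1 := by linarith
  have b1 : c < c' + 1 := by exact_mod_cast a1
  have b2 : c' < c + 1 := by exact_mod_cast a2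
  omega

lemma cell_uniq {a l : ℕ} {sg sl ε : ℝ} {c p c' p' : ℕ} {ξ : ℝ × ℝ} (hε : 0 < ε)
    (h1 : ξ ∈ BX a l sg sl ε c p) (h2 : ξ ∈ BX a l sg sl ε c' p') : c = c' ∧ p = p' := by
  obtain ⟨-, -, -, a1, a2, a3, a4⟩ := h1
  obtain ⟨-, -, -, b1, b2, b3, b4⟩ := h2
  exact ⟨cast_uniq hε a1 a2 b1 b2, cast_uniq hε a3 a4 b3 b4⟩

lemma eps_pos (a : ℕ) : (0 : ℝ) < 1 / 2 ^ (4 * a) / 4 := by positivity

lemma enorm_real_sq (r : ℝ) : ‖(r : ℂ)‖ₑ ^ 2 = ENNReal.ofReal (r ^ 2) := by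
  rw [← ofReal_norm, ← ENNReal.ofReal_pow (norm_nonneg _)]
  congr 1
  rw [Complex.norm_real, Real.norm_eq_abs, sq_abs]

/-- orthogonality for families indexed by the cells -/
lemma orth2 (a l : ℕ) (sg sl : ℝ) (f : ℕ → ℕ → ℝ × ℝ → ℂ)
    (hf : ∀ c ∈ CC l, ∀ p ∈ PP a l, ∃ k, Bd k ∧
      (∀ ξ, k ξ ≠ 0 → ξ ∈ BX a l sg sl (1 / 2 ^ (4 * a) / 4) c p) ∧ ∀ x, Ex k x = f c p x) :
    Measurable (fun x => ∑ c ∈ CC l, ∑ p ∈ PP a l, f c p x) ∧
    ∫⁻ x, ‖∑ c ∈ CC l, ∑ p ∈ PP a l, f c p x‖ₑ ^ 2 =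
      ∑ c ∈ CC l, ∑ p ∈ PP a l, ∫⁻ x, ‖f c p x‖ₑ ^ 2 := by
  classical
  have h0 : ∀ P : ℕ × ℕ, ∃ k : ℝ × ℝ → ℂ, P ∈ (CC l) ×ˢ (PP a l) → Bd k ∧
      (∀ ξ, k ξ ≠ 0 → ξ ∈ BX a l sg sl (1 / 2 ^ (4 * a) / 4) P.1 P.2) ∧
      ∀ x, Ex k x = f P.1 P.2 x := by
    intro P
    by_cases hP : P ∈ (CC l) ×ˢ (PP a l)
    · obtain ⟨k, hk⟩ := hf P.1 (Finset.mem_product.1 hP).1 P.2 (Finset.mem_product.1 hP).2
      exact ⟨k, fun _ => hk⟩
    · exact ⟨0, fun h => absurd h hP⟩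
  choose k hk using h0
  have e1 : ∀ x, ∑ c ∈ CC l, ∑ p ∈ PP a l, f c p x =
      ∑ P ∈ (CC l) ×ˢ (PP a l), Ex (k P) x := by
    intro x
    rw [Finset.sum_product]
    refine Finset.sum_congr rfl fun c hc => Finset.sum_congr rfl fun p hp => ?_
    exact ((hk (c, p) (Finset.mem_product.2 ⟨hc, hp⟩)).2.2 x).symm
  constructor
  · simp only [e1]
    exact Finset.measurable_sum _ fun P hP =>
      (Pool.Agent.KSP.pPl2 _ (hk P hP).1).1.measurable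
  · simp only [e1]
    rw [orth ((CC l) ×ˢ (PP a l)) k (fun P hP => (hk P hP).1), Finset.sum_product]
    · refine Finset.sum_congr rfl fun c hc => Finset.sum_congr rfl fun p hp => ?_
      refine lintegral_congr fun x => ?_
      rw [(hk (c, p) (Finset.mem_product.2 ⟨hc, hp⟩)).2.2 x]
    · intro P hP Q hQ ξ h1 h2
      have := cell_uniq (eps_pos a) ((hk P hP).2.1 ξ h1) ((hk Q hQ).2.1 ξ h2)
      exact Prod.ext this.1 this.2

lemma sq4 (x y z t : ℂ) :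
    ‖x + y + (z + t)‖ₑ ^ 2 ≤ 4 * (‖x‖ₑ ^ 2 + ‖y‖ₑ ^ 2 + ‖z‖ₑ ^ 2 + ‖t‖ₑ ^ 2) := by
  have key : ‖x + y + (z + t)‖ ^ 2 ≤ 4 * (‖x‖ ^ 2 + ‖y‖ ^ 2 + ‖z‖ ^ 2 + ‖t‖ ^ 2) := by
    have h1 : ‖x + y + (z + t)‖ ≤ ‖x‖ + ‖y‖ + (‖z‖ + ‖t‖) :=
      (norm_add_le _ _).trans (add_le_add (norm_add_le _ _) (norm_add_le _ _))
    have h0 : ‖x + y + (z + t)‖ ^ 2 ≤ (‖x‖ + ‖y‖ + (‖z‖ + ‖t‖)) ^ 2 :=
      pow_le_pow_left₀ (norm_nonneg _) h1 2
    nlinarith [sq_nonneg (‖x‖ - ‖y‖), sq_nonneg (‖x‖ - ‖z‖), sq_nonneg (‖x‖ - ‖t‖),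
      sq_nonneg (‖y‖ - ‖z‖), sq_nonneg (‖y‖ - ‖t‖), sq_nonneg (‖z‖ - ‖t‖)]
  have h2 : ∀ v : ℂ, ‖v‖ₑ ^ 2 = ENNReal.ofReal (‖v‖ ^ 2) := fun v => by
    rw [← ofReal_norm, ENNReal.ofReal_pow (norm_nonneg _)]
  have h4 : (4 : ℝ≥0∞) = ENNReal.ofReal 4 := by
    rw [ENNReal.ofReal_ofNat]
  rw [h2, h2 x, h2 y, h2 z, h2 t, ← ENNReal.ofReal_add (by positivity) (by positivity),
    ← ENNReal.ofReal_add (by positivity) (by positivity),
    ← ENNReal.ofReal_add (by positivity) (by positivity), h4,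
    ← ENNReal.ofReal_mul (by norm_num)]
  exact ENNReal.ofReal_le_ofReal key

lemma enorm_ind_pow (Z : Set (ℝ × ℝ)) (f : ℝ × ℝ → ℂ) (n : ℕ) (hn : n ≠ 0) (x : ℝ × ℝ) :
    ‖Z.indicator f x‖ₑ ^ n = Z.indicator (fun x => ‖f x‖ₑ ^ n) x := by
  by_cases hx : x ∈ Z
  · simp [hx]
  · simp [hx, hn]

lemma Bf_ind {g : ℝ × ℝ → ℂ} (hg : Bf g) {Y : Set (ℝ × ℝ)} (hY : MeasurableSet Y) :
    Bf (Y.indicator g) := by
  obtain ⟨h1, ⟨B, h2⟩, h3⟩ := hg
  refine ⟨h1.indicator hY, ⟨B, fun x => (norm_indicator_le_norm_self _ _).trans (h2 x)⟩, ?_⟩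
  refine lt_of_le_of_lt (measure_mono fun x hx => ?_) h3
  intro h0
  apply hx
  by_cases hxY : x ∈ Y
  · rw [indicator_of_mem hxY, h0]
  · rw [indicator_of_notMem hxY]

lemma Fm_ind {w : ℕ → ℝ × ℝ → ℂ} (hw : Fm w) {Y : ℕ → Set (ℝ × ℝ)}
    (hY : ∀ c, MeasurableSet (Y c)) : Fm (fun c => (Y c).indicator (w c)) := by
  refine ⟨fun c => ⟨Bf_ind (hw.1 c).1 (hY c), fun x =>
    (norm_indicator_le_norm_self _ _).trans ((hw.1 c).2 x)⟩, ?_⟩
  intro x c c' h1 h2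
  exact hw.2 x c c' (fun h => h1 (by
    simp only [indicator_apply_eq_zero]
    intro _
    exact h)) (fun h => h2 (by
    simp only [indicator_apply_eq_zero]
    intro _
    exact h))

lemma ind_ne {g : ℝ × ℝ → ℂ} {Y : Set (ℝ × ℝ)} {x : ℝ × ℝ} (h : Y.indicator g x ≠ 0) :
    x ∈ Y ∧ g x ≠ 0 := by
  by_cases hx : x ∈ Y
  · rw [indicator_of_mem hx] at h
    exact ⟨hx, h⟩
  · rw [indicator_of_notMem hx] at h
    exact absurd rfl h

lemma hat_add {g1 g2 : ℝ × ℝ → ℂ} (h1 : Bf g1) (h2 : Bf g2) (ξ : ℝ × ℝ) :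
    hat (fun x => g1 x + g2 x) ξ = hat g1 ξ + hat g2 ξ := by
  have hc : Continuous (fun x : ℝ × ℝ => ee (-(dot x ξ))) := by
    refine continuous_ee.comp ?_
    unfold dot
    fun_prop
  have i : ∀ {g : ℝ × ℝ → ℂ}, Bf g → Integrable (fun x => g x * ee (-(dot x ξ))) := fun hg =>
    (bf_int hg).mul_bdd (c := 1) hc.aestronglyMeasurable (ae_of_all _ fun p => (norm_ee _).le)
  unfold hat
  rw [← integral_add (i h1) (i h2)]
  congr 1
  funext x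
  ring

lemma vv_add (hVB : tVB) {a m l : ℕ} {sg sl : ℝ} (hp : HP a m l sg sl) {g1 g2 : ℝ × ℝ → ℂ}
    (h1 : Bf g1) (h2 : Bf g2) {c p : ℕ} (hc : c ∈ CC l) (hpp : p ∈ PP a l) (x : ℝ × ℝ) :
    vv a m sg sl l (fun x => g1 x + g2 x) c p x = vv a m sg sl l g1 c p x +
      vv a m sg sl l g2 c p x := by
  have b1 := ((hVB a m l sg sl g1 hp h1).1 c hc p hpp).2.1
  have b2 := ((hVB a m l sg sl g2 hp h2).1 c hc p hpp).2.1
  unfold vv
  rw [← Ex_add b1 b2]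
  congr 1
  funext ξ
  rw [hat_add h1 h2]
  ring

lemma sub_nb (a l : ℕ) (Y : Set (ℝ × ℝ)) : Y ⊆ nb a l Y := by
  intro y hy
  refine ⟨y, hy, ?_, ?_⟩
  · rw [sub_self, abs_zero]
    positivity
  · rw [sub_self, abs_zero]
    positivity

lemma sum_vol {l : ℕ} {w : ℕ → ℝ × ℝ → ℂ} (hw : Fm w) :
    ∑ c ∈ CC l, volume {x | w c x ≠ 0} = volume (EE l w) := by
  have e : EE l w = ⋃ c ∈ CC l, {x | w c x ≠ 0} := by
    ext x
    simp only [EE, mem_ofPred_eq, mem_iUnion, exists_prop]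
  rw [e, measure_biUnion_finset]
  · intro c _ c' _ hcc
    refine Set.disjoint_left.2 fun x h1 h2 => ?_
    exact hcc (hw.2 x c c' h1 h2)
  · intro c _
    exact (hw.1 c).1.1 (measurableSet_singleton (0 : ℂ)).compl

lemma EE_ind_le {l : ℕ} {w : ℕ → ℝ × ℝ → ℂ} {Y : ℕ → Set (ℝ × ℝ)} :
    volume (EE l (fun c => (Y c).indicator (w c))) ≤ volume (EE l w) := by
  refine measure_mono ?_
  rintro x ⟨c, hc, hx⟩
  exact ⟨c, hc, (ind_ne hx).2⟩

end D_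

open D_

theorem pD (hPQ : tPQ) (hUND : tUND) (hLGT : tLGT) (hREM : tREM) (hBDZ : tBDZ) (hMAI : tMAI)
    (hFRQ : tFRQ) (hVB : tVB) (hKN : tKN) : tD := by
  classical
  obtain ⟨C1, hC1⟩ := hUND
  obtain ⟨C2, hC2⟩ := hBDZ
  obtain ⟨C3, hC3⟩ := hMAI
  obtain ⟨C4, hC4⟩ := hKN
  refine ⟨C3 + 4 * (C1 + 12 + C2), ?_⟩
  intro a m l sg sl w hp hw
  have ha : 20 ≤ a := hp.1.1
  -- the sets
  set X : ℕ → Set (ℝ × ℝ) := fun c => {x | w c x ≠ 0} with hXdef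
  have hXm : ∀ c, MeasurableSet (X c) := fun c =>
    (hw.1 c).1.1 (measurableSet_singleton (0 : ℂ)).compl
  have hXf : ∀ c, volume (X c) < ⊤ := fun c => (hw.1 c).1.2.2
  have hXd : ∀ c c', c ≠ c' → Disjoint (X c) (X c') := by
    intro c c' hcc
    refine Set.disjoint_left.2 fun x h1 h2 => ?_
    exact hcc (hw.2 x c c' h1 h2)
  obtain ⟨q1, q2, q3, q4⟩ := hPQ a l X ha (fun c => ⟨hXm c, hXf c⟩) hXd
  set Y : ℕ → Set (ℝ × ℝ) := fun c => Pq a l (X c) with hYdef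
  have hYm : ∀ c, MeasurableSet (Y c) := q1
  set w1 : ℕ → ℝ × ℝ → ℂ := fun c => (Y c).indicator (w c) with hw1def
  set w2 : ℕ → ℝ × ℝ → ℂ := fun c => ((Y c)ᶜ).indicator (w c) with hw2def
  have hw1 : Fm w1 := Fm_ind hw hYm
  have hw2 : Fm w2 := Fm_ind hw (fun c => (hYm c).compl)
  have hsupp : ∀ c, {x | w1 c x ≠ 0} = X c ∩ Y c := by
    intro c
    ext x
    constructor
    · intro h
      exact ⟨(ind_ne h).2, (ind_ne h).1⟩
    · rintro ⟨h1, h2⟩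
      have : w1 c x = w c x := indicator_of_mem h2 _
      rw [mem_ofPred_eq, this]
      exact h1
  have hnb : ∀ c, volume (nb a l (nb a l (Y c))) ≤
      9 * 2 ^ (60 * a) * volume {x | w1 c x ≠ 0} := by
    intro c
    rw [hsupp c]
    exact q2 c
  have hPf : Pf a l w1 Y := ⟨hw1, fun c => ⟨hYm c, fun x h => (ind_ne h).1⟩, hnb, q3⟩
  have hnb1 : ∀ c, volume (nb a l (Y c)) ≤ 9 * 2 ^ (60 * a) * volume {x | w1 c x ≠ 0} :=
    fun c => (measure_mono (sub_nb a l _)).trans (hnb c)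
  have hnbf : ∀ c, volume (nb a l (Y c)) < ⊤ := by
    intro c
    refine lt_of_le_of_lt (hnb1 c) ?_
    refine ENNReal.mul_lt_top ?_ (hw1.1 c).1.2.2
    exact ENNReal.mul_lt_top (by norm_num) (ENNReal.pow_lt_top (by norm_num))
  -- the pieces
  set fE : ℕ → ℕ → ℝ × ℝ → ℂ := fun c p x =>
    (eh a m sl l (Y c) p x : ℂ) * vv a m sg sl l (w1 c) c p x with hfE
  set fL : ℕ → ℕ → ℝ × ℝ → ℂ := fun c p x =>
    (1 - eh a m sl l (Y c) p x : ℂ) * vv a m sg sl l (w1 c) c p x with hfL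
  set fR : ℕ → ℕ → ℝ × ℝ → ℂ := fun c p x =>
    ((eh a m sl l (Y c) p x * na a m sl l (VV a m sg sl l (w1 c) c) p x : ℝ) : ℂ) *
      vv a m sg sl l (w1 c) c p x with hfR
  have hfrq := fun (c : ℕ) (hc : c ∈ CC l) (p : ℕ) (hpp : p ∈ PP a l) =>
    hFRQ a m l c p sg sl (w1 c) (Y c) hp hc hpp (hw1.1 c).1 (hYm c) (hnbf c)
  have oE := orth2 a l sg sl fE (fun c hc p hpp => (hfrq c hc p hpp).1)
  have oL := orth2 a l sg sl fL (fun c hc p hpp => (hfrq c hc p hpp).2.1)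
  have oR := orth2 a l sg sl fR (fun c hc p hpp => (hfrq c hc p hpp).2.2.1)
  set E : ℝ × ℝ → ℂ := fun x => ∑ c ∈ CC l, ∑ p ∈ PP a l, fE c p x with hE
  set L : ℝ × ℝ → ℂ := fun x => ∑ c ∈ CC l, ∑ p ∈ PP a l, fL c p x with hL
  set R : ℝ × ℝ → ℂ := fun x => ∑ c ∈ CC l, ∑ p ∈ PP a l, fR c p x with hR
  set M : ℝ × ℝ → ℂ := fun x => ∑ c ∈ CC l, ∑ p ∈ PP a l,
    ((eh a m sl l (Y c) p x * (1 - na a m sl l (VV a m sg sl l (w1 c) c) p x) : ℝ) : ℂ) *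
        vv a m sg sl l (w1 c) c p x with hM
  set V2 : ℝ × ℝ → ℂ := fun x => ∑ c ∈ CC l, ∑ p ∈ PP a l, vv a m sg sl l (w2 c) c p x with hV2
  have mE : Measurable E := oE.1
  have mL : Measurable L := oL.1
  have mR : Measurable R := oR.1
  have mV2 : Measurable V2 := by
    refine Finset.measurable_sum _ fun c hc => Finset.measurable_sum _ fun p hpp => ?_
    exact ((hVB a m l sg sl (w2 c) hp (hw2.1 c).1).1 c hc p hpp).1.measurable
  have eM : ∀ x, M x = E x - R x := by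
    intro x
    simp only [hM, hE, hR, hfE, hfR, ← Finset.sum_sub_distrib]
    refine Finset.sum_congr rfl fun c _ => Finset.sum_congr rfl fun p _ => ?_
    push_cast
    ring
  have mM : Measurable M := by
    have : M = fun x => E x - R x := funext eM
    rw [this]
    exact mE.sub mR
  have eV : ∀ x, ∑ c ∈ CC l, ∑ p ∈ PP a l, vv a m sg sl l (w c) c p x = V2 x + (L x + E x) := by
    intro x
    simp only [hV2, hL, hE, hfL, hfE, ← Finset.sum_add_distrib]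
    refine Finset.sum_congr rfl fun c hc => Finset.sum_congr rfl fun p hpp => ?_
    have h1 : w c = fun x => w2 c x + w1 c x := by
      funext x
      exact (congrFun (indicator_compl_add_self (Y c) (w c)) x).symm
    have h2 := vv_add hVB hp (hw2.1 c).1 (hw1.1 c).1 hc hpp x
    rw [← h1] at h2
    rw [h2]
    ring
  -- the set where the density is large
  obtain ⟨hNm, -, -⟩ := hC4 a m l 3 sg sl w1 univ hp hw1 MeasurableSet.univ (by norm_num)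
    (by norm_num)
  set Z : Set (ℝ × ℝ) := {x | 2 ^ (210 * a) < NN a m sg sl l w1 3 x} with hZ
  have hZm : MeasurableSet Z := by
    have h3 : Measurable (NN a m sg sl l w1 3) := by exact_mod_cast hNm
    exact measurableSet_lt measurable_const h3
  have hZc : Zᶜ = {x | NN a m sg sl l w1 3 x ≤ 2 ^ (210 * a)} := by
    ext x
    simp only [hZ, mem_compl_iff, mem_ofPred_eq, not_lt]
  set e : ℝ≥0∞ := ENNReal.ofReal (1 / 2 ^ (9 * a)) with he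
  set v : ℝ≥0∞ := volume (EE l w) with hv
  have hv1 : volume (EE l w1) ≤ v := EE_ind_le
  have hv2 : volume (EE l w2) ≤ v := EE_ind_le
  refine ⟨Zᶜ.indicator M, fun x => V2 x + L x + (Z.indicator E x + Zᶜ.indicator R x),
    mM.indicator hZm.compl, (mV2.add mL).add ((mE.indicator hZm).add (mR.indicator hZm.compl)),
    ?_, ?_, ?_⟩
  · intro x
    rw [eV x]
    beta_reduce
    by_cases hx : x ∈ Z
    · have hx' : x ∉ Zᶜ := fun h => h hx
      rw [indicator_of_mem hx, indicator_of_notMem hx', indicator_of_notMem hx']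
      ring
    · have hx' : x ∈ Zᶜ := hx
      rw [indicator_of_notMem hx, indicator_of_mem hx', indicator_of_mem hx', eM x]
      ring
  · have h := hC3 a m l sg sl w1 Y hp hPf
    rw [← hZc] at h
    have e1 : ∫⁻ x, ‖Zᶜ.indicator M x‖ₑ ^ 4 = ∫⁻ x in Zᶜ, ‖M x‖ₑ ^ 4 := by
      simp only [enorm_ind_pow Zᶜ M 4 (by norm_num)]
      rw [lintegral_indicator hZm.compl]
    rw [e1]
    refine h.trans ?_
    gcongr
    exact le_self_add
  · -- the four terms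
    have t1 : ∫⁻ x, ‖V2 x‖ₑ ^ 2 ≤ C1 * (e * v) := by
      have h := hC1 a m l sg sl (fun c => X c \ Y c) w2 hp
        (fun c => ⟨(hXm c).diff (hYm c), q4 c⟩) hw2 (fun c x h => ⟨(ind_ne h).2, (ind_ne h).1⟩)
      refine h.trans ?_
      rw [mul_assoc]
      gcongr
      · rw [he]
        refine ENNReal.ofReal_le_ofReal ?_
        gcongr
        · norm_num
        · omega
    have k1 : ∀ c ∈ CC l, ∑ p ∈ PP a l, ∫⁻ x, ‖fL c p x‖ₑ ^ 2 ≤
        8 * e * volume {x | w1 c x ≠ 0} := by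
      intro c hc
      have h := hLGT a m l c sg sl (w1 c) (Y c) hp hc (hw1.1 c).1 (hw1.1 c).2 (hYm c) (hnbf c)
        (fun x h => (ind_ne h).1)
      have e1 : ∀ p ∈ PP a l, ∫⁻ x, ‖fL c p x‖ₑ ^ 2 =
          ∫⁻ x, ENNReal.ofReal ((1 - eh a m sl l (Y c) p x) ^ 2) *
            VV a m sg sl l (w1 c) c p x := by
        intro p _
        refine lintegral_congr fun x => ?_
        simp only [hfL, VV]
        rw [enorm_mul, mul_pow, ← enorm_real_sq]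
        push_cast
        rfl
      rw [Finset.sum_congr rfl e1]
      refine h.trans ?_
      gcongr
      rw [he, show (8 : ℝ≥0∞) = ENNReal.ofReal 8 by rw [ENNReal.ofReal_ofNat],
        ← ENNReal.ofReal_mul (by norm_num)]
      refine ENNReal.ofReal_le_ofReal ?_
      rw [mul_one_div]
      gcongr
      · norm_num
      · omega
    have k2 : ∀ c ∈ CC l, ∑ p ∈ PP a l, ∫⁻ x, ‖fR c p x‖ₑ ^ 2 ≤
        4 * e * volume {x | w1 c x ≠ 0} := by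
      intro c hc
      have h := hREM a m l c sg sl (w1 c) (Y c) hp hc (hw1.1 c).1 (hw1.1 c).2 (hYm c) (hnb1 c)
        (fun x h => (ind_ne h).1)
      have e1 : ∀ p ∈ PP a l, ∫⁻ x, ‖fR c p x‖ₑ ^ 2 =
          ∫⁻ x, ENNReal.ofReal ((eh a m sl l (Y c) p x *
            na a m sl l (VV a m sg sl l (w1 c) c) p x) ^ 2) *
            VV a m sg sl l (w1 c) c p x := by
        intro p _
        refine lintegral_congr fun x => ?_
        simp only [hfR, VV]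
        rw [enorm_mul, mul_pow, ← enorm_real_sq]
      rw [Finset.sum_congr rfl e1]
      refine h.trans ?_
      gcongr
      rw [he, show (4 : ℝ≥0∞) = ENNReal.ofReal 4 by rw [ENNReal.ofReal_ofNat],
        ← ENNReal.ofReal_mul (by norm_num)]
      refine ENNReal.ofReal_le_ofReal ?_
      rw [mul_one_div]
      gcongr
      · norm_num
      · omega
    have t2 : ∫⁻ x, ‖L x‖ₑ ^ 2 ≤ 8 * (e * v) := by
      rw [oL.2]
      refine (Finset.sum_le_sum k1).trans ?_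
      rw [← Finset.mul_sum, sum_vol hw1, mul_assoc]
      gcongr
    have t4 : ∫⁻ x, ‖Zᶜ.indicator R x‖ₑ ^ 2 ≤ 4 * (e * v) := by
      have h1 : ∫⁻ x, ‖Zᶜ.indicator R x‖ₑ ^ 2 ≤ ∫⁻ x, ‖R x‖ₑ ^ 2 := by
        refine lintegral_mono fun x => ?_
        rw [enorm_ind_pow Zᶜ R 2 (by norm_num)]
        exact indicator_le_self _ _ _
      refine h1.trans ?_
      rw [oR.2]
      refine (Finset.sum_le_sum k2).trans ?_
      rw [← Finset.mul_sum, sum_vol hw1, mul_assoc]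
      gcongr
    have t3 : ∫⁻ x, ‖Z.indicator E x‖ₑ ^ 2 ≤ C2 * (e * v) := by
      have h := hC2 a m l sg sl w1 Y hp hPf
      have e1 : ∫⁻ x, ‖Z.indicator E x‖ₑ ^ 2 = ∫⁻ x in Z, ‖E x‖ₑ ^ 2 := by
        simp only [enorm_ind_pow Z E 2 (by norm_num)]
        rw [lintegral_indicator hZm]
      rw [e1]
      refine h.trans ?_
      rw [mul_assoc]
      gcongr
      · rw [he]
        refine ENNReal.ofReal_le_ofReal ?_
        gcongr
        · norm_num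
        · omega
    have mm1 : Measurable fun x => ‖V2 x‖ₑ ^ 2 := mV2.enorm.pow_const 2
    have mm2 : Measurable fun x => ‖L x‖ₑ ^ 2 := mL.enorm.pow_const 2
    have mm3 : Measurable fun x => ‖Z.indicator E x‖ₑ ^ 2 :=
      (mE.indicator hZm).enorm.pow_const 2
    have mm4 : Measurable fun x => ‖Zᶜ.indicator R x‖ₑ ^ 2 :=
      (mR.indicator hZm.compl).enorm.pow_const 2
    calc ∫⁻ x, ‖V2 x + L x + (Z.indicator E x + Zᶜ.indicator R x)‖ₑ ^ 2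
        ≤ ∫⁻ x, 4 * (‖V2 x‖ₑ ^ 2 + ‖L x‖ₑ ^ 2 + ‖Z.indicator E x‖ₑ ^ 2 +
            ‖Zᶜ.indicator R x‖ₑ ^ 2) := lintegral_mono fun x => sq4 _ _ _ _
      _ = 4 * ((∫⁻ x, ‖V2 x‖ₑ ^ 2) + (∫⁻ x, ‖L x‖ₑ ^ 2) + (∫⁻ x, ‖Z.indicator E x‖ₑ ^ 2) +
            ∫⁻ x, ‖Zᶜ.indicator R x‖ₑ ^ 2) := by
          rw [lintegral_const_mul' _ _ (by norm_num), lintegral_add_right _ mm4,
            lintegral_add_right _ mm3, lintegral_add_right _ mm2]
      _ ≤ 4 * (C1 * (e * v) + 8 * (e * v) + C2 * (e * v) + 4 * (e * v)) := by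
          gcongr
      _ = (4 * ((C1 : ℝ≥0∞) + 12 + C2)) * (e * v) := by ring
      _ ≤ ((C3 + 4 * (C1 + 12 + C2) : ℝ≥0) : ℝ≥0∞) * (e * v) := by
          gcongr
          push_cast
          exact le_add_self
      _ = _ := by rw [mul_assoc]

end Pool.Agent.SLog
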