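import Pool.Agent.SLog.Targets
import Pool.Agent.KSP.MV

set_option autoImplicit false

/-! SLG-DIF: comparison of `AF` with the partial sums. -/

namespace Pool.Agent.SLog

open MeasureTheory Set
open scoped ENNReal NNReal ComplexConjugate
open Pool.Agent.KSP (ee dot nr Ex Ex1 Bd Bd1 n1 n2 lg V0 ann sq pPl2)
open Pool.Agent.LLog (PA cd cdr cp fr tp Nn nv tv Core bx sa sd Qx kc psi kap GK psR psA anf mu Bf hat)

namespace DIF_

open Pool.Agent.KSP.MV_ (cont_nr ms_ann bd_ind int_Ex)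

/-! ### Numbers and codes -/

lemma ten {a m : ℕ} (h : PA a m) : 10 * a ≤ m := by
  obtain ⟨h1, h2, h3⟩ := h
  have key : ∀ b : ℕ, 20 ≤ b → 20 * b ≤ 2 ^ b := by
    intro b hb
    induction b, hb using Nat.le_induction with
    | base => norm_num
    | succ n hn ih =>
      rw [pow_succ]
      omega
  have := key a h1
  omega

lemma R_pos {m : ℕ} {sg : ℝ} (h1 : sg < 1) (k : ℕ) : 0 < 1 + (k : ℝ) / 4 ^ m - sg := by
  have : (0 : ℝ) ≤ (k : ℝ) / 4 ^ m := by positivity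
  linarith

lemma R_lt {m : ℕ} {sg : ℝ} (h0 : 0 ≤ sg) {k : ℕ} (hk : k < 4 ^ m) :
    1 + (k : ℝ) / 4 ^ m - sg < 2 := by
  have : (k : ℝ) / 4 ^ m < 1 := by
    rw [div_lt_one (by positivity)]
    exact_mod_cast hk
  linarith

lemma kc_lt {m : ℕ} {sg : ℝ} (h0 : 0 ≤ sg) (k : ℝ × ℝ → ℕ) (hk : ∀ x, k x < 4 ^ m) (l : ℕ)
    (x : ℝ × ℝ) : kc m sg k l x < 2 * 4 ^ l := by
  unfold kc
  have h1 := R_lt (sg := sg) h0 (hk x)
  rw [Nat.floor_lt' (by positivity)]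
  push_cast
  have : (0 : ℝ) < 4 ^ l := by positivity
  nlinarith

lemma kc_meas (m : ℕ) (sg : ℝ) {k : ℝ × ℝ → ℕ} (hk : Measurable k) (l : ℕ) :
    Measurable (kc m sg k l) := by
  unfold kc
  refine Nat.measurable_floor.comp ?_
  have : Measurable fun x => ((k x : ℕ) : ℝ) := measurable_from_top.comp hk
  fun_prop

lemma kc_step {m l l' : ℕ} {sg : ℝ} (h1 : sg < 1) (k : ℝ × ℝ → ℕ) (x : ℝ × ℝ) (hl : l ≤ l') :
    sg + (kc m sg k l x : ℝ) / 4 ^ l ≤ sg + (kc m sg k l' x : ℝ) / 4 ^ l' := by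
  have hp := R_pos (m := m) h1 (k x)
  have h2 : (kc m sg k l x : ℝ) ≤ 4 ^ l * (1 + k x / 4 ^ m - sg) :=
    Nat.floor_le (by positivity)
  have e : (4 : ℝ) ^ l' = 4 ^ (l' - l) * 4 ^ l := by
    rw [← pow_add, Nat.sub_add_cancel hl]
  have h3 : kc m sg k l x * 4 ^ (l' - l) ≤ kc m sg k l' x := by
    unfold kc
    refine Nat.le_floor ?_
    push_cast
    rw [e]
    have : (0 : ℝ) < 4 ^ (l' - l) := by positivity
    unfold kc at h2
    nlinarith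
  have h4 : (kc m sg k l x : ℝ) * 4 ^ (l' - l) ≤ kc m sg k l' x := by exact_mod_cast h3
  have h5 : (kc m sg k l x : ℝ) / 4 ^ l ≤ (kc m sg k l' x : ℝ) / 4 ^ l' := by
    rw [div_le_div_iff₀ (by positivity) (by positivity), e]
    have : (0 : ℝ) < 4 ^ l := by positivity
    nlinarith
  linarith

/-- number of the last interval -/
noncomputable def f0 (m : ℕ) (sg : ℝ) : ℕ := ⌊(4 : ℝ) ^ m * (1 - sg)⌋₊

lemma kc_top {m : ℕ} {sg : ℝ} (h1 : sg < 1) (k : ℝ × ℝ → ℕ) (x : ℝ × ℝ) :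
    kc m sg k m x = f0 m sg + k x := by
  unfold kc f0
  have hp : (0 : ℝ) < 4 ^ m := by positivity
  have e : (4 : ℝ) ^ m * (1 + k x / 4 ^ m - sg) = 4 ^ m * (1 - sg) + (k x : ℝ) := by
    field_simp
    ring
  rw [e, Nat.floor_add_natCast (by nlinarith)]

/-- the set between the last node and the radius -/
def Sk (m : ℕ) (sg : ℝ) (i : ℕ) : Set (ℝ × ℝ) :=
  {ξ | sg + ((f0 m sg + i : ℕ) : ℝ) / 4 ^ m ≤ nr ξ ∧ nr ξ < 1 + (i : ℝ) / 4 ^ m}

lemma f0_lo {m : ℕ} {sg : ℝ} (h1 : sg < 1) : sg + (f0 m sg : ℝ) / 4 ^ m ≤ 1 := by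
  have hp : (0 : ℝ) < 4 ^ m := by positivity
  have h2 : (f0 m sg : ℝ) ≤ 4 ^ m * (1 - sg) := Nat.floor_le (by nlinarith)
  have h3 : (f0 m sg : ℝ) / 4 ^ m ≤ 1 - sg := by
    rw [div_le_iff₀ hp]
    linarith
  linarith

lemma f0_hi {m : ℕ} {sg : ℝ} : 1 < sg + ((f0 m sg : ℝ) + 1) / 4 ^ m := by
  have hp : (0 : ℝ) < 4 ^ m := by positivity
  have h2 : (4 : ℝ) ^ m * (1 - sg) < (f0 m sg : ℝ) + 1 := Nat.lt_floor_add_one _
  have h3 : 1 - sg < ((f0 m sg : ℝ) + 1) / 4 ^ m := by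
    rw [lt_div_iff₀ hp]
    linarith
  linarith

lemma Sk_disj (m : ℕ) (sg : ℝ) {i j : ℕ} {ξ : ℝ × ℝ} (hi : ξ ∈ Sk m sg i) (hj : ξ ∈ Sk m sg j) :
    i = j := by
  have hp : (0 : ℝ) < 4 ^ m := by positivity
  have h0 := f0_hi (m := m) (sg := sg)
  have key : ∀ i j : ℕ, ξ ∈ Sk m sg i → ξ ∈ Sk m sg j → i ≤ j := by
    intro i j hi hj
    obtain ⟨h1, -⟩ := hi
    obtain ⟨-, h2⟩ := hj
    by_contra hlt
    have h3 : (j : ℝ) + 1 ≤ i := by
      have : j + 1 ≤ i := by omega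
      exact_mod_cast this
    have h4 : sg + ((f0 m sg + i : ℕ) : ℝ) / 4 ^ m < 1 + (j : ℝ) / 4 ^ m := lt_of_le_of_lt h1 h2
    push_cast at h4
    have h5 : ((f0 m sg : ℝ) + i) / 4 ^ m = ((f0 m sg : ℝ) + 1) / 4 ^ m + ((i : ℝ) - 1) / 4 ^ m := by
      ring
    have h6 : (j : ℝ) / 4 ^ m ≤ ((i : ℝ) - 1) / 4 ^ m := by
      apply div_le_div_of_nonneg_right _ hp.le
      linarith
    linarith
  exact le_antisymm (key i j hi hj) (key j i hj hi)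

lemma Sk_meas (m : ℕ) (sg : ℝ) (i : ℕ) : MeasurableSet (Sk m sg i) :=
  ms_ann _ _

/-! ### Measurability and simple estimates -/

lemma meas_sel {F : ℕ → ℝ × ℝ → ℂ} (hF : ∀ c, Measurable (F c)) {κ : ℝ × ℝ → ℕ}
    (hκ : Measurable κ) : Measurable (fun x => F (κ x) x) := by
  have h : Measurable (fun P : ℕ × (ℝ × ℝ) => F P.1 P.2) :=
    measurable_from_prod_countable_right hF
  exact h.comp (hκ.prodMk measurable_id)

lemma ms_lt (r : ℝ) : MeasurableSet {ξ : ℝ × ℝ | nr ξ < r} :=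
  measurableSet_lt cont_nr.measurable measurable_const

lemma meas_Ex {g : ℝ × ℝ → ℂ} (hg : Bd g) : Measurable (Ex g) := (pPl2 g hg).1.measurable

/-- selection among disjoint pieces -/
lemma disj_sel {h : ℝ × ℝ → ℂ} (hh : Bd h) {S : ℕ → Set (ℝ × ℝ)} (hS : ∀ i, MeasurableSet (S i))
    (hd : ∀ i j ξ, ξ ∈ S i → ξ ∈ S j → i = j) (N : ℕ) (κ : ℝ × ℝ → ℕ) (hκ : ∀ x, κ x < N) :
    ∫⁻ x, ‖Ex ((S (κ x)).indicator h) x‖ₑ ^ 2 ≤ n2 h := by
  have hb : ∀ i, Bd ((S i).indicator h) := fun i => bd_ind hh (hS i)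
  calc ∫⁻ x, ‖Ex ((S (κ x)).indicator h) x‖ₑ ^ 2
      ≤ ∫⁻ x, ∑ i ∈ Finset.range N, ‖Ex ((S i).indicator h) x‖ₑ ^ 2 := by
        refine lintegral_mono fun x => ?_
        exact Finset.single_le_sum (f := fun i => ‖Ex ((S i).indicator h) x‖ₑ ^ 2)
          (fun _ _ => zero_le) (Finset.mem_range.2 (hκ x))
    _ = ∑ i ∈ Finset.range N, n2 ((S i).indicator h) := by
        rw [lintegral_finsetSum _ fun i _ => ((meas_Ex (hb i)).enorm).pow_const 2]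
        exact Finset.sum_congr rfl fun i _ => (pPl2 _ (hb i)).2
    _ = ∫⁻ ξ, ∑ i ∈ Finset.range N, ‖(S i).indicator h ξ‖ₑ ^ 2 := by
        rw [lintegral_finsetSum _ fun i _ => (((hb i).1).enorm).pow_const 2]
        rfl
    _ ≤ n2 h := by
        refine lintegral_mono fun ξ => ?_
        by_cases hex : ∃ i ∈ Finset.range N, ξ ∈ S i
        · obtain ⟨i, hi, hξ⟩ := hex
          have hz : ∀ j ∈ Finset.range N, j ≠ i → ‖(S j).indicator h ξ‖ₑ ^ 2 = 0 := by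
            intro j _ hji
            rw [indicator_of_notMem, enorm_zero, zero_pow two_ne_zero]
            intro hj
            exact hji (hd j i ξ hj hξ)
          rw [Finset.sum_eq_single i hz (fun hi' => absurd hi hi')]
          rw [indicator_of_mem hξ]
        · have hz : ∀ j ∈ Finset.range N, ‖(S j).indicator h ξ‖ₑ ^ 2 = 0 := by
            intro j hj
            rw [indicator_of_notMem, enorm_zero, zero_pow two_ne_zero]
            exact fun hm => hex ⟨j, hj, hm⟩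
          rw [Finset.sum_eq_zero hz]
          exact zero_le

lemma bd_mul {μ h : ℝ × ℝ → ℂ} (hμ : Bd μ) (hh : Measurable h) (hb : ∃ B : ℝ, ∀ ξ, ‖h ξ‖ ≤ B) :
    Bd (fun ξ => μ ξ * h ξ) := by
  obtain ⟨m1, ⟨B1, b1⟩, R, hR⟩ := hμ
  obtain ⟨B2, b2⟩ := hb
  refine ⟨m1.mul hh, ⟨B1 * B2, ?_⟩, R, ?_⟩
  · intro ξ
    rw [norm_mul]
    exact mul_le_mul (b1 ξ) (b2 ξ) (norm_nonneg _) ((norm_nonneg _).trans (b1 ξ))
  · intro ξ h0
    exact hR ξ (left_ne_zero_of_mul h0)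

lemma Ex_add {g h : ℝ × ℝ → ℂ} (hg : Bd g) (hh : Bd h) (x : ℝ × ℝ) :
    Ex (fun ξ => g ξ + h ξ) x = Ex g x + Ex h x := by
  unfold Ex
  rw [← integral_add (int_Ex hg x) (int_Ex hh x)]
  congr 1
  funext ξ
  ring

/-- four terms -/
lemma four (z1 z2 z3 z4 : ℂ) : ‖z1 + z2 + z3 - z4‖ₑ ^ 2 ≤
    4 * (‖z1‖ₑ ^ 2 + ‖z2‖ₑ ^ 2 + ‖z3‖ₑ ^ 2 + ‖z4‖ₑ ^ 2) := by
  have h1 : ‖z1 + z2 + z3 - z4‖ ≤ ‖z1‖ + ‖z2‖ + ‖z3‖ + ‖z4‖ := by
    calc ‖z1 + z2 + z3 - z4‖ ≤ ‖z1 + z2 + z3‖ + ‖z4‖ := norm_sub_le _ _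
      _ ≤ ‖z1 + z2‖ + ‖z3‖ + ‖z4‖ := by gcongr; exact norm_add_le _ _
      _ ≤ ‖z1‖ + ‖z2‖ + ‖z3‖ + ‖z4‖ := by gcongr; exact norm_add_le _ _
  have h2 : ‖z1 + z2 + z3 - z4‖ ^ 2 ≤ 4 * (‖z1‖ ^ 2 + ‖z2‖ ^ 2 + ‖z3‖ ^ 2 + ‖z4‖ ^ 2) := by
    calc ‖z1 + z2 + z3 - z4‖ ^ 2 ≤ (‖z1‖ + ‖z2‖ + ‖z3‖ + ‖z4‖) ^ 2 :=
          pow_le_pow_left₀ (norm_nonneg _) h1 2
      _ ≤ _ := by
          nlinarith [sq_nonneg (‖z1‖ - ‖z2‖), sq_nonneg (‖z1‖ - ‖z3‖), sq_nonneg (‖z1‖ - ‖z4‖),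
            sq_nonneg (‖z2‖ - ‖z3‖), sq_nonneg (‖z2‖ - ‖z4‖), sq_nonneg (‖z3‖ - ‖z4‖)]
  have h3 : ‖z1 + z2 + z3 - z4‖₊ ^ 2 ≤
      4 * (‖z1‖₊ ^ 2 + ‖z2‖₊ ^ 2 + ‖z3‖₊ ^ 2 + ‖z4‖₊ ^ 2) := by
    rw [← NNReal.coe_le_coe]
    push_cast
    exact h2
  simp only [enorm_eq_nnnorm]
  exact_mod_cast h3

lemma cauchy {ι : Type*} (s : Finset ι) (f : ι → ℂ) :
    ‖∑ i ∈ s, f i‖ₑ ^ 2 ≤ (s.card : ℝ≥0∞) * ∑ i ∈ s, ‖f i‖ₑ ^ 2 := by
  have h2 : ‖∑ i ∈ s, f i‖ ^ 2 ≤ (s.card : ℝ) * ∑ i ∈ s, ‖f i‖ ^ 2 := by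
    calc ‖∑ i ∈ s, f i‖ ^ 2 ≤ (∑ i ∈ s, ‖f i‖) ^ 2 :=
          pow_le_pow_left₀ (norm_nonneg _) (norm_sum_le _ _) 2
      _ ≤ _ := sq_sum_le_card_mul_sum_sq
  have h3 : ‖∑ i ∈ s, f i‖₊ ^ 2 ≤ (s.card : ℝ≥0) * ∑ i ∈ s, ‖f i‖₊ ^ 2 := by
    rw [← NNReal.coe_le_coe]
    push_cast
    exact h2
  simp only [enorm_eq_nnnorm]
  exact_mod_cast h3

lemma lint4 {f1 f2 f3 f4 : ℝ × ℝ → ℝ≥0∞} (m1 : Measurable f1) (m2 : Measurable f2)
    (m3 : Measurable f3) : ∫⁻ x, 4 * (f1 x + f2 x + f3 x + f4 x) =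
      4 * ((∫⁻ x, f1 x) + (∫⁻ x, f2 x) + (∫⁻ x, f3 x) + ∫⁻ x, f4 x) := by
  have m12 : Measurable (fun x => f1 x + f2 x) := m1.add m2
  have m123 : Measurable (fun x => f1 x + f2 x + f3 x) := m12.add m3
  rw [lintegral_const_mul' _ _ (by simp), lintegral_add_left m123, lintegral_add_left m12,
    lintegral_add_left m1]

/-! ### The operators -/

lemma TF_add (hM : tMUP) (hT : tTRV) {a m l t : ℕ} {sg sl : ℝ} {k : ℝ × ℝ → ℕ}
    (hP : HP a m l sg sl) (ht1 : 1 ≤ t) (ht3 : t ≤ 3) (hk : Measurable k)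
    (hk4 : ∀ x, k x < 4 ^ m) {H1 H2 : ℝ × ℝ → ℂ} (m1 : Measurable H1)
    (b1 : ∃ B : ℝ, ∀ ξ, ‖H1 ξ‖ ≤ B) (m2 : Measurable H2) (b2 : ∃ B : ℝ, ∀ ξ, ‖H2 ξ‖ ≤ B)
    (x : ℝ × ℝ) : TF a m sg sl k l t (fun ξ => H1 ξ + H2 ξ) x =
      TF a m sg sl k l t H1 x + TF a m sg sl k l t H2 x := by
  unfold TF
  split_ifs with hc
  · have hcc := (hT a m l t sg sl k hP ht1 ht3 hk hk4).1 x hc
    rw [← Finset.sum_add_distrib]
    refine Finset.sum_congr rfl fun p hp => ?_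
    have hb := (hM a m l _ p sg sl hP hcc hp).1
    rw [← Ex_add (bd_mul hb m1 b1) (bd_mul hb m2 b2)]
    congr 1
    funext ξ
    ring
  · rw [add_zero]

lemma AF_add (hM : tMUP) (hT : tTRV) {a m : ℕ} {sg sl : ℝ} {k : ℝ × ℝ → ℕ}
    (hPA : PA a m) (h0 : 0 ≤ sg) (h1 : sg < 1) (h2 : 1 ≤ sl) (h3 : sl < 2) (hk : Measurable k)
    (hk4 : ∀ x, k x < 4 ^ m) {H1 H2 : ℝ × ℝ → ℂ} (m1 : Measurable H1)
    (b1 : ∃ B : ℝ, ∀ ξ, ‖H1 ξ‖ ≤ B) (m2 : Measurable H2) (b2 : ∃ B : ℝ, ∀ ξ, ‖H2 ξ‖ ≤ B)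
    (x : ℝ × ℝ) : AF a m sg sl k (fun ξ => H1 ξ + H2 ξ) x =
      AF a m sg sl k H1 x + AF a m sg sl k H2 x := by
  unfold AF
  rw [← Finset.sum_add_distrib]
  refine Finset.sum_congr rfl fun l hl => ?_
  rw [← Finset.sum_add_distrib]
  refine Finset.sum_congr rfl fun t ht => ?_
  have hl' := Finset.mem_Ioc.1 hl
  have ht' := Finset.mem_Icc.1 ht
  exact TF_add hM hT ⟨hPA, hl'.1, hl'.2, h0, h1, h2, h3⟩ ht'.1 ht'.2 hk hk4 m1 b1 m2 b2 x

lemma AF_meas (hT : tTRV) {a m : ℕ} {sg sl : ℝ} {k : ℝ × ℝ → ℕ}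
    (hPA : PA a m) (h0 : 0 ≤ sg) (h1 : sg < 1) (h2 : 1 ≤ sl) (h3 : sl < 2) (hk : Measurable k)
    (hk4 : ∀ x, k x < 4 ^ m) {H : ℝ × ℝ → ℂ} (mH : Measurable H)
    (bH : ∃ B : ℝ, ∀ ξ, ‖H ξ‖ ≤ B) : Measurable (AF a m sg sl k H) := by
  unfold AF
  refine Finset.measurable_fun_sum _ fun l hl => Finset.measurable_fun_sum _ fun t ht => ?_
  have hl' := Finset.mem_Ioc.1 hl
  have ht' := Finset.mem_Icc.1 ht
  exact ((hT a m l t sg sl k ⟨hPA, hl'.1, hl'.2, h0, h1, h2, h3⟩ ht'.1 ht'.2 hk hk4).2.1 H mH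
    bH).1

lemma AF_bound (hT : tTRV) {a m : ℕ} {sg sl : ℝ} {k : ℝ × ℝ → ℕ}
    (hPA : PA a m) (h0 : 0 ≤ sg) (h1 : sg < 1) (h2 : 1 ≤ sl) (h3 : sl < 2) (hk : Measurable k)
    (hk4 : ∀ x, k x < 4 ^ m) {H : ℝ × ℝ → ℂ} (mH : Measurable H)
    (bH : ∃ B : ℝ, ∀ ξ, ‖H ξ‖ ≤ B) :
    ∫⁻ x, ‖AF a m sg sl k H x‖ₑ ^ 2 ≤ 9 * (m : ℝ≥0∞) ^ 2 * ∫⁻ ξ in {ξ | chi m ξ ≠ 0}, ‖H ξ‖ₑ ^ 2 := by
  set S : Finset (ℕ × ℕ) := Finset.Ioc (10 * a) m ×ˢ Finset.Icc 1 3 with hS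
  have hcard : (S.card : ℝ≥0∞) ≤ 3 * m := by
    have : S.card ≤ 3 * m := by
      rw [hS, Finset.card_product, Nat.card_Ioc, Nat.card_Icc]
      omega
    exact_mod_cast this
  have hTP : ∀ P ∈ S, Measurable (TF a m sg sl k P.1 P.2 H) ∧
      ∫⁻ x, ‖TF a m sg sl k P.1 P.2 H x‖ₑ ^ 2 ≤ ∫⁻ ξ in {ξ | chi m ξ ≠ 0}, ‖H ξ‖ₑ ^ 2 := by
    intro P hP
    have hP' := Finset.mem_product.1 hP
    have hl' := Finset.mem_Ioc.1 hP'.1
    have ht' := Finset.mem_Icc.1 hP'.2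
    exact (hT a m P.1 P.2 sg sl k ⟨hPA, hl'.1, hl'.2, h0, h1, h2, h3⟩ ht'.1 ht'.2 hk hk4).2.1 H mH bH
  calc ∫⁻ x, ‖AF a m sg sl k H x‖ₑ ^ 2
      ≤ ∫⁻ x, (S.card : ℝ≥0∞) * ∑ P ∈ S, ‖TF a m sg sl k P.1 P.2 H x‖ₑ ^ 2 := by
        refine lintegral_mono fun x => ?_
        have e : AF a m sg sl k H x = ∑ P ∈ S, TF a m sg sl k P.1 P.2 H x := by
          rw [hS, Finset.sum_product]
          rfl
        show ‖AF a m sg sl k H x‖ₑ ^ 2 ≤ _
        rw [e]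
        exact cauchy S _
    _ = (S.card : ℝ≥0∞) * ∑ P ∈ S, ∫⁻ x, ‖TF a m sg sl k P.1 P.2 H x‖ₑ ^ 2 := by
        rw [lintegral_const_mul' _ _ (by simp),
          lintegral_finsetSum _ fun P hP => ((hTP P hP).1.enorm).pow_const 2]
    _ ≤ (S.card : ℝ≥0∞) * ∑ P ∈ S, ∫⁻ ξ in {ξ | chi m ξ ≠ 0}, ‖H ξ‖ₑ ^ 2 := by
        exact mul_le_mul' le_rfl (Finset.sum_le_sum fun P hP => (hTP P hP).2)
    _ = (S.card : ℝ≥0∞) * ((S.card : ℝ≥0∞) * ∫⁻ ξ in {ξ | chi m ξ ≠ 0}, ‖H ξ‖ₑ ^ 2) := by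
        rw [Finset.sum_const, nsmul_eq_mul]
    _ ≤ (3 * m : ℝ≥0∞) * ((3 * m : ℝ≥0∞) * ∫⁻ ξ in {ξ | chi m ξ ≠ 0}, ‖H ξ‖ₑ ^ 2) := by
        gcongr
    _ = _ := by ring

end DIF_

open DIF_ in
open Pool.Agent.KSP.MV_ (cont_nr ms_ann bd_ind int_Ex) in
/-- F5 -/
theorem pDIF (hCHI : tCHI) (hMUP : tMUP) (hTRV : tTRV) (hTEL : tTEL)
    (hRMG : Pool.Agent.LLog.tRMG) : tDIF := by
  obtain ⟨C, hC⟩ := hRMG
  refine ⟨1764 * C + 40, ?_⟩
  intro a m sg sl k H G hPA h0 h1 h2 h3 hk hk4 mH bH mG hcore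
  obtain ⟨cm, c01, c1, csup, cbd, -, -⟩ := hCHI a m hPA
  have ha20 : 20 ≤ a := hPA.1
  have h10 : 10 * a ≤ m := ten hPA
  have hm1 : 1 ≤ m := by omega
  set h : ℝ × ℝ → ℂ := fun ξ => (chi m ξ : ℂ) * H ξ with hh
  have bh : Bd h := bd_mul cbd mH bH
  set HG : ℝ × ℝ → ℂ := G.indicator H with hHG
  set HC : ℝ × ℝ → ℂ := Gᶜ.indicator H with hHC
  have mHG : Measurable HG := mH.indicator mG
  have mHC : Measurable HC := mH.indicator mG.compl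
  have bind : ∀ S : Set (ℝ × ℝ), ∃ B : ℝ, ∀ ξ, ‖S.indicator H ξ‖ ≤ B := by
    intro S
    obtain ⟨B, hB⟩ := bH
    refine ⟨B, fun ξ => ?_⟩
    exact (norm_indicator_le_norm_self H ξ).trans (hB ξ)
  have bHG := bind G
  have bHC := bind Gᶜ
  have eG : G.indicator h = fun ξ => (chi m ξ : ℂ) * HG ξ := by
    funext ξ
    by_cases hx : ξ ∈ G
    · rw [hHG, indicator_of_mem hx, indicator_of_mem hx]
    · rw [hHG, indicator_of_notMem hx, indicator_of_notMem hx, mul_zero]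
  have eC : Gᶜ.indicator h = fun ξ => (chi m ξ : ℂ) * HC ξ := by
    funext ξ
    by_cases hx : ξ ∈ Gᶜ
    · rw [hHC, indicator_of_mem hx, indicator_of_mem hx]
    · rw [hHC, indicator_of_notMem hx, indicator_of_notMem hx, mul_zero]
  have bG : Bd (G.indicator h) := bd_ind bh mG
  have bC : Bd (Gᶜ.indicator h) := bd_ind bh mG.compl
  have eH : H = fun ξ => HG ξ + HC ξ := by
    funext ξ
    rw [hHG, hHC]
    exact (congrFun (indicator_self_add_compl G H) ξ).symm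
  have hAF : ∀ x, AF a m sg sl k H x = AF a m sg sl k HG x + AF a m sg sl k HC x := by
    intro x
    conv_lhs => rw [eH]
    exact AF_add hMUP hTRV hPA h0 h1 h2 h3 hk hk4 mHG bHG mHC bHC x
  have hAFm : Measurable (AF a m sg sl k H) := AF_meas hTRV hPA h0 h1 h2 h3 hk hk4 mH bH
  refine ⟨hAFm, ?_⟩
  -- the decomposition
  have hsup : ∀ ξ, h ξ ≠ 0 → 1 ≤ nr ξ := by
    intro ξ hξ
    have hc : chi m ξ ≠ 0 := by
      intro h0'
      apply hξ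
      rw [hh]
      simp [h0']
    obtain ⟨hx, -, -⟩ := csup ξ hc
    have h1' : ξ.1 ≤ nr ξ := by
      unfold Pool.Agent.KSP.nr
      apply Real.le_sqrt_of_sq_le
      nlinarith [sq_nonneg ξ.2]
    linarith
  set κ : ℝ × ℝ → ℕ := kc m sg k (10 * a) with hκ
  have mκ : Measurable κ := kc_meas m sg hk (10 * a)
  set R1 : ℕ → ℝ := fun c => sg + (c : ℝ) / 4 ^ (10 * a) with hR1
  set R3 : ℕ → ℝ := fun c => 1 + (c : ℝ) / 4 ^ m with hR3
  have hTE : ∀ x, AF a m sg sl k HG x = Ex ({ξ | sg + kc m sg k (10 * a) x / 4 ^ (10 * a) ≤ nr ξ ∧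
      nr ξ < sg + kc m sg k m x / 4 ^ m}.indicator (G.indicator h)) x := by
    intro x
    rw [hTEL a m sg sl k HG hPA h0 h1 h2 h3 hk4 mHG bHG (by rw [← eG]; exact hcore) x, eG]
  have hdec : ∀ x, Ex ((ann 1 (1 + k x / 4 ^ m)).indicator h) x - AF a m sg sl k H x =
      Ex ({ξ | nr ξ < R1 (κ x)}.indicator (G.indicator h)) x +
      Ex ((Sk m sg (k x)).indicator (G.indicator h)) x +
      Ex ({ξ | nr ξ < R3 (k x)}.indicator (Gᶜ.indicator h)) x - AF a m sg sl k HC x := by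
    intro x
    have e1 : Ex ((ann 1 (1 + k x / 4 ^ m)).indicator h) x =
        Ex ({ξ | nr ξ < R1 (κ x)}.indicator (G.indicator h)) x +
        Ex ({ξ | sg + kc m sg k (10 * a) x / 4 ^ (10 * a) ≤ nr ξ ∧
          nr ξ < sg + kc m sg k m x / 4 ^ m}.indicator (G.indicator h)) x +
        Ex ((Sk m sg (k x)).indicator (G.indicator h)) x +
        Ex ({ξ | nr ξ < R3 (k x)}.indicator (Gᶜ.indicator h)) x := by
      have ms2 : MeasurableSet {ξ : ℝ × ℝ | sg + kc m sg k (10 * a) x / 4 ^ (10 * a) ≤ nr ξ ∧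
          nr ξ < sg + kc m sg k m x / 4 ^ m} := ms_ann _ _
      have b1 := bd_ind bG (ms_lt (R1 (κ x)))
      have b2 := bd_ind bG ms2
      have b3 := bd_ind bG (Sk_meas m sg (k x))
      have b4 := bd_ind bC (ms_lt (R3 (k x)))
      have badd : ∀ {u v : ℝ × ℝ → ℂ}, Bd u → Bd v → Bd (fun ξ => u ξ + v ξ) := by
        intro u v hu hv
        obtain ⟨mu', ⟨Bu, hBu⟩, Ru, hRu⟩ := hu
        obtain ⟨mv', ⟨Bv, hBv⟩, Rv, hRv⟩ := hv
        refine ⟨mu'.add mv', ⟨Bu + Bv, fun ξ => (norm_add_le _ _).trans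
          (add_le_add (hBu ξ) (hBv ξ))⟩, max Ru Rv, fun ξ hξ => ?_⟩
        by_cases hu0 : u ξ = 0
        · have hv0 : v ξ ≠ 0 := by
            intro hv0
            apply hξ
            simp [hu0, hv0]
          exact ⟨((hRv ξ hv0).1).trans (le_max_right _ _), ((hRv ξ hv0).2).trans (le_max_right _ _)⟩
        · exact ⟨((hRu ξ hu0).1).trans (le_max_left _ _), ((hRu ξ hu0).2).trans (le_max_left _ _)⟩
      rw [← Ex_add b1 b2, ← Ex_add (badd b1 b2) b3, ← Ex_add (badd (badd b1 b2) b3) b4]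
      congr 1
      funext ξ
      have hs1 : R1 (κ x) ≤ sg + kc m sg k m x / 4 ^ m := kc_step h1 k x h10
      have hs2 : sg + (kc m sg k m x : ℝ) / 4 ^ m = sg + ((f0 m sg + k x : ℕ) : ℝ) / 4 ^ m := by
        rw [kc_top h1]
      have hs3 : sg + ((f0 m sg + k x : ℕ) : ℝ) / 4 ^ m ≤ R3 (k x) := by
        have := f0_lo (m := m) h1
        rw [hR3]
        push_cast
        rw [add_div]
        linarith
      by_cases hz : h ξ = 0
      · have hzz : ∀ S T : Set (ℝ × ℝ), S.indicator (T.indicator h) ξ = 0 := by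
          intro S T
          by_cases hS : ξ ∈ S
          · rw [indicator_of_mem hS]
            by_cases hT : ξ ∈ T
            · rw [indicator_of_mem hT, hz]
            · rw [indicator_of_notMem hT]
          · rw [indicator_of_notMem hS]
        have hzz1 : ∀ S : Set (ℝ × ℝ), S.indicator h ξ = 0 := by
          intro S
          by_cases hS : ξ ∈ S
          · rw [indicator_of_mem hS, hz]
          · rw [indicator_of_notMem hS]
        simp only [hzz, hzz1, add_zero]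
      · have hn := hsup ξ hz
        by_cases hG : ξ ∈ G
        · have hGc : ξ ∉ Gᶜ := fun hc => hc hG
          have q1 : Gᶜ.indicator h ξ = 0 := indicator_of_notMem hGc _
          have q2 : G.indicator h ξ = h ξ := indicator_of_mem hG _
          have q3 : {ξ | nr ξ < R3 (k x)}.indicator (Gᶜ.indicator h) ξ = 0 := by
            by_cases hS : ξ ∈ {ξ | nr ξ < R3 (k x)}
            · rw [indicator_of_mem hS, q1]
            · rw [indicator_of_notMem hS]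
          rw [q3, add_zero]
          by_cases c1 : nr ξ < R1 (κ x)
          · have p1 : ξ ∈ {ξ | nr ξ < R1 (κ x)} := c1
            have p2 : ξ ∉ {ξ : ℝ × ℝ | sg + kc m sg k (10 * a) x / 4 ^ (10 * a) ≤ nr ξ ∧
              nr ξ < sg + kc m sg k m x / 4 ^ m} := fun hc => absurd c1 (not_lt.2 hc.1)
            have p3 : ξ ∉ Sk m sg (k x) := by
              intro hc
              have := hc.1
              rw [← hs2] at this
              linarith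
            have p4 : ξ ∈ ann 1 (1 + k x / 4 ^ m) := by
              refine ⟨hn, ?_⟩
              have : R3 (k x) = 1 + (k x : ℝ) / 4 ^ m := rfl
              rw [← this]
              rw [← hs2] at hs3
              linarith
            rw [indicator_of_mem p1, indicator_of_notMem p2, indicator_of_notMem p3,
              indicator_of_mem p4, q2, add_zero, add_zero]
          · have p1 : ξ ∉ {ξ | nr ξ < R1 (κ x)} := c1
            by_cases c2 : nr ξ < sg + kc m sg k m x / 4 ^ m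
            · have p2 : ξ ∈ {ξ : ℝ × ℝ | sg + kc m sg k (10 * a) x / 4 ^ (10 * a) ≤ nr ξ ∧
                nr ξ < sg + kc m sg k m x / 4 ^ m} := ⟨not_lt.1 c1, c2⟩
              have p3 : ξ ∉ Sk m sg (k x) := by
                intro hc
                have := hc.1
                rw [← hs2] at this
                linarith
              have p4 : ξ ∈ ann 1 (1 + k x / 4 ^ m) := by
                refine ⟨hn, ?_⟩
                have : R3 (k x) = 1 + (k x : ℝ) / 4 ^ m := rfl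
                rw [← this]
                rw [← hs2] at hs3
                linarith
              rw [indicator_of_notMem p1, indicator_of_mem p2, indicator_of_notMem p3,
                indicator_of_mem p4, q2, zero_add, add_zero]
            · have p2 : ξ ∉ {ξ : ℝ × ℝ | sg + kc m sg k (10 * a) x / 4 ^ (10 * a) ≤ nr ξ ∧
                nr ξ < sg + kc m sg k m x / 4 ^ m} := fun hc => c2 hc.2
              by_cases c3 : nr ξ < R3 (k x)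
              · have p3 : ξ ∈ Sk m sg (k x) := by
                  refine ⟨?_, c3⟩
                  rw [← hs2]
                  exact not_lt.1 c2
                have p4 : ξ ∈ ann 1 (1 + k x / 4 ^ m) := ⟨hn, c3⟩
                rw [indicator_of_notMem p1, indicator_of_notMem p2, indicator_of_mem p3,
                  indicator_of_mem p4, q2, zero_add, zero_add]
              · have p3 : ξ ∉ Sk m sg (k x) := fun hc => c3 hc.2
                have p4 : ξ ∉ ann 1 (1 + k x / 4 ^ m) := fun hc => c3 hc.2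
                rw [indicator_of_notMem p1, indicator_of_notMem p2, indicator_of_notMem p3,
                  indicator_of_notMem p4, zero_add, zero_add]
        · have hGc : ξ ∈ Gᶜ := hG
          have q1 : Gᶜ.indicator h ξ = h ξ := indicator_of_mem hGc _
          have q2 : G.indicator h ξ = 0 := indicator_of_notMem hG _
          have q3 : ∀ S : Set (ℝ × ℝ), S.indicator (G.indicator h) ξ = 0 := by
            intro S
            by_cases hS : ξ ∈ S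
            · rw [indicator_of_mem hS, q2]
            · rw [indicator_of_notMem hS]
          rw [q3, q3, q3, zero_add, zero_add, zero_add]
          by_cases c3 : nr ξ < R3 (k x)
          · have p3 : ξ ∈ {ξ | nr ξ < R3 (k x)} := c3
            have p4 : ξ ∈ ann 1 (1 + k x / 4 ^ m) := ⟨hn, c3⟩
            rw [indicator_of_mem p3, indicator_of_mem p4, q1]
          · have p3 : ξ ∉ {ξ | nr ξ < R3 (k x)} := c3
            have p4 : ξ ∉ ann 1 (1 + k x / 4 ^ m) := fun hc => c3 hc.2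
            rw [indicator_of_notMem p3, indicator_of_notMem p4]
    rw [e1, hAF, hTE]
    ring
  -- sizes
  set N1 : ℝ≥0∞ := ∫⁻ ξ, ‖H ξ‖ₑ ^ 2 with hN1
  set N2 : ℝ≥0∞ := ∫⁻ ξ in {ξ | chi m ξ ≠ 0} \ G, ‖H ξ‖ₑ ^ 2 with hN2
  have hle : ∀ ξ, ‖h ξ‖ₑ ≤ ‖H ξ‖ₑ := by
    intro ξ
    rw [hh]
    simp only [enorm_mul]
    have : ‖(chi m ξ : ℂ)‖ₑ ≤ 1 := by
      rw [← ofReal_norm, Complex.norm_real, Real.norm_eq_abs, abs_of_nonneg (c01 ξ).1]
      exact ENNReal.ofReal_le_one.2 (c01 ξ).2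
    calc ‖(chi m ξ : ℂ)‖ₑ * ‖H ξ‖ₑ ≤ 1 * ‖H ξ‖ₑ := by gcongr
      _ = ‖H ξ‖ₑ := one_mul _
  have hn1 : n2 (G.indicator h) ≤ N1 := by
    refine lintegral_mono fun ξ => ?_
    have : ‖G.indicator h ξ‖ₑ ≤ ‖H ξ‖ₑ := (enorm_indicator_le_enorm_self h ξ).trans (hle ξ)
    gcongr
  have msc : MeasurableSet {ξ : ℝ × ℝ | chi m ξ ≠ 0} := by
    have : MeasurableSet {ξ : ℝ × ℝ | chi m ξ = 0} := cm (measurableSet_singleton 0)
    exact this.compl
  have hn2 : n2 (Gᶜ.indicator h) ≤ N2 := by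
    rw [hN2, ← lintegral_indicator (msc.diff mG)]
    refine lintegral_mono fun ξ => ?_
    by_cases hG : ξ ∈ G
    · have hGc : ξ ∉ Gᶜ := fun hc => hc hG
      show ‖Gᶜ.indicator h ξ‖ₑ ^ 2 ≤ _
      rw [indicator_of_notMem hGc, enorm_zero, zero_pow two_ne_zero]
      exact zero_le
    · by_cases hc : chi m ξ = 0
      · have : h ξ = 0 := by rw [hh]; simp [hc]
        have h4 : Gᶜ.indicator h ξ = 0 := by
          rw [indicator_of_mem (show ξ ∈ Gᶜ from hG), this]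
        show ‖Gᶜ.indicator h ξ‖ₑ ^ 2 ≤ _
        rw [h4, enorm_zero, zero_pow two_ne_zero]
        exact zero_le
      · have hmem : ξ ∈ {ξ | chi m ξ ≠ 0} \ G := ⟨hc, hG⟩
        rw [indicator_of_mem hmem]
        have : ‖Gᶜ.indicator h ξ‖ₑ ≤ ‖H ξ‖ₑ := (enorm_indicator_le_enorm_self h ξ).trans (hle ξ)
        gcongr
  have hn3 : ∫⁻ ξ in {ξ | chi m ξ ≠ 0}, ‖HC ξ‖ₑ ^ 2 ≤ N2 := by
    have e : ∀ ξ, ‖HC ξ‖ₑ ^ 2 = Gᶜ.indicator (fun ξ => ‖H ξ‖ₑ ^ 2) ξ := by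
      intro ξ
      by_cases hx : ξ ∈ Gᶜ
      · rw [hHC, indicator_of_mem hx, indicator_of_mem hx]
      · rw [hHC, indicator_of_notMem hx, indicator_of_notMem hx, enorm_zero,
          zero_pow two_ne_zero]
    simp only [e]
    rw [setLIntegral_indicator mG.compl, hN2]
    apply le_of_eq
    congr 2
    rw [inter_comm]
    rfl
  -- the four estimates
  have hR1m : Monotone R1 := by
    intro c c' hcc
    rw [hR1]
    have : (c : ℝ) ≤ c' := by exact_mod_cast hcc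
    simp only
    gcongr
  have hR3m : Monotone R3 := by
    intro c c' hcc
    rw [hR3]
    have : (c : ℝ) ≤ c' := by exact_mod_cast hcc
    simp only
    gcongr
  have I1 : ∫⁻ x, ‖Ex ({ξ | nr ξ < R1 (κ x)}.indicator (G.indicator h)) x‖ₑ ^ 2 ≤
      C * ((20 * a + 1 : ℕ) : ℝ≥0∞) ^ 2 * N1 := by
    refine (hC (20 * a + 1) R1 κ (G.indicator h) (by omega) hR1m mκ ?_ bG).trans ?_
    · intro x
      have := kc_lt h0 k hk4 (10 * a) x
      have e : 2 ^ (20 * a + 1) = 2 * 4 ^ (10 * a) := by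
        rw [show 20 * a + 1 = 2 * (10 * a) + 1 by ring, pow_succ, pow_mul]
        norm_num
        ring
      rw [e]
      exact this
    · gcongr
  have I2 : ∫⁻ x, ‖Ex ((Sk m sg (k x)).indicator (G.indicator h)) x‖ₑ ^ 2 ≤ N1 :=
    (disj_sel bG (Sk_meas m sg) (fun i j ξ hi hj => Sk_disj m sg hi hj) (4 ^ m) k hk4).trans hn1
  have I3 : ∫⁻ x, ‖Ex ({ξ | nr ξ < R3 (k x)}.indicator (Gᶜ.indicator h)) x‖ₑ ^ 2 ≤
      C * ((2 * m : ℕ) : ℝ≥0∞) ^ 2 * N2 := by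
    refine (hC (2 * m) R3 k (Gᶜ.indicator h) (by omega) hR3m hk ?_ bC).trans ?_
    · intro x
      have := hk4 x
      rw [pow_mul]
      exact this
    · gcongr
  have I4 : ∫⁻ x, ‖AF a m sg sl k HC x‖ₑ ^ 2 ≤ 9 * (m : ℝ≥0∞) ^ 2 * N2 := by
    refine (AF_bound hTRV hPA h0 h1 h2 h3 hk hk4 mHC bHC).trans ?_
    gcongr
  have M1 : Measurable (fun x => ‖Ex ({ξ | nr ξ < R1 (κ x)}.indicator (G.indicator h)) x‖ₑ ^ 2) := by
    have := meas_sel (F := fun c => Ex ({ξ | nr ξ < R1 c}.indicator (G.indicator h)))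
      (fun c => meas_Ex (bd_ind bG (ms_lt (R1 c)))) mκ
    exact this.enorm.pow_const 2
  have M2 : Measurable (fun x => ‖Ex ((Sk m sg (k x)).indicator (G.indicator h)) x‖ₑ ^ 2) := by
    have := meas_sel (F := fun c => Ex ((Sk m sg c).indicator (G.indicator h)))
      (fun c => meas_Ex (bd_ind bG (Sk_meas m sg c))) hk
    exact this.enorm.pow_const 2
  have M3 : Measurable (fun x => ‖Ex ({ξ | nr ξ < R3 (k x)}.indicator (Gᶜ.indicator h)) x‖ₑ ^ 2) := by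
    have := meas_sel (F := fun c => Ex ({ξ | nr ξ < R3 c}.indicator (Gᶜ.indicator h)))
      (fun c => meas_Ex (bd_ind bC (ms_lt (R3 c)))) hk
    exact this.enorm.pow_const 2
  have ha1 : (1 : ℝ≥0∞) ≤ (a : ℝ≥0∞) ^ 2 := by
    have : 1 ≤ a ^ 2 := Nat.one_le_pow _ _ (by omega)
    exact_mod_cast this
  have ha2 : ((20 * a + 1 : ℕ) : ℝ≥0∞) ^ 2 ≤ 441 * (a : ℝ≥0∞) ^ 2 := by
    have : (20 * a + 1) ^ 2 ≤ 441 * a ^ 2 := by nlinarith
    exact_mod_cast this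
  calc ∫⁻ x, ‖Ex ((ann 1 (1 + k x / 4 ^ m)).indicator h) x - AF a m sg sl k H x‖ₑ ^ 2
      ≤ ∫⁻ x, 4 * (‖Ex ({ξ | nr ξ < R1 (κ x)}.indicator (G.indicator h)) x‖ₑ ^ 2 +
        ‖Ex ((Sk m sg (k x)).indicator (G.indicator h)) x‖ₑ ^ 2 +
        ‖Ex ({ξ | nr ξ < R3 (k x)}.indicator (Gᶜ.indicator h)) x‖ₑ ^ 2 +
        ‖AF a m sg sl k HC x‖ₑ ^ 2) := by
        refine lintegral_mono fun x => ?_
        show ‖Ex ((ann 1 (1 + k x / 4 ^ m)).indicator h) x - AF a m sg sl k H x‖ₑ ^ 2 ≤ _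
        rw [hdec x]
        exact four _ _ _ _
    _ = 4 * ((∫⁻ x, ‖Ex ({ξ | nr ξ < R1 (κ x)}.indicator (G.indicator h)) x‖ₑ ^ 2) +
        (∫⁻ x, ‖Ex ((Sk m sg (k x)).indicator (G.indicator h)) x‖ₑ ^ 2) +
        (∫⁻ x, ‖Ex ({ξ | nr ξ < R3 (k x)}.indicator (Gᶜ.indicator h)) x‖ₑ ^ 2) +
        ∫⁻ x, ‖AF a m sg sl k HC x‖ₑ ^ 2) := by
        exact lint4 M1 M2 M3
    _ ≤ 4 * (C * (441 * (a : ℝ≥0∞) ^ 2) * N1 + (a : ℝ≥0∞) ^ 2 * N1 +
        C * ((2 * m : ℕ) : ℝ≥0∞) ^ 2 * N2 + 9 * (m : ℝ≥0∞) ^ 2 * N2) := by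
        gcongr
        · exact I1.trans (by gcongr)
        · calc ∫⁻ x, ‖Ex ((Sk m sg (k x)).indicator (G.indicator h)) x‖ₑ ^ 2 ≤ N1 := I2
            _ = 1 * N1 := (one_mul _).symm
            _ ≤ (a : ℝ≥0∞) ^ 2 * N1 := by gcongr
    _ ≤ ((1764 * C + 40 : ℝ≥0) : ℝ≥0∞) * (a : ℝ≥0∞) ^ 2 * N1 +
        ((1764 * C + 40 : ℝ≥0) : ℝ≥0∞) * (m : ℝ≥0∞) ^ 2 * N2 := by
        have e1 : 4 * (C * (441 * (a : ℝ≥0∞) ^ 2) * N1 + (a : ℝ≥0∞) ^ 2 * N1 +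
            C * ((2 * m : ℕ) : ℝ≥0∞) ^ 2 * N2 + 9 * (m : ℝ≥0∞) ^ 2 * N2) =
            (1764 * C + 4) * (a : ℝ≥0∞) ^ 2 * N1 + (16 * C + 36) * (m : ℝ≥0∞) ^ 2 * N2 := by
          push_cast
          ring
        rw [e1]
        push_cast
        gcongr
        · norm_num
        · norm_num
        · norm_num
end Pool.Agent.SLog
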