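import Pool.Agent.SLog.Targets

set_option autoImplicit false

/-! MP_ee701d_an: target E, the estimate for bounded functions. -/

namespace Pool.Agent.SLog

open MeasureTheory Set
open scoped ENNReal NNReal ComplexConjugate
open Pool.Agent.KSP (ee dot nr Ex Ex1 Bd Bd1 n1 n2 lg V0 ann sq)
open Pool.Agent.LLog (PA cd cdr cp fr tp Nn nv tv Core bx sa sd Qx kc psi kap GK psR psA anf mu Bf hat)

namespace E_

lemma nb_open (a l : ℕ) (Y : Set (ℝ × ℝ)) : IsOpen (nb a l Y) := by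
  have : nb a l Y = ⋃ y ∈ Y, {x : ℝ × ℝ | |y.1 - x.1| < 2 ^ (l + 15 * a) ∧
      |y.2 - x.2| < 2 ^ (l + 15 * a)} := by
    ext x
    simp only [nb, mem_ofPred_eq, mem_iUnion, exists_prop]
  rw [this]
  refine isOpen_biUnion fun y _ => ?_
  have h1 : Continuous fun x : ℝ × ℝ => |y.1 - x.1| := by fun_prop
  have h2 : Continuous fun x : ℝ × ℝ => |y.2 - x.2| := by fun_prop
  exact (isOpen_lt h1 continuous_const).inter (isOpen_lt h2 continuous_const)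

lemma bx_open (t : ℝ) (x : ℝ × ℝ) (A B : ℝ) : IsOpen (bx t x A B) := by
  have h1 : Continuous fun y : ℝ × ℝ => |dot (y - x) (nv t)| := by unfold dot; fun_prop
  have h2 : Continuous fun y : ℝ × ℝ => |dot (y - x) (tv t)| := by unfold dot; fun_prop
  exact (isOpen_lt h1 continuous_const).inter (isOpen_lt h2 continuous_const)

lemma Nn_pos (t : ℝ) : 0 < Nn t := by
  unfold Nn; positivity

lemma one_le_Nn (t : ℝ) : 1 ≤ Nn t := by
  unfold Nn
  rw [Real.one_le_sqrt]; nlinarith [sq_nonneg t]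

lemma abs_le_Nn (t : ℝ) : |t| ≤ Nn t := by
  unfold Nn
  apply Real.abs_le_sqrt; linarith

lemma nv1 (t : ℝ) : |(nv t).1| ≤ 1 := by
  unfold nv
  rw [abs_div, abs_one, abs_of_pos (Nn_pos t), div_le_one (Nn_pos t)]
  exact one_le_Nn t

lemma nv2 (t : ℝ) : |(nv t).2| ≤ 1 := by
  unfold nv
  rw [abs_div, abs_of_pos (Nn_pos t), div_le_one (Nn_pos t)]
  exact abs_le_Nn t

lemma tv1 (t : ℝ) : |(tv t).1| ≤ 1 := by
  unfold tv
  rw [abs_div, abs_neg, abs_of_pos (Nn_pos t), div_le_one (Nn_pos t)]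
  exact abs_le_Nn t

lemma tv2 (t : ℝ) : |(tv t).2| ≤ 1 := by
  unfold tv
  rw [abs_div, abs_one, abs_of_pos (Nn_pos t), div_le_one (Nn_pos t)]
  exact one_le_Nn t

lemma dot_le {z v : ℝ × ℝ} {r : ℝ} (h1 : |z.1| ≤ r) (h2 : |z.2| ≤ r) (v1 : |v.1| ≤ 1)
    (v2 : |v.2| ≤ 1) : |dot z v| ≤ 2 * r := by
  unfold dot
  have e1 : |z.1 * v.1| ≤ r := by
    rw [abs_mul]
    calc |z.1| * |v.1| ≤ |z.1| * 1 := by gcongr
      _ ≤ r := by linarith
  have e2 : |z.2 * v.2| ≤ r := by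
    rw [abs_mul]
    calc |z.2| * |v.2| ≤ |z.2| * 1 := by gcongr
      _ ≤ r := by linarith
  calc |z.1 * v.1 + z.2 * v.2| ≤ |z.1 * v.1| + |z.2 * v.2| := abs_add_le _ _
    _ ≤ 2 * r := by linarith

/-- the box around `x` contains a good part of the neighbourhood of `Y` -/
lemma geo (hF : LLog.tFRM) (a l : ℕ) (t L δ A B : ℝ) (Y : Set (ℝ × ℝ)) (x : ℝ × ℝ)
    (hL : 0 < L) (hA : L < A) (hB : δ ≤ B) (hδr : δ ≤ 2 ^ (l + 15 * a)) :
    ENNReal.ofReal (2 * δ) * (ENNReal.ofReal (2 * L) * sa t L Y x) ≤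
      ∫⁻ y in bx t x A B, (nb a l Y).indicator 1 y := by
  obtain ⟨-, -, hcoord, hint, -⟩ := hF t
  set D : Set (ℝ × ℝ) := bx t x A B ∩ nb a l Y with hD
  have hDm : MeasurableSet D :=
    (bx_open t x A B).measurableSet.inter (nb_open a l Y).measurableSet
  have e1 : ENNReal.ofReal (2 * L) * sa t L Y x =
      ∫⁻ s in Icc (-L) L, Y.indicator 1 (x + s • nv t) := by
    unfold sa
    rw [← mul_assoc, ENNReal.mul_inv_cancel, one_mul]
    · simpa using hL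
    · exact ENNReal.ofReal_ne_top
  have e2 : ∫⁻ y in bx t x A B, (nb a l Y).indicator (1 : ℝ × ℝ → ℝ≥0∞) y =
      ∫⁻ z, D.indicator (1 : ℝ × ℝ → ℝ≥0∞) (x + z) := by
    rw [lintegral_add_left_eq_self (fun z => D.indicator (1 : ℝ × ℝ → ℝ≥0∞) z) x,
      ← lintegral_indicator (bx_open t x A B).measurableSet]
    congr 1
    funext z
    rw [hD, Set.inter_indicator_one]
    by_cases hz : z ∈ bx t x A B
    · simp [hz]
    · simp [hz]
  rw [e1, e2, hint (fun z => D.indicator (1 : ℝ × ℝ → ℝ≥0∞) (x + z))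
    ((measurable_one.indicator hDm).comp (measurable_const_add x))]
  calc ENNReal.ofReal (2 * δ) * ∫⁻ s in Icc (-L) L, Y.indicator 1 (x + s • nv t)
      = ∫⁻ u in Ioo (-δ) δ, ∫⁻ s in Icc (-L) L, Y.indicator 1 (x + s • nv t) := by
        rw [lintegral_const, Measure.restrict_apply_univ, Real.volume_Ioo, mul_comm]
        congr 2; ring
    _ ≤ ∫⁻ u in Ioo (-δ) δ, ∫⁻ s, D.indicator 1 (x + (s • nv t + u • tv t)) := by
        apply setLIntegral_mono' measurableSet_Ioo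
        intro u hu
        refine le_trans ?_ (setLIntegral_le_lintegral (Icc (-L) L) _)
        apply setLIntegral_mono' measurableSet_Icc
        intro s hs
        by_cases hY : x + s • nv t ∈ Y
        · have hmem : x + (s • nv t + u • tv t) ∈ D := by
            constructor
            · have h3 := hcoord s u
              simp only [bx, mem_ofPred_eq, add_sub_cancel_left, h3.1, h3.2]
              constructor
              · rw [abs_lt]; constructor <;> [linarith [hs.1]; linarith [hs.2]]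
              · exact (abs_lt.2 hu).trans_le hB
            · refine ⟨_, hY, ?_, ?_⟩
              · have : (x + s • nv t).1 - (x + (s • nv t + u • tv t)).1 = -(u * (tv t).1) := by
                  simp
                rw [this, abs_neg, abs_mul]
                calc |u| * |(tv t).1| ≤ |u| * 1 := by gcongr; exact tv1 t
                  _ < δ := by rw [mul_one]; exact abs_lt.2 hu
                  _ ≤ _ := hδr
              · have : (x + s • nv t).2 - (x + (s • nv t + u • tv t)).2 = -(u * (tv t).2) := by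
                  simp
                rw [this, abs_neg, abs_mul]
                calc |u| * |(tv t).2| ≤ |u| * 1 := by gcongr; exact tv2 t
                  _ < δ := by rw [mul_one]; exact abs_lt.2 hu
                  _ ≤ _ := hδr
          rw [indicator_of_mem hmem, indicator_of_mem hY]
          simp
        · rw [indicator_of_notMem hY]; exact zero_le
    _ ≤ ∫⁻ u, ∫⁻ s, D.indicator 1 (x + (s • nv t + u • tv t)) := setLIntegral_le_lintegral _ _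

lemma sa_meas (t L : ℝ) (Y : Set (ℝ × ℝ)) (hY : MeasurableSet Y) : Measurable (sa t L Y) := by
  unfold sa
  apply Measurable.const_mul
  have h1 : Measurable (Function.uncurry fun (x : ℝ × ℝ) (s : ℝ) =>
      Y.indicator (1 : ℝ × ℝ → ℝ≥0∞) (x + s • nv t)) := by
    apply (measurable_one.indicator hY).comp
    fun_prop
  exact h1.lintegral_prod_right'

lemma sa_le_one (t L : ℝ) (Y : Set (ℝ × ℝ)) (x : ℝ × ℝ) : sa t L Y x ≤ 1 := by
  unfold sa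
  have h1 : ∫⁻ s in Icc (-L) L, Y.indicator (1 : ℝ × ℝ → ℝ≥0∞) (x + s • nv t) ≤
      ENNReal.ofReal (2 * L) := by
    calc ∫⁻ s in Icc (-L) L, Y.indicator (1 : ℝ × ℝ → ℝ≥0∞) (x + s • nv t)
        ≤ ∫⁻ s in Icc (-L) L, 1 := by
          apply lintegral_mono
          intro s
          exact indicator_le_self' (fun _ _ => zero_le) _
      _ = ENNReal.ofReal (2 * L) := by
          rw [setLIntegral_one, Real.volume_Icc]; congr 1; ring
  calc (ENNReal.ofReal (2 * L))⁻¹ * ∫⁻ s in Icc (-L) L, Y.indicator 1 (x + s • nv t)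
      ≤ (ENNReal.ofReal (2 * L))⁻¹ * ENNReal.ofReal (2 * L) := by gcongr
    _ ≤ 1 := ENNReal.inv_mul_le_one _

lemma two_pow (n : ℕ) : (2 : ℝ≥0∞) ^ n = ENNReal.ofReal (2 ^ n) := by
  rw [ENNReal.ofReal_pow (by norm_num)]; simp

lemma PhiW (hF : LLog.tFRM) (a l p : ℕ) (sl : ℝ) (Y : Set (ℝ × ℝ)) (hl : 10 * a < l)
    (hsl : 1 ≤ sl) (hsl2 : sl < 2) (hp : p ∈ PP a l) (x y : ℝ × ℝ)
    (h1 : |x.1 - y.1| ≤ 3 * 2 ^ (l + 16 * a)) (h2 : |x.2 - y.2| ≤ 3 * 2 ^ (l + 16 * a)) :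
    sa (tp sl (l + 8 * a) p) (4 ^ l * 2 ^ (6 * a)) Y x ≤
      32 * 2 ^ (2 * a) * KM (4 * (4 ^ l * 2 ^ (6 * a))) (8 * 2 ^ (l + 16 * a)) (nb a l Y) y := by
  set t := tp sl (l + 8 * a) p with ht
  set L : ℝ := 4 ^ l * 2 ^ (6 * a) with hL
  set s : ℝ := 2 ^ (l + 16 * a) with hs
  set δ : ℝ := 2 ^ (l + 14 * a) with hδ
  have hLpos : 0 < L := by positivity
  have hspos : 0 < s := by positivity
  have hδpos : 0 < δ := by positivity
  have hδs : 2 ^ (2 * a) * δ = s := by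
    rw [hδ, hs, ← pow_add]; congr 1; ring
  have h8 : 8 * s ≤ 4 * L := by
    have e1 : 8 * s = 2 ^ (l + 16 * a + 3) := by rw [hs, pow_add _ _ 3]; ring
    have e2 : 4 * L = 2 ^ (2 * l + 6 * a + 2) := by
      rw [hL, show (4 : ℝ) ^ l = 2 ^ (2 * l) by rw [pow_mul]; norm_num, pow_add, pow_add]; ring
    rw [e1, e2]
    exact pow_le_pow_right₀ (by norm_num) (by omega)
  have ht2 : t ∈ Icc (-2 : ℝ) 2 := by
    have hp' : p < 3 * 2 ^ (l + 8 * a) := Finset.mem_range.1 hp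
    have hpr : (p : ℝ) < 3 * 2 ^ (l + 8 * a) := by exact_mod_cast hp'
    have h3 : (p : ℝ) / 2 ^ (l + 8 * a) < 3 := by
      rw [div_lt_iff₀ (by positivity)]; exact hpr
    have h4 : 0 ≤ (p : ℝ) / 2 ^ (l + 8 * a) := by positivity
    rw [ht, tp]
    constructor <;> linarith
  have hy : y ∈ bx t x (4 * L) (8 * s) := by
    have e1 : |(y - x).1| ≤ 3 * s := by rw [Prod.fst_sub, abs_sub_comm]; exact h1
    have e2 : |(y - x).2| ≤ 3 * s := by rw [Prod.snd_sub, abs_sub_comm]; exact h2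
    constructor
    · have := dot_le e1 e2 (nv1 t) (nv2 t)
      linarith
    · have := dot_le e1 e2 (tv1 t) (tv2 t)
      linarith
  have hKM : av t (4 * L) (8 * s) ((nb a l Y).indicator 1) x ≤
      KM (4 * L) (8 * s) (nb a l Y) y := by
    unfold KM
    exact le_iSup_of_le t (le_iSup_of_le ht2 (le_iSup_of_le x (le_iSup_of_le hy le_rfl)))
  have hg := geo hF a l t L δ (4 * L) (8 * s) Y x hLpos (by linarith)
    (by
      have : δ ≤ s := by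
        rw [← hδs]
        have : (1 : ℝ) ≤ 2 ^ (2 * a) := one_le_pow₀ (by norm_num)
        nlinarith
      linarith)
    (by rw [hδ]; exact pow_le_pow_right₀ (by norm_num) (by omega))
  have hK : ENNReal.ofReal (4 * (4 * L) * (8 * s)) =
      32 * 2 ^ (2 * a) * (ENNReal.ofReal (2 * δ) * ENNReal.ofReal (2 * L)) := by
    rw [two_pow, show (32 : ℝ≥0∞) = ENNReal.ofReal 32 by simp, ← ENNReal.ofReal_mul (by norm_num),
      ← ENNReal.ofReal_mul (by positivity), ← ENNReal.ofReal_mul (by positivity)]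
    congr 1
    rw [← hδs]; ring
  have hK0 : ENNReal.ofReal (4 * (4 * L) * (8 * s)) ≠ 0 := by
    simp only [ne_eq, ENNReal.ofReal_eq_zero, not_le]; positivity
  calc sa t L Y x = (ENNReal.ofReal (4 * (4 * L) * (8 * s)))⁻¹ *
        ENNReal.ofReal (4 * (4 * L) * (8 * s)) * sa t L Y x := by
        rw [ENNReal.inv_mul_cancel hK0 ENNReal.ofReal_ne_top, one_mul]
    _ = 32 * 2 ^ (2 * a) * ((ENNReal.ofReal (4 * (4 * L) * (8 * s)))⁻¹ *
        (ENNReal.ofReal (2 * δ) * (ENNReal.ofReal (2 * L) * sa t L Y x))) := by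
        nth_rewrite 2 [hK]; ring
    _ ≤ 32 * 2 ^ (2 * a) * av t (4 * L) (8 * s) ((nb a l Y).indicator 1) x := by
        unfold av; gcongr
    _ ≤ _ := by gcongr

lemma subset_nb (a l : ℕ) (Y : Set (ℝ × ℝ)) : Y ⊆ nb a l Y := by
  intro x hx
  refine ⟨x, hx, ?_, ?_⟩ <;> rw [sub_self, abs_zero] <;> positivity

lemma nb_iUnion (a l : ℕ) (T : Finset ℕ) (Y : ℕ → Set (ℝ × ℝ)) :
    nb a l (⋃ c ∈ T, Y c) ⊆ ⋃ c ∈ T, nb a l (Y c) := by
  rintro x ⟨y, hy, h1, h2⟩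
  simp only [mem_iUnion, exists_prop] at hy ⊢
  obtain ⟨c, hc, hyc⟩ := hy
  exact ⟨c, hc, y, hyc, h1, h2⟩

lemma sqrt_sq (x : ℝ≥0∞) : (x ^ 2) ^ (1 / 2 : ℝ) = x := by
  rw [← ENNReal.rpow_natCast, ← ENNReal.rpow_mul]; norm_num

/-- the constants -/
lemma consts {a m l : ℕ} (ha : 20 ≤ a) (hm : m < 2 ^ a) (hal : 10 * a < l) (hlm : l ≤ m) :
    ENNReal.ofReal (1 / 2 ^ (10 * a)) ≤ ENNReal.ofReal (1 / 2 ^ (9 * a)) ∧
    2 * (2 * 4 ^ (3 * a) * (2 ^ (13 * a) * (18 * (32 * 2 ^ (2 * a) *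
      ENNReal.ofReal (1 / 2 ^ (30 * a)))))) ≤ 2304 * ENNReal.ofReal (1 / 2 ^ (9 * a)) ∧
    2 * (2 * 4 ^ (3 * a) * (2 ^ (13 * a) * ENNReal.ofReal (1 / 2 ^ (20 * m)))) ≤
      ENNReal.ofReal (1 / 2 ^ (9 * a)) ∧
    2 * (2 * 4 ^ (3 * a) * (3 * 2 ^ (l + 8 * a) * ENNReal.ofReal (1 / 2 ^ (30 * m)))) ≤
      ENNReal.ofReal (1 / 2 ^ (9 * a)) ∧
    ENNReal.ofReal (1 / 2 ^ (38 * m)) ≤ ENNReal.ofReal (1 / 2 ^ (9 * a)) ∧
    2 * (2 * 4 ^ (3 * a) * (2 ^ (13 * a) * (18 * (32 * 2 ^ (2 * a) *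
      (((30 * a : ℕ) : ℝ≥0∞) + 1) * ENNReal.ofReal (1 + Real.log
        (4 * (4 ^ l * 2 ^ (6 * a)) / (8 * 2 ^ (l + 16 * a)))) * (3 * 2 ^ (30 * a)))))) ≤
      6912 * 2 ^ (60 * a) := by
  have h4 : (4 : ℝ≥0∞) ^ (3 * a) = 2 ^ (6 * a) := by
    rw [show (4 : ℝ≥0∞) = 2 ^ 2 by norm_num, ← pow_mul]; congr 1; ring
  have hinv : ∀ n : ℕ, ENNReal.ofReal (1 / 2 ^ n) = ((2 : ℝ≥0∞) ^ n)⁻¹ := by
    intro n
    rw [one_div, ENNReal.ofReal_inv_of_pos (by positivity), ← two_pow]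
  have h2t : ∀ n : ℕ, (2 : ℝ≥0∞) ^ n ≠ ⊤ := fun n => by finiteness
  have h20 : ∀ n : ℕ, (2 : ℝ≥0∞) ^ n ≠ 0 := fun n => by positivity
  -- `2 ^ i * (2 ^ j)⁻¹ ≤ (2 ^ k)⁻¹` if `i + k ≤ j`
  have hred : ∀ i j k : ℕ, i + k ≤ j → (2 : ℝ≥0∞) ^ i * ((2 : ℝ≥0∞) ^ j)⁻¹ ≤
      ((2 : ℝ≥0∞) ^ k)⁻¹ := by
    intro i j k h
    rw [← div_eq_mul_inv, ENNReal.div_le_iff (h20 j) (h2t j), ← ENNReal.div_eq_inv_mul,
      ENNReal.le_div_iff_mul_le (Or.inl (h20 k)) (Or.inl (h2t k)), ← pow_add]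
    exact pow_le_pow_right₀ (by norm_num) h
  refine ⟨?_, ?_, ?_, ?_, ?_, ?_⟩
  · rw [hinv, hinv]
    have := hred 0 (10 * a) (9 * a) (by omega)
    simpa using this
  · rw [hinv, hinv, h4]
    have h1 := hred (21 * a) (30 * a) (9 * a) (by omega)
    calc 2 * (2 * 2 ^ (6 * a) * (2 ^ (13 * a) * (18 * (32 * 2 ^ (2 * a) *
          ((2 : ℝ≥0∞) ^ (30 * a))⁻¹)))) = 2304 * (2 ^ (21 * a) * ((2 : ℝ≥0∞) ^ (30 * a))⁻¹) := by
          rw [show 21 * a = 6 * a + 13 * a + 2 * a by ring, pow_add, pow_add]; ring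
      _ ≤ _ := by gcongr
  · rw [hinv, hinv, h4]
    have h1 := hred (19 * a + 2) (20 * m) (9 * a) (by omega)
    calc 2 * (2 * 2 ^ (6 * a) * (2 ^ (13 * a) * ((2 : ℝ≥0∞) ^ (20 * m))⁻¹))
        = 2 ^ (19 * a + 2) * ((2 : ℝ≥0∞) ^ (20 * m))⁻¹ := by
          rw [show 19 * a + 2 = 6 * a + 13 * a + 2 by ring, pow_add, pow_add]; ring
      _ ≤ _ := h1
  · rw [hinv, hinv, h4]
    have h1 := hred (14 * a + l + 4) (30 * m) (9 * a) (by omega)
    calc 2 * (2 * 2 ^ (6 * a) * (3 * 2 ^ (l + 8 * a) * ((2 : ℝ≥0∞) ^ (30 * m))⁻¹))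
        = 12 * 2 ^ (14 * a + l) * ((2 : ℝ≥0∞) ^ (30 * m))⁻¹ := by
          rw [show 14 * a + l = 6 * a + (l + 8 * a) by ring, pow_add]; ring
      _ ≤ 16 * 2 ^ (14 * a + l) * ((2 : ℝ≥0∞) ^ (30 * m))⁻¹ := by gcongr; norm_num
      _ = 2 ^ (14 * a + l + 4) * ((2 : ℝ≥0∞) ^ (30 * m))⁻¹ := by
          rw [pow_add _ _ 4]; ring
      _ ≤ _ := h1
  · rw [hinv, hinv]
    have := hred 0 (38 * m) (9 * a) (by omega)
    simpa using this
  · have e1 : (((30 * a : ℕ) : ℝ≥0∞) + 1) ≤ 2 ^ a := by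
      have : 30 * a + 1 ≤ 2 ^ a := by
        have key : ∀ n : ℕ, 20 ≤ n → 30 * n + 1 ≤ 2 ^ n := by
          intro n hn
          induction n, hn using Nat.le_induction with
          | base => norm_num
          | succ k hk ih => rw [pow_succ]; omega
        exact key a ha
      exact_mod_cast this
    have e2 : ENNReal.ofReal (1 + Real.log
        (4 * (4 ^ l * 2 ^ (6 * a)) / (8 * 2 ^ (l + 16 * a)))) ≤ 2 ^ a := by
      rw [two_pow]
      apply ENNReal.ofReal_le_ofReal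
      have hq : (4 * (4 ^ l * 2 ^ (6 * a)) / (8 * 2 ^ (l + 16 * a)) : ℝ) ≤ 2 ^ (l - 1) := by
        rw [div_le_iff₀ (by positivity)]
        have e3 : (4 * (4 ^ l * 2 ^ (6 * a)) : ℝ) = 2 ^ (2 * l + 6 * a + 2) := by
          rw [show (4 : ℝ) ^ l = 2 ^ (2 * l) by rw [pow_mul]; norm_num, pow_add, pow_add]; ring
        have e4 : (2 ^ (l - 1) * (8 * 2 ^ (l + 16 * a)) : ℝ) = 2 ^ ((l - 1) + (l + 16 * a) + 3) := by
          rw [pow_add, pow_add]; ring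
        rw [e3, e4]
        exact pow_le_pow_right₀ (by norm_num) (by omega)
      have h5 : Real.log (4 * (4 ^ l * 2 ^ (6 * a)) / (8 * 2 ^ (l + 16 * a))) ≤
          ((l - 1 : ℕ) : ℝ) := by
        calc Real.log (4 * (4 ^ l * 2 ^ (6 * a)) / (8 * 2 ^ (l + 16 * a)))
            ≤ Real.log (2 ^ (l - 1)) := Real.log_le_log (by positivity) hq
          _ = ((l - 1 : ℕ) : ℝ) * Real.log 2 := Real.log_pow _ _
          _ ≤ ((l - 1 : ℕ) : ℝ) * 1 := by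
              gcongr; exact Real.log_two_lt_d9.le.trans (by norm_num)
          _ = _ := mul_one _
      have h6 : 1 + ((l - 1 : ℕ) : ℝ) = l := by
        rw [Nat.cast_sub (by omega)]; push_cast; ring
      have h7 : (l : ℝ) ≤ 2 ^ a := by
        have : l ≤ 2 ^ a := by omega
        exact_mod_cast this
      linarith
    rw [h4]
    calc 2 * (2 * 2 ^ (6 * a) * (2 ^ (13 * a) * (18 * (32 * 2 ^ (2 * a) *
      (((30 * a : ℕ) : ℝ≥0∞) + 1) * ENNReal.ofReal (1 + Real.log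
        (4 * (4 ^ l * 2 ^ (6 * a)) / (8 * 2 ^ (l + 16 * a)))) * (3 * 2 ^ (30 * a))))))
        ≤ 2 * (2 * 2 ^ (6 * a) * (2 ^ (13 * a) * (18 * (32 * 2 ^ (2 * a) *
          2 ^ a * 2 ^ a * (3 * 2 ^ (30 * a)))))) := by gcongr
      _ = 6912 * 2 ^ (53 * a) := by
          rw [show 53 * a = 6 * a + 13 * a + 2 * a + a + a + 30 * a by ring]
          simp only [pow_add]; ring
      _ ≤ 6912 * 2 ^ (60 * a) := by
          gcongr
          · norm_num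
          · omega

end E_

open E_ in
theorem pE (hPQ : tPQ) (hUNP : tUNP) (hLCP : tLCP) (hEBS : tEBS) (hSQL : tSQL) (hKKM : tKKM)
    (hVB : tVB) (hBXV : tBXV) (hMUP : tMUP) (hHAT : LLog.tHAT) (hFRM : LLog.tFRM) : tE := by
  obtain ⟨C1, hC1⟩ := hUNP
  obtain ⟨C2, hC2⟩ := hKKM
  refine ⟨C1 + 3000 + 7000 * C2, ?_⟩
  intro a m l sg sl X g HPh hX hdisj hg hg1
  obtain ⟨⟨ha20, hm1, hm2⟩, hal, hlm, hsg0, hsg1, hsl1, hsl2⟩ := id HPh
  obtain ⟨hhc, hhb, hhn, -⟩ := hHAT g hg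
  obtain ⟨hPm, hPv, -, hPu⟩ := hPQ a l X ha20 hX hdisj
  obtain ⟨hVB1, hVB2, -⟩ := hVB a m l sg sl g HPh hg
  obtain ⟨k1, k2, k3, k4, k5, k6⟩ := consts ha20 hm1 hal hlm
  set G : ℝ≥0∞ := ∫⁻ x, ‖g x‖ₑ ^ 2 with hG
  set S : ℝ≥0∞ := ∑ c ∈ CC l, volume (X c) with hS
  set Y : ℕ → Set (ℝ × ℝ) := fun c => Pq a l (X c) with hY
  set e : ℝ≥0∞ := ENNReal.ofReal (1 / 2 ^ (9 * a)) with he
  set F : ℕ → ℝ × ℝ → ℝ≥0∞ := fun c x => ‖∑ p ∈ PP a l, vv a m sg sl l g c p x‖ₑ ^ 2 with hF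
  -- splitting
  have hsplit : ∑ c ∈ CC l, ∫⁻ x in X c, F c x ≤
      (∑ c ∈ CC l, ∫⁻ x in X c \ Y c, F c x) + ∑ c ∈ CC l, ∫⁻ x in Y c, F c x := by
    rw [← Finset.sum_add_distrib]
    apply Finset.sum_le_sum
    intro c _
    calc ∫⁻ x in X c, F c x ≤ ∫⁻ x in (X c \ Y c) ∪ Y c, F c x := by
          apply lintegral_mono_set
          intro x hx
          by_cases h : x ∈ Y c
          · exact Or.inr h
          · exact Or.inl ⟨hx, h⟩
      _ ≤ _ := lintegral_union_le _ _ _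
  -- unpopular points
  have hun : ∑ c ∈ CC l, ∫⁻ x in X c \ Y c, F c x ≤ C1 * ENNReal.ofReal (1 / 2 ^ (10 * a)) * G := by
    have h := hC1 a m l sg sl (fun c => X c \ Y c) (hat g) HPh
      (fun c => ⟨(hX c).1.diff (hPm c), fun y => hPu c y⟩) hhc.measurable hhb
    rw [hhn] at h
    exact h
  -- popular points
  have hnbv : ∀ c, volume (nb a l (nb a l (Y c))) ≤ 9 * 2 ^ (60 * a) * volume (X c) := fun c =>
    (hPv c).trans (by gcongr; exact inter_subset_left)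
  have hnbf : ∀ c, volume (nb a l (Y c)) < ⊤ := by
    intro c
    refine lt_of_le_of_lt (measure_mono (subset_nb a l (nb a l (Y c)))) ?_
    refine lt_of_le_of_lt (hnbv c) ?_
    exact ENNReal.mul_lt_top (by finiteness) (hX c).2
  set u : ℕ → ℕ → ℝ × ℝ → ℂ := fun c p ξ => Mu a m sg sl l c p ξ * hat g ξ with hu
  have hpop1 : ∀ c ∈ CC l, ∫⁻ x in Y c, F c x ≤
      2 * (∑ p ∈ PP a l, ∫⁻ x in nb a l (Y c), ‖Ex (u c p) x‖ₑ ^ 2) +
        ENNReal.ofReal (1 / 2 ^ (38 * m)) * ∑ p ∈ PP a l, n2 (u c p) := by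
    intro c hc
    apply hLCP a m l (3 * 2 ^ (l + 8 * a)) sl (Y c) (u c) ⟨ha20, hm1, hm2⟩ hlm (hPm c) (hnbf c)
    intro p hp
    have hpP : p ∈ PP a l := Finset.mem_range.2 hp
    refine ⟨(hVB1 c hc p hpP).2.1, ?_⟩
    intro ξ hξ
    have hMu : Mu a m sg sl l c p ξ ≠ 0 := by
      intro h0; apply hξ; simp only [hu, h0, zero_mul]
    have h1 := (hMUP a m l c p sg sl HPh hc hpP).2.2.1 ξ hMu
    have h2 := (hBXV a l c p sg sl (1 / 2 ^ (4 * a) / 3) ξ ha20 hal hsl1 hsl2 hpP (by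
      have : (0 : ℝ) < 1 / 2 ^ (4 * a) := by positivity
      linarith) h1).1 (by positivity)
    refine ⟨h2.1, h2.2.2.1, ?_⟩
    have h3 : (1 : ℝ) / 2 ^ (4 * a + 2) ≤ 1 / 2 ^ (4 * a) / 3 := by
      rw [pow_add, div_div]
      apply one_div_le_one_div_of_le (by positivity)
      have : (0 : ℝ) < 2 ^ (4 * a) := by positivity
      nlinarith
    obtain ⟨f1, f2⟩ := h2.2.2.2.2
    exact ⟨h3.trans f1, f2.trans (by linarith)⟩
  have hn2 : ∑ c ∈ CC l, ∑ p ∈ PP a l, n2 (u c p) ≤ G := by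
    refine le_trans ?_ hVB2
    apply Finset.sum_le_sum
    intro c hc
    apply Finset.sum_le_sum
    intro p hp
    unfold n2
    apply lintegral_mono
    intro ξ
    have h1 := ((hMUP a m l c p sg sl HPh hc hp).2.1 ξ).2
    have h2 : ‖Mu a m sg sl l c p ξ‖ₑ ≤ 1 := by
      rw [← ofReal_norm, ← ENNReal.ofReal_one]; exact ENNReal.ofReal_le_ofReal h1
    simp only [hu, enorm_mul, mul_pow]
    gcongr
    calc ‖Mu a m sg sl l c p ξ‖ₑ ^ 2 = ‖Mu a m sg sl l c p ξ‖ₑ * ‖Mu a m sg sl l c p ξ‖ₑ := sq _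
      _ ≤ ‖Mu a m sg sl l c p ξ‖ₑ * 1 := by gcongr
      _ = _ := mul_one _
  set YY : Set (ℝ × ℝ) := ⋃ c ∈ CC l, nb a l (Y c) with hYY
  have hYYm : MeasurableSet YY := Finset.measurableSet_biUnion _ fun c _ =>
    (nb_open a l (Y c)).measurableSet
  have hpop : ∑ c ∈ CC l, ∫⁻ x in Y c, F c x ≤
      2 * (∑ p ∈ PP a l, ∑ c ∈ CC l, ∫⁻ x in YY, VV a m sg sl l g c p x) +
        ENNReal.ofReal (1 / 2 ^ (38 * m)) * G := by
    calc ∑ c ∈ CC l, ∫⁻ x in Y c, F c x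
        ≤ ∑ c ∈ CC l, (2 * (∑ p ∈ PP a l, ∫⁻ x in nb a l (Y c), ‖Ex (u c p) x‖ₑ ^ 2) +
          ENNReal.ofReal (1 / 2 ^ (38 * m)) * ∑ p ∈ PP a l, n2 (u c p)) :=
          Finset.sum_le_sum hpop1
      _ = 2 * (∑ c ∈ CC l, ∑ p ∈ PP a l, ∫⁻ x in nb a l (Y c), ‖Ex (u c p) x‖ₑ ^ 2) +
          ENNReal.ofReal (1 / 2 ^ (38 * m)) * ∑ c ∈ CC l, ∑ p ∈ PP a l, n2 (u c p) := by
          rw [Finset.sum_add_distrib, Finset.mul_sum, Finset.mul_sum]
      _ ≤ 2 * (∑ c ∈ CC l, ∑ p ∈ PP a l, ∫⁻ x in YY, VV a m sg sl l g c p x) +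
          ENNReal.ofReal (1 / 2 ^ (38 * m)) * G := by
          gcongr with c hc p hp
          · intro x hx
            exact mem_iUnion₂.2 ⟨c, hc, hx⟩
          · exact le_rfl
      _ = _ := by rw [Finset.sum_comm]
  -- base intervals
  set L : ℝ := 4 ^ l * 2 ^ (6 * a) with hL
  set I : ℕ → ℕ → ℝ≥0∞ := fun c0 p =>
    ∫⁻ x, ‖Ex (fun ξ => Pp a m sg sl l c0 p ξ * hat g ξ) x‖ₑ ^ 2 *
      sa (tp sl (l + 8 * a) p) L YY x with hI
  have hbase : ∀ p ∈ PP a l, ∑ c ∈ CC l, ∫⁻ x in YY, VV a m sg sl l g c p x ≤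
      ∑ c0 ∈ Finset.range (2 * 4 ^ (3 * a)), (2 ^ (13 * a) * I c0 p +
        ENNReal.ofReal (1 / 2 ^ (30 * m)) * G) := by
    intro p hp
    rw [← Finset.sum_fiberwise_of_maps_to (s := CC l) (t := Finset.range (2 * 4 ^ (3 * a)))
      (g := fun c => c / 4 ^ (l - 3 * a))]
    · apply Finset.sum_le_sum
      intro c0 _
      exact hEBS a m l c0 p sg sl YY g HPh hp hYYm hg
    · intro c hc
      have hc' : c < 2 * 4 ^ l := Finset.mem_range.1 hc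
      rw [Finset.mem_range, Nat.div_lt_iff_lt_mul (by positivity), mul_assoc, ← pow_add]
      rwa [show 3 * a + (l - 3 * a) = l by omega]
  -- squares
  set W : ℝ × ℝ → ℝ≥0∞ := fun y => 32 * 2 ^ (2 * a) * KM (4 * L) (8 * 2 ^ (l + 16 * a))
    (nb a l YY) y with hW
  have hAB : (8 * 2 ^ (l + 16 * a) : ℝ) ≤ 4 * L := by
    have e1 : (8 * 2 ^ (l + 16 * a) : ℝ) = 2 ^ (l + 16 * a + 3) := by rw [pow_add _ _ 3]; ring
    have e2 : 4 * L = 2 ^ (2 * l + 6 * a + 2) := by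
      rw [hL, show (4 : ℝ) ^ l = 2 ^ (2 * l) by rw [pow_mul]; norm_num, pow_add, pow_add]; ring
    rw [e1, e2]
    exact pow_le_pow_right₀ (by norm_num) (by omega)
  have hgm : Measurable fun x => ‖g x‖ₑ ^ 2 := hg.1.enorm.pow_const 2
  have hg1' : ∀ x, ‖g x‖ₑ ^ 2 ≤ 1 := by
    intro x
    have : ‖g x‖ₑ ≤ 1 := by
      rw [← ofReal_norm, ← ENNReal.ofReal_one]; exact ENNReal.ofReal_le_ofReal (hg1 x)
    exact pow_le_one' this 2
  obtain ⟨hKm, -, hKi⟩ := hC2 (30 * a) (4 * L) (8 * 2 ^ (l + 16 * a)) (nb a l YY)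
    (fun x => ‖g x‖ₑ ^ 2) (nb_open a l YY).measurableSet (by positivity) hAB hgm hg1'
  have hsq : ∀ c0, ∑ p ∈ PP a l, I c0 p ≤ 18 * (∫⁻ x, ‖g x‖ₑ ^ 2 * W x) +
      ENNReal.ofReal (1 / 2 ^ (20 * m)) * G := by
    intro c0
    apply hSQL a m l c0 sg sl g (fun p => sa (tp sl (l + 8 * a) p) L YY) W HPh hg
    · intro p
      exact ⟨sa_meas _ _ _ hYYm, sa_le_one _ _ _⟩
    · exact hKm.const_mul _
    · intro p hp x y h1 h2
      exact PhiW hFRM a l p sl YY hal hsl1 hsl2 hp x y h1 h2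
  -- measure of the neighbourhood
  have hvol : volume (nb a l YY) ≤ 9 * 2 ^ (60 * a) * S := by
    calc volume (nb a l YY) ≤ volume (⋃ c ∈ CC l, nb a l (nb a l (Y c))) :=
          measure_mono (nb_iUnion a l (CC l) fun c => nb a l (Y c))
      _ ≤ ∑ c ∈ CC l, volume (nb a l (nb a l (Y c))) := measure_biUnion_finset_le _ _
      _ ≤ ∑ c ∈ CC l, 9 * 2 ^ (60 * a) * volume (X c) := Finset.sum_le_sum fun c _ => hnbv c
      _ = _ := by rw [← Finset.mul_sum]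
  have hvol2 : volume (nb a l YY) ^ (1 / 2 : ℝ) ≤ 3 * 2 ^ (30 * a) * S ^ (1 / 2 : ℝ) := by
    calc volume (nb a l YY) ^ (1 / 2 : ℝ) ≤ ((3 * 2 ^ (30 * a)) ^ 2 * S) ^ (1 / 2 : ℝ) := by
          apply ENNReal.rpow_le_rpow _ (by norm_num)
          refine hvol.trans (le_of_eq ?_)
          rw [mul_pow, ← pow_mul]
          norm_num
          congr 3; ring
      _ = _ := by rw [ENNReal.mul_rpow_of_nonneg _ _ (by norm_num), sqrt_sq]
  -- assembly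
  set Lo : ℝ≥0∞ := ENNReal.ofReal (1 + Real.log (4 * L / (8 * 2 ^ (l + 16 * a)))) with hLo
  have hW2 : ∫⁻ x, ‖g x‖ₑ ^ 2 * W x ≤ 32 * 2 ^ (2 * a) *
      (C2 * (((30 * a : ℕ) : ℝ≥0∞) + 1) * Lo * G ^ (1 / 2 : ℝ) *
        (3 * 2 ^ (30 * a) * S ^ (1 / 2 : ℝ)) + ENNReal.ofReal (1 / 2 ^ (30 * a)) * G) := by
    calc ∫⁻ x, ‖g x‖ₑ ^ 2 * W x
        = 32 * 2 ^ (2 * a) * ∫⁻ x, ‖g x‖ₑ ^ 2 * KM (4 * L) (8 * 2 ^ (l + 16 * a))
            (nb a l YY) x := by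
          have h0 : Measurable fun x => ‖g x‖ₑ ^ 2 * KM (4 * L) (8 * 2 ^ (l + 16 * a))
            (nb a l YY) x := hgm.mul hKm
          rw [← lintegral_const_mul _ h0]
          apply lintegral_congr
          intro x
          simp only [hW]
          ring
      _ ≤ _ := by
          gcongr
          refine hKi.trans ?_
          gcongr
  have hPPc : ((PP a l).card : ℝ≥0∞) = 3 * 2 ^ (l + 8 * a) := by
    rw [PP, Finset.card_range]; push_cast; rfl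
  have hsum : ∑ p ∈ PP a l, ∑ c ∈ CC l, ∫⁻ x in YY, VV a m sg sl l g c p x ≤
      2 * 4 ^ (3 * a) * (2 ^ (13 * a) * (18 * (32 * 2 ^ (2 * a) *
      (C2 * (((30 * a : ℕ) : ℝ≥0∞) + 1) * Lo * G ^ (1 / 2 : ℝ) *
        (3 * 2 ^ (30 * a) * S ^ (1 / 2 : ℝ)) + ENNReal.ofReal (1 / 2 ^ (30 * a)) * G)) +
        ENNReal.ofReal (1 / 2 ^ (20 * m)) * G) +
        3 * 2 ^ (l + 8 * a) * (ENNReal.ofReal (1 / 2 ^ (30 * m)) * G)) := by
    calc ∑ p ∈ PP a l, ∑ c ∈ CC l, ∫⁻ x in YY, VV a m sg sl l g c p x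
        ≤ ∑ p ∈ PP a l, ∑ c0 ∈ Finset.range (2 * 4 ^ (3 * a)), (2 ^ (13 * a) * I c0 p +
            ENNReal.ofReal (1 / 2 ^ (30 * m)) * G) := Finset.sum_le_sum hbase
      _ = ∑ c0 ∈ Finset.range (2 * 4 ^ (3 * a)), (2 ^ (13 * a) * (∑ p ∈ PP a l, I c0 p) +
            3 * 2 ^ (l + 8 * a) * (ENNReal.ofReal (1 / 2 ^ (30 * m)) * G)) := by
          rw [Finset.sum_comm]
          apply Finset.sum_congr rfl
          intro c0 _
          rw [Finset.sum_add_distrib, Finset.mul_sum, Finset.sum_const, nsmul_eq_mul, hPPc]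
      _ ≤ ∑ c0 ∈ Finset.range (2 * 4 ^ (3 * a)), (2 ^ (13 * a) * (18 * (32 * 2 ^ (2 * a) *
      (C2 * (((30 * a : ℕ) : ℝ≥0∞) + 1) * Lo * G ^ (1 / 2 : ℝ) *
        (3 * 2 ^ (30 * a) * S ^ (1 / 2 : ℝ)) + ENNReal.ofReal (1 / 2 ^ (30 * a)) * G)) +
        ENNReal.ofReal (1 / 2 ^ (20 * m)) * G) +
        3 * 2 ^ (l + 8 * a) * (ENNReal.ofReal (1 / 2 ^ (30 * m)) * G)) := by
          apply Finset.sum_le_sum
          intro c0 _
          gcongr
          refine (hsq c0).trans ?_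
          gcongr
      _ = _ := by
          rw [Finset.sum_const, Finset.card_range, nsmul_eq_mul]
          push_cast; rfl
  have hC : ((C1 + 3000 + 7000 * C2 : ℝ≥0) : ℝ≥0∞) = C1 + 3000 + 7000 * C2 := by push_cast; rfl
  rw [hC]
  calc ∑ c ∈ CC l, ∫⁻ x in X c, F c x
      ≤ C1 * ENNReal.ofReal (1 / 2 ^ (10 * a)) * G +
        (2 * (2 * 4 ^ (3 * a) * (2 ^ (13 * a) * (18 * (32 * 2 ^ (2 * a) *
      (C2 * (((30 * a : ℕ) : ℝ≥0∞) + 1) * Lo * G ^ (1 / 2 : ℝ) *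
        (3 * 2 ^ (30 * a) * S ^ (1 / 2 : ℝ)) + ENNReal.ofReal (1 / 2 ^ (30 * a)) * G)) +
        ENNReal.ofReal (1 / 2 ^ (20 * m)) * G) +
        3 * 2 ^ (l + 8 * a) * (ENNReal.ofReal (1 / 2 ^ (30 * m)) * G))) +
          ENNReal.ofReal (1 / 2 ^ (38 * m)) * G) := by
        refine hsplit.trans (add_le_add hun (hpop.trans ?_))
        gcongr
    _ = C1 * ENNReal.ofReal (1 / 2 ^ (10 * a)) * G +
        C2 * (2 * (2 * 4 ^ (3 * a) * (2 ^ (13 * a) * (18 * (32 * 2 ^ (2 * a) *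
          (((30 * a : ℕ) : ℝ≥0∞) + 1) * Lo * (3 * 2 ^ (30 * a))))))) *
            S ^ (1 / 2 : ℝ) * G ^ (1 / 2 : ℝ) +
        (2 * (2 * 4 ^ (3 * a) * (2 ^ (13 * a) * (18 * (32 * 2 ^ (2 * a) *
          ENNReal.ofReal (1 / 2 ^ (30 * a)))))) * G +
        2 * (2 * 4 ^ (3 * a) * (2 ^ (13 * a) * ENNReal.ofReal (1 / 2 ^ (20 * m)))) * G +
        2 * (2 * 4 ^ (3 * a) * (3 * 2 ^ (l + 8 * a) * ENNReal.ofReal (1 / 2 ^ (30 * m)))) * G +
        ENNReal.ofReal (1 / 2 ^ (38 * m)) * G) := by ring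
    _ ≤ C1 * e * G + C2 * (6912 * 2 ^ (60 * a)) * S ^ (1 / 2 : ℝ) * G ^ (1 / 2 : ℝ) +
        (2304 * e * G + e * G + e * G + e * G) := by gcongr
    _ = (C1 + 2307) * e * G + (6912 * C2) * 2 ^ (60 * a) * S ^ (1 / 2 : ℝ) * G ^ (1 / 2 : ℝ) := by
        ring
    _ ≤ (C1 + 3000 + 7000 * C2) * e * G +
        (C1 + 3000 + 7000 * C2) * 2 ^ (60 * a) * S ^ (1 / 2 : ℝ) * G ^ (1 / 2 : ℝ) := by
        have q1 : (C1 : ℝ≥0∞) + 2307 ≤ C1 + 3000 + 7000 * C2 := by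
          refine le_trans ?_ le_self_add
          exact add_le_add le_rfl (by norm_num)
        have q2 : (6912 : ℝ≥0∞) * C2 ≤ C1 + 3000 + 7000 * C2 := by
          refine le_trans ?_ le_add_self
          exact mul_le_mul' (by norm_num) le_rfl
        exact add_le_add (mul_le_mul' (mul_le_mul' q1 le_rfl) le_rfl)
          (mul_le_mul' (mul_le_mul' (mul_le_mul' q2 le_rfl) le_rfl) le_rfl)

end Pool.Agent.SLog
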