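import Pool.Agent.SLog.Targets
import Pool.Agent.KSP.Base
import Pool.Agent.KSP.Conv
import Pool.Agent.LLog.CVK
import Pool.Agent.LLog.YNG

set_option autoImplicit false

/-! `tEBS`: all radial intervals of a base interval, one cap. -/

namespace Pool.Agent.SLog

open MeasureTheory Set
open scoped ENNReal NNReal ComplexConjugate
open Pool.Agent.KSP (ee dot nr Ex Ex1 Bd Bd1 n1 n2 lg V0 ann)
open Pool.Agent.LLog (PA cd cdr cp fr tp Nn nv tv Core bx sa sd Qx kc psi kap GK psR psA anf mu Bf hat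
  Hs mav)

namespace EBS_

/-! ### Translations -/

theorem mav_sub (w h : ℝ) (f : ℝ → ℝ) :
    mav w (fun x => f (x - h)) = fun x => mav w f (x - h) := by
  funext x
  unfold mav
  rw [intervalIntegral.integral_comp_sub_right]
  have e1 : x - w / 2 - h = x - h - w / 2 := by ring
  have e2 : x + w / 2 - h = x - h + w / 2 := by ring
  rw [e1, e2]

theorem mav_iter_sub (w h : ℝ) (N : ℕ) : ∀ f : ℝ → ℝ,
    (mav w)^[N] (fun x => f (x - h)) = fun x => (mav w)^[N] f (x - h) := by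
  induction N with
  | zero => intro f; rfl
  | succ N ih =>
    intro f
    rw [Function.iterate_succ_apply, Function.iterate_succ_apply, mav_sub, ih]

theorem psi_sub (N : ℕ) (α β δ h x : ℝ) :
    psi N (α + h) (β + h) δ x = psi N α β δ (x - h) := by
  unfold psi
  have e : ((Icc (α + h + δ / 2) (β + h - δ / 2)).indicator (1 : ℝ → ℝ)) =
      fun x => (Icc (α + δ / 2) (β - δ / 2)).indicator (1 : ℝ → ℝ) (x - h) := by
    funext x
    have hiff : x ∈ Icc (α + h + δ / 2) (β + h - δ / 2) ↔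
        x - h ∈ Icc (α + δ / 2) (β - δ / 2) := by
      simp only [mem_Icc]
      constructor
      · rintro ⟨h1, h2⟩; constructor <;> linarith
      · rintro ⟨h1, h2⟩; constructor <;> linarith
    by_cases hx : x ∈ Icc (α + h + δ / 2) (β + h - δ / 2)
    · rw [indicator_of_mem hx, indicator_of_mem (hiff.1 hx)]; rfl
    · rw [indicator_of_notMem hx, indicator_of_notMem (fun h' => hx (hiff.2 h'))]
  rw [e, mav_iter_sub]

theorem psR_sub (a m l c : ℕ) (sg τ : ℝ) :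
    psR a m sg l c τ = psR a m sg l 0 (τ - c / 4 ^ l) := by
  unfold psR
  rw [← psi_sub]
  have h4 : (4 : ℝ) ^ l ≠ 0 := by positivity
  congr 1
  · push_cast; field_simp; ring
  · push_cast; field_simp; ring

theorem Ex1_sub (H : ℝ → ℂ) (h s : ℝ) :
    Ex1 (fun τ => H (τ - h)) s = ee (h * s) * Ex1 H s := by
  unfold Ex1
  rw [← integral_const_mul, ← integral_sub_right_eq_self (fun τ => ee (h * s) * (H τ * ee (s * τ))) h]
  apply integral_congr_ae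
  refine Filter.Eventually.of_forall fun τ => ?_
  have e : ee (s * τ) = ee (h * s) * ee (s * (τ - h)) := by
    rw [← Pool.Agent.KSP.Conv_.ee_add]
    congr 1
    ring
  change H (τ - h) * ee (s * τ) = ee (h * s) * (H (τ - h) * ee (s * (τ - h)))
  rw [e]
  ring

/-! ### Convolution along a line -/

theorem conv1 {H K : ℝ → ℂ} (hH : Bd1 H) (hK : Bd1 K) (s : ℝ) :
    Ex1 (fun τ => H τ * K τ) s = ∫ s', Ex1 H s' * Ex1 K (s - s') := by
  set K' : ℝ → ℂ := fun τ => conj (K τ) * ee (-(s * τ)) with hK'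
  have hK'B : Bd1 K' := by
    obtain ⟨hm, ⟨B, hB⟩, R, hR⟩ := hK
    refine ⟨?_, ⟨B, fun ξ => ?_⟩, R, fun ξ hξ => hR ξ ?_⟩
    · refine (Complex.continuous_conj.measurable.comp hm).mul ?_
      exact (Pool.Agent.KSP.Conv_.cont_ee.comp (by fun_prop)).measurable
    · rw [hK']
      simp only [norm_mul, Pool.Agent.KSP.Conv_.norm_ee, mul_one, RCLike.norm_conj]
      exact hB ξ
    · intro h
      apply hξ
      simp only [hK', h, map_zero, zero_mul]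
  have h1 := (Pool.Agent.KSP.pPo1 H K' hH hK'B).2
  have h2 : ∫ ξ, H ξ * conj (K' ξ) = Ex1 (fun ξ => H ξ * K ξ) s := by
    unfold Ex1
    apply integral_congr_ae
    refine Filter.Eventually.of_forall fun ξ => ?_
    simp only [hK', map_mul, Complex.conj_conj, Pool.Agent.LLog.CVK_.conj_ee, neg_neg]
    ring
  have h3 : ∀ y, conj (Ex1 K' y) = Ex1 K (s - y) := by
    intro y
    unfold Ex1
    rw [← integral_conj]
    apply integral_congr_ae
    refine Filter.Eventually.of_forall fun ξ => ?_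
    simp only [hK', map_mul, Complex.conj_conj, Pool.Agent.LLog.CVK_.conj_ee, neg_neg]
    rw [sub_mul, sub_eq_add_neg, Pool.Agent.KSP.Conv_.ee_add]
    ring
  rw [← h2, ← h1]
  apply integral_congr_ae
  refine Filter.Eventually.of_forall fun y => ?_
  simp only [h3]

theorem conv_line (hF : Pool.Agent.LLog.tFRM) {H : ℝ → ℂ} (hH : Bd1 H) {k : ℝ × ℝ → ℂ} (hk : Bd k)
    (t : ℝ) (x : ℝ × ℝ) :
    Ex (fun ξ => H (dot ξ (nv t)) * k ξ) x = ∫ s, Ex1 H s * Ex k (x - s • nv t) := by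
  obtain ⟨f1, f2, f3, -, f5⟩ := hF t
  have hmd : Measurable fun ξ : ℝ × ℝ => dot ξ (nv t) := by unfold dot; fun_prop
  have hhB : Bd (fun ξ => H (dot ξ (nv t)) * k ξ) := by
    obtain ⟨hHm, ⟨B1, hB1⟩, -⟩ := hH
    obtain ⟨hm, ⟨B, hB⟩, R, hR⟩ := hk
    refine ⟨(hHm.comp hmd).mul hm, ⟨|B1| * |B|, fun ξ => ?_⟩, R, fun ξ hξ => hR ξ ?_⟩
    · rw [norm_mul]
      exact mul_le_mul ((hB1 _).trans (le_abs_self _)) ((hB _).trans (le_abs_self _))
        (norm_nonneg _) (abs_nonneg _)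
    · intro h
      apply hξ
      simp only [h, mul_zero]
  obtain ⟨-, -, g3, -⟩ := f5 _ hhB
  obtain ⟨k1, -, k3, -⟩ := f5 _ hk
  have hHs : ∀ y, Hs t (fun ξ => H (dot ξ (nv t)) * k ξ) y = fun ζ => H ζ * Hs t k y ζ := by
    intro y
    funext ζ
    unfold Hs
    rw [← integral_const_mul]
    apply integral_congr_ae
    refine Filter.Eventually.of_forall fun z => ?_
    simp only [(f3 ζ z).1]
    ring
  have hx := f2 x
  conv_lhs => rw [hx]
  rw [g3, hHs, conv1 hH (k1 _)]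
  apply integral_congr_ae
  refine Filter.Eventually.of_forall fun s => ?_
  change Ex1 H s * _ = Ex1 H s * _
  congr 1
  rw [← k3]
  congr 1
  conv_rhs => rw [hx]
  rw [sub_smul]
  abel

/-! ### The estimate for functions on the plane -/

theorem two_sq (a b : ℂ) : ‖a + b‖ₑ ^ 2 ≤ 2 * ‖a‖ₑ ^ 2 + 2 * ‖b‖ₑ ^ 2 := by
  have h1 : ‖a + b‖ₑ ≤ ‖a‖ₑ + ‖b‖ₑ := enorm_add_le a b
  have h2 : (‖a‖ₑ + ‖b‖ₑ) ^ 2 ≤ 2 * ‖a‖ₑ ^ 2 + 2 * ‖b‖ₑ ^ 2 := by
    have h3 := ENNReal.rpow_add_le_mul_rpow_add_rpow ‖a‖ₑ ‖b‖ₑ (p := 2) (by norm_num)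
    have h4 : (2 : ℝ≥0∞) ^ ((2 : ℝ) - 1) = 2 := by norm_num
    rw [h4] at h3
    simp only [ENNReal.rpow_two] at h3
    rw [mul_add] at h3
    exact h3
  exact (pow_le_pow_left' h1 2).trans h2

theorem core_est (hBES : tBES) (n M : ℕ) (T : ℝ) (hT : 0 < T) (e : ℝ × ℝ) (F : ℝ × ℝ → ℂ)
    (hF : Continuous F) (B : ℝ) (hB : ∀ x, ‖F x‖ ≤ B) (κ : ℝ → ℂ) (hκ : Continuous κ)
    (hκi : Integrable κ) (hκb : ∀ s, ‖κ s‖ ≤ T⁻¹) (ε : ℝ≥0∞)
    (htail : ∫⁻ s in (Ico (-(M * T)) (M * T))ᶜ, ‖κ s‖ₑ ≤ ε) (Y : Set (ℝ × ℝ))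
    (hY : MeasurableSet Y) :
    ∑ c ∈ Finset.range n, ∫⁻ x in Y, ‖∫ s, (ee (c * s / T) * κ s) * F (x - s • e)‖ₑ ^ 2 ≤
      2 * (ENNReal.ofReal (2 * M * T) * ENNReal.ofReal T⁻¹ ^ 2) *
        (∫⁻ x, ‖F x‖ₑ ^ 2 * ∫⁻ s in Ico (-(M * T)) (M * T), Y.indicator 1 (x + s • e)) +
      2 * n * ε ^ 2 * ∫⁻ x, ‖F x‖ₑ ^ 2 := by
  set A : Set ℝ := Ico (-(M * T)) (M * T) with hA
  have hAm : MeasurableSet A := measurableSet_Ico
  have hcF : ∀ x, Continuous fun s : ℝ => F (x - s • e) := fun x => hF.comp (by fun_prop)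
  have hce : ∀ c : ℕ, Continuous fun s : ℝ => ee (c * s / T) := fun c =>
    Pool.Agent.KSP.Conv_.cont_ee.comp (by fun_prop)
  -- integrability
  have hint : ∀ (c : ℕ) (x : ℝ × ℝ),
      Integrable fun s => (ee (c * s / T) * κ s) * F (x - s • e) := by
    intro c x
    have h1 : Integrable fun s => ee (c * s / T) * κ s :=
      hκi.bdd_mul (c := 1) (hce c).aestronglyMeasurable
        (Filter.Eventually.of_forall fun s => by rw [Pool.Agent.KSP.Conv_.norm_ee])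
    exact h1.mul_bdd (c := B) (hcF x).aestronglyMeasurable
      (Filter.Eventually.of_forall fun s => hB _)
  -- the pointwise estimate
  have hpt : ∀ (x : ℝ × ℝ) (c : ℕ), ‖∫ s, (ee (c * s / T) * κ s) * F (x - s • e)‖ₑ ^ 2 ≤
      2 * ‖∫ s in A, (κ s * F (x - s • e)) * ee (c * s / T)‖ₑ ^ 2 +
        2 * (ε * ∫⁻ s in Aᶜ, ‖κ s‖ₑ * ‖F (x - s • e)‖ₑ ^ 2) := by
    intro x c
    rw [← integral_add_compl hAm (hint c x)]
    refine (two_sq _ _).trans ?_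
    have e1 : ∫ s in A, (ee (c * s / T) * κ s) * F (x - s • e) =
        ∫ s in A, (κ s * F (x - s • e)) * ee (c * s / T) :=
      integral_congr_ae (Filter.Eventually.of_forall fun s => by ring)
    rw [e1]
    gcongr
    calc ‖∫ s in Aᶜ, (ee (c * s / T) * κ s) * F (x - s • e)‖ₑ ^ 2
        ≤ (∫⁻ s in Aᶜ, ‖κ s‖ₑ * ‖F (x - s • e)‖ₑ) ^ 2 := by
          gcongr
          refine (enorm_integral_le_lintegral_enorm _).trans ?_
          apply lintegral_mono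
          intro s
          change ‖(ee (c * s / T) * κ s) * F (x - s • e)‖ₑ ≤ ‖κ s‖ₑ * ‖F (x - s • e)‖ₑ
          rw [enorm_mul, enorm_mul]
          have h1 : ‖ee (c * s / T)‖ₑ = 1 := by
            rw [← ofReal_norm, Pool.Agent.KSP.Conv_.norm_ee]; simp
          rw [h1, one_mul]
      _ ≤ (∫⁻ s in Aᶜ, ‖κ s‖ₑ) * ∫⁻ s in Aᶜ, ‖κ s‖ₑ * ‖F (x - s • e)‖ₑ ^ 2 :=
          Pool.Agent.LLog.YNG_.cs (volume.restrict Aᶜ) (fun s => ‖κ s‖ₑ)
            (fun s => ‖F (x - s • e)‖ₑ) hκ.measurable.enorm (hcF x).measurable.enorm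
      _ ≤ ε * ∫⁻ s in Aᶜ, ‖κ s‖ₑ * ‖F (x - s • e)‖ₑ ^ 2 := by gcongr
  -- near part: Bessel
  have hnear : ∀ x, ∑ c ∈ Finset.range n,
      ‖∫ s in A, (κ s * F (x - s • e)) * ee (c * s / T)‖ₑ ^ 2 ≤
        (ENNReal.ofReal (2 * M * T) * ENNReal.ofReal T⁻¹ ^ 2) *
          ∫⁻ s in A, ‖F (x - s • e)‖ₑ ^ 2 := by
    intro x
    refine (hBES n M T (fun s => κ s * F (x - s • e)) hT
      (hκ.mul (hcF x)).measurable ⟨T⁻¹ * B, fun s => ?_⟩).trans ?_
    · rw [norm_mul]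
      exact mul_le_mul (hκb s) (hB _) (norm_nonneg _) (inv_nonneg.2 hT.le)
    · refine le_trans (mul_le_mul' le_rfl ?_) (le_of_eq (mul_assoc _ _ _).symm)
      rw [← lintegral_const_mul _ ((hcF x).measurable.enorm.pow_const 2)]
      apply lintegral_mono
      intro s
      change ‖κ s * F (x - s • e)‖ₑ ^ 2 ≤ ENNReal.ofReal T⁻¹ ^ 2 * ‖F (x - s • e)‖ₑ ^ 2
      rw [enorm_mul, mul_pow]
      gcongr
      rw [← ofReal_norm]
      exact ENNReal.ofReal_le_ofReal (hκb s)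
  -- measurability of the two variable functions
  have hm1 : Measurable (Function.uncurry fun (x : ℝ × ℝ) (s : ℝ) => ‖F (x - s • e)‖ₑ ^ 2) := by
    have h1 : Continuous fun P : (ℝ × ℝ) × ℝ => F (P.1 - P.2 • e) := hF.comp (by fun_prop)
    exact h1.measurable.enorm.pow_const 2
  have hm2 : Measurable (Function.uncurry fun (x : ℝ × ℝ) (s : ℝ) =>
      ‖κ s‖ₑ * ‖F (x - s • e)‖ₑ ^ 2) := by
    have h1 : Continuous fun P : (ℝ × ℝ) × ℝ => F (P.1 - P.2 • e) := hF.comp (by fun_prop)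
    exact ((hκ.comp continuous_snd).measurable.enorm).mul (h1.measurable.enorm.pow_const 2)
  have hm3 : Measurable (Function.uncurry fun (x : ℝ × ℝ) (s : ℝ) =>
      Y.indicator (1 : ℝ × ℝ → ℝ≥0∞) x * ‖F (x - s • e)‖ₑ ^ 2) :=
    ((measurable_one.indicator hY).comp measurable_fst).mul hm1
  -- total
  have hnearI : ∫⁻ x in Y, ∫⁻ s in A, ‖F (x - s • e)‖ₑ ^ 2 =
      ∫⁻ x, ‖F x‖ₑ ^ 2 * ∫⁻ s in A, Y.indicator 1 (x + s • e) := by
    have e1 : ∫⁻ x in Y, ∫⁻ s in A, ‖F (x - s • e)‖ₑ ^ 2 =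
        ∫⁻ x, ∫⁻ s in A, Y.indicator (1 : ℝ × ℝ → ℝ≥0∞) x * ‖F (x - s • e)‖ₑ ^ 2 := by
      rw [← lintegral_indicator hY]
      apply lintegral_congr
      intro x
      by_cases hx : x ∈ Y
      · simp only [indicator_of_mem hx, Pi.one_apply, one_mul]
      · simp only [indicator_of_notMem hx, zero_mul, lintegral_zero]
    rw [e1, lintegral_lintegral_swap hm3.aemeasurable]
    have e2 : ∀ s : ℝ, ∫⁻ x, Y.indicator (1 : ℝ × ℝ → ℝ≥0∞) x * ‖F (x - s • e)‖ₑ ^ 2 =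
        ∫⁻ x, ‖F x‖ₑ ^ 2 * Y.indicator 1 (x + s • e) := by
      intro s
      rw [← lintegral_add_right_eq_self (fun x => Y.indicator (1 : ℝ × ℝ → ℝ≥0∞) x *
        ‖F (x - s • e)‖ₑ ^ 2) (s • e)]
      apply lintegral_congr
      intro x
      rw [add_sub_cancel_right, mul_comm]
    simp only [e2]
    have hm4 : Measurable (Function.uncurry fun (s : ℝ) (x : ℝ × ℝ) =>
        ‖F x‖ₑ ^ 2 * Y.indicator (1 : ℝ × ℝ → ℝ≥0∞) (x + s • e)) := by
      have h1 : Measurable fun P : ℝ × (ℝ × ℝ) => P.2 + P.1 • e := by fun_prop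
      exact ((hF.measurable.enorm.pow_const 2).comp measurable_snd).mul
        ((measurable_one.indicator hY).comp h1)
    rw [lintegral_lintegral_swap hm4.aemeasurable]
    apply lintegral_congr
    intro x
    rw [lintegral_const_mul]
    exact (measurable_one.indicator hY).comp (by fun_prop)
  have hfarI : ∫⁻ x in Y, ∫⁻ s in Aᶜ, ‖κ s‖ₑ * ‖F (x - s • e)‖ₑ ^ 2 ≤ ε * ∫⁻ x, ‖F x‖ₑ ^ 2 := by
    calc ∫⁻ x in Y, ∫⁻ s in Aᶜ, ‖κ s‖ₑ * ‖F (x - s • e)‖ₑ ^ 2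
        ≤ ∫⁻ x, ∫⁻ s in Aᶜ, ‖κ s‖ₑ * ‖F (x - s • e)‖ₑ ^ 2 := setLIntegral_le_lintegral _ _
      _ = ∫⁻ s in Aᶜ, ∫⁻ x, ‖κ s‖ₑ * ‖F (x - s • e)‖ₑ ^ 2 :=
          lintegral_lintegral_swap hm2.aemeasurable
      _ = ∫⁻ s in Aᶜ, ‖κ s‖ₑ * ∫⁻ x, ‖F x‖ₑ ^ 2 := by
          apply lintegral_congr
          intro s
          have hmx : Measurable fun x : ℝ × ℝ => ‖F (x - s • e)‖ₑ ^ 2 :=
            (hF.comp (by fun_prop : Continuous fun x : ℝ × ℝ => x - s • e)).measurable.enorm.pow_const 2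
          rw [lintegral_const_mul _ hmx]
          congr 1
          exact lintegral_sub_right_eq_self (fun x => ‖F x‖ₑ ^ 2) (s • e)
      _ = (∫⁻ s in Aᶜ, ‖κ s‖ₑ) * ∫⁻ x, ‖F x‖ₑ ^ 2 := by
          rw [lintegral_mul_const _ hκ.measurable.enorm]
      _ ≤ ε * ∫⁻ x, ‖F x‖ₑ ^ 2 := by gcongr
  have hmN : ∀ c : ℕ, Measurable fun x => ‖∫ s in A, (κ s * F (x - s • e)) * ee (c * s / T)‖ₑ ^ 2 := by
    intro c
    have h1 : StronglyMeasurable (Function.uncurry fun (x : ℝ × ℝ) (s : ℝ) =>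
        (κ s * F (x - s • e)) * ee (c * s / T)) := by
      have h2 : Continuous (Function.uncurry fun (x : ℝ × ℝ) (s : ℝ) =>
          (κ s * F (x - s • e)) * ee (c * s / T)) := by
        have h3 : Continuous fun P : (ℝ × ℝ) × ℝ => F (P.1 - P.2 • e) := hF.comp (by fun_prop)
        exact ((hκ.comp continuous_snd).mul h3).mul ((hce c).comp continuous_snd)
      exact h2.stronglyMeasurable
    exact (h1.integral_prod_right' (ν := volume.restrict A)).measurable.enorm.pow_const 2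
  have hmFar : Measurable fun x => ∫⁻ s in Aᶜ, ‖κ s‖ₑ * ‖F (x - s • e)‖ₑ ^ 2 :=
    hm2.lintegral_prod_right'
  have hmNr : Measurable fun x => ∫⁻ s in A, ‖F (x - s • e)‖ₑ ^ 2 := hm1.lintegral_prod_right'
  calc ∑ c ∈ Finset.range n, ∫⁻ x in Y, ‖∫ s, (ee (c * s / T) * κ s) * F (x - s • e)‖ₑ ^ 2
      ≤ ∑ c ∈ Finset.range n, ∫⁻ x in Y,
          (2 * ‖∫ s in A, (κ s * F (x - s • e)) * ee (c * s / T)‖ₑ ^ 2 +
            2 * (ε * ∫⁻ s in Aᶜ, ‖κ s‖ₑ * ‖F (x - s • e)‖ₑ ^ 2)) := by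
        refine Finset.sum_le_sum fun c _ => lintegral_mono fun x => hpt x c
    _ = ∑ c ∈ Finset.range n,
          ((∫⁻ x in Y, 2 * ‖∫ s in A, (κ s * F (x - s • e)) * ee (c * s / T)‖ₑ ^ 2) +
            2 * (ε * ∫⁻ x in Y, ∫⁻ s in Aᶜ, ‖κ s‖ₑ * ‖F (x - s • e)‖ₑ ^ 2)) := by
        refine Finset.sum_congr rfl fun c _ => ?_
        rw [lintegral_add_left ((hmN c).const_mul 2), lintegral_const_mul _ (hmFar.const_mul ε),
          lintegral_const_mul _ hmFar]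
    _ = (∫⁻ x in Y, 2 * ∑ c ∈ Finset.range n,
            ‖∫ s in A, (κ s * F (x - s • e)) * ee (c * s / T)‖ₑ ^ 2) +
          n * (2 * (ε * ∫⁻ x in Y, ∫⁻ s in Aᶜ, ‖κ s‖ₑ * ‖F (x - s • e)‖ₑ ^ 2)) := by
        rw [Finset.sum_add_distrib, Finset.sum_const, Finset.card_range, nsmul_eq_mul,
          ← lintegral_finsetSum _ (fun c _ => (hmN c).const_mul 2)]
        congr 1
        apply lintegral_congr
        intro x
        rw [Finset.mul_sum]
    _ ≤ (∫⁻ x in Y, 2 * ((ENNReal.ofReal (2 * M * T) * ENNReal.ofReal T⁻¹ ^ 2) *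
            ∫⁻ s in A, ‖F (x - s • e)‖ₑ ^ 2)) +
          n * (2 * (ε * (ε * ∫⁻ x, ‖F x‖ₑ ^ 2))) := by
        gcongr with x
        exact hnear x
    _ = _ := by
        rw [lintegral_const_mul _ (hmNr.const_mul _), lintegral_const_mul _ hmNr, hnearI]
        ring

/-! ### The radial kernel -/

theorem Ex1_norm_le {H : ℝ → ℂ} {α β : ℝ} (hαβ : α ≤ β) (h1 : ∀ x, ‖H x‖ ≤ 1)
    (h0 : ∀ x, (x < α ∨ β < x) → H x = 0) (s : ℝ) : ‖Ex1 H s‖ ≤ β - α := by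
  unfold Ex1
  have hi : Integrable ((Icc α β).indicator (fun _ : ℝ => (1 : ℝ))) := by
    rw [integrable_indicator_iff measurableSet_Icc]
    exact integrableOn_const (by simp)
  refine (norm_integral_le_of_norm_le hi (Filter.Eventually.of_forall fun τ => ?_)).trans ?_
  · rw [norm_mul, Pool.Agent.KSP.Conv_.norm_ee, mul_one]
    by_cases hτ : τ ∈ Icc α β
    · rw [indicator_of_mem hτ]; exact h1 τ
    · rw [indicator_of_notMem hτ]
      have : τ < α ∨ β < τ := by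
        by_contra hcon
        push Not at hcon
        exact hτ ⟨hcon.1, hcon.2⟩
      rw [h0 τ this, norm_zero]
  · rw [integral_indicator measurableSet_Icc, setIntegral_const]
    simp [hαβ]

theorem kernel (hPSI : Pool.Agent.LLog.tPSI) (a m l : ℕ) (sg : ℝ) (ha : 20 ≤ a) (hm : m < 2 ^ a)
    (hm1 : 1 ≤ m) :
    Bd1 (fun τ => (psR a m sg l 0 τ : ℂ)) ∧
    Integrable (Ex1 (fun τ => (psR a m sg l 0 τ : ℂ))) ∧
    (∀ s, ‖Ex1 (fun τ => (psR a m sg l 0 τ : ℂ)) s‖ ≤ ((4 : ℝ) ^ l)⁻¹) ∧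
    ∫⁻ s in (Ico (-(((2 ^ (6 * a) : ℕ) : ℝ) * 4 ^ l)) (((2 ^ (6 * a) : ℕ) : ℝ) * 4 ^ l))ᶜ,
      ‖Ex1 (fun τ => (psR a m sg l 0 τ : ℂ)) s‖ₑ ≤ ENNReal.ofReal (1 / 2 ^ (40 * m)) := by
  have h4 : (0 : ℝ) < 4 ^ l := by positivity
  have hη : (1 : ℝ) / 2 ^ (4 * a + 1) ≤ 1 / 4 := by
    apply one_div_le_one_div_of_le (by norm_num)
    calc (4 : ℝ) = 2 ^ 2 := by norm_num
      _ ≤ 2 ^ (4 * a + 1) := pow_le_pow_right₀ (by norm_num) (by omega)
  have hη0 : (0 : ℝ) < 1 / 2 ^ (4 * a + 1) := by positivity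
  set α : ℝ := sg + ((0 : ℕ) + 1 / 2 ^ (4 * a + 1)) / 4 ^ l with hα
  set β : ℝ := sg + ((0 : ℕ) + 1 - 1 / 2 ^ (4 * a + 1)) / 4 ^ l with hβ
  set δ : ℝ := 1 / 2 ^ (4 * a + 1) / 4 ^ l with hδ
  have hδ0 : 0 < δ := by positivity
  have hab : α + 2 * δ ≤ β := by
    rw [hα, hβ, hδ]
    have : (((0 : ℕ) : ℝ) + 1 / 2 ^ (4 * a + 1)) / 4 ^ l + 2 * (1 / 2 ^ (4 * a + 1) / 4 ^ l) ≤
        (((0 : ℕ) : ℝ) + 1 - 1 / 2 ^ (4 * a + 1)) / 4 ^ l := by
      rw [← mul_div_assoc, ← add_div]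
      apply div_le_div_of_nonneg_right _ h4.le
      push_cast
      linarith
    linarith
  have hba : β - α ≤ ((4 : ℝ) ^ l)⁻¹ := by
    rw [hα, hβ]
    have : (((0 : ℕ) : ℝ) + 1 - 1 / 2 ^ (4 * a + 1)) / 4 ^ l -
        (((0 : ℕ) : ℝ) + 1 / 2 ^ (4 * a + 1)) / 4 ^ l ≤ ((4 : ℝ) ^ l)⁻¹ := by
      rw [← sub_div, inv_eq_one_div]
      apply div_le_div_of_nonneg_right _ h4.le
      push_cast
      linarith
    linarith
  have hψ : psR a m sg l 0 = psi (40 * m) α β δ := by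
    unfold psR
    rfl
  obtain ⟨p1, p2, -, p4, p5, p6⟩ := hPSI (40 * m) α β δ (by omega) hδ0 hab
  have hn1 : ∀ x, ‖((psR a m sg l 0 x : ℝ) : ℂ)‖ ≤ 1 := by
    intro x
    rw [Complex.norm_real, Real.norm_eq_abs, hψ, abs_of_nonneg (p2 x).1]
    exact (p2 x).2
  have hn0 : ∀ x, (x < α ∨ β < x) → ((psR a m sg l 0 x : ℝ) : ℂ) = 0 := by
    intro x hx
    rw [hψ, p4 x hx, Complex.ofReal_zero]
  have hBd : Bd1 (fun τ => (psR a m sg l 0 τ : ℂ)) := by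
    refine ⟨?_, ⟨1, hn1⟩, |α| + |β|, fun x hx => ?_⟩
    · rw [hψ]; exact Complex.measurable_ofReal.comp p1
    · have h1 : ¬ (x < α ∨ β < x) := fun h' => hx (hn0 x h')
      push Not at h1
      rw [abs_le]
      constructor
      · have := neg_abs_le α; have := abs_nonneg β; linarith [h1.1]
      · have := le_abs_self β; have := abs_nonneg α; linarith [h1.2]
  have hcont := (Pool.Agent.KSP.pPl1 _ hBd).1
  refine ⟨hBd, ?_, ?_, ?_⟩
  · refine ⟨hcont.aestronglyMeasurable, ?_⟩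
    rw [hasFiniteIntegral_iff_enorm]
    rw [hψ]
    exact p6.trans_lt ENNReal.ofReal_lt_top
  · intro s
    exact (Ex1_norm_le (by linarith) hn1 hn0 s).trans hba
  · rw [hψ]
    refine le_trans (lintegral_mono_set ?_) p5
    intro s hs
    change ((40 * m : ℕ) : ℝ) / δ < |s|
    have h2 : ((40 * m : ℕ) : ℝ) / δ = (80 * m) * 2 ^ (4 * a) * 4 ^ l := by
      rw [hδ]
      push_cast
      field_simp
      ring
    have h3 : (80 * (m : ℝ)) * 2 ^ (4 * a) * 4 ^ l < ((2 ^ (6 * a) : ℕ) : ℝ) * 4 ^ l := by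
      have h5 : (80 : ℝ) * m < 2 ^ (2 * a) := by
        have h6 : (m : ℝ) < 2 ^ a := by exact_mod_cast hm
        have h7 : (80 : ℝ) ≤ 2 ^ a := by
          calc (80 : ℝ) ≤ 2 ^ 20 := by norm_num
            _ ≤ 2 ^ a := pow_le_pow_right₀ (by norm_num) ha
        have h8 : (2 : ℝ) ^ (2 * a) = 2 ^ a * 2 ^ a := by rw [two_mul, pow_add]
        have h9 : (0 : ℝ) < 2 ^ a := by positivity
        rw [h8]
        nlinarith
      have h10 : (((2 ^ (6 * a) : ℕ)) : ℝ) = 2 ^ (2 * a) * 2 ^ (4 * a) := by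
        push_cast
        rw [← pow_add]
        congr 1
        omega
      rw [h10]
      have h11 : (0 : ℝ) < 2 ^ (4 * a) := by positivity
      exact mul_lt_mul_of_pos_right (mul_lt_mul_of_pos_right h5 h11) h4
    rw [h2]
    refine h3.trans_le ?_
    have h12 : ¬ (-(((2 ^ (6 * a) : ℕ) : ℝ) * 4 ^ l) ≤ s ∧ s < ((2 ^ (6 * a) : ℕ) : ℝ) * 4 ^ l) := hs
    by_contra hcon
    push Not at hcon
    apply h12
    rw [abs_lt] at hcon
    exact ⟨hcon.1.le, hcon.2⟩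

end EBS_

open EBS_ in
theorem pEBS (hBES : tBES) (hMUC : tMUC) (hPPP : tPPP) (hPSI : Pool.Agent.LLog.tPSI)
    (hFRM : Pool.Agent.LLog.tFRM) (hHAT : Pool.Agent.LLog.tHAT) : tEBS := by
  intro a m l c0 p sg sl Y g hHP hp hY hg
  have hHP' := hHP
  obtain ⟨⟨ha, hma, -⟩, hal, hlm, -, -, -, -⟩ := hHP
  have hm1 : 1 ≤ m := by omega
  obtain ⟨hPB, hP1, -, -, -⟩ := hPPP a m l c0 p sg sl hHP' hp
  obtain ⟨hhc, ⟨Bh, hBh⟩, hhn, -⟩ := hHAT g hg
  obtain ⟨hκB, hκi, hκb, hκt⟩ := kernel hPSI a m l sg ha hma hm1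
  set t := tp sl (l + 8 * a) p with ht
  set k : ℝ × ℝ → ℂ := fun ξ => Pp a m sg sl l c0 p ξ * hat g ξ with hk
  set κ := Ex1 (fun τ => (psR a m sg l 0 τ : ℂ)) with hκ
  have hkB : Bd k := by
    obtain ⟨q1, -, R, q3⟩ := hPB
    refine ⟨q1.mul hhc.measurable, ⟨1 * |Bh|, fun ξ => ?_⟩, R, fun ξ hξ => q3 ξ ?_⟩
    · rw [hk, norm_mul]
      exact mul_le_mul (hP1 ξ) ((hBh ξ).trans (le_abs_self _)) (norm_nonneg _) zero_le_one
    · intro h
      apply hξ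
      rw [hk]
      simp only [h, zero_mul]
  obtain ⟨hFc, hFn⟩ := Pool.Agent.KSP.pPl2 k hkB
  have hFb : ∀ x, ‖Ex k x‖ ≤ ∫ ξ, ‖k ξ‖ := by
    intro x
    unfold Ex
    refine (norm_integral_le_integral_norm _).trans (le_of_eq ?_)
    apply integral_congr_ae
    refine Filter.Eventually.of_forall fun ξ => ?_
    simp only [norm_mul, Pool.Agent.KSP.Conv_.norm_ee, mul_one]
  have h4 : (0 : ℝ) < 4 ^ l := by positivity
  have hcore := core_est hBES (2 * 4 ^ l) (2 ^ (6 * a)) (4 ^ l) h4 (nv t) (Ex k) hFc _ hFb κ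
    (Pool.Agent.KSP.pPl1 _ hκB).1 hκi hκb _ hκt Y hY
  -- the pieces are convolutions
  have hpiece : ∀ c ∈ (CC l).filter (fun c => c / 4 ^ (l - 3 * a) = c0), ∀ x,
      VV a m sg sl l g c p x ≤
        ‖∫ s, (ee (c * s / 4 ^ l) * κ s) * Ex k (x - s • nv t)‖ₑ ^ 2 := by
    intro c hc x
    rw [Finset.mem_filter] at hc
    unfold VV vv
    by_cases h1 : (1 : ℝ) ≤ sg + c / 4 ^ l
    · have hfac := (hMUC a m l c p sg sl hHP' hc.1 hp).2 h1
      have e1 : (fun ξ => Mu a m sg sl l c p ξ * hat g ξ) =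
          fun ξ => (fun τ => (psR a m sg l c τ : ℂ)) (dot ξ (nv t)) * k ξ := by
        funext ξ
        rw [hfac ξ, hc.2, hk]
        ring
      have e2 : (fun τ => (psR a m sg l c τ : ℂ)) =
          fun τ => (fun τ => (psR a m sg l 0 τ : ℂ)) (τ - c / 4 ^ l) := by
        funext τ
        simp only [psR_sub a m l c sg τ]
      have hcB : Bd1 (fun τ => (psR a m sg l c τ : ℂ)) := by
        rw [e2]
        obtain ⟨q1, ⟨B, hB⟩, R, q3⟩ := hκB
        refine ⟨q1.comp (measurable_id.sub_const _), ⟨B, fun τ => hB _⟩, R + |(c : ℝ) / 4 ^ l|,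
          fun τ hτ => ?_⟩
        have h5 := q3 (τ - c / 4 ^ l) hτ
        have h6 := abs_add_le (τ - c / 4 ^ l) ((c : ℝ) / 4 ^ l)
        rw [sub_add_cancel] at h6
        linarith
      rw [e1, conv_line hFRM hcB hkB t x]
      apply le_of_eq
      congr 2
      apply integral_congr_ae
      refine Filter.Eventually.of_forall fun s => ?_
      change Ex1 (fun τ => (psR a m sg l c τ : ℂ)) s * Ex k (x - s • nv t) =
        (ee (c * s / 4 ^ l) * κ s) * Ex k (x - s • nv t)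
      congr 1
      rw [e2, Ex1_sub (fun τ => (psR a m sg l 0 τ : ℂ)) (c / 4 ^ l) s]
      congr 2
      ring
    · have e1 : (fun ξ => Mu a m sg sl l c p ξ * hat g ξ) = fun _ => 0 := by
        funext ξ
        unfold Mu
        rw [if_neg h1, zero_mul]
      rw [e1]
      unfold Ex
      simp
  have hsum : ∑ c ∈ (CC l).filter (fun c => c / 4 ^ (l - 3 * a) = c0),
      ∫⁻ x in Y, VV a m sg sl l g c p x ≤
      ∑ c ∈ Finset.range (2 * 4 ^ l), ∫⁻ x in Y,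
        ‖∫ s, (ee (c * s / 4 ^ l) * κ s) * Ex k (x - s • nv t)‖ₑ ^ 2 := by
    refine (Finset.sum_le_sum fun c hc => lintegral_mono fun x => hpiece c hc x).trans ?_
    apply Finset.sum_le_sum_of_subset
    exact Finset.filter_subset _ _
  refine hsum.trans (hcore.trans ?_)
  have hM : (((2 ^ (6 * a) : ℕ)) : ℝ) = 2 ^ (6 * a) := by push_cast; rfl
  have hL : (4 : ℝ) ^ l * 2 ^ (6 * a) = ((2 ^ (6 * a) : ℕ) : ℝ) * 4 ^ l := by rw [hM]; ring
  have hL0 : (0 : ℝ) < ((2 ^ (6 * a) : ℕ) : ℝ) * 4 ^ l := by rw [hM]; positivity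
  gcongr ?_ + ?_
  · -- main term
    have hin : ∀ x, ∫⁻ s in Ico (-(((2 ^ (6 * a) : ℕ) : ℝ) * 4 ^ l))
        (((2 ^ (6 * a) : ℕ) : ℝ) * 4 ^ l), Y.indicator (1 : ℝ × ℝ → ℝ≥0∞) (x + s • nv t) ≤
        ENNReal.ofReal (2 * (((2 ^ (6 * a) : ℕ) : ℝ) * 4 ^ l)) *
          sa t (4 ^ l * 2 ^ (6 * a)) Y x := by
      intro x
      unfold sa
      rw [hL, ← mul_assoc, ENNReal.mul_inv_cancel (by
        rw [Ne, ENNReal.ofReal_eq_zero, not_le]; positivity) ENNReal.ofReal_ne_top, one_mul]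
      exact lintegral_mono_set Ico_subset_Icc_self
    calc 2 * (ENNReal.ofReal (2 * ((2 ^ (6 * a) : ℕ) : ℝ) * 4 ^ l) *
          ENNReal.ofReal (4 ^ l)⁻¹ ^ 2) *
          (∫⁻ x, ‖Ex k x‖ₑ ^ 2 * ∫⁻ s in Ico (-(((2 ^ (6 * a) : ℕ) : ℝ) * 4 ^ l))
            (((2 ^ (6 * a) : ℕ) : ℝ) * 4 ^ l), Y.indicator 1 (x + s • nv t))
        ≤ 2 * (ENNReal.ofReal (2 * ((2 ^ (6 * a) : ℕ) : ℝ) * 4 ^ l) *
          ENNReal.ofReal (4 ^ l)⁻¹ ^ 2) *
          (∫⁻ x, ENNReal.ofReal (2 * (((2 ^ (6 * a) : ℕ) : ℝ) * 4 ^ l)) *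
            (‖Ex k x‖ₑ ^ 2 * sa t (4 ^ l * 2 ^ (6 * a)) Y x)) := by
          refine mul_le_mul' le_rfl (lintegral_mono fun x => ?_)
          have h := mul_le_mul' (le_refl (‖Ex k x‖ₑ ^ 2)) (hin x)
          refine h.trans (le_of_eq ?_)
          ring
      _ = (2 * (ENNReal.ofReal (2 * ((2 ^ (6 * a) : ℕ) : ℝ) * 4 ^ l) *
          ENNReal.ofReal (4 ^ l)⁻¹ ^ 2) *
            ENNReal.ofReal (2 * (((2 ^ (6 * a) : ℕ) : ℝ) * 4 ^ l))) *
          ∫⁻ x, ‖Ex k x‖ₑ ^ 2 * sa t (4 ^ l * 2 ^ (6 * a)) Y x := by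
          rw [lintegral_const_mul' _ _ ENNReal.ofReal_ne_top]
          ring
      _ ≤ 2 ^ (13 * a) * ∫⁻ x, ‖Ex k x‖ₑ ^ 2 * sa t (4 ^ l * 2 ^ (6 * a)) Y x := by
          gcongr
          have e2 : (2 : ℝ≥0∞) = ENNReal.ofReal 2 := by simp
          have e3 : (2 : ℝ≥0∞) ^ (13 * a) = ENNReal.ofReal (2 ^ (13 * a)) := by
            rw [ENNReal.ofReal_pow (by norm_num)]; simp
          rw [e3]
          conv_lhs => rw [e2]
          rw [← ENNReal.ofReal_pow (by positivity), ← ENNReal.ofReal_mul (by positivity),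
            ← ENNReal.ofReal_mul (by norm_num), ← ENNReal.ofReal_mul (by positivity)]
          apply ENNReal.ofReal_le_ofReal
          rw [hM]
          have e4 : 2 * (2 * 2 ^ (6 * a) * 4 ^ l * ((4 : ℝ) ^ l)⁻¹ ^ 2) *
              (2 * (2 ^ (6 * a) * 4 ^ l)) = 8 * 2 ^ (12 * a) := by
            have e5 : (2 : ℝ) ^ (12 * a) = 2 ^ (6 * a) * 2 ^ (6 * a) := by
              rw [← pow_add]; congr 1; omega
            rw [e5]
            field_simp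
            ring
          rw [e4]
          calc (8 : ℝ) * 2 ^ (12 * a) ≤ 2 ^ a * 2 ^ (12 * a) := by
                have e6 : (8 : ℝ) ≤ 2 ^ a := by
                  calc (8 : ℝ) ≤ 2 ^ 20 := by norm_num
                    _ ≤ 2 ^ a := pow_le_pow_right₀ (by norm_num) ha
                gcongr
            _ = 2 ^ (13 * a) := by rw [← pow_add]; congr 1; omega
  · -- error term
    have hF2 : ∫⁻ x, ‖Ex k x‖ₑ ^ 2 ≤ ∫⁻ x, ‖g x‖ₑ ^ 2 := by
      rw [hFn, ← hhn]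
      unfold n2
      apply lintegral_mono
      intro ξ
      change ‖Pp a m sg sl l c0 p ξ * hat g ξ‖ₑ ^ 2 ≤ ‖hat g ξ‖ₑ ^ 2
      gcongr
      rw [enorm_mul]
      calc ‖Pp a m sg sl l c0 p ξ‖ₑ * ‖hat g ξ‖ₑ ≤ 1 * ‖hat g ξ‖ₑ := by
            gcongr
            rw [← ofReal_norm]
            exact ENNReal.ofReal_le_one.2 (hP1 ξ)
        _ = _ := one_mul _
    have hconst : (2 : ℝ≥0∞) * ((2 * 4 ^ l : ℕ) : ℝ≥0∞) * ENNReal.ofReal (1 / 2 ^ (40 * m)) ^ 2 ≤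
        ENNReal.ofReal (1 / 2 ^ (30 * m)) := by
      have e2 : (2 : ℝ≥0∞) * ((2 * 4 ^ l : ℕ) : ℝ≥0∞) = ENNReal.ofReal (2 * (2 * 4 ^ l)) := by
        rw [ENNReal.ofReal_mul (by norm_num)]
        have e3 : ((2 * 4 ^ l : ℕ) : ℝ≥0∞) = ENNReal.ofReal (((2 * 4 ^ l : ℕ)) : ℝ) := by
          rw [ENNReal.ofReal_natCast]
        rw [e3]
        push_cast
        simp
      rw [e2, ← ENNReal.ofReal_pow (by positivity), ← ENNReal.ofReal_mul (by positivity)]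
      apply ENNReal.ofReal_le_ofReal
      have e4 : (4 : ℝ) ^ l ≤ 2 ^ (2 * m) := by
        calc (4 : ℝ) ^ l ≤ 4 ^ m := pow_le_pow_right₀ (by norm_num) hlm
          _ = 2 ^ (2 * m) := by rw [pow_mul]; norm_num
      have e5 : (2 : ℝ) * (2 * 4 ^ l) ≤ 2 ^ (50 * m) := by
        calc (2 : ℝ) * (2 * 4 ^ l) ≤ 2 * (2 * 2 ^ (2 * m)) := by gcongr
          _ = 2 ^ (2 * m + 2) := by ring
          _ ≤ 2 ^ (50 * m) := pow_le_pow_right₀ (by norm_num) (by omega)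
      have e6 : (1 : ℝ) / 2 ^ (30 * m) = 2 ^ (50 * m) * (1 / 2 ^ (40 * m)) ^ 2 := by
        have e7 : ((1 : ℝ) / 2 ^ (40 * m)) ^ 2 = 1 / (2 ^ (50 * m) * 2 ^ (30 * m)) := by
          rw [div_pow, one_pow, ← pow_mul, ← pow_add]
          congr 2
          omega
        rw [e7]
        field_simp
      rw [e6]
      gcongr
    calc _ ≤ (2 : ℝ≥0∞) * ((2 * 4 ^ l : ℕ) : ℝ≥0∞) * ENNReal.ofReal (1 / 2 ^ (40 * m)) ^ 2 *
          ∫⁻ x, ‖g x‖ₑ ^ 2 := by gcongr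
      _ ≤ _ := by gcongr

end Pool.Agent.SLog
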