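import Pool.Agent.SLog.EndTargets
import Pool.Agent.KSP.DS
import Pool.Agent.LLog.EndDS

set_option autoImplicit false

/-! S6: strong type bound for the maximal operator over separated radii. -/

namespace Pool.Agent.SEnd

open MeasureTheory FourierTransform Set Filter Topology
open scoped ENNReal NNReal
open Pool.Agent.MBS (E ex T S Sstar et ps mul pm Tstar Pstar MF)
open Pool.Agent.KSP (lg IE BdE muS BI tPlE)
open Pool.Agent.LLog (EDS_.choose_m)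

open Pool.Agent.KSP.Oct_ Pool.Agent.KSP.DS_ in
theorem pDSs (α : ℕ) (hSS : tSSs α) (hP : KSP.tPlE) : tDSs α := by
  obtain ⟨K, hK⟩ := hSS
  obtain ⟨C1, hC1⟩ := MBS.pPdom 2
  obtain ⟨C2, hC2⟩ := MBS.pMF2 2
  refine ⟨9 * (1 + C1 ^ 2 * C2 + K) * 4 ^ α, fun δ A f hδ hδ2 hA hsep hfm hf h2 => ?_⟩
  obtain ⟨m, hm, hmδ, hml⟩ := LLog.EDS_.choose_m hδ hδ2
  have hH : Continuous (𝓕 f) := MBS.J8.fourier_cont hf
  have hHm : Measurable (fun ξ => ‖𝓕 f ξ‖ₑ ^ 2) := hH.measurable.enorm.pow_const 2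
  have hcount : Countable A := (KSP.DS_.countable hδ hA hsep).to_subtype
  set X : ℝ≥0∞ := ((lg m : ℕ) : ℝ≥0∞) ^ α with hX
  -- the disjoint pieces
  have hBm : ∀ R : A, Measurable fun x => ‖IE (cut (bm m R) (𝓕 f)) x‖ₑ ^ 2 := fun R =>
    (hP _ (bm_BdE m (hA R R.2) hH)).1.measurable.enorm.pow_const 2
  have hBs : ∫⁻ x, ∑' R : A, ‖IE (cut (bm m R) (𝓕 f)) x‖ₑ ^ 2 ≤ ∫⁻ x, ‖f x‖ₑ ^ 2 := by
    rw [lintegral_tsum fun R => (hBm R).aemeasurable]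
    have h3 : ∀ R : A, ∫⁻ x, ‖IE (cut (bm m R) (𝓕 f)) x‖ₑ ^ 2 =
        ∫⁻ ξ, ‖cut (bm m R) (𝓕 f) ξ‖ₑ ^ 2 := fun R => (hP _ (bm_BdE m (hA R R.2) hH)).2
    simp only [h3]
    rw [← lintegral_tsum fun R : A => ((bm_BdE m (hA R R.2) hH).1.enorm.pow_const 2).aemeasurable,
      ← MBS.J8.plancherel_sq hf h2]
    refine lintegral_mono fun ξ => ?_
    by_cases hex : ∃ R : A, bm m R ξ ≠ 0
    · obtain ⟨R, hR⟩ := hex
      rw [tsum_eq_single R]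
      · unfold cut
        gcongr
        rw [enorm_mul]
        calc _ ≤ 1 * ‖𝓕 f ξ‖ₑ := by
              gcongr
              rw [← ofReal_norm, Complex.norm_real, Real.norm_eq_abs,
                abs_of_nonneg (bm_bd m (hA R R.2) ξ).1]
              exact ENNReal.ofReal_le_one.2 (bm_bd m (hA R R.2) ξ).2
          _ = _ := one_mul _
      · intro R' hne
        have h4 : bm m R' ξ = 0 := by
          by_contra h5
          rcases lt_or_gt_of_ne (fun h => hne (Subtype.ext h) : (R' : ℝ) ≠ R) with h | h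
          · exact KSP.DS_.disj hmδ (hA _ R'.2) (hA _ R.2) (hsep _ R'.2 _ R.2 h) h5 hR
          · exact KSP.DS_.disj hmδ (hA _ R.2) (hA _ R'.2) (hsep _ R.2 _ R'.2 h) hR h5
        unfold cut
        rw [h4]
        simp
    · push Not at hex
      have h5 : ∀ R : A, ‖cut (bm m R) (𝓕 f) ξ‖ₑ ^ 2 = 0 := by
        intro R
        unfold cut
        rw [hex R]
        simp
      simp only [h5, tsum_zero]
      exact bot_le
  -- the smooth part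
  have hMF : ∫⁻ x, (C1 * MF (fun y => ‖f y‖ₑ) x) ^ 2 ≤ C1 ^ 2 * C2 * ∫⁻ x, ‖f x‖ₑ ^ 2 := by
    simp only [mul_pow]
    rw [lintegral_const_mul _ ((MBS.J11.measurable_MF _).pow_const 2), mul_assoc]
    gcongr
    exact hC2 _ hfm.enorm
  have hMm : Measurable fun x => (C1 * MF (fun y => ‖f y‖ₑ) x) ^ 2 :=
    ((MBS.J11.measurable_MF _).const_mul _).pow_const 2
  set Z : E 2 → ℝ≥0∞ := fun x => ⨆ (R : ℝ) (_ : 0 < R), ‖T (muS m R) (𝓕 f) x‖ₑ with hZ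
  have hZb : ∫⁻ x, Z x ^ 2 ≤ K * X * ∫⁻ x, ‖f x‖ₑ ^ 2 := hK m f hm hf h2
  have hpt : ∀ x, (⨆ R ∈ A, ‖S f R x‖ₑ) ^ 2 ≤
      9 * ((∑' R : A, ‖IE (cut (bm m R) (𝓕 f)) x‖ₑ ^ 2) +
        (C1 * MF (fun y => ‖f y‖ₑ) x) ^ 2 + Z x ^ 2) := by
    intro x
    set Y := 9 * ((∑' R : A, ‖IE (cut (bm m R) (𝓕 f)) x‖ₑ ^ 2) +
        (C1 * MF (fun y => ‖f y‖ₑ) x) ^ 2 + Z x ^ 2) with hY
    have h3 : (⨆ R ∈ A, ‖S f R x‖ₑ) ≤ Y ^ (1 / 2 : ℝ) := by
      refine iSup₂_le fun R hR => ?_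
      have h4 : ‖S f R x‖ₑ ^ 2 ≤ Y := by
        calc ‖S f R x‖ₑ ^ 2 ≤
            (‖IE (cut (bm m R) (𝓕 f)) x‖ₑ + C1 * MF (fun y => ‖f y‖ₑ) x + Z x) ^ 2 := by
              gcongr
              rw [KSP.DS_.split m f hf (hA R hR) x]
              refine (enorm_add_le _ _).trans ?_
              refine add_le_add ((enorm_add_le _ _).trans (add_le_add le_rfl ?_)) ?_
              · refine le_trans ?_ (hC1 f hf x)
                unfold MBS.Pstar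
                exact le_iSup₂_of_le R (hA R hR) le_rfl
              · rw [hZ]
                exact le_iSup₂_of_le R (hA R hR) le_rfl
          _ ≤ 9 * (‖IE (cut (bm m R) (𝓕 f)) x‖ₑ ^ 2 +
              (C1 * MF (fun y => ‖f y‖ₑ) x) ^ 2 + Z x ^ 2) := sq3 _ _ _
          _ ≤ Y := by
              rw [hY]
              gcongr
              exact ENNReal.le_tsum (f := fun R : A => ‖IE (cut (bm m R) (𝓕 f)) x‖ₑ ^ 2) ⟨R, hR⟩
      calc ‖S f R x‖ₑ = (‖S f R x‖ₑ ^ 2) ^ (1 / 2 : ℝ) := by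
            rw [← ENNReal.rpow_natCast, ← ENNReal.rpow_mul]; norm_num
        _ ≤ Y ^ (1 / 2 : ℝ) := ENNReal.rpow_le_rpow h4 (by norm_num)
    calc _ ≤ (Y ^ (1 / 2 : ℝ)) ^ 2 := pow_le_pow_left' h3 2
      _ = Y := by rw [← ENNReal.rpow_natCast, ← ENNReal.rpow_mul]; norm_num
  have hone : (1 : ℝ≥0∞) ≤ X := by
    have h3 : 1 ≤ (lg m) ^ α := Nat.one_le_pow _ _ (by unfold KSP.lg; omega)
    rw [hX]
    exact_mod_cast h3
  have hXle : X ≤ 4 ^ α * ENNReal.ofReal (Real.log (3 + Real.log δ⁻¹) ^ α) := by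
    rw [hX, ← ENNReal.ofReal_natCast, ← ENNReal.ofReal_pow (by positivity)]
    calc ENNReal.ofReal (((lg m : ℕ) : ℝ) ^ α) ≤
        ENNReal.ofReal ((4 * Real.log (3 + Real.log δ⁻¹)) ^ α) :=
          ENNReal.ofReal_le_ofReal (pow_le_pow_left₀ (by positivity) hml α)
      _ = _ := by
          rw [mul_pow, ENNReal.ofReal_mul (by positivity), ENNReal.ofReal_pow (by norm_num)]
          norm_num
  have mB : Measurable fun x => ∑' R : A, ‖IE (cut (bm m R) (𝓕 f)) x‖ₑ ^ 2 :=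
    Measurable.tsum hBm
  have mBM : Measurable fun x => (∑' R : A, ‖IE (cut (bm m R) (𝓕 f)) x‖ₑ ^ 2) +
      (C1 * MF (fun y => ‖f y‖ₑ) x) ^ 2 := mB.add hMm
  calc _ ≤ ∫⁻ x, 9 * ((∑' R : A, ‖IE (cut (bm m R) (𝓕 f)) x‖ₑ ^ 2) +
        (C1 * MF (fun y => ‖f y‖ₑ) x) ^ 2 + Z x ^ 2) := lintegral_mono hpt
    _ = 9 * ((∫⁻ x, ∑' R : A, ‖IE (cut (bm m R) (𝓕 f)) x‖ₑ ^ 2) +
        (∫⁻ x, (C1 * MF (fun y => ‖f y‖ₑ) x) ^ 2) + ∫⁻ x, Z x ^ 2) := by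
        rw [lintegral_const_mul' _ _ (by norm_num), lintegral_add_left mBM,
          lintegral_add_left mB]
    _ ≤ 9 * (X * (∫⁻ x, ‖f x‖ₑ ^ 2) + C1 ^ 2 * C2 * (X * ∫⁻ x, ‖f x‖ₑ ^ 2) +
        K * X * ∫⁻ x, ‖f x‖ₑ ^ 2) := by
        have h7 : ∫⁻ x, ‖f x‖ₑ ^ 2 ≤ X * ∫⁻ x, ‖f x‖ₑ ^ 2 := by
          calc _ = 1 * ∫⁻ x, ‖f x‖ₑ ^ 2 := (one_mul _).symm
            _ ≤ _ := by gcongr
        gcongr
        · exact hBs.trans h7
        · exact hMF.trans (by gcongr)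
    _ = 9 * (1 + C1 ^ 2 * C2 + K) * X * ∫⁻ x, ‖f x‖ₑ ^ 2 := by ring
    _ ≤ 9 * (1 + C1 ^ 2 * C2 + K) *
        (4 ^ α * ENNReal.ofReal (Real.log (3 + Real.log δ⁻¹) ^ α)) *
          ∫⁻ x, ‖f x‖ₑ ^ 2 := by gcongr
    _ = _ := by
        push_cast
        ring

end Pool.Agent.SEnd
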