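import Pool.Agent.SLog.EndTargets
import Pool.Agent.KSP.Etm

set_option autoImplicit false

/-! EETM: the multipliers `et(2^m u)` on one octave (strong form). -/

namespace Pool.Agent.SEnd

open MeasureTheory FourierTransform Set Filter Topology
open scoped ENNReal NNReal
open Pool.Agent.MBS (E ex T S Sstar et ps mul pm Tstar Pstar MF Fam DerR vv)
open Pool.Agent.KSP (lg IE BdE muS BI)
open Pool.Agent.KSP.Etm_

namespace EETM_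

section main

variable {m : ℕ} {c : ℝ} {θ : E 2 → ℝ} {h : E 2 → ℂ}

/-- the radii `ρ_k` -/
theorem radii (α : ℕ) (hP : KSP.tPlE) {C : ℝ≥0}
    (hK : ∀ (m : ℕ) (c : ℝ) (h : E 2 → ℂ), 1 ≤ m → 0 < c → BdE h →
      ∫⁻ x, (⨆ k ∈ Finset.range (2 ^ m),
        ‖IE ({ξ : E 2 | c ≤ ‖ξ‖ ∧ ‖ξ‖ < c * (1 + k / 2 ^ m)}.indicator h) x‖ₑ) ^ 2 ≤
      C * ((lg m : ℕ) : ℝ≥0∞) ^ α * ∫⁻ ξ in {ξ : E 2 | c ≤ ‖ξ‖ ∧ ‖ξ‖ < 2 * c}, ‖h ξ‖ₑ ^ 2)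
    (hm : 1 ≤ m) (hc : 0 < c) (hθ : Continuous θ) (hh : Continuous h) :
    ∫⁻ x, (⨆ k ∈ Finset.range (2 ^ m), ‖T (A m θ (c * (1 + k / 2 ^ m))) h x‖ₑ) ^ 2 ≤
      9 * (2 + C * ((lg m : ℕ) : ℝ≥0∞) ^ α) * ∫⁻ ξ, ‖H c θ h ξ‖ₑ ^ 2 := by
  have s1 : MeasurableSet {ξ : E 2 | ‖ξ‖ < c} := measurableSet_lt measurable_norm measurable_const
  have s2 : ∀ k : ℕ, MeasurableSet {ξ : E 2 | c ≤ ‖ξ‖ ∧ ‖ξ‖ < c * (1 + k / 2 ^ m)} := fun k =>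
    (measurableSet_le measurable_const measurable_norm).inter
      (measurableSet_lt measurable_norm measurable_const)
  have hH := bd_H (θ := θ) (h := h) c hθ hh
  have p1 := hP _ (bdE_indicator hH s1)
  have p2 := fun k => hP _ (bdE_indicator hH (s2 k))
  have p3 := fun k => hP _ (bd_G3 m c hθ hh k)
  have hpt : ∀ x, (⨆ k ∈ Finset.range (2 ^ m), ‖T (A m θ (c * (1 + k / 2 ^ m))) h x‖ₑ) ^ 2 ≤
      9 * (‖IE ({ξ : E 2 | ‖ξ‖ < c}.indicator (H c θ h)) x‖ₑ ^ 2 +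
        (⨆ k ∈ Finset.range (2 ^ m),
          ‖IE ({ξ : E 2 | c ≤ ‖ξ‖ ∧ ‖ξ‖ < c * (1 + k / 2 ^ m)}.indicator (H c θ h)) x‖ₑ) ^ 2 +
        ∑ k ∈ Finset.range (2 ^ m), ‖IE (G3 m c θ h k) x‖ₑ ^ 2) := by
    intro x
    refine sq_iSup_le (s := (Finset.range (2 ^ m) : Set ℕ)) fun k hk => ?_
    have hk' : k < 2 ^ m := by simpa using hk
    rw [decomp hc hθ hh hk' x]
    refine (pow_le_pow_left' ((enorm_add_le _ _).trans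
      (add_le_add_left (enorm_add_le _ _) _)) 2).trans ?_
    refine (sq_three _ _ _).trans ?_
    gcongr
    · exact le_iSup₂_of_le k hk le_rfl
    · exact Finset.single_le_sum (f := fun k => ‖IE (G3 m c θ h k) x‖ₑ ^ 2)
        (fun _ _ => bot_le) (Finset.mem_range.mpr hk')
  have m1 : Measurable (fun x => ‖IE ({ξ : E 2 | ‖ξ‖ < c}.indicator (H c θ h)) x‖ₑ ^ 2) :=
    (p1.1.enorm.measurable).pow_const 2
  have m2 : Measurable (fun x => (⨆ k ∈ Finset.range (2 ^ m),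
      ‖IE ({ξ : E 2 | c ≤ ‖ξ‖ ∧ ‖ξ‖ < c * (1 + k / 2 ^ m)}.indicator (H c θ h)) x‖ₑ) ^ 2) := by
    refine Measurable.pow_const ?_ 2
    exact Measurable.iSup fun k => Measurable.iSup fun _ => (p2 k).1.enorm.measurable
  have m3 : ∀ k, Measurable (fun x => ‖IE (G3 m c θ h k) x‖ₑ ^ 2) := fun k =>
    ((p3 k).1.enorm.measurable).pow_const 2
  calc ∫⁻ x, (⨆ k ∈ Finset.range (2 ^ m), ‖T (A m θ (c * (1 + k / 2 ^ m))) h x‖ₑ) ^ 2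
      ≤ ∫⁻ x, 9 * (‖IE ({ξ : E 2 | ‖ξ‖ < c}.indicator (H c θ h)) x‖ₑ ^ 2 +
        (⨆ k ∈ Finset.range (2 ^ m),
          ‖IE ({ξ : E 2 | c ≤ ‖ξ‖ ∧ ‖ξ‖ < c * (1 + k / 2 ^ m)}.indicator (H c θ h)) x‖ₑ) ^ 2 +
        ∑ k ∈ Finset.range (2 ^ m), ‖IE (G3 m c θ h k) x‖ₑ ^ 2) := lintegral_mono hpt
    _ = 9 * ((∫⁻ x, ‖IE ({ξ : E 2 | ‖ξ‖ < c}.indicator (H c θ h)) x‖ₑ ^ 2) +
        (∫⁻ x, (⨆ k ∈ Finset.range (2 ^ m),
          ‖IE ({ξ : E 2 | c ≤ ‖ξ‖ ∧ ‖ξ‖ < c * (1 + k / 2 ^ m)}.indicator (H c θ h)) x‖ₑ) ^ 2) +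
        ∑ k ∈ Finset.range (2 ^ m), ∫⁻ x, ‖IE (G3 m c θ h k) x‖ₑ ^ 2) := by
        have m12 := m1.add m2
        simp only [Pi.add_def] at m12
        rw [lintegral_const_mul' _ _ (by norm_num), lintegral_add_left m12,
          lintegral_add_left m1, lintegral_finset_sum _ fun k _ => m3 k]
    _ ≤ 9 * ((∫⁻ ξ, ‖H c θ h ξ‖ₑ ^ 2) +
        C * ((lg m : ℕ) : ℝ≥0∞) ^ α * (∫⁻ ξ, ‖H c θ h ξ‖ₑ ^ 2) +
        ∫⁻ ξ, ‖H c θ h ξ‖ₑ ^ 2) := by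
        gcongr 9 * (?_ + ?_ + ?_)
        · rw [p1.2]
          refine lintegral_mono fun ξ => ?_
          dsimp only
          by_cases hx : ξ ∈ {ξ : E 2 | ‖ξ‖ < c}
          · rw [indicator_of_mem hx]
          · rw [indicator_of_notMem hx]; simp
        · refine (hK m c (H c θ h) hm hc hH).trans ?_
          gcongr
          exact Measure.restrict_le_self
        · calc ∑ k ∈ Finset.range (2 ^ m), ∫⁻ x, ‖IE (G3 m c θ h k) x‖ₑ ^ 2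
              = ∑ k ∈ Finset.range (2 ^ m), ∫⁻ ξ, ‖G3 m c θ h k ξ‖ₑ ^ 2 :=
                Finset.sum_congr rfl fun k _ => (p3 k).2
            _ = ∫⁻ ξ, ∑ k ∈ Finset.range (2 ^ m), ‖G3 m c θ h k ξ‖ₑ ^ 2 := by
                rw [lintegral_finset_sum _ fun k _ =>
                  ((bd_G3 m c hθ hh k).1.enorm.pow_const 2)]
            _ ≤ _ := lintegral_mono fun ξ => G3_sum hc ξ
    _ = _ := by ring

end main

end EETM_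

theorem pEtms (α : ℕ) (hP : KSP.tPlE) (hK : tKEs α) (hS : KSP.tSobI) : tEtms α := by
  obtain ⟨C, hC⟩ := hK
  obtain ⟨B, hB1, hB⟩ := et1_bd
  refine ⟨18 * C + 36 + (16 * B ^ 2).toNNReal, fun m c θ h hm hc hθ hθ1 hh => ?_⟩
  have hpos : ∀ R ∈ Icc c (2 * c), 0 < R := fun R hR => by linarith [hR.1]
  have hfA := fam_A m hθ
  have hfA1 := fam_A1 m hθ
  have hTa := MBS.pTcont 2 (A m θ) h hfA hh
  have hTa1 := MBS.pTcont 2 (A1 m θ) h hfA1 hh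
  have e0 : ∀ R, (fun ξ : E 2 => et (2 ^ m * (1 - ‖ξ‖ ^ 2 / R ^ 2)) * θ ξ) = A m θ R :=
    fun R => rfl
  simp only [e0]
  rw [← norm_H (θ := θ) (h := h) c]
  have hpt : ∀ x, (⨆ R ∈ Icc c (2 * c), ‖T (A m θ R) h x‖ₑ) ^ 2 ≤
      2 * (⨆ k ∈ Finset.range (2 ^ m), ‖T (A m θ (c * (1 + k / 2 ^ m))) h x‖ₑ) ^ 2 +
        ENNReal.ofReal (2 * (c / 2 ^ m)) * ∫⁻ r in Icc c (2 * c), ‖T (A1 m θ r) h x‖ₑ ^ 2 := by
    intro x
    refine ptwise hS hc (fun R => T (A m θ R) h x) (fun R => T (A1 m θ R) h x) ?_ fun t ht =>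
      MBS.pTderiv 2 _ _ h hfA hfA1 hh (derR_A m θ) t (hpos t ht) x
    exact hTa1.comp (f := fun R : ℝ => (R, x)) (by fun_prop)
      (fun R hR => ⟨hpos R hR, mem_univ _⟩)
  have m1 : Measurable (fun x => 2 * (⨆ k ∈ Finset.range (2 ^ m),
      ‖T (A m θ (c * (1 + k / 2 ^ m))) h x‖ₑ) ^ 2) := by
    refine Measurable.const_mul (Measurable.pow_const ?_ 2) 2
    refine Measurable.iSup fun k => Measurable.iSup fun _ => ?_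
    refine Continuous.measurable (Continuous.enorm ?_)
    have hk : 0 < c * (1 + (k : ℝ) / 2 ^ m) := by positivity
    exact hTa.comp_continuous (f := fun x : E 2 => (c * (1 + (k : ℝ) / 2 ^ m), x)) (by fun_prop)
      (fun x => ⟨hk, mem_univ _⟩)
  have hI : ∫⁻ x, ∫⁻ r in Icc c (2 * c), ‖T (A1 m θ r) h x‖ₑ ^ 2 ≤
      ENNReal.ofReal (8 * B ^ 2 * 2 ^ m / c) * ∫⁻ ξ, ‖H c θ h ξ‖ₑ ^ 2 := by
    rw [planch_R hc hfA1 hh, ← lintegral_const_mul' _ _ ENNReal.ofReal_ne_top]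
    refine lintegral_mono fun ξ => ?_
    dsimp only
    refine (mul_le_mul_left (A1_int hB1 hB m hc θ ξ) _).trans ?_
    rw [mul_assoc]
    gcongr
    unfold H
    by_cases hx : ξ ∈ {ξ : E 2 | ‖ξ‖ ≤ 2 * c}
    · rw [indicator_of_mem hx, indicator_of_mem hx, enorm_mul, mul_pow]
      gcongr
      rw [← ofReal_norm, ← ofReal_norm, Complex.norm_real]
    · rw [indicator_of_notMem hx]
      simp
  have hone : (1 : ℝ≥0∞) ≤ ((lg m : ℕ) : ℝ≥0∞) ^ α := by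
    have h1 : 1 ≤ lg m := by unfold lg; omega
    exact one_le_pow₀ (by exact_mod_cast h1)
  calc ∫⁻ x, (⨆ R ∈ Icc c (2 * c), ‖T (A m θ R) h x‖ₑ) ^ 2
      ≤ ∫⁻ x, (2 * (⨆ k ∈ Finset.range (2 ^ m), ‖T (A m θ (c * (1 + k / 2 ^ m))) h x‖ₑ) ^ 2 +
        ENNReal.ofReal (2 * (c / 2 ^ m)) *
          ∫⁻ r in Icc c (2 * c), ‖T (A1 m θ r) h x‖ₑ ^ 2) := lintegral_mono hpt
    _ = 2 * (∫⁻ x, (⨆ k ∈ Finset.range (2 ^ m), ‖T (A m θ (c * (1 + k / 2 ^ m))) h x‖ₑ) ^ 2) +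
        ENNReal.ofReal (2 * (c / 2 ^ m)) *
          ∫⁻ x, ∫⁻ r in Icc c (2 * c), ‖T (A1 m θ r) h x‖ₑ ^ 2 := by
        rw [lintegral_add_left m1, lintegral_const_mul' _ _ (by norm_num),
          lintegral_const_mul' _ _ ENNReal.ofReal_ne_top]
    _ ≤ 2 * (9 * (2 + C * ((lg m : ℕ) : ℝ≥0∞) ^ α) * ∫⁻ ξ, ‖H c θ h ξ‖ₑ ^ 2) +
        ENNReal.ofReal (2 * (c / 2 ^ m)) *
          (ENNReal.ofReal (8 * B ^ 2 * 2 ^ m / c) * ∫⁻ ξ, ‖H c θ h ξ‖ₑ ^ 2) := by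
        gcongr
        exact EETM_.radii α hP hC hm hc hθ hh
    _ = (36 * 1 + 18 * C * (((lg m : ℕ) : ℝ≥0∞) ^ α) + ENNReal.ofReal (16 * B ^ 2) * 1) *
          ∫⁻ ξ, ‖H c θ h ξ‖ₑ ^ 2 := by
        rw [← mul_assoc (ENNReal.ofReal _), ← ENNReal.ofReal_mul (by positivity)]
        rw [show 2 * (c / 2 ^ m) * (8 * B ^ 2 * 2 ^ m / c) = 16 * B ^ 2 by field_simp; ring]
        ring
    _ ≤ (36 * (((lg m : ℕ) : ℝ≥0∞) ^ α) + 18 * C * (((lg m : ℕ) : ℝ≥0∞) ^ α) +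
          ENNReal.ofReal (16 * B ^ 2) * (((lg m : ℕ) : ℝ≥0∞) ^ α)) *
          ∫⁻ ξ, ‖H c θ h ξ‖ₑ ^ 2 := by
        gcongr
    _ = _ := by
        have e1 : ((18 * C + 36 + (16 * B ^ 2).toNNReal : ℝ≥0) : ℝ≥0∞) =
            18 * C + 36 + ENNReal.ofReal (16 * B ^ 2) := by
          push_cast
          rfl
        rw [e1]
        ring

end Pool.Agent.SEnd
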