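import Pool.Agent.SLog.EndTargets
import Pool.Agent.LLog.EndFA0

set_option autoImplicit false

/-! S8: local strong type maximal inequality with the weight `lw2 α`. -/

namespace Pool.Agent.SEnd

open MeasureTheory FourierTransform Set Filter Topology
open scoped ENNReal NNReal
open Pool.Agent.MBS (E ex T S Sstar et ps mul pm Tstar Pstar MF)
open Pool.Agent.KSP (lg muS tPt tAH)
open Pool.Agent.LLog (lw2)

open Pool.Agent.KSP.FA0_ Pool.Agent.LLog.EFA0_ in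
theorem pFA0s (α : ℕ) (h1 : KSP.tPt) (h2 : tSms α) (h3 : KSP.tAH) : tFA0s α := by
  obtain ⟨C1, hG⟩ := h2
  obtain ⟨C2, hH⟩ := h3
  obtain ⟨C3, hP⟩ := MBS.pPdom 2
  obtain ⟨C4, hM⟩ := MBS.pMF2 2
  have hVt : volume (Metric.closedBall (0 : E 2) 1) ≠ ⊤ := measure_closedBall_lt_top.ne
  obtain ⟨V, hV⟩ : ∃ V : ℝ≥0, (V : ℝ≥0∞) = volume (Metric.closedBall (0 : E 2) 1) :=
    ⟨_, ENNReal.coe_toNNReal hVt⟩
  refine ⟨V ^ 2 + 4 * (C3 ^ 2 * C4 + C1 * 6 ^ α * 3 + 8 * C2 * 3),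
    fun f x0 hfm hfi hf2 => ?_⟩
  have hh : Continuous (𝓕 f) := MBS.J8.fourier_cont hfi
  set w : E 2 → ℝ≥0∞ := fun ξ => ‖𝓕 f ξ‖ₑ ^ 2 * ENNReal.ofReal (lw2 α ξ) with hwdef
  have hhm : Measurable fun ξ => ‖𝓕 f ξ‖ₑ ^ 2 := hh.measurable.enorm.pow_const 2
  have hw : Measurable w := hhm.mul (lw2_meas α).ennreal_ofReal
  have hle : ∀ ξ, ‖𝓕 f ξ‖ₑ ^ 2 ≤ w ξ := by
    intro ξ
    have h1 : (1 : ℝ≥0∞) ≤ ENNReal.ofReal (lw2 α ξ) := by
      rw [← ENNReal.ofReal_one]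
      exact ENNReal.ofReal_le_ofReal (lw2_one α ξ)
    calc ‖𝓕 f ξ‖ₑ ^ 2 = ‖𝓕 f ξ‖ₑ ^ 2 * 1 := (mul_one _).symm
      _ ≤ ‖𝓕 f ξ‖ₑ ^ 2 * ENNReal.ofReal (lw2 α ξ) := by gcongr
  set N := ∫⁻ ξ, w ξ with hN
  have hN2 : ∫⁻ ξ, ‖𝓕 f ξ‖ₑ ^ 2 ≤ N := lintegral_mono hle
  have hvolD : volume (Metric.closedBall x0 1) = V := by
    rw [hV]
    exact Measure.addHaar_closedBall_center _ _ _
  -- the parts
  have p0 : a0 f ^ 2 * volume (Metric.closedBall x0 1) ≤ V ^ 2 * N := by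
    rw [hvolD]
    calc a0 f ^ 2 * V ≤ (volume (Metric.closedBall (0 : E 2) 1) * ∫⁻ ξ, ‖𝓕 f ξ‖ₑ ^ 2) * V := by
          gcongr
          exact a0_sq hfi
      _ ≤ (V * N) * V := by
          rw [← hV]
          gcongr
      _ = V ^ 2 * N := by ring
  have p1 : ∫⁻ x in Metric.closedBall x0 1, Pstar f x ^ 2 ≤ C3 ^ 2 * C4 * N := by
    calc ∫⁻ x in Metric.closedBall x0 1, Pstar f x ^ 2 ≤ ∫⁻ x, Pstar f x ^ 2 :=
          setLIntegral_le_lintegral _ _
      _ ≤ ∫⁻ x, (C3 * MF (fun y => ‖f y‖ₑ) x) ^ 2 := by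
          gcongr with x
          exact hP f hfi x
      _ = (C3 : ℝ≥0∞) ^ 2 * ∫⁻ x, MF (fun y => ‖f y‖ₑ) x ^ 2 := by
          rw [← lintegral_const_mul' _ _ (by simp)]
          congr 1
          ext x
          ring
      _ ≤ C3 ^ 2 * (C4 * ∫⁻ x, ‖f x‖ₑ ^ 2) := by
          gcongr
          exact hM _ hfm.enorm
      _ = C3 ^ 2 * C4 * ∫⁻ ξ, ‖𝓕 f ξ‖ₑ ^ 2 := by
          rw [MBS.J8.plancherel_sq hfi hf2]; ring
      _ ≤ _ := by gcongr
  have p2 : ∑' k, ∫⁻ x in Metric.closedBall x0 1, G f k x ^ 2 ≤ C1 * 6 ^ α * 3 * N := by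
    calc ∑' k, ∫⁻ x in Metric.closedBall x0 1, G f k x ^ 2
        ≤ ∑' k : ℕ, C1 * 6 ^ α * ∫⁻ ξ in A k, w ξ := by
          refine ENNReal.tsum_le_tsum fun k => ?_
          calc ∫⁻ x in Metric.closedBall x0 1, G f k x ^ 2 ≤ ∫⁻ x, G f k x ^ 2 :=
                setLIntegral_le_lintegral _ _
            _ ≤ C1 * ((lg (k + 1) : ℕ) : ℝ≥0∞) ^ α * ∫⁻ ξ in A k, ‖𝓕 f ξ‖ₑ ^ 2 :=
                hG (k + 1) ((2 : ℝ) ^ (k : ℤ)) (𝓕 f) (by omega) (by positivity) hh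
            _ = C1 * ∫⁻ ξ in A k, (((lg (k + 1) : ℕ) : ℝ≥0∞) ^ α) * ‖𝓕 f ξ‖ₑ ^ 2 := by
                rw [lintegral_const_mul _ hhm]
                ring
            _ ≤ C1 * ∫⁻ ξ in A k, 6 ^ α * w ξ := by
                refine mul_le_mul_right (setLIntegral_mono' (A_meas k) fun ξ hξ => ?_) _
                have h1 := lw2_weight α k hξ
                have h2 : ((lg (k + 1) : ℕ) : ℝ≥0∞) ^ α ≤ 6 ^ α * ENNReal.ofReal (lw2 α ξ) := by
                  have h3 : ((lg (k + 1) : ℕ) : ℝ≥0∞) ^ α =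
                      ENNReal.ofReal (((lg (k + 1) : ℕ) : ℝ) ^ α) := by
                    rw [ENNReal.ofReal_pow (by positivity), ENNReal.ofReal_natCast]
                  have h4 : (6 ^ α : ℝ≥0∞) = ENNReal.ofReal (6 ^ α) := by
                    rw [ENNReal.ofReal_pow (by norm_num)]
                    norm_num
                  rw [h3, h4, ← ENNReal.ofReal_mul (by positivity)]
                  exact ENNReal.ofReal_le_ofReal h1
                calc _ ≤ 6 ^ α * ENNReal.ofReal (lw2 α ξ) * ‖𝓕 f ξ‖ₑ ^ 2 := by gcongr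
                  _ = 6 ^ α * w ξ := by rw [hwdef]; ring
            _ = _ := by
                rw [lintegral_const_mul _ hw]
                ring
      _ = C1 * 6 ^ α * ∑' k : ℕ, ∫⁻ ξ in A k, w ξ := by rw [ENNReal.tsum_mul_left]
      _ ≤ C1 * 6 ^ α * (3 * N) := by
          gcongr
          exact sum_A hw
      _ = _ := by ring
  have p3 : ∑' k, ∫⁻ x in Metric.closedBall x0 1, (∑' i, H f k i x) ^ 2 ≤ 8 * C2 * 3 * N := by
    calc ∑' k, ∫⁻ x in Metric.closedBall x0 1, (∑' i, H f k i x) ^ 2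
        ≤ ∑' k : ℕ, 8 * C2 * ∫⁻ ξ in A k, w ξ := by
          refine ENNReal.tsum_le_tsum fun k => (H_int hH hfi x0 k).trans ?_
          gcongr
          exact hle _
      _ = 8 * C2 * ∑' k : ℕ, ∫⁻ ξ in A k, w ξ := by rw [ENNReal.tsum_mul_left]
      _ ≤ 8 * C2 * (3 * N) := by
          gcongr
          exact sum_A hw
      _ = _ := by ring
  have hPm : Measurable (Pstar f) := (MBS.pMeas MBS.pTcont MBS.pMulFam 2 f hfi).2.1
  have mH : ∀ k, Measurable fun x => (∑' i, H f k i x) ^ 2 := fun k =>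
    (Measurable.tsum fun i => H_m hfi k i).pow_const 2
  calc ∫⁻ x in Metric.closedBall x0 1, Sstar f x ^ 2
      ≤ ∫⁻ x in Metric.closedBall x0 1, (a0 f ^ 2 + 4 * (Pstar f x ^ 2 + ∑' k, G f k x ^ 2 +
        ∑' k, (∑' i, H f k i x) ^ 2)) :=
        lintegral_mono fun x => Pool.Agent.KSP.FA0_.pointwise h1 hfi x
    _ = a0 f ^ 2 * volume (Metric.closedBall x0 1) +
        4 * ((∫⁻ x in Metric.closedBall x0 1, Pstar f x ^ 2) +
          ∑' k, (∫⁻ x in Metric.closedBall x0 1, G f k x ^ 2) +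
          ∑' k, ∫⁻ x in Metric.closedBall x0 1, (∑' i, H f k i x) ^ 2) := by
        have mG : Measurable fun x => ∑' k, G f k x ^ 2 :=
          Measurable.tsum fun k => (G_m hfi k).pow_const 2
        have mHs : Measurable fun x => ∑' k, (∑' i, H f k i x) ^ 2 :=
          Measurable.tsum fun k => mH k
        have mP : Measurable fun x => Pstar f x ^ 2 := hPm.pow_const 2
        have m1 : Measurable fun x => Pstar f x ^ 2 + ∑' k, G f k x ^ 2 := mP.add mG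
        have m2 : Measurable fun x => Pstar f x ^ 2 + ∑' k, G f k x ^ 2 +
            ∑' k, (∑' i, H f k i x) ^ 2 := m1.add mHs
        rw [lintegral_add_left measurable_const, lintegral_const, Measure.restrict_apply_univ,
          lintegral_const_mul _ m2, lintegral_add_left m1, lintegral_add_left mP,
          lintegral_tsum (fun k => ((G_m hfi k).pow_const 2).aemeasurable),
          lintegral_tsum (fun k => (mH k).aemeasurable)]
    _ ≤ V ^ 2 * N + 4 * (C3 ^ 2 * C4 * N + C1 * 6 ^ α * 3 * N + 8 * C2 * 3 * N) := by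
        gcongr
    _ = _ := by
        push_cast
        ring

end Pool.Agent.SEnd
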