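import Pool.Agent.SLog.EndTargets
import Pool.Agent.LLog.EndFA1
import Pool.Agent.MBS.J1
import Pool.Agent.MBS.J5
import Pool.Agent.MBS.J13

set_option autoImplicit false

/-! S9: the local strong type maximal inequality for all `g ∈ L²(lw2 α)` on the Fourier side.
helper74 (template KSP/FA1.lean, LLog/EndFA1.lean) -/

namespace Pool.Agent.SEnd

open MeasureTheory FourierTransform Set Filter Topology
open scoped ENNReal NNReal SchwartzMap ContDiff
open Pool.Agent.MBS (E ex T S Sstar et ps mul pm Tstar Pstar MF)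
open Pool.Agent.KSP (lg BI)
open Pool.Agent.LLog (lw2)
open Pool.Agent.LLog.EFA1_ (mu mu_lf lp_sq BI_sub)

theorem pFA1s (α : ℕ) (h : tFA0s α) : tFA1s α := by
  obtain ⟨C, hC⟩ := h
  refine ⟨C + 1, fun g x0 hg => ?_⟩
  by_cases hfin : ∫⁻ ξ, ‖g ξ‖ₑ ^ 2 * ENNReal.ofReal (lw2 α ξ) = ⊤
  · rw [hfin, ENNReal.mul_top (by simp)]
    exact le_top
  have := mu_lf α
  have hgM : MemLp g 2 (mu α) := by
    refine ⟨hg.aestronglyMeasurable, ?_⟩
    rw [lt_top_iff_ne_top]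
    intro h1
    apply hfin
    rw [← lp_sq α g hg, h1]
    simp
  have hex := fun n : ℕ => hgM.exist_eLpNorm_sub_le (by norm_num) (by norm_num)
    (ε := 1 / ((n : ℝ) + 1)) (by positivity)
  choose gn h1 h2 h3 using hex
  have hgn : ∀ n, MemLp (gn n) 2 (mu α) := fun n =>
    (h2 n).continuous.memLp_of_hasCompactSupport (h1 n)
  let fn : ℕ → 𝓢(E 2, ℂ) := fun n => 𝓕⁻ ((h1 n).toSchwartzMap (h2 n))
  have hF : ∀ n, 𝓕 (fn n : E 2 → ℂ) = gn n := by
    intro n
    rw [← SchwartzMap.fourier_coe]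
    show ((𝓕 (𝓕⁻ ((h1 n).toSchwartzMap (h2 n))) : 𝓢(E 2, ℂ)) : E 2 → ℂ) = gn n
    rw [FourierTransform.fourier_fourierInv_eq]
    rfl
  have hfi : ∀ n, Integrable (fn n : E 2 → ℂ) := fun n => (fn n).integrable
  have hS : ∀ n R x, S (fn n) R x = BI (gn n) R x := by
    intro n R x
    unfold MBS.S KSP.BI
    rw [hF]
  have hlim : ∀ R x, Tendsto (fun n => BI (gn n) R x) atTop (𝓝 (BI g R x)) := by
    intro R x
    rw [tendsto_iff_edist_tendsto_0]
    have hV : volume (Metric.closedBall (0 : E 2) R) ^ (1 / 2 : ℝ) ≠ ⊤ :=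
      ENNReal.rpow_ne_top_of_nonneg (by norm_num) (isCompact_closedBall _ _).measure_lt_top.ne
    have hz : Tendsto (fun n : ℕ => ENNReal.ofReal (1 / ((n : ℝ) + 1)) *
        volume (Metric.closedBall (0 : E 2) R) ^ (1 / 2 : ℝ)) atTop (𝓝 0) := by
      have h4 : Tendsto (fun n : ℕ => ENNReal.ofReal (1 / ((n : ℝ) + 1))) atTop (𝓝 0) := by
        rw [← ENNReal.ofReal_zero]
        exact ENNReal.tendsto_ofReal tendsto_one_div_add_atTop_nhds_zero_nat
      simpa using ENNReal.Tendsto.mul_const h4 (Or.inr hV)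
    refine tendsto_of_tendsto_of_tendsto_of_le_of_le tendsto_const_nhds hz (fun n => bot_le)
      (fun n => ?_)
    show edist (BI (gn n) R x) (BI g R x) ≤ _
    rw [edist_comm, edist_eq_enorm_sub]
    exact (BI_sub hgM (hgn n) R x).trans (mul_le_mul' (h3 n) le_rfl)
  have hmeas : ∀ n, Measurable (Sstar (fn n : E 2 → ℂ)) := fun n =>
    (Pool.Agent.MBS.pMeas Pool.Agent.MBS.pTcont Pool.Agent.MBS.pMulFam 2 (fn n) (hfi n)).1
  have hpt : ∀ x, (⨆ (R : ℝ) (_ : 0 < R), ‖BI g R x‖ₑ) ^ 2 ≤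
      liminf (fun n => Sstar (fn n : E 2 → ℂ) x ^ 2) atTop := by
    intro x
    have h4 : (⨆ (R : ℝ) (_ : 0 < R), ‖BI g R x‖ₑ) ≤
        liminf (fun n => Sstar (fn n : E 2 → ℂ) x) atTop := by
      refine iSup₂_le fun R hR => ?_
      have h5 : Tendsto (fun n => ‖BI (gn n) R x‖ₑ) atTop (𝓝 ‖BI g R x‖ₑ) := (hlim R x).enorm
      rw [← h5.liminf_eq]
      refine liminf_le_liminf (Eventually.of_forall fun n => ?_)
      rw [← hS n R x]
      exact le_iSup₂ (f := fun (R : ℝ) (_ : 0 < R) => ‖S (fn n) R x‖ₑ) R hR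
    have h6 : (liminf (fun n => Sstar (fn n : E 2 → ℂ) x) atTop) ^ 2 =
        liminf (fun n => Sstar (fn n : E 2 → ℂ) x ^ 2) atTop := by
      have hmono : Monotone (fun y : ℝ≥0∞ => y ^ 2) := fun a b hab => pow_le_pow_left' hab 2
      exact hmono.map_liminf_of_continuousAt (F := atTop)
        (fun n => Sstar (fn n : E 2 → ℂ) x) (ENNReal.continuous_pow 2).continuousAt
    rw [← h6]
    exact pow_le_pow_left' h4 2
  have hint : ∀ n, ∫⁻ x in Metric.closedBall x0 1, Sstar (fn n : E 2 → ℂ) x ^ 2 ≤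
      C * (eLpNorm g 2 (mu α) + ENNReal.ofReal (1 / ((n : ℝ) + 1))) ^ 2 := by
    intro n
    refine (hC (fn n) x0 (fn n).continuous.measurable (hfi n) ((fn n).memLp 2)).trans ?_
    rw [hF n, ← lp_sq α (gn n) (h2 n).continuous.measurable]
    gcongr
    have h7 : gn n = g - (g - gn n) := by simp
    calc eLpNorm (gn n) 2 (mu α) = eLpNorm (g - (g - gn n)) 2 (mu α) := by rw [← h7]
      _ ≤ eLpNorm g 2 (mu α) + eLpNorm (g - gn n) 2 (mu α) :=
          eLpNorm_sub_le hgM.1 (hgM.sub (hgn n)).1 (by norm_num)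
      _ ≤ _ := by gcongr; exact h3 n
  have hlim2 : Tendsto (fun n : ℕ => (C : ℝ≥0∞) *
      (eLpNorm g 2 (mu α) + ENNReal.ofReal (1 / ((n : ℝ) + 1))) ^ 2) atTop
      (𝓝 (C * (eLpNorm g 2 (mu α)) ^ 2)) := by
    have h4 : Tendsto (fun n : ℕ => ENNReal.ofReal (1 / ((n : ℝ) + 1))) atTop (𝓝 0) := by
      rw [← ENNReal.ofReal_zero]
      exact ENNReal.tendsto_ofReal tendsto_one_div_add_atTop_nhds_zero_nat
    have h5 : Tendsto (fun n : ℕ => eLpNorm g 2 (mu α) + ENNReal.ofReal (1 / ((n : ℝ) + 1))) atTop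
        (𝓝 (eLpNorm g 2 (mu α))) := by
      simpa using tendsto_const_nhds.add h4
    exact ENNReal.Tendsto.const_mul (ENNReal.Tendsto.pow h5) (Or.inr ENNReal.coe_ne_top)
  calc ∫⁻ x in Metric.closedBall x0 1, (⨆ (R : ℝ) (_ : 0 < R), ‖BI g R x‖ₑ) ^ 2
      ≤ ∫⁻ x in Metric.closedBall x0 1,
          liminf (fun n => Sstar (fn n : E 2 → ℂ) x ^ 2) atTop := lintegral_mono hpt
    _ ≤ liminf (fun n => ∫⁻ x in Metric.closedBall x0 1, Sstar (fn n : E 2 → ℂ) x ^ 2) atTop :=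
        lintegral_liminf_le fun n => (hmeas n).pow_const 2
    _ ≤ liminf (fun n : ℕ => (C : ℝ≥0∞) *
          (eLpNorm g 2 (mu α) + ENNReal.ofReal (1 / ((n : ℝ) + 1))) ^ 2) atTop :=
        liminf_le_liminf (Eventually.of_forall hint)
    _ = C * (eLpNorm g 2 (mu α)) ^ 2 := hlim2.liminf_eq
    _ ≤ _ := by
        rw [lp_sq α g hg]
        gcongr
        exact le_self_add

end Pool.Agent.SEnd
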