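import Pool.Agent.SLog.EndTargets
import Pool.Agent.KSP.FB

set_option autoImplicit false

/-! S7: the Nash quotient. -/

namespace Pool.Agent.SEnd

open MeasureTheory FourierTransform Set Filter Topology
open scoped ENNReal NNReal
open Pool.Agent.MBS (E ex T S Sstar et ps mul pm Tstar Pstar MF PP)
open Pool.Agent.KSP (lg IE BdE muS BI)

open Pool.Agent.KSP.FB_ in
theorem pFBs (α : ℕ) (h1 : KSP.tPt) (h2 : tSSs α) : tFBs α := by
  intro s hs
  obtain ⟨C1, hC1, hT⟩ := MBS.J14.tstar_bound MBS.pTstarW MBS.fF2c MBS.fGainL1 MBS.fTriv 2 s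
    (by norm_num) hs
  obtain ⟨C2, hC2, hB⟩ := be_tail (s / (2 * (2 : ℕ))) (by positivity)
  obtain ⟨K, K2, hK, hK2, hm⟩ := choose_m (s / (2 * (2 : ℕ))) (by positivity)
  obtain ⟨C3, hP⟩ := MBS.pPdom 2
  obtain ⟨C4, hM⟩ := MBS.pMF2 2
  obtain ⟨C5, hSS⟩ := h2
  refine ⟨4 * (C3 ^ 2 * C4) + 4 * (C5 * (2 * K2) ^ α) + 2 * (C1 * C2 ^ 2),
    fun f Q hfm hfi hf2 hQ hyp => ?_⟩
  have hlQ : 0 ≤ Real.log Q := Real.log_nonneg hQ
  obtain ⟨m, hm1, hmQ, hmK, hlg⟩ := hm Q hQ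
  have hyp' : (∫⁻ x, ‖f x‖ₑ) ^ (2 * s / ((2 : ℕ) : ℝ)) *
        (∫⁻ ξ, ENNReal.ofReal (‖ξ‖ ^ (2 * s)) * ‖𝓕 f ξ‖ₑ ^ 2) ^ (1 / 2 : ℝ)
        ≤ ENNReal.ofReal Q *
          ((∫⁻ x, ‖f x‖ₑ ^ 2) ^ (1 / 2 : ℝ)) ^ (1 + 2 * s / ((2 : ℕ) : ℝ)) := by
    have e : 2 * s / ((2 : ℕ) : ℝ) = s := by push_cast; ring
    rw [e]
    exact hyp
  set N2 := ∫⁻ x, ‖f x‖ₑ ^ 2 with hN2
  set b : ℕ → ℝ≥0∞ := fun i => ENNReal.ofReal (MBS.J14.be Q (s / (2 * (2 : ℕ))) (i + m)) with hb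
  have hb0 : ∀ i, b i ≠ 0 := fun i => by
    simp only [hb, ne_eq, ENNReal.ofReal_eq_zero, not_le]
    exact MBS.J14.be_pos Q _ hQ _
  have hb1 : ∀ i, b i ≠ ⊤ := fun i => ENNReal.ofReal_ne_top
  have hTi : ∀ i, ∫⁻ x, Tstar (i + m) f x ^ 2 ≤ ENNReal.ofReal C1 * b i ^ 2 * N2 := by
    intro i
    refine le_trans (hT f Q (i + m) hfm hfi hf2 hQ hyp') (le_of_eq ?_)
    have e1 : b i = ENNReal.ofReal (MBS.J14.be Q (s / (2 * (2 : ℕ))) (i + m)) := rfl
    rw [ENNReal.ofReal_mul hC1.le, e1, ← ENNReal.ofReal_pow (MBS.J14.be_pos Q _ hQ _).le]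
    rfl
  obtain ⟨hm1', hm2', hm3'⟩ := MBS.fMeas 2 f hfi
  -- the sum of the annulus operators
  have hsum : ∫⁻ x, (∑' i, Tstar (i + m) f x) ^ 2 ≤
      ENNReal.ofReal C1 * (ENNReal.ofReal C2) ^ 2 * N2 := by
    calc ∫⁻ x, (∑' i, Tstar (i + m) f x) ^ 2
        ≤ ∫⁻ x, (∑' i, b i) * ∑' i, Tstar (i + m) f x ^ 2 * (b i)⁻¹ :=
          lintegral_mono fun x => MBS.J14.cs_sum b _ hb0 hb1
      _ = (∑' i, b i) * ∑' i, (∫⁻ x, Tstar (i + m) f x ^ 2) * (b i)⁻¹ := by
          rw [lintegral_const_mul'' _ (AEMeasurable.tsum fun i =>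
            (((hm3' (i + m)).pow_const 2).mul_const _).aemeasurable),
            lintegral_tsum fun i => (((hm3' (i + m)).pow_const 2).mul_const _).aemeasurable]
          congr 1
          apply tsum_congr
          intro i
          rw [lintegral_mul_const _ ((hm3' (i + m)).pow_const 2)]
      _ ≤ (∑' i, b i) * ∑' i, ENNReal.ofReal C1 * N2 * b i := by
          refine mul_le_mul_right (ENNReal.tsum_le_tsum fun i => ?_) _
          calc (∫⁻ x, Tstar (i + m) f x ^ 2) * (b i)⁻¹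
              ≤ (ENNReal.ofReal C1 * b i ^ 2 * N2) * (b i)⁻¹ := by
                gcongr
                exact hTi i
            _ = ENNReal.ofReal C1 * N2 * b i * (b i * (b i)⁻¹) := by ring
            _ = _ := by rw [ENNReal.mul_inv_cancel (hb0 i) (hb1 i), mul_one]
      _ = ENNReal.ofReal C1 * (∑' i, b i) ^ 2 * N2 := by
          rw [ENNReal.tsum_mul_left]
          ring
      _ ≤ _ := by
          gcongr
          exact hB Q m hQ hmQ
  have hPs : ∫⁻ x, Pstar f x ^ 2 ≤ ENNReal.ofReal (C3 ^ 2 * C4) * N2 := by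
    calc ∫⁻ x, Pstar f x ^ 2 ≤ ∫⁻ x, (C3 * MF (fun y => ‖f y‖ₑ) x) ^ 2 := by
          gcongr with x
          exact hP f hfi x
      _ = (C3 : ℝ≥0∞) ^ 2 * ∫⁻ x, MF (fun y => ‖f y‖ₑ) x ^ 2 := by
          rw [← lintegral_const_mul' _ _ (by simp)]
          congr 1
          ext x
          rw [mul_pow]
      _ ≤ (C3 : ℝ≥0∞) ^ 2 * (C4 * N2) := by
          gcongr
          exact hM _ hfm.enorm
      _ = _ := by
          rw [ENNReal.ofReal_mul (by positivity), ENNReal.ofReal_pow (by positivity),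
            ENNReal.ofReal_coe_nnreal, ENNReal.ofReal_coe_nnreal]
          ring
  obtain ⟨hpt, hMm⟩ := h1 m f hfi
  set M : E 2 → ℝ≥0∞ := fun x => ⨆ (R : ℝ) (_ : 0 < R), ‖T (muS m R) (𝓕 f) x‖ₑ with hMdef
  have hMs : ∫⁻ x, M x ^ 2 ≤ ENNReal.ofReal (C5 *
      (K2 * (1 + Real.log (1 + Real.log Q))) ^ α) * N2 := by
    refine le_trans (hSS m f hm1 hfi hf2) ?_
    rw [← hN2]
    have hY0 : 0 ≤ Real.log (1 + Real.log Q) := Real.log_nonneg (by linarith)
    have e1 : (C5 : ℝ≥0∞) = ENNReal.ofReal C5 := (ENNReal.ofReal_coe_nnreal).symm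
    have e3 : ((lg m : ℕ) : ℝ≥0∞) = ENNReal.ofReal (lg m : ℝ) :=
      (ENNReal.ofReal_natCast (lg m)).symm
    rw [e1, e3, ENNReal.ofReal_mul (by positivity), ENNReal.ofReal_pow (by positivity)]
    gcongr
  have hSle : ∀ x, Sstar f x ≤ Pstar f x + M x + ∑' i, Tstar (i + m) f x := by
    intro x
    refine iSup₂_le fun R hR => le_trans (hpt R x hR) ?_
    refine add_le_add (add_le_add ?_ ?_) (ENNReal.tsum_le_tsum fun i => ?_)
    · exact le_iSup₂_of_le R hR le_rfl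
    · exact le_iSup₂_of_le (f := fun (R : ℝ) (_ : 0 < R) => ‖T (muS m R) (𝓕 f) x‖ₑ) R hR le_rfl
    · exact le_iSup₂_of_le R hR le_rfl
  calc ∫⁻ x, Sstar f x ^ 2
      ≤ ∫⁻ x, (4 * Pstar f x ^ 2 + 4 * M x ^ 2 + 2 * (∑' i, Tstar (i + m) f x) ^ 2) := by
        gcongr with x
        exact le_trans (by gcongr; exact hSle x) (sq_add3_le _ _ _)
    _ = 4 * (∫⁻ x, Pstar f x ^ 2) + 4 * (∫⁻ x, M x ^ 2) +
          2 * ∫⁻ x, (∑' i, Tstar (i + m) f x) ^ 2 := by
        have ha : Measurable fun x => 4 * Pstar f x ^ 2 := (hm2'.pow_const 2).const_mul _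
        have hb' : Measurable fun x => 4 * M x ^ 2 := (hMm.pow_const 2).const_mul _
        have hab : Measurable fun x => 4 * Pstar f x ^ 2 + 4 * M x ^ 2 := ha.add hb'
        rw [lintegral_add_left hab, lintegral_add_left ha,
          lintegral_const_mul' _ _ (by simp), lintegral_const_mul' _ _ (by simp),
          lintegral_const_mul' _ _ (by simp)]
    _ ≤ 4 * (ENNReal.ofReal (C3 ^ 2 * C4) * N2) + 4 * (ENNReal.ofReal (C5 *
          (K2 * (1 + Real.log (1 + Real.log Q))) ^ α) * N2) +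
          2 * (ENNReal.ofReal C1 * (ENNReal.ofReal C2) ^ 2 * N2) := by
        gcongr
    _ = ENNReal.ofReal (4 * (C3 ^ 2 * C4) + 4 * (C5 *
          (K2 * (1 + Real.log (1 + Real.log Q))) ^ α) + 2 * (C1 * C2 ^ 2)) * N2 := by
        have hY0 : 0 ≤ Real.log (1 + Real.log Q) := Real.log_nonneg (by linarith)
        have e2 : (2 : ℝ≥0∞) = ENNReal.ofReal 2 := by simp
        have e4 : (4 : ℝ≥0∞) = ENNReal.ofReal 4 := by simp
        rw [ENNReal.ofReal_add (by positivity) (by positivity),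
          ENNReal.ofReal_add (by positivity) (by positivity),
          ENNReal.ofReal_mul (p := 4) (q := (C3 : ℝ) ^ 2 * C4) (by norm_num),
          ENNReal.ofReal_mul (p := 4) (q := C5 *
            (K2 * (1 + Real.log (1 + Real.log Q))) ^ α) (by norm_num),
          ENNReal.ofReal_mul (p := 2) (q := C1 * C2 ^ 2) (by norm_num),
          ENNReal.ofReal_mul (p := C1) (q := C2 ^ 2) hC1.le,
          ENNReal.ofReal_pow (p := C2) hC2.le, ← e2, ← e4]
        ring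
    _ ≤ _ := by
        gcongr
        set X := 1 + Real.log Q with hX
        have hX1 : 1 ≤ X := by linarith
        set L := Real.log (3 + Real.log Q) with hL
        have hL1 : 1 ≤ L := by
          rw [hL, Real.le_log_iff_exp_le (by linarith)]
          have := Real.exp_one_lt_d9
          linarith
        have hY2 : 1 + Real.log X ≤ 2 * L := by
          have : Real.log X ≤ L := Real.log_le_log (by linarith) (by rw [hX]; linarith)
          linarith
        have hY0 : 0 ≤ Real.log X := Real.log_nonneg hX1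
        have hLp : 1 ≤ L ^ α := one_le_pow₀ hL1
        have hKY : (K2 * (1 + Real.log X)) ^ α ≤ (2 * K2) ^ α * L ^ α := by
          rw [← mul_pow]
          refine pow_le_pow_left₀ (by positivity) ?_ α
          nlinarith
        have g1 : 0 ≤ 4 * ((C3 : ℝ) ^ 2 * C4) := by positivity
        have g2 : 0 ≤ 2 * (C1 * C2 ^ 2) := by positivity
        have g3 : 0 ≤ 4 * (C5 : ℝ) := by positivity
        have e : (4 * ((C3 : ℝ) ^ 2 * C4) + 4 * (C5 * (2 * K2) ^ α) + 2 * (C1 * C2 ^ 2)) * L ^ α =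
            4 * ((C3 : ℝ) ^ 2 * C4) * L ^ α +
            4 * C5 * ((2 * K2) ^ α * L ^ α) + 2 * (C1 * C2 ^ 2) * L ^ α := by ring
        rw [e]
        nlinarith [mul_le_mul_of_nonneg_left hLp g1, mul_le_mul_of_nonneg_left hLp g2,
          mul_le_mul_of_nonneg_left hKY g3]

end Pool.Agent.SEnd
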