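import Pool.Agent.SLog.EndTargets
import Pool.Agent.KSP.KE

set_option autoImplicit false

/-! S2: transfer of the plane theorem to `E 2`, all dilations. -/

namespace Pool.Agent.SEnd

open MeasureTheory FourierTransform Set Filter Topology
open scoped ENNReal NNReal
open Pool.Agent.MBS (E ex)
open Pool.Agent.KSP (lg IE BdE Ex Bd ann n2 nr dot ee)
open Pool.Agent.SLog (tKs)

open Pool.Agent.KSP.KE_ in
/-- S2 -/
theorem pKEs (α : ℕ) (hK : tKs α) : tKEs α := by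
  obtain ⟨C, hC⟩ := hK
  refine ⟨C, fun m c h hm hc hh => ?_⟩
  obtain ⟨hmeas, ⟨B, hB⟩, -⟩ := hh
  set g : ℝ × ℝ → ℂ := h ∘ φ with hg
  have hgm : Measurable g := hmeas.comp φ.measurable
  have hgB : ∀ ξ, ‖g ξ‖ ≤ B := fun ξ => hB _
  have hmain := hC m (dl c g) hm (dl_Bd hgm hgB c) (fun ξ hξ => by
    by_contra hcon
    exact hξ (by
      unfold dl
      rw [indicator_of_notMem (show ξ ∉ ann 1 2 from fun h1 => hcon h1)]))
  -- the left side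
  have hset : ∀ s : ℝ, ({ξ : E 2 | c ≤ ‖ξ‖ ∧ ‖ξ‖ < c * s}.indicator h) ∘ φ =
      (ann c (c * s)).indicator g := by
    intro s
    funext ξ
    have hiff : φ ξ ∈ {ξ : E 2 | c ≤ ‖ξ‖ ∧ ‖ξ‖ < c * s} ↔ ξ ∈ ann c (c * s) := by
      simp only [mem_ofPred_eq, φ_norm, ann]
    simp only [Function.comp, hg]
    by_cases h1 : ξ ∈ ann c (c * s)
    · rw [indicator_of_mem h1, indicator_of_mem (hiff.2 h1)]
      rfl
    · rw [indicator_of_notMem h1, indicator_of_notMem (fun h2 => h1 (hiff.1 h2))]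
  have hs2 : ∀ k ∈ Finset.range (2 ^ m), (1 + (k : ℝ) / 2 ^ m) ≤ 2 := by
    intro k hk
    have h1 : (k : ℝ) ≤ 2 ^ m := by
      have := (Finset.mem_range.1 hk).le
      exact_mod_cast this
    have h2 : (k : ℝ) / 2 ^ m ≤ 1 := by
      rw [div_le_one (by positivity)]
      exact h1
    linarith
  have hL : ∫⁻ x : E 2, (⨆ k ∈ Finset.range (2 ^ m),
      ‖IE ({ξ : E 2 | c ≤ ‖ξ‖ ∧ ‖ξ‖ < c * (1 + k / 2 ^ m)}.indicator h) x‖ₑ) ^ 2 =
      ENNReal.ofReal (c ^ 2) * ∫⁻ x : ℝ × ℝ, (⨆ k ∈ Finset.range (2 ^ m),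
        ‖Ex ((ann 1 (1 + k / 2 ^ m)).indicator (dl c g)) x‖ₑ) ^ 2 := by
    rw [lint_φ]
    have h1 : ∀ x : ℝ × ℝ, (⨆ k ∈ Finset.range (2 ^ m),
        ‖IE ({ξ : E 2 | c ≤ ‖ξ‖ ∧ ‖ξ‖ < c * (1 + k / 2 ^ m)}.indicator h) (φ x)‖ₑ) ^ 2 =
        ENNReal.ofReal (c ^ 4) * (fun y : ℝ × ℝ => (⨆ k ∈ Finset.range (2 ^ m),
          ‖Ex ((ann 1 (1 + k / 2 ^ m)).indicator (dl c g)) y‖ₑ) ^ 2) (c • x) := by
      intro x
      have h2 : (⨆ k ∈ Finset.range (2 ^ m),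
          ‖IE ({ξ : E 2 | c ≤ ‖ξ‖ ∧ ‖ξ‖ < c * (1 + k / 2 ^ m)}.indicator h) (φ x)‖ₑ) =
          ENNReal.ofReal (c ^ 2) * ⨆ k ∈ Finset.range (2 ^ m),
            ‖Ex ((ann 1 (1 + k / 2 ^ m)).indicator (dl c g)) (c • x)‖ₑ := by
        rw [ENNReal.mul_iSup]
        refine iSup_congr fun k => ?_
        rw [ENNReal.mul_iSup]
        refine iSup_congr fun hk => ?_
        rw [IE_φ, hset, Ex_dil g hc (hs2 k hk), enorm_mul]
        congr 1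
        rw [← ofReal_norm, Complex.norm_real, Real.norm_of_nonneg (by positivity)]
      rw [h2, mul_pow, ← ENNReal.ofReal_pow (by positivity)]
      congr 2
      ring
    simp_rw [h1]
    rw [lintegral_const_mul' _ _ ENNReal.ofReal_ne_top, lint_smul (fun y : ℝ × ℝ =>
      (⨆ k ∈ Finset.range (2 ^ m),
        ‖Ex ((ann 1 (1 + k / 2 ^ m)).indicator (dl c g)) y‖ₑ) ^ 2) hc, ← mul_assoc,
      ← ENNReal.ofReal_mul (by positivity)]
    congr 2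
    field_simp
  -- the right side
  have hR : n2 (dl c g) = ENNReal.ofReal ((c ^ 2)⁻¹) *
      ∫⁻ ξ in {ξ : E 2 | c ≤ ‖ξ‖ ∧ ‖ξ‖ < 2 * c}, ‖h ξ‖ₑ ^ 2 := by
    have hms : MeasurableSet {ξ : E 2 | c ≤ ‖ξ‖ ∧ ‖ξ‖ < 2 * c} :=
      (measurableSet_le measurable_const measurable_norm).inter
        (measurableSet_lt measurable_norm measurable_const)
    rw [← lintegral_indicator hms, lint_φ, ← lint_smul _ hc]
    unfold n2
    refine lintegral_congr fun z => ?_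
    by_cases h1 : z ∈ ann 1 2
    · have h2 : φ (c • z) ∈ {ξ : E 2 | c ≤ ‖ξ‖ ∧ ‖ξ‖ < 2 * c} := by
        simp only [mem_ofPred_eq, φ_norm, nr_smul c hc]
        exact ⟨by nlinarith [h1.1], by nlinarith [h1.2]⟩
      rw [indicator_of_mem h2]
      unfold dl
      rw [indicator_of_mem h1]
      rfl
    · have h2 : φ (c • z) ∉ {ξ : E 2 | c ≤ ‖ξ‖ ∧ ‖ξ‖ < 2 * c} := by
        simp only [mem_ofPred_eq, φ_norm, nr_smul c hc]
        rintro ⟨h3, h4⟩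
        exact h1 ⟨by nlinarith, by nlinarith⟩
      rw [indicator_of_notMem h2]
      unfold dl
      rw [indicator_of_notMem h1]
      simp
  rw [hL]
  calc ENNReal.ofReal (c ^ 2) * ∫⁻ x : ℝ × ℝ, (⨆ k ∈ Finset.range (2 ^ m),
        ‖Ex ((ann 1 (1 + k / 2 ^ m)).indicator (dl c g)) x‖ₑ) ^ 2
      ≤ ENNReal.ofReal (c ^ 2) * (C * ((lg m : ℕ) : ℝ≥0∞) ^ α * n2 (dl c g)) :=
        mul_le_mul' le_rfl hmain
    _ = C * ((lg m : ℕ) : ℝ≥0∞) ^ α * ((ENNReal.ofReal (c ^ 2) * ENNReal.ofReal ((c ^ 2)⁻¹)) *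
        ∫⁻ ξ in {ξ : E 2 | c ≤ ‖ξ‖ ∧ ‖ξ‖ < 2 * c}, ‖h ξ‖ₑ ^ 2) := by
        rw [hR]
        ring
    _ = _ := by
        rw [← ENNReal.ofReal_mul (by positivity), mul_inv_cancel₀ (by positivity),
          ENNReal.ofReal_one, one_mul]

end Pool.Agent.SEnd
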