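import Pool.Agent.SLog.EndTargets
import Pool.Agent.KSP.SS

set_option autoImplicit false

/-! S5: all octaves. -/

namespace Pool.Agent.SEnd

open MeasureTheory FourierTransform Set Filter Topology
open scoped ENNReal NNReal
open Pool.Agent.MBS (E ex T S Sstar et ps mul pm Tstar Pstar MF)
open Pool.Agent.KSP (lg IE BdE muS BI)

open Pool.Agent.KSP.SS_ in
theorem pSSs (α : ℕ) (h : tSms α) : tSSs α := by
  obtain ⟨C, hC⟩ := h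
  refine ⟨C * 3, fun m f hm hf h2 => ?_⟩
  have hmeas : ∀ j : ℤ, MeasurableSet {ξ : E 2 | (2 : ℝ) ^ j / 2 ≤ ‖ξ‖ ∧ ‖ξ‖ ≤ 2 * 2 ^ j} :=
    fun j => (measurableSet_le measurable_const measurable_norm).inter
      (measurableSet_le measurable_norm measurable_const)
  have hFc := MBS.J8.fourier_cont hf
  have hFm : Measurable (fun ξ => ‖𝓕 f ξ‖ₑ ^ 2) := hFc.measurable.enorm.pow_const 2
  set K : ℝ≥0∞ := C * ((lg m : ℕ) : ℝ≥0∞) ^ α with hK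
  calc ∫⁻ x, (⨆ (R : ℝ) (_ : 0 < R), ‖T (muS m R) (𝓕 f) x‖ₑ) ^ 2
      ≤ ∫⁻ x, ∑' j : ℤ, (⨆ R ∈ Icc ((2 : ℝ) ^ j) (2 * 2 ^ j), ‖T (muS m R) (𝓕 f) x‖ₑ) ^ 2 :=
        lintegral_mono fun x => pointwise m f x
    _ = ∑' j : ℤ, ∫⁻ x, (⨆ R ∈ Icc ((2 : ℝ) ^ j) (2 * 2 ^ j), ‖T (muS m R) (𝓕 f) x‖ₑ) ^ 2 := by
        rw [lintegral_tsum]
        intro j
        exact ((sup_meas m (by positivity) hFc).pow_const 2).aemeasurable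
    _ ≤ ∑' j : ℤ, K * ∫⁻ ξ in {ξ : E 2 | (2 : ℝ) ^ j / 2 ≤ ‖ξ‖ ∧ ‖ξ‖ ≤ 2 * 2 ^ j}, ‖𝓕 f ξ‖ₑ ^ 2 :=
        ENNReal.tsum_le_tsum fun j => hC m _ _ hm (by positivity) hFc
    _ = K * ∫⁻ ξ, ∑' j : ℤ, ({ξ : E 2 | (2 : ℝ) ^ j / 2 ≤ ‖ξ‖ ∧ ‖ξ‖ ≤ 2 * 2 ^ j}).indicator
          (fun ξ => ‖𝓕 f ξ‖ₑ ^ 2) ξ := by
        rw [ENNReal.tsum_mul_left, lintegral_tsum]
        · congr 1
          refine tsum_congr fun j => ?_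
          rw [lintegral_indicator (hmeas j)]
        · exact fun j => (hFm.indicator (hmeas j)).aemeasurable
    _ ≤ K * ∫⁻ ξ, 3 * ‖𝓕 f ξ‖ₑ ^ 2 := by
        refine mul_le_mul_right (lintegral_mono fun ξ => ?_) _
        have h1 : ∀ j : ℤ, ({ξ : E 2 | (2 : ℝ) ^ j / 2 ≤ ‖ξ‖ ∧ ‖ξ‖ ≤ 2 * 2 ^ j}).indicator
            (fun ξ => ‖𝓕 f ξ‖ₑ ^ 2) ξ =
            ({j : ℤ | (2 : ℝ) ^ j / 2 ≤ ‖ξ‖ ∧ ‖ξ‖ ≤ 2 * 2 ^ j} : Set ℤ).indicator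
              (fun _ => (1 : ℝ≥0∞)) j * ‖𝓕 f ξ‖ₑ ^ 2 := by
          intro j
          by_cases h : (2 : ℝ) ^ j / 2 ≤ ‖ξ‖ ∧ ‖ξ‖ ≤ 2 * 2 ^ j
          · rw [indicator_of_mem (by exact h), indicator_of_mem (by exact h), one_mul]
          · rw [indicator_of_notMem (by exact h), indicator_of_notMem (by exact h), zero_mul]
        simp only [h1]
        rw [ENNReal.tsum_mul_right]
        exact mul_le_mul_left (MBS.J8.overlap ‖ξ‖) _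
    _ = ↑(C * 3) * ((lg m : ℕ) : ℝ≥0∞) ^ α * ∫⁻ x, ‖f x‖ₑ ^ 2 := by
        rw [lintegral_const_mul _ hFm, MBS.J8.plancherel_sq hf h2, ← mul_assoc, hK]
        push_cast
        ring

end Pool.Agent.SEnd
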