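import Pool.Agent.SLog.Targets

set_option autoImplicit false

/-! MP_ee701d_an: the smooth cutoffs `1_A * Ps`. -/

namespace Pool.Agent.SLog

open MeasureTheory Set
open scoped ENNReal NNReal ComplexConjugate
open Pool.Agent.KSP (ee dot nr Ex Ex1 Bd Bd1 n1 n2 lg V0 ann)
open Pool.Agent.LLog (PA cd cdr cp fr tp Nn nv tv Core bx sa sd Qx kc psi kap GK psR psA anf mu Bf hat)

namespace ETA_

/-- product kernel in the frame of slope `t` -/
noncomputable def PE (t : ℝ) (k1 k2 : ℝ → ℝ) (z : ℝ × ℝ) : ℝ≥0∞ :=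
  ENNReal.ofReal (k1 (dot z (nv t))) * ENNReal.ofReal (k2 (dot z (tv t)))

lemma dot_cont (v : ℝ × ℝ) : Continuous (fun z : ℝ × ℝ => dot z v) := by
  unfold dot
  fun_prop

lemma PE_meas (t : ℝ) {k1 k2 : ℝ → ℝ} (h1 : Continuous k1) (h2 : Continuous k2) :
    Measurable (PE t k1 k2) := by
  unfold PE
  exact (ENNReal.measurable_ofReal.comp (h1.comp (dot_cont _)).measurable).mul
    (ENNReal.measurable_ofReal.comp (h2.comp (dot_cont _)).measurable)

lemma PE_int (hF : LLog.tFRM) (t : ℝ) {k1 k2 : ℝ → ℝ} (h1 : Continuous k1) (h2 : Continuous k2)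
    {S T : Set ℝ} (hS : MeasurableSet S) (hT : MeasurableSet T) :
    ∫⁻ z in {z | dot z (nv t) ∈ S ∧ dot z (tv t) ∈ T}, PE t k1 k2 z =
      (∫⁻ s in S, ENNReal.ofReal (k1 s)) * ∫⁻ s in T, ENNReal.ofReal (k2 s) := by
  have hm1 : Measurable fun s => ENNReal.ofReal (k1 s) :=
    ENNReal.measurable_ofReal.comp h1.measurable
  have hm2 : Measurable fun s => ENNReal.ofReal (k2 s) :=
    ENNReal.measurable_ofReal.comp h2.measurable
  have hset : MeasurableSet {z : ℝ × ℝ | dot z (nv t) ∈ S ∧ dot z (tv t) ∈ T} :=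
    ((dot_cont _).measurable hS).inter ((dot_cont _).measurable hT)
  obtain ⟨-, -, hF3, hF4, -⟩ := hF t
  rw [← lintegral_indicator hset, hF4 _ ((PE_meas t h1 h2).indicator hset)]
  have e : ∀ y s : ℝ, indicator {z : ℝ × ℝ | dot z (nv t) ∈ S ∧ dot z (tv t) ∈ T} (PE t k1 k2)
      (s • nv t + y • tv t) = S.indicator (fun s => ENNReal.ofReal (k1 s)) s *
        T.indicator (fun s => ENNReal.ofReal (k2 s)) y := by
    intro y s
    obtain ⟨e1, e2⟩ := hF3 s y
    by_cases hs : s ∈ S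
    · by_cases hy : y ∈ T
      · rw [indicator_of_mem (show s • nv t + y • tv t ∈
          {z : ℝ × ℝ | dot z (nv t) ∈ S ∧ dot z (tv t) ∈ T} by
            show dot _ _ ∈ S ∧ dot _ _ ∈ T
            rw [e1, e2]
            exact ⟨hs, hy⟩), indicator_of_mem hs, indicator_of_mem hy]
        unfold PE
        rw [e1, e2]
      · rw [indicator_of_notMem (show s • nv t + y • tv t ∉
          {z : ℝ × ℝ | dot z (nv t) ∈ S ∧ dot z (tv t) ∈ T} by
            intro h
            have h' := h.2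
            rw [e2] at h'
            exact hy h'), indicator_of_notMem hy, mul_zero]
    · rw [indicator_of_notMem (show s • nv t + y • tv t ∉
          {z : ℝ × ℝ | dot z (nv t) ∈ S ∧ dot z (tv t) ∈ T} by
            intro h
            have h' := h.1
            rw [e1] at h'
            exact hs h'), indicator_of_notMem hs, zero_mul]
  simp only [e]
  have e2 : ∀ y : ℝ, ∫⁻ s : ℝ, S.indicator (fun s => ENNReal.ofReal (k1 s)) s *
      T.indicator (fun s => ENNReal.ofReal (k2 s)) y =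
      (∫⁻ s in S, ENNReal.ofReal (k1 s)) * T.indicator (fun s => ENNReal.ofReal (k2 s)) y := by
    intro y
    rw [lintegral_mul_const _ (hm1.indicator hS), lintegral_indicator hS]
  simp only [e2]
  rw [lintegral_const_mul _ (hm2.indicator hT), lintegral_indicator hT]

lemma PE_one (hF : LLog.tFRM) (t : ℝ) {k1 k2 : ℝ → ℝ} (h1 : Continuous k1) (h2 : Continuous k2)
    (i1 : ∫⁻ t, ENNReal.ofReal (k1 t) = 1) (i2 : ∫⁻ t, ENNReal.ofReal (k2 t) = 1) :
    ∫⁻ z, PE t k1 k2 z = 1 := by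
  have := PE_int hF t h1 h2 MeasurableSet.univ MeasurableSet.univ
  simpa [i1, i2] using this

lemma PE_tail (hF : LLog.tFRM) (t : ℝ) {k1 k2 : ℝ → ℝ} (h1 : Continuous k1) (h2 : Continuous k2)
    (i1 : ∫⁻ t, ENNReal.ofReal (k1 t) = 1) (i2 : ∫⁻ t, ENNReal.ofReal (k2 t) = 1)
    {R1 R2 A B : ℝ} {ε : ℝ≥0∞} (hR1 : R1 < A) (hR2 : R2 < B)
    (j1 : ∫⁻ t in {t : ℝ | R1 < |t|}, ENNReal.ofReal (k1 t) ≤ ε)
    (j2 : ∫⁻ t in {t : ℝ | R2 < |t|}, ENNReal.ofReal (k2 t) ≤ ε) :
    ∫⁻ z in {z : ℝ × ℝ | ¬ (|dot z (nv t)| < A ∧ |dot z (tv t)| < B)}, PE t k1 k2 z ≤ 2 * ε := by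
  have hS1 : MeasurableSet {s : ℝ | R1 < |s|} := measurableSet_lt measurable_const (by fun_prop)
  have hS2 : MeasurableSet {s : ℝ | R2 < |s|} := measurableSet_lt measurable_const (by fun_prop)
  have h3 : {z : ℝ × ℝ | ¬ (|dot z (nv t)| < A ∧ |dot z (tv t)| < B)} ⊆
      {z | dot z (nv t) ∈ {s : ℝ | R1 < |s|} ∧ dot z (tv t) ∈ (univ : Set ℝ)} ∪
      {z | dot z (nv t) ∈ (univ : Set ℝ) ∧ dot z (tv t) ∈ {s : ℝ | R2 < |s|}} := by
    intro z hz
    simp only [mem_ofPred_eq, not_and_or, not_lt] at hz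
    rcases hz with hz | hz
    · left
      exact ⟨lt_of_lt_of_le hR1 hz, mem_univ _⟩
    · right
      exact ⟨mem_univ _, lt_of_lt_of_le hR2 hz⟩
  refine (lintegral_mono_set h3).trans ((lintegral_union_le _ _ _).trans ?_)
  rw [PE_int hF t h1 h2 hS1 MeasurableSet.univ, PE_int hF t h1 h2 MeasurableSet.univ hS2,
    Measure.restrict_univ, i1, i2, mul_one, one_mul, two_mul]
  exact add_le_add j1 j2

lemma shift (F : ℝ × ℝ → ℝ≥0∞) (x : ℝ × ℝ) : ∫⁻ y, F (x - y) = ∫⁻ y, F y :=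
  lintegral_sub_left_eq_self F x

lemma shift_set {F : ℝ × ℝ → ℝ≥0∞} (x : ℝ × ℝ) (A B : Set (ℝ × ℝ)) (hA : MeasurableSet A)
    (hB : MeasurableSet B) (h : ∀ y ∈ A, x - y ∈ B) :
    ∫⁻ y in A, F (x - y) ≤ ∫⁻ y in B, F y := by
  rw [← lintegral_indicator hA, ← lintegral_indicator hB, ← shift (B.indicator F) x]
  refine lintegral_mono fun y => ?_
  by_cases hy : y ∈ A
  · rw [indicator_of_mem hy, indicator_of_mem (h y hy)]
  · rw [indicator_of_notMem hy]
    exact zero_le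

lemma dot_sub' (x y v : ℝ × ℝ) : dot (x - y) v = - dot (y - x) v := by
  unfold dot
  simp only [Prod.fst_sub, Prod.snd_sub]
  ring

lemma bf_ind {Y : Set (ℝ × ℝ)} (hY : MeasurableSet Y) (hv : volume Y < ⊤) :
    Bf (Y.indicator (fun _ => (1 : ℂ))) := by
  refine ⟨measurable_const.indicator hY, ⟨1, fun x => ?_⟩, ?_⟩
  · by_cases hx : x ∈ Y
    · rw [indicator_of_mem hx]
      simp
    · rw [indicator_of_notMem hx]
      simp
  · refine lt_of_le_of_lt (measure_mono fun x hx => ?_) hv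
    by_contra h
    exact hx (indicator_of_notMem h _)

end ETA_

open ETA_ in
theorem pETA (hKAP : LLog.tKAP) (hPRD : LLog.tPRD) (hCVK : LLog.tCVK) (hFRM : LLog.tFRM)
    (hHAT : LLog.tHAT) : tETA := by
  intro m t b1 b2 A hm hb1 hb2 hA hv
  have hN : Even (40 * m) := ⟨20 * m, by ring⟩
  obtain ⟨p1, c1, i1, j1, β1, hβ1, s1, E1⟩ := hKAP (40 * m) b1 hN (by omega) hb1
  obtain ⟨p2, c2, i2, j2, β2, hβ2, s2, E2⟩ := hKAP (40 * m) b2 hN (by omega) hb2
  set k1 : ℝ → ℝ := kap (40 * m) b1 with hk1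
  set k2 : ℝ → ℝ := kap (40 * m) b2 with hk2
  have hPm := PE_meas t c1 c2
  have hone := PE_one hFRM t c1 c2 i1 i2
  have hPs : ∀ z, Ps m t b1 b2 z = k1 (dot z (nv t)) * k2 (dot z (tv t)) := fun z => rfl
  have hPs0 : ∀ z, 0 ≤ Ps m t b1 b2 z := fun z => mul_nonneg (p1 _) (p2 _)
  have hPE : ∀ z, ENNReal.ofReal (Ps m t b1 b2 z) = PE t k1 k2 z := fun z =>
    ENNReal.ofReal_mul (p1 _)
  have hPc : Continuous (Ps m t b1 b2) := (c1.comp (dot_cont _)).mul (c2.comp (dot_cont _))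
  have het : ∀ x, et m t b1 b2 A x = (∫⁻ y in A, PE t k1 k2 (x - y)).toReal := by
    intro x
    unfold et
    rw [integral_eq_lintegral_of_nonneg_ae]
    · congr 1
      exact lintegral_congr fun y => hPE _
    · exact Filter.Eventually.of_forall fun z => hPs0 _
    · exact (hPc.comp (continuous_const.sub continuous_id)).aestronglyMeasurable
  have hle : ∀ x, ∫⁻ y in A, PE t k1 k2 (x - y) ≤ 1 := by
    intro x
    rw [← hone, ← shift (PE t k1 k2) x]
    exact setLIntegral_le_lintegral _ _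
  have hmA : Measurable fun x => ∫⁻ y in A, PE t k1 k2 (x - y) := by
    have h5 : Measurable (fun P : (ℝ × ℝ) × (ℝ × ℝ) => PE t k1 k2 (P.1 - P.2)) :=
      hPm.comp (measurable_fst.sub measurable_snd)
    exact h5.lintegral_prod_right' (ν := volume.restrict A)
  have htm : ∀ A' B' : ℝ, MeasurableSet {z : ℝ × ℝ | ¬ (|dot z (nv t)| < A' ∧ |dot z (tv t)| < B')} := by
    intro A' B'
    have h5 : MeasurableSet {z : ℝ × ℝ | |dot z (nv t)| < A'} :=
      measurableSet_lt (continuous_abs.comp (dot_cont _)).measurable measurable_const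
    have h6 : MeasurableSet {z : ℝ × ℝ | |dot z (tv t)| < B'} :=
      measurableSet_lt (continuous_abs.comp (dot_cont _)).measurable measurable_const
    exact (h5.inter h6).compl
  have htail : ∀ A' B' : ℝ, 40 * m / b1 < A' → 40 * m / b2 < B' →
      ∫⁻ z in {z : ℝ × ℝ | ¬ (|dot z (nv t)| < A' ∧ |dot z (tv t)| < B')}, PE t k1 k2 z ≤
        ENNReal.ofReal (2 / 2 ^ (40 * m)) := by
    intro A' B' h1 h2
    push_cast at j1 j2
    refine (PE_tail hFRM t c1 c2 i1 i2 h1 h2 j1 j2).trans (le_of_eq ?_)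
    rw [← ENNReal.ofReal_ofNat, ← ENNReal.ofReal_mul (by norm_num), mul_one_div]
  have hout : ∀ (x : ℝ × ℝ) (A' B' : ℝ) (y : ℝ × ℝ), y ∉ bx t x A' B' →
      x - y ∈ {z : ℝ × ℝ | ¬ (|dot z (nv t)| < A' ∧ |dot z (tv t)| < B')} := by
    intro x A' B' y hy h
    apply hy
    obtain ⟨h1, h2⟩ := h
    rw [dot_sub', abs_neg] at h1 h2
    exact ⟨h1, h2⟩
  refine ⟨?_, ?_, ?_, ?_, ?_⟩
  · have : et m t b1 b2 A = fun x => (∫⁻ y in A, PE t k1 k2 (x - y)).toReal := funext het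
    rw [this]
    exact hmA.ennreal_toReal
  · intro x
    rw [het]
    exact ⟨ENNReal.toReal_nonneg, by
      have := ENNReal.toReal_mono ENNReal.one_ne_top (hle x)
      simpa using this⟩
  · intro x A' B' h1 h2 hy
    rw [het]
    refine ENNReal.toReal_le_of_le_ofReal (by positivity) ?_
    refine (shift_set x A _ hA (htm A' B') ?_).trans (htail A' B' h1 h2)
    intro y hyA
    exact hout x A' B' y fun h => hy y h hyA
  · intro x A' B' h1 h2 hy
    have h5 : (∫⁻ y in A, PE t k1 k2 (x - y)) + ∫⁻ y in Aᶜ, PE t k1 k2 (x - y) = 1 := by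
      rw [lintegral_add_compl _ hA, shift, hone]
    have h6 : ∫⁻ y in Aᶜ, PE t k1 k2 (x - y) ≤ ENNReal.ofReal (2 / 2 ^ (40 * m)) := by
      refine (shift_set x _ _ hA.compl (htm A' B') ?_).trans (htail A' B' h1 h2)
      intro y hyA
      exact hout x A' B' y fun h => hyA (hy y h)
    have h7 : ((∫⁻ y in A, PE t k1 k2 (x - y)) + ∫⁻ y in Aᶜ, PE t k1 k2 (x - y)).toReal = 1 := by
      rw [h5]
      rfl
    rw [ENNReal.toReal_add (ne_top_of_le_ne_top ENNReal.one_ne_top (hle x))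
      (ne_top_of_le_ne_top ENNReal.ofReal_ne_top h6)] at h7
    have h8 : (∫⁻ y in Aᶜ, PE t k1 k2 (x - y)).toReal ≤ 2 / 2 ^ (40 * m) :=
      ENNReal.toReal_le_of_le_ofReal (by positivity) h6
    rw [het]
    linarith
  · have hBf := bf_ind hA hv
    obtain ⟨hBd, hP2, -⟩ := hPRD t 1 1 β1 β2 hβ1 hβ2 one_pos one_pos
    obtain ⟨hhc, ⟨B, hhB⟩, -⟩ := hHAT _ hBf
    obtain ⟨-, hC2⟩ := hCVK _ hBd
    refine ⟨fun ξ => β1 (dot ξ (nv t)) * β2 (dot ξ (tv t)) *
      hat (A.indicator fun _ => (1 : ℂ)) ξ, ?_, ?_, ?_⟩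
    · obtain ⟨hm', ⟨B', hB'⟩, ⟨R, hR'⟩⟩ := hBd
      refine ⟨hm'.mul hhc.measurable, ⟨B' * B, fun ξ => ?_⟩, ⟨R, fun ξ hξ => ?_⟩⟩
      · rw [norm_mul]
        exact mul_le_mul (hB' _) (hhB _) (norm_nonneg _) ((norm_nonneg _).trans (hB' 0))
      · exact hR' ξ (left_ne_zero_of_mul hξ)
    · intro ξ hξ
      have h5 := left_ne_zero_of_mul hξ
      exact ⟨s1 _ (left_ne_zero_of_mul h5), s2 _ (right_ne_zero_of_mul h5)⟩
    · intro x
      rw [hC2 _ hBf x]
      have h5 : ∀ z, Ex (fun ξ : ℝ × ℝ => β1 (dot ξ (nv t)) * β2 (dot ξ (tv t))) (x - z) *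
          A.indicator (fun _ => (1 : ℂ)) z =
          ((A.indicator (fun z => Ps m t b1 b2 (x - z)) z : ℝ) : ℂ) := by
        intro z
        rw [hP2, E1, E2]
        by_cases hz : z ∈ A
        · rw [indicator_of_mem hz, indicator_of_mem hz, hPs]
          push_cast
          ring
        · rw [indicator_of_notMem hz, indicator_of_notMem hz]
          simp
      rw [integral_congr_ae (Filter.Eventually.of_forall h5), integral_complex_ofReal,
        integral_indicator hA]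
      rfl

end Pool.Agent.SLog
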