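import Pool.Agent.SLog.Targets

set_option autoImplicit false

/-! MP_ee701d_an (SLog): FRQ, frequency supports of the pieces multiplied by cutoffs. -/

namespace Pool.Agent.SLog

open MeasureTheory Set
open scoped ENNReal NNReal ComplexConjugate
open Pool.Agent.KSP (ee dot nr Ex Ex1 Bd Bd1 n1 n2 lg V0 ann)
open Pool.Agent.LLog (PA cd cdr cp fr tp Nn nv tv Core bx sa sd Qx kc psi kap GK psR psA anf mu Bf hat)

namespace FRQ_

/-! ### Linearity of `Ex` -/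

theorem bd_sub {f g : ℝ × ℝ → ℂ} (hf : Bd f) (hg : Bd g) : Bd (fun ξ => f ξ - g ξ) := by
  obtain ⟨hf1, ⟨B, hB⟩, R, hR⟩ := hf
  obtain ⟨hg1, ⟨B', hB'⟩, R', hR'⟩ := hg
  refine ⟨hf1.sub hg1, ⟨B + B', fun ξ => (norm_sub_le _ _).trans (add_le_add (hB ξ) (hB' ξ))⟩,
    max R R', fun ξ h => ?_⟩
  by_cases h0 : f ξ = 0
  · have h1 : g ξ ≠ 0 := fun h1 => h (by simp [h0, h1])
    exact ⟨(hR' ξ h1).1.trans (le_max_right _ _), (hR' ξ h1).2.trans (le_max_right _ _)⟩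
  · exact ⟨(hR ξ h0).1.trans (le_max_left _ _), (hR ξ h0).2.trans (le_max_left _ _)⟩

theorem ee_norm (t : ℝ) : ‖ee t‖ = 1 := by
  unfold KSP.ee
  rw [Complex.norm_exp]
  simp

theorem ee_cont : Continuous ee := by
  unfold KSP.ee
  fun_prop

theorem dot_cont : Continuous (fun p : (ℝ × ℝ) × (ℝ × ℝ) => dot p.1 p.2) := by
  unfold KSP.dot
  fun_prop

theorem ex_int {h : ℝ × ℝ → ℂ} (hh : Bd h) (x : ℝ × ℝ) :
    Integrable (fun ξ => h ξ * ee (dot x ξ)) := by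
  obtain ⟨h1, ⟨B, hB⟩, ⟨R, hR⟩⟩ := hh
  have hm : Measurable (fun ξ => h ξ * ee (dot x ξ)) := by
    refine h1.mul (ee_cont.measurable.comp ?_)
    exact (dot_cont.comp (Continuous.prodMk_right x)).measurable
  have hsupp : (fun ξ => h ξ * ee (dot x ξ)) =
      (Icc (-R) R ×ˢ Icc (-R) R).indicator (fun ξ => h ξ * ee (dot x ξ)) := by
    funext ξ
    by_cases hξ : ξ ∈ Icc (-R) R ×ˢ Icc (-R) R
    · rw [indicator_of_mem hξ]
    · rw [indicator_of_notMem hξ]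
      by_cases h0 : h ξ = 0
      · rw [h0, zero_mul]
      · exfalso
        obtain ⟨h2, h3⟩ := hR ξ h0
        exact hξ ⟨abs_le.mp h2, abs_le.mp h3⟩
  rw [hsupp, integrable_indicator_iff (measurableSet_Icc.prod measurableSet_Icc)]
  refine Measure.integrableOn_of_bounded (M := B) ?_ hm.aestronglyMeasurable ?_
  · rw [Measure.volume_eq_prod, Measure.prod_prod]
    simp only [Real.volume_Icc]
    exact (ENNReal.mul_lt_top ENNReal.ofReal_lt_top ENNReal.ofReal_lt_top).ne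
  · refine Filter.Eventually.of_forall fun ξ => ?_
    rw [norm_mul, ee_norm, mul_one]
    exact hB ξ

theorem ex_sub {f g : ℝ × ℝ → ℂ} (hf : Bd f) (hg : Bd g) (x : ℝ × ℝ) :
    Ex (fun ξ => f ξ - g ξ) x = Ex f x - Ex g x := by
  unfold KSP.Ex
  rw [← integral_sub (ex_int hf x) (ex_int hg x)]
  refine integral_congr_ae (Filter.Eventually.of_forall fun ξ => ?_)
  simp only [sub_mul]

/-! ### Multipliers on the `x` side -/

/-- multiplication by `φ` moves frequencies by at most `α`, `β` in the frame `t` -/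
def Ms (t α β : ℝ) (φ : ℝ × ℝ → ℂ) : Prop :=
  ∀ k : ℝ × ℝ → ℂ, Bd k → ∃ k', Bd k' ∧ (∀ ξ, k' ξ ≠ 0 → ∃ ξ0, k ξ0 ≠ 0 ∧
    |dot (ξ - ξ0) (nv t)| ≤ α ∧ |dot (ξ - ξ0) (tv t)| ≤ β) ∧ ∀ x, Ex k' x = φ x * Ex k x

theorem dot_self (ξ v : ℝ × ℝ) : dot (ξ - ξ) v = 0 := by
  simp [KSP.dot]

theorem dot_split (ξ ξ1 ξ0 v : ℝ × ℝ) :
    dot (ξ - ξ0) v = dot (ξ - ξ1) v + dot (ξ1 - ξ0) v := by
  simp only [KSP.dot, Prod.fst_sub, Prod.snd_sub]
  ring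

theorem ms_one (t : ℝ) : Ms t 0 0 (fun _ => 1) := by
  intro k hk
  refine ⟨k, hk, fun ξ h => ⟨ξ, h, ?_, ?_⟩, fun x => (one_mul _).symm⟩
  · rw [dot_self, abs_zero]
  · rw [dot_self, abs_zero]

theorem ms_mul {t α β α' β' : ℝ} {φ ψ : ℝ × ℝ → ℂ} (h1 : Ms t α β φ) (h2 : Ms t α' β' ψ) :
    Ms t (α + α') (β + β') (fun x => φ x * ψ x) := by
  intro k hk
  obtain ⟨k1, hk1, hs1, he1⟩ := h2 k hk
  obtain ⟨k2, hk2, hs2, he2⟩ := h1 k1 hk1
  refine ⟨k2, hk2, fun ξ hξ => ?_, fun x => by rw [he2, he1, mul_assoc]⟩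
  obtain ⟨ξ1, hξ1, ha, hb⟩ := hs2 ξ hξ
  obtain ⟨ξ0, hξ0, hc, hd⟩ := hs1 ξ1 hξ1
  refine ⟨ξ0, hξ0, ?_, ?_⟩
  · rw [dot_split ξ ξ1 ξ0]
    exact (abs_add_le _ _).trans (add_le_add ha hc)
  · rw [dot_split ξ ξ1 ξ0]
    exact (abs_add_le _ _).trans (add_le_add hb hd)

theorem ms_one_sub {t α β : ℝ} {φ : ℝ × ℝ → ℂ} (h1 : Ms t α β φ) (hα : 0 ≤ α) (hβ : 0 ≤ β) :
    Ms t α β (fun x => 1 - φ x) := by
  intro k hk
  obtain ⟨k1, hk1, hs1, he1⟩ := h1 k hk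
  refine ⟨fun ξ => k ξ - k1 ξ, bd_sub hk hk1, fun ξ hξ => ?_, fun x => ?_⟩
  · by_cases h : k1 ξ = 0
    · refine ⟨ξ, fun h0 => hξ (by simp only [h, h0, sub_zero]), ?_, ?_⟩
      · rw [dot_self, abs_zero]
        exact hα
      · rw [dot_self, abs_zero]
        exact hβ
    · exact hs1 ξ h
  · rw [ex_sub hk hk1, he1]
    ring

theorem ms_prod {t : ℝ} (n : ℕ) (φ : ℕ → ℝ × ℝ → ℂ) (α β : ℕ → ℝ)
    (h : ∀ i < n, Ms t (α i) (β i) (φ i)) :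
    Ms t (∑ i ∈ Finset.range n, α i) (∑ i ∈ Finset.range n, β i)
      (fun x => ∏ i ∈ Finset.range n, φ i x) := by
  induction n with
  | zero => simpa using ms_one t
  | succ n ih =>
    have h1 := ms_mul (ih fun i hi => h i (by omega)) (h n (by omega))
    simp only [Finset.sum_range_succ, Finset.prod_range_succ]
    exact h1

theorem ms_mono {t α β α' β' : ℝ} {φ : ℝ × ℝ → ℂ} (h : Ms t α β φ) (hα : α ≤ α')
    (hβ : β ≤ β') : Ms t α' β' φ := by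
  intro k hk
  obtain ⟨k1, hk1, hs1, he1⟩ := h k hk
  refine ⟨k1, hk1, fun ξ hξ => ?_, he1⟩
  obtain ⟨ξ0, h0, ha, hb⟩ := hs1 ξ hξ
  exact ⟨ξ0, h0, ha.trans hα, hb.trans hβ⟩

theorem ms_congr {t α β : ℝ} {φ ψ : ℝ × ℝ → ℂ} (h : Ms t α β φ) (he : ∀ x, φ x = ψ x) :
    Ms t α β ψ := by
  have : φ = ψ := funext he
  rwa [← this]

theorem ms_ex (hCHN : tCHN) {t α β : ℝ} {e : ℝ × ℝ → ℂ} (he : Bd e) (hα : 0 ≤ α) (hβ : 0 ≤ β)
    (hs : ∀ ζ, e ζ ≠ 0 → |dot ζ (nv t)| ≤ α ∧ |dot ζ (tv t)| ≤ β) : Ms t α β (Ex e) := by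
  have h1 : Ms t α β (fun x => 1 - Ex e x) := by
    intro k hk
    obtain ⟨k', hk', hs', he'⟩ := hCHN 1 t k (fun _ => e) (fun _ => α) (fun _ => β) hk
      (fun i _ => ⟨he, hα, hβ, hs⟩)
    refine ⟨k', hk', fun ξ hξ => ?_, fun x => ?_⟩
    · simpa using hs' ξ hξ
    · rw [he' x]
      simp [mul_comm]
  refine ms_congr (ms_one_sub h1 hα hβ) fun x => ?_
  ring

/-! ### The cutoffs -/

theorem bb_nonneg (a l : ℕ) : 0 < bb a l := by
  unfold bb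
  positivity

theorem ms_eti (hCHN : tCHN) (hETA : tETA) (hSBR : tSBR) {a m l i p : ℕ} {sl : ℝ}
    (hm : 1 ≤ m) (hsl1 : 1 ≤ sl) (hsl2 : sl < 2) (hp : p ∈ PP a l) (hi : i ≤ l + 8 * a)
    {A : Set (ℝ × ℝ)} (hA : MeasurableSet A) (hA' : volume A < ⊤) :
    Ms (tp sl (l + 8 * a) p) (bb a l) (2 ^ i * bb a l)
      (fun x => (eti a m sl l i (p / 2 ^ (l + 8 * a - i)) A x : ℂ)) := by
  have hb := bb_nonneg a l
  have h2i : (1 : ℝ) ≤ 2 ^ i := one_le_pow₀ (by norm_num)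
  obtain ⟨-, -, -, -, g, hg, hs, he⟩ := hETA m (tp sl i (p / 2 ^ (l + 8 * a - i))) (bb a l)
    (2 ^ i * bb a l) A hm hb (by positivity) hA hA'
  have h1 : Ms (tp sl (l + 8 * a) p) (bb a l) (2 ^ i * bb a l) (Ex g) := by
    refine ms_ex hCHN hg hb.le (by positivity) fun ζ hζ => ?_
    obtain ⟨h3, h4⟩ := hs ζ hζ
    obtain ⟨h5, h6⟩ := (hSBR a l i p sl (bb a l / 2) (2 ^ i * bb a l / 2) ζ hsl1 hsl2 hp hi).1 h3 h4
    refine ⟨h5.trans (le_of_eq ?_), h6.trans ?_⟩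
    · field_simp
      ring
    · have h7 : bb a l / 2 / 2 ^ i ≤ bb a l / 2 := div_le_self (by positivity) h2i
      have h8 : bb a l ≤ 2 ^ i * bb a l := le_mul_of_one_le_left hb.le h2i
      linarith
  exact ms_congr h1 he

theorem nb_open (a l : ℕ) (Y : Set (ℝ × ℝ)) : IsOpen (nb a l Y) := by
  have h : nb a l Y = ⋃ y ∈ Y, ({x : ℝ × ℝ | |y.1 - x.1| < 2 ^ (l + 15 * a)} ∩
      {x : ℝ × ℝ | |y.2 - x.2| < 2 ^ (l + 15 * a)}) := by
    ext x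
    simp only [nb, mem_ofPred_eq, mem_iUnion, mem_inter_iff, exists_prop]
  rw [h]
  refine isOpen_biUnion fun y _ => ?_
  have h1 : Continuous fun x : ℝ × ℝ => |y.1 - x.1| := by fun_prop
  have h2 : Continuous fun x : ℝ × ℝ => |y.2 - x.2| := by fun_prop
  exact (isOpen_lt h1 continuous_const).inter (isOpen_lt h2 continuous_const)

theorem l2_lt {w : ℝ × ℝ → ℂ} (hw : Bf w) : ∫⁻ x, ‖w x‖ₑ ^ 2 < ⊤ := by
  obtain ⟨hm, ⟨B, hB⟩, hv⟩ := hw
  have hS : MeasurableSet {x | w x ≠ 0} := (hm (measurableSet_singleton 0)).compl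
  have h1 : ∀ x, ‖w x‖ₑ ^ 2 ≤ {x | w x ≠ 0}.indicator (fun _ => ENNReal.ofReal B ^ 2) x := by
    intro x
    by_cases hx : w x = 0
    · simp [hx]
    · rw [indicator_of_mem (show x ∈ {x | w x ≠ 0} from hx)]
      refine pow_le_pow_left₀ (by positivity) ?_ 2
      rw [← ofReal_norm]
      exact ENNReal.ofReal_le_ofReal (hB x)
  refine (lintegral_mono h1).trans_lt ?_
  rw [lintegral_indicator_const hS]
  exact ENNReal.mul_lt_top (ENNReal.pow_lt_top ENNReal.ofReal_lt_top) hv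

theorem num1 (a m l : ℕ) (hPA : PA a m) (hl : l ≤ m) :
    ((l + 8 * a + 2 : ℕ) : ℝ) * bb a l ≤ 1 / (4 ^ l * 2 ^ (7 * a)) := by
  obtain ⟨ha, hm, -⟩ := hPA
  have h1 : a < 2 ^ a := Nat.lt_two_pow_self
  have h2 : (2 : ℕ) ^ 4 ≤ 2 ^ (16 * a) := Nat.pow_le_pow_right (by norm_num) (by omega)
  have h3 : l + 8 * a + 2 ≤ 2 ^ (17 * a) := by
    calc l + 8 * a + 2 ≤ 2 ^ 4 * 2 ^ a := by omega
      _ ≤ 2 ^ (16 * a) * 2 ^ a := Nat.mul_le_mul_right _ h2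
      _ = 2 ^ (17 * a) := by rw [← pow_add]; congr 1; ring
  have h4 : ((l + 8 * a + 2 : ℕ) : ℝ) ≤ 2 ^ (17 * a) := by exact_mod_cast h3
  unfold bb
  have h5 : (2 : ℝ) ^ (24 * a) = 2 ^ (17 * a) * 2 ^ (7 * a) := by
    rw [← pow_add]
    congr 1
    ring
  calc ((l + 8 * a + 2 : ℕ) : ℝ) * (1 / (4 ^ l * 2 ^ (24 * a)))
      ≤ 2 ^ (17 * a) * (1 / (4 ^ l * 2 ^ (24 * a))) :=
        mul_le_mul_of_nonneg_right h4 (by positivity)
    _ = 1 / (4 ^ l * 2 ^ (7 * a)) := by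
        rw [h5]
        field_simp

theorem num2 (a l : ℕ) (ha : 20 ≤ a) :
    3 * 2 ^ (l + 8 * a) * bb a l ≤ 1 / 2 ^ (l + 14 * a) := by
  have h1 : (3 : ℝ) ≤ 2 ^ (2 * a) := by
    calc (3 : ℝ) ≤ 2 ^ 2 := by norm_num
      _ ≤ 2 ^ (2 * a) := pow_le_pow_right₀ (by norm_num) (by omega)
  have h2 : (4 : ℝ) ^ l * 2 ^ (24 * a) = 2 ^ (l + 8 * a) * 2 ^ (l + 14 * a) * 2 ^ (2 * a) := by
    rw [show (4 : ℝ) = 2 ^ 2 by norm_num, ← pow_mul, ← pow_add, ← pow_add, ← pow_add]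
    congr 1
    ring
  unfold bb
  rw [h2]
  calc (3 : ℝ) * 2 ^ (l + 8 * a) * (1 / (2 ^ (l + 8 * a) * 2 ^ (l + 14 * a) * 2 ^ (2 * a)))
      ≤ 2 ^ (2 * a) * 2 ^ (l + 8 * a) * (1 / (2 ^ (l + 8 * a) * 2 ^ (l + 14 * a) * 2 ^ (2 * a))) := by
        gcongr
    _ = 1 / 2 ^ (l + 14 * a) := by field_simp

theorem bx_mono {a l c p : ℕ} {sg sl ε ε' : ℝ} (h : ε' ≤ ε) {ξ : ℝ × ℝ}
    (hξ : ξ ∈ BX a l sg sl ε c p) : ξ ∈ BX a l sg sl ε' c p := by
  obtain ⟨h1, h2, h3, h4, h5, h6, h7⟩ := hξ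
  exact ⟨by linarith, by linarith, by linarith, by linarith, by linarith, by linarith,
    by linarith⟩

end FRQ_

open FRQ_

/-- frequency supports of the pieces multiplied by cutoffs -/
theorem pFRQ (hCHN : tCHN) (hETA : tETA) (hETP : tETP) (hSBR : tSBR) (hBXV : tBXV) (hMUP : tMUP)
    (hVB : tVB) : tFRQ := by
  intro a m l c p sg sl w Y hHP hc hp hw hY hnb
  obtain ⟨hPA, h10, hlm, hsg0, hsg1, hsl1, hsl2⟩ := id hHP
  have ha : 20 ≤ a := hPA.1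
  have hm : 1 ≤ m := by omega
  have hb := bb_nonneg a l
  set t := tp sl (l + 8 * a) p with ht
  -- the heavy cutoff
  have hG : Measurable ((nb a l Y).indicator (1 : ℝ × ℝ → ℝ≥0∞)) :=
    measurable_one.indicator (nb_open a l Y).measurableSet
  have hGi : ∫⁻ x, (nb a l Y).indicator (1 : ℝ × ℝ → ℝ≥0∞) x ≠ ⊤ := by
    rw [lintegral_indicator_one (nb_open a l Y).measurableSet]
    exact hnb.ne
  obtain ⟨hH1, hH2, -, -⟩ := hETP a m l (l + 8 * a) p sl (Real.toNNReal (1 / 2 ^ (58 * a)))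
    ((nb a l Y).indicator 1) (Hv a l sl Y p) hPA (by rw [Real.toNNReal_pos]; positivity) hG hGi rfl
  have hEH : Ms t (bb a l) (2 ^ (l + 8 * a) * bb a l) (fun x => (eh a m sl l Y p x : ℂ)) := by
    have h := ms_eti hCHN hETA hSBR (m := m) hm hsl1 hsl2 hp le_rfl hH1 hH2
    rw [Nat.sub_self, pow_zero, Nat.div_one] at h
    exact h
  -- the active cutoffs
  have hVm : ∀ q ∈ PP a l, Measurable (VV a m sg sl l w c q) := by
    intro q hq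
    exact (((hVB a m l sg sl w hHP hw).1 c hc q hq).1.measurable.enorm).pow_const 2
  have hVi : ∀ q ∈ PP a l, ∫⁻ x, VV a m sg sl l w c q x < ⊤ := by
    intro q hq
    refine lt_of_le_of_lt ?_ (l2_lt hw)
    refine le_trans ?_ (hVB a m l sg sl w hHP hw).2.2
    refine le_trans ?_ (Finset.single_le_sum (f := fun c => ∑ p ∈ PP a l,
      ∫⁻ x, VV a m sg sl l w c p x) (fun _ _ => by positivity) hc)
    exact Finset.single_le_sum (f := fun q => ∫⁻ x, VV a m sg sl l w c q x)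
      (fun _ _ => by positivity) hq
  have hEA : ∀ i < l + 8 * a + 1, Ms t (bb a l) (2 ^ i * bb a l)
      (fun x => (ea a m sl l (VV a m sg sl l w c) i (p / 2 ^ (l + 8 * a - i)) x : ℂ)) := by
    intro i hi
    have hnear : near a l i (p / 2 ^ (l + 8 * a - i)) ⊆ PP a l := Finset.filter_subset _ _
    have hGm : Measurable (fun y => ∑ q ∈ near a l i (p / 2 ^ (l + 8 * a - i)),
        VV a m sg sl l w c q y) := Finset.measurable_sum _ fun q hq => hVm q (hnear hq)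
    have hGf : ∫⁻ y, ∑ q ∈ near a l i (p / 2 ^ (l + 8 * a - i)),
        VV a m sg sl l w c q y ≠ ⊤ := by
      rw [lintegral_finsetSum' _ fun q hq => (hVm q (hnear hq)).aemeasurable]
      exact (ENNReal.sum_lt_top.2 fun q hq => hVi q (hnear hq)).ne
    obtain ⟨hH1, hH2, -, -⟩ := hETP a m l i (p / 2 ^ (l + 8 * a - i)) sl
      (Real.toNNReal (1 / 2 ^ (176 * a))) _
      (Ac a l sl (VV a m sg sl l w c) i (p / 2 ^ (l + 8 * a - i))) hPA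
      (by rw [Real.toNNReal_pos]; positivity) hGm hGf rfl
    exact ms_eti hCHN hETA hSBR hm hsl1 hsl2 hp (by omega) hH1 hH2
  have hNA : Ms t ((l + 8 * a + 1 : ℕ) * bb a l) (2 * 2 ^ (l + 8 * a) * bb a l)
      (fun x => (na a m sl l (VV a m sg sl l w c) p x : ℂ)) := by
    have h := ms_prod (t := t) (l + 8 * a + 1)
      (fun i x => 1 - (ea a m sl l (VV a m sg sl l w c) i (p / 2 ^ (l + 8 * a - i)) x : ℂ))
      (fun _ => bb a l) (fun i => 2 ^ i * bb a l)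
      (fun i hi => ms_one_sub (hEA i hi) hb.le (by positivity))
    refine ms_mono (ms_congr h fun x => ?_) ?_ ?_
    · unfold na
      push_cast
      rfl
    · rw [Finset.sum_const, Finset.card_range, nsmul_eq_mul]
    · rw [← Finset.sum_mul]
      refine mul_le_mul_of_nonneg_right ?_ hb.le
      have h1 : ∑ i ∈ Finset.range (l + 8 * a + 1), (2 : ℝ) ^ i = 2 ^ (l + 8 * a + 1) - 1 := by
        rw [geom_sum_eq (by norm_num)]
        norm_num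
      rw [h1, pow_succ]
      linarith
  -- the piece
  obtain ⟨hk0, hsup⟩ : Bd (fun ξ => Mu a m sg sl l c p ξ * hat w ξ) ∧
      ∀ ξ, Mu a m sg sl l c p ξ * hat w ξ ≠ 0 → ξ ∈ BX a l sg sl (1 / 2 ^ (4 * a) / 3) c p :=
    ⟨((hVB a m l sg sl w hHP hw).1 c hc p hp).2.1,
      fun ξ h => (hMUP a m l c p sg sl hHP hc hp).2.2.1 ξ (left_ne_zero_of_mul h)⟩
  have hn1 := num1 a m l hPA hlm
  have hn2 := num2 a l ha
  have hq : (0 : ℝ) < 2 ^ (4 * a) := by positivity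
  have hfin : ∀ (α β : ℝ) (φ : ℝ × ℝ → ℂ), Ms t α β φ → α ≤ (l + 8 * a + 2 : ℕ) * bb a l →
      β ≤ 3 * 2 ^ (l + 8 * a) * bb a l → ∃ k, Bd k ∧
        (∀ ξ, k ξ ≠ 0 → ξ ∈ BX a l sg sl (1 / 2 ^ (4 * a) / 4) c p) ∧
        ∀ x, Ex k x = φ x * vv a m sg sl l w c p x := by
    intro α β φ hφ hα hβ
    obtain ⟨k, hk, hks, hke⟩ := hφ _ hk0
    refine ⟨k, hk, fun ξ hξ => ?_, hke⟩
    obtain ⟨ξ0, hξ0, h1, h2⟩ := hks ξ hξ
    have h3 := (hBXV a l c p sg sl (1 / 2 ^ (4 * a) / 3) ξ0 ha h10 hsl1 hsl2 hp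
      (div_le_self (by positivity) (by norm_num)) (hsup ξ0 hξ0)).2 (by positivity) (ξ - ξ0)
      (h1.trans (hα.trans hn1)) (h2.trans (hβ.trans hn2))
    rw [add_sub_cancel] at h3
    refine bx_mono ?_ h3
    have h4 : (12 : ℝ) ≤ 2 ^ a := by
      calc (12 : ℝ) ≤ 2 ^ 20 := by norm_num
        _ ≤ 2 ^ a := pow_le_pow_right₀ (by norm_num) ha
    have h5 : (1 : ℝ) / 2 ^ (5 * a) ≤ 1 / 2 ^ (4 * a) / 12 := by
      rw [div_div]
      apply one_div_le_one_div_of_le (by positivity)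
      calc (2 : ℝ) ^ (4 * a) * 12 ≤ 2 ^ (4 * a) * 2 ^ a := mul_le_mul_of_nonneg_left h4 hq.le
        _ = 2 ^ (5 * a) := by rw [← pow_add]; congr 1; ring
    linarith
  have hj : (1 : ℝ) ≤ (l + 8 * a + 2 : ℕ) := by exact_mod_cast (by omega : 1 ≤ l + 8 * a + 2)
  have hα1 : bb a l ≤ (l + 8 * a + 2 : ℕ) * bb a l := le_mul_of_one_le_left hb.le hj
  have hβ1 : 2 ^ (l + 8 * a) * bb a l ≤ 3 * 2 ^ (l + 8 * a) * bb a l := by
    have : (0 : ℝ) < 2 ^ (l + 8 * a) * bb a l := by positivity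
    linarith
  have hEN := ms_mul hEH hNA
  have hEH' := ms_one_sub hEH hb.le (by positivity)
  refine ⟨?_, ?_, ?_, ?_, ?_⟩
  · exact hfin _ _ _ hEH hα1 hβ1
  · exact hfin _ _ _ hEH' hα1 hβ1
  · obtain ⟨k, h1, h2, h3⟩ := hfin _ _ _ hEN (by push_cast; linarith) (by linarith)
    refine ⟨k, h1, h2, fun x => ?_⟩
    rw [h3 x]
    push_cast
    rfl
  · obtain ⟨k, h1, -, h3⟩ := ms_mul hEH' hEH' _ hk0
    refine ⟨k, h1, fun x => ?_⟩
    rw [h3 x]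
    push_cast
    rw [sq]
    rfl
  · obtain ⟨k, h1, -, h3⟩ := ms_mul hEN hEN _ hk0
    refine ⟨k, h1, fun x => ?_⟩
    rw [h3 x]
    push_cast
    rw [sq]
    rfl

end Pool.Agent.SLog
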