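import Pool.Agent.SLog.Targets

set_option autoImplicit false

/-! MP_ee701d_an: interpolation lemma for functions (tINT) -/

namespace Pool.Agent.SLog

open MeasureTheory Set
open scoped ENNReal NNReal
open Pool.Agent.LLog (PA)

namespace INT_

lemma two_zpow (j : ℤ) : (2 : ℝ≥0∞) ^ j = ENNReal.ofReal ((2 : ℝ) ^ j) := by
  have h1 : ((2 : ℝ) ^ j).toNNReal = (2 : ℝ≥0) ^ j := by
    apply NNReal.eq
    rw [Real.coe_toNNReal _ (by positivity)]
    simp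
  unfold ENNReal.ofReal
  rw [h1, ENNReal.coe_zpow (by norm_num)]
  rfl

lemma four_zpow (j : ℤ) : (4 : ℝ≥0∞) ^ j = ENNReal.ofReal ((4 : ℝ) ^ j) := by
  have h1 : ((4 : ℝ) ^ j).toNNReal = (4 : ℝ≥0) ^ j := by
    apply NNReal.eq
    rw [Real.coe_toNNReal _ (by positivity)]
    simp
  unfold ENNReal.ofReal
  rw [h1, ENNReal.coe_zpow (by norm_num)]
  rfl

/-- dyadic layer cake -/
lemma layer (f : ℝ × ℝ → ℂ) (hf : Measurable f) : ∫⁻ x, ‖f x‖ₑ ^ 2 ≤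
    ∑' i : ℤ, 4 * (4 : ℝ≥0∞) ^ i * volume {x | (2 : ℝ≥0∞) ^ i < ‖f x‖ₑ} := by
  have hm : ∀ i : ℤ, MeasurableSet {x | (2 : ℝ≥0∞) ^ i < ‖f x‖ₑ} := fun i =>
    measurableSet_lt measurable_const hf.enorm
  calc ∫⁻ x, ‖f x‖ₑ ^ 2 ≤ ∫⁻ x, ∑' i : ℤ,
        ({x | (2 : ℝ≥0∞) ^ i < ‖f x‖ₑ}.indicator (fun _ => 4 * (4 : ℝ≥0∞) ^ i)) x := by
        apply lintegral_mono
        intro x
        show ‖f x‖ₑ ^ 2 ≤ _
        by_cases h0 : f x = 0
        · simp [h0]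
        have hpos : 0 < ‖f x‖ := norm_pos_iff.2 h0
        obtain ⟨i, hi1, hi2⟩ := exists_mem_Ioc_zpow hpos (by norm_num : (1 : ℝ) < 2)
        refine le_trans ?_ (ENNReal.le_tsum i)
        rw [indicator_of_mem]
        · rw [four_zpow, ← ofReal_norm, ← ENNReal.ofReal_pow (norm_nonneg _)]
          rw [show (4 : ℝ≥0∞) = ENNReal.ofReal 4 by simp, ← ENNReal.ofReal_mul (by norm_num)]
          apply ENNReal.ofReal_le_ofReal
          calc ‖f x‖ ^ 2 ≤ ((2 : ℝ) ^ (i + 1)) ^ 2 := by gcongr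
            _ = 4 * 4 ^ i := by
              rw [zpow_add₀ (by norm_num), mul_pow, ← zpow_natCast, ← zpow_mul,
                mul_comm i, zpow_mul]
              norm_num
              ring
        · show (2 : ℝ≥0∞) ^ i < ‖f x‖ₑ
          rw [two_zpow, ← ofReal_norm]
          exact (ENNReal.ofReal_lt_ofReal_iff hpos).2 hi1
    _ = ∑' i : ℤ, ∫⁻ x, ({x | (2 : ℝ≥0∞) ^ i < ‖f x‖ₑ}.indicator
          (fun _ => 4 * (4 : ℝ≥0∞) ^ i)) x :=
        lintegral_tsum fun i => (measurable_const.indicator (hm i)).aemeasurable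
    _ = _ := by
        congr 1
        funext i
        rw [lintegral_indicator (hm i), setLIntegral_const]

lemma hasSum_sq : HasSum (fun t : ℤ => 1 / (t : ℝ) ^ 2) (Real.pi ^ 2 / 6 + Real.pi ^ 2 / 6) := by
  have h1 : HasSum (fun n : ℕ => 1 / (((n : ℤ) : ℝ)) ^ 2) (Real.pi ^ 2 / 6) := by
    simpa using hasSum_zeta_two
  have h2 : HasSum (fun n : ℕ => 1 / (((-(n : ℤ) : ℤ) : ℝ)) ^ 2) (Real.pi ^ 2 / 6) := by
    simpa using hasSum_zeta_two
  have h3 := HasSum.of_nat_of_neg (f := fun t : ℤ => 1 / (t : ℝ) ^ 2) h1 h2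
  simpa using h3

lemma pi_le : Real.pi ^ 2 / 6 + Real.pi ^ 2 / 6 ≤ 4 := by
  have h1 := Real.pi_lt_d2
  have h2 := Real.pi_pos
  nlinarith

lemma sum_sq (i : ℤ) (T : Finset ℤ) : ∑ j ∈ T, 1 / ((j - i : ℤ) : ℝ) ^ 2 ≤ 4 := by
  have h1 : HasSum (fun j : ℤ => 1 / ((j - i : ℤ) : ℝ) ^ 2)
      (Real.pi ^ 2 / 6 + Real.pi ^ 2 / 6) := by
    have := (Equiv.subRight i).hasSum_iff.2 hasSum_sq
    exact this
  exact (sum_le_hasSum T (fun j _ => by positivity) h1).trans pi_le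

lemma tsum_sq (j : ℤ) : ∑' i : ℤ, ENNReal.ofReal (1 / ((j - i : ℤ) : ℝ) ^ 2) ≤ 4 := by
  have h1 : HasSum (fun i : ℤ => 1 / ((j - i : ℤ) : ℝ) ^ 2)
      (Real.pi ^ 2 / 6 + Real.pi ^ 2 / 6) := by
    have := (Equiv.subLeft j).hasSum_iff.2 hasSum_sq
    exact this
  rw [← ENNReal.ofReal_tsum_of_nonneg (fun i => by positivity) h1.summable, h1.tsum_eq]
  calc ENNReal.ofReal _ ≤ ENNReal.ofReal 4 := ENNReal.ofReal_le_ofReal pi_le
    _ = 4 := by simp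

lemma exp_bd (k : ℕ) (s : ℝ) (hs : 0 ≤ s) :
    s ^ k ≤ (40 ^ k * k.factorial) * (2 : ℝ) ^ (s / 20) := by
  have h1 := Real.pow_div_factorial_le_exp (s / 40) (by positivity) k
  rw [div_le_iff₀ (by positivity), div_pow, div_le_iff₀ (by positivity)] at h1
  have h2 : Real.exp (s / 40) ≤ (2 : ℝ) ^ (s / 20) := by
    rw [Real.rpow_def_of_pos (by norm_num)]
    apply Real.exp_le_exp.2
    have := Real.log_two_gt_d9
    nlinarith
  calc s ^ k ≤ Real.exp (s / 40) * k.factorial * 40 ^ k := h1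
    _ ≤ (2 : ℝ) ^ (s / 20) * k.factorial * 40 ^ k := by gcongr
    _ = _ := by ring

lemma div_le {α β : ℝ} {v G : ℝ≥0∞} (hα : 0 < α)
    (h : ENNReal.ofReal α * v ≤ ENNReal.ofReal β * G) : v ≤ ENNReal.ofReal (β / α) * G := by
  have h0 : ENNReal.ofReal α ≠ 0 := (ENNReal.ofReal_pos.2 hα).ne'
  have h1 : v = (ENNReal.ofReal α)⁻¹ * (ENNReal.ofReal α * v) := by
    rw [← mul_assoc, ENNReal.inv_mul_cancel h0 ENNReal.ofReal_ne_top, one_mul]
  rw [h1]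
  calc (ENNReal.ofReal α)⁻¹ * (ENNReal.ofReal α * v)
      ≤ (ENNReal.ofReal α)⁻¹ * (ENNReal.ofReal β * G) := by gcongr
    _ = ENNReal.ofReal (β / α) * G := by
        rw [← ENNReal.ofReal_inv_of_pos hα, ← mul_assoc, ← ENNReal.ofReal_mul (by positivity)]
        congr 2
        field_simp

/-- decay beats powers -/
lemma decay (k : ℕ) (s : ℝ) (hs : 0 ≤ s) :
    s ^ k * (2 : ℝ) ^ (-(s / 20)) ≤ 40 ^ k * k.factorial := by
  have h1 := exp_bd k s hs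
  have h2 : (0 : ℝ) < (2 : ℝ) ^ (-(s / 20)) := by positivity
  calc s ^ k * (2 : ℝ) ^ (-(s / 20))
      ≤ ((40 ^ k * k.factorial) * (2 : ℝ) ^ (s / 20)) * (2 : ℝ) ^ (-(s / 20)) := by gcongr
    _ = (40 ^ k * k.factorial) * ((2 : ℝ) ^ (s / 20) * (2 : ℝ) ^ (-(s / 20))) := by ring
    _ = 40 ^ k * k.factorial := by
        rw [← Real.rpow_add (by norm_num)]
        simp

/-- the constant -/
noncomputable def c0 : ℝ := 64 * 27 * 16 ^ 6 + 64 * 27 * (40 ^ 6 * 720) + 8 * (40 ^ 6 * 720) +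
  4096 * 243 * (40 ^ 10 * 3628800)

lemma c0_pos : 0 < c0 := by unfold c0; positivity

section num

variable {a m n : ℕ} (hPA : PA a m) (hn : n ≤ 3 * m) (s : ℝ) (hs : 700 * a < s)

include hPA hn in
lemma n_le : (n : ℝ) ≤ 3 * 2 ^ a := by
  obtain ⟨_, h2, _⟩ := hPA
  have : n ≤ 3 * 2 ^ a := by omega
  exact_mod_cast this

include hPA hs in
lemma s_pos : 14000 < s := by
  obtain ⟨h1, _, _⟩ := hPA
  have : (20 : ℝ) ≤ a := by exact_mod_cast h1
  linarith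

include hPA hn in
lemma first (h : s ≤ 16 * m) (h0 : 0 ≤ s) :
    64 * (n : ℝ) ^ 3 * s ^ 6 / 2 ^ (9 * a) ≤ 64 * 27 * 16 ^ 6 := by
  have h1 := n_le hPA hn
  obtain ⟨_, h2, _⟩ := hPA
  have h3 : (m : ℝ) ≤ 2 ^ a := by exact_mod_cast h2.le
  have h4 : s ≤ 16 * 2 ^ a := by linarith
  rw [div_le_iff₀ (by positivity)]
  calc 64 * (n : ℝ) ^ 3 * s ^ 6 ≤ 64 * (3 * 2 ^ a) ^ 3 * (16 * 2 ^ a) ^ 6 := by gcongr
    _ = 64 * 27 * 16 ^ 6 * 2 ^ (9 * a) := by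
        rw [mul_comm 9 a, pow_mul]
        ring

include hs in
lemma pow_le (k : ℕ) : (2 : ℝ) ^ (k * a) ≤ (2 : ℝ) ^ ((k : ℝ) / 700 * s) := by
  rw [← Real.rpow_natCast]
  apply Real.rpow_le_rpow_of_exponent_le (by norm_num)
  push_cast
  have : (k : ℝ) * a = (k : ℝ) / 700 * (700 * a) := by ring
  rw [this]
  gcongr

include hPA hn hs in
lemma second : 64 * (n : ℝ) ^ 3 * s ^ 6 * (2 ^ (420 * a) * ((2 : ℝ) ^ (-s)) ^ (2 / 3 : ℝ)) ≤
    64 * 27 * (40 ^ 6 * 720) := by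
  have h0 := s_pos hPA s hs
  have h1 := n_le hPA hn
  have h2 := pow_le s hs 423
  have h3 := decay 6 s (by linarith)
  have h4 : ((2 : ℝ) ^ (-s)) ^ (2 / 3 : ℝ) = (2 : ℝ) ^ (-s * (2 / 3)) := by
    rw [← Real.rpow_mul (by norm_num)]
  have h5 : (2 : ℝ) ^ (((423 : ℕ) : ℝ) / 700 * s) * (2 : ℝ) ^ (-s * (2 / 3)) ≤
      (2 : ℝ) ^ (-(s / 20)) := by
    rw [← Real.rpow_add (by norm_num)]
    apply Real.rpow_le_rpow_of_exponent_le (by norm_num)
    push_cast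
    linarith
  rw [h4]
  have h6 : (0 : ℝ) < (2 : ℝ) ^ (-s * (2 / 3)) := by positivity
  calc 64 * (n : ℝ) ^ 3 * s ^ 6 * (2 ^ (420 * a) * (2 : ℝ) ^ (-s * (2 / 3)))
      ≤ 64 * (3 * 2 ^ a) ^ 3 * s ^ 6 * (2 ^ (420 * a) * (2 : ℝ) ^ (-s * (2 / 3))) := by gcongr
    _ = 64 * 27 * s ^ 6 * (2 ^ (423 * a) * (2 : ℝ) ^ (-s * (2 / 3))) := by
        rw [show 423 * a = 420 * a + a * 3 by ring, pow_add, pow_mul 2 a 3]
        ring
    _ ≤ 64 * 27 * s ^ 6 * ((2 : ℝ) ^ (((423 : ℕ) : ℝ) / 700 * s) * (2 : ℝ) ^ (-s * (2 / 3))) := by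
        gcongr
    _ ≤ 64 * 27 * s ^ 6 * (2 : ℝ) ^ (-(s / 20)) := by gcongr
    _ = 64 * 27 * (s ^ 6 * (2 : ℝ) ^ (-(s / 20))) := by ring
    _ ≤ 64 * 27 * (40 ^ 6 * (Nat.factorial 6 : ℝ)) := by gcongr
    _ = _ := by norm_num [Nat.factorial]

include hPA hn hs in
lemma third (h : 16 * m < s) : 8 * (n : ℝ) ^ 2 * s ^ 4 * (2 ^ (5 * m) * (2 : ℝ) ^ (-s)) ≤
    8 * (40 ^ 6 * 720) := by
  have h0 := s_pos hPA s hs
  have h1 : (n : ℝ) ≤ s := by
    have : (n : ℝ) ≤ 3 * m := by exact_mod_cast hn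
    have hm : (0 : ℝ) ≤ m := Nat.cast_nonneg m
    linarith
  have h3 := decay 6 s (by linarith)
  have h5 : (2 : ℝ) ^ (5 * m) * (2 : ℝ) ^ (-s) ≤ (2 : ℝ) ^ (-(s / 20)) := by
    rw [← Real.rpow_natCast, ← Real.rpow_add (by norm_num)]
    apply Real.rpow_le_rpow_of_exponent_le (by norm_num)
    push_cast
    linarith
  calc 8 * (n : ℝ) ^ 2 * s ^ 4 * (2 ^ (5 * m) * (2 : ℝ) ^ (-s))
      ≤ 8 * s ^ 2 * s ^ 4 * (2 : ℝ) ^ (-(s / 20)) := by gcongr
    _ = 8 * (s ^ 6 * (2 : ℝ) ^ (-(s / 20))) := by ring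
    _ ≤ 8 * (40 ^ 6 * (Nat.factorial 6 : ℝ)) := by gcongr
    _ = _ := by norm_num [Nat.factorial]

include hPA hn hs in
lemma fourth : 4096 * (n : ℝ) ^ 5 * s ^ 10 * (2 ^ (120 * a) * ((2 : ℝ) ^ (-s)) ^ 2) ≤
    4096 * 243 * (40 ^ 10 * 3628800) := by
  have h0 := s_pos hPA s hs
  have h1 := n_le hPA hn
  have h2 := pow_le s hs 125
  have h3 := decay 10 s (by linarith)
  have h5 : (2 : ℝ) ^ (((125 : ℕ) : ℝ) / 700 * s) * ((2 : ℝ) ^ (-s)) ^ 2 ≤
      (2 : ℝ) ^ (-(s / 20)) := by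
    rw [← Real.rpow_natCast _ 2, ← Real.rpow_mul (by norm_num), ← Real.rpow_add (by norm_num)]
    apply Real.rpow_le_rpow_of_exponent_le (by norm_num)
    push_cast
    linarith
  calc 4096 * (n : ℝ) ^ 5 * s ^ 10 * (2 ^ (120 * a) * ((2 : ℝ) ^ (-s)) ^ 2)
      ≤ 4096 * (3 * 2 ^ a) ^ 5 * s ^ 10 * (2 ^ (120 * a) * ((2 : ℝ) ^ (-s)) ^ 2) := by gcongr
    _ = 4096 * 243 * s ^ 10 * (2 ^ (125 * a) * ((2 : ℝ) ^ (-s)) ^ 2) := by
        rw [show 125 * a = 120 * a + a * 5 by ring, pow_add, pow_mul 2 a 5]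
        ring
    _ ≤ 4096 * 243 * s ^ 10 *
          ((2 : ℝ) ^ (((125 : ℕ) : ℝ) / 700 * s) * ((2 : ℝ) ^ (-s)) ^ 2) := by gcongr
    _ ≤ 4096 * 243 * s ^ 10 * (2 : ℝ) ^ (-(s / 20)) := by gcongr
    _ = 4096 * 243 * (s ^ 10 * (2 : ℝ) ^ (-(s / 20))) := by ring
    _ ≤ 4096 * 243 * (40 ^ 10 * (Nat.factorial 10 : ℝ)) := by gcongr
    _ = _ := by norm_num [Nat.factorial]

include hPA hn hs in
lemma fifth (h : 16 * m < s) :
    (2 : ℝ) ^ (5 * m) * 2 * (8 * n * s ^ 2) ≤ (2 : ℝ) ^ s := by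
  have h0 := s_pos hPA s hs
  have h1 : (n : ℝ) ≤ s := by
    have : (n : ℝ) ≤ 3 * m := by exact_mod_cast hn
    have hm : (0 : ℝ) ≤ m := Nat.cast_nonneg m
    linarith
  have h3 := exp_bd 3 s (by linarith)
  have h5 : (2 : ℝ) ^ (5 * m) ≤ (2 : ℝ) ^ (5 / 16 * s) := by
    rw [← Real.rpow_natCast]
    apply Real.rpow_le_rpow_of_exponent_le (by norm_num)
    push_cast
    linarith
  have h6 : ((40 : ℝ) ^ 3 * (Nat.factorial 3 : ℝ)) * 16 ≤ (2 : ℝ) ^ (23 : ℝ) := by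
    have : (2 : ℝ) ^ (23 : ℝ) = 2 ^ (23 : ℕ) := by
      rw [← Real.rpow_natCast]; norm_num
    rw [this]
    norm_num [Nat.factorial]
  calc (2 : ℝ) ^ (5 * m) * 2 * (8 * n * s ^ 2)
      ≤ (2 : ℝ) ^ (5 / 16 * s) * 2 * (8 * s * s ^ 2) := by gcongr
    _ = (2 : ℝ) ^ (5 / 16 * s) * 16 * s ^ 3 := by ring
    _ ≤ (2 : ℝ) ^ (5 / 16 * s) * 16 *
          ((40 ^ 3 * (Nat.factorial 3 : ℝ)) * (2 : ℝ) ^ (s / 20)) := by gcongr
    _ = (2 : ℝ) ^ (5 / 16 * s) * (2 : ℝ) ^ (s / 20) *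
          ((40 ^ 3 * (Nat.factorial 3 : ℝ)) * 16) := by ring
    _ ≤ (2 : ℝ) ^ (5 / 16 * s) * (2 : ℝ) ^ (s / 20) * (2 : ℝ) ^ (23 : ℝ) := by gcongr
    _ = (2 : ℝ) ^ (5 / 16 * s + s / 20 + 23) := by
        rw [Real.rpow_add (by norm_num), Real.rpow_add (by norm_num)]
    _ ≤ (2 : ℝ) ^ s := by
        apply Real.rpow_le_rpow_of_exponent_le (by norm_num)
        linarith

end num

lemma coe_rpow (r : ℝ) (hr : 0 ≤ r) : (ENNReal.ofReal r) ^ (2 / 3 : ℝ) =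
    ENNReal.ofReal (r ^ (2 / 3 : ℝ)) := by
  rw [ENNReal.ofReal_rpow_of_nonneg hr (by norm_num)]

lemma two_pow (k : ℕ) : (2 : ℝ≥0∞) ^ k = ENNReal.ofReal ((2 : ℝ) ^ k) := by
  rw [ENNReal.ofReal_pow (by norm_num)]
  simp

/-- one term -/
lemma key {a m n : ℕ} (hPA : PA a m) (hn : n ≤ 3 * m) (hn1 : 1 ≤ n) (K : ℝ≥0) (hK : 1 ≤ K)
    (i j : ℤ) (hij : 700 * (a : ℤ) < |j - i|) (f : ℝ × ℝ → ℂ) (g : ℝ≥0∞)
    (H1 : ∀ lam : ℝ≥0, (lam : ℝ≥0∞) ^ 2 * volume {x | (2 : ℝ≥0∞) ^ j * lam < ‖f x‖ₑ} ≤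
      K * (ENNReal.ofReal (1 / 2 ^ (9 * a)) + 2 ^ (420 * a) * (lam : ℝ≥0∞) ^ (2 / 3 : ℝ)) *
        ((2 : ℝ≥0∞) ^ (-2 * j) * g))
    (H2 : ∀ lam : ℝ≥0, (lam : ℝ≥0∞) ^ 4 * volume {x | (2 : ℝ≥0∞) ^ j * lam < ‖f x‖ₑ} ≤
      K * (ENNReal.ofReal (1 / 2 ^ (9 * a)) * (lam : ℝ≥0∞) ^ 2 + 2 ^ (120 * a)) *
        ((2 : ℝ≥0∞) ^ (-2 * j) * g))
    (H3 : ∀ lam : ℝ≥0, lam * volume {x | (2 : ℝ≥0∞) ^ j * lam < ‖f x‖ₑ} ≤
      2 ^ (5 * m) * ((2 : ℝ≥0∞) ^ (-2 * j) * g))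
    (H4 : ∀ x, ‖f x‖ₑ ≤ 2 ^ (5 * m) * (2 : ℝ≥0∞) ^ (j + 1)) :
    (4 : ℝ≥0∞) ^ i * volume {x | ENNReal.ofReal ((2 : ℝ) ^ i / (8 * n * ((j - i : ℤ) : ℝ) ^ 2)) <
      ‖f x‖ₑ} ≤ ENNReal.ofReal (c0 * K / (n * ((j - i : ℤ) : ℝ) ^ 2)) * g := by
  have hPpos : (0 : ℝ) < (2 : ℝ) ^ i := by positivity
  have hQpos : (0 : ℝ) < (2 : ℝ) ^ j := by positivity
  have hn0 : (0 : ℝ) < n := by exact_mod_cast hn1
  have hn1' : (1 : ℝ) ≤ n := by exact_mod_cast hn1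
  have hK' : (1 : ℝ) ≤ K := by exact_mod_cast hK
  have hK0 : (0 : ℝ) < K := by linarith
  -- the absolute value
  obtain ⟨s, hs, hs2⟩ : ∃ s : ℝ, 700 * (a : ℝ) < s ∧ ((j - i : ℤ) : ℝ) ^ 2 = s ^ 2 ∧
      s = ((|j - i| : ℤ) : ℝ) := by
    refine ⟨((|j - i| : ℤ) : ℝ), by exact_mod_cast hij, ?_, rfl⟩
    rw [Int.cast_abs, sq_abs]
  obtain ⟨hs2, hs3⟩ := hs2
  have hs0 := s_pos hPA s hs
  have hspos : 0 < s := by linarith
  have hs1 : 1 ≤ s ^ 2 := by nlinarith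
  rw [hs2]
  set P := (2 : ℝ) ^ i with hP
  set Q := (2 : ℝ) ^ j with hQ
  set r : ℝ := P / Q / (8 * n * s ^ 2) with hr
  have hr0 : 0 < r := by positivity
  have hset : {x | ENNReal.ofReal (P / (8 * n * s ^ 2)) < ‖f x‖ₑ} =
      {x | (2 : ℝ≥0∞) ^ j * ((r.toNNReal : ℝ≥0) : ℝ≥0∞) < ‖f x‖ₑ} := by
    have h1 : (2 : ℝ≥0∞) ^ j * ((r.toNNReal : ℝ≥0) : ℝ≥0∞) =
        ENNReal.ofReal (P / (8 * n * s ^ 2)) := by
      rw [two_zpow, ← ENNReal.ofReal, ← ENNReal.ofReal_mul hQpos.le]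
      congr 1
      rw [hr]
      field_simp
    rw [h1]
  have h4 : (4 : ℝ≥0∞) ^ i = ENNReal.ofReal (P ^ 2) := by
    rw [four_zpow]
    congr 1
    rw [hP, ← zpow_natCast, ← zpow_mul, mul_comm i, zpow_mul]
    norm_num
  have h2j : (2 : ℝ≥0∞) ^ (-2 * j) = ENNReal.ofReal (1 / Q ^ 2) := by
    rw [two_zpow]
    congr 1
    rw [hQ, ← zpow_natCast, ← zpow_mul, neg_mul, zpow_neg, mul_comm (2 : ℤ) j, one_div]
    norm_num
  have hKe : ((K : ℝ≥0) : ℝ≥0∞) = ENNReal.ofReal (K : ℝ) := by simp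
  -- conversion
  have fin : ∀ α β : ℝ, 0 < α → P ^ 2 * (β / α) ≤ c0 * K / (n * s ^ 2) →
      ENNReal.ofReal α * volume {x | ENNReal.ofReal (P / (8 * n * s ^ 2)) < ‖f x‖ₑ} ≤
        ENNReal.ofReal β * g →
      (4 : ℝ≥0∞) ^ i * volume {x | ENNReal.ofReal (P / (8 * n * s ^ 2)) < ‖f x‖ₑ} ≤
        ENNReal.ofReal (c0 * K / (n * s ^ 2)) * g := by
    intro α β hα hle h
    rw [h4]
    calc ENNReal.ofReal (P ^ 2) * volume {x | ENNReal.ofReal (P / (8 * n * s ^ 2)) < ‖f x‖ₑ}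
        ≤ ENNReal.ofReal (P ^ 2) * (ENNReal.ofReal (β / α) * g) := by
          gcongr
          exact div_le hα h
      _ = ENNReal.ofReal (P ^ 2 * (β / α)) * g := by
          rw [← mul_assoc, ← ENNReal.ofReal_mul (by positivity)]
      _ ≤ _ := by gcongr
  rcases lt_trichotomy i j with hlt | heq | hgt
  · -- `j > i`
    have hsj : s = ((j - i : ℤ) : ℝ) := by
      rw [hs3, abs_of_pos (by omega)]
    have h2s : (2 : ℝ) ^ (-s) = P / Q := by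
      rw [hsj, ← Int.cast_neg, Real.rpow_intCast, hP, hQ, ← zpow_sub₀ (by norm_num)]
      congr 1
      ring
    rcases le_or_gt s (16 * m) with hsm | hsm
    · have h := H1 r.toNNReal
      rw [← hset, ← ENNReal.ofReal, coe_rpow r hr0.le, h2j, hKe, two_pow,
        ← ENNReal.ofReal_pow hr0.le, ← ENNReal.ofReal_mul (by positivity),
        ← ENNReal.ofReal_add (by positivity) (by positivity),
        ← ENNReal.ofReal_mul (by positivity), ← mul_assoc,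
        ← ENNReal.ofReal_mul (by positivity)] at h
      refine fin _ _ (by positivity) ?_ h
      have e1 : P ^ 2 * ((K * (1 / 2 ^ (9 * a) + 2 ^ (420 * a) * r ^ (2 / 3 : ℝ)) *
          (1 / Q ^ 2)) / r ^ 2) =
          64 * n ^ 2 * s ^ 4 * K * (1 / 2 ^ (9 * a) + 2 ^ (420 * a) * r ^ (2 / 3 : ℝ)) := by
        have e2 : P ^ 2 * (1 / Q ^ 2) / r ^ 2 = 64 * n ^ 2 * s ^ 4 := by
          rw [hr]
          field_simp
          ring
        calc _ = (P ^ 2 * (1 / Q ^ 2) / r ^ 2) * K *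
              (1 / 2 ^ (9 * a) + 2 ^ (420 * a) * r ^ (2 / 3 : ℝ)) := by ring
          _ = _ := by rw [e2]
      rw [e1, le_div_iff₀ (by positivity)]
      have hrle : r ≤ (2 : ℝ) ^ (-s) := by
        rw [h2s, hr]
        apply div_le_self (by positivity)
        nlinarith
      have b1 := first hPA hn s hsm hspos.le
      have b2 := second hPA hn s hs
      calc 64 * n ^ 2 * s ^ 4 * K * (1 / 2 ^ (9 * a) + 2 ^ (420 * a) * r ^ (2 / 3 : ℝ)) *
            (n * s ^ 2)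
          ≤ 64 * n ^ 2 * s ^ 4 * K *
            (1 / 2 ^ (9 * a) + 2 ^ (420 * a) * ((2 : ℝ) ^ (-s)) ^ (2 / 3 : ℝ)) *
            (n * s ^ 2) := by gcongr
        _ = (64 * n ^ 3 * s ^ 6 / 2 ^ (9 * a) +
            64 * n ^ 3 * s ^ 6 * (2 ^ (420 * a) * ((2 : ℝ) ^ (-s)) ^ (2 / 3 : ℝ))) * K := by
            field_simp
        _ ≤ c0 * K := by
            apply mul_le_mul_of_nonneg_right _ hK0.le
            unfold c0
            have p1 : (0 : ℝ) ≤ 8 * (40 ^ 6 * 720) := by positivity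
            have p2 : (0 : ℝ) ≤ 4096 * 243 * (40 ^ 10 * 3628800) := by positivity
            linarith
    · have h := H3 r.toNNReal
      rw [← hset, ← ENNReal.ofReal, h2j, two_pow, ← mul_assoc,
        ← ENNReal.ofReal_mul (by positivity)] at h
      refine fin _ _ hr0 ?_ h
      have e1 : P ^ 2 * (2 ^ (5 * m) * (1 / Q ^ 2) / r) =
          8 * n * s ^ 2 * (2 ^ (5 * m) * (2 : ℝ) ^ (-s)) := by
        rw [h2s, hr]
        field_simp
      rw [e1, le_div_iff₀ (by positivity)]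
      have b := third hPA hn s hs hsm
      calc 8 * n * s ^ 2 * (2 ^ (5 * m) * (2 : ℝ) ^ (-s)) * (n * s ^ 2)
          = (8 * n ^ 2 * s ^ 4 * (2 ^ (5 * m) * (2 : ℝ) ^ (-s))) * 1 := by ring
        _ ≤ c0 * K := by
            apply mul_le_mul _ hK' (by norm_num) c0_pos.le
            unfold c0
            have p1 : (0 : ℝ) ≤ 64 * 27 * 16 ^ 6 + 64 * 27 * (40 ^ 6 * 720) := by positivity
            have p2 : (0 : ℝ) ≤ 4096 * 243 * (40 ^ 10 * 3628800) := by positivity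
            linarith
  · exfalso
    rw [heq, sub_self, abs_zero] at hij
    omega
  · -- `j < i`
    have hsj : s = ((i - j : ℤ) : ℝ) := by
      rw [hs3, abs_of_neg (by omega)]
      congr 1
      ring
    have h2s : (2 : ℝ) ^ s = P / Q := by
      rw [hsj, Real.rpow_intCast, hP, hQ, ← zpow_sub₀ (by norm_num)]
    have h2s' : (2 : ℝ) ^ (-s) = Q / P := by
      rw [Real.rpow_neg (by norm_num), h2s, inv_div]
    rcases le_or_gt s (16 * m) with hsm | hsm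
    · have h := H2 r.toNNReal
      rw [← hset, ← ENNReal.ofReal, h2j, hKe, two_pow,
        ← ENNReal.ofReal_pow hr0.le, ← ENNReal.ofReal_pow hr0.le,
        ← ENNReal.ofReal_mul (by positivity),
        ← ENNReal.ofReal_add (by positivity) (by positivity),
        ← ENNReal.ofReal_mul (by positivity), ← mul_assoc,
        ← ENNReal.ofReal_mul (by positivity)] at h
      refine fin _ _ (by positivity) ?_ h
      have e1 : P ^ 2 * ((K * (1 / 2 ^ (9 * a) * r ^ 2 + 2 ^ (120 * a)) *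
          (1 / Q ^ 2)) / r ^ 4) =
          K * (64 * n ^ 2 * s ^ 4 / 2 ^ (9 * a) +
            4096 * n ^ 4 * s ^ 8 * (2 ^ (120 * a) * ((2 : ℝ) ^ (-s)) ^ 2)) := by
        rw [h2s', hr]
        field_simp
        ring
      rw [e1, le_div_iff₀ (by positivity)]
      have b1 := first hPA hn s hsm hspos.le
      have b2 := fourth hPA hn s hs
      calc K * (64 * n ^ 2 * s ^ 4 / 2 ^ (9 * a) +
            4096 * n ^ 4 * s ^ 8 * (2 ^ (120 * a) * ((2 : ℝ) ^ (-s)) ^ 2)) * (n * s ^ 2)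
          = (64 * n ^ 3 * s ^ 6 / 2 ^ (9 * a) +
            4096 * n ^ 5 * s ^ 10 * (2 ^ (120 * a) * ((2 : ℝ) ^ (-s)) ^ 2)) * K := by
            ring
        _ ≤ c0 * K := by
            apply mul_le_mul_of_nonneg_right _ hK0.le
            unfold c0
            have p1 : (0 : ℝ) ≤ 8 * (40 ^ 6 * 720) := by positivity
            have p2 : (0 : ℝ) ≤ 64 * 27 * (40 ^ 6 * 720) := by positivity
            linarith
    · have hemp : {x | ENNReal.ofReal (P / (8 * n * s ^ 2)) < ‖f x‖ₑ} = ∅ := by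
        rw [eq_empty_iff_forall_notMem]
        intro x hx
        have hx : ENNReal.ofReal (P / (8 * n * s ^ 2)) < ‖f x‖ₑ := hx
        refine absurd (hx.trans_le (H4 x)) (not_lt.2 ?_)
        rw [two_zpow, two_pow, ← ENNReal.ofReal_mul (by positivity)]
        apply ENNReal.ofReal_le_ofReal
        rw [le_div_iff₀ (by positivity)]
        have b := fifth hPA hn s hs hsm
        rw [h2s, le_div_iff₀ hQpos] at b
        calc 2 ^ (5 * m) * (2 : ℝ) ^ (j + 1) * (8 * n * s ^ 2)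
            = 2 ^ (5 * m) * 2 * (8 * n * s ^ 2) * Q := by
              rw [zpow_add₀ (by norm_num), hQ]
              ring
          _ ≤ P := b
      rw [hemp, measure_empty, mul_zero]
      exact bot_le

/-- splitting of the set where the total is large -/
lemma split {n : ℕ} (hn1 : 1 ≤ n) (N : ℕ) (i : ℤ) (T : Finset ℤ) (F : ℕ → ℤ → ℂ)
    (hN : ‖∑ ν ∈ Finset.range n, ∑ j ∈ T.filter (fun j => |j - i| ≤ (N : ℤ)), F ν j‖ ≤
      (2 : ℝ) ^ i / 2)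
    (hF : ∀ ν < n, ∀ j ∈ T.filter (fun j => ¬ |j - i| ≤ (N : ℤ)),
      ‖F ν j‖ ≤ (2 : ℝ) ^ i / (8 * n * ((j - i : ℤ) : ℝ) ^ 2)) :
    ‖∑ ν ∈ Finset.range n, ∑ j ∈ T, F ν j‖ ≤ (2 : ℝ) ^ i := by
  have hn0 : (0 : ℝ) < n := by exact_mod_cast hn1
  have hsp : ∑ ν ∈ Finset.range n, ∑ j ∈ T, F ν j =
      ∑ ν ∈ Finset.range n, ∑ j ∈ T.filter (fun j => |j - i| ≤ (N : ℤ)), F ν j +
      ∑ ν ∈ Finset.range n, ∑ j ∈ T.filter (fun j => ¬ |j - i| ≤ (N : ℤ)), F ν j := by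
    rw [← Finset.sum_add_distrib]
    refine Finset.sum_congr rfl fun ν _ => ?_
    rw [Finset.sum_filter_add_sum_filter_not]
  rw [hsp]
  have hfar : ‖∑ ν ∈ Finset.range n, ∑ j ∈ T.filter (fun j => ¬ |j - i| ≤ (N : ℤ)), F ν j‖ ≤
      (2 : ℝ) ^ i / 2 := by
    calc ‖∑ ν ∈ Finset.range n, ∑ j ∈ T.filter (fun j => ¬ |j - i| ≤ (N : ℤ)), F ν j‖
        ≤ ∑ ν ∈ Finset.range n, ∑ j ∈ T.filter (fun j => ¬ |j - i| ≤ (N : ℤ)), ‖F ν j‖ :=
          (norm_sum_le _ _).trans (Finset.sum_le_sum fun ν _ => norm_sum_le _ _)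
      _ ≤ ∑ ν ∈ Finset.range n, ∑ j ∈ T.filter (fun j => ¬ |j - i| ≤ (N : ℤ)),
            (2 : ℝ) ^ i / (8 * n * ((j - i : ℤ) : ℝ) ^ 2) :=
          Finset.sum_le_sum fun ν hν => Finset.sum_le_sum fun j hj =>
            hF ν (Finset.mem_range.1 hν) j hj
      _ = (2 : ℝ) ^ i / 8 * ∑ j ∈ T.filter (fun j => ¬ |j - i| ≤ (N : ℤ)),
            1 / ((j - i : ℤ) : ℝ) ^ 2 := by
          rw [Finset.sum_const, Finset.card_range, nsmul_eq_mul, Finset.mul_sum, Finset.mul_sum]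
          refine Finset.sum_congr rfl fun j _ => ?_
          rcases eq_or_ne (((j - i : ℤ) : ℝ) ^ 2) 0 with h0 | h0
          · rw [h0]
            simp
          · field_simp
      _ ≤ (2 : ℝ) ^ i / 8 * 4 := by
          gcongr
          exact sum_sq i _
      _ = (2 : ℝ) ^ i / 2 := by ring
  calc _ ≤ _ + _ := norm_add_le _ _
    _ ≤ (2 : ℝ) ^ i / 2 + (2 : ℝ) ^ i / 2 := add_le_add hN hfar
    _ = (2 : ℝ) ^ i := by ring

end INT_

open INT_ in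
theorem pINT : tINT := by
  refine ⟨(16 * c0 + 16).toNNReal, ?_⟩
  intro a m n J0 J1 F G K Nr hPA hn hK hmeas H1 H2 H3 H4 H5
  have hc0 := c0_pos
  have hCe : (((16 * c0 + 16).toNNReal : ℝ≥0) : ℝ≥0∞) =
      ENNReal.ofReal (16 * c0) + 16 := by
    rw [show (16 : ℝ≥0∞) = ENNReal.ofReal 16 by simp,
      ← ENNReal.ofReal_add (by positivity) (by norm_num), ENNReal.ofReal]
  rw [hCe]
  rcases Nat.eq_zero_or_pos n with hn0 | hn1
  · subst hn0
    simp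
  have hn1 : 1 ≤ n := hn1
  have hnR : (0 : ℝ) < n := by exact_mod_cast hn1
  have htm : Measurable fun x => ∑ ν ∈ Finset.range n, ∑ j ∈ Finset.Icc J0 J1, F ν j x := by
    refine Finset.measurable_fun_sum _ fun ν _ => Finset.measurable_fun_sum _ fun j _ => hmeas ν j
  refine (layer _ htm).trans ?_
  -- one level
  have hlev : ∀ i : ℤ, 4 * (4 : ℝ≥0∞) ^ i * volume {x | (2 : ℝ≥0∞) ^ i <
      ‖∑ ν ∈ Finset.range n, ∑ j ∈ Finset.Icc J0 J1, F ν j x‖ₑ} ≤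
      16 * Nr i + ∑ j ∈ Finset.Icc J0 J1,
        4 * (ENNReal.ofReal (c0 * K) * ENNReal.ofReal (1 / ((j - i : ℤ) : ℝ) ^ 2) * G j) := by
    intro i
    set T := Finset.Icc J0 J1
    set near := T.filter (fun j => |j - i| ≤ 700 * (a : ℤ))
    set far := T.filter (fun j => ¬ |j - i| ≤ 700 * (a : ℤ))
    set A := {x | ENNReal.ofReal ((2 : ℝ) ^ i / 2) <
      ‖∑ ν ∈ Finset.range n, ∑ j ∈ near, F ν j x‖ₑ} with hA
    have hsub : {x | (2 : ℝ≥0∞) ^ i < ‖∑ ν ∈ Finset.range n, ∑ j ∈ T, F ν j x‖ₑ} ⊆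
        A ∪ ⋃ ν ∈ Finset.range n, ⋃ j ∈ far,
          {x | ENNReal.ofReal ((2 : ℝ) ^ i / (8 * n * ((j - i : ℤ) : ℝ) ^ 2)) < ‖F ν j x‖ₑ} := by
      intro x hx
      by_contra hcon
      rw [mem_union, not_or] at hcon
      obtain ⟨c1, c2⟩ := hcon
      have hx : (2 : ℝ≥0∞) ^ i < ‖∑ ν ∈ Finset.range n, ∑ j ∈ T, F ν j x‖ₑ := hx
      refine absurd hx (not_lt.2 ?_)
      rw [two_zpow, ← ofReal_norm]
      apply ENNReal.ofReal_le_ofReal
      refine split hn1 (700 * a) i T (fun ν j => F ν j x) ?_ ?_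
      · have c1 : ¬ ENNReal.ofReal ((2 : ℝ) ^ i / 2) <
          ‖∑ ν ∈ Finset.range n, ∑ j ∈ near, F ν j x‖ₑ := c1
        rw [not_lt, ← ofReal_norm, ENNReal.ofReal_le_ofReal_iff (by positivity)] at c1
        push_cast
        exact c1
      · intro ν hν j hj
        by_contra hlt
        rw [not_le] at hlt
        apply c2
        push_cast at hj
        refine mem_biUnion (Finset.mem_coe.2 (Finset.mem_range.2 hν))
          (mem_biUnion (Finset.mem_coe.2 hj) ?_)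
        show ENNReal.ofReal _ < _
        rw [← ofReal_norm]
        exact (ENNReal.ofReal_lt_ofReal_iff_of_nonneg (by positivity)).2 hlt
    have hnear : 4 * (4 : ℝ≥0∞) ^ i * volume A ≤ 16 * Nr i := by
      have h := H5 i ((2 : ℝ) ^ i / 2).toNNReal
      rw [← ENNReal.ofReal, ← ENNReal.ofReal_pow (by positivity)] at h
      have e : 4 * (4 : ℝ≥0∞) ^ i = 16 * ENNReal.ofReal (((2 : ℝ) ^ i / 2) ^ 2) := by
        rw [four_zpow, show (16 : ℝ≥0∞) = ENNReal.ofReal 16 by simp,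
          show (4 : ℝ≥0∞) = ENNReal.ofReal 4 by simp, ← ENNReal.ofReal_mul (by norm_num),
          ← ENNReal.ofReal_mul (by norm_num)]
        congr 1
        rw [div_pow, ← zpow_natCast ((2 : ℝ) ^ i), ← zpow_mul, mul_comm i, zpow_mul]
        norm_num
        ring
      rw [e, mul_assoc]
      gcongr
    have hfar : ∀ j ∈ far, ∀ ν ∈ Finset.range n, 4 * (4 : ℝ≥0∞) ^ i *
        volume {x | ENNReal.ofReal ((2 : ℝ) ^ i / (8 * n * ((j - i : ℤ) : ℝ) ^ 2)) < ‖F ν j x‖ₑ} ≤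
        4 * (ENNReal.ofReal (c0 * K / (n * ((j - i : ℤ) : ℝ) ^ 2)) * G j) := by
      intro j hj ν hν
      rw [mul_assoc]
      have hν := Finset.mem_range.1 hν
      refine mul_le_mul' le_rfl ?_
      exact key hPA hn hn1 K hK i j (not_le.1 (Finset.mem_filter.1 hj).2) (F ν j) (G j)
        (H1 ν hν j) (H2 ν hν j) (H3 ν hν j) (H4 ν hν j)
    calc 4 * (4 : ℝ≥0∞) ^ i * volume {x | (2 : ℝ≥0∞) ^ i <
          ‖∑ ν ∈ Finset.range n, ∑ j ∈ T, F ν j x‖ₑ}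
        ≤ 4 * (4 : ℝ≥0∞) ^ i * (volume A + ∑ ν ∈ Finset.range n, ∑ j ∈ far,
          volume {x | ENNReal.ofReal ((2 : ℝ) ^ i / (8 * n * ((j - i : ℤ) : ℝ) ^ 2)) <
            ‖F ν j x‖ₑ}) := by
          gcongr
          refine (measure_mono hsub).trans ((measure_union_le _ _).trans ?_)
          gcongr
          refine (measure_biUnion_finset_le _ _).trans (Finset.sum_le_sum fun ν _ => ?_)
          exact measure_biUnion_finset_le _ _
      _ = 4 * (4 : ℝ≥0∞) ^ i * volume A + ∑ j ∈ far, ∑ ν ∈ Finset.range n,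
          4 * (4 : ℝ≥0∞) ^ i *
            volume {x | ENNReal.ofReal ((2 : ℝ) ^ i / (8 * n * ((j - i : ℤ) : ℝ) ^ 2)) <
            ‖F ν j x‖ₑ} := by
          rw [mul_add, Finset.sum_comm, Finset.mul_sum]
          congr 1
          refine Finset.sum_congr rfl fun j _ => ?_
          rw [Finset.mul_sum]
      _ ≤ 16 * Nr i + ∑ j ∈ far, ∑ ν ∈ Finset.range n,
          4 * (ENNReal.ofReal (c0 * K / (n * ((j - i : ℤ) : ℝ) ^ 2)) * G j) := by
          exact add_le_add hnear (Finset.sum_le_sum fun j hj => Finset.sum_le_sum fun ν hν =>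
            hfar j hj ν hν)
      _ = 16 * Nr i + ∑ j ∈ far,
          4 * (ENNReal.ofReal (c0 * K) * ENNReal.ofReal (1 / ((j - i : ℤ) : ℝ) ^ 2) * G j) := by
          congr 1
          refine Finset.sum_congr rfl fun j _ => ?_
          rw [Finset.sum_const, Finset.card_range, nsmul_eq_mul]
          have e1 : (n : ℝ≥0∞) * ENNReal.ofReal (c0 * K / (n * ((j - i : ℤ) : ℝ) ^ 2)) =
              ENNReal.ofReal (c0 * K) * ENNReal.ofReal (1 / ((j - i : ℤ) : ℝ) ^ 2) := by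
            rw [← ENNReal.ofReal_mul (by positivity), ← ENNReal.ofReal_natCast n,
              ← ENNReal.ofReal_mul (by positivity)]
            congr 1
            rcases eq_or_ne (((j - i : ℤ) : ℝ) ^ 2) 0 with h0 | h0
            · rw [h0]
              simp
            · field_simp
          rw [← e1]
          ring
      _ ≤ _ := by
          gcongr
          exact Finset.filter_subset _ _
  calc ∑' i : ℤ, 4 * (4 : ℝ≥0∞) ^ i * volume {x | (2 : ℝ≥0∞) ^ i <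
        ‖∑ ν ∈ Finset.range n, ∑ j ∈ Finset.Icc J0 J1, F ν j x‖ₑ}
      ≤ ∑' i : ℤ, (16 * Nr i + ∑ j ∈ Finset.Icc J0 J1,
        4 * (ENNReal.ofReal (c0 * K) * ENNReal.ofReal (1 / ((j - i : ℤ) : ℝ) ^ 2) * G j)) :=
        ENNReal.tsum_le_tsum hlev
    _ = 16 * ∑' i, Nr i + ∑ j ∈ Finset.Icc J0 J1, 4 * (ENNReal.ofReal (c0 * K) *
        (∑' i : ℤ, ENNReal.ofReal (1 / ((j - i : ℤ) : ℝ) ^ 2)) * G j) := by
        rw [ENNReal.tsum_add, ENNReal.tsum_mul_left, Summable.tsum_finsetSum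
          (fun _ _ => ENNReal.summable)]
        congr 1
        refine Finset.sum_congr rfl fun j _ => ?_
        rw [ENNReal.tsum_mul_left, ENNReal.tsum_mul_right, ENNReal.tsum_mul_left]
    _ ≤ 16 * ∑' i, Nr i + ∑ j ∈ Finset.Icc J0 J1, 4 * (ENNReal.ofReal (c0 * K) * 4 * G j) := by
        gcongr with j hj
        exact tsum_sq j
    _ = 16 * ∑' i, Nr i + ENNReal.ofReal (16 * c0) * K * ∑ j ∈ Finset.Icc J0 J1, G j := by
        congr 1
        rw [Finset.mul_sum]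
        refine Finset.sum_congr rfl fun j _ => ?_
        rw [ENNReal.ofReal_mul hc0.le, ENNReal.ofReal_mul (by norm_num)]
        simp only [ENNReal.ofReal_coe_nnreal]
        rw [show ENNReal.ofReal 16 = 4 * 4 by norm_num]
        ring
    _ ≤ (ENNReal.ofReal (16 * c0) + 16) * ∑' i, Nr i +
        (ENNReal.ofReal (16 * c0) + 16) * K * ∑ j ∈ Finset.Icc J0 J1, G j := by
        gcongr
        · exact le_add_self
        · exact le_self_add

end Pool.Agent.SLog
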