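import Pool.Agent.SLog.Targets

set_option autoImplicit false

namespace Pool.Agent.SLog

open MeasureTheory Set Topology
open scoped ENNReal NNReal
open Pool.Agent.KSP (dot)
open Pool.Agent.LLog (bx nv tv)

namespace KKM_

lemma bx_open (t : ℝ) (x0 : ℝ × ℝ) (A B : ℝ) : IsOpen (bx t x0 A B) := by
  have h1 : ∀ v : ℝ × ℝ, Continuous fun y : ℝ × ℝ => |dot (y - x0) v| := by
    intro v
    unfold Pool.Agent.KSP.dot
    fun_prop
  exact (isOpen_lt (h1 _) continuous_const).inter (isOpen_lt (h1 _) continuous_const)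

lemma lsc_piece (U : Set (ℝ × ℝ)) (hU : IsOpen U) (c : ℝ≥0∞) :
    LowerSemicontinuous (fun y => ⨆ (_ : y ∈ U), c) := by
  rw [lowerSemicontinuous_iff_isOpen_preimage]
  intro b
  by_cases hb : b < c
  · have : (fun y => ⨆ (_ : y ∈ U), c) ⁻¹' Ioi b = U := by
      ext y
      by_cases hy : y ∈ U
      · simp [hy, hb]
      · simp [hy]
    rw [this]; exact hU
  · have : (fun y => ⨆ (_ : y ∈ U), c) ⁻¹' Ioi b = ∅ := by
      ext y
      by_cases hy : y ∈ U
      · simp only [mem_preimage, hy, iSup_pos, mem_Ioi, hb, mem_empty_iff_false]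
      · simp [hy]
    rw [this]; exact isOpen_empty

lemma lsc_KM (A B : ℝ) (Z : Set (ℝ × ℝ)) : LowerSemicontinuous (KM A B Z) := by
  unfold KM
  refine lowerSemicontinuous_iSup fun t => ?_
  refine lowerSemicontinuous_iSup fun _ => ?_
  refine lowerSemicontinuous_iSup fun x0 => ?_
  exact lsc_piece _ (bx_open t x0 A B) _

lemma sqrt_min {x a b : ℝ≥0∞} (ha : x ≤ a) (hb : x ≤ b) :
    x ≤ a ^ (1 / 2 : ℝ) * b ^ (1 / 2 : ℝ) := by
  calc x = x ^ (1 / 2 : ℝ) * x ^ (1 / 2 : ℝ) := by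
        rw [← ENNReal.rpow_add_of_nonneg _ _ (by norm_num) (by norm_num)]
        norm_num
    _ ≤ a ^ (1 / 2 : ℝ) * b ^ (1 / 2 : ℝ) := by
        gcongr

lemma dyadic (N : ℕ) (k : ℝ≥0∞) (hk : k ≤ 1) :
    k ≤ ENNReal.ofReal (1 / 2 ^ N) + ∑ n ∈ Finset.range N,
      (if ENNReal.ofReal (1 / 2 ^ (n + 1)) < k then ENNReal.ofReal (1 / 2 ^ n) else 0) := by
  induction N with
  | zero => simpa using hk
  | succ N ih =>
    rw [Finset.sum_range_succ]
    by_cases h : ENNReal.ofReal (1 / 2 ^ (N + 1)) < k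
    · rw [if_pos h]
      calc k ≤ _ := ih
        _ ≤ _ := by
          rw [add_comm (ENNReal.ofReal (1 / 2 ^ N)), add_comm (ENNReal.ofReal (1 / 2 ^ (N + 1)))]
          exact le_self_add
    · rw [if_neg h, add_zero]
      exact le_trans (not_lt.1 h) le_self_add

end KKM_

open KKM_ in
theorem pKKM (hK : LLog.tKAK) (hA : tAVG) : tKKM := by
  obtain ⟨C, hC⟩ := hK
  refine ⟨2 * C ^ (1 / 2 : ℝ), ?_⟩
  intro N A B Z φ hZ hB hBA hφ hφ1
  have hA0 : 0 < A := hB.trans_le hBA
  have hlog : 0 ≤ Real.log (A / B) := Real.log_nonneg (by rw [le_div_iff₀ hB]; linarith)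
  have hmeas : Measurable (KM A B Z) := (lsc_KM A B Z).measurable
  have hind : Measurable (Z.indicator (1 : ℝ × ℝ → ℝ≥0∞)) := measurable_one.indicator hZ
  have hle : ∀ y, KM A B Z y ≤ 1 := by
    intro y
    unfold KM
    refine iSup_le fun t => iSup_le fun _ => iSup_le fun x0 => iSup_le fun _ => ?_
    refine (hA t A B _ hA0 hB hind).2.2.2.1 x0 ?_
    intro z
    by_cases hz : z ∈ Z
    · rw [indicator_of_mem hz]; exact le_rfl
    · rw [indicator_of_notMem hz]; exact zero_le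
  refine ⟨hmeas, hle, ?_⟩
  -- weak type bound
  have hweak : ∀ β : ℝ, 0 < β → β ≤ 1 → volume {y | ENNReal.ofReal β < KM A B Z y} ≤
      C * ENNReal.ofReal ((1 + Real.log (A / B)) / β ^ 2) * volume Z := by
    intro β hβ hβ1
    have h1 := hC Z (A / 7) (B / 7) β hZ (by positivity) (by linarith) hβ hβ1
    have e1 : A / 7 / (B / 7) = A / B := by field_simp
    have e2 : 7 * (A / 7) = A := by ring
    have e3 : 7 * (B / 7) = B := by ring
    rw [e1, e2, e3] at h1
    refine le_trans (measure_mono ?_) h1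
    intro y hy
    have hy' : ENNReal.ofReal β < KM A B Z y := hy
    unfold KM at hy'
    simp only [lt_iSup_iff] at hy'
    obtain ⟨t, ht, x0, hx0, hlt⟩ := hy'
    refine ⟨t, ht, x0, hx0, ?_⟩
    unfold av at hlt
    rw [lintegral_indicator_one hZ, Measure.restrict_apply hZ, mul_comm, ← div_eq_mul_inv,
      ENNReal.lt_div_iff_mul_lt (Or.inl (by positivity)) (Or.inl ENNReal.ofReal_ne_top),
      ← ENNReal.ofReal_mul hβ.le] at hlt
    refine le_trans (ENNReal.ofReal_le_ofReal ?_) hlt.le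
    have h2 : 0 < A * B * β := by positivity
    nlinarith
  -- the terms of the sum
  set I := ∫⁻ x, φ x with hI
  have hterm : ∀ n : ℕ, ∫⁻ x, φ x * (if ENNReal.ofReal (1 / 2 ^ (n + 1)) < KM A B Z x then
      ENNReal.ofReal (1 / 2 ^ n) else 0) ≤ ((2 * C ^ (1 / 2 : ℝ) : ℝ≥0) : ℝ≥0∞) *
        ENNReal.ofReal (1 + Real.log (A / B)) * I ^ (1 / 2 : ℝ) * volume Z ^ (1 / 2 : ℝ) := by
    intro n
    set S := {y | ENNReal.ofReal (1 / 2 ^ (n + 1)) < KM A B Z y} with hS
    have hSm : MeasurableSet S := measurableSet_lt measurable_const hmeas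
    have e1 : ∀ x, φ x * (if ENNReal.ofReal (1 / 2 ^ (n + 1)) < KM A B Z x then
        ENNReal.ofReal (1 / 2 ^ n) else 0)
        = S.indicator (fun x => φ x * ENNReal.ofReal (1 / 2 ^ n)) x := by
      intro x
      by_cases hx : ENNReal.ofReal (1 / 2 ^ (n + 1)) < KM A B Z x
      · have hx' : x ∈ S := hx
        rw [if_pos hx, indicator_of_mem hx']
      · have hx' : x ∉ S := hx
        rw [if_neg hx, indicator_of_notMem hx', mul_zero]
    simp_rw [e1]
    rw [lintegral_indicator hSm, lintegral_mul_const _ hφ]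
    have h1 : ∫⁻ x in S, φ x ≤ I ^ (1 / 2 : ℝ) * volume S ^ (1 / 2 : ℝ) := by
      apply sqrt_min
      · exact setLIntegral_le_lintegral _ _
      · calc ∫⁻ x in S, φ x ≤ ∫⁻ _ in S, 1 := lintegral_mono fun x => hφ1 x
          _ = volume S := setLIntegral_one S
    have h2 := hweak (1 / 2 ^ (n + 1)) (by positivity)
      (by rw [div_le_one (by positivity)]; exact one_le_pow₀ (by norm_num))
    have h3 : volume S ^ (1 / 2 : ℝ) ≤ ((C ^ (1 / 2 : ℝ) : ℝ≥0) : ℝ≥0∞) *
        (ENNReal.ofReal (1 + Real.log (A / B)) * ENNReal.ofReal (2 ^ (n + 1))) *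
          volume Z ^ (1 / 2 : ℝ) := by
      calc volume S ^ (1 / 2 : ℝ) ≤ (C * ENNReal.ofReal ((1 + Real.log (A / B)) /
            (1 / 2 ^ (n + 1)) ^ 2) * volume Z) ^ (1 / 2 : ℝ) :=
              ENNReal.rpow_le_rpow h2 (by norm_num)
        _ = (C : ℝ≥0∞) ^ (1 / 2 : ℝ) * ENNReal.ofReal ((1 + Real.log (A / B)) /
            (1 / 2 ^ (n + 1)) ^ 2) ^ (1 / 2 : ℝ) * volume Z ^ (1 / 2 : ℝ) := by
              rw [ENNReal.mul_rpow_of_nonneg _ _ (by norm_num),
                ENNReal.mul_rpow_of_nonneg _ _ (by norm_num)]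
        _ ≤ _ := by
              rw [← ENNReal.coe_rpow_of_nonneg _ (by norm_num)]
              gcongr
              rw [← ENNReal.ofReal_mul (by linarith),
                ENNReal.ofReal_rpow_of_nonneg (by positivity) (by norm_num)]
              apply ENNReal.ofReal_le_ofReal
              rw [← Real.sqrt_eq_rpow]
              apply Real.sqrt_le_iff.2
              constructor
              · positivity
              · have h4 : (1 + Real.log (A / B)) / (1 / 2 ^ (n + 1)) ^ 2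
                    = (1 + Real.log (A / B)) * (2 ^ (n + 1)) ^ 2 := by
                  field_simp
                rw [h4, mul_pow]
                apply mul_le_mul_of_nonneg_right _ (by positivity)
                nlinarith
    calc (∫⁻ x in S, φ x) * ENNReal.ofReal (1 / 2 ^ n)
        ≤ (I ^ (1 / 2 : ℝ) * (((C ^ (1 / 2 : ℝ) : ℝ≥0) : ℝ≥0∞) *
        (ENNReal.ofReal (1 + Real.log (A / B)) * ENNReal.ofReal (2 ^ (n + 1))) *
          volume Z ^ (1 / 2 : ℝ))) * ENNReal.ofReal (1 / 2 ^ n) := by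
          gcongr
          exact h1.trans (by gcongr)
      _ = (((C ^ (1 / 2 : ℝ) : ℝ≥0) : ℝ≥0∞) * ENNReal.ofReal (1 + Real.log (A / B)) *
          I ^ (1 / 2 : ℝ) * volume Z ^ (1 / 2 : ℝ)) *
            (ENNReal.ofReal (2 ^ (n + 1)) * ENNReal.ofReal (1 / 2 ^ n)) := by ring
      _ = _ := by
          rw [← ENNReal.ofReal_mul (by positivity)]
          have h6 : (2:ℝ) ^ (n + 1) * (1 / 2 ^ n) = 2 := by
            rw [pow_succ]; field_simp
          rw [h6, ENNReal.coe_mul]
          have h7 : ENNReal.ofReal 2 = ((2 : ℝ≥0) : ℝ≥0∞) := by norm_num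
          rw [h7]; ring
  calc ∫⁻ x, φ x * KM A B Z x
      ≤ ∫⁻ x, (φ x * ENNReal.ofReal (1 / 2 ^ N) + ∑ n ∈ Finset.range N,
        φ x * (if ENNReal.ofReal (1 / 2 ^ (n + 1)) < KM A B Z x then
          ENNReal.ofReal (1 / 2 ^ n) else 0)) := by
        apply lintegral_mono
        intro x
        change φ x * KM A B Z x ≤ φ x * ENNReal.ofReal (1 / 2 ^ N) + ∑ n ∈ Finset.range N,
          φ x * (if ENNReal.ofReal (1 / 2 ^ (n + 1)) < KM A B Z x then
          ENNReal.ofReal (1 / 2 ^ n) else 0)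
        rw [← Finset.mul_sum, ← mul_add]
        exact mul_le_mul_right (dyadic N _ (hle x)) _
    _ = I * ENNReal.ofReal (1 / 2 ^ N) + ∑ n ∈ Finset.range N,
        ∫⁻ x, φ x * (if ENNReal.ofReal (1 / 2 ^ (n + 1)) < KM A B Z x then
          ENNReal.ofReal (1 / 2 ^ n) else 0) := by
        rw [lintegral_add_left (hφ.mul_const _), lintegral_mul_const _ hφ,
          lintegral_finsetSum]
        intro n _
        exact hφ.mul (Measurable.ite (measurableSet_lt measurable_const hmeas)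
          measurable_const measurable_const)
    _ ≤ I * ENNReal.ofReal (1 / 2 ^ N) + ∑ _n ∈ Finset.range N,
        ((2 * C ^ (1 / 2 : ℝ) : ℝ≥0) : ℝ≥0∞) *
        ENNReal.ofReal (1 + Real.log (A / B)) * I ^ (1 / 2 : ℝ) * volume Z ^ (1 / 2 : ℝ) := by
        gcongr with n _
        exact hterm n
    _ = ((2 * C ^ (1 / 2 : ℝ) : ℝ≥0) : ℝ≥0∞) * N *
        ENNReal.ofReal (1 + Real.log (A / B)) * I ^ (1 / 2 : ℝ) * volume Z ^ (1 / 2 : ℝ)
        + ENNReal.ofReal (1 / 2 ^ N) * I := by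
        rw [Finset.sum_const, Finset.card_range, nsmul_eq_mul]; ring
    _ ≤ _ := by
        gcongr
        exact le_self_add

end Pool.Agent.SLog
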