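import Pool.Agent.SLog.Targets

set_option autoImplicit false

/-! Target KN of the project SLog: local densities on a set. -/

namespace Pool.Agent.SLog

open MeasureTheory Set
open scoped ENNReal NNReal ComplexConjugate
open Pool.Agent.KSP (ee dot nr Ex Ex1 Bd Bd1 n1 n2 lg V0 ann sq)
open Pool.Agent.LLog (PA cd cdr cp fr tp Nn nv tv Core bx sa sd Qx kc psi kap GK psR psA anf mu Bf hat)

namespace KN_

lemma Nn_pos (t : ℝ) : 0 < Nn t := Real.sqrt_pos.2 (by positivity)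

lemma Nn_sq (t : ℝ) : Nn t ^ 2 = 1 + t ^ 2 := Real.sq_sqrt (by positivity)

lemma dot_nv (w : ℝ × ℝ) (t r : ℝ) (hr : 0 < r) (h1 : |w.1| ≤ r) (h2 : |w.2| ≤ r) :
    |dot w (nv t)| < 2 * r ∧ |dot w (tv t)| < 2 * r := by
  have hN := Nn_pos t
  have hN2 := Nn_sq t
  have h1' : w.1 ^ 2 ≤ r ^ 2 := by
    rw [← sq_abs]
    exact pow_le_pow_left₀ (abs_nonneg _) h1 2
  have h2' : w.2 ^ 2 ≤ r ^ 2 := by
    rw [← sq_abs]
    exact pow_le_pow_left₀ (abs_nonneg _) h2 2
  have e1 : dot w (nv t) = (w.1 + w.2 * t) / Nn t := by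
    simp only [dot, nv]
    field_simp
  have e2 : dot w (tv t) = (w.2 - w.1 * t) / Nn t := by
    simp only [dot, tv]
    field_simp
    ring
  constructor
  · rw [e1]
    apply abs_lt_of_sq_lt_sq _ (by positivity)
    rw [div_pow, div_lt_iff₀ (by positivity), hN2]
    nlinarith [sq_nonneg (w.2 - w.1 * t), sq_nonneg t, sq_nonneg (r * t), mul_pos hr hr,
      mul_le_mul_of_nonneg_right h1' (sq_nonneg t), mul_le_mul_of_nonneg_right h2' (sq_nonneg t)]
  · rw [e2]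
    apply abs_lt_of_sq_lt_sq _ (by positivity)
    rw [div_pow, div_lt_iff₀ (by positivity), hN2]
    nlinarith [sq_nonneg (w.1 + w.2 * t), sq_nonneg t, sq_nonneg (r * t), mul_pos hr hr,
      mul_le_mul_of_nonneg_right h1' (sq_nonneg t), mul_le_mul_of_nonneg_right h2' (sq_nonneg t)]

lemma bx_meas (t : ℝ) (x0 : ℝ × ℝ) (A B : ℝ) : MeasurableSet (bx t x0 A B) := by
  have h1 : Measurable (fun y : ℝ × ℝ => |dot (y - x0) (nv t)|) := by
    unfold dot
    fun_prop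
  have h2 : Measurable (fun y : ℝ × ℝ => |dot (y - x0) (tv t)|) := by
    unfold dot
    fun_prop
  exact (measurableSet_lt h1 measurable_const).inter (measurableSet_lt h2 measurable_const)

/-- an average of a function bounded by `c` is bounded by `c` -/
lemma av_le (hAVG : tAVG) {t A B : ℝ} (hA : 0 < A) (hB : 0 < B) {g : ℝ × ℝ → ℝ≥0∞}
    {z : ℝ × ℝ} {c : ℝ≥0∞} (h : ∀ y ∈ bx t z A B, g y ≤ c) : av t A B g z ≤ c := by
  have hv := (hAVG t A B (fun _ => 0) hA hB measurable_const).2.1 z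
  unfold av
  have h1 : ∫⁻ y in bx t z A B, g y ≤ c * volume (bx t z A B) := by
    rw [← setLIntegral_const]
    exact setLIntegral_mono' (bx_meas t z A B) h
  rw [hv] at h1
  have h0 : ENNReal.ofReal (4 * A * B) ≠ 0 := by
    rw [Ne, ENNReal.ofReal_eq_zero]
    have : 0 < 4 * A * B := by positivity
    linarith
  calc (ENNReal.ofReal (4 * A * B))⁻¹ * ∫⁻ y in bx t z A B, g y
      ≤ (ENNReal.ofReal (4 * A * B))⁻¹ * (c * ENNReal.ofReal (4 * A * B)) := by gcongr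
    _ = c * ((ENNReal.ofReal (4 * A * B))⁻¹ * ENNReal.ofReal (4 * A * B)) := by ring
    _ = c := by rw [ENNReal.inv_mul_cancel h0 ENNReal.ofReal_ne_top, mul_one]

lemma Lg_pos (a l : ℕ) : 0 < Lg a l := by
  unfold Lg
  positivity

lemma pow_ge (a : ℕ) (ha : 20 ≤ a) : (2 : ℝ) ^ 20 ≤ 2 ^ a :=
  pow_le_pow_right₀ (by norm_num) ha

/-- size relations -/
lemma sizes (a l i : ℕ) (ha : 20 ≤ a) (hi : i ≤ l + 8 * a) :
    2 * (4 ^ l * 2 ^ (7 * a)) + 3 * (4 * 2 ^ (l + 16 * a)) / 2 ^ i < Lg a l ∧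
    4 * 2 ^ (l + 16 * a) + 3 * (2 * (4 ^ l * 2 ^ (7 * a))) / 2 ^ i < Lg a l / 2 ^ i ∧
    (2 : ℝ) * 2 ^ (l + 16 * a) < 2 * Lg a l ∧
    (2 : ℝ) * 2 ^ (l + 16 * a) < 2 * Lg a l / 2 ^ i := by
  have hq := pow_ge a ha
  set q : ℝ := 2 ^ a with hqd
  set x : ℝ := 2 ^ l with hxd
  have hx1 : 1 ≤ x := one_le_pow₀ (by norm_num)
  have h4 : (4 : ℝ) ^ l = x ^ 2 := by
    rw [hxd, ← pow_mul, mul_comm, pow_mul]
    norm_num
  have e7 : (2 : ℝ) ^ (7 * a) = q ^ 7 := by rw [hqd, ← pow_mul, mul_comm]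
  have e16 : (2 : ℝ) ^ (l + 16 * a) = x * q ^ 16 := by
    rw [pow_add, hqd, ← pow_mul, mul_comm 16 a]
  have e26 : Lg a l = x ^ 2 * q ^ 26 := by
    unfold Lg
    rw [h4]
    have e0 : (2 : ℝ) ^ (26 * a) = q ^ 26 := by rw [hqd, ← pow_mul, mul_comm]
    rw [e0]
  have hi' : (2 : ℝ) ^ i ≤ x * q ^ 8 := by
    calc (2 : ℝ) ^ i ≤ 2 ^ (l + 8 * a) := pow_le_pow_right₀ (by norm_num) hi
      _ = x * q ^ 8 := by rw [pow_add, hqd, ← pow_mul, mul_comm 8 a]
  have hi1 : (1 : ℝ) ≤ 2 ^ i := one_le_pow₀ (by norm_num)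
  have hq1 : (2 : ℝ) ^ 20 ≤ q := hq
  have hqpos : 0 < q := by positivity
  rw [e7, e16, e26, h4]
  have hxx : x ≤ x ^ 2 := by nlinarith
  have hx0 : 0 < x := by linarith
  have hq2 : 1000 ≤ q := by
    refine le_trans ?_ hq1
    norm_num
  have b1 : 2 * (x ^ 2 * q ^ 7) + 3 * (4 * (x * q ^ 16)) < x ^ 2 * q ^ 26 := by
    have c1 : x * q ^ 16 ≤ x ^ 2 * q ^ 16 := by gcongr
    have c2 : x ^ 2 * q ^ 7 ≤ x ^ 2 * q ^ 16 := by
      gcongr
      · linarith
      · norm_num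
    have c3 : 14 * q ^ 16 < q ^ 26 := by
      have : q ^ 26 = q ^ 16 * q ^ 10 := by ring
      rw [this]
      have c4 : (1000 : ℝ) ^ 10 ≤ q ^ 10 := by gcongr
      have c5 : 0 < q ^ 16 := by positivity
      nlinarith
    have c6 : 0 < x ^ 2 := by positivity
    nlinarith
  have b2 : 4 * (x * q ^ 16) * 2 ^ i + 3 * (2 * (x ^ 2 * q ^ 7)) < x ^ 2 * q ^ 26 := by
    have c1 : 4 * (x * q ^ 16) * 2 ^ i ≤ 4 * (x * q ^ 16) * (x * q ^ 8) := by gcongr
    have c2 : x ^ 2 * q ^ 7 ≤ x ^ 2 * q ^ 24 := by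
      gcongr
      · linarith
      · norm_num
    have c3 : 10 * q ^ 24 < q ^ 26 := by
      have : q ^ 26 = q ^ 24 * q ^ 2 := by ring
      rw [this]
      have c4 : (1000 : ℝ) ^ 2 ≤ q ^ 2 := by gcongr
      have c5 : 0 < q ^ 24 := by positivity
      nlinarith
    have c6 : 0 < x ^ 2 := by positivity
    nlinarith
  have hipos : (0 : ℝ) < 2 ^ i := by positivity
  refine ⟨?_, ?_, ?_, ?_⟩
  · refine lt_of_le_of_lt ?_ b1
    gcongr
    rw [div_le_iff₀ hipos]
    have : 0 ≤ 3 * (4 * (x * q ^ 16)) := by positivity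
    nlinarith
  · rw [lt_div_iff₀ hipos]
    refine lt_of_le_of_lt (le_of_eq ?_) b2
    field_simp
  · have c2 : 0 ≤ 2 * (x ^ 2 * q ^ 7) := by positivity
    have c3 : 0 < x * q ^ 16 := by positivity
    nlinarith
  · rw [lt_div_iff₀ hipos]
    have c2 : 0 ≤ 3 * (2 * (x ^ 2 * q ^ 7)) := by positivity
    have c3 : 0 < x * q ^ 16 * 2 ^ i := by positivity
    nlinarith

lemma tp_mem (sl : ℝ) (i b : ℕ) (h1 : 1 ≤ sl) (h2 : sl < 2) (hb : b < 3 * 2 ^ i) :
    tp sl i b ∈ Icc (-2 : ℝ) 2 := by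
  unfold tp
  have hi : (0 : ℝ) < 2 ^ i := by positivity
  have hb' : (b : ℝ) < 3 * 2 ^ i := by exact_mod_cast hb
  have h3 : (b : ℝ) / 2 ^ i < 3 := by
    rw [div_lt_iff₀ hi]
    exact hb'
  have h4 : 0 ≤ (b : ℝ) / 2 ^ i := by positivity
  constructor <;> linarith

/-- comparison of the averages with the Kakeya maximal function -/
lemma avL_le_KM (hAVG : tAVG) (hSBR : tSBR) (a l i b p k : ℕ) (sl : ℝ) (ha : 20 ≤ a)
    (h1 : 1 ≤ sl) (h2 : sl < 2) (hi : i ≤ l + 8 * a) (hk : 1 ≤ k) (hb : b < 3 * 2 ^ i)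
    (hp : p ∈ near a l i b) (Z : Set (ℝ × ℝ)) (hZ : MeasurableSet Z) (y z y' : ℝ × ℝ)
    (hy1 : |y.1 - z.1| ≤ 2 ^ (l + 16 * a)) (hy2 : |y.2 - z.2| ≤ 2 ^ (l + 16 * a))
    (hy' : y' ∈ bx (tp sl (l + 8 * a) p) z (2 * (4 ^ l * 2 ^ (7 * a))) (4 * 2 ^ (l + 16 * a))) :
    avL a l sl k i b (Z.indicator 1) y' ≤ 4 * KM (2 * (k * Lg a l)) (2 * (k * Lg a l / 2 ^ i)) Z y := by
  obtain ⟨s1, s2, s3, s4⟩ := sizes a l i ha hi
  have hL := Lg_pos a l
  have hk' : (1 : ℝ) ≤ k := by exact_mod_cast hk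
  have hkL : Lg a l ≤ k * Lg a l := by nlinarith
  have hi0 : (0 : ℝ) < 2 ^ i := by positivity
  have hkL' : Lg a l / 2 ^ i ≤ k * Lg a l / 2 ^ i := by gcongr
  have hA : 0 < k * Lg a l := by positivity
  have hB : 0 < k * Lg a l / 2 ^ i := by positivity
  have hp' : p ∈ PP a l := (Finset.mem_filter.1 hp).1
  have hmeas : Measurable (Z.indicator (1 : ℝ × ℝ → ℝ≥0∞)) := measurable_one.indicator hZ
  -- `y'` is in the box of direction `b` around `z`
  obtain ⟨-, hS⟩ := hSBR a l i p sl (2 * (4 ^ l * 2 ^ (7 * a))) (4 * 2 ^ (l + 16 * a)) (y' - z)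
    h1 h2 hp' hi
  obtain ⟨hS1, hS2⟩ := hS b hp hy'.1.le hy'.2.le
  have hin : y' ∈ bx (tp sl i b) z (k * Lg a l) (k * Lg a l / 2 ^ i) :=
    ⟨by linarith, by linarith⟩
  obtain ⟨-, -, -, -, c5, c6⟩ := hAVG (tp sl i b) (k * Lg a l) (k * Lg a l / 2 ^ i)
    (Z.indicator 1) hA hB hmeas
  have hsub := c6 z y' (k * Lg a l) (k * Lg a l / 2 ^ i) hin
  have h3 := c5 (tp sl i b) (k * Lg a l + k * Lg a l) (k * Lg a l / 2 ^ i + k * Lg a l / 2 ^ i)
    y' z (by positivity) (by positivity) hsub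
  have e1 : (k * Lg a l + k * Lg a l) * (k * Lg a l / 2 ^ i + k * Lg a l / 2 ^ i) /
      (k * Lg a l * (k * Lg a l / 2 ^ i)) = 4 := by
    field_simp
    ring
  rw [e1, ← two_mul, ← two_mul] at h3
  have e4 : ENNReal.ofReal 4 = 4 := by simp
  rw [e4] at h3
  refine h3.trans ?_
  gcongr
  -- the average is one of those in the supremum
  have hyz := dot_nv (y - z) (tp sl i b) (2 ^ (l + 16 * a)) (by positivity) hy1 hy2
  have hyin : y ∈ bx (tp sl i b) z (2 * (k * Lg a l)) (2 * (k * Lg a l / 2 ^ i)) := by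
    refine ⟨lt_of_lt_of_le hyz.1 ?_, lt_of_lt_of_le hyz.2 ?_⟩
    · linarith
    · have : 2 * Lg a l / 2 ^ i ≤ 2 * (k * Lg a l / 2 ^ i) := by
        rw [mul_div_assoc]
        gcongr
      linarith
  unfold KM
  exact le_iSup₂_of_le (tp sl i b) (tp_mem sl i b h1 h2 hb) (le_iSup₂_of_le z hyin le_rfl)

/-- the direction numbers `b` near which the cap `p` is -/
def Bs (a l i p : ℕ) : Finset ℕ := (Finset.range (3 * 2 ^ i)).filter (fun b => p ∈ near a l i b)

lemma Bs_card (a l i p : ℕ) : (Bs a l i p).card ≤ 5 := by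
  have h : Bs a l i p ⊆
      Finset.Icc (p / 2 ^ (l + 8 * a - i) - 2) (p / 2 ^ (l + 8 * a - i) + 2) := by
    intro b hb
    rw [Bs, Finset.mem_filter, near, Finset.mem_filter] at hb
    rw [Finset.mem_Icc]
    omega
  refine (Finset.card_le_card h).trans ?_
  rw [Nat.card_Icc]
  omega

lemma VV_meas (hVB : tVB) {a m l c p : ℕ} {sg sl : ℝ} {w : ℕ → ℝ × ℝ → ℂ} (hP : HP a m l sg sl)
    (hw : Fm w) (hc : c ∈ CC l) (hp : p ∈ PP a l) : Measurable (VV a m sg sl l (w c) c p) := by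
  have h := ((hVB a m l sg sl (w c) hP (hw.1 c).1).1 c hc p hp).1
  unfold VV
  exact (h.measurable.enorm.pow_const 2)

lemma G_meas (hVB : tVB) {a m l c i b : ℕ} {sg sl : ℝ} {w : ℕ → ℝ × ℝ → ℂ} (hP : HP a m l sg sl)
    (hw : Fm w) (hc : c ∈ CC l) :
    Measurable (fun y => ∑ p ∈ near a l i b, VV a m sg sl l (w c) c p y) :=
  Finset.measurable_fun_sum _ (fun _ hp => VV_meas hVB hP hw hc (Finset.mem_filter.1 hp).1)

lemma Dn_meas (hAVG : tAVG) (hVB : tVB) {a m l c i b k : ℕ} {sg sl : ℝ} {w : ℕ → ℝ × ℝ → ℂ}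
    (hP : HP a m l sg sl) (hw : Fm w) (hc : c ∈ CC l) (hk : 1 ≤ k) :
    Measurable (Dn a l sl k (VV a m sg sl l (w c) c) i b) := by
  have hL := Lg_pos a l
  have hk' : (1 : ℝ) ≤ k := by exact_mod_cast hk
  have h := (hAVG (tp sl i b) (k * Lg a l) (k * Lg a l / 2 ^ i)
    (fun y => ∑ p ∈ near a l i b, VV a m sg sl l (w c) c p y) (by positivity) (by positivity)
    (G_meas hVB hP hw hc)).1
  exact h

lemma avL_meas (hAVG : tAVG) {a l i b k : ℕ} {sl : ℝ} (hk : 1 ≤ k) {f : ℝ × ℝ → ℝ≥0∞}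
    (hf : Measurable f) : Measurable (avL a l sl k i b f) := by
  have hL := Lg_pos a l
  have hk' : (1 : ℝ) ≤ k := by exact_mod_cast hk
  exact (hAVG (tp sl i b) (k * Lg a l) (k * Lg a l / 2 ^ i) f (by positivity) (by positivity) hf).1

lemma NN_meas (hAVG : tAVG) (hVB : tVB) {a m l k : ℕ} {sg sl : ℝ} {w : ℕ → ℝ × ℝ → ℂ}
    (hP : HP a m l sg sl) (hw : Fm w) (hk : 1 ≤ k) : Measurable (NN a m sg sl l w k) := by
  unfold NN
  exact Finset.measurable_fun_sum _ (fun c hc => Finset.measurable_fun_sum _ (fun i _ =>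
    Finset.measurable_fun_sum _ (fun b _ => Dn_meas hAVG hVB hP hw hc hk)))

/-- the densities are paired with `f` -/
lemma swap (hAVG : tAVG) (hVB : tVB) {a m l k : ℕ} {sg sl : ℝ} {w : ℕ → ℝ × ℝ → ℂ}
    (hP : HP a m l sg sl) (hw : Fm w) (hk : 1 ≤ k) {f : ℝ × ℝ → ℝ≥0∞} (hf : Measurable f) :
    ∫⁻ x, f x * NN a m sg sl l w k x =
      ∑ i ∈ Finset.range (l + 8 * a + 1), ∑ c ∈ CC l, ∑ p ∈ PP a l,
        ∫⁻ x, (∑ b ∈ Bs a l i p, avL a l sl k i b f x) * VV a m sg sl l (w c) c p x := by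
  have hL := Lg_pos a l
  have hk' : (1 : ℝ) ≤ k := by exact_mod_cast hk
  have e1 : ∫⁻ x, f x * NN a m sg sl l w k x = ∑ c ∈ CC l, ∑ i ∈ Finset.range (l + 8 * a + 1),
      ∑ b ∈ Finset.range (3 * 2 ^ i),
        ∫⁻ x, f x * Dn a l sl k (fun p => VV a m sg sl l (w c) c p) i b x := by
    have hm : ∀ c ∈ CC l, ∀ i b, Measurable (fun x => f x *
        Dn a l sl k (fun p => VV a m sg sl l (w c) c p) i b x) :=
      fun c hc i b => hf.mul (Dn_meas hAVG hVB hP hw hc hk)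
    unfold NN
    simp_rw [Finset.mul_sum]
    rw [lintegral_finsetSum _ (fun c hc => Finset.measurable_fun_sum _ (fun i _ =>
      Finset.measurable_fun_sum _ (fun b _ => hm c hc i b)))]
    refine Finset.sum_congr rfl (fun c hc => ?_)
    rw [lintegral_finsetSum _ (fun i _ =>
      Finset.measurable_fun_sum _ (fun b _ => hm c hc i b))]
    refine Finset.sum_congr rfl (fun i _ => ?_)
    rw [lintegral_finsetSum _ (fun b _ => hm c hc i b)]
  rw [e1, Finset.sum_comm]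
  refine Finset.sum_congr rfl (fun i _ => Finset.sum_congr rfl (fun c hc => ?_))
  have hm : ∀ b, ∀ p ∈ PP a l, Measurable (fun x => avL a l sl k i b f x *
      VV a m sg sl l (w c) c p x) :=
    fun b p hp => (avL_meas hAVG hk hf).mul (VV_meas hVB hP hw hc hp)
  have e2 : ∀ b ∈ Finset.range (3 * 2 ^ i),
      ∫⁻ x, f x * Dn a l sl k (fun p => VV a m sg sl l (w c) c p) i b x =
      ∑ p ∈ near a l i b, ∫⁻ x, avL a l sl k i b f x * VV a m sg sl l (w c) c p x := by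
    intro b _
    have h := (hAVG (tp sl i b) (k * Lg a l) (k * Lg a l / 2 ^ i)
      (fun y => ∑ p ∈ near a l i b, VV a m sg sl l (w c) c p y) (by positivity) (by positivity)
      (G_meas hVB hP hw hc)).2.2.1 f hf
    refine Eq.trans h ?_
    rw [← lintegral_finsetSum (near a l i b) (fun p hp => hm b p (Finset.mem_filter.1 hp).1)]
    refine lintegral_congr (fun x => ?_)
    rw [Finset.mul_sum]
    rfl
  rw [Finset.sum_congr rfl e2]
  rw [Finset.sum_comm' (t' := PP a l) (s' := fun p => Bs a l i p)]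
  · refine Finset.sum_congr rfl (fun p hp => ?_)
    rw [← lintegral_finsetSum _ (fun b _ => hm b p hp)]
    refine lintegral_congr (fun x => ?_)
    rw [Finset.sum_mul]
  · intro b p
    constructor
    · rintro ⟨hb, hp⟩
      exact ⟨Finset.mem_filter.2 ⟨hb, hp⟩, (Finset.mem_filter.1 hp).1⟩
    · rintro ⟨hb, hp⟩
      exact Finset.mem_filter.1 hb

lemma EE_meas {l : ℕ} {w : ℕ → ℝ × ℝ → ℂ} (hw : Fm w) : MeasurableSet (EE l w) := by
  have h : EE l w = ⋃ c ∈ CC l, {x | w c x ≠ 0} := by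
    ext x
    simp [EE]
  rw [h]
  refine Finset.measurableSet_biUnion _ (fun c _ => ?_)
  exact ((hw.1 c).1.1 (measurableSet_singleton 0)).compl

/-- the sum of all squares -/
lemma sumV (hVB : tVB) {a m l : ℕ} {sg sl : ℝ} {w : ℕ → ℝ × ℝ → ℂ}
    (hP : HP a m l sg sl) (hw : Fm w) :
    ∑ c ∈ CC l, ∑ p ∈ PP a l, ∫⁻ x, VV a m sg sl l (w c) c p x ≤ volume (EE l w) := by
  have e1 : ∑ c ∈ CC l, ∑ p ∈ PP a l, ∫⁻ x, VV a m sg sl l (w c) c p x ≤
      ∑ c ∈ CC l, ∫⁻ x, ‖w c x‖ₑ ^ 2 := by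
    refine Finset.sum_le_sum (fun c hc => ?_)
    refine le_trans ?_ (hVB a m l sg sl (w c) hP (hw.1 c).1).2.2
    exact Finset.single_le_sum
      (f := fun c' => ∑ p ∈ PP a l, ∫⁻ x, VV a m sg sl l (w c) c' p x)
      (fun _ _ => zero_le) hc
  refine e1.trans ?_
  rw [← lintegral_finsetSum _ (fun c _ => ((hw.1 c).1.1.enorm.pow_const 2)),
    ← lintegral_indicator_one (EE_meas hw)]
  refine lintegral_mono (fun x => ?_)
  by_cases hx : x ∈ EE l w
  · rw [Set.indicator_of_mem hx]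
    obtain ⟨c0, hc0, hne⟩ := hx
    rw [Finset.sum_eq_single c0]
    · have : ‖w c0 x‖ₑ ≤ 1 := by
        rw [← ofReal_norm, ← ENNReal.ofReal_one]
        exact ENNReal.ofReal_le_ofReal ((hw.1 c0).2 x)
      exact pow_le_one₀ zero_le this
    · intro c _ hcc
      have : w c x = 0 := by
        by_contra h
        exact hcc (hw.2 x c c0 h hne)
      rw [this]
      simp
    · intro h
      exact absurd hc0 h
  · have h0 : ∀ c ∈ CC l, w c x = 0 := by
      intro c hc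
      by_contra h
      exact hx ⟨c, hc, h⟩
    rw [Finset.sum_eq_zero]
    · exact zero_le
    · intro c hc
      rw [h0 c hc]
      simp

lemma sizes2 (a m l : ℕ) (hPA : PA a m) (hl : l ≤ m) :
    l + 8 * a + 1 ≤ 2 * 2 ^ a ∧ 25 * a ≤ m ∧ m ≤ 2 ^ a := by
  obtain ⟨h1, h2, h3⟩ := hPA
  have h4 : 50 * a ≤ 2 ^ a := by
    have : ∀ n, 50 * (n + 20) ≤ 2 ^ (n + 20) := by
      intro n
      induction n with
      | zero => norm_num
      | succ n ih =>
        have e : (2 : ℕ) ^ (n + 1 + 20) = 2 * 2 ^ (n + 20) := by ring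
        rw [e]
        omega
    obtain ⟨n, rfl⟩ : ∃ n, a = n + 20 := ⟨a - 20, by omega⟩
    exact this n
  refine ⟨by omega, by omega, ?_⟩
  exact h2.le

lemma sumb_le {a l i p : ℕ} {g : ℕ → ℝ≥0∞} {c : ℝ≥0∞} (h : ∀ b ∈ Bs a l i p, g b ≤ c) :
    ∑ b ∈ Bs a l i p, g b ≤ 5 * c := by
  refine (Finset.sum_le_card_nsmul _ _ _ h).trans ?_
  rw [nsmul_eq_mul]
  gcongr
  exact_mod_cast Bs_card a l i p

/-- the constant in the second estimate -/
lemma cst1 (a m l : ℕ) (hPA : PA a m) (hl : l ≤ m) :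
    (((l + 8 * a + 1 : ℕ) : ℝ≥0∞)) * 5 ≤ 2 ^ (2 * a) := by
  obtain ⟨z1, z2, z3⟩ := sizes2 a m l hPA hl
  have h1 : (2 : ℕ) ^ 20 ≤ 2 ^ a := Nat.pow_le_pow_right (by norm_num) hPA.1
  have h2 : (l + 8 * a + 1) * 5 ≤ 2 ^ (2 * a) := by
    have e : (2 : ℕ) ^ (2 * a) = 2 ^ a * 2 ^ a := by rw [← pow_add]; congr 1; ring
    rw [e]
    have : 10 ≤ 2 ^ a := by omega
    nlinarith
  exact_mod_cast h2

/-- the constant in the third estimate -/
lemma cst2 (a m l : ℕ) (hPA : PA a m) (hl : l ≤ m) :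
    20 * (l + 8 * a + 1) * (l + 8 * a + 1) * (10 * m + 1) * 2 ^ (32 * a) ≤ 2 ^ (36 * a) := by
  obtain ⟨z1, z2, z3⟩ := sizes2 a m l hPA hl
  have h1 : (2 : ℕ) ^ 20 ≤ 2 ^ a := Nat.pow_le_pow_right (by norm_num) hPA.1
  have e : (2 : ℕ) ^ (36 * a) = 2 ^ a * 2 ^ a * 2 ^ a * 2 ^ a * 2 ^ (32 * a) := by
    rw [← pow_add, ← pow_add, ← pow_add, ← pow_add]
    congr 1
    ring
  rw [e]
  set q := 2 ^ a with hq
  refine Nat.mul_le_mul_right _ ?_
  calc 20 * (l + 8 * a + 1) * (l + 8 * a + 1) * (10 * m + 1)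
      ≤ 20 * (2 * q) * (2 * q) * (10 * q + 1) := by gcongr
    _ ≤ 20 * (2 * q) * (2 * q) * (11 * q) := by gcongr; omega
    _ = 880 * (q * q * q) := by ring
    _ ≤ q * (q * q * q) := by gcongr; omega
    _ = q * q * q * q := by ring

/-- the error terms -/
lemma cst3 (a m l : ℕ) (hPA : PA a m) (hl : l ≤ m) :
    ((l + 8 * a + 1 : ℕ) : ℝ) * (5 * (4 * 2 ^ (32 * a) * (1 / 2 ^ (10 * m)) + 1 / 2 ^ (20 * m))) ≤
      1 / 2 ^ (7 * m) := by
  obtain ⟨z1, z2, z3⟩ := sizes2 a m l hPA hl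
  have z1' : ((l + 8 * a + 1 : ℕ) : ℝ) ≤ 2 * 2 ^ a := by exact_mod_cast z1
  have ha : 20 ≤ a := hPA.1
  have h1 : (1 : ℝ) / 2 ^ (20 * m) ≤ 2 ^ (32 * a) * (1 / 2 ^ (10 * m)) := by
    have e1 : (1 : ℝ) / 2 ^ (20 * m) ≤ 1 / 2 ^ (10 * m) := by
      apply one_div_le_one_div_of_le (by positivity)
      exact pow_le_pow_right₀ (by norm_num) (by omega)
    have e2 : (1 : ℝ) ≤ 2 ^ (32 * a) := one_le_pow₀ (by norm_num)
    have e3 : (0 : ℝ) < 1 / 2 ^ (10 * m) := by positivity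
    nlinarith
  calc ((l + 8 * a + 1 : ℕ) : ℝ) * (5 * (4 * 2 ^ (32 * a) * (1 / 2 ^ (10 * m)) + 1 / 2 ^ (20 * m)))
      ≤ (2 * 2 ^ a) * (5 * (4 * 2 ^ (32 * a) * (1 / 2 ^ (10 * m)) +
        2 ^ (32 * a) * (1 / 2 ^ (10 * m)))) := by gcongr
    _ = 50 * (2 ^ a * 2 ^ (32 * a)) * (1 / 2 ^ (10 * m)) := by ring
    _ ≤ 2 ^ 6 * (2 ^ a * 2 ^ (32 * a)) * (1 / 2 ^ (10 * m)) := by gcongr; norm_num
    _ = 2 ^ (6 + (a + 32 * a)) * (1 / 2 ^ (10 * m)) := by rw [pow_add, pow_add]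
    _ ≤ 2 ^ (3 * m) * (1 / 2 ^ (10 * m)) := by
        gcongr
        · norm_num
        · omega
    _ = 1 / 2 ^ (7 * m) := by
        have e : (2 : ℝ) ^ (10 * m) = 2 ^ (3 * m) * 2 ^ (7 * m) := by
          rw [← pow_add]
          congr 1
          ring
        rw [e]
        field_simp

end KN_

open KN_ in
theorem pKN (hKQ : tKQ) (hKKM : tKKM) (hAVG : tAVG) (hSBR : tSBR) (hVB : tVB) : tKN := by
  obtain ⟨C, hC⟩ := hKKM
  refine ⟨C, ?_⟩
  intro a m l k sg sl w Z hP hw hZ hk1 hk4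
  obtain ⟨hPA, hl1, hl2, hsg1, hsg2, hsl1, hsl2⟩ := id hP
  have ha : 20 ≤ a := hPA.1
  have hL := Lg_pos a l
  have hk' : (1 : ℝ) ≤ k := by exact_mod_cast hk1
  refine ⟨NN_meas hAVG hVB hP hw hk1, ?_, ?_⟩
  · have e0 : ∫⁻ x, NN a m sg sl l w k x = ∫⁻ x, (fun _ => (1 : ℝ≥0∞)) x * NN a m sg sl l w k x := by
      simp
    rw [e0, swap hAVG hVB hP hw hk1 measurable_const]
    have e1 : ∀ i ∈ Finset.range (l + 8 * a + 1), ∑ c ∈ CC l, ∑ p ∈ PP a l,
        ∫⁻ x, (∑ b ∈ Bs a l i p, avL a l sl k i b (fun _ => (1 : ℝ≥0∞)) x) *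
          VV a m sg sl l (w c) c p x ≤ 5 * volume (EE l w) := by
      intro i _
      refine le_trans ?_ (mul_le_mul_right (sumV hVB hP hw) 5)
      rw [Finset.mul_sum]
      refine Finset.sum_le_sum (fun c hc => ?_)
      rw [Finset.mul_sum]
      refine Finset.sum_le_sum (fun p hp => ?_)
      rw [← lintegral_const_mul _ (VV_meas hVB hP hw hc hp)]
      refine lintegral_mono (fun x => ?_)
      refine mul_le_mul_left ?_ _
      have e3 := sumb_le (a := a) (l := l) (i := i) (p := p)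
        (g := fun b => avL a l sl k i b (fun _ => (1 : ℝ≥0∞)) x) (c := 1) (fun b _ =>
          av_le hAVG (by positivity) (by positivity) (fun _ _ => le_rfl))
      rwa [mul_one] at e3
    refine (Finset.sum_le_card_nsmul _ _ _ e1).trans ?_
    rw [Finset.card_range, nsmul_eq_mul, ← mul_assoc]
    exact mul_le_mul_left (cst1 a m l hPA hl2) _
  · set φ : ℝ × ℝ → ℝ≥0∞ := (EE l w).indicator 1 with hφ
    have hEE := EE_meas hw (l := l)
    have hφm : Measurable φ := measurable_one.indicator hEE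
    have hφ1 : ∀ x, φ x ≤ 1 := by
      intro x
      rw [hφ]
      by_cases hx : x ∈ EE l w
      · rw [Set.indicator_of_mem hx]
        exact le_rfl
      · rw [Set.indicator_of_notMem hx]
        exact zero_le
    have hφi : ∫⁻ x, φ x = volume (EE l w) := lintegral_indicator_one hEE
    have hZm : Measurable (Z.indicator (1 : ℝ × ℝ → ℝ≥0∞)) := measurable_one.indicator hZ
    have hZ1 : ∀ x, Z.indicator (1 : ℝ × ℝ → ℝ≥0∞) x ≤ 1 := by
      intro x
      by_cases hx : x ∈ Z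
      · rw [Set.indicator_of_mem hx]
        exact le_rfl
      · rw [Set.indicator_of_notMem hx]
        exact zero_le
    have e0 : ∫⁻ x in Z, NN a m sg sl l w k x =
        ∫⁻ x, Z.indicator (1 : ℝ × ℝ → ℝ≥0∞) x * NN a m sg sl l w k x := by
      rw [← lintegral_indicator hZ]
      refine lintegral_congr (fun x => ?_)
      by_cases hx : x ∈ Z
      · rw [Set.indicator_of_mem hx, Set.indicator_of_mem hx]
        simp
      · rw [Set.indicator_of_notMem hx, Set.indicator_of_notMem hx]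
        simp
    rw [e0, swap hAVG hVB hP hw hk1 hZm]
    -- one level
    have e1 : ∀ i ∈ Finset.range (l + 8 * a + 1), ∑ c ∈ CC l, ∑ p ∈ PP a l,
        ∫⁻ x, (∑ b ∈ Bs a l i p, avL a l sl k i b (Z.indicator 1) x) *
          VV a m sg sl l (w c) c p x ≤
        5 * (2 ^ (32 * a) * (4 * (C * (10 * m + 1) * (l + 8 * a + 1 : ℕ) *
          volume (EE l w) ^ (1 / 2 : ℝ) * volume Z ^ (1 / 2 : ℝ) +
          ENNReal.ofReal (1 / 2 ^ (10 * m)) * volume (EE l w))) +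
          ENNReal.ofReal (1 / 2 ^ (20 * m)) * volume (EE l w)) := by
      intro i hi
      have hi' : i ≤ l + 8 * a := by
        rw [Finset.mem_range] at hi
        omega
      obtain ⟨k1, k2, k3⟩ := hC (10 * m) (2 * (k * Lg a l)) (2 * (k * Lg a l / 2 ^ i)) Z φ hZ
        (by positivity) (by
          have : k * Lg a l / 2 ^ i ≤ k * Lg a l :=
            div_le_self (by positivity) (one_le_pow₀ (by norm_num))
          linarith) hφm hφ1
      set Φ : ℕ → ℝ × ℝ → ℝ≥0∞ := fun p x => 5⁻¹ *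
        ∑ b ∈ Bs a l i p, avL a l sl k i b (Z.indicator 1) x with hΦ
      set W : ℝ × ℝ → ℝ≥0∞ := fun y =>
        4 * KM (2 * (k * Lg a l)) (2 * (k * Lg a l / 2 ^ i)) Z y with hW
      have hWm : Measurable W := k1.const_mul 4
      have h5 : (5 : ℝ≥0∞)⁻¹ * 5 = 1 := ENNReal.inv_mul_cancel (by norm_num) (by norm_num)
      have hΦ1 : ∀ p, Measurable (Φ p) ∧ ∀ x, Φ p x ≤ 1 := by
        intro p
        constructor
        · exact (Finset.measurable_fun_sum _ (fun b _ => avL_meas hAVG hk1 hZm)).const_mul _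
        · intro x
          have e3 := sumb_le (a := a) (l := l) (i := i) (p := p)
            (g := fun b => avL a l sl k i b (Z.indicator 1) x) (c := 1) (fun b _ =>
              av_le hAVG (by positivity) (by positivity) (fun y _ => hZ1 y))
          calc Φ p x ≤ 5⁻¹ * (5 * 1) := by
                rw [hΦ]
                exact mul_le_mul_right e3 _
            _ = 1 := by rw [mul_one, h5]
      have key := hKQ a m l sg sl w Φ W hP hw hΦ1 hWm (by
        intro p hp y z hy1 hy2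
        refine av_le hAVG (by positivity) (by positivity) (fun y' hy' => ?_)
        have e3 := sumb_le (a := a) (l := l) (i := i) (p := p)
            (g := fun b => avL a l sl k i b (Z.indicator 1) y') (c := W y) (fun b hb => by
              obtain ⟨hb1, hb2⟩ := Finset.mem_filter.1 hb
              exact avL_le_KM hAVG hSBR a l i b p k sl ha hsl1 hsl2 hi' hk1
                (Finset.mem_range.1 hb1) hb2 Z hZ y z y' hy1 hy2 hy')
        calc Φ p y' ≤ 5⁻¹ * (5 * W y) := by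
                rw [hΦ]
                exact mul_le_mul_right e3 _
            _ = W y := by rw [← mul_assoc, h5, one_mul])
      have e4 : ∑ c ∈ CC l, ∑ p ∈ PP a l,
          ∫⁻ x, (∑ b ∈ Bs a l i p, avL a l sl k i b (Z.indicator 1) x) *
          VV a m sg sl l (w c) c p x = 5 * ∑ c ∈ CC l, ∑ p ∈ PP a l,
          ∫⁻ x, Φ p x * VV a m sg sl l (w c) c p x := by
        rw [Finset.mul_sum]
        refine Finset.sum_congr rfl (fun c hc => ?_)
        rw [Finset.mul_sum]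
        refine Finset.sum_congr rfl (fun p hp => ?_)
        have hm : Measurable (fun x => Φ p x * VV a m sg sl l (w c) c p x) :=
          (hΦ1 p).1.mul (VV_meas hVB hP hw hc hp)
        rw [← lintegral_const_mul _ hm]
        refine lintegral_congr (fun x => ?_)
        rw [hΦ]
        dsimp only
        rw [← mul_assoc, ← mul_assoc, mul_comm 5, h5, one_mul]
      rw [e4]
      refine mul_le_mul_right (key.trans ?_) 5
      refine add_le_add ?_ le_rfl
      refine mul_le_mul_right ?_ _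
      have e5 : ∫⁻ x in EE l w, W x =
          4 * ∫⁻ x, φ x * KM (2 * (k * Lg a l)) (2 * (k * Lg a l / 2 ^ i)) Z x := by
        have hm : Measurable (fun x => φ x *
            KM (2 * (k * Lg a l)) (2 * (k * Lg a l / 2 ^ i)) Z x) := hφm.mul k1
        rw [← lintegral_const_mul _ hm, ← lintegral_indicator hEE]
        refine lintegral_congr (fun x => ?_)
        rw [hφ, hW]
        by_cases hx : x ∈ EE l w
        · rw [Set.indicator_of_mem hx, Set.indicator_of_mem hx]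
          simp
        · rw [Set.indicator_of_notMem hx, Set.indicator_of_notMem hx]
          simp
      rw [e5]
      refine mul_le_mul_right (k3.trans ?_) 4
      rw [hφi]
      refine add_le_add ?_ le_rfl
      have hi0 : (0 : ℝ) < 2 ^ i := by positivity
      have e6 : 2 * (k * Lg a l) / (2 * (k * Lg a l / 2 ^ i)) = 2 ^ i := by
        have : 0 < k * Lg a l := by positivity
        field_simp
      have e7 : ENNReal.ofReal (1 + Real.log (2 * (k * Lg a l) / (2 * (k * Lg a l / 2 ^ i)))) ≤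
          (l + 8 * a + 1 : ℕ) := by
        rw [e6, Real.log_pow]
        have h2 : Real.log 2 ≤ 1 := by
          have := Real.log_two_lt_d9
          linarith
        have h3 : (i : ℝ) ≤ ((l + 8 * a : ℕ) : ℝ) := by exact_mod_cast hi'
        have h4 : (1 : ℝ) + i * Real.log 2 ≤ ((l + 8 * a + 1 : ℕ) : ℝ) := by
          have h5 : (i : ℝ) * Real.log 2 ≤ i * 1 := by gcongr
          push_cast at h3 ⊢
          linarith
        refine (ENNReal.ofReal_le_ofReal h4).trans ?_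
        rw [ENNReal.ofReal_natCast]
      have e8 : ((10 * m : ℕ) : ℝ≥0∞) + 1 = 10 * m + 1 := by push_cast; ring
      rw [e8]
      gcongr
    refine (Finset.sum_le_card_nsmul _ _ _ e1).trans ?_
    rw [Finset.card_range, nsmul_eq_mul]
    set V := volume (EE l w)
    set S := V ^ (1 / 2 : ℝ) * volume Z ^ (1 / 2 : ℝ) with hS
    have e9 : ((l + 8 * a + 1 : ℕ) : ℝ≥0∞) * (5 * (2 ^ (32 * a) * (4 * (C * (10 * m + 1) *
        (l + 8 * a + 1 : ℕ) * V ^ (1 / 2 : ℝ) * volume Z ^ (1 / 2 : ℝ) +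
          ENNReal.ofReal (1 / 2 ^ (10 * m)) * V)) +
          ENNReal.ofReal (1 / 2 ^ (20 * m)) * V)) =
        ((20 * (l + 8 * a + 1) * (l + 8 * a + 1) * (10 * m + 1) * 2 ^ (32 * a) : ℕ) : ℝ≥0∞) *
          (C * S) +
        ENNReal.ofReal (((l + 8 * a + 1 : ℕ) : ℝ) *
          (5 * (4 * 2 ^ (32 * a) * (1 / 2 ^ (10 * m)) + 1 / 2 ^ (20 * m)))) * V := by
      have g1 : ENNReal.ofReal (((l + 8 * a + 1 : ℕ) : ℝ) *
          (5 * (4 * 2 ^ (32 * a) * (1 / 2 ^ (10 * m)) + 1 / 2 ^ (20 * m)))) =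
          ((l + 8 * a + 1 : ℕ) : ℝ≥0∞) * (5 * (4 * 2 ^ (32 * a) *
            ENNReal.ofReal (1 / 2 ^ (10 * m)) + ENNReal.ofReal (1 / 2 ^ (20 * m)))) := by
        rw [ENNReal.ofReal_mul (by positivity), ENNReal.ofReal_natCast,
          ENNReal.ofReal_mul (by positivity), ENNReal.ofReal_add (by positivity) (by positivity),
          ENNReal.ofReal_mul (by positivity), ENNReal.ofReal_mul (by positivity),
          ENNReal.ofReal_pow (by positivity)]
        norm_num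
      rw [g1, hS]
      push_cast
      ring
    rw [e9]
    refine add_le_add ?_ ?_
    · have g2 : ((20 * (l + 8 * a + 1) * (l + 8 * a + 1) * (10 * m + 1) * 2 ^ (32 * a) : ℕ) :
          ℝ≥0∞) ≤ 2 ^ (36 * a) := by
        exact_mod_cast cst2 a m l hPA hl2
      refine (mul_le_mul_left g2 _).trans (le_of_eq ?_)
      rw [hS]
      ring
    · exact mul_le_mul_left (ENNReal.ofReal_le_ofReal (cst3 a m l hPA hl2)) _

end Pool.Agent.SLog
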