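import Pool.Agent.SLog.Targets

set_option autoImplicit false

/-! MP_ee701d_an: weighted square sums of all pieces (target C6). -/

namespace Pool.Agent.SLog

open MeasureTheory Set
open scoped ENNReal NNReal ComplexConjugate
open Pool.Agent.KSP (ee dot nr Ex Ex1 Bd Bd1 n1 n2 lg V0 ann)
open Pool.Agent.LLog (PA cd cdr cp fr tp Nn nv tv Core bx sa sd Qx kc psi kap GK psR psA anf mu Bf hat)

namespace KQ_

/-- square of index `Q` of the grid of side `s` -/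
def SQ (s : ℝ) (Q : ℤ × ℤ) : Set (ℝ × ℝ) := {z | ⌊z.1 / s⌋ = Q.1 ∧ ⌊z.2 / s⌋ = Q.2}

/-- its corner -/
noncomputable def zQ (s : ℝ) (Q : ℤ × ℤ) : ℝ × ℝ := (Q.1 * s, Q.2 * s)

/-- the squares near the box of centre `x` -/
noncomputable def NX (s r1 t : ℝ) (x : ℝ × ℝ) : Finset (ℤ × ℤ) :=
  open Classical in
  ((Finset.Icc ⌊(x.1 - 2 * r1) / s⌋ ⌊(x.1 + 2 * r1) / s⌋ ×ˢ Finset.Icc (-5 : ℤ) 5).image
    (fun P => (P.1, ⌊(x.2 + t * (P.1 * s - x.1)) / s⌋ + P.2))).filter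
    (fun Q => x ∈ bx t (zQ s Q) (2 * r1) (4 * s))

lemma Nn_pos (t : ℝ) : 0 < Nn t := by
  unfold Nn
  positivity

lemma Nn_sq (t : ℝ) : Nn t ^ 2 = 1 + t ^ 2 := by
  unfold Nn
  exact Real.sq_sqrt (by positivity)

lemma Nn_one (t : ℝ) : 1 ≤ Nn t := by
  have h := Nn_sq t
  have h0 := Nn_pos t
  nlinarith [sq_nonneg t]

lemma dot_nv (t : ℝ) (y : ℝ × ℝ) : dot y (nv t) = (y.1 + t * y.2) / Nn t := by
  unfold dot nv
  ring

lemma dot_tv (t : ℝ) (y : ℝ × ℝ) : dot y (tv t) = (-t * y.1 + y.2) / Nn t := by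
  unfold dot tv
  ring

lemma abs_t (t : ℝ) : |t| ≤ Nn t := by
  rw [← abs_of_pos (Nn_pos t)]
  apply sq_le_sq.mp
  rw [Nn_sq]
  linarith

lemma dn (t : ℝ) (y : ℝ × ℝ) : |dot y (nv t)| ≤ |y.1| + |y.2| := by
  rw [dot_nv, abs_div, abs_of_pos (Nn_pos t), div_le_iff₀ (Nn_pos t)]
  have h1 := Nn_one t
  have h2 := abs_t t
  have h3 : |y.1 + t * y.2| ≤ |y.1| + |t| * |y.2| := by
    refine (abs_add_le _ _).trans ?_
    rw [abs_mul]
  have h4 := abs_nonneg y.1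
  have h5 := abs_nonneg y.2
  nlinarith

lemma dt (t : ℝ) (y : ℝ × ℝ) : |dot y (tv t)| ≤ |y.1| + |y.2| := by
  rw [dot_tv, abs_div, abs_of_pos (Nn_pos t), div_le_iff₀ (Nn_pos t)]
  have h1 := Nn_one t
  have h2 := abs_t t
  have h3 : |-t * y.1 + y.2| ≤ |t| * |y.1| + |y.2| := by
    refine (abs_add_le _ _).trans ?_
    rw [abs_mul, abs_neg]
  have h4 := abs_nonneg y.1
  have h5 := abs_nonneg y.2
  nlinarith

lemma dot_add (x y v : ℝ × ℝ) : dot (x + y) v = dot x v + dot y v := by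
  unfold dot
  simp only [Prod.fst_add, Prod.snd_add]
  ring

lemma floor_corner {s u : ℝ} (hs : 0 < s) {n : ℤ} (h : ⌊u / s⌋ = n) :
    0 ≤ u - n * s ∧ u - n * s < s := by
  rw [Int.floor_eq_iff] at h
  obtain ⟨h1, h2⟩ := h
  rw [le_div_iff₀ hs] at h1
  rw [div_lt_iff₀ hs] at h2
  constructor <;> nlinarith

lemma floor_near {u v : ℝ} (h : |u - v| ≤ 3) : -5 ≤ ⌊u⌋ - ⌊v⌋ ∧ ⌊u⌋ - ⌊v⌋ ≤ 5 := by
  have h1 := Int.floor_le u
  have h2 := Int.lt_floor_add_one u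
  have h3 := Int.floor_le v
  have h4 := Int.lt_floor_add_one v
  rw [abs_le] at h
  constructor
  · have : ((-5 : ℤ) : ℝ) ≤ ((⌊u⌋ - ⌊v⌋ : ℤ) : ℝ) := by
      push_cast
      linarith
    exact_mod_cast this
  · have : ((⌊u⌋ - ⌊v⌋ : ℤ) : ℝ) ≤ ((5 : ℤ) : ℝ) := by
      push_cast
      linarith
    exact_mod_cast this

/-- the square of a point of the box is in `NX` -/
lemma mem_NX {s r1 r2 t : ℝ} {x z : ℝ × ℝ} (hs : 0 < s) (ht : |t| ≤ 2) (h1 : 2 * s ≤ r1)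
    (h2 : 3 * r2 ≤ s) (hn : |dot (x - z) (nv t)| < r1) (hv : |dot (x - z) (tv t)| < r2) :
    (⌊z.1 / s⌋, ⌊z.2 / s⌋) ∈ NX s r1 t x := by
  classical
  have hN := Nn_pos t
  have hN1 := Nn_one t
  have hN2 := Nn_sq t
  have hN3 := abs_t t
  set n := ⌊z.1 / s⌋ with hnn
  set k := ⌊z.2 / s⌋ with hkk
  obtain ⟨c1, c2⟩ := floor_corner hs hnn.symm
  obtain ⟨c3, c4⟩ := floor_corner hs hkk.symm
  have e1 := dot_nv t (x - z)
  have e2 := dot_tv t (x - z)
  simp only [Prod.fst_sub, Prod.snd_sub] at e1 e2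
  set u := dot (x - z) (nv t) with hu
  set v := dot (x - z) (tv t) with hv'
  rw [eq_div_iff hN.ne'] at e1 e2
  have hNle : Nn t ≤ 3 := by
    have : t ^ 2 ≤ 4 := by
      rw [← sq_abs]
      nlinarith [abs_nonneg t]
    nlinarith
  -- first coordinate
  have f1 : (x.1 - z.1) * Nn t = u - t * v := by
    have : (x.1 - z.1) * Nn t * Nn t = (u - t * v) * Nn t := by
      have : (u - t * v) * Nn t = u * Nn t - t * (v * Nn t) := by ring
      rw [this, e1, e2, mul_assoc, ← sq, hN2]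
      ring
    exact mul_right_cancel₀ hN.ne' this
  have f2 : |x.1 - z.1| ≤ |u| + |v| := by
    have h3 : |x.1 - z.1| * Nn t ≤ (|u| + |v|) * Nn t := by
      rw [← abs_of_pos hN, ← abs_mul, abs_of_pos hN, f1]
      refine (abs_sub _ _).trans ?_
      rw [abs_mul]
      have := abs_nonneg u
      have := abs_nonneg v
      nlinarith
    exact le_of_mul_le_mul_right h3 hN
  have hr2 : 0 < r2 := lt_of_le_of_lt (abs_nonneg _) hv
  have f3 : |x.1 - z.1| < 2 * r1 := by linarith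
  rw [abs_lt] at f3
  have hz1 : ⌊(x.1 - 2 * r1) / s⌋ ≤ n := by
    apply Int.floor_le_floor
    gcongr
    linarith
  have hz2 : n ≤ ⌊(x.1 + 2 * r1) / s⌋ := by
    apply Int.floor_le_floor
    gcongr
    linarith
  -- second coordinate
  have f4 : |z.2 / s - (x.2 + t * (n * s - x.1)) / s| ≤ 3 := by
    rw [← sub_div, abs_div, abs_of_pos hs, div_le_iff₀ hs]
    have : z.2 - (x.2 + t * (n * s - x.1)) = t * (z.1 - n * s) - v * Nn t := by
      rw [e2]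
      ring
    rw [this]
    refine (abs_sub _ _).trans ?_
    rw [abs_mul, abs_mul, abs_of_pos hN, abs_of_nonneg c1]
    have := abs_nonneg t
    have := abs_nonneg v
    nlinarith
  obtain ⟨g1, g2⟩ := floor_near f4
  unfold NX
  rw [Finset.mem_filter, Finset.mem_image]
  refine ⟨⟨(n, k - ⌊(x.2 + t * (n * s - x.1)) / s⌋), ?_, ?_⟩, ?_⟩
  · rw [Finset.mem_product, Finset.mem_Icc, Finset.mem_Icc]
    exact ⟨⟨hz1, hz2⟩, g1, g2⟩
  · simp
  · have h0 : x - zQ s (n, k) = (x - z) + (z - zQ s (n, k)) := by abel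
    have hz : |(z - zQ s (n, k)).1| + |(z - zQ s (n, k)).2| ≤ 2 * s := by
      unfold zQ
      simp only [Prod.fst_sub, Prod.snd_sub]
      rw [abs_of_nonneg c1, abs_of_nonneg c3]
      linarith
    refine ⟨?_, ?_⟩
    · rw [h0, dot_add]
      have := dn t (z - zQ s (n, k))
      refine lt_of_le_of_lt (abs_add_le _ _) ?_
      linarith
    · rw [h0, dot_add]
      have := dt t (z - zQ s (n, k))
      refine lt_of_le_of_lt (abs_add_le _ _) ?_
      linarith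

lemma card_NX {s r1 t : ℝ} {x : ℝ × ℝ} (hs : 0 < s) (hr : 0 < r1) :
    ((NX s r1 t x).card : ℝ) ≤ 11 * (4 * (r1 / s) + 2) := by
  classical
  have h1 : (NX s r1 t x).card ≤
      (Finset.Icc ⌊(x.1 - 2 * r1) / s⌋ ⌊(x.1 + 2 * r1) / s⌋ ×ˢ Finset.Icc (-5 : ℤ) 5).card := by
    unfold NX
    exact (Finset.card_filter_le _ _).trans Finset.card_image_le
  rw [Finset.card_product, Int.card_Icc, Int.card_Icc] at h1
  have h2 : ((⌊(x.1 + 2 * r1) / s⌋ + 1 - ⌊(x.1 - 2 * r1) / s⌋).toNat : ℝ) ≤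
      4 * (r1 / s) + 2 := by
    have h3 := Int.floor_le ((x.1 + 2 * r1) / s)
    have h4 := Int.lt_floor_add_one ((x.1 - 2 * r1) / s)
    have h5 : (x.1 + 2 * r1) / s - (x.1 - 2 * r1) / s = 4 * (r1 / s) := by
      field_simp
      ring
    have h6 : 0 < r1 / s := div_pos hr hs
    have h7 : (((⌊(x.1 + 2 * r1) / s⌋ + 1 - ⌊(x.1 - 2 * r1) / s⌋).toNat : ℤ) : ℝ) ≤
      4 * (r1 / s) + 2 := by
      rw [Int.toNat_eq_max]
      push_cast
      apply max_le <;> linarith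
    exact_mod_cast h7
  have h8 : ((5 : ℤ) + 1 - (-5)).toNat = 11 := by rfl
  rw [h8] at h1
  calc ((NX s r1 t x).card : ℝ) ≤
      (((⌊(x.1 + 2 * r1) / s⌋ + 1 - ⌊(x.1 - 2 * r1) / s⌋).toNat * 11 : ℕ) : ℝ) := by
        exact_mod_cast h1
    _ ≤ _ := by
        push_cast
        linarith

/-! ### Analysis -/

lemma meas_SQ (s : ℝ) (Q : ℤ × ℤ) : MeasurableSet (SQ s Q) := by
  unfold SQ
  have h1 : Measurable fun z : ℝ × ℝ => ⌊z.1 / s⌋ :=
    Int.measurable_floor.comp (measurable_fst.div_const s)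
  have h2 : Measurable fun z : ℝ × ℝ => ⌊z.2 / s⌋ :=
    Int.measurable_floor.comp (measurable_snd.div_const s)
  exact (h1 (measurableSet_singleton Q.1)).inter (h2 (measurableSet_singleton Q.2))

lemma iU_SQ (s : ℝ) : (⋃ Q : ℤ × ℤ, SQ s Q) = univ := by
  ext z
  simp only [mem_iUnion, mem_univ, iff_true]
  exact ⟨(⌊z.1 / s⌋, ⌊z.2 / s⌋), rfl, rfl⟩

lemma disj_SQ (s : ℝ) : Pairwise (Function.onFun Disjoint (SQ s)) := by
  intro Q Q' h
  rw [Function.onFun, Set.disjoint_left]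
  rintro z ⟨h1, h2⟩ ⟨h3, h4⟩
  apply h
  ext
  · exact h1.symm.trans h3
  · exact h2.symm.trans h4

lemma meas_bx (t : ℝ) (x0 : ℝ × ℝ) (A B : ℝ) : MeasurableSet (bx t x0 A B) := by
  have h1 : MeasurableSet {y : ℝ × ℝ | |dot (y - x0) (nv t)| < A} := by
    apply measurableSet_lt _ measurable_const
    unfold dot
    fun_prop
  have h2 : MeasurableSet {y : ℝ × ℝ | |dot (y - x0) (tv t)| < B} := by
    apply measurableSet_lt _ measurable_const
    unfold dot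
    fun_prop
  exact h1.inter h2

lemma Bf_ind {g : ℝ × ℝ → ℂ} (hg : Bf g) {S : Set (ℝ × ℝ)} (hS : MeasurableSet S) :
    Bf (S.indicator g) := by
  obtain ⟨h1, ⟨B, hB⟩, h3⟩ := hg
  refine ⟨h1.indicator hS, ⟨B, fun x => (norm_indicator_le_norm_self g x).trans (hB x)⟩,
    lt_of_le_of_lt (measure_mono ?_) h3⟩
  intro x hx hx'
  apply hx
  by_cases h : x ∈ S
  · rw [indicator_of_mem h]
    exact hx'
  · rw [indicator_of_notMem h]

lemma Bf_int {g : ℝ × ℝ → ℂ} (hg : Bf g) : Integrable g := by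
  obtain ⟨h1, ⟨B, hB⟩, h3⟩ := hg
  have hs : MeasurableSet {x | g x ≠ 0} := h1 (measurableSet_singleton 0).compl
  have : g = {x | g x ≠ 0}.indicator g := by
    funext x
    by_cases h : g x = 0
    · rw [indicator_of_notMem (show x ∉ {x | g x ≠ 0} from fun h' => h' h), h]
    · rw [indicator_of_mem (show x ∈ {x | g x ≠ 0} from h)]
  rw [this, integrable_indicator_iff hs]
  exact Measure.integrableOn_of_bounded h3.ne h1.aestronglyMeasurable (M := B)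
    (Filter.Eventually.of_forall fun x => hB x)

/-- Cauchy-Schwarz with a weight. -/
lemma csw {α : Type} [MeasurableSpace α] (μ : Measure α) (k g : α → ℝ≥0∞) (hk : Measurable k)
    (hg : Measurable g) : (∫⁻ z, k z * g z ∂μ) ^ 2 ≤ (∫⁻ z, k z ∂μ) * ∫⁻ z, k z * g z ^ 2 ∂μ := by
  have h := ENNReal.lintegral_mul_le_Lp_mul_Lq μ Real.HolderConjugate.two_two
    (f := fun z => k z ^ (1 / 2 : ℝ)) (g := fun z => k z ^ (1 / 2 : ℝ) * g z)
    (hk.pow_const _).aemeasurable ((hk.pow_const _).mul hg).aemeasurable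
  have e1 : ∀ z, (k z ^ (1 / 2 : ℝ)) ^ (2 : ℝ) = k z := by
    intro z
    rw [← ENNReal.rpow_mul]
    norm_num
  have e2 : (∫⁻ z, ((fun z => k z ^ (1 / 2 : ℝ)) * fun z => k z ^ (1 / 2 : ℝ) * g z) z ∂μ) =
      ∫⁻ z, k z * g z ∂μ := by
    apply lintegral_congr
    intro z
    simp only [Pi.mul_apply]
    rw [← mul_assoc, ← ENNReal.rpow_add_of_nonneg _ _ (by norm_num) (by norm_num)]
    norm_num
  have e3 : (∫⁻ z, (k z ^ (1 / 2 : ℝ)) ^ (2 : ℝ) ∂μ) = ∫⁻ z, k z ∂μ :=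
    lintegral_congr fun z => e1 z
  have e4 : (∫⁻ z, (k z ^ (1 / 2 : ℝ) * g z) ^ (2 : ℝ) ∂μ) = ∫⁻ z, k z * g z ^ 2 ∂μ := by
    apply lintegral_congr
    intro z
    rw [ENNReal.mul_rpow_of_nonneg _ _ (by norm_num), e1, ENNReal.rpow_two]
  rw [e2, e3, e4] at h
  calc (∫⁻ z, k z * g z ∂μ) ^ 2
      ≤ ((∫⁻ z, k z ∂μ) ^ (1 / 2 : ℝ) * (∫⁻ z, k z * g z ^ 2 ∂μ) ^ (1 / 2 : ℝ)) ^ 2 := by
        gcongr
    _ = _ := by
        rw [mul_pow, ← ENNReal.rpow_two, ← ENNReal.rpow_two, ← ENNReal.rpow_mul,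
          ← ENNReal.rpow_mul]
        norm_num

lemma csf {ι : Type*} (S : Finset ι) (x : ι → ℂ) :
    ‖∑ i ∈ S, x i‖ₑ ^ 2 ≤ S.card * ∑ i ∈ S, ‖x i‖ₑ ^ 2 := by
  have h1 : ‖∑ i ∈ S, x i‖ₑ ≤ ∑ i ∈ S, ‖x i‖ₑ := enorm_sum_le S x
  have h2 : ((∑ i ∈ S, ‖x i‖₊) ^ 2 : ℝ≥0) ≤ S.card * ∑ i ∈ S, ‖x i‖₊ ^ 2 :=
    sq_sum_le_card_mul_sum_sq
  calc ‖∑ i ∈ S, x i‖ₑ ^ 2 ≤ (∑ i ∈ S, ‖x i‖ₑ) ^ 2 := by gcongr
    _ = (((∑ i ∈ S, ‖x i‖₊) ^ 2 : ℝ≥0) : ℝ≥0∞) := by push_cast; rfl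
    _ ≤ ((S.card * ∑ i ∈ S, ‖x i‖₊ ^ 2 : ℝ≥0) : ℝ≥0∞) := by exact_mod_cast h2
    _ = _ := by push_cast; rfl

lemma cs2 (x y : ℂ) : ‖x + y‖ₑ ^ 2 ≤ 2 * ‖x‖ₑ ^ 2 + 2 * ‖y‖ₑ ^ 2 := by
  have h := csf (Finset.univ : Finset (Fin 2)) ![x, y]
  simp only [Fin.sum_univ_two, Finset.card_univ, Fintype.card_fin, Matrix.cons_val_zero,
    Matrix.cons_val_one, Nat.cast_ofNat] at h
  rwa [mul_add] at h

/-- pointwise decomposition -/
lemma pw {s r1 r2 t : ℝ} {M : ℝ≥0∞} {K g : ℝ × ℝ → ℂ} (hs : 0 < s) (ht : |t| ≤ 2)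
    (h1 : 2 * s ≤ r1) (h2 : 3 * r2 ≤ s) (hK : Measurable K) (hKb : ∃ B : ℝ, ∀ x, ‖K x‖ ≤ B)
    (hg : Bf g) (x : ℝ × ℝ) (hM : ((NX s r1 t x).card : ℝ≥0∞) ≤ M) :
    ‖∫ z, K (x - z) * g z‖ₑ ^ 2 ≤
      2 * (M * ∑ Q ∈ NX s r1 t x, ‖∫ z, K (x - z) * (SQ s Q).indicator g z‖ₑ ^ 2) +
      2 * (∫⁻ z, ((bx t 0 r1 r2)ᶜ).indicator (fun y => ‖K y‖ₑ) (x - z) * ‖g z‖ₑ) ^ 2 := by
  classical
  set N := NX s r1 t x with hN
  let U : Set (ℝ × ℝ) := {z | (⌊z.1 / s⌋, ⌊z.2 / s⌋) ∉ N}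
  have hU : MeasurableSet U := by
    have : U = (⋃ Q ∈ N, SQ s Q)ᶜ := by
      ext z
      simp only [U, mem_ofPred_eq, mem_compl_iff, mem_iUnion, SQ, exists_prop, not_iff_not]
      constructor
      · intro h
        exact ⟨_, h, rfl, rfl⟩
      · rintro ⟨Q, h, h', h''⟩
        rw [h', h'']
        exact h
    rw [this]
    exact (Finset.measurableSet_biUnion N fun Q _ => meas_SQ s Q).compl
  have hint : ∀ S : Set (ℝ × ℝ), MeasurableSet S →
      Integrable fun z => K (x - z) * S.indicator g z := by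
    intro S hS
    obtain ⟨B, hB⟩ := hKb
    refine (Bf_int (Bf_ind hg hS)).bdd_mul (c := B) ?_ ?_
    · exact (hK.comp (measurable_const.sub measurable_id)).aestronglyMeasurable
    · exact Filter.Eventually.of_forall fun z => hB _
  have hdec : ∀ z, K (x - z) * g z = (∑ Q ∈ N, K (x - z) * (SQ s Q).indicator g z) +
      K (x - z) * U.indicator g z := by
    intro z
    rw [← Finset.mul_sum, ← mul_add]
    congr 1
    by_cases hz : (⌊z.1 / s⌋, ⌊z.2 / s⌋) ∈ N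
    · rw [indicator_of_notMem (show z ∉ U from fun h => h hz), add_zero,
        Finset.sum_eq_single _ _ (fun h => absurd hz h), indicator_of_mem]
      · exact ⟨rfl, rfl⟩
      · intro Q _ hQ
        apply indicator_of_notMem
        rintro ⟨h3, h4⟩
        apply hQ
        ext
        · exact h3.symm
        · exact h4.symm
    · rw [indicator_of_mem (show z ∈ U from hz), Finset.sum_eq_zero, zero_add]
      intro Q hQ
      apply indicator_of_notMem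
      rintro ⟨h3, h4⟩
      apply hz
      rw [h3, h4]
      exact hQ
  have e1 : ∫ z, K (x - z) * g z = (∑ Q ∈ N, ∫ z, K (x - z) * (SQ s Q).indicator g z) +
      ∫ z, K (x - z) * U.indicator g z := by
    rw [← integral_finsetSum _ fun Q _ => hint _ (meas_SQ s Q), ← integral_add]
    · exact integral_congr_ae (Filter.Eventually.of_forall hdec)
    · exact integrable_finsetSum _ fun Q _ => hint _ (meas_SQ s Q)
    · exact hint _ hU
  have e2 : ‖∫ z, K (x - z) * U.indicator g z‖ₑ ≤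
      ∫⁻ z, ((bx t 0 r1 r2)ᶜ).indicator (fun y => ‖K y‖ₑ) (x - z) * ‖g z‖ₑ := by
    refine (enorm_integral_le_lintegral_enorm _).trans (lintegral_mono fun z => ?_)
    rw [enorm_mul]
    by_cases hz : z ∈ U
    · have : x - z ∈ (bx t 0 r1 r2)ᶜ := by
        rintro ⟨h3, h4⟩
        apply hz
        rw [sub_zero] at h3 h4
        exact mem_NX hs ht h1 h2 h3 h4
      rw [indicator_of_mem this, indicator_of_mem hz]
    · rw [indicator_of_notMem hz, enorm_zero, mul_zero]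
      exact bot_le
  rw [e1]
  refine (cs2 _ _).trans ?_
  gcongr
  refine (csf _ _).trans ?_
  gcongr

/-- one piece -/
lemma one {s r1 r2 t : ℝ} {M : ℝ≥0∞} {K g : ℝ × ℝ → ℂ} {Φ : ℝ × ℝ → ℝ≥0∞} {m : ℤ × ℤ → ℝ≥0∞}
    (hYNG : LLog.tYNG) (hs : 0 < s) (ht : |t| ≤ 2)
    (h1 : 2 * s ≤ r1) (h2 : 3 * r2 ≤ s) (hK : Measurable K) (hKb : ∃ B : ℝ, ∀ x, ‖K x‖ ≤ B)
    (hg : Bf g) (hM : ∀ x, ((NX s r1 t x).card : ℝ≥0∞) ≤ M) (hΦ : Measurable Φ)
    (hΦ1 : ∀ x, Φ x ≤ 1)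
    (hm : ∀ Q x, ‖∫ z, K (x - z) * (SQ s Q).indicator g z‖ₑ ^ 2 ≤ m Q) :
    ∫⁻ x, Φ x * ‖∫ z, K (x - z) * g z‖ₑ ^ 2 ≤
      2 * M * (∑' Q, m Q * ∫⁻ x in bx t (zQ s Q) (2 * r1) (4 * s), Φ x) +
      2 * (∫⁻ z in (bx t 0 r1 r2)ᶜ, ‖K z‖ₑ) ^ 2 * ∫⁻ x, ‖g x‖ₑ ^ 2 := by
  classical
  have hpt : ∀ x, Φ x * ‖∫ z, K (x - z) * g z‖ₑ ^ 2 ≤
      2 * M * (∑' Q, (bx t (zQ s Q) (2 * r1) (4 * s)).indicator (fun x => m Q * Φ x) x) +
      2 * (∫⁻ z, ((bx t 0 r1 r2)ᶜ).indicator (fun y => ‖K y‖ₑ) (x - z) * ‖g z‖ₑ) ^ 2 := by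
    intro x
    have h3 := pw hs ht h1 h2 hK hKb hg x (hM x)
    calc Φ x * ‖∫ z, K (x - z) * g z‖ₑ ^ 2 ≤ Φ x *
        (2 * (M * ∑ Q ∈ NX s r1 t x, ‖∫ z, K (x - z) * (SQ s Q).indicator g z‖ₑ ^ 2) +
        2 * (∫⁻ z, ((bx t 0 r1 r2)ᶜ).indicator (fun y => ‖K y‖ₑ) (x - z) * ‖g z‖ₑ) ^ 2) := by
          gcongr
      _ = 2 * M * (∑ Q ∈ NX s r1 t x, Φ x *
          ‖∫ z, K (x - z) * (SQ s Q).indicator g z‖ₑ ^ 2) + Φ x *
        (2 * (∫⁻ z, ((bx t 0 r1 r2)ᶜ).indicator (fun y => ‖K y‖ₑ) (x - z) * ‖g z‖ₑ) ^ 2) := by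
          rw [mul_add, ← Finset.mul_sum]
          ring
      _ ≤ _ := by
          refine add_le_add ?_ (mul_le_of_le_one_left' (hΦ1 x))
          gcongr
          · refine le_trans ?_ (ENNReal.sum_le_tsum (NX s r1 t x))
            apply Finset.sum_le_sum
            intro Q hQ
            have : x ∈ bx t (zQ s Q) (2 * r1) (4 * s) := by
              unfold NX at hQ
              rw [Finset.mem_filter] at hQ
              exact hQ.2
            rw [indicator_of_mem this, mul_comm]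
            gcongr
            exact hm Q x
  refine (lintegral_mono hpt).trans ?_
  have hmi : ∀ Q, Measurable ((bx t (zQ s Q) (2 * r1) (4 * s)).indicator (fun x => m Q * Φ x)) :=
    fun Q => (hΦ.const_mul _).indicator (meas_bx _ _ _ _)
  rw [lintegral_add_left]
  · apply add_le_add
    · rw [lintegral_const_mul _ (Measurable.tsum hmi),
        lintegral_tsum fun Q => (hmi Q).aemeasurable]
      apply le_of_eq
      congr 2
      ext Q
      rw [lintegral_indicator (meas_bx _ _ _ _), lintegral_const_mul _ hΦ]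
    · have h4 := hYNG (((bx t 0 r1 r2)ᶜ).indicator (fun y => ‖K y‖ₑ)) (fun x => ‖g x‖ₑ)
        univ univ univ (hK.enorm.indicator (meas_bx _ _ _ _).compl) hg.1.enorm
        MeasurableSet.univ MeasurableSet.univ MeasurableSet.univ (fun _ _ _ _ => mem_univ _)
      simp only [Measure.restrict_univ] at h4
      rw [lintegral_indicator (meas_bx _ _ _ _).compl] at h4
      rw [lintegral_const_mul' _ _ (by norm_num), mul_assoc]
      gcongr
  · exact (Measurable.tsum hmi).const_mul _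

/-- the energies of all pieces of a function on a square -/
lemma sumI {a m l c : ℕ} {sg sl s : ℝ} {Q : ℤ × ℤ} {g : ℝ × ℝ → ℂ} (hMUP : tMUP) (hBXV : tBXV)
    (hTHN : tTHN) (hHAT : LLog.tHAT) (h : HP a m l sg sl) (hc : c ∈ CC l) (hs : 0 < s)
    (hg : Bf g) :
    ∑ p ∈ PP a l, ∫⁻ ξ, ‖Mu a m sg sl l c p ξ‖ₑ * ‖hat ((SQ s Q).indicator g) ξ‖ₑ ^ 2 ≤
      ENNReal.ofReal (3 * s * (1 / 4 ^ l)) * ∫⁻ x, ‖(SQ s Q).indicator g x‖ₑ ^ 2 := by
  classical
  have hgQ : Bf ((SQ s Q).indicator g) := Bf_ind hg (meas_SQ s Q)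
  have hhm : Measurable (hat ((SQ s Q).indicator g)) := (hHAT _ hgQ).1.measurable
  by_cases hR : 1 ≤ sg + c / 4 ^ l
  · have hPA := h.1
    have ha : 20 ≤ a := hPA.1
    have hl := h.2.1
    set R : ℝ := sg + c / 4 ^ l with hRd
    set A : Set (ℝ × ℝ) := {ξ : ℝ × ℝ | |ξ.2| ≤ ξ.1 ∧ R ≤ nr ξ ∧ nr ξ < R + 1 / 4 ^ l} with hA
    have hAm : MeasurableSet A := by
      have m1 : Measurable nr := by
        unfold nr
        fun_prop
      have h1 : MeasurableSet {ξ : ℝ × ℝ | |ξ.2| ≤ ξ.1} :=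
        measurableSet_le (by fun_prop) measurable_fst
      have h2 : MeasurableSet {ξ : ℝ × ℝ | R ≤ nr ξ} := measurableSet_le measurable_const m1
      have h3 : MeasurableSet {ξ : ℝ × ℝ | nr ξ < R + 1 / 4 ^ l} :=
        measurableSet_lt m1 measurable_const
      exact h1.inter (h2.inter h3)
    have hsupp : ∀ p ∈ PP a l, ∀ ξ, Mu a m sg sl l c p ξ ≠ 0 →
        ξ ∈ A ∧ cp sl (l + 8 * a) p ξ := by
      intro p hp ξ hξ
      have h1 := (hMUP a m l c p sg sl h hc hp).2.2.1 ξ hξ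
      have h0 : (0 : ℝ) < 1 / 2 ^ (4 * a) := by positivity
      have h2 := (hBXV a l c p sg sl (1 / 2 ^ (4 * a) / 3) ξ ha hl h.2.2.2.2.2.1 h.2.2.2.2.2.2 hp
        (by linarith) h1).1 (by positivity)
      obtain ⟨h3, h4, h5, _⟩ := h2
      refine ⟨⟨h3.1, ?_, ?_⟩, h5⟩
      · have h6 := h4.1
        rw [hRd, ← le_sub_iff_add_le', div_le_iff₀ (by positivity)]
        linarith
      · have h6 := h4.2
        rw [hRd, add_assoc, ← add_div, ← sub_lt_iff_lt_add', lt_div_iff₀ (by positivity)]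
        linarith
    have hpt : ∀ ξ, ∑ p ∈ PP a l, ‖Mu a m sg sl l c p ξ‖ₑ ≤ A.indicator 1 ξ := by
      intro ξ
      by_cases hex : ∃ p ∈ PP a l, Mu a m sg sl l c p ξ ≠ 0
      · obtain ⟨p0, hp0, hne⟩ := hex
        obtain ⟨hA0, hcp0⟩ := hsupp p0 hp0 ξ hne
        rw [Finset.sum_eq_single p0]
        · rw [indicator_of_mem hA0, Pi.one_apply]
          have h1 := ((hMUP a m l c p0 sg sl h hc hp0).2.1 ξ).2
          rw [← ofReal_norm]
          exact ENNReal.ofReal_le_one.mpr h1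
        · intro p hp hpp
          by_contra hne'
          have hne2 : Mu a m sg sl l c p ξ ≠ 0 := by
            intro h0
            rw [h0, enorm_zero] at hne'
            exact hne' rfl
          obtain ⟨_, hcp⟩ := hsupp p hp ξ hne2
          apply hpp
          have h1 : (p : ℝ) < p0 + 1 := lt_of_le_of_lt hcp.2.1 hcp0.2.2
          have h2 : (p0 : ℝ) < p + 1 := lt_of_le_of_lt hcp0.2.1 hcp.2.2
          have h3 : p < p0 + 1 := by exact_mod_cast h1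
          have h4 : p0 < p + 1 := by exact_mod_cast h2
          omega
        · intro h'
          exact absurd hp0 h'
      · have : ∑ p ∈ PP a l, ‖Mu a m sg sl l c p ξ‖ₑ = 0 := by
          apply Finset.sum_eq_zero
          intro p hp
          by_contra hne
          apply hex
          refine ⟨p, hp, fun h0 => hne ?_⟩
          rw [h0, enorm_zero]
        rw [this]
        exact bot_le
    have hmm : ∀ p ∈ PP a l, Measurable fun ξ =>
        ‖Mu a m sg sl l c p ξ‖ₑ * ‖hat ((SQ s Q).indicator g) ξ‖ₑ ^ 2 := fun p hp =>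
      ((hMUP a m l c p sg sl h hc hp).1.1.enorm).mul (hhm.enorm.pow_const 2)
    rw [← lintegral_finsetSum _ hmm]
    have h1 : ∀ ξ, ∑ p ∈ PP a l, ‖Mu a m sg sl l c p ξ‖ₑ * ‖hat ((SQ s Q).indicator g) ξ‖ₑ ^ 2 ≤
        A.indicator (fun ξ => ‖hat ((SQ s Q).indicator g) ξ‖ₑ ^ 2) ξ := by
      intro ξ
      rw [← Finset.sum_mul]
      refine (mul_le_mul_left (hpt ξ) _).trans ?_
      by_cases hξ : ξ ∈ A
      · rw [indicator_of_mem hξ, indicator_of_mem hξ, Pi.one_apply, one_mul]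
      · rw [indicator_of_notMem hξ, indicator_of_notMem hξ, zero_mul]
    refine (lintegral_mono h1).trans ?_
    rw [lintegral_indicator hAm]
    refine hTHN s (1 / 4 ^ l) R ((Q.1 + 1 / 2) * s) _ hs (by positivity) ?_ hR hgQ ?_
    · rw [div_le_one (by positivity)]
      exact one_le_pow₀ (by norm_num)
    · intro x hx
      have hxQ : x ∈ SQ s Q := by
        by_contra h'
        exact hx (indicator_of_notMem h' g)
      obtain ⟨c1, c2⟩ := floor_corner hs hxQ.1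
      rw [abs_le]
      constructor <;> linarith
  · have h0 : ∀ p ξ, Mu a m sg sl l c p ξ = 0 := by
      intro p ξ
      unfold Mu
      rw [if_neg hR]
    simp only [h0, enorm_zero, zero_mul, lintegral_zero, Finset.sum_const_zero]
    exact bot_le

lemma av_eq {t A B : ℝ} {g : ℝ × ℝ → ℝ≥0∞} {x : ℝ × ℝ} (h : 0 < A) (h' : 0 < B) :
    ∫⁻ y in bx t x A B, g y = ENNReal.ofReal (4 * A * B) * av t A B g x := by
  unfold av
  rw [← mul_assoc, ENNReal.mul_inv_cancel, one_mul]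
  · rw [← pos_iff_ne_zero, ENNReal.ofReal_pos]
    positivity
  · exact ENNReal.ofReal_ne_top

/-- the sums over the squares -/
lemma sumW {s : ℝ} {W : ℝ × ℝ → ℝ≥0∞} {g : ℝ × ℝ → ℂ} (hg : Measurable g) :
    ∑' Q : ℤ × ℤ, (⨅ y ∈ SQ s Q, W y) * ∫⁻ x, ‖(SQ s Q).indicator g x‖ₑ ^ 2 ≤
      ∫⁻ x, W x * ‖g x‖ₑ ^ 2 := by
  have h1 : ∫⁻ x, W x * ‖g x‖ₑ ^ 2 = ∑' Q : ℤ × ℤ, ∫⁻ x in SQ s Q, W x * ‖g x‖ₑ ^ 2 := by
    rw [← lintegral_iUnion (meas_SQ s) (disj_SQ s), iU_SQ, Measure.restrict_univ]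
  rw [h1]
  apply ENNReal.tsum_le_tsum
  intro Q
  have h2 : ∀ x, ‖(SQ s Q).indicator g x‖ₑ ^ 2 = (SQ s Q).indicator (fun x => ‖g x‖ₑ ^ 2) x := by
    intro x
    by_cases hx : x ∈ SQ s Q
    · rw [indicator_of_mem hx, indicator_of_mem hx]
    · rw [indicator_of_notMem hx, indicator_of_notMem hx, enorm_zero]
      norm_num
  simp only [h2]
  rw [lintegral_indicator (meas_SQ s Q), ← lintegral_const_mul _ (hg.enorm.pow_const 2)]
  apply setLIntegral_mono' (meas_SQ s Q)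
  intro x hx
  gcongr
  exact iInf₂_le x hx

lemma consts {a l : ℕ} (ha : 20 ≤ a) :
    2 * 2 ^ l * (ENNReal.ofReal (4 / (4 ^ l * 2 ^ (l + 8 * a))) *
      (ENNReal.ofReal (4 * (2 * (4 ^ l * 2 ^ (7 * a))) * (4 * 2 ^ (l + 16 * a))) *
      ENNReal.ofReal (3 * 2 ^ (l + 16 * a) * (1 / 4 ^ l)))) ≤ (2 : ℝ≥0∞) ^ (32 * a) := by
  have e1 : (2 : ℝ≥0∞) * 2 ^ l = ENNReal.ofReal (2 * 2 ^ l) := by
    rw [ENNReal.ofReal_mul (by norm_num), ENNReal.ofReal_pow (by norm_num)]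
    norm_num
  have e2 : (2 : ℝ≥0∞) ^ (32 * a) = ENNReal.ofReal (2 ^ (32 * a)) := by
    rw [ENNReal.ofReal_pow (by norm_num)]
    norm_num
  rw [e1, e2, ← ENNReal.ofReal_mul (by positivity), ← ENNReal.ofReal_mul (by positivity),
    ← ENNReal.ofReal_mul (by positivity)]
  apply ENNReal.ofReal_le_ofReal
  have e3 : (4 : ℝ) ^ l = 2 ^ l * 2 ^ l := by
    rw [← mul_pow]
    norm_num
  have e4 : (2 : ℝ) ^ (32 * a) = (2 ^ a) ^ 32 := by rw [mul_comm, pow_mul]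
  have e5 : (2 : ℝ) ^ (16 * a) = (2 ^ a) ^ 16 := by rw [mul_comm, pow_mul]
  have e6 : (2 : ℝ) ^ (7 * a) = (2 ^ a) ^ 7 := by rw [mul_comm, pow_mul]
  have e7 : (2 : ℝ) ^ (8 * a) = (2 ^ a) ^ 8 := by rw [mul_comm, pow_mul]
  rw [pow_add, pow_add, e3, e4, e5, e6, e7]
  set L : ℝ := 2 ^ l with hL
  set q : ℝ := 2 ^ a with hq
  have hL0 : 0 < L := by positivity
  have hq0 : 0 < q := by positivity
  have hq1 : (1024 : ℝ) ≤ q := by
    have : (2 : ℝ) ^ 20 ≤ 2 ^ a := pow_le_pow_right₀ (by norm_num) ha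
    linarith [show (1024 : ℝ) ≤ 2 ^ 20 by norm_num]
  have e8 : 2 * L * (4 / (L * L * (L * q ^ 8)) * (4 * (2 * (L * L * q ^ 7)) * (4 * (L * q ^ 16)) *
      (3 * (L * q ^ 16) * (1 / (L * L))))) = 768 * q ^ 31 := by
    field_simp
    ring
  rw [e8]
  calc 768 * q ^ 31 ≤ q * q ^ 31 := by
        gcongr
        linarith
    _ = q ^ 32 := by ring

lemma consts2 {a m l : ℕ} (h : PA a m) (hl : 10 * a < l) (hlm : l ≤ m) :
    3 * 2 ^ (l + 8 * a) * (2 * ENNReal.ofReal (1 / 2 ^ (25 * m)) ^ 2) ≤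
      ENNReal.ofReal (1 / 2 ^ (20 * m)) := by
  have ha := h.1
  have e1 : (3 : ℝ≥0∞) * 2 ^ (l + 8 * a) = ENNReal.ofReal (3 * 2 ^ (l + 8 * a)) := by
    rw [ENNReal.ofReal_mul (by norm_num), ENNReal.ofReal_pow (by norm_num)]
    norm_num
  have e2 : (2 : ℝ≥0∞) = ENNReal.ofReal 2 := by norm_num
  rw [e1, ← ENNReal.ofReal_pow (by positivity), e2, ← ENNReal.ofReal_mul (by norm_num),
    ← ENNReal.ofReal_mul (by positivity)]
  apply ENNReal.ofReal_le_ofReal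
  have h1 : (2 : ℝ) ^ (l + 8 * a) ≤ 2 ^ (2 * m) := pow_le_pow_right₀ (by norm_num) (by omega)
  have h2 : (6 : ℝ) ≤ 2 ^ m := by
    have : (2 : ℝ) ^ 3 ≤ 2 ^ m := pow_le_pow_right₀ (by norm_num) (by omega)
    linarith [show (6 : ℝ) ≤ 2 ^ 3 by norm_num]
  have e3 : (2 : ℝ) ^ (20 * m) = (2 ^ m) ^ 20 := by rw [mul_comm, pow_mul]
  have e4 : (2 : ℝ) ^ (25 * m) = (2 ^ m) ^ 25 := by rw [mul_comm, pow_mul]
  have e5 : (2 : ℝ) ^ (2 * m) = (2 ^ m) ^ 2 := by rw [mul_comm, pow_mul]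
  rw [e5] at h1
  rw [e3, e4]
  set M : ℝ := 2 ^ m with hM
  have hM0 : 0 < M := by positivity
  rw [div_pow, one_pow, ← pow_mul]
  calc 3 * 2 ^ (l + 8 * a) * (2 * (1 / M ^ (25 * 2))) ≤ 3 * M ^ 2 * (2 * (1 / M ^ (25 * 2))) := by
        gcongr
    _ = 6 * (1 / M ^ 48) := by
        field_simp
        ring
    _ ≤ M ^ 28 * (1 / M ^ 48) := by
        gcongr
        calc (6 : ℝ) ≤ M := h2
          _ = M ^ 1 := (pow_one M).symm
          _ ≤ M ^ 28 := pow_le_pow_right₀ (by linarith) (by norm_num)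
    _ = 1 / M ^ 20 := by
        field_simp

lemma ee_norm (t : ℝ) : ‖ee t‖ = 1 := by
  unfold ee
  have : (2 * Real.pi * Complex.I * (t : ℂ)) = ((2 * Real.pi * t : ℝ) : ℂ) * Complex.I := by
    push_cast; ring
  rw [this, Complex.norm_exp_ofReal_mul_I]

lemma ee_cont : Continuous ee := by
  unfold ee
  fun_prop

lemma Bd_int {h : ℝ × ℝ → ℂ} (hh : Bd h) : Integrable h := by
  obtain ⟨hm, ⟨B, hB⟩, R, hR⟩ := hh
  have hS : MeasurableSet (Icc (-R) R ×ˢ Icc (-R) R : Set (ℝ × ℝ)) :=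
    measurableSet_Icc.prod measurableSet_Icc
  have hfin : volume (Icc (-R) R ×ˢ Icc (-R) R : Set (ℝ × ℝ)) < ⊤ := by
    have hc : IsCompact (Icc (-R) R ×ˢ Icc (-R) R : Set (ℝ × ℝ)) :=
      isCompact_Icc.prod isCompact_Icc
    exact hc.measure_lt_top
  have hon : IntegrableOn h (Icc (-R) R ×ˢ Icc (-R) R) := by
    refine Measure.integrableOn_of_bounded hfin.ne hm.aestronglyMeasurable (M := B) ?_
    exact Filter.Eventually.of_forall hB
  rw [← integrableOn_iff_integrable_of_support_subset (s := Icc (-R) R ×ˢ Icc (-R) R)]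
  · exact hon
  · intro ξ hξ
    have := hR ξ hξ
    rw [abs_le, abs_le] at this
    exact ⟨⟨this.1.1, this.1.2⟩, ⟨this.2.1, this.2.2⟩⟩

lemma Ex_cont {h : ℝ × ℝ → ℂ} (hh : Integrable h) : Continuous (Ex h) := by
  unfold Ex
  refine continuous_of_dominated (bound := fun ξ => ‖h ξ‖) ?_ ?_ hh.norm ?_
  · intro x
    refine (hh.mul_bdd (c := 1) ?_ ?_).aestronglyMeasurable
    · refine (ee_cont.comp ?_).aestronglyMeasurable
      unfold dot
      fun_prop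
    · exact Filter.Eventually.of_forall fun ξ => (ee_norm _).le
  · refine fun x => Filter.Eventually.of_forall fun ξ => ?_
    rw [norm_mul, ee_norm, mul_one]
  · refine Filter.Eventually.of_forall fun ξ => ?_
    refine continuous_const.mul (ee_cont.comp ?_)
    unfold dot
    fun_prop

lemma Ex_bdd {h : ℝ × ℝ → ℂ} (x : ℝ × ℝ) : ‖Ex h x‖ ≤ ∫ ξ, ‖h ξ‖ := by
  unfold Ex
  refine (norm_integral_le_integral_norm _).trans (le_of_eq ?_)
  congr 1
  ext ξ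
  rw [norm_mul, ee_norm, mul_one]

lemma Ex_enorm {h : ℝ × ℝ → ℂ} (x : ℝ × ℝ) : ‖Ex h x‖ₑ ≤ ∫⁻ ξ, ‖h ξ‖ₑ := by
  unfold Ex
  refine (enorm_integral_le_lintegral_enorm _).trans (le_of_eq ?_)
  congr 1
  ext ξ
  have : ‖ee (dot x ξ)‖ₑ = 1 := by
    rw [← ofReal_norm, ee_norm, ENNReal.ofReal_one]
  rw [enorm_mul, this, mul_one]

lemma tp_abs {sl : ℝ} {j p : ℕ} (h1 : 1 ≤ sl) (h2 : sl < 2) (hp : p < 3 * 2 ^ j) :
    |tp sl j p| ≤ 2 := by
  unfold tp
  have h3 : (p : ℝ) / 2 ^ j ≤ 3 := by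
    rw [div_le_iff₀ (by positivity)]
    exact_mod_cast hp.le
  have h4 : (0 : ℝ) ≤ (p : ℝ) / 2 ^ j := by positivity
  rw [abs_le]
  constructor <;> linarith

lemma sizes {a l : ℕ} (ha : 20 ≤ a) (hl : 10 * a < l) :
    2 * (2 : ℝ) ^ (l + 16 * a) ≤ 4 ^ l * 2 ^ (7 * a) ∧
    3 * (2 : ℝ) ^ (l + 15 * a) ≤ 2 ^ (l + 16 * a) ∧
    11 * (4 * ((4 : ℝ) ^ l * 2 ^ (7 * a) / 2 ^ (l + 16 * a)) + 2) ≤ 2 ^ l := by
  have e3 : (4 : ℝ) ^ l = 2 ^ (2 * l) := by
    rw [pow_mul]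
    norm_num
  refine ⟨?_, ?_, ?_⟩
  · rw [e3, ← pow_add, ← pow_succ']
    exact pow_le_pow_right₀ (by norm_num) (by omega)
  · calc 3 * (2 : ℝ) ^ (l + 15 * a) ≤ 2 ^ 2 * 2 ^ (l + 15 * a) := by
          gcongr
          norm_num
      _ = 2 ^ (2 + (l + 15 * a)) := (pow_add _ _ _).symm
      _ ≤ _ := pow_le_pow_right₀ (by norm_num) (by omega)
  · have h1 : (4 : ℝ) ^ l * 2 ^ (7 * a) / 2 ^ (l + 16 * a) ≤ 2 ^ (l - 9 * a) := by
      rw [div_le_iff₀ (by positivity), e3, ← pow_add, ← pow_add]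
      exact pow_le_pow_right₀ (by norm_num) (by omega)
    have h2 : (64 : ℝ) * 2 ^ (l - 9 * a) ≤ 2 ^ l / 2 := by
      rw [le_div_iff₀ (by norm_num)]
      calc (64 : ℝ) * 2 ^ (l - 9 * a) * 2 = 2 ^ (7 + (l - 9 * a)) := by
            rw [pow_add]
            ring
        _ ≤ _ := pow_le_pow_right₀ (by norm_num) (by omega)
    have h3 : (1 : ℝ) ≤ 2 ^ (l - 9 * a) := one_le_pow₀ (by norm_num)
    linarith

end KQ_

open KQ_ in
theorem pKQ (hMUP : tMUP) (hBXV : tBXV) (hTHN : tTHN) (hCVK : LLog.tCVK)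
    (hYNG : LLog.tYNG) (hHAT : LLog.tHAT) : tKQ := by
  intro a m l sg sl w Φ W h hF hΦ hW hav
  classical
  have hPA := h.1
  have ha : 20 ≤ a := hPA.1
  have hl := h.2.1
  have hlm := h.2.2.1
  have hsl1 := h.2.2.2.2.2.1
  have hsl2 := h.2.2.2.2.2.2
  obtain ⟨z1, z2, z3⟩ := sizes ha hl
  set s : ℝ := 2 ^ (l + 16 * a) with hs
  set r1 : ℝ := 4 ^ l * 2 ^ (7 * a) with hr1
  set r2 : ℝ := 2 ^ (l + 15 * a) with hr2
  have hs0 : 0 < s := by positivity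
  have hr10 : 0 < r1 := by positivity
  set t : ℕ → ℝ := fun p => tp sl (l + 8 * a) p with ht
  set D1 : ℝ≥0∞ := ENNReal.ofReal (4 / (4 ^ l * 2 ^ (l + 8 * a))) with hD1
  set D2 : ℝ≥0∞ := ENNReal.ofReal (4 * (2 * r1) * (4 * s)) with hD2
  set D3 : ℝ≥0∞ := ENNReal.ofReal (3 * s * (1 / 4 ^ l)) with hD3
  set E0 : ℝ≥0∞ := ENNReal.ofReal (1 / 2 ^ (25 * m)) with hE0
  let I : ℕ → ℕ → ℤ × ℤ → ℝ≥0∞ := fun c p Q =>
    ∫⁻ ξ, ‖Mu a m sg sl l c p ξ‖ₑ * ‖hat ((SQ s Q).indicator (w c)) ξ‖ₑ ^ 2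
  let iW : ℤ × ℤ → ℝ≥0∞ := fun Q => ⨅ y ∈ SQ s Q, W y
  have hBf : ∀ c, Bf (w c) := fun c => (hF.1 c).1
  have hBfQ : ∀ c Q, Bf ((SQ s Q).indicator (w c)) := fun c Q => Bf_ind (hBf c) (meas_SQ s Q)
  -- the averages
  have hA : ∀ p ∈ PP a l, ∀ Q, ∫⁻ x in bx (t p) (zQ s Q) (2 * r1) (4 * s), Φ p x ≤ D2 * iW Q := by
    intro p hp Q
    rw [av_eq (by positivity) (by positivity)]
    gcongr
    apply le_iInf₂
    intro y hy
    apply hav p hp y (zQ s Q)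
    · obtain ⟨c1, c2⟩ := floor_corner hs0 hy.1
      unfold zQ
      simp only
      rw [abs_of_nonneg c1]
      exact c2.le
    · obtain ⟨c1, c2⟩ := floor_corner hs0 hy.2
      unfold zQ
      simp only
      rw [abs_of_nonneg c1]
      exact c2.le
  -- one piece
  have hone : ∀ c ∈ CC l, ∀ p ∈ PP a l, ∫⁻ x, Φ p x * VV a m sg sl l (w c) c p x ≤
      2 * 2 ^ l * (∑' Q, (D1 * I c p Q) * (D2 * iW Q)) + 2 * E0 ^ 2 * ∫⁻ x, ‖w c x‖ₑ ^ 2 := by
    intro c hc p hp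
    obtain ⟨m1, m2, m3, m4, m5, m6⟩ := hMUP a m l c p sg sl h hc hp
    have hK : Continuous (Ex (Mu a m sg sl l c p)) := Ex_cont (Bd_int m1)
    have hVV : ∀ x, VV a m sg sl l (w c) c p x =
        ‖∫ z, Ex (Mu a m sg sl l c p) (x - z) * w c z‖ₑ ^ 2 := by
      intro x
      unfold VV vv
      rw [(hCVK _ m1).2 (w c) (hBf c) x]
    simp only [hVV]
    have hcard : ∀ x, ((NX s r1 (t p) x).card : ℝ≥0∞) ≤ 2 ^ l := by
      intro x
      have h1 : ((NX s r1 (t p) x).card : ℝ) ≤ 2 ^ l := (card_NX hs0 hr10).trans z3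
      have h2 : (NX s r1 (t p) x).card ≤ 2 ^ l := by exact_mod_cast h1
      exact_mod_cast h2
    have hm : ∀ Q x, ‖∫ z, Ex (Mu a m sg sl l c p) (x - z) * (SQ s Q).indicator (w c) z‖ₑ ^ 2 ≤
        D1 * I c p Q := by
      intro Q x
      rw [← (hCVK _ m1).2 _ (hBfQ c Q) x]
      have h1 : ‖Ex (fun ξ => Mu a m sg sl l c p ξ * hat ((SQ s Q).indicator (w c)) ξ) x‖ₑ ≤
          ∫⁻ ξ, ‖Mu a m sg sl l c p ξ‖ₑ * ‖hat ((SQ s Q).indicator (w c)) ξ‖ₑ := by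
        refine (Ex_enorm x).trans (le_of_eq ?_)
        simp only [enorm_mul]
      have h2 := csw volume (fun ξ => ‖Mu a m sg sl l c p ξ‖ₑ)
        (fun ξ => ‖hat ((SQ s Q).indicator (w c)) ξ‖ₑ) m1.1.enorm
        (hHAT _ (hBfQ c Q)).1.measurable.enorm
      calc _ ≤ (∫⁻ ξ, ‖Mu a m sg sl l c p ξ‖ₑ * ‖hat ((SQ s Q).indicator (w c)) ξ‖ₑ) ^ 2 := by
            gcongr
        _ ≤ _ := h2
        _ ≤ _ := by
            gcongr
    have hht : |t p| ≤ 2 := by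
      apply tp_abs hsl1 hsl2
      unfold PP at hp
      exact Finset.mem_range.mp hp
    refine (one hYNG hs0 hht z1 z2 hK.measurable ⟨_, fun x => Ex_bdd x⟩ (hBf c) hcard
      (hΦ p).1 (hΦ p).2 hm).trans ?_
    gcongr
    exact hA p hp _
  -- all pieces on all squares, one radial interval
  have hsum : ∀ c ∈ CC l, ∑ p ∈ PP a l, ∫⁻ x, Φ p x * VV a m sg sl l (w c) c p x ≤
      2 * 2 ^ l * (D1 * (D2 * D3)) * (∫⁻ x, W x * ‖w c x‖ₑ ^ 2) +
      3 * 2 ^ (l + 8 * a) * (2 * E0 ^ 2) * ∫⁻ x, ‖w c x‖ₑ ^ 2 := by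
    intro c hc
    refine (Finset.sum_le_sum (hone c hc)).trans ?_
    rw [Finset.sum_add_distrib, ← Finset.mul_sum, Finset.sum_const, nsmul_eq_mul]
    have hcard : ((PP a l).card : ℝ≥0∞) = 3 * 2 ^ (l + 8 * a) := by
      unfold PP
      rw [Finset.card_range]
      push_cast
      rfl
    rw [hcard]
    refine add_le_add ?_ (le_of_eq (by ring))
    rw [mul_assoc (2 * 2 ^ l)]
    gcongr
    rw [← Summable.tsum_finsetSum fun _ _ => ENNReal.summable]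
    calc ∑' Q, ∑ p ∈ PP a l, (D1 * I c p Q) * (D2 * iW Q) =
        ∑' Q, D1 * (D2 * (iW Q * ∑ p ∈ PP a l, I c p Q)) := by
          congr 1
          ext Q
          rw [Finset.mul_sum, Finset.mul_sum, Finset.mul_sum]
          apply Finset.sum_congr rfl
          intro p _
          ring
      _ ≤ ∑' Q, D1 * (D2 * (iW Q * (D3 * ∫⁻ x, ‖(SQ s Q).indicator (w c) x‖ₑ ^ 2))) := by
          apply ENNReal.tsum_le_tsum
          intro Q
          gcongr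
          exact sumI hMUP hBXV hTHN hHAT h hc hs0 (hBf c)
      _ = D1 * (D2 * D3) * ∑' Q, iW Q * ∫⁻ x, ‖(SQ s Q).indicator (w c) x‖ₑ ^ 2 := by
          rw [← ENNReal.tsum_mul_left]
          congr 1
          ext Q
          ring
      _ ≤ _ := by
          gcongr
          exact sumW (hBf c).1
  have hEm : MeasurableSet (EE l w) := by
    have : EE l w = ⋃ c ∈ CC l, {x | w c x ≠ 0} := by
      ext x
      simp only [EE, mem_ofPred_eq, mem_iUnion, exists_prop]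
    rw [this]
    exact Finset.measurableSet_biUnion _ fun c _ => (hBf c).1 (measurableSet_singleton 0).compl
  have hpt : ∀ x, ∑ c ∈ CC l, ‖w c x‖ₑ ^ 2 ≤ (EE l w).indicator 1 x := by
    intro x
    by_cases hx : x ∈ EE l w
    · obtain ⟨c0, hc0, hne⟩ := hx
      rw [indicator_of_mem (show x ∈ EE l w from ⟨c0, hc0, hne⟩), Pi.one_apply,
        Finset.sum_eq_single c0]
      · have h1 := (hF.1 c0).2 x
        have h2 : ‖w c0 x‖ₑ ≤ 1 := by
          rw [← ofReal_norm]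
          exact ENNReal.ofReal_le_one.mpr h1
        exact pow_le_one₀ bot_le h2
      · intro c _ hcc
        have : w c x = 0 := by
          by_contra h'
          exact hcc (hF.2 x c c0 h' hne)
        rw [this, enorm_zero]
        norm_num
      · intro h'
        exact absurd hc0 h'
    · rw [Finset.sum_eq_zero]
      · exact bot_le
      · intro c hc
        have : w c x = 0 := by
          by_contra h'
          exact hx ⟨c, hc, h'⟩
        rw [this, enorm_zero]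
        norm_num
  have hS1 : ∑ c ∈ CC l, ∫⁻ x, W x * ‖w c x‖ₑ ^ 2 ≤ ∫⁻ x in EE l w, W x := by
    have hmw : ∀ c ∈ CC l, Measurable fun x => W x * ‖w c x‖ₑ ^ 2 := fun c _ =>
      hW.mul ((hBf c).1.enorm.pow_const 2)
    rw [← lintegral_finsetSum _ hmw, ← lintegral_indicator hEm]
    apply lintegral_mono
    intro x
    simp only
    rw [← Finset.mul_sum]
    refine (mul_le_mul_right (hpt x) _).trans ?_
    by_cases hx : x ∈ EE l w
    · rw [indicator_of_mem hx, indicator_of_mem hx, Pi.one_apply, mul_one]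
    · rw [indicator_of_notMem hx, indicator_of_notMem hx, mul_zero]
  have hS2 : ∑ c ∈ CC l, ∫⁻ x, ‖w c x‖ₑ ^ 2 ≤ volume (EE l w) := by
    have hmw : ∀ c ∈ CC l, Measurable fun x => ‖w c x‖ₑ ^ 2 := fun c _ =>
      (hBf c).1.enorm.pow_const 2
    rw [← lintegral_finsetSum _ hmw, ← lintegral_indicator_one hEm]
    exact lintegral_mono hpt
  refine (Finset.sum_le_sum hsum).trans ?_
  rw [Finset.sum_add_distrib, ← Finset.mul_sum, ← Finset.mul_sum]
  refine add_le_add ?_ ?_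
  · refine mul_le_mul' ?_ hS1
    exact consts ha
  · refine mul_le_mul' ?_ hS2
    exact consts2 hPA hl hlm

end Pool.Agent.SLog
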