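import Pool.Agent.SLog.Targets

set_option autoImplicit false

/-! MP_ee701d_an (SLog): KRN, the kernels of `Mu` average. -/

namespace Pool.Agent.SLog

open MeasureTheory Set
open scoped ENNReal NNReal ComplexConjugate
open Pool.Agent.KSP (ee dot nr Ex Ex1 Bd Bd1 n1 n2 lg V0 ann sq)
open Pool.Agent.LLog (PA cd cdr cp fr tp Nn nv tv Core bx sa sd Qx kc psi kap GK psR psA anf mu Bf hat)

namespace KRN_

/-- Cauchy-Schwarz with a weight. -/
theorem cs {α : Type} [MeasurableSpace α] (μ : Measure α) (k g : α → ℝ≥0∞) (hk : Measurable k)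
    (hg : Measurable g) : (∫⁻ z, k z * g z ∂μ) ^ 2 ≤ (∫⁻ z, k z ∂μ) * ∫⁻ z, k z * g z ^ 2 ∂μ := by
  have h := ENNReal.lintegral_mul_le_Lp_mul_Lq μ Real.HolderConjugate.two_two
    (f := fun z => k z ^ (1 / 2 : ℝ)) (g := fun z => k z ^ (1 / 2 : ℝ) * g z)
    (hk.pow_const _).aemeasurable ((hk.pow_const _).mul hg).aemeasurable
  have e1 : ∀ z, (k z ^ (1 / 2 : ℝ)) ^ (2 : ℝ) = k z := by
    intro z
    rw [← ENNReal.rpow_mul]
    norm_num
  have e2 : (∫⁻ z, ((fun z => k z ^ (1 / 2 : ℝ)) * fun z => k z ^ (1 / 2 : ℝ) * g z) z ∂μ) =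
      ∫⁻ z, k z * g z ∂μ := by
    apply lintegral_congr
    intro z
    simp only [Pi.mul_apply]
    rw [← mul_assoc, ← ENNReal.rpow_add_of_nonneg _ _ (by norm_num) (by norm_num)]
    norm_num
  have e3 : (∫⁻ z, (k z ^ (1 / 2 : ℝ)) ^ (2 : ℝ) ∂μ) = ∫⁻ z, k z ∂μ :=
    lintegral_congr fun z => e1 z
  have e4 : (∫⁻ z, (k z ^ (1 / 2 : ℝ) * g z) ^ (2 : ℝ) ∂μ) = ∫⁻ z, k z * g z ^ 2 ∂μ := by
    apply lintegral_congr
    intro z
    rw [ENNReal.mul_rpow_of_nonneg _ _ (by norm_num), e1, ENNReal.rpow_two]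
  rw [e2, e3, e4] at h
  calc (∫⁻ z, k z * g z ∂μ) ^ 2
      ≤ ((∫⁻ z, k z ∂μ) ^ (1 / 2 : ℝ) * (∫⁻ z, k z * g z ^ 2 ∂μ) ^ (1 / 2 : ℝ)) ^ 2 := by
        gcongr
    _ = _ := by
        rw [mul_pow, ← ENNReal.rpow_two, ← ENNReal.rpow_two, ← ENNReal.rpow_mul,
          ← ENNReal.rpow_mul]
        norm_num

theorem addsq (x y : ℝ≥0∞) : (x + y) ^ 2 ≤ 2 * x ^ 2 + 2 * y ^ 2 := by
  rcases eq_or_ne x ⊤ with rfl | hx
  · simp
  rcases eq_or_ne y ⊤ with rfl | hy
  · simp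
  lift x to ℝ≥0 using hx
  lift y to ℝ≥0 using hy
  norm_cast
  have : (x + y) ^ 2 ≤ 2 * x ^ 2 + 2 * y ^ 2 := by
    rw [← NNReal.coe_le_coe]
    push_cast
    nlinarith [sq_nonneg ((x : ℝ) - y)]
  exact this

theorem bx_meas (t : ℝ) (x : ℝ × ℝ) (A B : ℝ) : MeasurableSet (bx t x A B) := by
  have h1 : Continuous fun y : ℝ × ℝ => |dot (y - x) (nv t)| := by
    unfold dot
    fun_prop
  have h2 : Continuous fun y : ℝ × ℝ => |dot (y - x) (tv t)| := by
    unfold dot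
    fun_prop
  exact ((isOpen_lt h1 continuous_const).inter (isOpen_lt h2 continuous_const)).measurableSet

theorem bx_diff (t : ℝ) (x z : ℝ × ℝ) (A B : ℝ) : x - z ∈ bx t 0 A B ↔ z ∈ bx t x A B := by
  have e : ∀ v : ℝ × ℝ, dot (z - x) v = - dot (x - z) v := by
    intro v
    unfold dot
    simp only [Prod.fst_sub, Prod.snd_sub]
    ring
  show (|dot (x - z - 0) (nv t)| < A ∧ |dot (x - z - 0) (tv t)| < B) ↔
    (|dot (z - x) (nv t)| < A ∧ |dot (z - x) (tv t)| < B)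
  rw [e, e, abs_neg, abs_neg, sub_zero]

theorem m_pos {a m : ℕ} (h : PA a m) : 1 ≤ m := by
  obtain ⟨h1, -, h3⟩ := h
  by_contra hm
  have : m = 0 := by omega
  subst this
  have h4 : 0 < 2 ^ a := Nat.pow_pos (by norm_num)
  omega

/-- numerical constant of the main part -/
theorem num1 (a l : ℕ) (ha : 20 ≤ a) :
    2 * (2 ^ (2 * a) * ENNReal.ofReal (4 / (4 ^ l * 2 ^ (l + 8 * a))) *
      ENNReal.ofReal (4 * (4 ^ l * 2 ^ (7 * a)) * 2 ^ (l + 15 * a))) ≤ (2 : ℝ≥0∞) ^ (17 * a) := by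
  have e1 : (2 : ℝ≥0∞) ^ (2 * a) = ENNReal.ofReal (2 ^ (2 * a)) := by
    rw [ENNReal.ofReal_pow (by norm_num)]
    norm_num
  have e2 : (2 : ℝ≥0∞) ^ (17 * a) = ENNReal.ofReal (2 ^ (17 * a)) := by
    rw [ENNReal.ofReal_pow (by norm_num)]
    norm_num
  have e3 : (2 : ℝ≥0∞) = ENNReal.ofReal 2 := by norm_num
  rw [e1, e2]
  nth_rewrite 1 [e3]
  rw [← ENNReal.ofReal_mul (by positivity), ← ENNReal.ofReal_mul (by positivity),
    ← ENNReal.ofReal_mul (by positivity)]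
  apply ENNReal.ofReal_le_ofReal
  have h1 : (2 : ℝ) * (2 ^ (2 * a) * (4 / (4 ^ l * 2 ^ (l + 8 * a))) *
      (4 * (4 ^ l * 2 ^ (7 * a)) * 2 ^ (l + 15 * a))) = 32 * 2 ^ (16 * a) := by
    have h4 : (0 : ℝ) < 4 ^ l := by positivity
    have h2 : (0 : ℝ) < 2 ^ (l + 8 * a) := by positivity
    have h3 : (2 : ℝ) ^ (2 * a) * 2 ^ (7 * a) * 2 ^ (l + 15 * a) =
        2 ^ (16 * a) * 2 ^ (l + 8 * a) := by
      rw [← pow_add, ← pow_add, ← pow_add]
      congr 1
      ring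
    rw [mul_div_assoc', div_mul_eq_mul_div, mul_div_assoc', div_eq_iff (by positivity)]
    calc (2 : ℝ) * (2 ^ (2 * a) * 4 * (4 * (4 ^ l * 2 ^ (7 * a)) * 2 ^ (l + 15 * a)))
        = 32 * 4 ^ l * (2 ^ (2 * a) * 2 ^ (7 * a) * 2 ^ (l + 15 * a)) := by ring
      _ = 32 * 4 ^ l * (2 ^ (16 * a) * 2 ^ (l + 8 * a)) := by rw [h3]
      _ = 32 * 2 ^ (16 * a) * (4 ^ l * 2 ^ (l + 8 * a)) := by ring
  rw [h1]
  have h5 : (32 : ℝ) ≤ 2 ^ a := by
    calc (32 : ℝ) ≤ 2 ^ 20 := by norm_num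
      _ ≤ 2 ^ a := pow_le_pow_right₀ (by norm_num) ha
  calc (32 : ℝ) * 2 ^ (16 * a) ≤ 2 ^ a * 2 ^ (16 * a) := by gcongr
    _ = 2 ^ (17 * a) := by
        rw [← pow_add]
        congr 1
        ring

/-- numerical constant of the error -/
theorem num2 (m : ℕ) (hm : 1 ≤ m) :
    2 * ENNReal.ofReal (1 / 2 ^ (25 * m)) ^ 2 ≤ ENNReal.ofReal (1 / 2 ^ (40 * m)) := by
  have e3 : (2 : ℝ≥0∞) = ENNReal.ofReal 2 := by norm_num
  rw [← ENNReal.ofReal_pow (by positivity)]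
  nth_rewrite 1 [e3]
  rw [← ENNReal.ofReal_mul (by norm_num)]
  apply ENNReal.ofReal_le_ofReal
  rw [div_pow, one_pow, ← pow_mul, mul_one_div, div_le_div_iff₀ (by positivity) (by positivity),
    one_mul]
  have h1 : (2 : ℝ) * 2 ^ (40 * m) = 2 ^ (40 * m + 1) := by rw [pow_succ]; ring
  rw [h1]
  exact pow_le_pow_right₀ (by norm_num) (by omega)

end KRN_

open KRN_

theorem pKRN (hMUP : tMUP) (hCVK : LLog.tCVK) (hYNG : LLog.tYNG) (hAVG : tAVG)
    (hPl : KSP.tPl2) : tKRN := by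
  intro a m l c p sg sl Y k hHP hc hp hY hk
  obtain ⟨hMb, -, -, hM1, hK1, hK2⟩ := hMUP a m l c p sg sl hHP hc hp
  obtain ⟨hPA, -, -, -, -, -, -⟩ := hHP
  have hm := m_pos hPA
  have ha := hPA.1
  have hcv := (hCVK _ hMb).1 k hk
  set t := tp sl (l + 8 * a) p with ht
  have hr1 : (0 : ℝ) < 4 ^ l * 2 ^ (7 * a) := by positivity
  have hr2 : (0 : ℝ) < 2 ^ (l + 15 * a) := by positivity
  set r1 : ℝ := 4 ^ l * 2 ^ (7 * a) with hr1'
  set r2 : ℝ := 2 ^ (l + 15 * a) with hr2'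
  set K : ℝ × ℝ → ℝ≥0∞ := fun z => ‖Ex (Mu a m sg sl l c p) z‖ₑ with hKdef
  set F : ℝ × ℝ → ℝ≥0∞ := fun z => ‖Ex k z‖ₑ with hFdef
  have hKm : Measurable K := (hPl _ hMb).1.measurable.enorm
  have hFm : Measurable F := (hPl _ hk).1.measurable.enorm
  have hF2 : ∫⁻ x, F x ^ 2 = n2 k := (hPl _ hk).2
  set R : Set (ℝ × ℝ) := bx t 0 r1 r2 with hR
  have hRm : MeasurableSet R := bx_meas _ _ _ _
  set K1 : ℝ × ℝ → ℝ≥0∞ := R.indicator K with hK1def
  set K2 : ℝ × ℝ → ℝ≥0∞ := Rᶜ.indicator K with hK2def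
  have hK1m : Measurable K1 := hKm.indicator hRm
  have hK2m : Measurable K2 := hKm.indicator hRm.compl
  have hsub : ∀ x : ℝ × ℝ, Measurable fun z : ℝ × ℝ => x - z := fun x =>
    measurable_const.sub measurable_id
  -- the maximum of the kernel
  have hKsup : ∀ z, K z ≤ ENNReal.ofReal (4 / (4 ^ l * 2 ^ (l + 8 * a))) := by
    intro z
    refine le_trans ?_ hM1
    calc K z = ‖∫ ξ, Mu a m sg sl l c p ξ * ee (dot z ξ)‖ₑ := rfl
      _ ≤ ∫⁻ ξ, ‖Mu a m sg sl l c p ξ * ee (dot z ξ)‖ₑ := enorm_integral_le_lintegral_enorm _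
      _ = ∫⁻ ξ, ‖Mu a m sg sl l c p ξ‖ₑ := by
          apply lintegral_congr
          intro ξ
          rw [enorm_mul]
          have h1 : ‖ee (dot z ξ)‖ₑ = 1 := by
            rw [← ofReal_norm]
            have h2 : ‖ee (dot z ξ)‖ = 1 := by
              unfold ee
              rw [Complex.norm_exp]
              simp
            rw [h2]
            simp
          rw [h1, mul_one]
  -- pointwise bound
  have hpt : ∀ x, ‖Ex (fun ξ => Mu a m sg sl l c p ξ * k ξ) x‖ₑ ^ 2 ≤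
      2 * (∫⁻ z, K1 (x - z) * F z) ^ 2 + 2 * (∫⁻ z, K2 (x - z) * F z) ^ 2 := by
    intro x
    refine le_trans ?_ (addsq _ _)
    gcongr
    have hadd : (∫⁻ z, K1 (x - z) * F z) + ∫⁻ z, K2 (x - z) * F z =
        ∫⁻ z, (K1 (x - z) * F z + K2 (x - z) * F z) :=
      (lintegral_add_left ((hK1m.comp (hsub x)).mul hFm) _).symm
    rw [hcv x, hadd]
    refine (enorm_integral_le_lintegral_enorm _).trans ?_
    apply lintegral_mono
    intro z
    show ‖Ex (Mu a m sg sl l c p) (x - z) * Ex k z‖ₑ ≤ K1 (x - z) * F z + K2 (x - z) * F z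
    rw [enorm_mul]
    have h1 : ‖Ex (Mu a m sg sl l c p) (x - z)‖ₑ = K1 (x - z) + K2 (x - z) := by
      by_cases h : x - z ∈ R
      · rw [hK1def, hK2def, indicator_of_mem h, indicator_of_notMem (by simpa using h), add_zero]
      · rw [hK1def, hK2def, indicator_of_notMem h, indicator_of_mem (by simpa using h), zero_add]
    rw [h1, add_mul]
  -- near part
  obtain ⟨hAm, -, hAs, -, -, -⟩ := hAVG t r1 r2 (fun z => F z ^ 2) hr1 hr2 (hFm.pow_const 2)
  have hnear : ∀ x, (∫⁻ z, K1 (x - z) * F z) ^ 2 ≤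
      2 ^ (2 * a) * ENNReal.ofReal (4 / (4 ^ l * 2 ^ (l + 8 * a))) *
        ENNReal.ofReal (4 * r1 * r2) * av t r1 r2 (fun z => F z ^ 2) x := by
    intro x
    refine (cs volume (fun z => K1 (x - z)) F (hK1m.comp (hsub x)) hFm).trans ?_
    have h1 : ∫⁻ z, K1 (x - z) ≤ 2 ^ (2 * a) := by
      rw [lintegral_sub_left_eq_self K1 x]
      refine le_trans (lintegral_mono fun z => ?_) hK1
      exact indicator_le_self _ _ _
    have h2 : ∫⁻ z, K1 (x - z) * F z ^ 2 ≤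
        ENNReal.ofReal (4 / (4 ^ l * 2 ^ (l + 8 * a))) * ∫⁻ z in bx t x r1 r2, F z ^ 2 := by
      rw [← lintegral_const_mul _ (hFm.pow_const 2), ← lintegral_indicator (bx_meas _ _ _ _)]
      apply lintegral_mono
      intro z
      by_cases h : z ∈ bx t x r1 r2
      · rw [indicator_of_mem h]
        exact mul_le_mul_left ((indicator_le_self _ _ _).trans (hKsup _)) _
      · have h3 : x - z ∉ R := fun h4 => h ((bx_diff t x z r1 r2).1 h4)
        show K1 (x - z) * F z ^ 2 ≤ _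
        rw [hK1def, indicator_of_notMem h3, zero_mul]
        exact zero_le
    have h3 : ∫⁻ z in bx t x r1 r2, F z ^ 2 =
        ENNReal.ofReal (4 * r1 * r2) * av t r1 r2 (fun z => F z ^ 2) x := by
      unfold av
      rw [← mul_assoc, ENNReal.mul_inv_cancel, one_mul]
      · rw [ENNReal.ofReal_ne_zero_iff]
        positivity
      · exact ENNReal.ofReal_ne_top
    rw [h3] at h2
    calc (∫⁻ z, K1 (x - z)) * ∫⁻ z, K1 (x - z) * F z ^ 2
        ≤ 2 ^ (2 * a) * (ENNReal.ofReal (4 / (4 ^ l * 2 ^ (l + 8 * a))) *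
          (ENNReal.ofReal (4 * r1 * r2) * av t r1 r2 (fun z => F z ^ 2) x)) := by gcongr
      _ = _ := by ring
  -- far part
  have hfar : ∫⁻ x in Y, (∫⁻ z, K2 (x - z) * F z) ^ 2 ≤
      ENNReal.ofReal (1 / 2 ^ (25 * m)) ^ 2 * n2 k := by
    have h := hYNG K2 F univ univ univ hK2m hFm MeasurableSet.univ MeasurableSet.univ
      MeasurableSet.univ (fun _ _ _ _ => mem_univ _)
    simp only [Measure.restrict_univ] at h
    refine (setLIntegral_le_lintegral _ _).trans (h.trans ?_)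
    rw [hF2]
    gcongr
    rw [hK2def, lintegral_indicator hRm.compl]
    exact hK2
  -- the average
  have hYi : Measurable (Y.indicator (1 : ℝ × ℝ → ℝ≥0∞)) := measurable_one.indicator hY
  have havg : ∫⁻ x in Y, av t r1 r2 (fun z => F z ^ 2) x =
      ∫⁻ x, ‖Ex k x‖ₑ ^ 2 * avK a l sl p (Y.indicator 1) x := by
    rw [← lintegral_indicator hY]
    calc ∫⁻ x, Y.indicator (fun x => av t r1 r2 (fun z => F z ^ 2) x) x
        = ∫⁻ x, Y.indicator 1 x * av t r1 r2 (fun z => F z ^ 2) x := by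
          apply lintegral_congr
          intro x
          by_cases h : x ∈ Y
          · simp [indicator_of_mem h]
          · simp [indicator_of_notMem h]
      _ = ∫⁻ x, av t r1 r2 (Y.indicator 1) x * F x ^ 2 := hAs _ hYi
      _ = _ := by
          apply lintegral_congr
          intro x
          rw [mul_comm]
          rfl
  calc ∫⁻ x in Y, ‖Ex (fun ξ => Mu a m sg sl l c p ξ * k ξ) x‖ₑ ^ 2
      ≤ ∫⁻ x in Y, (2 * (2 ^ (2 * a) * ENNReal.ofReal (4 / (4 ^ l * 2 ^ (l + 8 * a))) *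
        ENNReal.ofReal (4 * r1 * r2)) * av t r1 r2 (fun z => F z ^ 2) x +
          2 * (∫⁻ z, K2 (x - z) * F z) ^ 2) := by
        apply lintegral_mono
        intro x
        refine (hpt x).trans (add_le_add ?_ le_rfl)
        calc 2 * (∫⁻ z, K1 (x - z) * F z) ^ 2
            ≤ 2 * (2 ^ (2 * a) * ENNReal.ofReal (4 / (4 ^ l * 2 ^ (l + 8 * a))) *
              ENNReal.ofReal (4 * r1 * r2) * av t r1 r2 (fun z => F z ^ 2) x) := by
              gcongr
              exact hnear x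
          _ = _ := by ring
    _ = 2 * (2 ^ (2 * a) * ENNReal.ofReal (4 / (4 ^ l * 2 ^ (l + 8 * a))) *
        ENNReal.ofReal (4 * r1 * r2)) * (∫⁻ x in Y, av t r1 r2 (fun z => F z ^ 2) x) +
          ∫⁻ x in Y, 2 * (∫⁻ z, K2 (x - z) * F z) ^ 2 := by
        rw [lintegral_add_left (hAm.const_mul _), lintegral_const_mul _ hAm]
    _ ≤ _ := by
        refine add_le_add ?_ ?_
        · rw [havg]
          exact mul_le_mul_left (num1 a l ha) _
        · rw [lintegral_const_mul' _ _ (by norm_num)]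
          calc 2 * ∫⁻ x in Y, (∫⁻ z, K2 (x - z) * F z) ^ 2
              ≤ 2 * (ENNReal.ofReal (1 / 2 ^ (25 * m)) ^ 2 * n2 k) := by gcongr
            _ = 2 * ENNReal.ofReal (1 / 2 ^ (25 * m)) ^ 2 * n2 k := by ring
            _ ≤ _ := by
              gcongr
              exact num2 m hm

end Pool.Agent.SLog
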