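import Pool.Agent.SLog.Targets
import Pool.Agent.KSP.K
import Pool.Agent.KSP.KE
import Pool.Agent.KSP.MV
import Pool.Agent.LLog.H21Frame

set_option autoImplicit false

/-! MP_ee701d_an (SLog): from a small sector to the full octave, strong type. -/

namespace Pool.Agent.SLog

open MeasureTheory Set
open scoped ENNReal NNReal ComplexConjugate
open Pool.Agent.KSP (ee dot nr Ex Bd n2 lg V0 ann)
open Pool.Agent.LLog (nv tv Nn)

namespace KS_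

open Pool.Agent.KSP.K_ (M measurable_M measurable_Ex Bd_indicator n2_indicator ind_add ind_ne
  est_add measurable_nr measurable_ann sq_add)
open Pool.Agent.LLog.H21Frame_

/-- strong estimate for functions supported in `S` -/
def Es (m : ℕ) (K : ℝ≥0∞) (S : Set (ℝ × ℝ)) : Prop :=
  ∀ h : ℝ × ℝ → ℂ, Bd h → (∀ ξ, h ξ ≠ 0 → ξ ∈ S) → ∫⁻ x, M m h x ^ 2 ≤ K * n2 h

theorem Es.mono {m : ℕ} {K K' : ℝ≥0∞} {S S' : Set (ℝ × ℝ)} (h : Es m K S) (hK : K ≤ K')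
    (hS : S' ⊆ S) : Es m K' S' := fun g hg hs =>
  (h g hg fun ξ hξ => hS (hs ξ hξ)).trans (mul_le_mul' hK le_rfl)

theorem Es.union {m : ℕ} {K K' : ℝ≥0∞} {S S' : Set (ℝ × ℝ)} (hS : MeasurableSet S)
    (h : Es m K S) (h' : Es m K' S') : Es m (4 * K + 4 * K') (S ∪ S') := by
  intro g hg hs
  have b1 : Bd (S.indicator g) := Bd_indicator hg hS
  have b2 : Bd (Sᶜ.indicator g) := Bd_indicator hg hS.compl
  have e1 := h _ b1 fun ξ hξ => (ind_ne hξ).1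
  have e2 := h' _ b2 fun ξ hξ => by
    obtain ⟨h1, h2⟩ := ind_ne hξ
    exact (hs ξ h2).resolve_left h1
  have e3 := est_add m b1 b2
  rw [← ind_add] at e3
  refine e3.trans ?_
  calc 4 * (∫⁻ x, M m (S.indicator g) x ^ 2) + 4 * (∫⁻ x, M m (Sᶜ.indicator g) x ^ 2) ≤
        4 * (K * n2 g) + 4 * (K' * n2 g) := by
        refine add_le_add (mul_le_mul' le_rfl (e1.trans ?_)) (mul_le_mul' le_rfl (e2.trans ?_))
        · exact mul_le_mul' le_rfl (n2_indicator _ _)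
        · exact mul_le_mul' le_rfl (n2_indicator _ _)
    _ = (4 * K + 4 * K') * n2 g := by ring

theorem Es.empty (m : ℕ) (K : ℝ≥0∞) : Es m K ∅ := by
  intro g hg hs
  have hg0 : g = fun _ => 0 := by
    funext ξ
    by_contra h
    exact (hs ξ h).elim
  have : ∀ x, M m g x = 0 := by
    intro x
    unfold M
    rw [hg0]
    simp [Ex]
  simp only [this]
  simp

theorem Es.iUnion {m : ℕ} {K : ℝ≥0∞} {S : ℕ → Set (ℝ × ℝ)} (hS : ∀ i, MeasurableSet (S i)) :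
    ∀ n : ℕ, (∀ i < n, Es m K (S i)) → Es m (8 ^ n * K) {ξ | ∃ i < n, ξ ∈ S i} := by
  intro n
  induction n with
  | zero =>
    intro _
    refine (Es.empty m _).mono le_rfl ?_
    rintro ξ ⟨i, hi, -⟩
    omega
  | succ n ih =>
    intro h
    have h1 := ih fun i hi => h i (by omega)
    have h2 := h n (by omega)
    refine (h2.union (hS n) h1).mono ?_ ?_
    · have h3 : K ≤ 8 ^ n * K := by
        calc K = 1 * K := (one_mul K).symm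
          _ ≤ 8 ^ n * K := mul_le_mul' (one_le_pow₀ (by norm_num)) le_rfl
      calc 4 * K + 4 * (8 ^ n * K) ≤ 4 * (8 ^ n * K) + 4 * (8 ^ n * K) :=
            add_le_add (mul_le_mul' le_rfl h3) le_rfl
        _ = 8 ^ (n + 1) * K := by ring
    · rintro ξ ⟨i, hi, hξ⟩
      rcases Nat.lt_succ_iff_lt_or_eq.1 hi with h4 | h4
      · exact Or.inr ⟨i, h4, hξ⟩
      · exact Or.inl (h4 ▸ hξ)

theorem nr_dot (x : ℝ × ℝ) : nr x = √(dot x x) := by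
  unfold nr dot
  congr 1
  ring

theorem Es.rot {m : ℕ} {K : ℝ≥0∞} {S S' : Set (ℝ × ℝ)} (Φ : ℝ × ℝ → ℝ × ℝ)
    (mp : MeasurePreserving Φ) (me : MeasurableEmbedding Φ)
    (hdot : ∀ x y, dot (Φ x) (Φ y) = dot x y) (hb : ∀ h, Bd h → Bd (fun ξ => h (Φ ξ)))
    (hS : ∀ P, Φ P ∈ S' → P ∈ S) (h : Es m K S) : Es m K S' := by
  intro g hg hs
  have hnr : ∀ x, nr (Φ x) = nr x := fun x => by rw [nr_dot, nr_dot, hdot]
  have hEx : ∀ (f : ℝ × ℝ → ℂ) (x : ℝ × ℝ), Ex f (Φ x) = Ex (fun ξ => f (Φ ξ)) x := by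
    intro f x
    unfold Ex
    rw [← mp.integral_comp me]
    refine integral_congr_ae (Filter.Eventually.of_forall fun ξ => ?_)
    simp only [hdot]
  have hM : ∀ x, M m g (Φ x) = M m (fun ξ => g (Φ ξ)) x := by
    intro x
    unfold M
    refine iSup_congr fun k => iSup_congr fun _ => ?_
    rw [hEx]
    congr 2
    funext ξ
    by_cases hξ : ξ ∈ ann 1 (1 + (k : ℝ) / 2 ^ m)
    · rw [indicator_of_mem hξ, indicator_of_mem]
      rw [ann, mem_ofPred_eq, hnr]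
      exact hξ
    · rw [indicator_of_notMem hξ, indicator_of_notMem]
      rw [ann, mem_ofPred_eq, hnr]
      exact hξ
  have h1 : ∫⁻ x, M m g x ^ 2 = ∫⁻ x, M m (fun ξ => g (Φ ξ)) x ^ 2 := by
    rw [← mp.lintegral_comp_emb me]
    refine lintegral_congr fun x => ?_
    rw [hM]
  have h2 : n2 (fun ξ => g (Φ ξ)) = n2 g := by
    unfold n2
    exact mp.lintegral_comp_emb me (fun ξ => ‖g ξ‖ₑ ^ 2)
  rw [h1, ← h2]
  exact h _ (hb g hg) fun ξ hξ => hS ξ (hs _ hξ)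

/-! ### The core: comparison of radii -/

theorem sup_sq {s : Finset ℕ} {c : ℕ → ℝ≥0∞} {B : ℝ≥0∞} (h : ∀ k ∈ s, c k ^ 2 ≤ B) :
    (⨆ k ∈ s, c k) ^ 2 ≤ B := by
  have h0 : ∀ y : ℝ≥0∞, (y ^ 2) ^ (1 / 2 : ℝ) = y := by
    intro y
    rw [← ENNReal.rpow_natCast, ← ENNReal.rpow_mul]
    norm_num
  have h0' : ∀ y : ℝ≥0∞, (y ^ (1 / 2 : ℝ)) ^ 2 = y := by
    intro y
    rw [← ENNReal.rpow_natCast, ← ENNReal.rpow_mul]
    norm_num
  have h1 : ∀ k ∈ s, c k ≤ B ^ (1 / 2 : ℝ) := by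
    intro k hk
    calc c k = ((c k) ^ 2) ^ (1 / 2 : ℝ) := (h0 _).symm
      _ ≤ B ^ (1 / 2 : ℝ) := ENNReal.rpow_le_rpow (h k hk) (by norm_num)
  calc (⨆ k ∈ s, c k) ^ 2 ≤ (B ^ (1 / 2 : ℝ)) ^ 2 :=
        pow_le_pow_left' (iSup₂_le fun k hk => h1 k hk) 2
    _ = B := h0' B

/-- the radii in the scaled picture -/
noncomputable def rR (m : ℕ) (lam : ℝ) (k : ℕ) : ℝ := (1 + k / 2 ^ m) / lam

open Classical in
/-- the grid point below the radius -/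
noncomputable def rr (m : ℕ) (lam : ℝ) (k : ℕ) : ℝ :=
  if 13 / 10 ≤ rR m lam k ∧ rR m lam k < 7 / 5 then
    1 + (⌊4 ^ m * (rR m lam k - 1)⌋₊ : ℝ) / 4 ^ m else rR m lam k

theorem rr_le (m : ℕ) (lam : ℝ) (k : ℕ) : rr m lam k ≤ rR m lam k := by
  unfold rr
  split_ifs with h
  · have h1 : (⌊4 ^ m * (rR m lam k - 1)⌋₊ : ℝ) ≤ 4 ^ m * (rR m lam k - 1) :=
      Nat.floor_le (mul_nonneg (by positivity) (by linarith [h.1]))
    have h2 : (⌊4 ^ m * (rR m lam k - 1)⌋₊ : ℝ) / 4 ^ m ≤ rR m lam k - 1 := by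
      rw [div_le_iff₀ (by positivity)]
      linarith
    linarith
  · exact le_rfl

theorem lt_rr (m : ℕ) (lam : ℝ) (k : ℕ) : rR m lam k - 1 / 4 ^ m < rr m lam k := by
  have h4 : (0 : ℝ) < 4 ^ m := by positivity
  unfold rr
  split_ifs with h
  · have h1 : 4 ^ m * (rR m lam k - 1) - 1 < (⌊4 ^ m * (rR m lam k - 1)⌋₊ : ℝ) :=
      Nat.sub_one_lt_floor _
    have h2 : rR m lam k - 1 - 1 / 4 ^ m < (⌊4 ^ m * (rR m lam k - 1)⌋₊ : ℝ) / 4 ^ m := by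
      rw [lt_div_iff₀ h4, sub_mul, div_mul_cancel₀ _ h4.ne']
      linarith
    linarith
  · have : 0 < 1 / (4 : ℝ) ^ m := by positivity
    linarith

theorem sep {m : ℕ} (hm : 1 ≤ m) {lam : ℝ} (h0 : 0 < lam) (h2 : lam ≤ 2) {k l : ℕ} (hkl : k < l) :
    rR m lam k + 1 / 4 ^ m ≤ rR m lam l := by
  have h4 : (4 : ℝ) ^ m = 2 ^ m * 2 ^ m := by rw [← mul_pow]; norm_num
  have hp : (0 : ℝ) < 2 ^ m := by positivity
  have h2m : (2 : ℝ) ≤ 2 ^ m := by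
    calc (2 : ℝ) = 2 ^ 1 := (pow_one 2).symm
      _ ≤ 2 ^ m := pow_le_pow_right₀ (by norm_num) hm
  have hk : (k : ℝ) + 1 ≤ l := by exact_mod_cast hkl
  have h5 : 1 / (4 : ℝ) ^ m ≤ 1 / (2 ^ m * lam) := by
    rw [h4]
    apply one_div_le_one_div_of_le (by positivity)
    exact mul_le_mul_of_nonneg_left (h2.trans h2m) hp.le
  have h6 : rR m lam k + 1 / (2 ^ m * lam) ≤ rR m lam l := by
    unfold rR
    rw [← sub_nonneg]
    have : (1 + (l : ℝ) / 2 ^ m) / lam - ((1 + (k : ℝ) / 2 ^ m) / lam + 1 / (2 ^ m * lam)) =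
        ((l : ℝ) - k - 1) / (2 ^ m * lam) := by
      field_simp
      ring
    rw [this]
    exact div_nonneg (by linarith) (by positivity)
  linarith

theorem disj {m : ℕ} (hm : 1 ≤ m) {lam : ℝ} (h0 : 0 < lam) (h2 : lam ≤ 2) {k l : ℕ}
    {ξ : ℝ × ℝ} (hk : ξ ∈ ann (rr m lam k) (rR m lam k)) (hl : ξ ∈ ann (rr m lam l) (rR m lam l)) :
    k = l := by
  rcases lt_trichotomy k l with h | h | h
  · have h1 := sep hm h0 h2 h
    have h3 := lt_rr m lam l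
    have h4 := hk.2
    have h5 := hl.1
    exfalso
    linarith
  · exact h
  · have h1 := sep hm h0 h2 h
    have h3 := lt_rr m lam k
    have h4 := hl.2
    have h5 := hk.1
    exfalso
    linarith

theorem claim1 {m : ℕ} (hm : 1 ≤ m) {lam : ℝ} {g : ℝ × ℝ → ℂ} (hg : Bd g)
    (hs : ∀ ξ, g ξ ≠ 0 → 13 / 10 ≤ nr ξ ∧ nr ξ < 7 / 5) (k : ℕ) (x : ℝ × ℝ) :
    ‖Ex ((ann 1 (rR m lam k)).indicator g) x‖ₑ ≤
      (⨆ k' ∈ Finset.range (4 ^ m), ‖Ex ((ann 1 (1 + k' / 4 ^ m)).indicator g) x‖ₑ) +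
        ‖Ex ((ann (rr m lam k) (rR m lam k)).indicator g) x‖ₑ := by
  have h4 : (0 : ℝ) < 4 ^ m := by positivity
  have h44 : (4 : ℝ) ≤ 4 ^ m := by
    calc (4 : ℝ) = 4 ^ 1 := (pow_one 4).symm
      _ ≤ 4 ^ m := pow_le_pow_right₀ (by norm_num) hm
  rcases lt_or_ge (rR m lam k) (13 / 10) with h1 | h1
  · have : (ann 1 (rR m lam k)).indicator g = fun _ => 0 := by
      funext ξ
      by_cases hξ : ξ ∈ ann 1 (rR m lam k)
      · rw [indicator_of_mem hξ]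
        by_contra h
        have := (hs ξ h).1
        have := hξ.2
        linarith
      · rw [indicator_of_notMem hξ]
    rw [this]
    simp [Ex]
  rcases lt_or_ge (rR m lam k) (7 / 5) with h2 | h2
  · -- the middle case
    have hr : rr m lam k = 1 + (⌊4 ^ m * (rR m lam k - 1)⌋₊ : ℝ) / 4 ^ m := by
      unfold rr
      rw [if_pos ⟨h1, h2⟩]
    have h3 : 1 ≤ rr m lam k := by
      rw [hr]
      have : 0 ≤ (⌊4 ^ m * (rR m lam k - 1)⌋₊ : ℝ) / 4 ^ m := by positivity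
      linarith
    have h5 := Pool.Agent.KSP.MV_.Ex_sub hg h3 (rr_le m lam k) x
    have h6 : Ex ((ann 1 (rR m lam k)).indicator g) x =
        Ex ((ann 1 (rr m lam k)).indicator g) x +
          Ex ((ann (rr m lam k) (rR m lam k)).indicator g) x := by
      rw [← h5]
      ring
    rw [h6]
    refine (enorm_add_le _ _).trans (add_le_add ?_ le_rfl)
    have h7 : ⌊4 ^ m * (rR m lam k - 1)⌋₊ ∈ Finset.range (4 ^ m) := by
      rw [Finset.mem_range, Nat.floor_lt (mul_nonneg h4.le (by linarith))]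
      push_cast
      nlinarith
    refine le_iSup₂_of_le (f := fun (k' : ℕ) (_ : k' ∈ Finset.range (4 ^ m)) =>
      ‖Ex ((ann 1 (1 + (k' : ℝ) / 4 ^ m)).indicator g) x‖ₑ) _ h7 (le_of_eq ?_)
    rw [hr]
  · -- the full piece
    have h7 : ⌈(4 : ℝ) ^ m * (2 / 5)⌉₊ ∈ Finset.range (4 ^ m) := by
      rw [Finset.mem_range]
      have h8 : (⌈(4 : ℝ) ^ m * (2 / 5)⌉₊ : ℝ) < 4 ^ m * (2 / 5) + 1 :=
        Nat.ceil_lt_add_one (by positivity)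
      have h9 : (⌈(4 : ℝ) ^ m * (2 / 5)⌉₊ : ℝ) < ((4 ^ m : ℕ) : ℝ) := by
        push_cast
        linarith
      exact_mod_cast h9
    have h8 : 7 / 5 ≤ 1 + (⌈(4 : ℝ) ^ m * (2 / 5)⌉₊ : ℝ) / 4 ^ m := by
      have h9 : (4 : ℝ) ^ m * (2 / 5) ≤ (⌈(4 : ℝ) ^ m * (2 / 5)⌉₊ : ℝ) := Nat.le_ceil _
      have h10 : 2 / 5 ≤ (⌈(4 : ℝ) ^ m * (2 / 5)⌉₊ : ℝ) / 4 ^ m := by
        rw [le_div_iff₀ h4]
        linarith
      linarith
    have h9 : ∀ r : ℝ, 7 / 5 ≤ r → (ann 1 r).indicator g = g := by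
      intro r hr
      funext ξ
      by_cases hξ : g ξ = 0
      · rw [hξ]
        by_cases h10 : ξ ∈ ann 1 r
        · rw [indicator_of_mem h10, hξ]
        · rw [indicator_of_notMem h10]
      · obtain ⟨h11, h12⟩ := hs ξ hξ
        rw [indicator_of_mem]
        exact ⟨by linarith, by linarith⟩
    refine le_add_right ?_
    refine le_iSup₂_of_le (f := fun (k' : ℕ) (_ : k' ∈ Finset.range (4 ^ m)) =>
      ‖Ex ((ann 1 (1 + (k' : ℝ) / 4 ^ m)).indicator g) x‖ₑ) _ h7 (le_of_eq ?_)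
    rw [h9 _ h2, h9 _ h8]

theorem claim2 {m : ℕ} (hm : 1 ≤ m) {lam : ℝ} (h0 : 0 < lam) (h2 : lam ≤ 2)
    {g : ℝ × ℝ → ℂ} (hg : Bd g) :
    ∫⁻ x, ∑ k ∈ Finset.range (2 ^ m),
      ‖Ex ((ann (rr m lam k) (rR m lam k)).indicator g) x‖ₑ ^ 2 ≤ n2 g := by
  have hb : ∀ k, Bd ((ann (rr m lam k) (rR m lam k)).indicator g) := fun k =>
    Bd_indicator hg (measurable_ann _ _)
  rw [lintegral_finsetSum _ fun k _ => ((measurable_Ex (hb k).1).enorm.pow_const 2)]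
  have h3 : ∀ k ∈ Finset.range (2 ^ m),
      ∫⁻ x, ‖Ex ((ann (rr m lam k) (rR m lam k)).indicator g) x‖ₑ ^ 2 =
        ∫⁻ ξ, ‖(ann (rr m lam k) (rR m lam k)).indicator g ξ‖ₑ ^ 2 := fun k _ =>
    (Pool.Agent.KSP.pPl2 _ (hb k)).2
  rw [Finset.sum_congr rfl h3, ← lintegral_finsetSum _ fun k _ => ((hb k).1.enorm.pow_const 2)]
  unfold n2
  refine lintegral_mono fun ξ => ?_
  by_cases hex : ∃ k ∈ Finset.range (2 ^ m), ξ ∈ ann (rr m lam k) (rR m lam k)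
  · obtain ⟨k, hk, hξ⟩ := hex
    rw [Finset.sum_eq_single k]
    · rw [indicator_of_mem hξ]
    · intro l _ hlk
      rw [indicator_of_notMem fun hl => hlk (disj hm h0 h2 hl hξ)]
      simp
    · exact fun h => absurd hk h
  · push Not at hex
    rw [Finset.sum_eq_zero]
    · exact bot_le
    · intro k hk
      rw [indicator_of_notMem (hex k hk)]
      simp

theorem core {C : ℝ≥0} (hC : ∀ (m : ℕ) (h : ℝ × ℝ → ℂ), 1 ≤ m → Bd h →
    (∀ ξ, h ξ ≠ 0 → 13 / 10 ≤ nr ξ ∧ nr ξ < 7 / 5 ∧ |ξ.2| ≤ ξ.1 / 5) →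
    ∫⁻ x, (⨆ k ∈ Finset.range (4 ^ m), ‖Ex ((ann 1 (1 + k / 4 ^ m)).indicator h) x‖ₑ) ^ 2 ≤
      C * ((lg m : ℕ) : ℝ≥0∞) ^ 12 * n2 h) {m : ℕ} (hm : 1 ≤ m) {lam : ℝ} (h0 : 0 < lam)
    (h2 : lam ≤ 2) {g : ℝ × ℝ → ℂ} (hg : Bd g)
    (hs : ∀ ξ, g ξ ≠ 0 → 13 / 10 ≤ nr ξ ∧ nr ξ < 7 / 5 ∧ |ξ.2| ≤ ξ.1 / 5) :
    ∫⁻ x, (⨆ k ∈ Finset.range (2 ^ m), ‖Ex ((ann 1 (rR m lam k)).indicator g) x‖ₑ) ^ 2 ≤
      (4 * (C * ((lg m : ℕ) : ℝ≥0∞) ^ 12) + 4) * n2 g := by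
  set A : ℝ × ℝ → ℝ≥0∞ := fun x =>
    ⨆ k' ∈ Finset.range (4 ^ m), ‖Ex ((ann 1 (1 + (k' : ℝ) / 4 ^ m)).indicator g) x‖ₑ with hA
  set b : ℕ → ℝ × ℝ → ℝ≥0∞ := fun k x =>
    ‖Ex ((ann (rr m lam k) (rR m lam k)).indicator g) x‖ₑ with hb
  have hAm : Measurable A := Measurable.iSup fun k => Measurable.iSup fun _ =>
    (measurable_Ex (hg.1.indicator (measurable_ann _ _))).enorm
  have hpt : ∀ x, (⨆ k ∈ Finset.range (2 ^ m), ‖Ex ((ann 1 (rR m lam k)).indicator g) x‖ₑ) ^ 2 ≤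
      4 * A x ^ 2 + 4 * ∑ k ∈ Finset.range (2 ^ m), b k x ^ 2 := by
    intro x
    refine sup_sq fun k hk => ?_
    calc ‖Ex ((ann 1 (rR m lam k)).indicator g) x‖ₑ ^ 2 ≤ (A x + b k x) ^ 2 :=
          pow_le_pow_left' (claim1 hm hg (fun ξ hξ => ⟨(hs ξ hξ).1, (hs ξ hξ).2.1⟩) k x) 2
      _ ≤ 4 * A x ^ 2 + 4 * b k x ^ 2 := sq_add _ _
      _ ≤ _ := add_le_add le_rfl (mul_le_mul' le_rfl
          (Finset.single_le_sum (f := fun k => b k x ^ 2) (fun _ _ => bot_le) hk))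
  refine (lintegral_mono hpt).trans ?_
  rw [lintegral_add_left ((hAm.pow_const 2).const_mul 4), lintegral_const_mul 4 (hAm.pow_const 2)]
  have hsm : Measurable fun x => ∑ k ∈ Finset.range (2 ^ m), b k x ^ 2 :=
    Finset.measurable_fun_sum _ fun k _ =>
      (measurable_Ex (hg.1.indicator (measurable_ann _ _))).enorm.pow_const 2
  rw [lintegral_const_mul 4 hsm]
  calc 4 * (∫⁻ x, A x ^ 2) + 4 * (∫⁻ x, ∑ k ∈ Finset.range (2 ^ m), b k x ^ 2) ≤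
        4 * (C * ((lg m : ℕ) : ℝ≥0∞) ^ 12 * n2 g) + 4 * n2 g :=
        add_le_add (mul_le_mul' le_rfl (hC m g hm hg hs))
          (mul_le_mul' le_rfl (claim2 hm h0 h2 hg))
    _ = _ := by ring

/-! ### Dilation -/

theorem dil {C : ℝ≥0} (hC : ∀ (m : ℕ) (h : ℝ × ℝ → ℂ), 1 ≤ m → Bd h →
    (∀ ξ, h ξ ≠ 0 → 13 / 10 ≤ nr ξ ∧ nr ξ < 7 / 5 ∧ |ξ.2| ≤ ξ.1 / 5) →
    ∫⁻ x, (⨆ k ∈ Finset.range (4 ^ m), ‖Ex ((ann 1 (1 + k / 4 ^ m)).indicator h) x‖ₑ) ^ 2 ≤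
      C * ((lg m : ℕ) : ℝ≥0∞) ^ 12 * n2 h) {m : ℕ} (hm : 1 ≤ m) {lam : ℝ} (h0 : 0 < lam)
    (h2 : lam ≤ 2) (h1 : 1 ≤ lam * (13 / 10)) :
    Es m (4 * (C * ((lg m : ℕ) : ℝ≥0∞) ^ 12) + 4)
      {ξ | lam * (13 / 10) ≤ nr ξ ∧ nr ξ < lam * (7 / 5) ∧ |ξ.2| ≤ ξ.1 / 5} := by
  intro h hh hs
  set g : ℝ × ℝ → ℂ := fun z => h (lam • z) with hgdef
  have hnr : ∀ z : ℝ × ℝ, nr (lam • z) = lam * nr z := fun z =>
    Pool.Agent.KSP.KE_.nr_smul lam h0 z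
  have hg : Bd g := by
    obtain ⟨a1, ⟨B, a2⟩, R, a3⟩ := hh
    refine ⟨a1.comp (measurable_const_smul lam), ⟨B, fun ξ => a2 _⟩, R / lam, fun ξ hξ => ?_⟩
    obtain ⟨a4, a5⟩ := a3 _ hξ
    simp only [Prod.smul_fst, Prod.smul_snd, smul_eq_mul, abs_mul, abs_of_pos h0] at a4 a5
    constructor
    · rw [le_div_iff₀ h0]; linarith
    · rw [le_div_iff₀ h0]; linarith
  have hgs : ∀ ξ, g ξ ≠ 0 → 13 / 10 ≤ nr ξ ∧ nr ξ < 7 / 5 ∧ |ξ.2| ≤ ξ.1 / 5 := by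
    intro ξ hξ
    obtain ⟨a1, a2, a3⟩ := hs _ hξ
    rw [hnr] at a1 a2
    refine ⟨le_of_mul_le_mul_left a1 h0, lt_of_mul_lt_mul_left a2 h0.le, ?_⟩
    simp only [Prod.smul_fst, Prod.smul_snd, smul_eq_mul, abs_mul, abs_of_pos h0] at a3
    refine le_of_mul_le_mul_left ?_ h0
    linarith
  have hEx : ∀ (k : ℕ) (x : ℝ × ℝ), ‖Ex ((ann 1 (1 + (k : ℝ) / 2 ^ m)).indicator h) x‖ₑ =
      ENNReal.ofReal (lam ^ 2) * ‖Ex ((ann 1 (rR m lam k)).indicator g) (lam • x)‖ₑ := by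
    intro k x
    have e1 : Ex ((ann 1 (1 + (k : ℝ) / 2 ^ m)).indicator h) x =
        ((lam ^ 2 : ℝ) : ℂ) * Ex ((ann 1 (rR m lam k)).indicator g) (lam • x) := by
      unfold Ex
      rw [Pool.Agent.KSP.KE_.int_smul _ h0, Complex.real_smul]
      congr 1
      refine integral_congr_ae (Filter.Eventually.of_forall fun z => ?_)
      simp only
      rw [Pool.Agent.KSP.KE_.dot_smul]
      congr 1
      by_cases hz : h (lam • z) = 0
      · have e2 : (ann 1 (1 + (k : ℝ) / 2 ^ m)).indicator h (lam • z) = 0 := by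
          by_cases h3 : lam • z ∈ ann 1 (1 + (k : ℝ) / 2 ^ m)
          · rw [indicator_of_mem h3, hz]
          · rw [indicator_of_notMem h3]
        have e3 : (ann 1 (rR m lam k)).indicator g z = 0 := by
          by_cases h3 : z ∈ ann 1 (rR m lam k)
          · rw [indicator_of_mem h3]; exact hz
          · rw [indicator_of_notMem h3]
        rw [e2, e3]
      · obtain ⟨a1, a2, a3⟩ := hgs z hz
        have hiff : lam • z ∈ ann 1 (1 + (k : ℝ) / 2 ^ m) ↔ z ∈ ann 1 (rR m lam k) := by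
          unfold ann rR
          simp only [mem_ofPred_eq, hnr]
          rw [lt_div_iff₀ h0, mul_comm (nr z) lam]
          constructor
          · rintro ⟨-, b2⟩
            exact ⟨by linarith, b2⟩
          · rintro ⟨-, b2⟩
            exact ⟨h1.trans (mul_le_mul_of_nonneg_left a1 h0.le), b2⟩
        by_cases h3 : z ∈ ann 1 (rR m lam k)
        · rw [indicator_of_mem (hiff.2 h3), indicator_of_mem h3]
        · rw [indicator_of_notMem fun h4 => h3 (hiff.1 h4), indicator_of_notMem h3]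
    rw [e1, enorm_mul]
    congr 1
    rw [← ofReal_norm, Complex.norm_real, Real.norm_eq_abs, abs_of_nonneg (by positivity)]
  set G : ℝ × ℝ → ℝ≥0∞ := fun y =>
    (⨆ k ∈ Finset.range (2 ^ m), ‖Ex ((ann 1 (rR m lam k)).indicator g) y‖ₑ) ^ 2 with hG
  have hM : ∀ x, M m h x ^ 2 = ENNReal.ofReal (lam ^ 2) ^ 2 * G (lam • x) := by
    intro x
    rw [hG]
    simp only
    rw [← mul_pow]
    congr 1
    unfold M
    rw [ENNReal.mul_iSup]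
    refine iSup_congr fun k => ?_
    rw [ENNReal.mul_iSup]
    refine iSup_congr fun _ => ?_
    exact hEx k x
  have hc1 : ENNReal.ofReal (lam ^ 2) * ENNReal.ofReal ((lam ^ 2)⁻¹) = 1 := by
    rw [← ENNReal.ofReal_mul (by positivity), mul_inv_cancel₀ (by positivity), ENNReal.ofReal_one]
  have hn2 : n2 g = ENNReal.ofReal ((lam ^ 2)⁻¹) * n2 h := by
    unfold n2
    exact Pool.Agent.KSP.KE_.lint_smul (fun ξ => ‖h ξ‖ₑ ^ 2) h0
  have hGm : Measurable G := by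
    refine Measurable.pow_const ?_ 2
    exact Measurable.iSup fun k => Measurable.iSup fun _ =>
      (measurable_Ex (hg.1.indicator (measurable_ann _ _))).enorm
  have hGc : Measurable fun x : ℝ × ℝ => G (lam • x) := hGm.comp (measurable_const_smul lam)
  calc ∫⁻ x, M m h x ^ 2 = ∫⁻ x, ENNReal.ofReal (lam ^ 2) ^ 2 * G (lam • x) :=
        lintegral_congr hM
    _ = ENNReal.ofReal (lam ^ 2) ^ 2 * (ENNReal.ofReal ((lam ^ 2)⁻¹) * ∫⁻ x, G x) := by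
        rw [lintegral_const_mul _ hGc, Pool.Agent.KSP.KE_.lint_smul G h0]
    _ ≤ ENNReal.ofReal (lam ^ 2) ^ 2 * (ENNReal.ofReal ((lam ^ 2)⁻¹) *
          ((4 * (C * ((lg m : ℕ) : ℝ≥0∞) ^ 12) + 4) * n2 g)) :=
        mul_le_mul' le_rfl (mul_le_mul' le_rfl (core hC hm h0 h2 hg hgs))
    _ = (ENNReal.ofReal (lam ^ 2) * ENNReal.ofReal ((lam ^ 2)⁻¹)) ^ 2 *
          ((4 * (C * ((lg m : ℕ) : ℝ≥0∞) ^ 12) + 4) * n2 h) := by
        rw [hn2]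
        ring
    _ = _ := by rw [hc1, one_pow, one_mul]

/-! ### Assembly -/

/-- the radial pieces -/
def rad (i : ℕ) : Set (ℝ × ℝ) :=
  {ξ | (14 / 13 : ℝ) ^ i ≤ nr ξ ∧ nr ξ < (14 / 13 : ℝ) ^ (i + 1) ∧ |ξ.2| ≤ ξ.1 / 5}

theorem rad_meas (i : ℕ) : MeasurableSet (rad i) :=
  (measurableSet_le measurable_const measurable_nr).inter
    ((measurableSet_lt measurable_nr measurable_const).inter
      (measurableSet_le measurable_snd.abs (measurable_fst.div_const 5)))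

theorem find (r : ℝ) (hr : 1 ≤ r) : ∀ n : ℕ, r < (14 / 13 : ℝ) ^ n →
    ∃ i < n, (14 / 13 : ℝ) ^ i ≤ r ∧ r < (14 / 13 : ℝ) ^ (i + 1) := by
  intro n
  induction n with
  | zero => intro h; rw [pow_zero] at h; exact absurd h (not_lt.2 hr)
  | succ n ih =>
    intro h
    rcases lt_or_ge r ((14 / 13 : ℝ) ^ n) with h1 | h1
    · obtain ⟨i, hi, h2⟩ := ih h1
      exact ⟨i, by omega, h2⟩
    · exact ⟨n, by omega, h1, h⟩

/-- the sectors -/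
def sec (t : ℝ) : Set (ℝ × ℝ) :=
  {ξ | 1 ≤ nr ξ ∧ nr ξ < 2 ∧ |dot ξ (tv t)| ≤ dot ξ (nv t) / 5}

theorem sec_meas (t : ℝ) : MeasurableSet (sec t) := by
  have h1 : Measurable fun ξ : ℝ × ℝ => dot ξ (tv t) := by unfold dot; fun_prop
  have h2 : Measurable fun ξ : ℝ × ℝ => dot ξ (nv t) := by unfold dot; fun_prop
  exact (measurableSet_le measurable_const measurable_nr).inter
    ((measurableSet_lt measurable_nr measurable_const).inter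
      (measurableSet_le h1.abs (h2.div_const 5)))

theorem dot_FF (t : ℝ) (P Q : ℝ × ℝ) : dot (F t P) (F t Q) = dot P Q := by
  rw [dot_frame t (F t P) (F t Q), dot_F1, dot_F1, dot_F2, dot_F2]
  rfl

theorem mem_sec {t : ℝ} {ξ : ℝ × ℝ} (h1 : 1 ≤ nr ξ) (h2 : nr ξ < 2)
    (h3 : |ξ.2 - t * ξ.1| ≤ (ξ.1 + t * ξ.2) / 5) : ξ ∈ sec t := by
  refine ⟨h1, h2, ?_⟩
  have h0 := Nn_pos t
  have e1 : dot ξ (tv t) = (ξ.2 - t * ξ.1) / Nn t := by
    unfold dot tv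
    simp only
    ring
  have e2 : dot ξ (nv t) / 5 = (ξ.1 + t * ξ.2) / 5 / Nn t := by
    unfold dot nv
    simp only
    ring
  rw [e1, e2, abs_div, abs_of_pos h0]
  exact div_le_div_of_nonneg_right h3 h0.le

theorem V0_cover {ξ : ℝ × ℝ} (hξ : ξ ∈ V0) : ∃ i < 5, ξ ∈ sec ((2 * (i : ℕ) - 4 : ℝ) / 5) := by
  obtain ⟨h1, h2, h3⟩ := hξ
  obtain ⟨h4, h5⟩ := abs_le.1 h1
  rcases le_or_gt ξ.2 (-(3 / 5) * ξ.1) with a | a
  · refine ⟨0, by norm_num, mem_sec h2 h3 (abs_le.2 ⟨?_, ?_⟩)⟩ <;> push_cast <;> linarith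
  rcases le_or_gt ξ.2 (-(1 / 5) * ξ.1) with b | b
  · refine ⟨1, by norm_num, mem_sec h2 h3 (abs_le.2 ⟨?_, ?_⟩)⟩ <;> push_cast <;> linarith
  rcases le_or_gt ξ.2 (1 / 5 * ξ.1) with c | c
  · refine ⟨2, by norm_num, mem_sec h2 h3 (abs_le.2 ⟨?_, ?_⟩)⟩ <;> push_cast <;> linarith
  rcases le_or_gt ξ.2 (3 / 5 * ξ.1) with d | d
  · refine ⟨3, by norm_num, mem_sec h2 h3 (abs_le.2 ⟨?_, ?_⟩)⟩ <;> push_cast <;> linarith
  · refine ⟨4, by norm_num, mem_sec h2 h3 (abs_le.2 ⟨?_, ?_⟩)⟩ <;> push_cast <;> linarith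

/-- the four quadrants -/
def Vq1 : Set (ℝ × ℝ) := {ξ | |ξ.1| ≤ ξ.2 ∧ 1 ≤ nr ξ ∧ nr ξ < 2}
def Vq2 : Set (ℝ × ℝ) := {ξ | |ξ.2| ≤ -ξ.1 ∧ 1 ≤ nr ξ ∧ nr ξ < 2}
def Vq3 : Set (ℝ × ℝ) := {ξ | |ξ.1| ≤ -ξ.2 ∧ 1 ≤ nr ξ ∧ nr ξ < 2}

theorem V0_meas : MeasurableSet V0 :=
  (measurableSet_le measurable_snd.abs measurable_fst).inter
    ((measurableSet_le measurable_const measurable_nr).inter
      (measurableSet_lt measurable_nr measurable_const))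

theorem Vq1_meas : MeasurableSet Vq1 :=
  (measurableSet_le measurable_fst.abs measurable_snd).inter
    ((measurableSet_le measurable_const measurable_nr).inter
      (measurableSet_lt measurable_nr measurable_const))

theorem Vq2_meas : MeasurableSet Vq2 :=
  (measurableSet_le measurable_snd.abs measurable_fst.neg).inter
    ((measurableSet_le measurable_const measurable_nr).inter
      (measurableSet_lt measurable_nr measurable_const))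

theorem rotE {m : ℕ} {K : ℝ≥0∞} {S S' : Set (ℝ × ℝ)}
    (hS : ∀ P, Pool.Agent.KSP.K_.E P ∈ S' → P ∈ S) (h : Es m K S) : Es m K S' :=
  h.rot Pool.Agent.KSP.K_.E Pool.Agent.KSP.K_.E_mp Pool.Agent.KSP.K_.E.measurableEmbedding
    Pool.Agent.KSP.K_.dot_E (fun _ hh => Pool.Agent.KSP.K_.Bd_E hh) hS

end KS_

open KS_ in
theorem pKS12 (h : tSV) : tKs 12 := by
  obtain ⟨C, hC⟩ := h
  refine ⟨10 ^ 30 * (C + 1), fun m g hm hg hs => ?_⟩
  set K : ℝ≥0∞ := 4 * (C * ((lg m : ℕ) : ℝ≥0∞) ^ 12) + 4 with hK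
  -- radial pieces
  have s1 : ∀ i < 10, Es m K (rad i) := by
    intro i hi
    have hp : (0 : ℝ) < (14 / 13) ^ i := by positivity
    have hle : (14 / 13 : ℝ) ^ i ≤ 2 := by
      calc (14 / 13 : ℝ) ^ i ≤ (14 / 13) ^ 9 := pow_le_pow_right₀ (by norm_num) (by omega)
        _ ≤ 2 := by norm_num
    have h1 : (1 : ℝ) ≤ (14 / 13) ^ i := one_le_pow₀ (by norm_num)
    refine (dil hC hm (lam := (14 / 13) ^ i * (10 / 13)) (by positivity) (by nlinarith)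
      (by linarith)).mono le_rfl ?_
    rintro ξ ⟨a1, a2, a3⟩
    refine ⟨by linarith, ?_, a3⟩
    rw [pow_succ] at a2
    linarith
  have s2 : Es m (8 ^ 10 * K) {ξ | 1 ≤ nr ξ ∧ nr ξ < 2 ∧ |ξ.2| ≤ ξ.1 / 5} := by
    refine (Es.iUnion rad_meas 10 s1).mono le_rfl ?_
    rintro ξ ⟨a1, a2, a3⟩
    obtain ⟨i, hi, b1, b2⟩ := find (nr ξ) a1 10 (a2.trans_le (by norm_num))
    exact ⟨i, hi, b1, b2, a3⟩
  -- sectors
  have s3 : ∀ t : ℝ, Es m (8 ^ 10 * K) (sec t) := by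
    intro t
    refine s2.rot (Pool.Agent.LLog.H21Frame_.F t) (Pool.Agent.LLog.H21Frame_.F_mp t)
      (Pool.Agent.LLog.H21Frame_.F_emb t) (dot_FF t)
      (fun _ hh => Pool.Agent.LLog.H21Frame_.bd_F hh t) ?_
    rintro P ⟨a1, a2, a3⟩
    rw [Pool.Agent.LLog.H21Frame_.dot_F1, Pool.Agent.LLog.H21Frame_.dot_F2] at a3
    rw [nr_dot, dot_FF, ← nr_dot] at a1 a2
    exact ⟨a1, a2, a3⟩
  have s4 : Es m (8 ^ 5 * (8 ^ 10 * K)) V0 := by
    refine (Es.iUnion (fun i : ℕ => sec_meas ((2 * (i : ℕ) - 4 : ℝ) / 5)) 5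
      (fun i _ => s3 _)).mono le_rfl ?_
    intro ξ hξ
    exact V0_cover hξ
  -- quadrants
  have q1 : Es m (8 ^ 5 * (8 ^ 10 * K)) Vq1 := by
    refine rotE ?_ s4
    rintro P ⟨a1, a2, a3⟩
    rw [Pool.Agent.KSP.K_.nr_E] at a2 a3
    rw [Pool.Agent.KSP.K_.E_apply] at a1
    simp only [abs_neg] at a1
    exact ⟨a1, a2, a3⟩
  have q2 : Es m (8 ^ 5 * (8 ^ 10 * K)) Vq2 := by
    refine rotE ?_ q1
    rintro P ⟨a1, a2, a3⟩
    rw [Pool.Agent.KSP.K_.nr_E] at a2 a3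
    rw [Pool.Agent.KSP.K_.E_apply] at a1
    simp only [neg_neg] at a1
    exact ⟨a1, a2, a3⟩
  have q3 : Es m (8 ^ 5 * (8 ^ 10 * K)) Vq3 := by
    refine rotE ?_ q2
    rintro P ⟨a1, a2, a3⟩
    rw [Pool.Agent.KSP.K_.nr_E] at a2 a3
    rw [Pool.Agent.KSP.K_.E_apply] at a1
    simp only [abs_neg] at a1
    exact ⟨a1, a2, a3⟩
  have fin := (s4.union V0_meas (q1.union Vq1_meas (q2.union Vq2_meas q3))) g hg ?_
  · change ∫⁻ x, Pool.Agent.KSP.K_.M m g x ^ 2 ≤ _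
    refine fin.trans (mul_le_mul' ?_ le_rfl)
    have hlg : (1 : ℝ≥0∞) ≤ ((lg m : ℕ) : ℝ≥0∞) ^ 12 := by
      refine one_le_pow₀ ?_
      have : 1 ≤ lg m := by unfold lg; omega
      exact_mod_cast this
    have hK2 : K ≤ 4 * ((C + 1) * ((lg m : ℕ) : ℝ≥0∞) ^ 12) := by
      rw [hK]
      calc 4 * (C * ((lg m : ℕ) : ℝ≥0∞) ^ 12) + 4 =
            4 * (C * ((lg m : ℕ) : ℝ≥0∞) ^ 12) + 4 * 1 := by rw [mul_one]
        _ ≤ 4 * (C * ((lg m : ℕ) : ℝ≥0∞) ^ 12) + 4 * ((lg m : ℕ) : ℝ≥0∞) ^ 12 :=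
            add_le_add le_rfl (mul_le_mul' le_rfl hlg)
        _ = _ := by ring
    calc 4 * (8 ^ 5 * (8 ^ 10 * K)) + 4 * (4 * (8 ^ 5 * (8 ^ 10 * K)) +
          4 * (4 * (8 ^ 5 * (8 ^ 10 * K)) + 4 * (8 ^ 5 * (8 ^ 10 * K)))) =
          (148 * 8 ^ 15) * K := by ring
      _ ≤ (148 * 8 ^ 15) * (4 * ((C + 1) * ((lg m : ℕ) : ℝ≥0∞) ^ 12)) := mul_le_mul' le_rfl hK2
      _ = (148 * 8 ^ 15 * 4) * ((C + 1) * ((lg m : ℕ) : ℝ≥0∞) ^ 12) := by ring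
      _ ≤ (10 ^ 30) * ((C + 1) * ((lg m : ℕ) : ℝ≥0∞) ^ 12) := by
          refine mul_le_mul' ?_ le_rfl
          norm_num
      _ = _ := by push_cast; ring
  · intro ξ hξ
    obtain ⟨h1, h2⟩ := hs ξ hξ
    by_cases j0 : |ξ.2| ≤ ξ.1
    · exact Or.inl ⟨j0, h1, h2⟩
    by_cases j1 : |ξ.1| ≤ ξ.2
    · exact Or.inr (Or.inl ⟨j1, h1, h2⟩)
    by_cases j2 : |ξ.2| ≤ -ξ.1
    · exact Or.inr (Or.inr (Or.inl ⟨j2, h1, h2⟩))
    · refine Or.inr (Or.inr (Or.inr ⟨?_, h1, h2⟩))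
      rcases le_total 0 ξ.1 with p | p <;> rcases le_total 0 ξ.2 with q | q <;>
        simp only [abs_of_nonneg, abs_of_nonpos, p, q] at j0 j1 j2 ⊢ <;> linarith

end Pool.Agent.SLog
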