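import Pool.Agent.SLog.Targets
import Pool.Agent.KSP.Base
import Pool.Agent.KSP.Conv

set_option autoImplicit false

/-! MP_ee701d_an, strong bound: B5, Cordoba's `L⁴` estimate. -/

namespace Pool.Agent.SLog

open MeasureTheory Set
open scoped ENNReal NNReal ComplexConjugate
open Pool.Agent.KSP (ee dot nr Ex Bd n2 cv pCv pPl2)

namespace L4_

lemma bd_sum {ι : Type*} (s : Finset ι) (a : ι → ℝ × ℝ → ℂ) (ha : ∀ i ∈ s, Bd (a i)) :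
    Bd (fun x => ∑ i ∈ s, a i x) := by
  classical
  induction s using Finset.induction_on with
  | empty =>
    refine ⟨by simp, ⟨0, by simp⟩, 0, by simp⟩
  | insert i s hi ih =>
    obtain ⟨h1, ⟨B, hB⟩, R, hR⟩ := ih fun j hj => ha j (Finset.mem_insert_of_mem hj)
    obtain ⟨h1', ⟨B', hB'⟩, R', hR'⟩ := ha i (Finset.mem_insert_self i s)
    simp only [Finset.sum_insert hi]
    refine ⟨h1'.add h1, ⟨B' + B, fun ξ => (norm_add_le _ _).trans (add_le_add (hB' ξ) (hB ξ))⟩,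
      max R' R, fun ξ hξ => ?_⟩
    have hξ' : a i ξ + ∑ j ∈ s, a j ξ ≠ 0 := hξ
    by_cases h : a i ξ = 0
    · rw [h, zero_add] at hξ'
      exact ⟨(hR ξ hξ').1.trans (le_max_right _ _), (hR ξ hξ').2.trans (le_max_right _ _)⟩
    · exact ⟨(hR' ξ h).1.trans (le_max_left _ _), (hR' ξ h).2.trans (le_max_left _ _)⟩

lemma ex_int {h : ℝ × ℝ → ℂ} (hh : Bd h) (x : ℝ × ℝ) :
    Integrable (fun ξ => h ξ * ee (dot x ξ)) := by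
  have h1 := Pool.Agent.KSP.Conv_.Bd_int hh
  refine Integrable.mono h1 ?_ ?_
  · exact h1.aestronglyMeasurable.mul
      (Pool.Agent.KSP.Conv_.cont_ker x).aestronglyMeasurable
  · refine Filter.Eventually.of_forall fun ξ => ?_
    rw [norm_mul, Pool.Agent.KSP.Conv_.norm_ee, mul_one]

lemma ex_sum {ι : Type*} (S : Finset ι) (h : ι → ℝ × ℝ → ℂ) (hh : ∀ p ∈ S, Bd (h p))
    (x : ℝ × ℝ) : Ex (fun ξ => ∑ p ∈ S, h p ξ) x = ∑ p ∈ S, Ex (h p) x := by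
  unfold Ex
  rw [← integral_finsetSum _ fun p hp => ex_int (hh p hp) x]
  refine integral_congr_ae (Filter.Eventually.of_forall fun ξ => ?_)
  simp only
  rw [Finset.sum_mul]

/-- Cauchy-Schwarz over the nonvanishing terms -/
lemma cs {ι : Type*} (S : Finset ι) (z : ι → ℂ) (N : ℕ)
    (hN : (S.filter (fun i => z i ≠ 0)).card ≤ N) :
    ‖∑ i ∈ S, z i‖ₑ ^ 2 ≤ (N : ℝ≥0∞) * ∑ i ∈ S, ‖z i‖ₑ ^ 2 := by
  classical
  have e1 : ∑ i ∈ S, z i = ∑ i ∈ S.filter (fun i => z i ≠ 0), z i :=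
    (Finset.sum_filter_ne_zero S).symm
  have e2 : ‖∑ i ∈ S.filter (fun i => z i ≠ 0), z i‖ ^ 2 ≤
      (S.filter (fun i => z i ≠ 0)).card * ∑ i ∈ S.filter (fun i => z i ≠ 0), ‖z i‖ ^ 2 := by
    refine le_trans ?_ sq_sum_le_card_mul_sum_sq
    exact pow_le_pow_left₀ (norm_nonneg _) (norm_sum_le _ _) 2
  have e3 : (S.filter (fun i => z i ≠ 0)).card * ∑ i ∈ S.filter (fun i => z i ≠ 0), ‖z i‖ ^ 2 ≤
      (N : ℝ) * ∑ i ∈ S, ‖z i‖ ^ 2 := by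
    refine mul_le_mul (by exact_mod_cast hN) ?_ (Finset.sum_nonneg fun i _ => by positivity)
      (Nat.cast_nonneg N)
    exact Finset.sum_le_sum_of_subset_of_nonneg (Finset.filter_subset _ _)
      fun i _ _ => by positivity
  have e4 := ENNReal.ofReal_le_ofReal (e2.trans e3)
  rw [ENNReal.ofReal_mul (Nat.cast_nonneg N), ENNReal.ofReal_natCast,
    ENNReal.ofReal_sum_of_nonneg fun i _ => by positivity] at e4
  rw [e1, ← ofReal_norm, ← ENNReal.ofReal_pow (norm_nonneg _)]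
  refine e4.trans_eq ?_
  congr 1
  refine Finset.sum_congr rfl fun i _ => ?_
  rw [← ofReal_norm, ← ENNReal.ofReal_pow (norm_nonneg _)]

end L4_

open L4_ in
theorem pL4 (hC : tCNT) : tL4 := by
  classical
  obtain ⟨C, hC⟩ := hC
  refine ⟨C, ?_⟩
  intro a l c sg sl F k ha hl hs0 hs1 hl1 hl2 hF hk
  set G : ℕ × ℕ → ℝ × ℝ → ℂ := fun P => cv (k P.1) (k P.2) with hG
  have hGb : ∀ P ∈ F ×ˢ F, Bd (G P) := fun P hP =>
    (pCv _ _ (hk P.1 (Finset.mem_product.1 hP).1).1 (hk P.2 (Finset.mem_product.1 hP).2).1).1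
  have hGe : ∀ P ∈ F ×ˢ F, ∀ x, Ex (G P) x = Ex (k P.1) x * Ex (k P.2) x := fun P hP =>
    (pCv _ _ (hk P.1 (Finset.mem_product.1 hP).1).1 (hk P.2 (Finset.mem_product.1 hP).2).1).2.2
  have e1 : ∀ x, ‖∑ p ∈ F, Ex (k p) x‖ₑ ^ 4 =
      ‖Ex (fun ζ => ∑ P ∈ F ×ˢ F, G P ζ) x‖ₑ ^ 2 := by
    intro x
    have h1 : ∑ P ∈ F ×ˢ F, Ex (k P.1) x * Ex (k P.2) x =
        (∑ p ∈ F, Ex (k p) x) * ∑ p ∈ F, Ex (k p) x := by
      rw [Finset.sum_product, Finset.sum_mul_sum]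
    rw [ex_sum _ _ hGb, Finset.sum_congr rfl fun P hP => hGe P hP x, h1, enorm_mul]
    ring
  have e2 : ∫⁻ x, ‖∑ p ∈ F, Ex (k p) x‖ₑ ^ 4 = ∫⁻ ζ, ‖∑ P ∈ F ×ˢ F, G P ζ‖ₑ ^ 2 := by
    rw [lintegral_congr e1, (pPl2 _ (bd_sum _ _ hGb)).2]
    rfl
  have e3 : ∀ ζ, ‖∑ P ∈ F ×ˢ F, G P ζ‖ₑ ^ 2 ≤
      ((C * 2 ^ (16 * a) : ℕ) : ℝ≥0∞) * ∑ P ∈ F ×ˢ F, ‖G P ζ‖ₑ ^ 2 := by
    intro ζ
    refine cs _ _ _ (hC a l c sg sl ζ _ ha hl hs0 hs1 hl1 hl2 ?_)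
    intro P hP
    obtain ⟨hP1, hP2⟩ := Finset.mem_filter.1 hP
    obtain ⟨q1, q2⟩ := Finset.mem_product.1 hP1
    obtain ⟨η, g1, g2⟩ := (pCv _ _ (hk P.1 q1).1 (hk P.2 q2).1).2.1 ζ hP2
    exact ⟨hF q1, hF q2, η, (hk P.1 q1).2 η g1, (hk P.2 q2).2 _ g2⟩
  have hGm : ∀ P ∈ F ×ˢ F, Measurable fun ζ => ‖G P ζ‖ₑ ^ 2 := fun P hP =>
    ((hGb P hP).1.enorm).pow_const 2
  have hEm : ∀ p ∈ F, Measurable (Ex (k p)) := fun p hp => (pPl2 _ (hk p hp).1).1.measurable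
  calc ∫⁻ x, ‖∑ p ∈ F, Ex (k p) x‖ₑ ^ 4
      = ∫⁻ ζ, ‖∑ P ∈ F ×ˢ F, G P ζ‖ₑ ^ 2 := e2
    _ ≤ ∫⁻ ζ, ((C * 2 ^ (16 * a) : ℕ) : ℝ≥0∞) * ∑ P ∈ F ×ˢ F, ‖G P ζ‖ₑ ^ 2 := lintegral_mono e3
    _ = ((C * 2 ^ (16 * a) : ℕ) : ℝ≥0∞) * ∑ P ∈ F ×ˢ F, ∫⁻ ζ, ‖G P ζ‖ₑ ^ 2 := by
        rw [lintegral_const_mul' _ _ (ENNReal.natCast_ne_top _), lintegral_finsetSum' _
          fun P hP => (hGm P hP).aemeasurable]
    _ = ((C * 2 ^ (16 * a) : ℕ) : ℝ≥0∞) * ∑ P ∈ F ×ˢ F,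
          ∫⁻ x, ‖Ex (k P.1) x‖ₑ ^ 2 * ‖Ex (k P.2) x‖ₑ ^ 2 := by
        congr 1
        refine Finset.sum_congr rfl fun P hP => ?_
        have h1 := (pPl2 _ (hGb P hP)).2
        unfold n2 at h1
        rw [← h1]
        refine lintegral_congr fun x => ?_
        rw [hGe P hP x, enorm_mul, mul_pow]
    _ = ((C * 2 ^ (16 * a) : ℕ) : ℝ≥0∞) *
          ∫⁻ x, ∑ P ∈ F ×ˢ F, ‖Ex (k P.1) x‖ₑ ^ 2 * ‖Ex (k P.2) x‖ₑ ^ 2 := by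
        rw [lintegral_finsetSum' _ fun P hP => ?_]
        obtain ⟨q1, q2⟩ := Finset.mem_product.1 hP
        exact ((((hEm _ q1).enorm).pow_const 2).mul (((hEm _ q2).enorm).pow_const 2)).aemeasurable
    _ = (C : ℝ≥0) * 2 ^ (16 * a) * ∫⁻ x, (∑ p ∈ F, ‖Ex (k p) x‖ₑ ^ 2) ^ 2 := by
        congr 1
        · push_cast
          rfl
        · refine lintegral_congr fun x => ?_
          rw [sq, Finset.sum_mul_sum, Finset.sum_product]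

end Pool.Agent.SLog
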