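import Pool.Agent.SLog.Targets
import Pool.Agent.KSP.Base

/-! A12 (tLCP): local orthogonality of the sectors.  helper76 -/

set_option autoImplicit false

namespace Pool.Agent.SLog

open MeasureTheory Set
open scoped ENNReal NNReal ComplexConjugate
open Pool.Agent.KSP (ee dot nr Ex Ex1 Bd Bd1 n1 n2 lg V0 ann)
open Pool.Agent.LLog (PA cd cdr cp fr tp Nn nv tv Core bx sa sd Qx kc psi kap GK psR psA anf mu Bf hat)

namespace LCP_

/-- open neighbourhood of radius `r` in the sup norm -/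
def nbr (r : ℝ) (Y : Set (ℝ × ℝ)) : Set (ℝ × ℝ) :=
  {x | ∃ y ∈ Y, |y.1 - x.1| < r ∧ |y.2 - x.2| < r}

lemma nbr_open (r : ℝ) (Y : Set (ℝ × ℝ)) : IsOpen (nbr r Y) := by
  have h : nbr r Y = ⋃ y ∈ Y, {x : ℝ × ℝ | |y.1 - x.1| < r ∧ |y.2 - x.2| < r} := by
    ext x
    simp only [nbr, mem_ofPred_eq, mem_iUnion, exists_prop]
  rw [h]
  refine isOpen_biUnion (fun y _ => ?_)
  have h1 : Continuous (fun x : ℝ × ℝ => |y.1 - x.1|) := by fun_prop
  have h2 : Continuous (fun x : ℝ × ℝ => |y.2 - x.2|) := by fun_prop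
  exact (isOpen_lt h1 continuous_const).inter (isOpen_lt h2 continuous_const)

lemma nb_eq (a l : ℕ) (Y : Set (ℝ × ℝ)) : nb a l Y = nbr (2 ^ (l + 15 * a)) Y := rfl

lemma nbr_mono {r s : ℝ} (h : r ≤ s) (Y : Set (ℝ × ℝ)) : nbr r Y ⊆ nbr s Y := by
  rintro x ⟨y, hy, h1, h2⟩
  exact ⟨y, hy, h1.trans_le h, h2.trans_le h⟩

lemma pow_le {a l : ℕ} (ha : 20 ≤ a) :
    3 * (2 : ℝ) ^ (6 * a + (l + 8 * a + 3)) ≤ 2 ^ (l + 15 * a) := by
  have h : l + 15 * a = (6 * a + (l + 8 * a + 3)) + (a - 3) := by omega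
  rw [h, pow_add (2 : ℝ) (6 * a + (l + 8 * a + 3)) (a - 3), mul_comm]
  have h2 : (2 : ℝ) ^ 2 ≤ 2 ^ (a - 3) := pow_le_pow_right₀ (by norm_num) (by omega)
  have h3 : (3 : ℝ) ≤ 2 ^ (a - 3) := by norm_num at h2; linarith
  exact mul_le_mul_of_nonneg_left h3 (by positivity)

lemma bd_zero : Bd (fun _ : ℝ × ℝ => (0 : ℂ)) :=
  ⟨measurable_const, ⟨0, by simp⟩, ⟨0, by simp⟩⟩

end LCP_

open LCP_ in
theorem pLCP (hSCP : tSCP) (hGK : Pool.Agent.LLog.tGK) : tLCP := by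
  intro a m l n sl Y u hPA hlm hY hvol hu
  obtain ⟨ha, hma, ham⟩ := hPA
  have hm1 : 1 ≤ m := by
    have : 2 ^ 20 ≤ 2 ^ a := Nat.pow_le_pow_right (by norm_num) ha
    omega
  set r : ℝ := 2 ^ (6 * a + (l + 8 * a + 3)) with hr
  have hr0 : 0 < r := by positivity
  have h3r : 3 * r ≤ 2 ^ (l + 15 * a) := pow_le ha
  set Y' : Set (ℝ × ℝ) := nbr (2 * r) Y with hY'
  have hY'sub : Y' ⊆ nb a l Y := by
    rw [nb_eq]
    exact nbr_mono (by linarith) Y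
  have hY'm : MeasurableSet Y' := (nbr_open _ _).measurableSet
  have hY'v : volume Y' < ⊤ := (measure_mono hY'sub).trans_lt hvol
  have hnbm : MeasurableSet (nb a l Y) := by
    rw [nb_eq]
    exact (nbr_open _ _).measurableSet
  obtain ⟨hGm, hG1, hGlow, hGup, -⟩ := hGK a m (l + 8 * a + 3) Y' ⟨ha, hma, ham⟩ hY'm
  -- the family extended by zero
  set u' : ℕ → ℝ × ℝ → ℂ := fun p => if p < n then u p else fun _ => 0 with hu'
  have hu'eq : ∀ p, p < n → u' p = u p := by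
    intro p hp
    simp [hu', hp]
  have hS := hSCP a m (l + 8 * a) n sl Y' u' ⟨ha, hma, ham⟩ hY'm hY'v (by
    intro p
    by_cases hp : p < n
    · rw [hu'eq p hp]
      exact hu p hp
    · have h0 : u' p = fun _ => 0 := by simp [hu', hp]
      rw [h0]
      exact ⟨bd_zero, fun ξ hξ => absurd rfl hξ⟩)
  have hsum1 : ∀ x, ∑ p ∈ Finset.range n, Ex (u' p) x = ∑ p ∈ Finset.range n, Ex (u p) x := by
    intro x
    exact Finset.sum_congr rfl (fun p hp => by rw [hu'eq p (Finset.mem_range.mp hp)])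
  simp_rw [hsum1] at hS
  have hsum2 : ∑ p ∈ Finset.range n, ∫⁻ x, GK a m (l + 8 * a + 3) Y' x * ‖Ex (u' p) x‖ₑ ^ 2 =
      ∑ p ∈ Finset.range n, ∫⁻ x, GK a m (l + 8 * a + 3) Y' x * ‖Ex (u p) x‖ₑ ^ 2 :=
    Finset.sum_congr rfl (fun p hp => by rw [hu'eq p (Finset.mem_range.mp hp)])
  rw [hsum2] at hS
  -- lower bound
  have hL : ∫⁻ x in Y, ‖∑ p ∈ Finset.range n, Ex (u p) x‖ₑ ^ 2 ≤
      2 * ∫⁻ x, GK a m (l + 8 * a + 3) Y' x * ‖∑ p ∈ Finset.range n, Ex (u p) x‖ₑ ^ 2 := by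
    rw [← lintegral_indicator hY, ← lintegral_const_mul' _ _ (by norm_num)]
    refine lintegral_mono (fun x => ?_)
    by_cases hx : x ∈ Y
    · rw [indicator_of_mem hx]
      have h1 := hGlow x (fun y hy1 hy2 => by
        refine ⟨x, hx, ?_, ?_⟩
        · rw [abs_sub_comm]
          exact lt_of_le_of_lt hy1 (by rw [← hr]; linarith)
        · rw [abs_sub_comm]
          exact lt_of_le_of_lt hy2 (by rw [← hr]; linarith))
      calc ‖∑ p ∈ Finset.range n, Ex (u p) x‖ₑ ^ 2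
          = 1 * ‖∑ p ∈ Finset.range n, Ex (u p) x‖ₑ ^ 2 := (one_mul _).symm
        _ ≤ (2 * GK a m (l + 8 * a + 3) Y' x) * ‖∑ p ∈ Finset.range n, Ex (u p) x‖ₑ ^ 2 := by
            gcongr
        _ = 2 * (GK a m (l + 8 * a + 3) Y' x * ‖∑ p ∈ Finset.range n, Ex (u p) x‖ₑ ^ 2) := by
            rw [mul_assoc]
    · rw [indicator_of_notMem hx]
      exact zero_le
  -- upper bound
  have hU : ∀ p ∈ Finset.range n,
      ∫⁻ x, GK a m (l + 8 * a + 3) Y' x * ‖Ex (u p) x‖ₑ ^ 2 ≤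
        (∫⁻ x in nb a l Y, ‖Ex (u p) x‖ₑ ^ 2) + ENNReal.ofReal (2 / 2 ^ (40 * m)) * n2 (u p) := by
    intro p hp
    have hb := (hu p (Finset.mem_range.mp hp)).1
    obtain ⟨hcont, hPl⟩ := Pool.Agent.KSP.pPl2 (u p) hb
    have hmeas : Measurable (fun x => ‖Ex (u p) x‖ₑ ^ 2) := by
      have := hcont.measurable
      fun_prop
    rw [← hPl, ← lintegral_indicator hnbm, ← lintegral_const_mul _ hmeas,
      ← lintegral_add_left (hmeas.indicator hnbm)]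
    refine lintegral_mono (fun x => ?_)
    by_cases hx : x ∈ nb a l Y
    · rw [indicator_of_mem hx]
      calc GK a m (l + 8 * a + 3) Y' x * ‖Ex (u p) x‖ₑ ^ 2
          ≤ 1 * ‖Ex (u p) x‖ₑ ^ 2 := by
            gcongr
            exact hG1 x
        _ = ‖Ex (u p) x‖ₑ ^ 2 := one_mul _
        _ ≤ _ := le_self_add
    · rw [indicator_of_notMem hx, zero_add]
      have h1 := hGup x (fun y hy hyx => by
        obtain ⟨z, hz, hz1, hz2⟩ := hy
        apply hx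
        refine ⟨z, hz, ?_, ?_⟩
        · calc |z.1 - x.1| = |(z.1 - y.1) + (y.1 - x.1)| := by ring_nf
            _ ≤ |z.1 - y.1| + |y.1 - x.1| := abs_add_le _ _
            _ < 2 * r + r := add_lt_add_of_lt_of_le hz1 hyx.1
            _ ≤ 2 ^ (l + 15 * a) := by linarith
        · calc |z.2 - x.2| = |(z.2 - y.2) + (y.2 - x.2)| := by ring_nf
            _ ≤ |z.2 - y.2| + |y.2 - x.2| := abs_add_le _ _
            _ < 2 * r + r := add_lt_add_of_lt_of_le hz2 hyx.2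
            _ ≤ 2 ^ (l + 15 * a) := by linarith)
      gcongr
  have hconst : (2 : ℝ≥0∞) * ENNReal.ofReal (2 / 2 ^ (40 * m)) ≤ ENNReal.ofReal (1 / 2 ^ (38 * m)) := by
    rw [show (2 : ℝ≥0∞) = ENNReal.ofReal 2 by simp, ← ENNReal.ofReal_mul (by norm_num)]
    apply ENNReal.ofReal_le_ofReal
    have h1 : (2 : ℝ) ^ (40 * m) = 2 ^ (38 * m) * 2 ^ (2 * m) := by
      rw [← pow_add]
      congr 1
      ring
    have h2 : (4 : ℝ) ≤ 2 ^ (2 * m) := by
      calc (4 : ℝ) = 2 ^ 2 := by norm_num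
        _ ≤ 2 ^ (2 * m) := pow_le_pow_right₀ (by norm_num) (by omega)
    rw [h1, ← mul_div_assoc, div_le_div_iff₀ (by positivity) (by positivity)]
    nlinarith [pow_pos (show (0 : ℝ) < 2 by norm_num) (38 * m)]
  calc ∫⁻ x in Y, ‖∑ p ∈ Finset.range n, Ex (u p) x‖ₑ ^ 2
      ≤ 2 * ∫⁻ x, GK a m (l + 8 * a + 3) Y' x * ‖∑ p ∈ Finset.range n, Ex (u p) x‖ₑ ^ 2 := hL
    _ ≤ 2 * ∑ p ∈ Finset.range n, ∫⁻ x, GK a m (l + 8 * a + 3) Y' x * ‖Ex (u p) x‖ₑ ^ 2 := by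
        gcongr
    _ ≤ 2 * ∑ p ∈ Finset.range n, ((∫⁻ x in nb a l Y, ‖Ex (u p) x‖ₑ ^ 2) +
          ENNReal.ofReal (2 / 2 ^ (40 * m)) * n2 (u p)) := by
        gcongr with p hp
        exact hU p hp
    _ = 2 * (∑ p ∈ Finset.range n, ∫⁻ x in nb a l Y, ‖Ex (u p) x‖ₑ ^ 2) +
          2 * ENNReal.ofReal (2 / 2 ^ (40 * m)) * ∑ p ∈ Finset.range n, n2 (u p) := by
        rw [Finset.sum_add_distrib, mul_add, ← Finset.mul_sum, mul_assoc]
    _ ≤ _ := by gcongr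

end Pool.Agent.SLog
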