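import Pool.Agent.SLog.Targets

set_option autoImplicit false

/-! SLog LGT: light part. -/

namespace Pool.Agent.SLog

open MeasureTheory Set
open scoped ENNReal NNReal
open Pool.Agent.KSP (dot Ex Bd n2)
open Pool.Agent.LLog (PA tp nv tv bx Bf)

namespace LGT_

lemma nb_open (a l : ℕ) (Y : Set (ℝ × ℝ)) : IsOpen (nb a l Y) := by
  have h : nb a l Y = ⋃ y ∈ Y, {x : ℝ × ℝ | |y.1 - x.1| < 2 ^ (l + 15 * a) ∧
      |y.2 - x.2| < 2 ^ (l + 15 * a)} := by
    ext x
    simp only [nb, mem_ofPred_eq, mem_iUnion, exists_prop]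
  rw [h]
  refine isOpen_biUnion fun y _ => ?_
  have h1 : Continuous fun x : ℝ × ℝ => |y.1 - x.1| := by fun_prop
  have h2 : Continuous fun x : ℝ × ℝ => |y.2 - x.2| := by fun_prop
  exact (isOpen_lt h1 continuous_const).inter (isOpen_lt h2 continuous_const)

lemma bb_pos (a l : ℕ) : 0 < bb a l := by
  unfold bb
  positivity

lemma size {a m : ℕ} (h : PA a m) : 58 * a + 1 ≤ 40 * m ∧ a ≤ m ∧ 1 ≤ m := by
  obtain ⟨h1, -, h3⟩ := h
  obtain ⟨b, rfl⟩ : ∃ b, a = b + 2 := ⟨a - 2, by omega⟩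
  have h4 : b < 2 ^ b := Nat.lt_two_pow_self
  have h5 : 2 ^ (b + 2) = 4 * 2 ^ b := by ring
  omega

/-- comparison of the two boxes -/
lemma bx_mono (t A B A' B' : ℝ) (x : ℝ × ℝ) (hA : A ≤ A') (hB : B ≤ B') :
    bx t x A B ⊆ bx t x A' B' := fun _ hy => ⟨lt_of_lt_of_le hy.1 hA, lt_of_lt_of_le hy.2 hB⟩

lemma avK_le (hAVG : tAVG) (a l p : ℕ) (sl : ℝ) (g : ℝ × ℝ → ℝ≥0∞) (hg : Measurable g)
    (x : ℝ × ℝ) : avK a l sl p g x ≤
      ENNReal.ofReal (2 ^ (22 * a)) * avL a l sl 1 (l + 8 * a) p g x := by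
  have hL : 1 * Lg a l / 2 ^ (l + 8 * a) = 2 ^ (l + 18 * a) := by
    unfold Lg
    rw [div_eq_iff (by positivity), one_mul, ← pow_add]
    have h4 : (4 : ℝ) ^ l = 2 ^ (2 * l) := by
      rw [pow_mul]
      norm_num
    rw [h4, ← pow_add]
    congr 1
    ring
  have h1 : bx (tp sl (l + 8 * a) p) x (4 ^ l * 2 ^ (7 * a)) (2 ^ (l + 15 * a)) ⊆
      bx (tp sl (l + 8 * a) p) x (1 * Lg a l) (1 * Lg a l / 2 ^ (l + 8 * a)) := by
    apply bx_mono
    · unfold Lg
      rw [one_mul]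
      have : (2 : ℝ) ^ (7 * a) ≤ 2 ^ (26 * a) := pow_le_pow_right₀ (by norm_num) (by omega)
      gcongr
    · rw [hL]
      exact pow_le_pow_right₀ (by norm_num) (by omega)
  have h2 := (hAVG (tp sl (l + 8 * a) p) (4 ^ l * 2 ^ (7 * a)) (2 ^ (l + 15 * a)) g
    (by positivity) (by positivity) hg).2.2.2.2.1 (tp sl (l + 8 * a) p) (1 * Lg a l)
    (1 * Lg a l / 2 ^ (l + 8 * a)) x x (by unfold Lg; positivity) (by rw [hL]; positivity) h1
  have h3 : 1 * Lg a l * (1 * Lg a l / 2 ^ (l + 8 * a)) /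
      (4 ^ l * 2 ^ (7 * a) * 2 ^ (l + 15 * a)) = 2 ^ (22 * a) := by
    rw [hL]
    unfold Lg
    rw [div_eq_iff (by positivity)]
    have e1 : (2 : ℝ) ^ (26 * a) * 2 ^ (l + 18 * a) = 2 ^ (22 * a) * (2 ^ (7 * a) *
        2 ^ (l + 15 * a)) := by
      rw [← pow_add, ← pow_add, ← pow_add]
      congr 1
      ring
    linear_combination 4 ^ l * e1
  rw [h3] at h2
  exact h2

lemma real_step {s v u : ℝ} (hs : 0 ≤ s) (hv : 0 ≤ v) (hu : 0 < u)
    (h : s ^ 2 ≤ v * (5 * u * s + u ^ 2 * v)) : s ≤ 8 * u * v := by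
  by_contra h1
  push Not at h1
  have hv' : 0 ≤ u * v := by positivity
  have h2 : 8 * (u * v) * s ≤ s * s := by nlinarith
  have h3 : s * s ≤ 5 * (u * v) * s + (u * v) * (u * v) := by nlinarith
  have hs' : 0 < s := by nlinarith
  have h4 : (u * v) * (u * v) ≤ (u * v) * s := by nlinarith
  have h5 : 2 * (u * v) * s ≤ 0 := by nlinarith
  have h6 : u * v = 0 := by
    by_contra h0
    have : 0 < u * v := lt_of_le_of_ne hv' (Ne.symm h0)
    have : 0 < 2 * (u * v) * s := by positivity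
    linarith
  rw [h6] at h3
  nlinarith

end LGT_

open LGT_ in
/-- C4 light part -/
theorem pLGT (hPRG : tPRG) (hETP : tETP) (hETA : tETA) (hAVG : tAVG) (hFRQ : tFRQ) (hVB : tVB) :
    tLGT := by
  intro a m l c sg sl w Y hHP hc hw hw1 hY hnb hwY
  obtain ⟨hsz, ham, hm1⟩ := size hHP.1
  -- the cutoffs
  set τ : ℝ≥0 := Real.toNNReal (1 / 2 ^ (58 * a)) with hτ
  have hτ0 : 0 < τ := by
    rw [hτ, Real.toNNReal_pos]
    positivity
  have hGm : Measurable ((nb a l Y).indicator (1 : ℝ × ℝ → ℝ≥0∞)) :=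
    measurable_one.indicator (nb_open a l Y).measurableSet
  have hGi : ∫⁻ x, (nb a l Y).indicator (1 : ℝ × ℝ → ℝ≥0∞) x ≠ ⊤ := by
    rw [lintegral_indicator_one (nb_open a l Y).measurableSet]
    exact hnb.ne
  have hE : ∀ p, _ := fun p => hETP a m l (l + 8 * a) p sl τ _ (Hv a l sl Y p) hHP.1 hτ0 hGm hGi rfl
  have hT : ∀ p, _ := fun p => hETA m (tp sl (l + 8 * a) p) (bb a l) (2 ^ (l + 8 * a) * bb a l)
    (Hv a l sl Y p) hm1 (bb_pos a l) (mul_pos (by positivity) (bb_pos a l)) (hE p).1 (hE p).2.1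
  have hθm : ∀ p, Measurable fun x => 1 - eh a m sl l Y p x := fun p =>
    measurable_const.sub (hT p).1
  have hθ : ∀ p x, 0 ≤ 1 - eh a m sl l Y p x ∧ 1 - eh a m sl l Y p x ≤ 1 := by
    intro p x
    have := (hT p).2.1 x
    have e : eh a m sl l Y p x = et m (tp sl (l + 8 * a) p) (bb a l) (2 ^ (l + 8 * a) * bb a l)
      (Hv a l sl Y p) x := rfl
    rw [e]
    constructor <;> linarith [this.1, this.2]
  -- pointwise bound
  have hK : ∀ p x, ENNReal.ofReal (1 - eh a m sl l Y p x) *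
      avK a l sl p ((nb a l Y).indicator 1) x ≤ ENNReal.ofReal (5 / 2 ^ (36 * a)) := by
    intro p x
    have h1 := avK_le hAVG a l p sl _ hGm x
    have h2 := (hE p).2.2.1 x
    have h3 : avL a l sl 1 (l + 8 * a) p ((nb a l Y).indicator 1) x ≤ 1 := by
      refine (hAVG _ _ _ _ ?_ ?_ hGm).2.2.2.1 x fun y => ?_
      · unfold Lg; positivity
      · unfold Lg; positivity
      · exact indicator_le_self' (fun _ _ => zero_le_one) y
    calc ENNReal.ofReal (1 - eh a m sl l Y p x) * avK a l sl p ((nb a l Y).indicator 1) x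
        ≤ ENNReal.ofReal (1 - eh a m sl l Y p x) * (ENNReal.ofReal (2 ^ (22 * a)) *
          avL a l sl 1 (l + 8 * a) p ((nb a l Y).indicator 1) x) := by gcongr
      _ = ENNReal.ofReal (2 ^ (22 * a)) * (ENNReal.ofReal (1 - eh a m sl l Y p x) *
          avL a l sl 1 (l + 8 * a) p ((nb a l Y).indicator 1) x) := by ring
      _ ≤ ENNReal.ofReal (2 ^ (22 * a)) * (4 * τ + ENNReal.ofReal (2 / 2 ^ (40 * m)) *
          avL a l sl 1 (l + 8 * a) p ((nb a l Y).indicator 1) x) := by gcongr; exact h2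
      _ ≤ ENNReal.ofReal (2 ^ (22 * a)) * (4 * ENNReal.ofReal (1 / 2 ^ (58 * a)) +
          ENNReal.ofReal (1 / 2 ^ (58 * a)) * 1) := by
          have h4 : (2 : ℝ) / 2 ^ (40 * m) ≤ 1 / 2 ^ (58 * a) := by
            rw [div_le_div_iff₀ (by positivity) (by positivity), one_mul]
            calc (2 : ℝ) * 2 ^ (58 * a) = 2 ^ (58 * a + 1) := by ring
              _ ≤ 2 ^ (40 * m) := pow_le_pow_right₀ (by norm_num) hsz
          have h5 := ENNReal.ofReal_le_ofReal h4
          gcongr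
          exact le_of_eq rfl
      _ = ENNReal.ofReal (5 / 2 ^ (36 * a)) := by
          rw [mul_one, ← ENNReal.ofReal_ofNat 4, ← ENNReal.ofReal_mul (by norm_num),
            ← ENNReal.ofReal_add (by positivity) (by positivity),
            ← ENNReal.ofReal_mul (by positivity)]
          congr 1
          have e1 : (2 : ℝ) ^ (58 * a) = 2 ^ (22 * a) * 2 ^ (36 * a) := by
            rw [← pow_add]
            congr 1
            ring
          rw [e1]
          field_simp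
          norm_num
  -- the sums
  set S : ℝ≥0∞ := ∑ p ∈ PP a l, ∫⁻ x, ENNReal.ofReal ((1 - eh a m sl l Y p x) ^ 2) *
    VV a m sg sl l w c p x with hS
  set V : ℝ≥0∞ := volume {x | w x ≠ 0} with hV
  have hVt : V < ⊤ := hw.2.2
  have hvm : ∀ p ∈ PP a l, Measurable (VV a m sg sl l w c p) := by
    intro p hp
    have := ((hVB a m l sg sl w hHP hw).1 c hc p hp).1
    exact (this.measurable.enorm).pow_const 2
  have hSt : S < ⊤ := by
    have h1 := (hVB a m l sg sl w hHP hw).2.2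
    have h2 : S ≤ ∑ p ∈ PP a l, ∫⁻ x, VV a m sg sl l w c p x := by
      refine Finset.sum_le_sum fun p _ => lintegral_mono fun x => ?_
      have h3 : ENNReal.ofReal ((1 - eh a m sl l Y p x) ^ 2) ≤ 1 := by
        rw [ENNReal.ofReal_le_one]
        exact pow_le_one₀ (hθ p x).1 (hθ p x).2
      calc ENNReal.ofReal ((1 - eh a m sl l Y p x) ^ 2) * VV a m sg sl l w c p x
          ≤ 1 * VV a m sg sl l w c p x := by gcongr
        _ = VV a m sg sl l w c p x := one_mul _
    have h4 : ∑ p ∈ PP a l, ∫⁻ x, VV a m sg sl l w c p x ≤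
        ∑ c ∈ CC l, ∑ p ∈ PP a l, ∫⁻ x, VV a m sg sl l w c p x :=
      Finset.single_le_sum (f := fun c => ∑ p ∈ PP a l, ∫⁻ x, VV a m sg sl l w c p x)
        (fun _ _ => zero_le) hc
    have h5 : ∫⁻ x, ‖w x‖ₑ ^ 2 ≤ V := by
      have hms : MeasurableSet {x | w x ≠ 0} := hw.1 (measurableSet_singleton 0).compl
      rw [hV, ← lintegral_indicator_one hms]
      refine lintegral_mono fun x => ?_
      by_cases hx : w x = 0
      · simp [hx]
      · rw [indicator_of_mem (show x ∈ {x | w x ≠ 0} from hx)]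
        have : ‖w x‖ₑ ≤ 1 := by
          rw [← ofReal_norm, ENNReal.ofReal_le_one]
          exact hw1 x
        exact pow_le_one₀ zero_le this
    exact lt_of_le_of_lt (h2.trans (h4.trans (h1.trans h5))) hVt
  have hmain := hPRG a m l c sg sl w Y (fun p x => 1 - eh a m sl l Y p x) hHP hc hw hw1 hY hnb hwY
    (fun p hp => ⟨hθm p, hθ p, (hFRQ a m l c p sg sl w Y hHP hc hp hw hY hnb).2.2.2.1⟩)
  have hterm : ∑ p ∈ PP a l, ∫⁻ x, ENNReal.ofReal ((1 - eh a m sl l Y p x) ^ 4) *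
      VV a m sg sl l w c p x * avK a l sl p ((nb a l Y).indicator 1) x ≤
      ENNReal.ofReal (5 / 2 ^ (36 * a)) * S := by
    rw [hS, Finset.mul_sum]
    refine Finset.sum_le_sum fun p hp => ?_
    rw [← lintegral_const_mul]
    · refine lintegral_mono fun x => ?_
      have h1 : ENNReal.ofReal ((1 - eh a m sl l Y p x) ^ 4) ≤
          ENNReal.ofReal ((1 - eh a m sl l Y p x) ^ 2) * ENNReal.ofReal (1 - eh a m sl l Y p x) := by
        rw [← ENNReal.ofReal_mul (by positivity)]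
        apply ENNReal.ofReal_le_ofReal
        have h2 := (hθ p x).1
        have h3 := (hθ p x).2
        have h4 : (1 - eh a m sl l Y p x) ^ 2 ≤ 1 - eh a m sl l Y p x := by nlinarith
        calc (1 - eh a m sl l Y p x) ^ 4 =
            (1 - eh a m sl l Y p x) ^ 2 * (1 - eh a m sl l Y p x) ^ 2 := by ring
          _ ≤ (1 - eh a m sl l Y p x) ^ 2 * (1 - eh a m sl l Y p x) := by gcongr
      calc ENNReal.ofReal ((1 - eh a m sl l Y p x) ^ 4) * VV a m sg sl l w c p x *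
          avK a l sl p ((nb a l Y).indicator 1) x
          ≤ (ENNReal.ofReal ((1 - eh a m sl l Y p x) ^ 2) *
            ENNReal.ofReal (1 - eh a m sl l Y p x)) * VV a m sg sl l w c p x *
            avK a l sl p ((nb a l Y).indicator 1) x := by gcongr
        _ = (ENNReal.ofReal (1 - eh a m sl l Y p x) * avK a l sl p ((nb a l Y).indicator 1) x) *
            (ENNReal.ofReal ((1 - eh a m sl l Y p x) ^ 2) * VV a m sg sl l w c p x) := by ring
        _ ≤ ENNReal.ofReal (5 / 2 ^ (36 * a)) *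
            (ENNReal.ofReal ((1 - eh a m sl l Y p x) ^ 2) * VV a m sg sl l w c p x) := by
          gcongr
          exact hK p x
    · exact ((hθm p).pow_const 2).ennreal_ofReal.mul (hvm p hp)
  have hfin : S ^ 2 ≤ V * (2 ^ (18 * a) * (ENNReal.ofReal (5 / 2 ^ (36 * a)) * S) +
      ENNReal.ofReal (1 / 2 ^ (20 * m)) * V) := by
    refine hmain.trans ?_
    gcongr
  -- real numbers
  obtain ⟨s, hs0, hs⟩ : ∃ s : ℝ, 0 ≤ s ∧ S = ENNReal.ofReal s :=
    ⟨S.toReal, ENNReal.toReal_nonneg, (ENNReal.ofReal_toReal hSt.ne).symm⟩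
  obtain ⟨v, hv0, hv⟩ : ∃ v : ℝ, 0 ≤ v ∧ V = ENNReal.ofReal v :=
    ⟨V.toReal, ENNReal.toReal_nonneg, (ENNReal.ofReal_toReal hVt.ne).symm⟩
  rw [hs, hv] at hfin
  rw [hs, hv]
  have e2 : (2 : ℝ≥0∞) ^ (18 * a) = ENNReal.ofReal (2 ^ (18 * a)) := by
    rw [ENNReal.ofReal_pow (by norm_num), ENNReal.ofReal_ofNat]
  rw [e2, ← ENNReal.ofReal_pow hs0, ← ENNReal.ofReal_mul (by positivity),
    ← ENNReal.ofReal_mul (by positivity), ← ENNReal.ofReal_mul (by positivity),
    ← ENNReal.ofReal_add (by positivity) (by positivity), ← ENNReal.ofReal_mul hv0,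
    ENNReal.ofReal_le_ofReal_iff (by positivity)] at hfin
  rw [← ENNReal.ofReal_mul (by positivity)]
  apply ENNReal.ofReal_le_ofReal
  have hu0 : (0 : ℝ) < 1 / 2 ^ (10 * a) := by positivity
  have hu := real_step (u := 1 / 2 ^ (10 * a)) hs0 hv0 hu0 (hfin.trans (by
    have e3 : (2 : ℝ) ^ (18 * a) * (5 / 2 ^ (36 * a) * s) = 5 * (1 / 2 ^ (18 * a)) * s := by
      have : (2 : ℝ) ^ (36 * a) = 2 ^ (18 * a) * 2 ^ (18 * a) := by
        rw [← pow_add]
        congr 1
        ring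
      rw [this]
      field_simp
    have e4 : (1 : ℝ) / 2 ^ (18 * a) ≤ 1 / 2 ^ (10 * a) := by
      apply one_div_le_one_div_of_le (by positivity)
      exact pow_le_pow_right₀ (by norm_num) (by omega)
    have e5 : (1 : ℝ) / 2 ^ (20 * m) ≤ (1 / 2 ^ (10 * a)) ^ 2 := by
      rw [div_pow, one_pow, ← pow_mul]
      apply one_div_le_one_div_of_le (by positivity)
      exact pow_le_pow_right₀ (by norm_num) (by omega)
    rw [e3]
    gcongr))
  calc s ≤ 8 * (1 / 2 ^ (10 * a)) * v := hu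
    _ = 8 / 2 ^ (10 * a) * v := by ring

end Pool.Agent.SLog
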