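import Pool.Agent.SLog.Targets

set_option autoImplicit false

/-! MAI: the main part of the dual function. -/

namespace Pool.Agent.SLog

open MeasureTheory Set
open scoped ENNReal NNReal ComplexConjugate
open Pool.Agent.KSP (ee dot nr Ex Ex1 Bd Bd1 n1 n2 lg V0 ann sq)
open Pool.Agent.LLog (PA cd cdr cp fr tp Nn nv tv Core bx sa sd Qx kc psi kap GK psR psA anf mu Bf hat)

namespace MAI_

theorem tele (n : ℕ) (e : ℕ → ℝ) :
    1 - ∏ i ∈ Finset.range n, (1 - e i) =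
      ∑ i ∈ Finset.range n, e i * ∏ i' ∈ Finset.range i, (1 - e i') := by
  induction n with
  | zero => simp
  | succ n ih =>
    rw [Finset.prod_range_succ, Finset.sum_range_succ, ← ih]
    ring

/-- coefficient of the direction number `b` of level `i` -/
noncomputable def Co (e : ℕ → ℕ → ℝ) (i b : ℕ) : ℝ :=
  e i b * ∏ i' ∈ Finset.range i, (1 - e i' (b / 2 ^ (i - i')))

theorem Co_mem (e : ℕ → ℕ → ℝ) (he : ∀ i b, 0 ≤ e i b ∧ e i b ≤ 1) (i b : ℕ) :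
    0 ≤ Co e i b ∧ Co e i b ≤ e i b := by
  have h1 : 0 ≤ ∏ i' ∈ Finset.range i, (1 - e i' (b / 2 ^ (i - i'))) :=
    Finset.prod_nonneg fun i' _ => by linarith [(he i' (b / 2 ^ (i - i'))).2]
  have h2 : ∏ i' ∈ Finset.range i, (1 - e i' (b / 2 ^ (i - i'))) ≤ 1 :=
    Finset.prod_le_one (fun i' _ => by linarith [(he i' (b / 2 ^ (i - i'))).2])
      (fun i' _ => by linarith [(he i' (b / 2 ^ (i - i'))).1])
  have h3 := (he i b).1
  unfold Co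
  exact ⟨mul_nonneg h3 h1, by nlinarith⟩

theorem regroup (J : ℕ) (e : ℕ → ℕ → ℝ) (f : ℕ → ℂ) :
    ∑ p ∈ Finset.range (3 * 2 ^ J),
      ((1 - ∏ i ∈ Finset.range (J + 1), (1 - e i (p / 2 ^ (J - i))) : ℝ) : ℂ) * f p =
    ∑ i ∈ Finset.range (J + 1), ∑ b ∈ Finset.range (3 * 2 ^ i), (Co e i b : ℂ) *
      ∑ p ∈ (Finset.range (3 * 2 ^ J)).filter (fun p => p / 2 ^ (J - i) = b), f p := by
  have h1 : ∀ p, ((1 - ∏ i ∈ Finset.range (J + 1), (1 - e i (p / 2 ^ (J - i))) : ℝ) : ℂ) * f p =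
      ∑ i ∈ Finset.range (J + 1), (Co e i (p / 2 ^ (J - i)) : ℂ) * f p := by
    intro p
    rw [tele, Complex.ofReal_sum, Finset.sum_mul]
    refine Finset.sum_congr rfl fun i hi => ?_
    congr 2
    unfold Co
    congr 1
    refine Finset.prod_congr rfl fun i' hi' => ?_
    rw [Finset.mem_range] at hi hi'
    rw [Nat.div_div_eq_div_mul, ← pow_add]
    congr 4
    omega
  rw [Finset.sum_congr rfl fun p _ => h1 p, Finset.sum_comm]
  refine Finset.sum_congr rfl fun i hi => ?_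
  rw [Finset.mem_range] at hi
  have hmaps : ∀ p ∈ Finset.range (3 * 2 ^ J), p / 2 ^ (J - i) ∈ Finset.range (3 * 2 ^ i) := by
    intro p hp
    rw [Finset.mem_range] at hp ⊢
    rw [Nat.div_lt_iff_lt_mul (by positivity), mul_assoc, ← pow_add]
    have : i + (J - i) = J := by omega
    rw [this]
    exact hp
  rw [← Finset.sum_fiberwise_of_maps_to hmaps]
  refine Finset.sum_congr rfl fun b _ => ?_
  rw [Finset.mul_sum]
  refine Finset.sum_congr rfl fun p hp => ?_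
  rw [(Finset.mem_filter.1 hp).2]

theorem holder_real {ι : Type*} (K : Finset ι) (a w : ι → ℝ)
    (ha : ∀ k ∈ K, 0 ≤ a k ∧ a k ≤ 1) :
    (∑ k ∈ K, a k * w k) ^ 4 ≤ (∑ k ∈ K, a k) ^ 3 * ∑ k ∈ K, w k ^ 4 := by
  have hA : 0 ≤ ∑ k ∈ K, a k := Finset.sum_nonneg fun k hk => (ha k hk).1
  have h1 : (∑ k ∈ K, a k * w k) ^ 2 ≤ (∑ k ∈ K, a k) * ∑ k ∈ K, a k * w k ^ 2 :=
    Finset.sum_sq_le_sum_mul_sum_of_sq_le_mul K (fun k hk => (ha k hk).1)
      (fun k hk => mul_nonneg (ha k hk).1 (sq_nonneg _)) (fun k _ => le_of_eq (by ring))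
  have h2 : (∑ k ∈ K, a k * w k ^ 2) ^ 2 ≤ (∑ k ∈ K, a k) * ∑ k ∈ K, a k * w k ^ 4 :=
    Finset.sum_sq_le_sum_mul_sum_of_sq_le_mul K (fun k hk => (ha k hk).1)
      (fun k hk => mul_nonneg (ha k hk).1 (by positivity)) (fun k _ => le_of_eq (by ring))
  have h3 : ∑ k ∈ K, a k * w k ^ 4 ≤ ∑ k ∈ K, w k ^ 4 :=
    Finset.sum_le_sum fun k hk => by
      have h5 : 0 ≤ w k ^ 4 := by positivity
      nlinarith [(ha k hk).2, (ha k hk).1]
  calc (∑ k ∈ K, a k * w k) ^ 4 = ((∑ k ∈ K, a k * w k) ^ 2) ^ 2 := by ring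
    _ ≤ ((∑ k ∈ K, a k) * ∑ k ∈ K, a k * w k ^ 2) ^ 2 :=
        pow_le_pow_left₀ (sq_nonneg _) h1 2
    _ = (∑ k ∈ K, a k) ^ 2 * (∑ k ∈ K, a k * w k ^ 2) ^ 2 := by ring
    _ ≤ (∑ k ∈ K, a k) ^ 2 * ((∑ k ∈ K, a k) * ∑ k ∈ K, a k * w k ^ 4) :=
        mul_le_mul_of_nonneg_left h2 (sq_nonneg _)
    _ = (∑ k ∈ K, a k) ^ 3 * ∑ k ∈ K, a k * w k ^ 4 := by ring
    _ ≤ (∑ k ∈ K, a k) ^ 3 * ∑ k ∈ K, w k ^ 4 :=
        mul_le_mul_of_nonneg_left h3 (by positivity)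

theorem holder4 {ι : Type*} (K : Finset ι) (a : ι → ℝ) (W : ι → ℂ)
    (ha : ∀ k ∈ K, 0 ≤ a k ∧ a k ≤ 1) :
    ‖∑ k ∈ K, (a k : ℂ) * W k‖ₑ ^ 4 ≤
      (∑ k ∈ K, ENNReal.ofReal (a k)) ^ 3 * ∑ k ∈ K, ‖W k‖ₑ ^ 4 := by
  have h1 : ‖∑ k ∈ K, (a k : ℂ) * W k‖ ≤ ∑ k ∈ K, a k * ‖W k‖ := by
    refine (norm_sum_le _ _).trans (Finset.sum_le_sum fun k hk => ?_)
    rw [norm_mul, Complex.norm_real, Real.norm_of_nonneg (ha k hk).1]
  have h2 : ‖∑ k ∈ K, (a k : ℂ) * W k‖ ^ 4 ≤ (∑ k ∈ K, a k) ^ 3 * ∑ k ∈ K, ‖W k‖ ^ 4 :=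
    (pow_le_pow_left₀ (norm_nonneg _) h1 4).trans
      (holder_real K a (fun k => ‖W k‖) ha)
  have h3 := ENNReal.ofReal_le_ofReal h2
  rw [ENNReal.ofReal_pow (norm_nonneg _), ENNReal.ofReal_mul
    (pow_nonneg (Finset.sum_nonneg fun k hk => (ha k hk).1) 3),
    ENNReal.ofReal_pow (Finset.sum_nonneg fun k hk => (ha k hk).1),
    ENNReal.ofReal_sum_of_nonneg (fun k hk => (ha k hk).1),
    ENNReal.ofReal_sum_of_nonneg (fun k hk => by positivity), ofReal_norm] at h3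
  refine h3.trans (le_of_eq ?_)
  congr 1
  refine Finset.sum_congr rfl fun k _ => ?_
  rw [ENNReal.ofReal_pow (norm_nonneg _), ofReal_norm]

theorem sum_sq_le {ι : Type*} (B : Finset ι) (u : ι → ℝ≥0∞) :
    ∑ b ∈ B, u b ^ 2 ≤ (∑ b ∈ B, u b) ^ 2 := by
  rw [pow_two (∑ b ∈ B, u b), Finset.sum_mul]
  refine Finset.sum_le_sum fun b hb => ?_
  rw [pow_two]
  exact mul_le_mul_right (Finset.single_le_sum (f := u) (fun _ _ => bot_le) hb) _

theorem nb_sub (a l : ℕ) (Y : Set (ℝ × ℝ)) : nb a l Y ⊆ nb a l (nb a l Y) := by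
  intro x hx
  exact ⟨x, hx, by simp, by simp⟩

theorem nb_open (a l : ℕ) (Y : Set (ℝ × ℝ)) : IsOpen (nb a l Y) := by
  have h : nb a l Y = ⋃ y ∈ Y, {x : ℝ × ℝ | |y.1 - x.1| < 2 ^ (l + 15 * a) ∧
      |y.2 - x.2| < 2 ^ (l + 15 * a)} := by
    ext x
    simp only [nb, Set.mem_ofPred_eq, mem_iUnion, exists_prop]
  rw [h]
  refine isOpen_biUnion fun y _ => ?_
  have h1 : IsOpen {x : ℝ × ℝ | |y.1 - x.1| < 2 ^ (l + 15 * a)} :=
    isOpen_lt (by fun_prop) continuous_const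
  have h2 : IsOpen {x : ℝ × ℝ | |y.2 - x.2| < 2 ^ (l + 15 * a)} :=
    isOpen_lt (by fun_prop) continuous_const
  exact h1.inter h2

theorem m_pos {a m : ℕ} (h : PA a m) : 1 ≤ m := by
  obtain ⟨h1, -, h3⟩ := h
  by_contra hm
  have : m = 0 := by omega
  subst this
  have h4 : 0 < 2 ^ a := Nat.pow_pos (by norm_num)
  omega

theorem Lg_pos (a l : ℕ) : 0 < Lg a l := by
  unfold Lg
  positivity

theorem bb_pos (a l : ℕ) : 0 < bb a l := by
  unfold bb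
  positivity

theorem eh_facts (hETP : tETP) (hETA : tETA) {a m l : ℕ} {sg sl : ℝ} (hHP : HP a m l sg sl)
    (Y : Set (ℝ × ℝ)) (hv : volume (nb a l Y) < ⊤) (p : ℕ) :
    Measurable (eh a m sl l Y p) ∧ ∀ x, 0 ≤ eh a m sl l Y p x ∧ eh a m sl l Y p x ≤ 1 := by
  have hb := bb_pos a l
  have hτ : 0 < (1 / 2 ^ (58 * a) : ℝ).toNNReal := Real.toNNReal_pos.2 (by positivity)
  have hG : Measurable ((nb a l Y).indicator (1 : ℝ × ℝ → ℝ≥0∞)) :=
    measurable_one.indicator (nb_open a l Y).measurableSet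
  have hGi : ∫⁻ x, (nb a l Y).indicator (1 : ℝ × ℝ → ℝ≥0∞) x ≠ ⊤ := by
    rw [lintegral_indicator_one (nb_open a l Y).measurableSet]
    exact hv.ne
  obtain ⟨h1, h2, -, -⟩ := hETP a m l (l + 8 * a) p sl _ _ (Hv a l sl Y p) hHP.1 hτ hG hGi rfl
  obtain ⟨h3, h4, -⟩ := hETA m (tp sl (l + 8 * a) p) (bb a l) (2 ^ (l + 8 * a) * bb a l)
    (Hv a l sl Y p) (m_pos hHP.1) hb (by positivity) h1 h2
  exact ⟨h3, h4⟩

theorem VV_meas (hVB : tVB) {a m l : ℕ} {sg sl : ℝ} (hHP : HP a m l sg sl) {g : ℝ × ℝ → ℂ}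
    (hg : Bf g) {c p : ℕ} (hc : c ∈ CC l) (hp : p ∈ PP a l) :
    Measurable (VV a m sg sl l g c p) := by
  have h1 := (hVB a m l sg sl g hHP hg).1 c hc p hp
  exact (h1.1.measurable.enorm).pow_const 2

theorem near_sub (a l i b : ℕ) : near a l i b ⊆ PP a l := Finset.filter_subset _ _

theorem Bf_L2 {g : ℝ × ℝ → ℂ} (hg : Bf g) : ∫⁻ x, ‖g x‖ₑ ^ 2 < ⊤ := by
  obtain ⟨hm, ⟨B, hB⟩, hv⟩ := hg
  have hS : MeasurableSet {x | g x ≠ 0} := by
    exact hm (measurableSet_singleton (0 : ℂ)).compl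
  have h1 : ∀ x, ‖g x‖ₑ ^ 2 ≤ {x | g x ≠ 0}.indicator (fun _ => ENNReal.ofReal B ^ 2) x := by
    intro x
    by_cases hx : g x = 0
    · simp [hx]
    · have hx' : x ∈ {x | g x ≠ 0} := hx
      rw [indicator_of_mem hx', ← ofReal_norm]
      exact pow_le_pow_left' (ENNReal.ofReal_le_ofReal (hB x)) 2
  calc ∫⁻ x, ‖g x‖ₑ ^ 2 ≤ ∫⁻ x, {x | g x ≠ 0}.indicator (fun _ => ENNReal.ofReal B ^ 2) x :=
        lintegral_mono h1
    _ = ENNReal.ofReal B ^ 2 * volume {x | g x ≠ 0} := lintegral_indicator_const hS _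
    _ < ⊤ := ENNReal.mul_lt_top (by simp) hv

theorem sumVV_fin (hVB : tVB) {a m l : ℕ} {sg sl : ℝ} (hHP : HP a m l sg sl) {g : ℝ × ℝ → ℂ}
    (hg : Bf g) {c : ℕ} (hc : c ∈ CC l) (S : Finset ℕ) (hS : S ⊆ PP a l) :
    ∫⁻ y, ∑ p ∈ S, VV a m sg sl l g c p y ≠ ⊤ := by
  rw [lintegral_finsetSum S fun p hp => VV_meas hVB hHP hg hc (hS hp)]
  have h1 : ∑ p ∈ S, ∫⁻ y, VV a m sg sl l g c p y ≤
      ∑ c ∈ CC l, ∑ p ∈ PP a l, ∫⁻ x, VV a m sg sl l g c p x :=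
    (Finset.sum_le_sum_of_subset hS).trans
      (Finset.single_le_sum (f := fun c => ∑ p ∈ PP a l, ∫⁻ x, VV a m sg sl l g c p x)
        (fun _ _ => bot_le) hc)
  exact ((h1.trans (hVB a m l sg sl g hHP hg).2.2).trans_lt (Bf_L2 hg)).ne

theorem ea_facts (hETP : tETP) (hETA : tETA) (hVB : tVB) {a m l : ℕ} {sg sl : ℝ}
    (hHP : HP a m l sg sl) {g : ℝ × ℝ → ℂ} (hg : Bf g) {c : ℕ} (hc : c ∈ CC l) (i b : ℕ)
    (x : ℝ × ℝ) : 0 ≤ ea a m sl l (VV a m sg sl l g c) i b x ∧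
      ea a m sl l (VV a m sg sl l g c) i b x ≤ 1 := by
  have hb := bb_pos a l
  have hτ : 0 < (1 / 2 ^ (176 * a) : ℝ).toNNReal := Real.toNNReal_pos.2 (by positivity)
  have hG : Measurable (fun y => ∑ p ∈ near a l i b, VV a m sg sl l g c p y) :=
    Finset.measurable_fun_sum _ fun p hp => VV_meas hVB hHP hg hc (near_sub a l i b hp)
  have hGi := sumVV_fin hVB hHP hg hc (near a l i b) (near_sub a l i b)
  obtain ⟨h1, h2, -, -⟩ := hETP a m l i b sl _ _ (Ac a l sl (VV a m sg sl l g c) i b) hHP.1 hτ hG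
    hGi rfl
  obtain ⟨-, h4, -⟩ := hETA m (tp sl i b) (bb a l) (2 ^ i * bb a l)
    (Ac a l sl (VV a m sg sl l g c) i b) (m_pos hHP.1) hb (by positivity) h1 h2
  exact h4 x

theorem NN_meas (hAVG : tAVG) (hVB : tVB) {a m l : ℕ} {sg sl : ℝ} (hHP : HP a m l sg sl)
    {w : ℕ → ℝ × ℝ → ℂ} (hw : ∀ c, Bf (w c)) : Measurable (NN a m sg sl l w 3) := by
  have hL := Lg_pos a l
  unfold NN
  refine Finset.measurable_fun_sum _ fun c hc => Finset.measurable_fun_sum _ fun i _ =>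
    Finset.measurable_fun_sum _ fun b _ => ?_
  have hG : Measurable (fun y => ∑ p ∈ near a l i b, VV a m sg sl l (w c) c p y) :=
    Finset.measurable_fun_sum _ fun p hp => VV_meas hVB hHP (hw c) hc (near_sub a l i b hp)
  exact (hAVG (tp sl i b) (3 * Lg a l) (3 * Lg a l / 2 ^ i) _ (by positivity) (by positivity)
    hG).1

theorem small {a m l : ℕ} {sg sl : ℝ} (hHP : HP a m l sg sl) :
    ((l + 8 * a + 1 : ℕ) : ℝ≥0∞) ≤ 2 * 2 ^ a := by
  obtain ⟨⟨h1, h2, -⟩, -, h3, -⟩ := hHP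
  have h4 : 8 * a ≤ 2 ^ a := by
    obtain ⟨k, rfl⟩ := Nat.exists_eq_add_of_le h1
    clear h1 h2
    induction k with
    | zero => norm_num
    | succ k ih =>
      rw [← add_assoc, pow_succ]
      have : 8 ≤ 2 ^ (20 + k) :=
        le_trans (by norm_num) (Nat.pow_le_pow_right (n := 2) (by norm_num) (Nat.le_add_right 20 k))
      omega
  have h5 : l + 8 * a + 1 ≤ 2 * 2 ^ a := by omega
  exact_mod_cast h5

end MAI_

open MAI_

theorem pMAI (hL4 : tL4) (hFRQ : tFRQ) (hOVL : tOVL) (hV2 : tV2) (hETA : tETA) (hETP : tETP)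
    (hAVG : tAVG) (hVB : tVB) : tMAI := by
  classical
  obtain ⟨C1, hL4⟩ := hL4
  obtain ⟨C2, hV2⟩ := hV2
  refine ⟨432 * C1 * C2, ?_⟩
  intro a m l sg sl w Y hHP hPf
  have hOV := hOVL a m l sg sl w Y hHP hPf
  obtain ⟨hFm, hYm, hYv, -⟩ := hPf
  have hBf : ∀ c, Bf (w c) := fun c => (hFm.1 c).1
  have hnb : ∀ c, volume (nb a l (Y c)) < ⊤ := by
    intro c
    have h1 : volume (nb a l (nb a l (Y c))) < ⊤ := by
      refine (hYv c).trans_lt (ENNReal.mul_lt_top ?_ (hBf c).2.2)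
      exact ENNReal.mul_lt_top (by norm_num) (ENNReal.pow_lt_top (by norm_num))
    exact (measure_mono (nb_sub a l (Y c))).trans_lt h1
  have heh := fun c p => eh_facts hETP hETA hHP (Y c) (hnb c) p
  -- the index set and the functions
  set F : ℕ → ℕ → Finset ℕ := fun i b =>
    (PP a l).filter (fun p => p / 2 ^ (l + 8 * a - i) = b) with hF
  have hFs : ∀ i b, F i b ⊆ PP a l := fun i b => Finset.filter_subset _ _
  set W : ℕ → ℕ → ℕ → ℝ × ℝ → ℂ := fun c i b x =>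
    ∑ p ∈ F i b, (eh a m sl l (Y c) p x : ℂ) * vv a m sg sl l (w c) c p x with hW
  set K : Finset ((_ : ℕ) × (_ : ℕ) × ℕ) := (CC l).sigma fun _ =>
    (Finset.range (l + 8 * a + 1)).sigma fun i => Finset.range (3 * 2 ^ i) with hK
  set A : ((_ : ℕ) × (_ : ℕ) × ℕ) → ℝ × ℝ → ℝ := fun k x =>
    Co (fun i b => ea a m sl l (VV a m sg sl l (w k.1) k.1) i b x) k.2.1 k.2.2 with hA
  have hpt : ∀ x, ∑ c ∈ CC l, ∑ p ∈ PP a l,
      ((eh a m sl l (Y c) p x * (1 - na a m sl l (VV a m sg sl l (w c) c) p x) : ℝ) : ℂ) *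
        vv a m sg sl l (w c) c p x = ∑ k ∈ K, (A k x : ℂ) * W k.1 k.2.1 k.2.2 x := by
    intro x
    rw [hK, Finset.sum_sigma]
    refine Finset.sum_congr rfl fun c hc => ?_
    rw [Finset.sum_sigma]
    have h1 := regroup (l + 8 * a) (fun i b => ea a m sl l (VV a m sg sl l (w c) c) i b x)
      (fun p => (eh a m sl l (Y c) p x : ℂ) * vv a m sg sl l (w c) c p x)
    refine Eq.trans ?_ h1
    refine Finset.sum_congr rfl fun p _ => ?_
    show ((eh a m sl l (Y c) p x * (1 - ∏ i ∈ Finset.range (l + 8 * a + 1),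
      (1 - ea a m sl l (VV a m sg sl l (w c) c) i (p / 2 ^ (l + 8 * a - i)) x)) : ℝ) : ℂ) *
        vv a m sg sl l (w c) c p x = _
    push_cast
    ring
  have hea : ∀ c ∈ CC l, ∀ i b x, 0 ≤ ea a m sl l (VV a m sg sl l (w c) c) i b x ∧
      ea a m sl l (VV a m sg sl l (w c) c) i b x ≤ 1 :=
    fun c hc i b x => ea_facts hETP hETA hVB hHP (hBf c) hc i b x
  have hA1 : ∀ x, ∀ k ∈ K, 0 ≤ A k x ∧ A k x ≤ 1 := by
    intro x k hk
    have hc : k.1 ∈ CC l := (Finset.mem_sigma.1 hk).1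
    have h1 := Co_mem (fun i b => ea a m sl l (VV a m sg sl l (w k.1) k.1) i b x)
      (fun i b => hea k.1 hc i b x) k.2.1 k.2.2
    exact ⟨h1.1, h1.2.trans (hea k.1 hc k.2.1 k.2.2 x).2⟩
  have hA2 : ∀ x, ∑ k ∈ K, ENNReal.ofReal (A k x) ≤ 3 * 2 ^ (176 * a) * (NN a m sg sl l w 3 x + 1) := by
    intro x
    refine le_trans ?_ (hOV x).2
    rw [hK, Finset.sum_sigma]
    refine Finset.sum_le_sum fun c hc => ?_
    rw [Finset.sum_sigma]
    refine Finset.sum_le_sum fun i _ => Finset.sum_le_sum fun b _ => ?_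
    refine ENNReal.ofReal_le_ofReal ?_
    exact (Co_mem (fun i b => ea a m sl l (VV a m sg sl l (w c) c) i b x)
      (fun i b => hea c hc i b x) i b).2
  have hWm : ∀ c ∈ CC l, ∀ i b, Measurable (W c i b) := by
    intro c hc i b
    refine Finset.measurable_fun_sum _ fun p hp => ?_
    exact (Complex.measurable_ofReal.comp (heh c p).1).mul
      ((hVB a m l sg sl (w c) hHP (hBf c)).1 c hc p (hFs i b hp)).1.measurable
  -- the fourth moments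
  have hL : ∀ c ∈ CC l, ∀ i b, ∫⁻ x, ‖W c i b x‖ₑ ^ 4 ≤
      C1 * 2 ^ (16 * a) * ∫⁻ x, (∑ p ∈ F i b, VV a m sg sl l (w c) c p x) ^ 2 := by
    intro c hc i b
    have hk : ∀ p, ∃ k : ℝ × ℝ → ℂ, p ∈ PP a l → Bd k ∧
        (∀ ξ, k ξ ≠ 0 → ξ ∈ BX a l sg sl (1 / 2 ^ (4 * a) / 4) c p) ∧
        ∀ x, Ex k x = (eh a m sl l (Y c) p x : ℂ) * vv a m sg sl l (w c) c p x := by
      intro p
      by_cases hp : p ∈ PP a l
      · obtain ⟨k, h1, h2, h3⟩ := (hFRQ a m l c p sg sl (w c) (Y c) hHP hc hp (hBf c) (hYm c).1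
          (hnb c)).1
        exact ⟨k, fun _ => ⟨h1, h2, h3⟩⟩
      · exact ⟨0, fun h => absurd h hp⟩
    choose k hk using hk
    have h20 : 20 ≤ a := hHP.1.1
    have h1 := hL4 a l c sg sl (F i b) k h20 hHP.2.1 hHP.2.2.2.1 hHP.2.2.2.2.1 hHP.2.2.2.2.2.1
      hHP.2.2.2.2.2.2 (hFs i b) (fun p hp => ⟨(hk p (hFs i b hp)).1, (hk p (hFs i b hp)).2.1⟩)
    have h2 : ∀ x, ∑ p ∈ F i b, Ex (k p) x = W c i b x := by
      intro x
      exact Finset.sum_congr rfl fun p hp => (hk p (hFs i b hp)).2.2 x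
    simp only [h2] at h1
    refine h1.trans (mul_le_mul_right ?_ _)
    refine lintegral_mono fun x => pow_le_pow_left' (Finset.sum_le_sum fun p hp => ?_) 2
    rw [(hk p (hFs i b hp)).2.2 x, enorm_mul, mul_pow]
    have h3 : ‖(eh a m sl l (Y c) p x : ℂ)‖ₑ ≤ 1 := by
      rw [← ofReal_norm, Complex.norm_real, Real.norm_of_nonneg ((heh c p).2 x).1]
      exact ENNReal.ofReal_le_one.2 ((heh c p).2 x).2
    calc ‖(eh a m sl l (Y c) p x : ℂ)‖ₑ ^ 2 * ‖vv a m sg sl l (w c) c p x‖ₑ ^ 2 ≤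
          1 * ‖vv a m sg sl l (w c) c p x‖ₑ ^ 2 := by
          refine mul_le_mul_left ?_ _
          exact pow_le_one' h3 2
      _ = VV a m sg sl l (w c) c p x := by rw [one_mul]; rfl
  have hVm : ∀ c ∈ CC l, ∀ p ∈ PP a l, Measurable (VV a m sg sl l (w c) c p) :=
    fun c hc p hp => VV_meas hVB hHP (hBf c) hc hp
  have hLi : ∀ c ∈ CC l, ∀ i ∈ Finset.range (l + 8 * a + 1),
      ∑ b ∈ Finset.range (3 * 2 ^ i), ∫⁻ x, ‖W c i b x‖ₑ ^ 4 ≤
      C1 * 2 ^ (16 * a) * ∫⁻ x, (∑ p ∈ PP a l, VV a m sg sl l (w c) c p x) ^ 2 := by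
    intro c hc i hi
    refine (Finset.sum_le_sum fun b _ => hL c hc i b).trans ?_
    rw [← Finset.mul_sum, ← lintegral_finsetSum _ fun b _ =>
      (Finset.measurable_fun_sum _ fun p hp => hVm c hc p (hFs i b hp)).pow_const 2]
    refine mul_le_mul_right (lintegral_mono fun x => ?_) _
    refine (sum_sq_le _ _).trans (le_of_eq ?_)
    congr 1
    refine Finset.sum_fiberwise_of_maps_to (fun p hp => ?_) _
    rw [PP, Finset.mem_range] at hp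
    rw [Finset.mem_range] at hi ⊢
    rw [Nat.div_lt_iff_lt_mul (by positivity), mul_assoc, ← pow_add]
    have : i + (l + 8 * a - i) = l + 8 * a := by omega
    rw [this]
    exact hp
  have hLc : ∑ k ∈ K, ∫⁻ x, ‖W k.1 k.2.1 k.2.2 x‖ₑ ^ 4 ≤
      2 * 2 ^ a * (C1 * 2 ^ (16 * a)) * (C2 * 2 ^ (70 * a) * volume (EE l w)) := by
    have h1 : ∑ k ∈ K, ∫⁻ x, ‖W k.1 k.2.1 k.2.2 x‖ₑ ^ 4 ≤
        ∑ c ∈ CC l, ∑ i ∈ Finset.range (l + 8 * a + 1), C1 * 2 ^ (16 * a) *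
          ∫⁻ x, (∑ p ∈ PP a l, VV a m sg sl l (w c) c p x) ^ 2 := by
      rw [hK, Finset.sum_sigma]
      refine Finset.sum_le_sum fun c hc => ?_
      rw [Finset.sum_sigma]
      exact Finset.sum_le_sum fun i hi => hLi c hc i hi
    refine h1.trans ?_
    have h2 : ∑ c ∈ CC l, ∫⁻ x, (∑ p ∈ PP a l, VV a m sg sl l (w c) c p x) ^ 2 ≤
        C2 * 2 ^ (70 * a) * volume (EE l w) := by
      rw [← lintegral_finsetSum _ fun c hc =>
        (Finset.measurable_fun_sum _ fun p hp => hVm c hc p hp).pow_const 2]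
      exact (lintegral_mono fun x => sum_sq_le _ _).trans (hV2 a m l sg sl w hHP hFm)
    simp only [Finset.sum_const, Finset.card_range, nsmul_eq_mul, ← Finset.mul_sum]
    calc ((l + 8 * a + 1 : ℕ) : ℝ≥0∞) * (C1 * 2 ^ (16 * a) *
          ∑ c ∈ CC l, ∫⁻ x, (∑ p ∈ PP a l, VV a m sg sl l (w c) c p x) ^ 2)
        ≤ (2 * 2 ^ a) * (C1 * 2 ^ (16 * a) * (C2 * 2 ^ (70 * a) * volume (EE l w))) := by
          gcongr
          exact small hHP
      _ = 2 * 2 ^ a * (C1 * 2 ^ (16 * a)) * (C2 * 2 ^ (70 * a) * volume (EE l w)) := by ring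
  -- conclusion
  have hZ : MeasurableSet {x | NN a m sg sl l w 3 x ≤ 2 ^ (210 * a)} :=
    measurableSet_le (NN_meas hAVG hVB hHP hBf) measurable_const
  have hpw : ∀ x ∈ {x | NN a m sg sl l w 3 x ≤ 2 ^ (210 * a)},
      ‖∑ c ∈ CC l, ∑ p ∈ PP a l,
        ((eh a m sl l (Y c) p x * (1 - na a m sl l (VV a m sg sl l (w c) c) p x) : ℝ) : ℂ) *
        vv a m sg sl l (w c) c p x‖ₑ ^ 4 ≤
      216 * 2 ^ (1158 * a) * ∑ k ∈ K, ‖W k.1 k.2.1 k.2.2 x‖ₑ ^ 4 := by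
    intro x hx
    have hx' : NN a m sg sl l w 3 x ≤ 2 ^ (210 * a) := hx
    rw [hpt x]
    refine (holder4 K (fun k => A k x) (fun k => W k.1 k.2.1 k.2.2 x) (hA1 x)).trans ?_
    refine mul_le_mul_left ?_ _
    have h1 : (1 : ℝ≥0∞) ≤ 2 ^ (210 * a) := one_le_pow₀ (by norm_num)
    calc (∑ k ∈ K, ENNReal.ofReal (A k x)) ^ 3 ≤
          (3 * 2 ^ (176 * a) * (2 ^ (210 * a) + 2 ^ (210 * a))) ^ 3 := by
          refine pow_le_pow_left' ((hA2 x).trans ?_) 3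
          gcongr
      _ = 216 * 2 ^ (1158 * a) := by
          rw [show 1158 * a = 3 * (176 * a) + 3 * (210 * a) by ring, pow_add,
            pow_mul' (2 : ℝ≥0∞) 3 (176 * a), pow_mul' (2 : ℝ≥0∞) 3 (210 * a)]
          ring
  calc ∫⁻ x in {x | NN a m sg sl l w 3 x ≤ 2 ^ (210 * a)}, ‖∑ c ∈ CC l, ∑ p ∈ PP a l,
        ((eh a m sl l (Y c) p x * (1 - na a m sl l (VV a m sg sl l (w c) c) p x) : ℝ) : ℂ) *
        vv a m sg sl l (w c) c p x‖ₑ ^ 4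
      ≤ ∫⁻ x in {x | NN a m sg sl l w 3 x ≤ 2 ^ (210 * a)},
        216 * 2 ^ (1158 * a) * ∑ k ∈ K, ‖W k.1 k.2.1 k.2.2 x‖ₑ ^ 4 :=
        setLIntegral_mono' hZ hpw
    _ ≤ ∫⁻ x, 216 * 2 ^ (1158 * a) * ∑ k ∈ K, ‖W k.1 k.2.1 k.2.2 x‖ₑ ^ 4 :=
        setLIntegral_le_lintegral _ _
    _ = 216 * 2 ^ (1158 * a) * ∑ k ∈ K, ∫⁻ x, ‖W k.1 k.2.1 k.2.2 x‖ₑ ^ 4 := by
        have hm : ∀ k ∈ K, Measurable fun x => ‖W k.1 k.2.1 k.2.2 x‖ₑ ^ 4 := fun k hk =>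
          ((hWm k.1 (Finset.mem_sigma.1 hk).1 k.2.1 k.2.2).enorm).pow_const 4
        rw [lintegral_const_mul _ (Finset.measurable_fun_sum _ hm), lintegral_finsetSum _ hm]
    _ ≤ 216 * 2 ^ (1158 * a) * (2 * 2 ^ a * (C1 * 2 ^ (16 * a)) *
          (C2 * 2 ^ (70 * a) * volume (EE l w))) := mul_le_mul_right hLc _
    _ = 432 * C1 * C2 * 2 ^ (1245 * a) * volume (EE l w) := by
        rw [show 1245 * a = 1158 * a + a + 16 * a + 70 * a by ring, pow_add, pow_add, pow_add]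
        ring
    _ ≤ ((432 * C1 * C2 : ℝ≥0) : ℝ≥0∞) * 2 ^ (1250 * a) * volume (EE l w) := by
        push_cast
        gcongr
        · norm_num
        · norm_num

end Pool.Agent.SLog
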