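import Pool.Agent.SLog.Targets

set_option autoImplicit false

/-! A3: values of `Mu` on the core, factorisation `Mu = psR * Pp`. -/

namespace Pool.Agent.SLog

open MeasureTheory Set
open scoped ENNReal NNReal ComplexConjugate
open Pool.Agent.KSP (ee dot nr Ex Ex1 Bd Bd1 n1 n2 lg V0 ann sq)
open Pool.Agent.LLog (PA cd cdr cp fr tp Nn nv tv Core bx sa sd Qx kc psi kap GK psR psA anf mu Bf hat)

namespace MUC_

lemma one_le_m {a m : ℕ} (h : PA a m) : 1 ≤ m := by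
  have h1 := h.2.2
  have h2 : 1 ≤ 2 ^ a := Nat.one_le_two_pow
  omega

/-- on the support of `chi` the norm is at least `6/5` -/
lemma nr_ge {ξ : ℝ × ℝ} (h : 6 / 5 ≤ ξ.1) : 6 / 5 ≤ nr ξ := by
  have h1 : ξ.1 ≤ nr ξ := by
    unfold Pool.Agent.KSP.nr
    apply Real.le_sqrt_of_sq_le
    nlinarith [sq_nonneg ξ.2]
  linarith

/-- admissibility of `c` from a point of the support of `chi` in the radial interval -/
lemma base_le {sg : ℝ} {l c : ℕ} {ξ : ℝ × ℝ} (hl : 1 < l) (h : 6 / 5 ≤ ξ.1)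
    (hc : cd sg l c ξ) : 1 ≤ sg + (c : ℝ) / 4 ^ l := by
  have h1 := nr_ge h
  have h2 : (4:ℝ) ^ l * (nr ξ - sg) < c + 1 := hc.2
  have h3 : (0:ℝ) < 4 ^ l := by positivity
  have h4 : (5:ℝ) ≤ 4 ^ l := by
    calc (5:ℝ) ≤ 4 ^ 2 := by norm_num
      _ ≤ 4 ^ l := pow_le_pow_right₀ (by norm_num) hl
  have h5 : nr ξ - sg < ((c : ℝ) + 1) / 4 ^ l := by
    rw [lt_div_iff₀ h3]
    linarith
  have h6 : ((c : ℝ) + 1) / 4 ^ l = c / 4 ^ l + 1 / 4 ^ l := by ring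
  have h7 : (1:ℝ) / 4 ^ l ≤ 1 / 5 := one_div_le_one_div_of_le (by norm_num) h4
  linarith

/-- the base interval contains the interval `c` -/
lemma base_bounds {l e c : ℕ} (h : e ≤ l) :
    ((c / 4 ^ (l - e) : ℕ) : ℝ) / 4 ^ e ≤ c / 4 ^ l ∧
      ((c : ℝ) + 1) / 4 ^ l ≤ (((c / 4 ^ (l - e) : ℕ) : ℝ) + 1) / 4 ^ e := by
  have hp : (0:ℝ) < 4 ^ l := by positivity
  have hpe : (0:ℝ) < 4 ^ e := by positivity
  have hmul : (4:ℝ) ^ l = 4 ^ e * 4 ^ (l - e) := by rw [← pow_add, Nat.add_sub_cancel' h]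
  have hn1 : c / 4 ^ (l - e) * 4 ^ (l - e) ≤ c := Nat.div_mul_le_self _ _
  have hn2 : c + 1 ≤ (c / 4 ^ (l - e) + 1) * 4 ^ (l - e) := by
    have := Nat.lt_div_mul_add (a := c) (b := 4 ^ (l - e)) (by positivity)
    have h3 : (c / 4 ^ (l - e) + 1) * 4 ^ (l - e)
        = c / 4 ^ (l - e) * 4 ^ (l - e) + 4 ^ (l - e) := by ring
    omega
  have hr1 : ((c / 4 ^ (l - e) : ℕ) : ℝ) * 4 ^ (l - e) ≤ c := by exact_mod_cast hn1
  have hr2 : (c : ℝ) + 1 ≤ (((c / 4 ^ (l - e) : ℕ) : ℝ) + 1) * 4 ^ (l - e) := by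
    exact_mod_cast hn2
  constructor
  · rw [div_le_div_iff₀ hpe hp, hmul]
    nlinarith
  · rw [div_le_div_iff₀ hp hpe, hmul]
    nlinarith

/-- if the radial factor is not zero, the wide cutoff is `1` -/
lemma wide (hPSI : LLog.tPSI) {a m l c : ℕ} {sg y : ℝ} (hm : 1 ≤ m) (ha : 1 ≤ a) (hal : 3 * a ≤ l)
    (h : psR a m sg l c y ≠ 0) :
    psi (40 * m) (sg + (((c / 4 ^ (l - 3 * a) : ℕ) : ℝ) - 1) / 4 ^ (3 * a))
      (sg + (((c / 4 ^ (l - 3 * a) : ℕ) : ℝ) + 2) / 4 ^ (3 * a)) (1 / 4 ^ (3 * a)) y = 1 := by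
  have hp : (0:ℝ) < 4 ^ l := by positivity
  have hpe : (0:ℝ) < 4 ^ (3 * a) := by positivity
  have hη0 : (0:ℝ) < 1 / 2 ^ (4 * a + 1) := by positivity
  have hη1 : (1:ℝ) / 2 ^ (4 * a + 1) ≤ 1 / 2 := by
    apply one_div_le_one_div_of_le (by norm_num)
    calc (2:ℝ) = 2 ^ 1 := by norm_num
      _ ≤ 2 ^ (4 * a + 1) := pow_le_pow_right₀ (by norm_num) (by omega)
  -- localisation of `y`
  have hloc : sg + (c : ℝ) / 4 ^ l ≤ y ∧ y ≤ sg + ((c : ℝ) + 1) / 4 ^ l := by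
    have hη2 : (1:ℝ) / 2 ^ (4 * a + 1) ≤ 1 / 4 := by
      apply one_div_le_one_div_of_le (by norm_num)
      calc (4:ℝ) = 2 ^ 2 := by norm_num
        _ ≤ 2 ^ (4 * a + 1) := pow_le_pow_right₀ (by norm_num) (by omega)
    have h4 := (hPSI (40 * m) (sg + (c + 1 / 2 ^ (4 * a + 1)) / 4 ^ l)
      (sg + (c + 1 - 1 / 2 ^ (4 * a + 1)) / 4 ^ l) (1 / 2 ^ (4 * a + 1) / 4 ^ l)
      (by omega) (by positivity) (by
        have : sg + ((c:ℝ) + 1 / 2 ^ (4 * a + 1)) / 4 ^ l + 2 * (1 / 2 ^ (4 * a + 1) / 4 ^ l)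
            = sg + ((c:ℝ) + 3 * (1 / 2 ^ (4 * a + 1))) / 4 ^ l := by ring
        rw [this]
        have h5 : ((c:ℝ) + 3 * (1 / 2 ^ (4 * a + 1))) / 4 ^ l
            ≤ (c + 1 - 1 / 2 ^ (4 * a + 1)) / 4 ^ l :=
          div_le_div_of_nonneg_right (by linarith) hp.le
        linarith)).2.2.2.1 y
    have h6 : ¬ (y < sg + (c + 1 / 2 ^ (4 * a + 1)) / 4 ^ l ∨
        sg + (c + 1 - 1 / 2 ^ (4 * a + 1)) / 4 ^ l < y) := fun h' => h (h4 h')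
    push Not at h6
    have h7 : (c : ℝ) / 4 ^ l ≤ (c + 1 / 2 ^ (4 * a + 1)) / 4 ^ l :=
      div_le_div_of_nonneg_right (by linarith) hp.le
    have h8 : ((c : ℝ) + 1 - 1 / 2 ^ (4 * a + 1)) / 4 ^ l ≤ ((c : ℝ) + 1) / 4 ^ l :=
      div_le_div_of_nonneg_right (by linarith) hp.le
    exact ⟨by linarith [h6.1], by linarith [h6.2]⟩
  obtain ⟨hb1, hb2⟩ := base_bounds (c := c) hal
  refine (hPSI (40 * m) _ _ (1 / 4 ^ (3 * a)) (by omega) (by positivity) ?_).2.2.1 y ?_ ?_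
  · have h1 : sg + (((c / 4 ^ (l - 3 * a) : ℕ) : ℝ) - 1) / 4 ^ (3 * a) + 2 * (1 / 4 ^ (3 * a))
        = sg + (((c / 4 ^ (l - 3 * a) : ℕ) : ℝ) + 1) / 4 ^ (3 * a) := by ring
    rw [h1]
    have h2 : (((c / 4 ^ (l - 3 * a) : ℕ) : ℝ) + 1) / 4 ^ (3 * a)
        ≤ (((c / 4 ^ (l - 3 * a) : ℕ) : ℝ) + 2) / 4 ^ (3 * a) :=
      div_le_div_of_nonneg_right (by linarith) hpe.le
    linarith
  · have h1 : sg + (((c / 4 ^ (l - 3 * a) : ℕ) : ℝ) - 1) / 4 ^ (3 * a) + 1 / 4 ^ (3 * a)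
        = sg + ((c / 4 ^ (l - 3 * a) : ℕ) : ℝ) / 4 ^ (3 * a) := by ring
    rw [h1]
    linarith [hloc.1]
  · have h1 : sg + (((c / 4 ^ (l - 3 * a) : ℕ) : ℝ) + 2) / 4 ^ (3 * a) - 1 / 4 ^ (3 * a)
        = sg + (((c / 4 ^ (l - 3 * a) : ℕ) : ℝ) + 1) / 4 ^ (3 * a) := by ring
    rw [h1]
    linarith [hloc.2]

end MUC_

open MUC_

theorem pMUC (hCHI : tCHI) (hMUS : LLog.tMUS) (hPSI : LLog.tPSI) : tMUC := by
  intro a m l c p sg sl hP hc hp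
  obtain ⟨hPA, hal, hlm, hsg0, hsg1, hsl1, hsl2⟩ := hP
  have ha : 20 ≤ a := hPA.1
  have hm := one_le_m hPA
  have hc' : c < 2 * 4 ^ l := Finset.mem_range.1 hc
  have hp' : p < 3 * 2 ^ (l + 8 * a) := Finset.mem_range.1 hp
  constructor
  · intro ξ hξ hcd hcp hf1 hf2 hf3
    have hsupp := (hCHI a m hPA).2.2.2.1 ξ hξ
    have hbase : 1 ≤ sg + (c : ℝ) / 4 ^ l := base_le (by omega) hsupp.1 hcd
    have hbase' : 1 < sg + ((c : ℝ) + 1) / 4 ^ l := by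
      have h1 : ((c : ℝ) + 1) / 4 ^ l = c / 4 ^ l + 1 / 4 ^ l := by ring
      have h2 : (0:ℝ) < 1 / 4 ^ l := by positivity
      linarith
    have hmu := (hMUS a m sg sl l (l + 8 * a) c p hPA hsg0 hsg1 hsl1 hsl2 hal hlm (by omega)
      (by omega) hc' hbase' hp').2.2.2 ξ hcd hcp hf1 hf2 hf3
    unfold Mu
    rw [if_pos hbase, hmu, mul_one]
  · intro hbase ξ
    unfold Mu Pp LLog.mu
    rw [if_pos hbase]
    by_cases h0 : psR a m sg l c (dot ξ (nv (tp sl (l + 8 * a) p))) = 0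
    · rw [h0]
      push_cast
      ring
    · rw [wide hPSI hm (by omega) (by omega) h0]
      push_cast
      ring

end Pool.Agent.SLog
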