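import Pool.Agent.SLog.Targets
import Pool.Agent.LLog.MUS
import Pool.Agent.KSP.Base

set_option autoImplicit false

/-! A2: the multipliers `Mu`. -/

namespace Pool.Agent.SLog

open MeasureTheory Set
open scoped ENNReal NNReal ComplexConjugate
open Pool.Agent.KSP (ee dot nr Ex Ex1 Bd Bd1 n1 n2 lg V0 ann)
open Pool.Agent.LLog (PA cd cdr cp fr tp Nn nv tv Core bx sa sd Qx kc psi kap GK psR psA anf mu Bf hat)
open Pool.Agent.LLog.MUS_ (Nn_sq Nn_pos nr_sq nr_nonneg u_le psR_fact psA_fact sizes nums ang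
  nr_sub fr_pos meas_dot)

namespace MUP_

/-- the integral of a convolution -/
lemma conv_int (K L : ℝ × ℝ → ℝ≥0∞) (hK : Measurable K) (hL : Measurable L) :
    ∫⁻ x, ∫⁻ z, K (x - z) * L z = (∫⁻ x, K x) * ∫⁻ z, L z := by
  have hm : Measurable (fun P : (ℝ × ℝ) × (ℝ × ℝ) => K (P.1 - P.2) * L P.2) :=
    (hK.comp (measurable_fst.sub measurable_snd)).mul (hL.comp measurable_snd)
  rw [lintegral_lintegral_swap hm.aemeasurable]
  have h1 : ∀ z : ℝ × ℝ, ∫⁻ x, K (x - z) * L z = (∫⁻ x, K x) * L z := by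
    intro z
    have hk : Measurable (fun x : ℝ × ℝ => K (x - z)) := hK.comp (measurable_id.sub_const z)
    rw [lintegral_mul_const _ hk, lintegral_sub_right_eq_self]
  simp_rw [h1]
  rw [lintegral_const_mul _ hL]

/-- localised integral of a convolution -/
lemma conv_tail (K L : ℝ × ℝ → ℝ≥0∞) (hK : Measurable K) (hL : Measurable L)
    (A B C : Set (ℝ × ℝ)) (hA : MeasurableSet A) (hB : MeasurableSet B)
    (h : ∀ x ∈ C, ∀ z, x - z ∈ A ∨ z ∈ B) :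
    ∫⁻ x in C, ∫⁻ z, K (x - z) * L z ≤
      (∫⁻ x in A, K x) * (∫⁻ z, L z) + (∫⁻ x, K x) * ∫⁻ z in B, L z := by
  have hKA : Measurable (A.indicator K) := hK.indicator hA
  have hLB : Measurable (B.indicator L) := hL.indicator hB
  rw [← lintegral_indicator hA, ← lintegral_indicator hB, ← conv_int _ _ hKA hL,
    ← conv_int _ _ hK hLB]
  have m1 : Measurable (fun P : (ℝ × ℝ) × (ℝ × ℝ) => A.indicator K (P.1 - P.2) * L P.2) :=
    (hKA.comp (measurable_fst.sub measurable_snd)).mul (hL.comp measurable_snd)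
  rw [← lintegral_add_left m1.lintegral_prod_right']
  have h2 : ∀ x ∈ C, ∫⁻ z, K (x - z) * L z ≤
      (∫⁻ z, A.indicator K (x - z) * L z) + ∫⁻ z, K (x - z) * B.indicator L z := by
    intro x hx
    have m2 : Measurable (fun z : ℝ × ℝ => A.indicator K (x - z) * L z) :=
      (hKA.comp (measurable_const.sub measurable_id)).mul hL
    rw [← lintegral_add_left m2]
    refine lintegral_mono fun z => ?_
    rcases h x hx z with hz | hz
    · simp only [indicator_of_mem hz]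
      exact le_self_add
    · simp only [indicator_of_mem hz]
      exact le_add_self
  have m3 : Measurable (fun P : (ℝ × ℝ) × (ℝ × ℝ) => K (P.1 - P.2) * B.indicator L P.2) :=
    (hK.comp (measurable_fst.sub measurable_snd)).mul (hLB.comp measurable_snd)
  calc ∫⁻ x in C, ∫⁻ z, K (x - z) * L z
      ≤ ∫⁻ x in C, ((∫⁻ z, A.indicator K (x - z) * L z) +
          ∫⁻ z, K (x - z) * B.indicator L z) :=
        setLIntegral_mono (m1.lintegral_prod_right'.add m3.lintegral_prod_right') h2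
    _ ≤ _ := setLIntegral_le_lintegral _ _

lemma box_meas (A B : ℝ) (v w : ℝ × ℝ) :
    MeasurableSet {z : ℝ × ℝ | ¬ (|dot z v| ≤ A ∧ |dot z w| ≤ B)} := by
  refine MeasurableSet.compl (MeasurableSet.inter ?_ ?_)
  · exact measurableSet_le (continuous_abs.measurable.comp (meas_dot v)) measurable_const
  · exact measurableSet_le (continuous_abs.measurable.comp (meas_dot w)) measurable_const

lemma box_meas' (A B : ℝ) :
    MeasurableSet {z : ℝ × ℝ | ¬ (|z.1| ≤ A ∧ |z.2| ≤ B)} := by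
  refine MeasurableSet.compl (MeasurableSet.inter ?_ ?_)
  · exact measurableSet_le (continuous_abs.measurable.comp measurable_fst) measurable_const
  · exact measurableSet_le (continuous_abs.measurable.comp measurable_snd) measurable_const

lemma one_le_Nn (t : ℝ) : 1 ≤ Nn t := by
  have h := Nn_sq t
  have h0 := Nn_pos t
  nlinarith [sq_nonneg t]

lemma abs_t_le (t : ℝ) : |t| ≤ Nn t := by
  have h := Nn_sq t
  refine abs_le_of_sq_le_sq ?_ (Nn_pos t).le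
  linarith

lemma dot_nv_le (t : ℝ) (z : ℝ × ℝ) : |dot z (nv t)| ≤ |z.1| + |z.2| := by
  have h0 := Nn_pos t
  have h1 : |1 / Nn t| ≤ 1 := by
    rw [abs_div, abs_one, abs_of_pos h0, div_le_one h0]
    exact one_le_Nn t
  have h2 : |t / Nn t| ≤ 1 := by
    rw [abs_div, abs_of_pos h0, div_le_one h0]
    exact abs_t_le t
  calc |dot z (nv t)| = |z.1 * (1 / Nn t) + z.2 * (t / Nn t)| := rfl
    _ ≤ |z.1 * (1 / Nn t)| + |z.2 * (t / Nn t)| := abs_add_le _ _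
    _ = |z.1| * |1 / Nn t| + |z.2| * |t / Nn t| := by rw [abs_mul, abs_mul]
    _ ≤ |z.1| * 1 + |z.2| * 1 := by gcongr
    _ = |z.1| + |z.2| := by ring

lemma dot_tv_le (t : ℝ) (z : ℝ × ℝ) : |dot z (tv t)| ≤ |z.1| + |z.2| := by
  have h0 := Nn_pos t
  have h1 : |1 / Nn t| ≤ 1 := by
    rw [abs_div, abs_one, abs_of_pos h0, div_le_one h0]
    exact one_le_Nn t
  have h2 : |-t / Nn t| ≤ 1 := by
    rw [abs_div, abs_neg, abs_of_pos h0, div_le_one h0]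
    exact abs_t_le t
  calc |dot z (tv t)| = |z.1 * (-t / Nn t) + z.2 * (1 / Nn t)| := rfl
    _ ≤ |z.1 * (-t / Nn t)| + |z.2 * (1 / Nn t)| := abs_add_le _ _
    _ = |z.1| * |-t / Nn t| + |z.2| * |1 / Nn t| := by rw [abs_mul, abs_mul]
    _ ≤ |z.1| * 1 + |z.2| * 1 := by gcongr
    _ = |z.1| + |z.2| := by ring

lemma dot_sub (x z v : ℝ × ℝ) : dot x v = dot (x - z) v + dot z v := by
  simp only [dot, Prod.fst_sub, Prod.snd_sub]
  ring

/-- the support of the product of the radial and the angular factor, with margins -/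
lemma supp (hG : Pool.Agent.LLog.tGEO) (hP : Pool.Agent.LLog.tPSI) {a m l c p : ℕ} {sg sl : ℝ}
    (hH : HP a m l sg sl) (hc : c < 2 * 4 ^ l) (h1 : 1 ≤ sg + (c : ℝ) / 4 ^ l)
    (hp : p < 3 * 2 ^ (l + 8 * a)) (ξ : ℝ × ℝ)
    (hne1 : psR a m sg l c (dot ξ (nv (tp sl (l + 8 * a) p))) ≠ 0)
    (hne2 : anf a m sg sl (l + 8 * a) p (c / 4 ^ (l - 3 * a)) ξ ≠ 0) :
    (cp sl (l + 8 * a) p ξ ∧ (c : ℝ) + 1 / 2 ^ (4 * a) / 3 ≤ 4 ^ l * (nr ξ - sg) ∧
    4 ^ l * (nr ξ - sg) ≤ c + 1 - 1 / 2 ^ (4 * a) / 3 ∧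
    (p : ℝ) + 1 / 2 ^ (4 * a) / 3 ≤ 2 ^ (l + 8 * a) * (ξ.2 / ξ.1 + sl) ∧
    2 ^ (l + 8 * a) * (ξ.2 / ξ.1 + sl) ≤ p + 1 - 1 / 2 ^ (4 * a) / 3) ∧
    (0 ≤ dot ξ (tv (tp sl (l + 8 * a) p)) ∧
      dot ξ (tv (tp sl (l + 8 * a) p)) ≤ 3 / 2 ^ (l + 8 * a)) ∧
    sg + (c : ℝ) / 4 ^ l ≤ dot ξ (nv (tp sl (l + 8 * a) p)) ∧
      dot ξ (nv (tp sl (l + 8 * a) p)) ≤ sg + (c : ℝ) / 4 ^ l + 1 / 4 ^ l := by
  obtain ⟨⟨ha, hm1, hm2⟩, hl, hlm, hsg0, hsg, hsl, hsl2⟩ := hH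
  have hm : 0 < m := by
    rcases Nat.eq_zero_or_pos m with h | h
    · subst h
      have : 0 < 2 ^ a := by positivity
      omega
    · exact h
  have p4 : (0 : ℝ) < 4 ^ l := by positivity
  have h1' : 1 < sg + ((c : ℝ) + 1) / 4 ^ l := by
    rw [add_div]
    have : (0 : ℝ) < 1 / 4 ^ l := by positivity
    linarith
  obtain ⟨⟨g1, g2⟩, ⟨g3, g4⟩, ⟨g5, g6⟩, g7⟩ :=
    sizes (j := l + 8 * a) ha hl (by omega) hsg hc h1'
  set c0 : ℕ := c / 4 ^ (l - 3 * a) with hc0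
  have hJ : (0 : ℝ) < 2 ^ (l + 8 * a) := by positivity
  have hcs := Pool.Agent.LLog.MUS_.key_supp hG hP hm ha hsl hsl2 (j := l + 8 * a) (by omega) hp g3
    g4 g1 g2 g5 g7 ξ hne1 hne2
  obtain ⟨k1, k2, k3⟩ := nums ha hJ g7
  obtain ⟨w0, w1, w2, w3⟩ := ang hP hm ha (by linarith) g4 ξ hne2
  obtain ⟨-, -, -, hR⟩ := psR_fact hP hm ha sg l c
  obtain ⟨r1, r2⟩ := hR _ hne1
  have hn := nr_sq (tp sl (l + 8 * a) p) ξ
  have hn0 := nr_nonneg ξ
  have hul := u_le (tp sl (l + 8 * a) p) ξ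
  obtain ⟨-, hcp, -⟩ := hG sl (l + 8 * a) p hsl hsl2 (by omega) hp
  obtain ⟨-, -, -, -, G5⟩ := hcp ξ hcs.2
  set r0 : ℝ := sg + (c0 : ℝ) / 4 ^ (3 * a) with hr0
  set w : ℝ := dot ξ (tv (tp sl (l + 8 * a) p)) with hw
  set u : ℝ := dot ξ (nv (tp sl (l + 8 * a) p)) with hu
  set N2 : ℝ := Nn (tp sl (l + 8 * a) p) ^ 2 with hN2
  set J : ℝ := 2 ^ (l + 8 * a) with hJd
  have he3 : (1 : ℝ) / 2 ^ (4 * a) / 3 = 2 / 3 * (1 / 2 ^ (4 * a + 1)) := by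
    rw [pow_succ]
    field_simp
  rw [he3]
  have heq : (1 : ℝ) / 2 ^ (4 * a + 1) ≤ 1 := by
    rw [div_le_one (by positivity)]
    exact one_le_pow₀ (by norm_num)
  set e : ℝ := 1 / 2 ^ (4 * a + 1) with he
  have he0 : 0 < e := by positivity
  have u1 : (c : ℝ) / 4 ^ l ≤ u - sg := by
    rw [div_le_iff₀ p4]
    linarith
  have u2 : u - sg ≤ ((c : ℝ) + 1) / 4 ^ l := by
    rw [le_div_iff₀ p4]
    linarith
  have u3 : r0 ≤ u := by linarith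
  have u4 : u ≤ r0 + 1 / 4 ^ (3 * a) := by
    have e5 : ((c0 : ℝ) + 1) / 4 ^ (3 * a) = (c0 : ℝ) / 4 ^ (3 * a) + 1 / 4 ^ (3 * a) :=
      add_div _ _ _
    rw [e5] at g2
    linarith
  have hu0 : 9 / 10 ≤ u := by linarith
  have hnu := nr_sub hJ hn hu0 w0.le w1.le
  have e1 : (4 : ℝ) ^ l * (5 / J ^ 2) ≤ e / 4 := by
    have hJ2 : J ^ 2 = 4 ^ l * 2 ^ (16 * a) := by
      rw [hJd]
      have : (4 : ℝ) = 2 ^ 2 := by norm_num
      rw [this, ← pow_mul, ← pow_mul, ← pow_add]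
      congr 1
      ring
    rw [hJ2, he]
    have h3 : (4 : ℝ) ^ l * (5 / (4 ^ l * 2 ^ (16 * a))) = 5 / 2 ^ (16 * a) := by
      field_simp
    rw [h3, div_div, div_le_div_iff₀ (by positivity) (by positivity)]
    calc (5 : ℝ) * (2 ^ (4 * a + 1) * 4) ≤ 2 ^ 3 * (2 ^ (4 * a + 1) * 2 ^ 2) := by
          gcongr <;> norm_num
      _ = 2 ^ (3 + (4 * a + 1 + 2)) := by rw [← pow_add, ← pow_add]
      _ ≤ 2 ^ (16 * a) := pow_le_pow_right₀ (by norm_num) (by omega)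
      _ = 1 * 2 ^ (16 * a) := by ring
  refine ⟨⟨hcs.2, ?_, ?_, ?_, ?_⟩, ⟨w0.le, ?_⟩, by linarith, ?_⟩
  · have : 4 ^ l * (u - sg) ≤ 4 ^ l * (nr ξ - sg) := by gcongr
    linarith
  · have : 4 ^ l * (nr ξ - sg) ≤ 4 ^ l * (u - sg) + 4 ^ l * (5 / J ^ 2) := by
      rw [← mul_add]
      gcongr
      linarith
    linarith
  · have hk : 3 / J ≤ e / 64 := by
      refine le_trans ?_ k2
      gcongr
      norm_num
    have y1 : 31 / 32 * e ≤ N2 * J * (w / u) := by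
      have e3 : N2 * J * (w / u) = N2 * J * w / u := by ring
      rw [e3, le_div_iff₀ (by linarith)]
      nlinarith
    have := (abs_le.1 G5).2
    linarith
  · have hk : 3 / J ≤ e / 64 := by
      refine le_trans ?_ k2
      gcongr
      norm_num
    have y1 : N2 * J * (w / u) ≤ 1 - e := by
      have e3 : N2 * J * (w / u) = N2 * J * w / u := by ring
      rw [e3, div_le_iff₀ (by linarith)]
      have : (1 - e) * r0 ≤ (1 - e) * u := mul_le_mul_of_nonneg_left u3 (by linarith)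
      linarith
    have := (abs_le.1 G5).1
    linarith
  · rw [le_div_iff₀ hJ]
    linarith
  · have e5 : ((c : ℝ) + 1) / 4 ^ l = (c : ℝ) / 4 ^ l + 1 / 4 ^ l := add_div _ _ _
    rw [e5] at u2
    linarith

/-- powers used in the tail estimate -/
lemma pow_facts {a m l : ℕ} (ha : 20 ≤ a) (_hm1 : m < 2 ^ a) (hm2 : 2 ^ a ≤ 2 * m) :
    (2 : ℝ≥0∞) ^ a * ENNReal.ofReal (1 / 2 ^ (30 * m)) +
      ENNReal.ofReal (1 / 2 ^ (35 * m)) * 2 ^ a ≤ ENNReal.ofReal (1 / 2 ^ (25 * m)) ∧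
    (2 : ℝ) ^ (2 * a) + 2 ^ (2 * a) + 4 ^ l * 2 ^ (6 * a) < 4 ^ l * 2 ^ (7 * a) ∧
    (2 : ℝ) ^ (2 * a) + 2 ^ (2 * a) + 2 ^ (6 * a + (l + 8 * a)) < 2 ^ (l + 15 * a) := by
  have ham : a + 1 ≤ 5 * m := by
    have : a < 2 ^ a := Nat.lt_two_pow_self
    omega
  refine ⟨?_, ?_, ?_⟩
  · have e1 : (2 : ℝ≥0∞) ^ a = ENNReal.ofReal (2 ^ a) := by
      rw [ENNReal.ofReal_pow (by norm_num)]
      norm_num
    rw [e1, ← ENNReal.ofReal_mul (by positivity), ← ENNReal.ofReal_mul (by positivity),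
      ← ENNReal.ofReal_add (by positivity) (by positivity)]
    refine ENNReal.ofReal_le_ofReal ?_
    have h1 : (1 : ℝ) / 2 ^ (35 * m) ≤ 1 / 2 ^ (30 * m) := by
      refine one_div_le_one_div_of_le (by positivity) ?_
      exact pow_le_pow_right₀ (by norm_num) (by omega)
    have h2 : (2 : ℝ) ^ a * 2 ≤ 2 ^ (5 * m) := by
      rw [← pow_succ]
      exact pow_le_pow_right₀ (by norm_num) ham
    have h3 : (2 : ℝ) ^ (30 * m) = 2 ^ (25 * m) * 2 ^ (5 * m) := by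
      rw [← pow_add]
      congr 1
      ring
    have h5 : (0 : ℝ) < 2 ^ a := by positivity
    calc (2 : ℝ) ^ a * (1 / 2 ^ (30 * m)) + 1 / 2 ^ (35 * m) * 2 ^ a
        ≤ 2 ^ a * (1 / 2 ^ (30 * m)) + 1 / 2 ^ (30 * m) * 2 ^ a := by gcongr
      _ = 2 ^ a * 2 / 2 ^ (30 * m) := by ring
      _ ≤ 2 ^ (5 * m) / 2 ^ (30 * m) := by gcongr
      _ = 1 / 2 ^ (25 * m) := by
        rw [h3]
        field_simp
  · have h1 : (1 : ℝ) ≤ 4 ^ l := one_le_pow₀ (by norm_num)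
    have h2 : (2 : ℝ) ^ (7 * a) = 2 ^ a * 2 ^ (6 * a) := by
      rw [← pow_add]
      congr 1
      ring
    have h3 : (2 : ℝ) ^ (2 * a) ≤ 2 ^ (6 * a) := pow_le_pow_right₀ (by norm_num) (by omega)
    have h4 : (4 : ℝ) ≤ 2 ^ a := by
      calc (4 : ℝ) = 2 ^ 2 := by norm_num
        _ ≤ 2 ^ a := pow_le_pow_right₀ (by norm_num) (by omega)
    have h5 : (0 : ℝ) < 2 ^ (6 * a) := by positivity
    have h6 : (2 : ℝ) ^ (6 * a) ≤ 4 ^ l * 2 ^ (6 * a) := by nlinarith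
    have h7 : 4 * (4 ^ l * 2 ^ (6 * a)) ≤ 2 ^ a * ((4 : ℝ) ^ l * 2 ^ (6 * a)) := by gcongr
    rw [h2]
    have h8 : (4 : ℝ) ^ l * (2 ^ a * 2 ^ (6 * a)) = 2 ^ a * (4 ^ l * 2 ^ (6 * a)) := by ring
    rw [h8]
    linarith
  · have h2 : (2 : ℝ) ^ (l + 15 * a) = 2 ^ a * 2 ^ (6 * a + (l + 8 * a)) := by
      rw [← pow_add]
      congr 1
      ring
    have h3 : (2 : ℝ) ^ (2 * a) ≤ 2 ^ (6 * a + (l + 8 * a)) :=
      pow_le_pow_right₀ (by norm_num) (by omega)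
    have h4 : (4 : ℝ) ≤ 2 ^ a := by
      calc (4 : ℝ) = 2 ^ 2 := by norm_num
        _ ≤ 2 ^ a := pow_le_pow_right₀ (by norm_num) (by omega)
    have h5 : (0 : ℝ) < 2 ^ (6 * a + (l + 8 * a)) := by positivity
    rw [h2]
    nlinarith

end MUP_

open MUP_ in
theorem pMUP (hX : tCHI) (hS : Pool.Agent.LLog.tMUS) (hK : Pool.Agent.LLog.tMUK)
    (hC : Pool.Agent.LLog.tCVK) (hG : Pool.Agent.LLog.tGEO) (hP : Pool.Agent.LLog.tPSI)
    (hF : Pool.Agent.LLog.tFRM) : tMUP := by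
  intro a m l c p sg sl hH hc hp
  have hc' : c < 2 * 4 ^ l := Finset.mem_range.1 hc
  have hp' : p < 3 * 2 ^ (l + 8 * a) := Finset.mem_range.1 hp
  have hH0 := hH
  obtain ⟨hPA, hl, hlm, hsg0, hsg, hsl, hsl2⟩ := hH0
  have hPA0 := hPA
  obtain ⟨ha, hm1, hm2⟩ := hPA0
  by_cases h1 : 1 ≤ sg + (c : ℝ) / 4 ^ l
  swap
  · have hz : Mu a m sg sl l c p = fun _ => 0 := by
      funext ξ
      simp only [Mu, h1, if_false]
    have hE : Ex (fun _ : ℝ × ℝ => (0 : ℂ)) = fun _ => 0 := by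
      funext x
      simp [Ex]
    rw [hz, hE]
    refine ⟨⟨measurable_const, ⟨0, fun ξ => by simp⟩, 0, fun ξ h => absurd rfl h⟩,
      fun ξ => ⟨by simp, by simp⟩, fun ξ h => absurd rfl h, by simp, by simp, by simp⟩
  have hMu : Mu a m sg sl l c p = fun ξ => (chi m ξ : ℂ) * mu a m sg sl l (l + 8 * a) c p ξ := by
    funext ξ
    simp only [Mu, h1, if_true]
  have h1' : 1 < sg + ((c : ℝ) + 1) / 4 ^ l := by
    rw [add_div]
    have : (0 : ℝ) < 1 / 4 ^ l := by positivity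
    linarith
  obtain ⟨⟨hmb, hmn, -⟩, -⟩ := hS a m sg sl l (l + 8 * a) c p hPA hsg0 hsg hsl hsl2 hl hlm
    (by omega) (by omega) hc' h1' hp'
  obtain ⟨hk1, hk2, -, -⟩ := hK a m sg sl l (l + 8 * a) c p hPA hsg0 hsg hsl hsl2 hl hlm
    (by omega) (by omega) hc' h1' hp'
  obtain ⟨x1, x2, x3, x4, x5, x6, x7⟩ := hX a m hPA
  have hmeas : Measurable (Mu a m sg sl l c p) := by
    rw [hMu]
    exact (Complex.measurable_ofReal.comp x1).mul hmb.1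
  have hnorm : ∀ ξ, ‖Mu a m sg sl l c p ξ‖ ≤ 1 := by
    intro ξ
    rw [hMu]
    simp only [norm_mul, Complex.norm_real, Real.norm_eq_abs]
    rw [abs_of_nonneg (x2 ξ).1]
    exact mul_le_one₀ (x2 ξ).2 (norm_nonneg _) (hmn ξ)
  have hne : ∀ ξ, Mu a m sg sl l c p ξ ≠ 0 → chi m ξ ≠ 0 ∧
      psR a m sg l c (dot ξ (nv (tp sl (l + 8 * a) p))) ≠ 0 ∧
      anf a m sg sl (l + 8 * a) p (c / 4 ^ (l - 3 * a)) ξ ≠ 0 := by
    intro ξ hξ
    rw [hMu] at hξ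
    have h2 := left_ne_zero_of_mul hξ
    have h3 := right_ne_zero_of_mul hξ
    unfold mu at h3
    have h4 : psR a m sg l c (dot ξ (nv (tp sl (l + 8 * a) p))) *
        anf a m sg sl (l + 8 * a) p (c / 4 ^ (l - 3 * a)) ξ ≠ 0 := by
      intro h
      exact h3 (by rw [h, Complex.ofReal_zero])
    exact ⟨fun h => h2 (by rw [h, Complex.ofReal_zero]), left_ne_zero_of_mul h4,
      right_ne_zero_of_mul h4⟩
  have hsupp : ∀ ξ, Mu a m sg sl l c p ξ ≠ 0 → _ := fun ξ hξ =>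
    supp hG hP hH hc' h1 hp' ξ (hne ξ hξ).2.1 (hne ξ hξ).2.2
  have hq : (1 : ℝ) / 2 ^ (4 * a) / 3 ≤ 1 / 2 ^ (4 * a) := by
    have : (0 : ℝ) < 1 / 2 ^ (4 * a) := by positivity
    linarith
  have hE1 : ∀ x, Ex (Mu a m sg sl l c p) x =
      ∫ z, Ex (fun ξ => (chi m ξ : ℂ)) (x - z) * Ex (mu a m sg sl l (l + 8 * a) c p) z := by
    intro x
    rw [hMu]
    exact (hC _ x5).1 _ hmb x
  have hmX : Measurable (fun z => ‖Ex (fun ξ => (chi m ξ : ℂ)) z‖ₑ) :=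
    (Pool.Agent.KSP.pPl2 _ x5).1.measurable.enorm
  have hmM : Measurable (fun z => ‖Ex (mu a m sg sl l (l + 8 * a) c p) z‖ₑ) :=
    (Pool.Agent.KSP.pPl2 _ hmb).1.measurable.enorm
  have hE2 : ∀ x, ‖Ex (Mu a m sg sl l c p) x‖ₑ ≤
      ∫⁻ z, ‖Ex (fun ξ => (chi m ξ : ℂ)) (x - z)‖ₑ *
        ‖Ex (mu a m sg sl l (l + 8 * a) c p) z‖ₑ := by
    intro x
    rw [hE1 x]
    refine (enorm_integral_le_lintegral_enorm _).trans (le_of_eq ?_)
    refine lintegral_congr fun z => ?_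
    rw [enorm_mul]
  obtain ⟨pf1, pf2, pf3⟩ := pow_facts (l := l) ha hm1 hm2
  refine ⟨⟨hmeas, ⟨1, hnorm⟩, 2, ?_⟩, fun ξ => ⟨?_, hnorm ξ⟩, ?_, ?_, ?_, ?_⟩
  · intro ξ hξ
    obtain ⟨k1, k2, k3⟩ := x4 ξ (hne ξ hξ).1
    refine ⟨abs_le.2 ⟨by linarith, by linarith⟩, by linarith⟩
  · rw [hMu]
    unfold mu
    simp only [map_mul, Complex.conj_ofReal]
  · intro ξ hξ
    obtain ⟨k1, k2, k3⟩ := x4 ξ (hne ξ hξ).1
    obtain ⟨⟨-, s1, s2, s3, s4⟩, -⟩ := hsupp ξ hξ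
    exact ⟨by linarith, by linarith, by linarith, s1, s2, s3, s4⟩
  · -- the integral
    obtain ⟨-, -, f3, f4, -⟩ := hF (tp sl (l + 8 * a) p)
    rw [f4 _ hmeas.enorm]
    set α : ℝ := sg + (c : ℝ) / 4 ^ l with hα
    have hb : ∀ y s : ℝ, ‖Mu a m sg sl l c p (s • nv (tp sl (l + 8 * a) p) +
        y • tv (tp sl (l + 8 * a) p))‖ₑ ≤ (Icc (0 : ℝ) (3 / 2 ^ (l + 8 * a))).indicator 1 y *
          (Icc α (α + 1 / 4 ^ l)).indicator (1 : ℝ → ℝ≥0∞) s := by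
      intro y s
      by_cases hz : Mu a m sg sl l c p (s • nv (tp sl (l + 8 * a) p) +
          y • tv (tp sl (l + 8 * a) p)) = 0
      · rw [hz]
        simp
      · obtain ⟨-, ⟨t1, t2⟩, t3, t4⟩ := hsupp _ hz
        rw [(f3 s y).1] at t3 t4
        rw [(f3 s y).2] at t1 t2
        rw [indicator_of_mem (show y ∈ Icc (0 : ℝ) (3 / 2 ^ (l + 8 * a)) from ⟨t1, t2⟩),
          indicator_of_mem (show s ∈ Icc α (α + 1 / 4 ^ l) from ⟨t3, t4⟩)]
        simp only [Pi.one_apply, mul_one]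
        rw [← ofReal_norm]
        exact ENNReal.ofReal_le_one.2 (hnorm _)
    calc ∫⁻ y : ℝ, ∫⁻ s : ℝ, ‖Mu a m sg sl l c p (s • nv (tp sl (l + 8 * a) p) +
          y • tv (tp sl (l + 8 * a) p))‖ₑ
        ≤ ∫⁻ y : ℝ, ∫⁻ s : ℝ, (Icc (0 : ℝ) (3 / 2 ^ (l + 8 * a))).indicator 1 y *
          (Icc α (α + 1 / 4 ^ l)).indicator (1 : ℝ → ℝ≥0∞) s :=
          lintegral_mono fun y => lintegral_mono fun s => hb y s
      _ = ENNReal.ofReal (3 / 2 ^ (l + 8 * a)) * ENNReal.ofReal (1 / 4 ^ l) := by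
          have e1 : ∀ y : ℝ, ∫⁻ s : ℝ, (Icc (0 : ℝ) (3 / 2 ^ (l + 8 * a))).indicator 1 y *
              (Icc α (α + 1 / 4 ^ l)).indicator (1 : ℝ → ℝ≥0∞) s =
              (Icc (0 : ℝ) (3 / 2 ^ (l + 8 * a))).indicator 1 y * ENNReal.ofReal (1 / 4 ^ l) := by
            intro y
            rw [lintegral_const_mul _ (measurable_one.indicator measurableSet_Icc),
              lintegral_indicator_one measurableSet_Icc, Real.volume_Icc]
            congr 2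
            ring
          simp_rw [e1]
          rw [lintegral_mul_const _ (measurable_one.indicator measurableSet_Icc),
            lintegral_indicator_one measurableSet_Icc, Real.volume_Icc, sub_zero]
      _ ≤ ENNReal.ofReal (4 / (4 ^ l * 2 ^ (l + 8 * a))) := by
          rw [← ENNReal.ofReal_mul (by positivity)]
          refine ENNReal.ofReal_le_ofReal ?_
          have e2 : (3 : ℝ) / 2 ^ (l + 8 * a) * (1 / 4 ^ l) = 3 / (4 ^ l * 2 ^ (l + 8 * a)) := by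
            field_simp
          rw [e2]
          gcongr
          norm_num
  · calc ∫⁻ x, ‖Ex (Mu a m sg sl l c p) x‖ₑ
        ≤ ∫⁻ x, ∫⁻ z, ‖Ex (fun ξ => (chi m ξ : ℂ)) (x - z)‖ₑ *
          ‖Ex (mu a m sg sl l (l + 8 * a) c p) z‖ₑ := lintegral_mono hE2
      _ = (∫⁻ x, ‖Ex (fun ξ => (chi m ξ : ℂ)) x‖ₑ) *
          ∫⁻ z, ‖Ex (mu a m sg sl l (l + 8 * a) c p) z‖ₑ := conv_int _ _ hmX hmM
      _ ≤ 2 ^ a * 2 ^ a := mul_le_mul' x6 hk1
      _ = 2 ^ (2 * a) := by rw [← pow_add]; congr 1; ring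
  · have hcov : ∀ x ∈ (bx (tp sl (l + 8 * a) p) 0 (4 ^ l * 2 ^ (7 * a)) (2 ^ (l + 15 * a)))ᶜ,
        ∀ z : ℝ × ℝ, x - z ∈ {z : ℝ × ℝ | ¬ (|z.1| ≤ 2 ^ (2 * a) ∧ |z.2| ≤ 2 ^ (2 * a))} ∨
          z ∈ {z | ¬ (|dot z (nv (tp sl (l + 8 * a) p))| ≤ 4 ^ l * 2 ^ (6 * a) ∧
            |dot z (tv (tp sl (l + 8 * a) p))| ≤ 2 ^ (6 * a + (l + 8 * a)))} := by
      intro x hx z
      by_contra hcon
      rw [not_or] at hcon
      obtain ⟨hc1, hc2⟩ := hcon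
      simp only [mem_ofPred_eq, not_not] at hc1 hc2
      apply hx
      have d1 := dot_nv_le (tp sl (l + 8 * a) p) (x - z)
      have d2 := dot_tv_le (tp sl (l + 8 * a) p) (x - z)
      have d3 := dot_sub x z (nv (tp sl (l + 8 * a) p))
      have d4 := dot_sub x z (tv (tp sl (l + 8 * a) p))
      show |dot (x - 0) _| < _ ∧ |dot (x - 0) _| < _
      rw [sub_zero, d3, d4]
      refine ⟨lt_of_le_of_lt (abs_add_le _ _) ?_, lt_of_le_of_lt (abs_add_le _ _) ?_⟩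
      · linarith [hc1.1, hc1.2, hc2.1]
      · linarith [hc1.1, hc1.2, hc2.2]
    calc ∫⁻ x in (bx (tp sl (l + 8 * a) p) 0 (4 ^ l * 2 ^ (7 * a)) (2 ^ (l + 15 * a)))ᶜ,
          ‖Ex (Mu a m sg sl l c p) x‖ₑ
        ≤ ∫⁻ x in (bx (tp sl (l + 8 * a) p) 0 (4 ^ l * 2 ^ (7 * a)) (2 ^ (l + 15 * a)))ᶜ,
          ∫⁻ z, ‖Ex (fun ξ => (chi m ξ : ℂ)) (x - z)‖ₑ *
            ‖Ex (mu a m sg sl l (l + 8 * a) c p) z‖ₑ := lintegral_mono hE2
      _ ≤ _ := conv_tail _ _ hmX hmM _ _ _ (box_meas' _ _) (box_meas _ _ _ _) hcov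
      _ ≤ ENNReal.ofReal (1 / 2 ^ (35 * m)) * 2 ^ a +
          2 ^ a * ENNReal.ofReal (1 / 2 ^ (30 * m)) :=
          add_le_add (mul_le_mul' x7 hk1) (mul_le_mul' x6 hk2)
      _ ≤ _ := by
          rw [add_comm]
          exact pf1

end Pool.Agent.SLog
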