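import Pool.Agent.SLog.Targets

set_option autoImplicit false

/-! MP_ee701d_an, strong (2,2) bound: OM, small functions. -/

namespace Pool.Agent.SLog

open MeasureTheory Set
open scoped ENNReal NNReal ComplexConjugate
open Pool.Agent.KSP (ee dot nr Ex Ex1 Bd Bd1 n1 n2 lg V0 ann)
open Pool.Agent.LLog (PA cd cdr cp fr tp Nn nv tv Core bx sa sd Qx kc psi kap GK psR psA anf mu Bf hat)

namespace OM_

lemma sq_rpow_half (V : ℝ≥0∞) : V ^ (1 / 2 : ℝ) * V ^ (1 / 2 : ℝ) = V := by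
  rw [← ENNReal.rpow_add_of_nonneg _ _ (by norm_num) (by norm_num)]
  norm_num

/-- the quadratic inequality -/
lemma arith (V G e q lam C : ℝ≥0∞) (hV : V ≠ ⊤)
    (h : lam ^ 2 * V ≤ C * e * G + C * q * V ^ (1 / 2 : ℝ) * G ^ (1 / 2 : ℝ)) :
    lam ^ 4 * V ≤ (2 * C + 4 * C ^ 2) * (e * lam ^ 2 + q ^ 2) * G := by
  set s := V ^ (1 / 2 : ℝ) with hs
  set g := G ^ (1 / 2 : ℝ) with hg
  have hss : s * s = V := sq_rpow_half V
  have hgg : g * g = G := sq_rpow_half G
  rcases le_total (C * q * s * g) (C * e * G) with h1 | h1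
  · have h2 : lam ^ 2 * V ≤ 2 * (C * e * G) := by
      calc lam ^ 2 * V ≤ C * e * G + C * q * s * g := h
        _ ≤ C * e * G + C * e * G := by gcongr
        _ = 2 * (C * e * G) := by rw [two_mul]
    calc lam ^ 4 * V = lam ^ 2 * (lam ^ 2 * V) := by ring
      _ ≤ lam ^ 2 * (2 * (C * e * G)) := by gcongr
      _ = (2 * C) * (e * lam ^ 2) * G := by ring
      _ ≤ (2 * C + 4 * C ^ 2) * (e * lam ^ 2 + q ^ 2) * G := by
          gcongr
          · exact le_self_add
          · exact le_self_add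
  · have h2 : lam ^ 2 * V ≤ 2 * (C * q * s * g) := by
      calc lam ^ 2 * V ≤ C * e * G + C * q * s * g := h
        _ ≤ C * q * s * g + C * q * s * g := by gcongr
        _ = 2 * (C * q * s * g) := by rw [two_mul]
    by_cases hV0 : V = 0
    · rw [hV0]; simp
    have hs0 : s ≠ 0 := by
      intro h0
      apply hV0
      rw [← hss, h0]; simp
    have hst : s ≠ ⊤ := by
      intro h0
      apply hV
      rw [← hss, h0]; simp
    have h3 : lam ^ 2 * s ≤ 2 * (C * q * g) := by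
      have h4 : (lam ^ 2 * s) * s ≤ (2 * (C * q * g)) * s := by
        calc (lam ^ 2 * s) * s = lam ^ 2 * V := by rw [← hss]; ring
          _ ≤ 2 * (C * q * s * g) := h2
          _ = (2 * (C * q * g)) * s := by ring
      exact (ENNReal.mul_le_mul_iff_left hs0 hst).1 h4
    calc lam ^ 4 * V = (lam ^ 2 * s) * (lam ^ 2 * s) := by rw [← hss]; ring
      _ ≤ (2 * (C * q * g)) * (2 * (C * q * g)) := by gcongr
      _ = (4 * C ^ 2) * (q ^ 2) * G := by rw [← hgg]; ring
      _ ≤ (2 * C + 4 * C ^ 2) * (e * lam ^ 2 + q ^ 2) * G := by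
          gcongr
          · exact le_add_self
          · exact le_add_self

end OM_

open OM_

/-- F3 small functions -/
theorem pOM (hE : tE) (hTRV : tTRV) (hHAT : Pool.Agent.LLog.tHAT) : tOM := by
  obtain ⟨C, hC⟩ := hE
  refine ⟨2 * C + 4 * C ^ 2, ?_⟩
  intro a m l t sg sl k g lam hp ht1 ht3 hk hkm hg hg1
  by_cases hl0 : lam = 0
  · rw [hl0]; simp
  obtain ⟨hcc, hL2, -⟩ := hTRV a m l t sg sl k hp ht1 ht3 hk hkm
  obtain ⟨hcont, hbd, hpl, -⟩ := hHAT g hg
  obtain ⟨hmeas, hint⟩ := hL2 (hat g) hcont.measurable hbd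
  set T := TF a m sg sl k l t (hat g) with hT
  set E : Set (ℝ × ℝ) := {x | (lam : ℝ≥0∞) < ‖T x‖ₑ} with hEdef
  have hEm : MeasurableSet E := measurableSet_lt measurable_const hmeas.enorm
  -- the L2 norm of g is finite
  have hgfin : ∫⁻ x, ‖g x‖ₑ ^ 2 < ⊤ := by
    obtain ⟨hgm, -, hgv⟩ := hg
    have hS : MeasurableSet {x | g x ≠ 0} := (measurableSet_singleton (0 : ℂ)).compl.preimage hgm
    calc ∫⁻ x, ‖g x‖ₑ ^ 2 ≤ ∫⁻ x, ({x | g x ≠ 0} : Set (ℝ × ℝ)).indicator 1 x := by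
          apply lintegral_mono
          intro x
          by_cases hx : g x = 0
          · simp [hx]
          · have h1 : ‖g x‖ₑ ≤ 1 := by
              rw [← ofReal_norm]
              exact ENNReal.ofReal_le_one.2 (hg1 x)
            have h2 : x ∈ ({x | g x ≠ 0} : Set (ℝ × ℝ)) := hx
            rw [indicator_of_mem h2]
            exact pow_le_one' h1 2
      _ = volume {x | g x ≠ 0} := by
          rw [lintegral_indicator_one hS]
      _ < ⊤ := hgv
  have hTfin : ∫⁻ x, ‖T x‖ₑ ^ 2 < ⊤ := by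
    refine lt_of_le_of_lt (hint.trans ((setLIntegral_le_lintegral _ _).trans ?_)) hgfin
    exact hpl.le
  have hlow : (lam : ℝ≥0∞) ^ 2 * volume E ≤ ∫⁻ x in E, ‖T x‖ₑ ^ 2 := by
    rw [← setLIntegral_const]
    apply setLIntegral_mono' hEm
    intro x hx
    have hx' : (lam : ℝ≥0∞) < ‖T x‖ₑ := hx
    gcongr
  have hVE : volume E < ⊤ := by
    have h1 : (lam : ℝ≥0∞) ^ 2 * volume E < ⊤ :=
      lt_of_le_of_lt (hlow.trans (setLIntegral_le_lintegral _ _)) hTfin
    by_contra hcon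
    have h2 : volume E = ⊤ := not_lt_top_iff.1 hcon
    rw [h2, ENNReal.mul_top (by simpa using hl0)] at h1
    exact absurd h1 (lt_irrefl _)
  -- the sets X_c
  have hkcm : Measurable (kc m sg k l) := by
    unfold Pool.Agent.LLog.kc
    fun_prop
  set X : ℕ → Set (ℝ × ℝ) := fun c => E ∩ {x | t ≤ kc m sg k l x % 4 ∧ kc m sg k l x = c + t}
    with hX
  have hXm : ∀ c, MeasurableSet (X c) := by
    intro c
    refine hEm.inter ?_
    have h1 : MeasurableSet ({n : ℕ | t ≤ n % 4 ∧ n = c + t}) := trivial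
    exact hkcm h1
  have hXE : ∀ c, X c ⊆ E := fun c => inter_subset_left
  have hXd : ∀ c c', c ≠ c' → Disjoint (X c) (X c') := by
    intro c c' hne
    rw [disjoint_left]
    intro x hx hx'
    have h1 : kc m sg k l x = c + t := hx.2.2
    have h2 : kc m sg k l x = c' + t := hx'.2.2
    omega
  have hEU : E = ⋃ c ∈ CC l, X c := by
    apply subset_antisymm
    · intro x hx
      have hx' : (lam : ℝ≥0∞) < ‖T x‖ₑ := hx
      have h1 : t ≤ kc m sg k l x % 4 := by
        by_contra hcon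
        rw [hT] at hx'
        simp [TF, hcon] at hx'
      have h2 := hcc x h1
      have h3 : t ≤ kc m sg k l x := h1.trans (Nat.mod_le _ _)
      refine mem_biUnion h2 ⟨hx, h1, ?_⟩
      omega
    · intro x hx
      obtain ⟨c, hc, hx⟩ := mem_iUnion₂.1 hx
      exact hXE c hx
  have hsum : ∑ c ∈ CC l, volume (X c) = volume E := by
    rw [hEU, measure_biUnion_finset (fun c _ c' _ hne => hXd c c' hne) (fun c _ => hXm c)]
  have hsum2 : ∫⁻ x in E, ‖T x‖ₑ ^ 2 = ∑ c ∈ CC l, ∫⁻ x in X c, ‖T x‖ₑ ^ 2 := by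
    rw [hEU, lintegral_biUnion_finset (fun c _ c' _ hne => hXd c c' hne) (fun c _ => hXm c)]
  have hsum3 : ∀ c ∈ CC l, ∫⁻ x in X c, ‖T x‖ₑ ^ 2 =
      ∫⁻ x in X c, ‖∑ p ∈ PP a l, vv a m sg sl l g c p x‖ₑ ^ 2 := by
    intro c _
    apply setLIntegral_congr_fun (hXm c)
    intro x hx
    have h1 : t ≤ kc m sg k l x % 4 := hx.2.1
    have h2 : kc m sg k l x = c + t := hx.2.2
    have h3 : kc m sg k l x - t = c := by omega
    have h4 : T x = ∑ p ∈ PP a l, vv a m sg sl l g c p x := by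
      rw [hT]
      unfold TF
      rw [if_pos h1, h3]
      rfl
    simp only [h4]
  have hmain := hC a m l sg sl X g hp (fun c => ⟨hXm c, lt_of_le_of_lt (measure_mono (hXE c)) hVE⟩)
    hXd hg hg1
  rw [← Finset.sum_congr rfl hsum3, ← hsum2, hsum] at hmain
  have hfin := arith (volume E) (∫⁻ x, ‖g x‖ₑ ^ 2) (ENNReal.ofReal (1 / 2 ^ (9 * a)))
    (2 ^ (60 * a)) lam C hVE.ne (hlow.trans hmain)
  have e1 : ((2 : ℝ≥0∞) ^ (60 * a)) ^ 2 = 2 ^ (120 * a) := by
    rw [← pow_mul]; congr 1; ring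
  rw [e1] at hfin
  refine hfin.trans (le_of_eq ?_)
  push_cast
  rfl

end Pool.Agent.SLog
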