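import Pool.Agent.SLog.Targets

set_option autoImplicit false

/-! F2: large functions, by duality from the dual estimate. -/

namespace Pool.Agent.SLog

open MeasureTheory Set
open scoped ENNReal NNReal ComplexConjugate
open Pool.Agent.KSP (Ex Bd)
open Pool.Agent.LLog (kc Bf hat)

namespace OP_

lemma kc_meas (m l : ℕ) (sg : ℝ) (k : ℝ × ℝ → ℕ) (hk : Measurable k) :
    Measurable (kc m sg k l) := by
  unfold kc
  have h1 : Measurable fun x => (k x : ℝ) := measurable_from_nat.comp hk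
  exact Nat.measurable_floor.comp
    (((h1.div_const _).const_add _ |>.sub_const _).const_mul _)

/-- the level set -/
def Es (F : ℝ × ℝ → ℂ) (lam : ℝ≥0) : Set (ℝ × ℝ) := {x | (lam : ℝ≥0∞) < ‖F x‖ₑ}

open Classical in
/-- the dual functions -/
noncomputable def ww (F : ℝ × ℝ → ℂ) (κ : ℝ × ℝ → ℕ) (lam : ℝ≥0) (t c : ℕ) (x : ℝ × ℝ) : ℂ :=
  if x ∈ Es F lam ∧ κ x = c + t then F x / (‖F x‖ : ℂ) else 0

variable {F : ℝ × ℝ → ℂ} {κ : ℝ × ℝ → ℕ} {lam : ℝ≥0} {t : ℕ}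

lemma Es_meas (hF : Measurable F) : MeasurableSet (Es F lam) :=
  measurableSet_lt measurable_const hF.enorm

lemma ww_ne {c : ℕ} {x : ℝ × ℝ} (h : ww F κ lam t c x ≠ 0) : x ∈ Es F lam ∧ κ x = c + t := by
  unfold ww at h
  by_contra hc
  rw [if_neg hc] at h
  exact h rfl

lemma ww_norm (c : ℕ) (x : ℝ × ℝ) : ‖ww F κ lam t c x‖ ≤ 1 := by
  unfold ww
  split_ifs
  · rw [norm_div, Complex.norm_real, norm_norm]
    exact div_self_le_one _
  · simp

lemma ww_Bf (hF : Measurable F) (hκ : Measurable κ) (hE : volume (Es F lam) < ⊤) (c : ℕ) :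
    Bf (ww F κ lam t c) := by
  classical
  refine ⟨?_, ⟨1, ww_norm c⟩, ?_⟩
  · unfold ww
    refine Measurable.ite ?_ (hF.div (Complex.measurable_ofReal.comp hF.norm)) measurable_const
    exact (Es_meas hF).inter (hκ (measurableSet_singleton (c + t)))
  · refine lt_of_le_of_lt (measure_mono ?_) hE
    intro x hx
    exact (ww_ne hx).1

lemma ww_Fm (hF : Measurable F) (hκ : Measurable κ) (hE : volume (Es F lam) < ⊤) :
    Fm (ww F κ lam t) := by
  refine ⟨fun c => ⟨ww_Bf hF hκ hE c, ww_norm c⟩, ?_⟩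
  intro x c c' h h'
  have h1 := (ww_ne h).2
  have h2 := (ww_ne h').2
  omega

lemma Bf_int {f : ℝ × ℝ → ℂ} (hf : Bf f) : Integrable f := by
  obtain ⟨hm, ⟨B, hB⟩, hv⟩ := hf
  have hms : MeasurableSet {x | f x ≠ 0} := hm (measurableSet_singleton (0 : ℂ)).compl
  have h1 : Integrable ({x | f x ≠ 0}.indicator (fun _ => (B : ℝ))) :=
    (integrable_indicator_iff hms).2 (integrableOn_const hv.ne)
  refine h1.mono' hm.aestronglyMeasurable (Filter.Eventually.of_forall fun x => ?_)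
  by_cases h : f x = 0
  · rw [h, norm_zero]
    exact indicator_nonneg (fun _ _ => (norm_nonneg (f 0)).trans (hB 0)) x
  · rw [indicator_of_mem (show x ∈ {x | f x ≠ 0} from h)]
    exact hB x

lemma mul_int {f h : ℝ × ℝ → ℂ} (hf : Bf f) (hh : Continuous h) (hb : ∃ B : ℝ, ∀ x, ‖h x‖ ≤ B) :
    Integrable fun x => f x * conj (h x) := by
  obtain ⟨B, hB⟩ := hb
  have h1 := (Bf_int hf).bdd_mul (c := B) (f := fun x => conj (h x))
    ((Complex.continuous_conj.comp hh).aestronglyMeasurable)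
    (Filter.Eventually.of_forall fun x => by simpa using hB x)
  refine h1.congr (Filter.Eventually.of_forall fun x => ?_)
  simp only []
  ring

lemma Bf_conj {f : ℝ × ℝ → ℂ} (hf : Bf f) : Bf fun x => conj (f x) := by
  obtain ⟨hm, ⟨B, hB⟩, hv⟩ := hf
  refine ⟨Complex.continuous_conj.measurable.comp hm, ⟨B, fun x => ?_⟩, ?_⟩
  · rw [RCLike.norm_conj]; exact hB x
  · simpa using hv

lemma mul_int' {f h : ℝ × ℝ → ℂ} (hf : Bf f) (hh : Continuous h) (hb : ∃ B : ℝ, ∀ x, ‖h x‖ ≤ B) :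
    Integrable fun x => h x * conj (f x) := by
  obtain ⟨B, hB⟩ := hb
  exact (Bf_int (Bf_conj hf)).bdd_mul (c := B) hh.aestronglyMeasurable
    (Filter.Eventually.of_forall hB)

/-- exchange of the multiplier -/
lemma exch (hHAT : LLog.tHAT) (hVB : tVB) (hMUP : tMUP) {a m l c p : ℕ} {sg sl : ℝ}
    (hHP : HP a m l sg sl) (hc : c ∈ CC l) (hp : p ∈ PP a l) {g w : ℝ × ℝ → ℂ} (hg : Bf g)
    (hw : Bf w) :
    ∫ x, vv a m sg sl l g c p x * conj (w x) = ∫ x, g x * conj (vv a m sg sl l w c p x) := by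
  have b1 := ((hVB a m l sg sl g hHP hg).1 c hc p hp).2.1
  have b2 := ((hVB a m l sg sl w hHP hw).1 c hc p hp).2.1
  have e1 := (hHAT w hw).2.2.2 _ b1
  have e2 := (hHAT g hg).2.2.2 _ b2
  have e3 : ∫ x, vv a m sg sl l g c p x * conj (w x) =
      conj (∫ x, w x * conj (Ex (fun ξ => Mu a m sg sl l c p ξ * hat g ξ) x)) := by
    rw [← integral_conj]
    refine integral_congr_ae (Filter.Eventually.of_forall fun x => ?_)
    simp only [vv, map_mul, Complex.conj_conj]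
    ring
  rw [e3, e1, ← integral_conj]
  have e4 : ∫ x, g x * conj (vv a m sg sl l w c p x) =
      ∫ x, g x * conj (Ex (fun ξ => Mu a m sg sl l c p ξ * hat w ξ) x) := rfl
  rw [e4, e2]
  refine integral_congr_ae (Filter.Eventually.of_forall fun ξ => ?_)
  have hr := ((hMUP a m l c p sg sl hHP hc hp).2.1 ξ).1
  simp only [map_mul, Complex.conj_conj, hr]
  ring

/-- pointwise identity -/
lemma point {a m l t : ℕ} {sg sl : ℝ} {k : ℝ × ℝ → ℕ} {g : ℝ × ℝ → ℂ} {lam : ℝ≥0}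
    (hkc : ∀ x, t ≤ kc m sg k l x % 4 → kc m sg k l x - t ∈ CC l) (x : ℝ × ℝ) :
    ∑ c ∈ CC l, ∑ p ∈ PP a l, vv a m sg sl l g c p x *
      conj (ww (TF a m sg sl k l t (hat g)) (kc m sg k l) lam t c x) =
    (((Es (TF a m sg sl k l t (hat g)) lam).indicator
      (fun x => ‖TF a m sg sl k l t (hat g) x‖) x : ℝ) : ℂ) := by
  classical
  set F := TF a m sg sl k l t (hat g) with hF
  by_cases hx : x ∈ Es F lam
  · rw [indicator_of_mem hx]
    have hF0 : F x ≠ 0 := by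
      intro h0
      have h1 : (lam : ℝ≥0∞) < ‖F x‖ₑ := hx
      rw [h0, enorm_zero] at h1
      exact absurd h1 (not_lt.2 (zero_le))
    have ht : t ≤ kc m sg k l x % 4 := by
      by_contra hc
      apply hF0
      rw [hF, TF, if_neg hc]
    have hle : t ≤ kc m sg k l x := ht.trans (Nat.mod_le _ _)
    have hc0 := hkc x ht
    rw [Finset.sum_eq_single (kc m sg k l x - t)]
    · have hw : ww F (kc m sg k l) lam t (kc m sg k l x - t) x = F x / (‖F x‖ : ℂ) := by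
        unfold ww
        rw [if_pos ⟨hx, by omega⟩]
      rw [hw, ← Finset.sum_mul]
      have hFx : F x = ∑ p ∈ PP a l, vv a m sg sl l g (kc m sg k l x - t) p x := by
        rw [hF, TF, if_pos ht]
        rfl
      rw [← hFx, map_div₀, Complex.conj_ofReal, mul_div_assoc', Complex.mul_conj,
        Complex.normSq_eq_norm_sq]
      have hn : ‖F x‖ ≠ 0 := norm_ne_zero_iff.2 hF0
      have hn' : ((‖F x‖ : ℝ) : ℂ) ≠ 0 := by exact_mod_cast hn
      rw [div_eq_iff hn']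
      push_cast
      ring
    · intro c _ hne
      have hw : ww F (kc m sg k l) lam t c x = 0 := by
        unfold ww
        rw [if_neg]
        rintro ⟨_, h⟩
        omega
      rw [hw]
      simp
    · intro h
      exact absurd hc0 h
  · rw [indicator_of_notMem hx]
    have hw : ∀ c, ww F (kc m sg k l) lam t c x = 0 := by
      intro c
      unfold ww
      rw [if_neg]
      exact fun h => hx h.1
    simp [hw]

lemma sq_fin {g : ℝ × ℝ → ℂ} (hg : Bf g) : ∫⁻ x, ‖g x‖ₑ ^ 2 < ⊤ := by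
  obtain ⟨hm, ⟨B, hB⟩, hv⟩ := hg
  have hms : MeasurableSet {x | g x ≠ 0} := hm (measurableSet_singleton (0 : ℂ)).compl
  calc ∫⁻ x, ‖g x‖ₑ ^ 2 ≤ ∫⁻ x, {x | g x ≠ 0}.indicator (fun _ => ENNReal.ofReal B ^ 2) x := by
        refine lintegral_mono fun x => ?_
        by_cases h : g x = 0
        · rw [h, enorm_zero]
          simp
        · rw [indicator_of_mem (show x ∈ {x | g x ≠ 0} from h)]
          gcongr
          rw [← ofReal_norm]
          exact ENNReal.ofReal_le_ofReal (hB x)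
    _ = ENNReal.ofReal B ^ 2 * volume {x | g x ≠ 0} := by
        rw [lintegral_indicator hms, setLIntegral_const]
    _ < ⊤ := ENNReal.mul_lt_top (by finiteness) hv

/-- the norm on the level set is dual to the dual function -/
lemma dual (hHAT : LLog.tHAT) (hVB : tVB) (hMUP : tMUP) (hTRV : tTRV) {a m l t : ℕ} {sg sl : ℝ}
    {k : ℝ × ℝ → ℕ} {g : ℝ × ℝ → ℂ} {lam : ℝ≥0} (hHP : HP a m l sg sl) (ht1 : 1 ≤ t) (ht3 : t ≤ 3)
    (hk : Measurable k) (hk4 : ∀ x, k x < 4 ^ m) (hg : Bf g)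
    (hE : volume (Es (TF a m sg sl k l t (hat g)) lam) < ⊤) {v1 v2 : ℝ × ℝ → ℂ}
    (hv : ∀ x, ∑ c ∈ CC l, ∑ p ∈ PP a l,
      vv a m sg sl l (ww (TF a m sg sl k l t (hat g)) (kc m sg k l) lam t c) c p x = v1 x + v2 x)
    (hm1 : Measurable v1) :
    (lam : ℝ≥0∞) * volume (Es (TF a m sg sl k l t (hat g)) lam) ≤
      (∫⁻ x, ‖g x‖ₑ * ‖v1 x‖ₑ) + ∫⁻ x, ‖g x‖ₑ * ‖v2 x‖ₑ := by
  obtain ⟨hkc, hH, hG⟩ := hTRV a m l t sg sl k hHP ht1 ht3 hk hk4
  obtain ⟨hhc, hhb, -, -⟩ := hHAT g hg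
  have hFm := (hH (hat g) hhc.measurable hhb).1
  have hFb := (hG g hg).2
  set F := TF a m sg sl k l t (hat g) with hF
  have hκ := kc_meas m l sg k hk
  have hwB : ∀ c, Bf (ww F (kc m sg k l) lam t c) := ww_Bf hFm hκ hE
  obtain ⟨B, hB⟩ := hg.2.1
  have hEm : MeasurableSet (Es F lam) := Es_meas hFm
  -- the integral
  have hI : ((∫ x, (Es F lam).indicator (fun x => ‖F x‖) x : ℝ) : ℂ) =
      ∫ x, g x * conj (v1 x + v2 x) := by
    have i1 : ∀ c ∈ CC l, ∀ p ∈ PP a l, Integrable fun x => vv a m sg sl l g c p x *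
        conj (ww F (kc m sg k l) lam t c x) := by
      intro c hc p hp
      have h1 := (hVB a m l sg sl g hHP hg).1 c hc p hp
      exact mul_int' (hwB c) h1.1 ⟨_, h1.2.2.1 B hB⟩
    have i2 : ∀ c ∈ CC l, ∀ p ∈ PP a l, Integrable fun x => g x *
        conj (vv a m sg sl l (ww F (kc m sg k l) lam t c) c p x) := by
      intro c hc p hp
      have h1 := (hVB a m l sg sl _ hHP (hwB c)).1 c hc p hp
      exact mul_int hg h1.1 ⟨_, h1.2.2.1 1 (ww_norm c)⟩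
    rw [← integral_complex_ofReal]
    calc ∫ x, (((Es F lam).indicator (fun x => ‖F x‖) x : ℝ) : ℂ)
        = ∫ x, ∑ c ∈ CC l, ∑ p ∈ PP a l, vv a m sg sl l g c p x *
            conj (ww F (kc m sg k l) lam t c x) :=
          integral_congr_ae (Filter.Eventually.of_forall fun x => (point hkc x).symm)
      _ = ∑ c ∈ CC l, ∑ p ∈ PP a l, ∫ x, vv a m sg sl l g c p x *
            conj (ww F (kc m sg k l) lam t c x) := by
          rw [integral_finsetSum _ fun c hc => integrable_finsetSum _ fun p hp => i1 c hc p hp]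
          refine Finset.sum_congr rfl fun c hc => ?_
          rw [integral_finsetSum _ fun p hp => i1 c hc p hp]
      _ = ∑ c ∈ CC l, ∑ p ∈ PP a l, ∫ x, g x *
            conj (vv a m sg sl l (ww F (kc m sg k l) lam t c) c p x) := by
          refine Finset.sum_congr rfl fun c hc => Finset.sum_congr rfl fun p hp => ?_
          exact exch hHAT hVB hMUP hHP hc hp hg (hwB c)
      _ = ∫ x, ∑ c ∈ CC l, ∑ p ∈ PP a l, g x *
            conj (vv a m sg sl l (ww F (kc m sg k l) lam t c) c p x) := by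
          rw [integral_finsetSum _ fun c hc => integrable_finsetSum _ fun p hp => i2 c hc p hp]
          refine Finset.sum_congr rfl fun c hc => ?_
          rw [integral_finsetSum _ fun p hp => i2 c hc p hp]
      _ = ∫ x, g x * conj (v1 x + v2 x) := by
          refine integral_congr_ae (Filter.Eventually.of_forall fun x => ?_)
          simp only []
          rw [← hv x, map_sum, Finset.mul_sum]
          refine Finset.sum_congr rfl fun c _ => ?_
          rw [map_sum, Finset.mul_sum]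
  have hFi : Integrable ((Es F lam).indicator (fun x => ‖F x‖)) := by
    rw [integrable_indicator_iff hEm]
    refine Integrable.mono' (integrableOn_const hE.ne) hFm.norm.aestronglyMeasurable
      (Filter.Eventually.of_forall fun x => ?_) (g := fun _ => 2 ^ (5 * m) * B)
    rw [norm_norm]
    exact hFb B hB x
  have hpos : 0 ≤ ∫ x, (Es F lam).indicator (fun x => ‖F x‖) x :=
    integral_nonneg fun x => indicator_nonneg (fun _ _ => norm_nonneg _) x
  calc (lam : ℝ≥0∞) * volume (Es F lam)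
      = ∫⁻ _ in Es F lam, (lam : ℝ≥0∞) := by rw [setLIntegral_const]
    _ ≤ ∫⁻ x in Es F lam, ‖F x‖ₑ := setLIntegral_mono' hEm fun x hx => le_of_lt hx
    _ = ∫⁻ x, ENNReal.ofReal ((Es F lam).indicator (fun x => ‖F x‖) x) := by
        rw [← lintegral_indicator hEm]
        refine lintegral_congr fun x => ?_
        by_cases hx : x ∈ Es F lam
        · rw [indicator_of_mem hx, indicator_of_mem hx, ofReal_norm]
        · rw [indicator_of_notMem hx, indicator_of_notMem hx, ENNReal.ofReal_zero]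
    _ = ENNReal.ofReal (∫ x, (Es F lam).indicator (fun x => ‖F x‖) x) :=
        (ofReal_integral_eq_lintegral_ofReal hFi (Filter.Eventually.of_forall fun x =>
          indicator_nonneg (fun _ _ => norm_nonneg _) x)).symm
    _ = ‖∫ x, g x * conj (v1 x + v2 x)‖ₑ := by
        rw [← hI, ← ofReal_norm, Complex.norm_real, Real.norm_eq_abs, abs_of_nonneg hpos]
    _ ≤ ∫⁻ x, ‖g x * conj (v1 x + v2 x)‖ₑ := enorm_integral_le_lintegral_enorm _
    _ ≤ ∫⁻ x, (‖g x‖ₑ * ‖v1 x‖ₑ + ‖g x‖ₑ * ‖v2 x‖ₑ) := by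
        refine lintegral_mono fun x => ?_
        rw [enorm_mul, ← mul_add]
        gcongr
        have : ‖conj (v1 x + v2 x)‖ₑ = ‖v1 x + v2 x‖ₑ := by
          rw [← ofReal_norm, ← ofReal_norm, RCLike.norm_conj]
        rw [this]
        exact enorm_add_le _ _
    _ = _ := lintegral_add_left (hg.1.enorm.mul hm1.enorm) _

lemma holder4 {f h : ℝ × ℝ → ℝ≥0∞} (hf : Measurable f) (hh : Measurable h)
    (h1 : ∀ x, f x ≠ 0 → 1 ≤ f x) :
    (∫⁻ x, f x * h x) ^ 4 ≤ (∫⁻ x, f x ^ 2) ^ 3 * ∫⁻ x, h x ^ 4 := by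
  have hpq : (4 / 3 : ℝ).HolderConjugate 4 := by
    rw [Real.holderConjugate_iff]
    norm_num
  have h2 := ENNReal.lintegral_mul_le_Lp_mul_Lq volume hpq hf.aemeasurable hh.aemeasurable
  have h3 : ∫⁻ x, f x ^ (4 / 3 : ℝ) ≤ ∫⁻ x, f x ^ 2 := by
    refine lintegral_mono fun x => ?_
    by_cases h0 : f x = 0
    · rw [h0, ENNReal.zero_rpow_of_pos (by norm_num)]
      exact zero_le
    · rw [← ENNReal.rpow_natCast]
      exact ENNReal.rpow_le_rpow_of_exponent_le (h1 x h0) (by norm_num)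
  have h4 : ∀ x, h x ^ (4 : ℝ) = h x ^ 4 := by
    intro x
    rw [← ENNReal.rpow_natCast]
    norm_num
  have h5 : ∫⁻ x, h x ^ (4 : ℝ) = ∫⁻ x, h x ^ 4 := lintegral_congr h4
  rw [h5] at h2
  calc (∫⁻ x, f x * h x) ^ 4
      ≤ ((∫⁻ x, f x ^ (4 / 3 : ℝ)) ^ (1 / (4 / 3) : ℝ) * (∫⁻ x, h x ^ 4) ^ (1 / 4 : ℝ)) ^ 4 := by
        gcongr
        exact h2
    _ = (∫⁻ x, f x ^ (4 / 3 : ℝ)) ^ 3 * ∫⁻ x, h x ^ 4 := by
        rw [mul_pow, ← ENNReal.rpow_natCast, ← ENNReal.rpow_natCast, ← ENNReal.rpow_natCast,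
          ← ENNReal.rpow_mul, ← ENNReal.rpow_mul]
        norm_num
    _ ≤ _ := by gcongr

lemma holder2 {f h : ℝ × ℝ → ℝ≥0∞} (hf : Measurable f) (hh : Measurable h) :
    (∫⁻ x, f x * h x) ^ 2 ≤ (∫⁻ x, f x ^ 2) * ∫⁻ x, h x ^ 2 := by
  have hpq : (2 : ℝ).HolderConjugate 2 := by
    rw [Real.holderConjugate_iff]
    norm_num
  have h2 := ENNReal.lintegral_mul_le_Lp_mul_Lq volume hpq hf.aemeasurable hh.aemeasurable
  have h4 : ∀ y : ℝ≥0∞, y ^ (2 : ℝ) = y ^ 2 := by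
    intro y
    rw [← ENNReal.rpow_natCast]
    norm_num
  simp only [h4] at h2
  calc (∫⁻ x, f x * h x) ^ 2
      ≤ ((∫⁻ x, f x ^ 2) ^ (1 / 2 : ℝ) * (∫⁻ x, h x ^ 2) ^ (1 / 2 : ℝ)) ^ 2 := by
        gcongr
        exact h2
    _ = _ := by
        rw [mul_pow, ← ENNReal.rpow_natCast, ← ENNReal.rpow_natCast,
          ← ENNReal.rpow_mul, ← ENNReal.rpow_mul]
        norm_num

/-- the final computation -/
lemma final (lam C : ℝ≥0) (e G A B Q δ : ℝ≥0∞) (he : e < ⊤) (hlam : lam ≠ 0)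
    (hAB : (lam : ℝ≥0∞) * e ≤ A + B) (hA : A ^ 4 ≤ G ^ 3 * (C * Q ^ 3 * e))
    (hB : B ^ 2 ≤ G * (C * δ * e)) :
    (lam : ℝ≥0∞) ^ 2 * e ≤ (16 * C + 1 : ℝ≥0) * (δ + Q * (lam : ℝ≥0∞) ^ (2 / 3 : ℝ)) * G := by
  have hl0 : (lam : ℝ≥0∞) ≠ 0 := by simpa using hlam
  have hlt : (lam : ℝ≥0∞) ≠ ⊤ := ENNReal.coe_ne_top
  rcases eq_or_ne e 0 with h0 | h0
  · rw [h0, mul_zero]
    exact zero_le
  have hcast : (((16 * C + 1 : ℝ≥0) : ℝ≥0∞)) = 16 * C + 1 := by push_cast; rfl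
  have h2 : (lam : ℝ≥0∞) * e ≤ 2 * A ∨ (lam : ℝ≥0∞) * e ≤ 2 * B := by
    rcases le_total A B with h | h
    · right
      calc (lam : ℝ≥0∞) * e ≤ A + B := hAB
        _ ≤ B + B := by gcongr
        _ = 2 * B := (two_mul B).symm
    · left
      calc (lam : ℝ≥0∞) * e ≤ A + B := hAB
        _ ≤ A + A := by gcongr
        _ = 2 * A := (two_mul A).symm
  rw [hcast]
  rcases h2 with h2 | h2
  · -- the fourth power
    have h3 : ((lam : ℝ≥0∞) * e) ^ 4 ≤ (2 * A) ^ 4 := by gcongr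
    have h4 : ((lam : ℝ≥0∞) ^ 4 * e ^ 3) * e ≤ (16 * C * Q ^ 3 * G ^ 3) * e := by
      calc ((lam : ℝ≥0∞) ^ 4 * e ^ 3) * e = ((lam : ℝ≥0∞) * e) ^ 4 := by ring
        _ ≤ (2 * A) ^ 4 := h3
        _ = 16 * A ^ 4 := by ring
        _ ≤ 16 * (G ^ 3 * (C * Q ^ 3 * e)) := by gcongr
        _ = _ := by ring
    have h5 : (lam : ℝ≥0∞) ^ 4 * e ^ 3 ≤ 16 * C * Q ^ 3 * G ^ 3 :=
      (ENNReal.mul_le_mul_iff_left h0 he.ne).1 h4
    have h6 : (16 : ℝ≥0∞) * C ≤ (16 * C + 1) ^ 3 := by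
      calc (16 : ℝ≥0∞) * C ≤ 16 * C + 1 := le_self_add
        _ = (16 * C + 1) ^ 1 := (pow_one _).symm
        _ ≤ (16 * C + 1) ^ 3 := pow_le_pow_right₀ le_add_self (by norm_num)
    have h7 : ((lam : ℝ≥0∞) ^ (4 / 3 : ℝ) * e) ^ 3 ≤ ((16 * C + 1) * Q * G) ^ 3 := by
      calc ((lam : ℝ≥0∞) ^ (4 / 3 : ℝ) * e) ^ 3 = (lam : ℝ≥0∞) ^ 4 * e ^ 3 := by
            rw [mul_pow]
            congr 1
            rw [← ENNReal.rpow_natCast, ← ENNReal.rpow_mul, ← ENNReal.rpow_natCast]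
            norm_num
        _ ≤ 16 * C * Q ^ 3 * G ^ 3 := h5
        _ ≤ (16 * C + 1) ^ 3 * Q ^ 3 * G ^ 3 := by gcongr
        _ = _ := by ring
    have h8 : (lam : ℝ≥0∞) ^ (4 / 3 : ℝ) * e ≤ (16 * C + 1) * Q * G := by
      rw [← ENNReal.rpow_natCast, ← ENNReal.rpow_natCast] at h7
      exact (ENNReal.rpow_le_rpow_iff (by norm_num)).1 h7
    have h9 : (lam : ℝ≥0∞) ^ 2 = (lam : ℝ≥0∞) ^ (2 / 3 : ℝ) * (lam : ℝ≥0∞) ^ (4 / 3 : ℝ) := by
      rw [← ENNReal.rpow_add _ _ hl0 hlt, ← ENNReal.rpow_natCast]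
      norm_num
    calc (lam : ℝ≥0∞) ^ 2 * e = (lam : ℝ≥0∞) ^ (2 / 3 : ℝ) * ((lam : ℝ≥0∞) ^ (4 / 3 : ℝ) * e) := by
          rw [h9, mul_assoc]
      _ ≤ (lam : ℝ≥0∞) ^ (2 / 3 : ℝ) * ((16 * C + 1) * Q * G) := by gcongr
      _ = (16 * C + 1) * (Q * (lam : ℝ≥0∞) ^ (2 / 3 : ℝ)) * G := by ring
      _ ≤ (16 * C + 1) * (δ + Q * (lam : ℝ≥0∞) ^ (2 / 3 : ℝ)) * G := by
          gcongr
          exact le_add_self
  · have h3 : ((lam : ℝ≥0∞) * e) ^ 2 ≤ (2 * B) ^ 2 := by gcongr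
    have h4 : ((lam : ℝ≥0∞) ^ 2 * e) * e ≤ (4 * C * δ * G) * e := by
      calc ((lam : ℝ≥0∞) ^ 2 * e) * e = ((lam : ℝ≥0∞) * e) ^ 2 := by ring
        _ ≤ (2 * B) ^ 2 := h3
        _ = 4 * B ^ 2 := by ring
        _ ≤ 4 * (G * (C * δ * e)) := by gcongr
        _ = _ := by ring
    have h5 : (lam : ℝ≥0∞) ^ 2 * e ≤ 4 * C * δ * G :=
      (ENNReal.mul_le_mul_iff_left h0 he.ne).1 h4
    calc (lam : ℝ≥0∞) ^ 2 * e ≤ 4 * C * δ * G := h5
      _ ≤ (16 * C + 1) * δ * G := by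
          gcongr
          calc (4 : ℝ≥0∞) * C ≤ 16 * C := by gcongr; norm_num
            _ ≤ 16 * C + 1 := le_self_add
      _ ≤ (16 * C + 1) * (δ + Q * (lam : ℝ≥0∞) ^ (2 / 3 : ℝ)) * G := by
          gcongr
          exact le_self_add

end OP_

open OP_ in
/-- F2 -/
theorem pOP (hD : tD) (hTRV : tTRV) (hVB : tVB) (hMUP : tMUP) (hHAT : LLog.tHAT) : tOP := by
  obtain ⟨C, hC⟩ := hD
  refine ⟨16 * C + 1, ?_⟩
  intro a m l t sg sl k g lam hHP ht1 ht3 hk hk4 hg hg1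
  rcases eq_or_ne lam 0 with h0 | h0
  · rw [h0]
    simp
  obtain ⟨hkc, hH, hG⟩ := hTRV a m l t sg sl k hHP ht1 ht3 hk hk4
  obtain ⟨hhc, hhb, hpl, -⟩ := hHAT g hg
  obtain ⟨hFm, hF2⟩ := hH (hat g) hhc.measurable hhb
  have hl0 : (lam : ℝ≥0∞) ≠ 0 := by simpa using h0
  have hFG : ∫⁻ x, ‖TF a m sg sl k l t (hat g) x‖ₑ ^ 2 ≤ ∫⁻ x, ‖g x‖ₑ ^ 2 := by
    refine hF2.trans ?_
    rw [← hpl]
    exact setLIntegral_le_lintegral _ _
  have hE : volume (Es (TF a m sg sl k l t (hat g)) lam) < ⊤ := by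
    have h1 : (lam : ℝ≥0∞) ^ 2 * volume (Es (TF a m sg sl k l t (hat g)) lam) ≤
        ∫⁻ x, ‖g x‖ₑ ^ 2 := by
      calc (lam : ℝ≥0∞) ^ 2 * volume (Es (TF a m sg sl k l t (hat g)) lam)
          = ∫⁻ _ in Es (TF a m sg sl k l t (hat g)) lam, (lam : ℝ≥0∞) ^ 2 := by
            rw [setLIntegral_const]
        _ ≤ ∫⁻ x in Es (TF a m sg sl k l t (hat g)) lam,
            ‖TF a m sg sl k l t (hat g) x‖ₑ ^ 2 := by
            refine setLIntegral_mono' (Es_meas hFm) fun x hx => ?_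
            have h2 : (lam : ℝ≥0∞) < ‖TF a m sg sl k l t (hat g) x‖ₑ := hx
            gcongr
        _ ≤ ∫⁻ x, ‖TF a m sg sl k l t (hat g) x‖ₑ ^ 2 := setLIntegral_le_lintegral _ _
        _ ≤ _ := hFG
    by_contra hcon
    rw [not_lt, top_le_iff] at hcon
    rw [hcon, ENNReal.mul_top (pow_ne_zero 2 hl0), top_le_iff] at h1
    exact absurd h1 (sq_fin hg).ne
  have hκ := kc_meas m l sg k hk
  obtain ⟨v1, v2, hm1, hm2, hv, hv1, hv2⟩ := hC a m l sg sl
    (ww (TF a m sg sl k l t (hat g)) (kc m sg k l) lam t) hHP (ww_Fm hFm hκ hE)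
  have hEE : volume (EE l (ww (TF a m sg sl k l t (hat g)) (kc m sg k l) lam t)) ≤
      volume (Es (TF a m sg sl k l t (hat g)) lam) := by
    refine measure_mono ?_
    rintro x ⟨c, _, hc⟩
    exact (ww_ne hc).1
  have hdual := dual hHAT hVB hMUP hTRV hHP ht1 ht3 hk hk4 hg hE hv hm1
  have hA : (∫⁻ x, ‖g x‖ₑ * ‖v1 x‖ₑ) ^ 4 ≤ (∫⁻ x, ‖g x‖ₑ ^ 2) ^ 3 *
      (C * (2 ^ (420 * a)) ^ 3 * volume (Es (TF a m sg sl k l t (hat g)) lam)) := by
    refine (holder4 hg.1.enorm hm1.enorm (fun x hx => ?_)).trans ?_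
    · have h1 : g x ≠ 0 := by simpa using hx
      have h2 := hg1 x h1
      rw [← ofReal_norm]
      exact ENNReal.one_le_ofReal.2 h2
    · gcongr
      refine hv1.trans ?_
      have hpw : (2 : ℝ≥0∞) ^ (1250 * a) ≤ (2 ^ (420 * a)) ^ 3 := by
        rw [← pow_mul]
        exact pow_le_pow_right₀ (by norm_num) (by omega)
      exact mul_le_mul' (mul_le_mul' le_rfl hpw) hEE
  have hB : (∫⁻ x, ‖g x‖ₑ * ‖v2 x‖ₑ) ^ 2 ≤ (∫⁻ x, ‖g x‖ₑ ^ 2) *
      (C * ENNReal.ofReal (1 / 2 ^ (9 * a)) *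
        volume (Es (TF a m sg sl k l t (hat g)) lam)) := by
    refine (holder2 hg.1.enorm hm2.enorm).trans ?_
    gcongr
    refine hv2.trans ?_
    gcongr
  exact final lam C _ _ _ _ _ _ hE h0 hdual hA hB

end Pool.Agent.SLog
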