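import Pool.Agent.SLog.Targets

set_option autoImplicit false

/-! C10: overlap of the cutoffs. -/

namespace Pool.Agent.SLog

open MeasureTheory Set
open scoped ENNReal NNReal ComplexConjugate
open Pool.Agent.KSP (ee dot nr Ex Ex1 Bd Bd1 n1 n2 lg V0 ann)
open Pool.Agent.LLog (PA nv tv bx tp Bf hat)

namespace OVL_

lemma av_sum (s : Finset ℕ) (t A B : ℝ) (g : ℕ → ℝ × ℝ → ℝ≥0∞) (hg : ∀ c ∈ s, Measurable (g c))
    (x : ℝ × ℝ) : ∑ c ∈ s, av t A B (g c) x = av t A B (fun y => ∑ c ∈ s, g c y) x := by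
  unfold av
  rw [← Finset.mul_sum, lintegral_finsetSum s hg]

lemma av_le_const (hAVG : tAVG) {t A B : ℝ} (hA : 0 < A) (hB : 0 < B) {g : ℝ × ℝ → ℝ≥0∞}
    {M : ℝ≥0∞} (h : ∀ y, g y ≤ M) (x : ℝ × ℝ) : av t A B g x ≤ M := by
  have hv := (hAVG t A B (fun _ => 1) hA hB measurable_const).2.1 x
  have hpos : 0 < 4 * A * B := by positivity
  unfold av
  calc (ENNReal.ofReal (4 * A * B))⁻¹ * ∫⁻ y in bx t x A B, g y
      ≤ (ENNReal.ofReal (4 * A * B))⁻¹ * ∫⁻ _ in bx t x A B, M := by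
        gcongr
        exact h _
    _ = (ENNReal.ofReal (4 * A * B))⁻¹ * (M * ENNReal.ofReal (4 * A * B)) := by
        rw [setLIntegral_const, hv]
    _ = M := by
        rw [mul_comm M, ← mul_assoc,
          ENNReal.inv_mul_cancel (ENNReal.ofReal_pos.mpr hpos).ne' ENNReal.ofReal_ne_top, one_mul]

lemma meas_nb (a l : ℕ) (Y : Set (ℝ × ℝ)) : MeasurableSet (nb a l Y) := by
  have h : nb a l Y = ⋃ y ∈ Y, {x : ℝ × ℝ | |y.1 - x.1| < 2 ^ (l + 15 * a) ∧
      |y.2 - x.2| < 2 ^ (l + 15 * a)} := by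
    ext x
    simp only [nb, mem_ofPred_eq, mem_iUnion, exists_prop]
  rw [h]
  refine IsOpen.measurableSet (isOpen_biUnion fun y _ => ?_)
  refine IsOpen.and ?_ ?_
  · exact isOpen_lt (by fun_prop) continuous_const
  · exact isOpen_lt (by fun_prop) continuous_const

lemma nb_sub (a l : ℕ) (Y : Set (ℝ × ℝ)) : nb a l Y ⊆ nb a l (nb a l Y) := by
  intro x hx
  refine ⟨x, hx, ?_, ?_⟩ <;> · rw [sub_self, abs_zero]; positivity

lemma two_pow (n : ℕ) : (2 : ℝ≥0∞) ^ n = ENNReal.ofReal (2 ^ n) := by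
  rw [ENNReal.ofReal_pow (by norm_num), ENNReal.ofReal_ofNat]

lemma key (n : ℕ) : ENNReal.ofReal (1 / 2 ^ n) * 2 ^ n = 1 := by
  rw [two_pow, ← ENNReal.ofReal_mul (by positivity), one_div, inv_mul_cancel₀ (by positivity),
    ENNReal.ofReal_one]

lemma card_CC (l : ℕ) : ((CC l).card : ℝ≥0∞) = ENNReal.ofReal (2 * 4 ^ l) := by
  unfold CC
  rw [Finset.card_range]
  push_cast
  rw [ENNReal.ofReal_mul (by norm_num), ENNReal.ofReal_pow (by norm_num), ENNReal.ofReal_ofNat,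
    ENNReal.ofReal_ofNat]

lemma Bf_fin {g : ℝ × ℝ → ℂ} (hg : Bf g) : ∫⁻ x, ‖g x‖ₑ ^ 2 < ⊤ := by
  obtain ⟨hm, ⟨B, hB⟩, hv⟩ := hg
  have hS : MeasurableSet {x | g x ≠ 0} := (hm (measurableSet_singleton 0)).compl
  have h1 : ∫⁻ x, ‖g x‖ₑ ^ 2 ≤ ∫⁻ x, {x | g x ≠ 0}.indicator (fun _ => ENNReal.ofReal B ^ 2) x := by
    refine lintegral_mono fun x => ?_
    by_cases hx : g x = 0
    · rw [hx, enorm_zero, zero_pow (by norm_num)]
      exact bot_le
    · have hx' : x ∈ {x | g x ≠ 0} := hx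
      rw [indicator_of_mem hx']
      gcongr
      rw [← ofReal_norm]
      exact ENNReal.ofReal_le_ofReal (hB x)
  refine lt_of_le_of_lt h1 ?_
  rw [lintegral_indicator_const hS]
  exact ENNReal.mul_lt_top (ENNReal.pow_lt_top ENNReal.ofReal_lt_top) hv

lemma Lg_pos (a l : ℕ) : 0 < Lg a l := by
  unfold Lg; positivity

end OVL_

open OVL_ in
theorem pOVL (hETP : tETP) (hAVG : tAVG) (hVB : tVB) : tOVL := by
  intro a m l sg sl w Y hHP hPf x
  obtain ⟨hPA, hal, hlm, -, -, -, -⟩ := id hHP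
  obtain ⟨ha20, -, h2am⟩ := id hPA
  have hm1 : 1 ≤ m := by omega
  have ham : a ≤ 2 * m := (Nat.lt_two_pow_self (n := a)).le.trans h2am
  obtain ⟨hFm, hY, hnn, hov⟩ := hPf
  constructor
  · intro p hp
    set τ : ℝ≥0 := Real.toNNReal (1 / 2 ^ (58 * a)) with hτ
    have hτpos : 0 < τ := Real.toNNReal_pos.mpr (by positivity)
    have hτ2 : (τ : ℝ≥0∞) * 2 ^ (58 * a) = 1 := key (58 * a)
    have hc : ∀ c ∈ CC l, ENNReal.ofReal (eh a m sl l (Y c) p x) * τ ≤
        9 / 4 * avL a l sl 3 (l + 8 * a) p ((nb a l (Y c)).indicator 1) x +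
          ENNReal.ofReal (2 / 2 ^ (40 * m)) * τ := by
      intro c _
      have hG : Measurable ((nb a l (Y c)).indicator (1 : ℝ × ℝ → ℝ≥0∞)) :=
        measurable_one.indicator (meas_nb a l (Y c))
      have hfin : ∫⁻ x, (nb a l (Y c)).indicator (1 : ℝ × ℝ → ℝ≥0∞) x ≠ ⊤ := by
        rw [lintegral_indicator_one (meas_nb a l (Y c))]
        refine ((measure_mono (nb_sub a l (Y c))).trans_lt ((hnn c).trans_lt ?_)).ne
        refine ENNReal.mul_lt_top ?_ (hFm.1 c).1.2.2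
        exact ENNReal.mul_lt_top (by norm_num) (ENNReal.pow_lt_top (by norm_num))
      exact (hETP a m l (l + 8 * a) p sl τ _ _ hPA hτpos hG hfin rfl).2.2.2 x
    have hsum := Finset.sum_le_sum hc
    rw [← Finset.sum_mul, Finset.sum_add_distrib, ← Finset.mul_sum, Finset.sum_const,
      nsmul_eq_mul] at hsum
    have hav : ∑ c ∈ CC l, avL a l sl 3 (l + 8 * a) p ((nb a l (Y c)).indicator 1) x ≤
        9 * 2 ^ (60 * a) := by
      unfold avL
      rw [av_sum (CC l) _ _ _ (fun c => (nb a l (Y c)).indicator (1 : ℝ × ℝ → ℝ≥0∞))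
        (fun c _ => measurable_one.indicator (meas_nb a l (Y c)))]
      have hL := Lg_pos a l
      refine av_le_const hAVG (by positivity) (by positivity) ?_ x
      intro y
      refine le_trans (le_of_eq ?_) (hov y)
      classical
      rw [Finset.card_filter]
      push_cast
      refine Finset.sum_congr rfl fun c _ => ?_
      by_cases hy : y ∈ nb a l (Y c)
      · rw [indicator_of_mem hy, if_pos hy]; rfl
      · rw [indicator_of_notMem hy, if_neg hy]
    set S : ℝ≥0∞ := ∑ c ∈ CC l, ENNReal.ofReal (eh a m sl l (Y c) p x) with hS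
    have h94 : (9 / 4 : ℝ≥0∞) = ENNReal.ofReal (9 / 4) := by
      rw [ENNReal.ofReal_div_of_pos (by norm_num), ENNReal.ofReal_ofNat, ENNReal.ofReal_ofNat]
    have h9 : (9 : ℝ≥0∞) = ENNReal.ofReal 9 := by rw [ENNReal.ofReal_ofNat]
    have h21 : (21 : ℝ≥0∞) = ENNReal.ofReal 21 := by rw [ENNReal.ofReal_ofNat]
    have hST : S = S * τ * 2 ^ (58 * a) := by rw [mul_assoc, hτ2, mul_one]
    calc S = S * τ * 2 ^ (58 * a) := hST
      _ ≤ (9 / 4 * (9 * 2 ^ (60 * a)) + ((CC l).card : ℝ≥0∞) *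
            (ENNReal.ofReal (2 / 2 ^ (40 * m)) * τ)) * 2 ^ (58 * a) := by
          gcongr
          exact hsum.trans (by gcongr)
      _ = 9 / 4 * (9 * 2 ^ (60 * a)) * 2 ^ (58 * a) + ((CC l).card : ℝ≥0∞) *
            ENNReal.ofReal (2 / 2 ^ (40 * m)) * (τ * 2 ^ (58 * a)) := by ring
      _ = ENNReal.ofReal (81 / 4 * 2 ^ (118 * a)) +
            ENNReal.ofReal (2 * 4 ^ l * (2 / 2 ^ (40 * m))) := by
          rw [hτ2, mul_one, card_CC, ← ENNReal.ofReal_mul (by positivity), h94, h9, two_pow,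
            two_pow, ← ENNReal.ofReal_mul (by positivity), ← ENNReal.ofReal_mul (by positivity),
            ← ENNReal.ofReal_mul (by positivity)]
          congr 2
          have : (2 : ℝ) ^ (118 * a) = 2 ^ (60 * a) * 2 ^ (58 * a) := by
            rw [← pow_add]; congr 1; ring
          rw [this]; ring
      _ = ENNReal.ofReal (81 / 4 * 2 ^ (118 * a) + 2 * 4 ^ l * (2 / 2 ^ (40 * m))) := by
          rw [ENNReal.ofReal_add (by positivity) (by positivity)]
      _ ≤ ENNReal.ofReal (21 * 2 ^ (118 * a)) := by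
          apply ENNReal.ofReal_le_ofReal
          have e1 : (2 : ℝ) * 4 ^ l * (2 / 2 ^ (40 * m)) ≤ 1 / 2 := by
            have e2 : (4 : ℝ) ^ l = 2 ^ (2 * l) := by rw [pow_mul]; norm_num
            have e3 : (2 : ℝ) ^ (2 * l + 3) ≤ 2 ^ (40 * m) :=
              pow_le_pow_right₀ (by norm_num) (by omega)
            rw [e2]
            have e4 : (2 : ℝ) * 2 ^ (2 * l) * (2 / 2 ^ (40 * m)) =
              (2 ^ (2 * l + 3) / 2 ^ (40 * m)) * (1 / 2) := by
              rw [pow_add]; ring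
            rw [e4]
            have e5 : (2 : ℝ) ^ (2 * l + 3) / 2 ^ (40 * m) ≤ 1 :=
              (div_le_one (by positivity)).mpr e3
            linarith
          have e6 : (1 : ℝ) ≤ 2 ^ (118 * a) := one_le_pow₀ (by norm_num)
          linarith
      _ = 21 * 2 ^ (118 * a) := by
          rw [ENNReal.ofReal_mul (by norm_num), ← two_pow, ENNReal.ofReal_ofNat]
  · set τ : ℝ≥0 := Real.toNNReal (1 / 2 ^ (176 * a)) with hτ
    have hτpos : 0 < τ := Real.toNNReal_pos.mpr (by positivity)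
    have hτ2 : (τ : ℝ≥0∞) * 2 ^ (176 * a) = 1 := key (176 * a)
    have hterm : ∀ c ∈ CC l, ∀ i ∈ Finset.range (l + 8 * a + 1), ∀ b ∈ Finset.range (3 * 2 ^ i),
        ENNReal.ofReal (ea a m sl l (VV a m sg sl l (w c) c) i b x) ≤
          9 / 4 * 2 ^ (176 * a) * Dn a l sl 3 (fun p => VV a m sg sl l (w c) c p) i b x +
            ENNReal.ofReal (2 / 2 ^ (40 * m)) := by
      intro c hc i _ b _
      have hV := hVB a m l sg sl (w c) hHP (hFm.1 c).1
      have hmeas : ∀ p ∈ near a l i b, Measurable (VV a m sg sl l (w c) c p) := by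
        intro p hp
        have hpP : p ∈ PP a l := (Finset.mem_filter.mp hp).1
        have := (hV.1 c hc p hpP).1.measurable
        unfold VV
        exact this.enorm.pow_const 2
      have hG : Measurable (fun y => ∑ p ∈ near a l i b, VV a m sg sl l (w c) c p y) :=
        Finset.measurable_fun_sum _ hmeas
      have hfin : ∫⁻ y, ∑ p ∈ near a l i b, VV a m sg sl l (w c) c p y ≠ ⊤ := by
        rw [lintegral_finsetSum _ hmeas]
        refine (ENNReal.sum_lt_top.mpr fun p hp => ?_).ne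
        have hpP : p ∈ PP a l := (Finset.mem_filter.mp hp).1
        have hle := hV.2.2.trans_lt (Bf_fin (hFm.1 c).1)
        exact (ENNReal.sum_lt_top.mp ((ENNReal.sum_lt_top.mp hle) c hc)) p hpP
      have h := (hETP a m l i b sl τ _ _ hPA hτpos hG hfin rfl).2.2.2 x
      have hE : ea a m sl l (VV a m sg sl l (w c) c) i b x =
          eti a m sl l i b {x | (τ : ℝ≥0∞) ≤ avL a l sl 2 i b
            (fun y => ∑ p ∈ near a l i b, VV a m sg sl l (w c) c p y) x} x := rfl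
      rw [hE]
      set E : ℝ≥0∞ := ENNReal.ofReal (eti a m sl l i b {x | (τ : ℝ≥0∞) ≤ avL a l sl 2 i b
            (fun y => ∑ p ∈ near a l i b, VV a m sg sl l (w c) c p y) x} x) with hEdef
      calc E = E * τ * 2 ^ (176 * a) := by rw [mul_assoc, hτ2, mul_one]
        _ ≤ (9 / 4 * avL a l sl 3 i b
              (fun y => ∑ p ∈ near a l i b, VV a m sg sl l (w c) c p y) x +
              ENNReal.ofReal (2 / 2 ^ (40 * m)) * τ) * 2 ^ (176 * a) := by gcongr
        _ = 9 / 4 * 2 ^ (176 * a) * avL a l sl 3 i b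
              (fun y => ∑ p ∈ near a l i b, VV a m sg sl l (w c) c p y) x +
              ENNReal.ofReal (2 / 2 ^ (40 * m)) * (τ * 2 ^ (176 * a)) := by ring
        _ = _ := by rw [hτ2, mul_one]; rfl
    have hsum : ∑ c ∈ CC l, ∑ i ∈ Finset.range (l + 8 * a + 1), ∑ b ∈ Finset.range (3 * 2 ^ i),
        ENNReal.ofReal (ea a m sl l (VV a m sg sl l (w c) c) i b x) ≤
        ∑ c ∈ CC l, ∑ i ∈ Finset.range (l + 8 * a + 1), ∑ b ∈ Finset.range (3 * 2 ^ i),
          (9 / 4 * 2 ^ (176 * a) * Dn a l sl 3 (fun p => VV a m sg sl l (w c) c p) i b x +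
            ENNReal.ofReal (2 / 2 ^ (40 * m))) :=
      Finset.sum_le_sum fun c hc => Finset.sum_le_sum fun i hi => Finset.sum_le_sum fun b hb =>
        hterm c hc i hi b hb
    refine hsum.trans ?_
    simp only [Finset.sum_add_distrib, ← Finset.mul_sum, Finset.sum_const, Finset.card_range,
      nsmul_eq_mul]
    have hNN : ∑ c ∈ CC l, ∑ i ∈ Finset.range (l + 8 * a + 1), ∑ b ∈ Finset.range (3 * 2 ^ i),
        Dn a l sl 3 (fun p => VV a m sg sl l (w c) c p) i b x = NN a m sg sl l w 3 x := rfl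
    rw [hNN, card_CC]
    have hgeo : ∑ i ∈ Finset.range (l + 8 * a + 1),
        (((3 * 2 ^ i : ℕ) : ℝ≥0∞) * ENNReal.ofReal (2 / 2 ^ (40 * m))) ≤
        ENNReal.ofReal (3 * 2 ^ (l + 8 * a + 1) * (2 / 2 ^ (40 * m))) := by
      rw [← Finset.sum_mul, ← Nat.cast_sum, ← Finset.mul_sum, ENNReal.ofReal_mul (by positivity)]
      gcongr
      have e1 : ∑ i ∈ Finset.range (l + 8 * a + 1), 2 ^ i ≤ 2 ^ (l + 8 * a + 1) := by
        rw [Nat.geomSum_eq (le_refl 2)]
        have : 0 < 2 ^ (l + 8 * a + 1) := by positivity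
        omega
      rw [← ENNReal.ofReal_natCast]
      apply ENNReal.ofReal_le_ofReal
      have e2 : ((3 * ∑ i ∈ Finset.range (l + 8 * a + 1), 2 ^ i : ℕ) : ℝ) ≤
          ((3 * 2 ^ (l + 8 * a + 1) : ℕ) : ℝ) := by
        exact_mod_cast Nat.mul_le_mul_left 3 e1
      push_cast at e2 ⊢
      exact e2
    have h94 : (9 / 4 : ℝ≥0∞) ≤ 3 := ENNReal.div_le_of_le_mul (by norm_num)
    calc 9 / 4 * 2 ^ (176 * a) * NN a m sg sl l w 3 x + ENNReal.ofReal (2 * 4 ^ l) *
          ∑ i ∈ Finset.range (l + 8 * a + 1),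
            (((3 * 2 ^ i : ℕ) : ℝ≥0∞) * ENNReal.ofReal (2 / 2 ^ (40 * m)))
        ≤ 3 * 2 ^ (176 * a) * NN a m sg sl l w 3 x + ENNReal.ofReal (2 * 4 ^ l) *
            ENNReal.ofReal (3 * 2 ^ (l + 8 * a + 1) * (2 / 2 ^ (40 * m))) := by
          gcongr
      _ ≤ 3 * 2 ^ (176 * a) * NN a m sg sl l w 3 x + 3 * 2 ^ (176 * a) := by
          refine add_le_add le_rfl ?_
          rw [← ENNReal.ofReal_mul (by positivity)]
          have e1 : (2 : ℝ) * 4 ^ l * (3 * 2 ^ (l + 8 * a + 1) * (2 / 2 ^ (40 * m))) ≤ 1 := by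
            have e2 : (4 : ℝ) ^ l = 2 ^ (2 * l) := by rw [pow_mul]; norm_num
            have e3 : (2 : ℝ) ^ (2 * l + (l + 8 * a + 1) + 4) ≤ 2 ^ (40 * m) :=
              pow_le_pow_right₀ (by norm_num) (by omega)
            have e4 : (2 : ℝ) * 4 ^ l * (3 * 2 ^ (l + 8 * a + 1) * (2 / 2 ^ (40 * m))) =
              (3 / 4) * (2 ^ (2 * l + (l + 8 * a + 1) + 4) / 2 ^ (40 * m)) := by
              rw [e2, pow_add _ (2 * l + (l + 8 * a + 1)), pow_add _ (2 * l)]; ring
            rw [e4]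
            have e5 : (2 : ℝ) ^ (2 * l + (l + 8 * a + 1) + 4) / 2 ^ (40 * m) ≤ 1 :=
              (div_le_one (by positivity)).mpr e3
            linarith
          have e7 : (1 : ℝ≥0∞) ≤ 3 * 2 ^ (176 * a) := by
            have f1 : (1 : ℝ≥0∞) ≤ 2 ^ (176 * a) := one_le_pow₀ (by norm_num)
            calc (1 : ℝ≥0∞) ≤ 2 ^ (176 * a) := f1
              _ = 1 * 2 ^ (176 * a) := (one_mul _).symm
              _ ≤ 3 * 2 ^ (176 * a) := by gcongr; norm_num
          refine le_trans ?_ e7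
          rw [← ENNReal.ofReal_one]
          exact ENNReal.ofReal_le_ofReal e1
      _ = 3 * 2 ^ (176 * a) * (NN a m sg sl l w 3 x + 1) := by ring

end Pool.Agent.SLog
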