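import Pool.Agent.SLog.Targets
import Pool.Agent.KSP.Base
import Pool.Agent.LLog.MUK

set_option autoImplicit false

/-! MP_ee701d_an (SLog): PPP, the multipliers `Pp`: supports and kernels. -/

namespace Pool.Agent.SLog

open MeasureTheory Set
open scoped ENNReal NNReal ComplexConjugate
open Pool.Agent.KSP (ee dot nr Ex Ex1 Bd Bd1 n1 n2 lg V0 ann)
open Pool.Agent.LLog (PA cd cdr cp fr tp Nn nv tv Core bx sa sd Qx kc psi kap GK psR psA anf mu Bf hat)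

namespace PPP_

/-- `L¹` norm and tail of a product of multipliers -/
lemma conv_est (hCVK : LLog.tCVK) (μ k : ℝ × ℝ → ℂ) (hμ : Bd μ) (hk : Bd k) :
    ∫⁻ x, ‖Ex (fun ξ => μ ξ * k ξ) x‖ₑ ≤ (∫⁻ z, ‖Ex μ z‖ₑ) * ∫⁻ z, ‖Ex k z‖ₑ ∧
    ∀ R R1 R2 : Set (ℝ × ℝ), MeasurableSet R → MeasurableSet R1 → MeasurableSet R2 →
      (∀ x z : ℝ × ℝ, x ∈ R → x - z ∈ R1 ∨ z ∈ R2) →
      ∫⁻ x in R, ‖Ex (fun ξ => μ ξ * k ξ) x‖ₑ ≤
        (∫⁻ z in R1, ‖Ex μ z‖ₑ) * (∫⁻ z, ‖Ex k z‖ₑ) +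
          (∫⁻ z, ‖Ex μ z‖ₑ) * ∫⁻ z in R2, ‖Ex k z‖ₑ := by
  have m1 : Measurable (fun z => ‖Ex μ z‖ₑ) := (KSP.pPl2 μ hμ).1.measurable.enorm
  have m2 : Measurable (fun z => ‖Ex k z‖ₑ) := (KSP.pPl2 k hk).1.measurable.enorm
  have hpt : ∀ x, ‖Ex (fun ξ => μ ξ * k ξ) x‖ₑ ≤ ∫⁻ z, ‖Ex μ (x - z)‖ₑ * ‖Ex k z‖ₑ := by
    intro x
    rw [(hCVK μ hμ).1 k hk x]
    refine (enorm_integral_le_lintegral_enorm _).trans (le_of_eq ?_)
    refine lintegral_congr fun z => ?_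
    rw [enorm_mul]
  have hconv : ∀ f g : ℝ × ℝ → ℝ≥0∞, Measurable f → Measurable g →
      ∫⁻ x, ∫⁻ z, f (x - z) * g z = (∫⁻ z, f z) * ∫⁻ z, g z := by
    intro f g hf hg
    rw [lintegral_lintegral_swap]
    · have : ∀ z, ∫⁻ x, f (x - z) * g z = (∫⁻ x, f x) * g z := by
        intro z
        have hm : Measurable (fun x : ℝ × ℝ => f (x - z)) :=
          hf.comp (measurable_id.sub_const z)
        rw [lintegral_mul_const _ hm, lintegral_sub_right_eq_self f z]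
      simp_rw [this]
      rw [lintegral_const_mul _ hg]
    · exact ((hf.comp (measurable_fst.sub measurable_snd)).mul
        (hg.comp measurable_snd)).aemeasurable
  constructor
  · exact (lintegral_mono hpt).trans (hconv _ _ m1 m2).le
  · intro R R1 R2 hR hR1 hR2 h
    have i1 : Measurable (R1.indicator fun z => ‖Ex μ z‖ₑ) := m1.indicator hR1
    have i2 : Measurable (R2.indicator fun z => ‖Ex k z‖ₑ) := m2.indicator hR2
    rw [← lintegral_indicator hR, ← lintegral_indicator hR1, ← lintegral_indicator hR2,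
      ← hconv _ _ i1 m2, ← hconv _ _ m1 i2, ← lintegral_add_left]
    · refine lintegral_mono fun x => ?_
      by_cases hx : x ∈ R
      · rw [indicator_of_mem hx]
        refine (hpt x).trans ?_
        rw [← lintegral_add_left]
        · refine lintegral_mono fun z => ?_
          rcases h x z hx with h1 | h1
          · simp only
            rw [indicator_of_mem h1]
            exact le_self_add
          · simp only
            rw [indicator_of_mem h1]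
            exact le_add_self
        · exact (i1.comp (measurable_const.sub measurable_id)).mul m2
      · rw [indicator_of_notMem hx]
        exact bot_le
    · exact Measurable.lintegral_prod_right'
        (f := fun P : (ℝ × ℝ) × (ℝ × ℝ) => (R1.indicator fun z => ‖Ex μ z‖ₑ) (P.1 - P.2) *
          ‖Ex k P.2‖ₑ)
        ((i1.comp (measurable_fst.sub measurable_snd)).mul (m2.comp measurable_snd))

/-- product of bounded functions of bounded support -/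
lemma Bd_mul (h k : ℝ × ℝ → ℂ) (hh : Bd h) (hk : Bd k) : Bd (fun ξ => h ξ * k ξ) := by
  obtain ⟨a1, ⟨B, a2⟩, ⟨R, a3⟩⟩ := hh
  obtain ⟨b1, ⟨B', b2⟩, -⟩ := hk
  refine ⟨a1.mul b1, ⟨B * B', fun ξ => ?_⟩, ⟨R, fun ξ hξ => a3 ξ (left_ne_zero_of_mul hξ)⟩⟩
  rw [norm_mul]
  exact mul_le_mul (a2 ξ) (b2 ξ) (norm_nonneg _) ((norm_nonneg _).trans (a2 ξ))

/-- coordinates from the frame -/
lemma frame_coord (t : ℝ) (z : ℝ × ℝ) (P Q : ℝ) (h1 : |dot z (nv t)| ≤ P)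
    (h2 : |dot z (tv t)| ≤ Q) : |z.1| ≤ P + Q ∧ |z.2| ≤ P + Q := by
  have hN : 0 < Nn t := Real.sqrt_pos.2 (by positivity)
  have hN2 : Nn t ^ 2 = 1 + t ^ 2 := Real.sq_sqrt (by positivity)
  have hNge : 1 ≤ Nn t := by nlinarith [sq_nonneg t]
  have hNt : |t| ≤ Nn t := by
    apply abs_le_of_sq_le_sq _ hN.le
    nlinarith
  set u := dot z (nv t) with hu
  set v := dot z (tv t) with hv
  have hu' : u * Nn t = z.1 + z.2 * t := by
    rw [hu]
    simp only [Pool.Agent.KSP.dot, nv]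
    field_simp
  have hv' : v * Nn t = -z.1 * t + z.2 := by
    rw [hv]
    simp only [Pool.Agent.KSP.dot, tv]
    field_simp
  have z1 : z.1 = (u - t * v) / Nn t := by
    rw [eq_div_iff hN.ne']
    have : z.1 * Nn t * Nn t = (u - t * v) * Nn t := by
      have e1 : z.1 * Nn t * Nn t = z.1 * (1 + t ^ 2) := by rw [← hN2]; ring
      have e2 : (u - t * v) * Nn t = u * Nn t - t * (v * Nn t) := by ring
      rw [e1, e2, hu', hv']
      ring
    exact mul_right_cancel₀ hN.ne' this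
  have z2 : z.2 = (t * u + v) / Nn t := by
    rw [eq_div_iff hN.ne']
    have : z.2 * Nn t * Nn t = (t * u + v) * Nn t := by
      have e1 : z.2 * Nn t * Nn t = z.2 * (1 + t ^ 2) := by rw [← hN2]; ring
      have e2 : (t * u + v) * Nn t = t * (u * Nn t) + v * Nn t := by ring
      rw [e1, e2, hu', hv']
      ring
    exact mul_right_cancel₀ hN.ne' this
  have hP : 0 ≤ P := (abs_nonneg _).trans h1
  have hQ : 0 ≤ Q := (abs_nonneg _).trans h2
  have k1 : P ≤ Nn t * P := le_mul_of_one_le_left hP hNge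
  have k2 : Q ≤ Nn t * Q := le_mul_of_one_le_left hQ hNge
  constructor
  · rw [z1, abs_div, abs_of_pos hN, div_le_iff₀ hN]
    have e1 : |u - t * v| ≤ |u| + |t| * |v| := by
      calc |u - t * v| ≤ |u| + |t * v| := abs_sub _ _
        _ = _ := by rw [abs_mul]
    have e2 : |t| * |v| ≤ Nn t * Q := mul_le_mul hNt h2 (abs_nonneg _) hN.le
    nlinarith
  · rw [z2, abs_div, abs_of_pos hN, div_le_iff₀ hN]
    have e1 : |t * u + v| ≤ |t| * |u| + |v| := by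
      calc |t * u + v| ≤ |t * u| + |v| := abs_add_le _ _
        _ = _ := by rw [abs_mul]
    have e2 : |t| * |u| ≤ Nn t * P := mul_le_mul hNt h1 (abs_nonneg _) hN.le
    nlinarith

/-- kernel of the angular factor times a radial cutoff of length `3 q^{-6}` -/
lemma kern (hPSI : LLog.tPSI) (hPRD : LLog.tPRD) (a m j : ℕ) (t r0 A : ℝ)
    (h : PA a m) (ht : t ^ 2 ≤ 4) (hr0 : 1 / 2 ≤ r0) (hj : 2 * a ≤ j)
    (hA : 2 ^ (6 * a + j) ≤ A) :
    Bd (fun ξ => (psi (40 * m) (r0 - 1 / 4 ^ (3 * a)) (r0 + 2 / 4 ^ (3 * a)) (1 / 4 ^ (3 * a))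
        (dot ξ (nv t)) : ℂ) * (psA a m (Nn t ^ 2 * 2 ^ j / r0 * dot ξ (tv t)) : ℂ)) ∧
    ∫⁻ z, ‖Ex (fun ξ => (psi (40 * m) (r0 - 1 / 4 ^ (3 * a)) (r0 + 2 / 4 ^ (3 * a))
        (1 / 4 ^ (3 * a)) (dot ξ (nv t)) : ℂ) *
        (psA a m (Nn t ^ 2 * 2 ^ j / r0 * dot ξ (tv t)) : ℂ)) z‖ₑ ≤ 2 ^ a ∧
    ∫⁻ z in {z | ¬ (|dot z (nv t)| ≤ A ∧ |dot z (tv t)| ≤ A)},
      ‖Ex (fun ξ => (psi (40 * m) (r0 - 1 / 4 ^ (3 * a)) (r0 + 2 / 4 ^ (3 * a))
        (1 / 4 ^ (3 * a)) (dot ξ (nv t)) : ℂ) *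
        (psA a m (Nn t ^ 2 * 2 ^ j / r0 * dot ξ (tv t)) : ℂ)) z‖ₑ ≤
      ENNReal.ofReal (1 / 2 ^ (30 * m)) := by
  obtain ⟨g1, g2, g3, g4, g5, g6, g7⟩ := LLog.MUK_.pow_facts a m h
  set C0 : ℝ := Nn t ^ 2 * 2 ^ j / r0 with hC0
  set η : ℝ := 1 / 2 ^ (4 * a + 1) with hη
  have hηp : 0 < η := by positivity
  have hη1 : 2 ^ (4 * a + 1) * η = 1 := by rw [hη]; field_simp
  have hη4 : η ≤ 1 / 4 := by
    rw [hη]
    apply one_div_le_one_div_of_le (by norm_num)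
    calc (4 : ℝ) = 2 ^ 2 := by norm_num
      _ ≤ 2 ^ (4 * a + 1) := pow_le_pow_right₀ (by norm_num) (by have := h.1; omega)
  have hr0p : 0 < r0 := by linarith
  have hNn : Nn t ^ 2 = 1 + t ^ 2 := Real.sq_sqrt (by positivity)
  have hC0p : 0 < C0 := by
    rw [hC0, hNn]
    positivity
  have hC0le : C0 ≤ 10 * 2 ^ j := by
    rw [hC0, div_le_iff₀ hr0p, hNn]
    have : (0 : ℝ) < 2 ^ j := by positivity
    nlinarith
  have h4 : (0 : ℝ) < 4 ^ (3 * a) := by positivity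
  -- radial factor
  obtain ⟨r1, r2, r3⟩ := LLog.MUK_.psi_est hPSI a m (r0 - 1 / 4 ^ (3 * a))
    (r0 + 2 / 4 ^ (3 * a)) (1 / 4 ^ (3 * a)) h (by positivity)
    (by
      have : r0 + 2 / 4 ^ (3 * a) - (r0 - 1 / 4 ^ (3 * a) + 2 * (1 / 4 ^ (3 * a))) =
        1 / 4 ^ (3 * a) := by ring
      have h5 : (0 : ℝ) ≤ 1 / 4 ^ (3 * a) := by positivity
      linarith)
    (by
      have : r0 + 2 / 4 ^ (3 * a) - (r0 - 1 / 4 ^ (3 * a)) = 3 * (1 / 4 ^ (3 * a)) := by ring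
      rw [this]
      gcongr
      calc (3 : ℝ) ≤ 2 ^ 2 := by norm_num
        _ ≤ 2 ^ (4 * a + 1) := pow_le_pow_right₀ (by norm_num) (by have := h.1; omega))
  -- angular factor
  obtain ⟨s1, s2, s3⟩ := LLog.MUK_.psi_est hPSI a m η (1 - η) η h hηp (by linarith)
    (by rw [hη1]; linarith)
  have hdil := LLog.MUK_.ex1_dil_norm' (fun ζ => (psi (40 * m) η (1 - η) η ζ : ℂ)) C0 hC0p
  have hdilB := LLog.MUK_.ex1_dil_norm (fun ζ => (psi (40 * m) η (1 - η) η ζ : ℂ)) C0 A hC0p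
  have s1' : Bd1 (fun y => (psi (40 * m) η (1 - η) η (C0 * y) : ℂ)) := by
    obtain ⟨q1, ⟨b, q2⟩, ⟨R, q3⟩⟩ := s1
    refine ⟨q1.comp (measurable_const_mul C0), ⟨b, fun τ => q2 _⟩, ⟨R / C0, fun τ hτ => ?_⟩⟩
    have := q3 _ hτ
    rw [abs_mul, abs_of_pos hC0p] at this
    rw [le_div_iff₀ hC0p]
    linarith
  have h7 : (40 : ℝ) * m / η ≤ 2 ^ (6 * a) / 10 := by
    have e0 : (40 : ℝ) * m / η = 80 * m * 2 ^ (4 * a) := by
      rw [hη, pow_succ]; field_simp; ring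
    have e3 : (2 : ℝ) ^ (6 * a) = 2 ^ a * 2 ^ a * 2 ^ (4 * a) := by
      rw [← pow_add, ← pow_add]; congr 1; ring
    rw [e0, e3]
    have e5 : (800 : ℝ) * m ≤ 2 ^ a * 2 ^ a := mul_le_mul g4 g2 (by positivity) (by positivity)
    have e6 : (0 : ℝ) < 2 ^ (4 * a) := by positivity
    nlinarith
  have hApos : 0 < A := lt_of_lt_of_le (by positivity) hA
  have key := LLog.MUK_.frame_est hPRD a m t A A
    (fun ζ => (psi (40 * m) (r0 - 1 / 4 ^ (3 * a)) (r0 + 2 / 4 ^ (3 * a)) (1 / 4 ^ (3 * a)) ζ : ℂ))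
    (fun y => (psi (40 * m) η (1 - η) η (C0 * y) : ℂ)) h r1 s1' hApos hApos r2
    (by rw [hdil]; exact s2)
    (r3 A (by
      refine le_trans ?_ hA
      have e1 : (40 : ℝ) * m / (1 / 4 ^ (3 * a)) = 40 * m * 2 ^ (6 * a) := by
        have : (4 : ℝ) ^ (3 * a) = 2 ^ (6 * a) := by
          rw [show (4 : ℝ) = 2 ^ 2 by norm_num, ← pow_mul]; congr 1; ring
        rw [this]
        field_simp
      rw [e1, pow_add, mul_comm]
      gcongr
      calc (40 : ℝ) * m ≤ 2 ^ a * 2 ^ a := mul_le_mul (by linarith) g2 (by positivity)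
            (by positivity)
        _ = 2 ^ (2 * a) := by rw [two_mul, pow_add]
        _ ≤ 2 ^ j := pow_le_pow_right₀ (by norm_num) hj))
    (by
      rw [hdilB]
      apply s3
      refine h7.trans ?_
      rw [div_le_div_iff₀ (by norm_num) hC0p]
      calc (2 : ℝ) ^ (6 * a) * C0 ≤ 2 ^ (6 * a) * (10 * 2 ^ j) := by gcongr
        _ = 2 ^ (6 * a + j) * 10 := by rw [pow_add]; ring
        _ ≤ A * 10 := by gcongr)
  have bd := (hPRD t A A
    (fun ζ => (psi (40 * m) (r0 - 1 / 4 ^ (3 * a)) (r0 + 2 / 4 ^ (3 * a)) (1 / 4 ^ (3 * a)) ζ : ℂ))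
    (fun y => (psi (40 * m) η (1 - η) η (C0 * y) : ℂ)) r1 s1' hApos hApos).1
  exact ⟨bd, key.1, key.2⟩

/-- final arithmetic -/
lemma fin1 (X P Q T : ℝ) (hX : 0 < X) (hP : 0 < P) (u3 : 2 * T ≤ P) (u4 : P ≤ Q) :
    1 / (X * Q) * T + T * (1 / (X * P)) ≤ 1 / X := by
  have hQ : 0 < Q := by linarith
  have e1 : 1 / (X * Q) * T = 1 / X * (T / Q) := by field_simp
  have e2 : T * (1 / (X * P)) = 1 / X * (T / P) := by field_simp
  have f1 : T / Q ≤ 1 / 2 := by rw [div_le_div_iff₀ hQ (by norm_num)]; linarith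
  have f2 : T / P ≤ 1 / 2 := by rw [div_le_div_iff₀ hP (by norm_num)]; linarith
  rw [e1, e2, ← mul_add]
  exact mul_le_of_le_one_right (by positivity) (by linarith)

/-- range of the radius -/
lemma rng (s y r ε x1 x2 : ℝ) (_hr : 0 ≤ r) (hε : ε ≤ 1 / 1000) (s1 : r - ε ≤ s)
    (s2 : s ≤ r + 2 * ε) (hy : 0 < y) (hyr : 1000 * y ≤ r) (hp : s ^ 2 + y ^ 2 = x1 ^ 2 + x2 ^ 2)
    (c1 : 6 / 5 ≤ x1) (c2 : x1 ≤ 3 / 2) (c3 : |x2| ≤ 1 / 2) : 11 / 10 ≤ r ∧ r ≤ 16 / 10 := by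
  have c3' : x2 ^ 2 ≤ (1 / 2) ^ 2 := sq_le_sq' (abs_le.1 c3).1 (abs_le.1 c3).2
  have a1 : (6 / 5) ^ 2 ≤ x1 ^ 2 := pow_le_pow_left₀ (by norm_num) c1 2
  have a2 : x1 ^ 2 ≤ (3 / 2) ^ 2 := pow_le_pow_left₀ (by linarith) c2 2
  have a3 : 0 ≤ x2 ^ 2 := sq_nonneg x2
  have a4 : 0 ≤ y ^ 2 := sq_nonneg y
  constructor
  · by_contra hcon
    push Not at hcon
    have b4 : s ^ 2 ≤ (1102 / 1000) ^ 2 := sq_le_sq' (by linarith) (by linarith)
    have b5 : y ^ 2 ≤ (1 / 500) ^ 2 := sq_le_sq' (by linarith) (by linarith)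
    norm_num at b4 b5 a1
    linarith
  · by_contra hcon
    push Not at hcon
    have b4 : (159 / 100) ^ 2 ≤ s ^ 2 := pow_le_pow_left₀ (by norm_num) (by linarith) 2
    norm_num at b4 a2 c3'
    linarith

/-- the last step of `supp` -/
lemma lst1 (η δ ε r s M y : ℝ) (hr : 11 / 10 ≤ r) (hη : 0 < η) (hδp : 0 < δ) (hεp : 0 < ε)
    (hη4 : η ≤ 1 / 1000) (hδ : δ ≤ η / 8) (hε : ε ≤ η / 8) (s1 : r - ε ≤ s) (s2 : s ≤ r + 2 * ε)
    (y1 : η * r ≤ M * y) (y2 : M * y ≤ (1 - η) * r) :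
    δ < M * (y / s) ∧ M * (y / s) < 1 - δ := by
  have hs0 : 0 < s := by linarith
  constructor
  · rw [← mul_div_assoc, lt_div_iff₀ hs0]
    have b1 : s ≤ 2 * r := by linarith
    have b2 : δ * s ≤ η / 8 * (2 * r) := mul_le_mul hδ b1 hs0.le (by positivity)
    have b3 : 0 < η * r := by positivity
    linarith
  · rw [← mul_div_assoc, div_lt_iff₀ hs0]
    have b1 : (1 - δ) * (r - ε) ≤ (1 - δ) * s := by
      apply mul_le_mul_of_nonneg_left s1
      linarith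
    have b2 : (1 - η) * r < (1 - δ) * (r - ε) := by
      have b3 : δ * r ≤ η / 8 * r := mul_le_mul_of_nonneg_right hδ (by linarith)
      have b4 : η * (11 / 10) ≤ η * r := mul_le_mul_of_nonneg_left hr hη.le
      have b5 : 0 ≤ δ * ε := by positivity
      have b6 : (1 - δ) * (r - ε) - (1 - η) * r = η * r - δ * r - ε + δ * ε := by ring
      linarith
    linarith

/-- support of `Pp` -/
lemma supp (hCHI : tCHI) (hPSI : LLog.tPSI) (hGEO : LLog.tGEO) (a m l c0 p : ℕ) (sg sl : ℝ)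
    (h : HP a m l sg sl) (hp : p ∈ PP a l) (ξ : ℝ × ℝ) (hξ : Pp a m sg sl l c0 p ξ ≠ 0) :
    cp sl (l + 8 * a) p ξ ∧ 11 / 10 ≤ sg + c0 / 4 ^ (3 * a) ∧
      sg + c0 / 4 ^ (3 * a) ≤ 17 / 10 := by
  obtain ⟨hPA, hl, hlm, hsg, hsg1, hsl, hsl2⟩ := h
  have ha : 20 ≤ a := hPA.1
  obtain ⟨f1, f2, f3, f4, f5, f6, f7⟩ := LLog.MUK_.pow_facts a m hPA
  have hN : 2 ≤ 40 * m := by
    have : 1 ≤ m := by exact_mod_cast f1
    omega
  set j := l + 8 * a with hj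
  set t := tp sl j p with ht
  set r0 : ℝ := sg + c0 / 4 ^ (3 * a) with hr0
  set ε : ℝ := 1 / 4 ^ (3 * a) with hε
  set η : ℝ := 1 / 2 ^ (4 * a + 1) with hη
  set δ : ℝ := 3 / 2 ^ j with hδ
  have hεp : 0 < ε := by positivity
  have hηp : 0 < η := by positivity
  have hδp : 0 < δ := by positivity
  have h46 : (4 : ℝ) ^ (3 * a) = 2 ^ (6 * a) := by
    rw [show (4 : ℝ) = 2 ^ 2 by norm_num, ← pow_mul]; congr 1; ring
  have hεη : ε ≤ η / 8 := by
    rw [hε, hη, h46, div_div]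
    apply one_div_le_one_div_of_le (by positivity)
    calc (2 : ℝ) ^ (4 * a + 1) * 8 = 2 ^ (4 * a + 4) := by rw [pow_add, pow_add]; ring
      _ ≤ 2 ^ (6 * a) := pow_le_pow_right₀ (by norm_num) (by omega)
  have hδη : δ ≤ η / 8 := by
    rw [hδ, hη, div_div, div_le_div_iff₀ (by positivity) (by positivity)]
    calc 3 * ((2 : ℝ) ^ (4 * a + 1) * 8) ≤ 4 * ((2 : ℝ) ^ (4 * a + 1) * 8) := by
          have : (0 : ℝ) < 2 ^ (4 * a + 1) * 8 := by positivity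
          linarith
      _ = 2 ^ (4 * a + 6) := by rw [pow_add, pow_add]; ring
      _ ≤ 2 ^ j := pow_le_pow_right₀ (by norm_num) (by omega)
      _ = 1 * 2 ^ j := by ring
  have hη4 : η ≤ 1 / 1000 := by
    rw [hη]
    apply one_div_le_one_div_of_le (by norm_num)
    calc (1000 : ℝ) ≤ 2 ^ 10 := by norm_num
      _ ≤ 2 ^ (4 * a + 1) := pow_le_pow_right₀ (by norm_num) (by omega)
  have hJ : (1000 : ℝ) ≤ 2 ^ j := by
    calc (1000 : ℝ) ≤ 2 ^ 10 := by norm_num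
      _ ≤ 2 ^ j := pow_le_pow_right₀ (by norm_num) (by omega)
  have hr00 : 0 ≤ r0 := by positivity
  -- the three factors
  have hξ' : chi m ξ * anf a m sg sl j p c0 ξ *
      psi (40 * m) (sg + (c0 - 1) / 4 ^ (3 * a)) (sg + (c0 + 2) / 4 ^ (3 * a)) (1 / 4 ^ (3 * a))
        (dot ξ (nv t)) ≠ 0 := by
    intro h0
    apply hξ
    unfold Pp
    rw [h0, Complex.ofReal_zero]
  have e1 : sg + ((c0 : ℝ) - 1) / 4 ^ (3 * a) = r0 - ε := by rw [hr0, hε]; ring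
  have e2 : sg + ((c0 : ℝ) + 2) / 4 ^ (3 * a) = r0 + 2 * ε := by rw [hr0, hε]; ring
  rw [e1, e2] at hξ'
  have k1 := left_ne_zero_of_mul (left_ne_zero_of_mul hξ')
  have k2 := right_ne_zero_of_mul (left_ne_zero_of_mul hξ')
  have k3 := right_ne_zero_of_mul hξ'
  obtain ⟨c1, c2, c3⟩ := (hCHI a m hPA).2.2.2.1 ξ k1
  have p4 := (hPSI (40 * m) (r0 - ε) (r0 + 2 * ε) ε hN hεp (by linarith)).2.2.2.1
  have q4 := (hPSI (40 * m) η (1 - η) η hN hηp (by linarith)).2.2.2.1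
  set s := dot ξ (nv t) with hs
  set y := dot ξ (tv t) with hy
  have hs1 : ¬ (s < r0 - ε ∨ r0 + 2 * ε < s) := fun h' => k3 (p4 s h')
  have hy1 : ¬ (Nn t ^ 2 * 2 ^ j / r0 * y < η ∨ 1 - η < Nn t ^ 2 * 2 ^ j / r0 * y) :=
    fun h' => k2 (q4 _ h')
  push Not at hs1 hy1
  obtain ⟨s1, s2⟩ := hs1
  obtain ⟨y1, y2⟩ := hy1
  have hN0 : 0 < Nn t := Real.sqrt_pos.2 (by positivity)
  have hN2 : Nn t ^ 2 = 1 + t ^ 2 := Real.sq_sqrt (by positivity)
  have hNge : 1 ≤ Nn t ^ 2 := by rw [hN2]; nlinarith [sq_nonneg t]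
  have hr0p : 0 < r0 := by
    rcases hr00.lt_or_eq with h' | h'
    · exact h'
    · exfalso
      rw [← h', div_zero, zero_mul] at y1
      linarith
  set M : ℝ := Nn t ^ 2 * 2 ^ j with hM
  have hMp : 0 < M := by positivity
  have hM1 : 1000 ≤ M := by
    calc (1000 : ℝ) = 1 * 1000 := by norm_num
      _ ≤ M := mul_le_mul hNge hJ (by norm_num) (by positivity)
  have yv : M / r0 * y = M * y / r0 := by ring
  rw [yv] at y1 y2
  have y1' : η * r0 ≤ M * y := (le_div_iff₀ hr0p).1 y1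
  have y2' : M * y ≤ (1 - η) * r0 := (div_le_iff₀ hr0p).1 y2
  have hy0 : 0 < y := by
    by_contra hcon
    push Not at hcon
    have : M * y ≤ 0 := mul_nonpos_of_nonneg_of_nonpos hMp.le hcon
    have : 0 < η * r0 := by positivity
    linarith
  have hyr : 1000 * y ≤ r0 := by
    have b1 : 1000 * y ≤ M * y := mul_le_mul_of_nonneg_right hM1 hy0.le
    have b2 : 0 ≤ η * r0 := by positivity
    linarith
  have hpyt : s ^ 2 + y ^ 2 = ξ.1 ^ 2 + ξ.2 ^ 2 := by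
    have a1 : s * Nn t = ξ.1 + ξ.2 * t := by
      rw [hs]
      simp only [Pool.Agent.KSP.dot, nv]
      field_simp
    have a2 : y * Nn t = -ξ.1 * t + ξ.2 := by
      rw [hy]
      simp only [Pool.Agent.KSP.dot, tv]
      field_simp
    have a3 : (s ^ 2 + y ^ 2) * Nn t ^ 2 = (ξ.1 ^ 2 + ξ.2 ^ 2) * Nn t ^ 2 := by
      calc (s ^ 2 + y ^ 2) * Nn t ^ 2 = (s * Nn t) ^ 2 + (y * Nn t) ^ 2 := by ring
        _ = (ξ.1 + ξ.2 * t) ^ 2 + (-ξ.1 * t + ξ.2) ^ 2 := by rw [a1, a2]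
        _ = (ξ.1 ^ 2 + ξ.2 ^ 2) * (1 + t ^ 2) := by ring
        _ = _ := by rw [hN2]
    exact mul_right_cancel₀ (by positivity) a3
  obtain ⟨r2, r1⟩ := rng s y r0 ε ξ.1 ξ.2 hr00 (by linarith) s1 s2 hy0 hyr hpyt c1 c2 c3
  have hs0 : 0 < s := by linarith
  refine ⟨?_, r2, by linarith⟩
  have hp' : p < 3 * 2 ^ j := Finset.mem_range.1 hp
  refine (hGEO sl j p hsl hsl2 (by omega) hp').2.2 ξ hs0 ?_ ?_
  · exact (lst1 η δ ε r0 s M y r2 hηp hδp hεp hη4 hδη hεη s1 s2 y1' y2').1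
  · exact (lst1 η δ ε r0 s M y r2 hηp hδp hεp hη4 hδη hεη s1 s2 y1' y2').2

end PPP_

open PPP_

theorem pPPP (hCHI : tCHI) (hPSI : LLog.tPSI) (hPRD : LLog.tPRD) (hCVK : LLog.tCVK)
    (hGEO : LLog.tGEO) : tPPP := by
  intro a m l c0 p sg sl h hp
  have hsupp := supp hCHI hPSI hGEO a m l c0 p sg sl h hp
  obtain ⟨hPA, hl, hlm, hsg, hsg1, hsl, hsl2⟩ := h
  have ha : 20 ≤ a := hPA.1
  obtain ⟨f1, f2, f3, f4, f5, f6, f7⟩ := LLog.MUK_.pow_facts a m hPA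
  have hm1 : 1 ≤ m := by exact_mod_cast f1
  have hN : 2 ≤ 40 * m := by omega
  obtain ⟨c1, c2, -, -, c5, c6, c7⟩ := hCHI a m hPA
  by_cases hz : ∀ ξ, Pp a m sg sl l c0 p ξ = 0
  · have hE : Ex (Pp a m sg sl l c0 p) = 0 := by
      funext z
      unfold Pool.Agent.KSP.Ex
      simp [hz]
    have hE' : Pp a m sg sl l c0 p = 0 := funext hz
    refine ⟨?_, fun ξ => by rw [hz ξ]; simp, fun ξ hξ => absurd (hz ξ) hξ, ?_, ?_⟩
    · rw [hE']
      exact ⟨measurable_zero, ⟨0, fun ξ => by simp⟩, ⟨0, fun ξ hξ => absurd rfl hξ⟩⟩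
    · rw [hE]; simp
    · rw [hE]; simp
  · push Not at hz
    obtain ⟨ξ0, hξ0⟩ := hz
    obtain ⟨-, hr1, hr2⟩ := hsupp ξ0 hξ0
    set j := l + 8 * a with hj
    set t := tp sl j p with ht
    set r0 : ℝ := sg + c0 / 4 ^ (3 * a) with hr0
    have hp' : p < 3 * 2 ^ j := Finset.mem_range.1 hp
    obtain ⟨⟨t1, t2⟩, -, -⟩ := hGEO sl j p hsl hsl2 (by omega) hp'
    have ht2 : t ^ 2 ≤ 4 := by
      have b1 : -2 ≤ t := t1
      have b2 : t ≤ 2 := t2.le
      calc t ^ 2 ≤ 2 ^ 2 := sq_le_sq' b1 b2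
        _ = 4 := by norm_num
    obtain ⟨k1, k2, k3⟩ := kern hPSI hPRD a m j t r0 (2 ^ (l + 14 * a)) hPA ht2 (by linarith)
      (by omega) (by rw [hj]; exact pow_le_pow_right₀ (by norm_num) (by omega))
    set κ : ℝ × ℝ → ℂ := fun ξ => (psi (40 * m) (r0 - 1 / 4 ^ (3 * a)) (r0 + 2 / 4 ^ (3 * a))
        (1 / 4 ^ (3 * a)) (dot ξ (nv t)) : ℂ) *
        (psA a m (Nn t ^ 2 * 2 ^ j / r0 * dot ξ (tv t)) : ℂ) with hκ
    have e1 : sg + ((c0 : ℝ) - 1) / 4 ^ (3 * a) = r0 - 1 / 4 ^ (3 * a) := by rw [hr0]; ring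
    have e2 : sg + ((c0 : ℝ) + 2) / 4 ^ (3 * a) = r0 + 2 / 4 ^ (3 * a) := by rw [hr0]; ring
    have hfun : Pp a m sg sl l c0 p = fun ξ => (chi m ξ : ℂ) * κ ξ := by
      funext ξ
      rw [hκ]
      unfold Pp anf
      rw [e1, e2]
      push_cast
      ring
    obtain ⟨v1, v2⟩ := conv_est hCVK _ κ c5 k1
    have hof : ∀ n : ℕ, ((2 : ℝ≥0∞) ^ n) = ENNReal.ofReal (2 ^ n) := by
      intro n
      rw [ENNReal.ofReal_pow (by norm_num)]
      norm_num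
    refine ⟨?_, ?_, fun ξ hξ => (hsupp ξ hξ).1, ?_, ?_⟩
    · rw [hfun]
      exact Bd_mul _ _ c5 k1
    · intro ξ
      have hηp : (0 : ℝ) < 1 / 2 ^ (4 * a + 1) := by positivity
      have hη4 : (1 : ℝ) / 2 ^ (4 * a + 1) ≤ 1 / 4 := by
        apply one_div_le_one_div_of_le (by norm_num)
        calc (4 : ℝ) = 2 ^ 2 := by norm_num
          _ ≤ 2 ^ (4 * a + 1) := pow_le_pow_right₀ (by norm_num) (by omega)
      have hεp : (0 : ℝ) < 1 / 4 ^ (3 * a) := by positivity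
      have q1 := (hPSI (40 * m) (r0 - 1 / 4 ^ (3 * a)) (r0 + 2 / 4 ^ (3 * a)) (1 / 4 ^ (3 * a))
        hN hεp (by
          have : r0 + 2 / 4 ^ (3 * a) - (r0 - 1 / 4 ^ (3 * a) + 2 * (1 / 4 ^ (3 * a))) =
            1 / 4 ^ (3 * a) := by ring
          linarith)).2.1 (dot ξ (nv t))
      have q2 : 0 ≤ psA a m (Nn t ^ 2 * 2 ^ j / r0 * dot ξ (tv t)) ∧
          psA a m (Nn t ^ 2 * 2 ^ j / r0 * dot ξ (tv t)) ≤ 1 :=
        (hPSI (40 * m) (1 / 2 ^ (4 * a + 1)) (1 - 1 / 2 ^ (4 * a + 1))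
          (1 / 2 ^ (4 * a + 1)) hN hηp (by linarith)).2.1 _
      have q3 := c2 ξ
      rw [hfun]
      simp only [hκ, norm_mul, Complex.norm_real, Real.norm_eq_abs]
      rw [abs_of_nonneg q1.1, abs_of_nonneg q2.1, abs_of_nonneg q3.1]
      exact mul_le_one₀ q3.2 (mul_nonneg q1.1 q2.1) (mul_le_one₀ q1.2 q2.1 q2.2)
    · rw [hfun]
      refine v1.trans ((mul_le_mul' c6 k2).trans ?_)
      rw [← pow_add]
      exact pow_le_pow_right₀ (by norm_num) (by omega)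
    · rw [hfun]
      have hb : ∀ B : ℝ, MeasurableSet {z : ℝ × ℝ | ¬ (|z.1| ≤ B ∧ |z.2| ≤ B)} := fun B =>
        ((measurableSet_le measurable_fst.norm measurable_const).inter
          (measurableSet_le measurable_snd.norm measurable_const)).compl
      have hd : ∀ v : ℝ × ℝ, Measurable (fun z : ℝ × ℝ => dot z v) := fun v => by
        unfold Pool.Agent.KSP.dot
        fun_prop
      have hb2 : MeasurableSet {z : ℝ × ℝ | ¬ (|dot z (nv t)| ≤ 2 ^ (l + 14 * a) ∧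
          |dot z (tv t)| ≤ 2 ^ (l + 14 * a))} :=
        ((measurableSet_le (hd _).norm measurable_const).inter
          (measurableSet_le (hd _).norm measurable_const)).compl
      have v3 := v2 _ _ _ (hb (2 ^ (l + 15 * a))) (hb (2 ^ (2 * a))) hb2 (by
        intro x z hx
        by_contra hcon
        rw [not_or] at hcon
        obtain ⟨d1, d2⟩ := hcon
        rw [mem_ofPred_eq, not_not] at d1 d2
        apply hx
        obtain ⟨w1, w2⟩ := frame_coord t z _ _ d2.1 d2.2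
        have hsz : (2 : ℝ) ^ (2 * a) + (2 ^ (l + 14 * a) + 2 ^ (l + 14 * a)) ≤
            2 ^ (l + 15 * a) := by
          have z1 : (2 : ℝ) ^ (2 * a) ≤ 2 ^ (l + 14 * a) :=
            pow_le_pow_right₀ (by norm_num) (by omega)
          have z2 : (2 : ℝ) ^ (l + 15 * a) = 2 ^ a * 2 ^ (l + 14 * a) := by
            rw [← pow_add]; congr 1; ring
          have z3 : 3 * (2 : ℝ) ^ (l + 14 * a) ≤ 2 ^ a * 2 ^ (l + 14 * a) :=
            mul_le_mul_of_nonneg_right (by linarith) (by positivity)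
          rw [z2]
          linarith
        constructor
        · calc |x.1| = |(x - z).1 + z.1| := by simp
            _ ≤ |(x - z).1| + |z.1| := abs_add_le _ _
            _ ≤ _ := (add_le_add d1.1 w1).trans hsz
        · calc |x.2| = |(x - z).2 + z.2| := by simp
            _ ≤ |(x - z).2| + |z.2| := abs_add_le _ _
            _ ≤ _ := (add_le_add d1.2 w2).trans hsz)
      refine v3.trans ((add_le_add (mul_le_mul' c7 k2) (mul_le_mul' c6 k3)).trans ?_)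
      rw [hof, ← ENNReal.ofReal_mul (by positivity), ← ENNReal.ofReal_mul (by positivity),
        ← ENNReal.ofReal_add (by positivity) (by positivity)]
      apply ENNReal.ofReal_le_ofReal
      have u1 : (2 : ℝ) ^ (35 * m) = 2 ^ (25 * m) * 2 ^ (10 * m) := by
        rw [← pow_add]; congr 1; ring
      have u2 : (2 : ℝ) ^ (30 * m) = 2 ^ (25 * m) * 2 ^ (5 * m) := by
        rw [← pow_add]; congr 1; ring
      have u3 : (2 : ℝ) * 2 ^ a ≤ 2 ^ (5 * m) := by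
        calc (2 : ℝ) * 2 ^ a = 2 ^ (a + 1) := by rw [pow_succ]; ring
          _ ≤ 2 ^ (5 * m) := pow_le_pow_right₀ (by norm_num) (by
              have : a ≤ m := by exact_mod_cast f6
              omega)
      have u4 : (2 : ℝ) ^ (5 * m) ≤ 2 ^ (10 * m) :=
        pow_le_pow_right₀ (by norm_num) (by omega)
      have hX : (0 : ℝ) < 2 ^ (25 * m) := by positivity
      rw [u1, u2]
      exact fin1 _ _ _ _ hX (by positivity) u3 u4

end Pool.Agent.SLog
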