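import Pool.Agent.SLog.Targets
import Pool.Agent.KSP.Base
import Pool.Agent.LLog.HAT

set_option autoImplicit false

/-! SLG-PRG: pairing estimate. -/

namespace Pool.Agent.SLog

open MeasureTheory Set
open scoped ENNReal NNReal ComplexConjugate
open Pool.Agent.KSP (ee dot nr Ex Ex1 Bd Bd1 n1 n2 lg V0 ann pPl2 pPo2)
open Pool.Agent.KSP.Base_
open Pool.Agent.LLog (PA cd cdr cp fr tp Nn nv tv Core bx sa sd Qx kc psi kap GK psR psA anf mu Bf hat)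

namespace PRG_

/-- Cauchy-Schwarz -/
lemma cs (μ : Measure (ℝ × ℝ)) (f g : ℝ × ℝ → ℝ≥0∞)
    (hf : AEMeasurable f μ) (hg : AEMeasurable g μ) :
    (∫⁻ a, f a * g a ∂μ) ^ 2 ≤ (∫⁻ a, f a ^ 2 ∂μ) * ∫⁻ a, g a ^ 2 ∂μ := by
  have h := ENNReal.lintegral_mul_le_Lp_mul_Lq μ Real.HolderConjugate.two_two hf hg
  have h2 : ∀ x : ℝ≥0∞, (x ^ (1 / (2 : ℝ))) ^ 2 = x := by
    intro x
    rw [← ENNReal.rpow_natCast, ← ENNReal.rpow_mul]
    norm_num
  calc (∫⁻ a, f a * g a ∂μ) ^ 2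
      ≤ ((∫⁻ a, f a ^ (2 : ℝ) ∂μ) ^ (1 / (2 : ℝ)) * (∫⁻ a, g a ^ (2 : ℝ) ∂μ) ^ (1 / (2 : ℝ))) ^ 2 :=
        pow_le_pow_left' h 2
    _ = (∫⁻ a, f a ^ (2 : ℝ) ∂μ) * ∫⁻ a, g a ^ (2 : ℝ) ∂μ := by
        rw [mul_pow, h2, h2]
    _ = (∫⁻ a, f a ^ 2 ∂μ) * ∫⁻ a, g a ^ 2 ∂μ := by
        simp only [ENNReal.rpow_ofNat]

lemma cs_set (s : Set (ℝ × ℝ)) (g : ℝ × ℝ → ℝ≥0∞) (hg : Measurable g) :
    (∫⁻ a in s, g a) ^ 2 ≤ volume s * ∫⁻ a in s, g a ^ 2 := by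
  have h := cs (volume.restrict s) (fun _ => 1) g aemeasurable_const hg.aemeasurable
  simpa using h

lemma nb_meas (a l : ℕ) (Y : Set (ℝ × ℝ)) : MeasurableSet (nb a l Y) := by
  have h : nb a l Y = ⋃ y ∈ Y, {x : ℝ × ℝ | |y.1 - x.1| < 2 ^ (l + 15 * a) ∧
      |y.2 - x.2| < 2 ^ (l + 15 * a)} := by
    ext x
    simp only [nb, mem_ofPred_eq, mem_iUnion, exists_prop]
  rw [h]
  refine IsOpen.measurableSet (isOpen_biUnion fun y _ => ?_)
  refine IsOpen.inter ?_ ?_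
  · exact isOpen_lt (continuous_const.sub continuous_fst).abs continuous_const
  · exact isOpen_lt (continuous_const.sub continuous_snd).abs continuous_const

lemma bd_mulb {k g : ℝ × ℝ → ℂ} (hk : Bd k) (hg : Measurable g) {C : ℝ}
    (hC : ∀ ξ, ‖g ξ‖ ≤ C) : Bd (fun ξ => g ξ * k ξ) := by
  obtain ⟨h1, ⟨B, hB⟩, R, hR⟩ := hk
  refine ⟨hg.mul h1, ⟨C * B, fun ξ => ?_⟩, R, fun ξ hξ => hR ξ fun h => hξ (by simp [h])⟩
  rw [norm_mul]
  exact mul_le_mul (hC ξ) (hB ξ) (norm_nonneg _) ((norm_nonneg _).trans (hC ξ))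

lemma Ex_bound {k : ℝ × ℝ → ℂ} (x : ℝ × ℝ) : ‖Ex k x‖ ≤ ∫ ξ, ‖k ξ‖ := by
  refine (norm_integral_le_integral_norm _).trans_eq ?_
  congr 1
  funext ξ
  rw [norm_mul, LLog.HAT_.norm_ee, mul_one]

/-- the pairing -/
lemma pair (hHAT : LLog.tHAT) (P : Finset ℕ) (w : ℝ × ℝ → ℂ) (M k : ℕ → ℝ × ℝ → ℂ)
    (θ : ℕ → ℝ × ℝ → ℝ) (hw : Bf w) (hM : ∀ p ∈ P, Bd (M p)) (hM1 : ∀ p ∈ P, ∀ ξ, ‖M p ξ‖ ≤ 1)
    (hMc : ∀ p ∈ P, ∀ ξ, conj (M p ξ) = M p ξ) (hk : ∀ p ∈ P, Bd (k p))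
    (hv : ∀ p ∈ P, Bd (fun ξ => M p ξ * hat w ξ))
    (hE : ∀ p ∈ P, ∀ x, Ex (k p) x = ((θ p x ^ 2 : ℝ) : ℂ) * Ex (fun ξ => M p ξ * hat w ξ) x) :
    ∑ p ∈ P, ∫⁻ x, ENNReal.ofReal (θ p x ^ 2) * ‖Ex (fun ξ => M p ξ * hat w ξ) x‖ₑ ^ 2 ≤
      ∫⁻ x, ‖w x‖ₑ * ‖∑ p ∈ P, Ex (fun ξ => M p ξ * k p ξ) x‖ₑ := by
  obtain ⟨hc, _, _, hT⟩ := hHAT w hw
  set r : ℕ → ℝ := fun p => ∫ x, θ p x ^ 2 * ‖Ex (fun ξ => M p ξ * hat w ξ) x‖ ^ 2 with hr
  have hMk : ∀ p ∈ P, Bd (fun ξ => M p ξ * k p ξ) := fun p hp =>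
    bd_mulb (hk p hp) (hM p hp).1 (hM1 p hp)
  have hpt : ∀ p ∈ P, ∀ x, Ex (k p) x * conj (Ex (fun ξ => M p ξ * hat w ξ) x) =
      ((θ p x ^ 2 * ‖Ex (fun ξ => M p ξ * hat w ξ) x‖ ^ 2 : ℝ) : ℂ) := by
    intro p hp x
    rw [hE p hp x, mul_assoc, Complex.mul_conj, Complex.normSq_eq_norm_sq]
    push_cast
    ring
  have hint : ∀ p ∈ P, Integrable
      (fun x => θ p x ^ 2 * ‖Ex (fun ξ => M p ξ * hat w ξ) x‖ ^ 2) := by
    intro p hp
    have h1 := (pPo2 (k p) _ (hk p hp) (hv p hp)).1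
    have h2 : Integrable (fun x =>
        ((θ p x ^ 2 * ‖Ex (fun ξ => M p ξ * hat w ξ) x‖ ^ 2 : ℝ) : ℂ)) := by
      refine h1.congr (ae_of_all _ fun x => ?_)
      exact hpt p hp x
    refine h2.re.congr (ae_of_all _ fun x => ?_)
    exact Complex.ofReal_re _
  have hrp : ∀ p ∈ P, ((r p : ℝ) : ℂ) = ∫ x, w x * conj (Ex (fun ξ => M p ξ * k p ξ) x) := by
    intro p hp
    have h1 := (pPo2 (k p) _ (hk p hp) (hv p hp)).2
    have h2 : ((r p : ℝ) : ℂ) = ∫ x, Ex (k p) x * conj (Ex (fun ξ => M p ξ * hat w ξ) x) := by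
      rw [hr]
      simp only
      rw [← integral_complex_ofReal]
      exact integral_congr_ae (ae_of_all _ fun x => (hpt p hp x).symm)
    rw [h1] at h2
    have h3 := congrArg conj h2
    rw [Complex.conj_ofReal, ← integral_conj] at h3
    rw [h3, hT _ (hMk p hp)]
    refine integral_congr_ae (ae_of_all _ fun ξ => ?_)
    simp only [map_mul, Complex.conj_conj, hMc p hp ξ]
    ring
  have hr0 : ∀ p, 0 ≤ r p := fun p => integral_nonneg fun x => by positivity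
  have hwi : Integrable w := LLog.HAT_.bf_int hw
  have hsum : ((∑ p ∈ P, r p : ℝ) : ℂ) =
      ∫ x, w x * conj (∑ p ∈ P, Ex (fun ξ => M p ξ * k p ξ) x) := by
    push_cast
    rw [Finset.sum_congr rfl hrp, ← integral_finsetSum]
    · refine integral_congr_ae (ae_of_all _ fun x => ?_)
      simp only [map_sum, Finset.mul_sum]
    · intro p hp
      have h1 : Continuous (Ex (fun ξ => M p ξ * k p ξ)) := (pPl2 _ (hMk p hp)).1
      refine hwi.mul_bdd (c := ∫ ξ, ‖M p ξ * k p ξ‖) ?_ (ae_of_all _ fun x => ?_)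
      · exact (Complex.continuous_conj.comp h1).aestronglyMeasurable
      · rw [RCLike.norm_conj]
        exact Ex_bound x
  calc ∑ p ∈ P, ∫⁻ x, ENNReal.ofReal (θ p x ^ 2) * ‖Ex (fun ξ => M p ξ * hat w ξ) x‖ₑ ^ 2
      = ∑ p ∈ P, ENNReal.ofReal (r p) := by
        refine Finset.sum_congr rfl fun p hp => ?_
        rw [hr]
        simp only
        rw [ofReal_integral_eq_lintegral_ofReal (hint p hp)
          (ae_of_all _ fun x => by positivity)]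
        refine lintegral_congr fun x => ?_
        rw [ENNReal.ofReal_mul (by positivity), ENNReal.ofReal_pow (norm_nonneg _), ofReal_norm]
    _ = ENNReal.ofReal (∑ p ∈ P, r p) := (ENNReal.ofReal_sum_of_nonneg fun p _ => hr0 p).symm
    _ = ‖((∑ p ∈ P, r p : ℝ) : ℂ)‖ₑ := by
        rw [← ofReal_norm, Complex.norm_real, Real.norm_eq_abs,
          abs_of_nonneg (Finset.sum_nonneg fun p _ => hr0 p)]
    _ ≤ ∫⁻ x, ‖w x * conj (∑ p ∈ P, Ex (fun ξ => M p ξ * k p ξ) x)‖ₑ := by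
        rw [hsum]
        exact enorm_integral_le_lintegral_enorm _
    _ = _ := by
        refine lintegral_congr fun x => ?_
        rw [enorm_mul]
        congr 1
        rw [← ofReal_norm, ← ofReal_norm, RCLike.norm_conj]

lemma fr_mono {η η' x : ℝ} (h : η' ≤ η) (hx : fr η x) : fr η' x :=
  ⟨h.trans hx.1, hx.2.trans (by linarith)⟩

lemma eps (m : ℕ) (hm : 1 ≤ m) : 2 * ENNReal.ofReal (1 / 2 ^ (40 * m)) +
    ENNReal.ofReal (1 / 2 ^ (38 * m)) ≤ ENNReal.ofReal (1 / 2 ^ (20 * m)) := by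
  have h2 : (2 : ℝ≥0∞) = ENNReal.ofReal 2 := by simp
  rw [h2, ← ENNReal.ofReal_mul (by norm_num), ← ENNReal.ofReal_add (by positivity) (by positivity)]
  apply ENNReal.ofReal_le_ofReal
  have h3 : (1 : ℝ) / 2 ^ (40 * m) ≤ (1 / 4) * (1 / 2 ^ (20 * m)) := by
    rw [div_mul_div_comm, one_mul, div_le_div_iff_of_pos_left one_pos (by positivity)
      (by positivity)]
    calc (4 : ℝ) * 2 ^ (20 * m) = 2 ^ (20 * m + 2) := by rw [pow_add]; ring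
      _ ≤ 2 ^ (40 * m) := pow_le_pow_right₀ (by norm_num) (by omega)
  have h4 : (1 : ℝ) / 2 ^ (38 * m) ≤ (1 / 4) * (1 / 2 ^ (20 * m)) := by
    rw [div_mul_div_comm, one_mul, div_le_div_iff_of_pos_left one_pos (by positivity)
      (by positivity)]
    calc (4 : ℝ) * 2 ^ (20 * m) = 2 ^ (20 * m + 2) := by rw [pow_add]; ring
      _ ≤ 2 ^ (38 * m) := pow_le_pow_right₀ (by norm_num) (by omega)
  have h5 : (0 : ℝ) < 1 / 2 ^ (20 * m) := by positivity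
  linarith

end PRG_

open PRG_ in
theorem pPRG (hHAT : LLog.tHAT) (hKRN : tKRN) (hLCP : tLCP) (hMUP : tMUP) (hBXV : tBXV)
    (hVB : tVB) : tPRG := by
  intro a m l c sg sl w Y θ hP hc hw hw1 hY hnY hwY hθ
  have hP' := hP
  obtain ⟨⟨ha, hm1, hm2⟩, hl, hlm, hsg0, hsg1, hsl0, hsl1⟩ := hP'
  obtain ⟨hvb1, _, hvb3⟩ := hVB a m l sg sl w hP hw
  choose! k hk using fun p hp => (hθ p hp).2.2
  set P := PP a l with hPP
  set W := volume {x | w x ≠ 0} with hW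
  have hWm : MeasurableSet {x | w x ≠ 0} := hw.1 (measurableSet_singleton (0 : ℂ)).compl
  have hMk : ∀ p ∈ P, Bd (fun ξ => Mu a m sg sl l c p ξ * k p ξ) := fun p hp =>
    bd_mulb (hk p hp).1 (hMUP a m l c p sg sl hP hc hp).1.1
      fun ξ => ((hMUP a m l c p sg sl hP hc hp).2.1 ξ).2
  -- the pairing
  have hA : ∑ p ∈ P, ∫⁻ x, ENNReal.ofReal (θ p x ^ 2) * VV a m sg sl l w c p x ≤
      ∫⁻ x, ‖w x‖ₑ * ‖∑ p ∈ P, Ex (fun ξ => Mu a m sg sl l c p ξ * k p ξ) x‖ₑ := by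
    exact pair hHAT P w (fun p => Mu a m sg sl l c p) k θ hw
      (fun p hp => (hMUP a m l c p sg sl hP hc hp).1)
      (fun p hp ξ => ((hMUP a m l c p sg sl hP hc hp).2.1 ξ).2)
      (fun p hp ξ => ((hMUP a m l c p sg sl hP hc hp).2.1 ξ).1)
      (fun p hp => (hk p hp).1) (fun p hp => (hvb1 c hc p hp).2.1)
      (fun p hp x => (hk p hp).2 x)
  have hFc : Continuous (fun x => ∑ p ∈ P, Ex (fun ξ => Mu a m sg sl l c p ξ * k p ξ) x) :=
    continuous_finsetSum _ fun p hp => (pPl2 _ (hMk p hp)).1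
  have hB : ∫⁻ x, ‖w x‖ₑ * ‖∑ p ∈ P, Ex (fun ξ => Mu a m sg sl l c p ξ * k p ξ) x‖ₑ ≤
      ∫⁻ x in {x | w x ≠ 0}, ‖∑ p ∈ P, Ex (fun ξ => Mu a m sg sl l c p ξ * k p ξ) x‖ₑ := by
    rw [← lintegral_indicator hWm]
    refine lintegral_mono fun x => ?_
    by_cases hx : w x = 0
    · simp [hx]
    · rw [indicator_of_mem (show x ∈ {x | w x ≠ 0} from hx)]
      have h1 : ‖w x‖ₑ ≤ 1 := by
        rw [← ofReal_norm]
        exact ENNReal.ofReal_le_one.2 (hw1 x)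
      calc _ ≤ 1 * ‖∑ p ∈ P, Ex (fun ξ => Mu a m sg sl l c p ξ * k p ξ) x‖ₑ := by gcongr
        _ = _ := one_mul _
  have hC : (∑ p ∈ P, ∫⁻ x, ENNReal.ofReal (θ p x ^ 2) * VV a m sg sl l w c p x) ^ 2 ≤
      W * ∫⁻ x in Y, ‖∑ p ∈ P, Ex (fun ξ => Mu a m sg sl l c p ξ * k p ξ) x‖ₑ ^ 2 := by
    calc _ ≤ (∫⁻ x in {x | w x ≠ 0},
        ‖∑ p ∈ P, Ex (fun ξ => Mu a m sg sl l c p ξ * k p ξ) x‖ₑ) ^ 2 :=
          pow_le_pow_left' (hA.trans hB) 2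
      _ ≤ W * ∫⁻ x in {x | w x ≠ 0},
          ‖∑ p ∈ P, Ex (fun ξ => Mu a m sg sl l c p ξ * k p ξ) x‖ₑ ^ 2 :=
          cs_set _ _ hFc.enorm.measurable
      _ ≤ _ := by
          gcongr
          exact fun x hx => hwY x hx
  refine hC.trans ?_
  gcongr
  -- localisation
  have hD := hLCP a m l (3 * 2 ^ (l + 8 * a)) sl Y
    (fun p => fun ξ => Mu a m sg sl l c p ξ * k p ξ) ⟨ha, hm1, hm2⟩ hlm hY hnY (by
      intro p hp
      have hp' : p ∈ P := Finset.mem_range.2 hp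
      refine ⟨hMk p hp', fun ξ hξ => ?_⟩
      have h1 : Mu a m sg sl l c p ξ ≠ 0 := fun h => hξ (by simp [h])
      have h2 := (hMUP a m l c p sg sl hP hc hp').2.2.1 ξ h1
      have h3 := (hBXV a l c p sg sl (1 / 2 ^ (4 * a) / 3) ξ ha hl hsl0 hsl1 hp' (by
        have : (0 : ℝ) < 1 / 2 ^ (4 * a) := by positivity
        linarith) h2).1 (by positivity)
      refine ⟨h3.1, h3.2.2.1, fr_mono ?_ h3.2.2.2.2⟩
      have h4 : (1 : ℝ) / 2 ^ (4 * a + 2) = 1 / 2 ^ (4 * a) / 4 := by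
        rw [pow_add]
        field_simp
        norm_num
      rw [h4]
      have : (0 : ℝ) < 1 / 2 ^ (4 * a) := by positivity
      linarith)
  have hn2 : ∀ p ∈ P, n2 (k p) ≤ ∫⁻ x, VV a m sg sl l w c p x := by
    intro p hp
    rw [← (pPl2 _ (hk p hp).1).2]
    refine lintegral_mono fun x => ?_
    rw [(hk p hp).2 x]
    unfold VV
    gcongr
    rw [enorm_mul]
    calc _ ≤ 1 * ‖vv a m sg sl l w c p x‖ₑ := by
          gcongr
          rw [← ofReal_norm, Complex.norm_real, Real.norm_eq_abs, abs_of_nonneg (by positivity)]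
          apply ENNReal.ofReal_le_one.2
          have h1 := ((hθ p hp).2.1 x).1
          have h2 := ((hθ p hp).2.1 x).2
          nlinarith
      _ = _ := one_mul _
  have hn2u : ∀ p ∈ P, n2 (fun ξ => Mu a m sg sl l c p ξ * k p ξ) ≤ n2 (k p) := by
    intro p hp
    unfold n2
    refine lintegral_mono fun ξ => ?_
    gcongr
    rw [enorm_mul]
    calc _ ≤ 1 * ‖k p ξ‖ₑ := by
          gcongr
          rw [← ofReal_norm]
          exact ENNReal.ofReal_le_one.2 ((hMUP a m l c p sg sl hP hc hp).2.1 ξ).2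
      _ = _ := one_mul _
  have hVW : ∑ p ∈ P, ∫⁻ x, VV a m sg sl l w c p x ≤ W := by
    calc ∑ p ∈ P, ∫⁻ x, VV a m sg sl l w c p x
        ≤ ∑ c ∈ CC l, ∑ p ∈ P, ∫⁻ x, VV a m sg sl l w c p x :=
          Finset.single_le_sum (f := fun c => ∑ p ∈ P, ∫⁻ x, VV a m sg sl l w c p x)
            (fun _ _ => bot_le) hc
      _ ≤ ∫⁻ x, ‖w x‖ₑ ^ 2 := hvb3
      _ ≤ ∫⁻ x, ({x | w x ≠ 0} : Set (ℝ × ℝ)).indicator 1 x := by
          refine lintegral_mono fun x => ?_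
          by_cases hx : w x = 0
          · simp [hx]
          · rw [indicator_of_mem (show x ∈ {x | w x ≠ 0} from hx)]
            have h1 : ‖w x‖ₑ ≤ 1 := by
              rw [← ofReal_norm]
              exact ENNReal.ofReal_le_one.2 (hw1 x)
            exact pow_le_one' h1 2
      _ = W := by
          rw [lintegral_indicator hWm]
          simp [hW]
  have hKp : ∀ p ∈ P, ∫⁻ x in nb a l Y, ‖Ex (fun ξ => Mu a m sg sl l c p ξ * k p ξ) x‖ₑ ^ 2 ≤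
      2 ^ (17 * a) * (∫⁻ x, ENNReal.ofReal (θ p x ^ 4) * VV a m sg sl l w c p x *
        avK a l sl p ((nb a l Y).indicator 1) x) +
        ENNReal.ofReal (1 / 2 ^ (40 * m)) * ∫⁻ x, VV a m sg sl l w c p x := by
    intro p hp
    have h1 := hKRN a m l c p sg sl (nb a l Y) (k p) hP hc hp (nb_meas a l Y) (hk p hp).1
    refine h1.trans ?_
    have h2 : ∀ x, ‖Ex (k p) x‖ₑ ^ 2 = ENNReal.ofReal (θ p x ^ 4) * VV a m sg sl l w c p x := by
      intro x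
      rw [(hk p hp).2 x, enorm_mul, mul_pow]
      unfold VV
      congr 1
      rw [← ofReal_norm, Complex.norm_real, Real.norm_eq_abs, abs_of_nonneg (by positivity),
        ← ENNReal.ofReal_pow (by positivity)]
      congr 1
      ring
    simp only [h2]
    gcongr
    exact hn2 p hp
  have hm1' : 1 ≤ m := by omega
  calc ∫⁻ x in Y, ‖∑ p ∈ P, Ex (fun ξ => Mu a m sg sl l c p ξ * k p ξ) x‖ₑ ^ 2
      ≤ 2 * (∑ p ∈ P, ∫⁻ x in nb a l Y,
          ‖Ex (fun ξ => Mu a m sg sl l c p ξ * k p ξ) x‖ₑ ^ 2) +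
        ENNReal.ofReal (1 / 2 ^ (38 * m)) * ∑ p ∈ P,
          n2 (fun ξ => Mu a m sg sl l c p ξ * k p ξ) := hD
    _ ≤ 2 * (∑ p ∈ P, (2 ^ (17 * a) * (∫⁻ x, ENNReal.ofReal (θ p x ^ 4) *
          VV a m sg sl l w c p x * avK a l sl p ((nb a l Y).indicator 1) x) +
        ENNReal.ofReal (1 / 2 ^ (40 * m)) * ∫⁻ x, VV a m sg sl l w c p x)) +
        ENNReal.ofReal (1 / 2 ^ (38 * m)) * ∑ p ∈ P, ∫⁻ x, VV a m sg sl l w c p x := by
        gcongr with p hp p hp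
        · exact hKp p hp
        · exact (hn2u p hp).trans (hn2 p hp)
    _ = 2 * 2 ^ (17 * a) * (∑ p ∈ P, ∫⁻ x, ENNReal.ofReal (θ p x ^ 4) *
          VV a m sg sl l w c p x * avK a l sl p ((nb a l Y).indicator 1) x) +
        (2 * ENNReal.ofReal (1 / 2 ^ (40 * m)) + ENNReal.ofReal (1 / 2 ^ (38 * m))) *
          ∑ p ∈ P, ∫⁻ x, VV a m sg sl l w c p x := by
        rw [Finset.sum_add_distrib, ← Finset.mul_sum, ← Finset.mul_sum]
        ring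
    _ ≤ 2 ^ (18 * a) * (∑ p ∈ P, ∫⁻ x, ENNReal.ofReal (θ p x ^ 4) *
          VV a m sg sl l w c p x * avK a l sl p ((nb a l Y).indicator 1) x) +
        ENNReal.ofReal (1 / 2 ^ (20 * m)) * W := by
        gcongr
        · calc (2 : ℝ≥0∞) * 2 ^ (17 * a) = 2 ^ (17 * a + 1) := by rw [pow_succ]; ring
            _ ≤ 2 ^ (18 * a) := pow_le_pow_right' (by norm_num) (by omega)
        · exact eps m hm1'

end Pool.Agent.SLog
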