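import Pool.Agent.SLog.Targets

set_option autoImplicit false

/-! MP_ee701d_an, SLG-REM: the part that is active at no level. -/

namespace Pool.Agent.SLog

open MeasureTheory Set
open scoped ENNReal NNReal ComplexConjugate
open Pool.Agent.KSP (ee dot nr Ex Ex1 Bd Bd1 n1 n2 lg V0 ann)
open Pool.Agent.LLog (PA cd cdr cp fr tp Nn nv tv Core bx sa sd Qx kc psi kap GK psR psA anf mu Bf hat)

namespace REM_

lemma nb_open (a l : ℕ) (Y : Set (ℝ × ℝ)) : IsOpen (nb a l Y) := by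
  have e : nb a l Y = ⋃ y ∈ Y, {x : ℝ × ℝ |
      |y.1 - x.1| < 2 ^ (l + 15 * a) ∧ |y.2 - x.2| < 2 ^ (l + 15 * a)} := by
    ext x
    simp only [nb, mem_ofPred_eq, mem_iUnion, exists_prop]
  rw [e]
  refine isOpen_biUnion fun y _ => ?_
  exact (isOpen_lt (by fun_prop) (by fun_prop)).and (isOpen_lt (by fun_prop) (by fun_prop))

lemma av_le (hAVG : tAVG) (t A B : ℝ) (K : ℝ≥0∞) (g : ℝ × ℝ → ℝ≥0∞) (hA : 0 < A) (hB : 0 < B)
    (hg : Measurable g) (hK : ∀ y, g y ≤ K) (x : ℝ × ℝ) : av t A B g x ≤ K := by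
  have hv := (hAVG t A B g hA hB hg).2.1 x
  have h0 : ENNReal.ofReal (4 * A * B) ≠ 0 := by
    rw [ENNReal.ofReal_ne_zero_iff]
    positivity
  have h1 : ENNReal.ofReal (4 * A * B) ≠ ⊤ := ENNReal.ofReal_ne_top
  unfold av
  calc (ENNReal.ofReal (4 * A * B))⁻¹ * ∫⁻ y in bx t x A B, g y
      ≤ (ENNReal.ofReal (4 * A * B))⁻¹ * ∫⁻ y in bx t x A B, K := by
        gcongr with y
        exact hK y
    _ = (ENNReal.ofReal (4 * A * B))⁻¹ * (K * ENNReal.ofReal (4 * A * B)) := by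
        rw [setLIntegral_const, hv]
    _ = K * ((ENNReal.ofReal (4 * A * B))⁻¹ * ENNReal.ofReal (4 * A * B)) := by ring
    _ = K := by rw [ENNReal.inv_mul_cancel h0 h1, mul_one]

lemma av_mono (t A B : ℝ) {g g' : ℝ × ℝ → ℝ≥0∞} (h : ∀ y, g y ≤ g' y) (x : ℝ × ℝ) :
    av t A B g x ≤ av t A B g' x := by
  unfold av
  gcongr with y
  exact h y

lemma avL_mono (a l : ℕ) (sl k : ℝ) (i b : ℕ) {g g' : ℝ × ℝ → ℝ≥0∞} (h : ∀ y, g y ≤ g' y)
    (x : ℝ × ℝ) : avL a l sl k i b g x ≤ avL a l sl k i b g' x := av_mono _ _ _ h x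

lemma Lg_pos (a l : ℕ) : 0 < Lg a l := by
  unfold Lg
  positivity

lemma bb_pos (a l : ℕ) : 0 < bb a l := by
  unfold bb
  positivity

lemma m_pos {a m : ℕ} (h : PA a m) : 1 ≤ m := by
  obtain ⟨h1, h2, h3⟩ := h
  have : 0 < 2 ^ a := by positivity
  omega

lemma cut (hETP : tETP) (hETA : tETA) (a m l i b : ℕ) (sl : ℝ) (τ : ℝ≥0) (G : ℝ × ℝ → ℝ≥0∞)
    (A : Set (ℝ × ℝ)) (hPA : PA a m) (hτ : 0 < τ) (hG : Measurable G) (hG2 : ∫⁻ x, G x ≠ ⊤)
    (hA : A = {x | (τ : ℝ≥0∞) ≤ avL a l sl 2 i b G x}) :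
    Measurable (eti a m sl l i b A) ∧
    (∀ x, 0 ≤ eti a m sl l i b A x ∧ eti a m sl l i b A x ≤ 1) ∧
    ∀ x, ENNReal.ofReal (1 - eti a m sl l i b A x) * avL a l sl 1 i b G x ≤
      4 * τ + ENNReal.ofReal (2 / 2 ^ (40 * m)) * avL a l sl 1 i b G x := by
  obtain ⟨h1, h2, h3, -⟩ := hETP a m l i b sl τ G A hPA hτ hG hG2 hA
  have hb : 0 < (2 : ℝ) ^ i * bb a l := mul_pos (by positivity) (bb_pos a l)
  obtain ⟨g1, g2, -⟩ := hETA m (tp sl i b) (bb a l) (2 ^ i * bb a l) A (m_pos hPA) (bb_pos a l) hb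
    h1 h2
  exact ⟨g1, g2, h3⟩

lemma prod_le_factor {ι : Type*} (s : Finset ι) (f : ι → ℝ) (h : ∀ i ∈ s, 0 ≤ f i ∧ f i ≤ 1)
    (i : ι) (hi : i ∈ s) : ∏ j ∈ s, f j ≤ f i := by
  classical
  rw [← Finset.mul_prod_erase s f hi]
  have h1 : ∏ j ∈ s.erase i, f j ≤ 1 := Finset.prod_le_one
    (fun j hj => (h j (Finset.mem_of_mem_erase hj)).1)
    (fun j hj => (h j (Finset.mem_of_mem_erase hj)).2)
  have h2 := (h i hi).1
  nlinarith

/-- `2^a` beats `500 a` -/
lemma pow_big (a : ℕ) (ha : 20 ≤ a) : 500 * a ≤ 2 ^ a := by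
  induction a, ha using Nat.le_induction with
  | base => norm_num
  | succ n hn ih =>
    rw [pow_succ]
    omega

lemma m_big {a m : ℕ} (h : PA a m) : 250 * a ≤ m := by
  obtain ⟨h1, h2, h3⟩ := h
  have := pow_big a h1
  omega

lemma near_sub (a l i b : ℕ) : near a l i b ⊆ PP a l := Finset.filter_subset _ _

/-- the real inequality at the end -/
lemma fin_real (κ s α : ℝ) (hκ : 0 ≤ κ) (hκ1 : κ ≤ 1 / 10) (hs : 0 ≤ s) (hα : 0 ≤ α)
    (h : s ^ 2 ≤ α * (9 * κ ^ 2 * α + 10 * κ ^ 2 * s + κ ^ 2 * α)) : s ≤ 4 * κ * α := by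
  by_contra hc
  push Not at hc
  have h1 : 0 ≤ κ * α := mul_nonneg hκ hα
  have h2 : (4 * κ * α) ^ 2 < s ^ 2 := by
    apply pow_lt_pow_left₀ hc (by linarith) (by norm_num)
  have h3 : κ * α * s ≤ s ^ 2 / 4 := by nlinarith
  have h4 : κ * (κ * α * s) ≤ 1 / 10 * (s ^ 2 / 4) := by
    apply mul_le_mul hκ1 h3 (mul_nonneg h1 hs) (by norm_num)
  have h5 : s ^ 2 ≤ 10 * (κ * α) ^ 2 + 10 * (κ * (κ * α * s)) := by nlinarith
  nlinarith

end REM_

open REM_

theorem pREM (hPRG : tPRG) (hETP : tETP) (hETA : tETA) (hAVG : tAVG) (hHBB : tHBB)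
    (hFRQ : tFRQ) (hVB : tVB) : tREM := by
  intro a m l c sg sl w Y hP hc hw hw1 hY hnb hwY
  have hP' := hP
  obtain ⟨hPA, hal, hlm, hsg0, hsg1, hsl1, hsl2⟩ := hP'
  have hPA' := hPA
  obtain ⟨ha, hma, ham⟩ := hPA'
  have hmb := m_big hPA
  set A := volume {x | w x ≠ 0} with hA
  have hAf : A < ⊤ := hw.2.2
  have hnbf : volume (nb a l Y) < ⊤ := by
    refine lt_of_le_of_lt hnb ?_
    exact ENNReal.mul_lt_top (ENNReal.mul_lt_top (by norm_num) (ENNReal.pow_lt_top (by norm_num)))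
      hAf
  obtain ⟨hv1, -, hv3⟩ := hVB a m l sg sl w hP hw
  have hVm : ∀ p ∈ PP a l, Measurable (VV a m sg sl l w c p) := by
    intro p hp
    have h1 := (hv1 c hc p hp).1.measurable
    exact h1.enorm.pow_const 2
  have hVb : ∀ p ∈ PP a l, ∀ x, VV a m sg sl l w c p x ≤ 2 ^ (4 * a) := by
    intro p hp x
    have h1 := (hv1 c hc p hp).2.2.1 1 hw1 x
    rw [mul_one] at h1
    have h2 : ‖vv a m sg sl l w c p x‖ₑ ≤ 2 ^ (2 * a) := by
      rw [← ofReal_norm]
      refine (ENNReal.ofReal_le_ofReal h1).trans_eq ?_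
      rw [ENNReal.ofReal_pow (by norm_num), ENNReal.ofReal_ofNat]
    calc VV a m sg sl l w c p x ≤ (2 ^ (2 * a)) ^ 2 := by
          unfold VV
          gcongr
      _ = 2 ^ (4 * a) := by
          rw [← pow_mul]
          congr 1
          ring
  have hwA : ∫⁻ x, ‖w x‖ₑ ^ 2 ≤ A := by
    have hms : MeasurableSet {x | w x ≠ 0} := (hw.1 (measurableSet_singleton 0)).compl
    calc ∫⁻ x, ‖w x‖ₑ ^ 2 ≤ ∫⁻ x, ({x | w x ≠ 0}.indicator 1 x : ℝ≥0∞) := by
          refine lintegral_mono fun x => ?_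
          by_cases hx : w x = 0
          · simp [hx]
          · have h1 : ‖w x‖ₑ ≤ 1 := by
              rw [← ofReal_norm]
              exact (ENNReal.ofReal_le_ofReal (hw1 x)).trans_eq ENNReal.ofReal_one
            have h2 : x ∈ {x | w x ≠ 0} := hx
            rw [indicator_of_mem h2, Pi.one_apply]
            exact pow_le_one₀ (zero_le) h1
      _ = A := by rw [lintegral_indicator_one hms]
  have hVs : ∑ p ∈ PP a l, ∫⁻ x, VV a m sg sl l w c p x ≤ A := by
    refine le_trans ?_ (hv3.trans hwA)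
    exact Finset.single_le_sum
      (f := fun c' => ∑ p ∈ PP a l, ∫⁻ x, VV a m sg sl l w c' p x)
      (fun _ _ => zero_le) hc
  -- abbreviations
  set V : ℕ → ℝ × ℝ → ℝ≥0∞ := VV a m sg sl l w c with hVdef
  have hMe : ∀ i b : ℕ, Measurable (fun y => ∑ p ∈ near a l i b, V p y) := by
    intro i b
    exact Finset.measurable_fun_sum _ (fun p hp => hVm p (near_sub a l i b hp))
  have hIn : ∀ i b : ℕ, ∫⁻ y, ∑ p ∈ near a l i b, V p y ≠ ⊤ := by
    intro i b
    rw [lintegral_finsetSum _ (fun p hp => hVm p (near_sub a l i b hp))]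
    refine ne_of_lt (lt_of_le_of_lt ?_ hAf)
    refine le_trans ?_ hVs
    exact Finset.sum_le_sum_of_subset (near_sub a l i b)
  -- the cutoffs
  have hea : ∀ i b : ℕ, Measurable (ea a m sl l V i b) ∧
      (∀ x, 0 ≤ ea a m sl l V i b x ∧ ea a m sl l V i b x ≤ 1) ∧
      ∀ x, ENNReal.ofReal (1 - ea a m sl l V i b x) * Dn a l sl 1 V i b x ≤
        4 * ENNReal.ofReal (1 / 2 ^ (176 * a)) +
          ENNReal.ofReal (2 / 2 ^ (40 * m)) * Dn a l sl 1 V i b x := by
    intro i b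
    have hτ : 0 < Real.toNNReal (1 / 2 ^ (176 * a)) := Real.toNNReal_pos.2 (by positivity)
    have h := cut hETP hETA a m l i b sl (Real.toNNReal (1 / 2 ^ (176 * a)))
      (fun y => ∑ p ∈ near a l i b, V p y) (Ac a l sl V i b) hPA hτ (hMe i b) (hIn i b) rfl
    exact h
  have heh : ∀ p : ℕ, Measurable (eh a m sl l Y p) ∧
      (∀ x, 0 ≤ eh a m sl l Y p x ∧ eh a m sl l Y p x ≤ 1) := by
    intro p
    have hτ : 0 < Real.toNNReal (1 / 2 ^ (58 * a)) := Real.toNNReal_pos.2 (by positivity)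
    have hm1 : Measurable ((nb a l Y).indicator (1 : ℝ × ℝ → ℝ≥0∞)) :=
      measurable_one.indicator (nb_open a l Y).measurableSet
    have hi1 : ∫⁻ x, (nb a l Y).indicator (1 : ℝ × ℝ → ℝ≥0∞) x ≠ ⊤ := by
      rw [lintegral_indicator_one (nb_open a l Y).measurableSet]
      exact hnbf.ne
    have h := cut hETP hETA a m l (l + 8 * a) p sl (Real.toNNReal (1 / 2 ^ (58 * a)))
      ((nb a l Y).indicator 1) (Hv a l sl Y p) hPA hτ hm1 hi1 rfl
    exact ⟨h.1, h.2.1⟩
  have hna : ∀ p : ℕ, Measurable (na a m sl l V p) ∧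
      (∀ x, 0 ≤ na a m sl l V p x ∧ na a m sl l V p x ≤ 1) ∧
      ∀ i ∈ Finset.range (l + 8 * a + 1), ∀ x, na a m sl l V p x ≤
        1 - ea a m sl l V i (p / 2 ^ (l + 8 * a - i)) x := by
    intro p
    have h01 : ∀ x, ∀ i ∈ Finset.range (l + 8 * a + 1),
        0 ≤ 1 - ea a m sl l V i (p / 2 ^ (l + 8 * a - i)) x ∧
        1 - ea a m sl l V i (p / 2 ^ (l + 8 * a - i)) x ≤ 1 := by
      intro x i _
      have := (hea i (p / 2 ^ (l + 8 * a - i))).2.1 x
      constructor <;> linarith [this.1, this.2]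
    refine ⟨?_, ?_, ?_⟩
    · unfold na
      refine Finset.measurable_fun_prod _ fun i _ => ?_
      exact measurable_const.sub (hea i (p / 2 ^ (l + 8 * a - i))).1
    · intro x
      unfold na
      exact ⟨Finset.prod_nonneg fun i hi => (h01 x i hi).1,
        Finset.prod_le_one (fun i hi => (h01 x i hi).1) (fun i hi => (h01 x i hi).2)⟩
    · intro i hi x
      unfold na
      exact prod_le_factor (Finset.range (l + 8 * a + 1))
        (fun i => 1 - ea a m sl l V i (p / 2 ^ (l + 8 * a - i)) x) (h01 x) i hi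
  set θ : ℕ → ℝ × ℝ → ℝ := fun p x => eh a m sl l Y p x * na a m sl l V p x with hθ
  have hθm : ∀ p, Measurable (θ p) := fun p => (heh p).1.mul (hna p).1
  have hθ0 : ∀ p x, 0 ≤ θ p x := fun p x => mul_nonneg ((heh p).2 x).1 ((hna p).2.1 x).1
  have hθn : ∀ p x, θ p x ≤ na a m sl l V p x := fun p x =>
    mul_le_of_le_one_left ((hna p).2.1 x).1 ((heh p).2 x).2
  have hθ1 : ∀ p x, θ p x ≤ 1 := fun p x => (hθn p x).trans ((hna p).2.1 x).2
  have hprg := hPRG a m l c sg sl w Y θ hP hc hw hw1 hY hnbf hwY (by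
    intro p hp
    refine ⟨hθm p, fun x => ⟨hθ0 p x, hθ1 p x⟩, ?_⟩
    exact (hFRQ a m l c p sg sl w Y hP hc hp hw hY hnbf).2.2.2.2)
  change ∑ p ∈ PP a l, ∫⁻ x, ENNReal.ofReal (θ p x ^ 2) * V p x ≤
    ENNReal.ofReal (4 / 2 ^ (10 * a)) * A
  set S := ∑ p ∈ PP a l, ∫⁻ x, ENNReal.ofReal (θ p x ^ 2) * V p x with hS
  have hSA : S ≤ A := by
    refine le_trans (Finset.sum_le_sum fun p hp => lintegral_mono fun x => ?_) hVs
    have h1 : ENNReal.ofReal (θ p x ^ 2) ≤ 1 := by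
      rw [← ENNReal.ofReal_one]
      exact ENNReal.ofReal_le_ofReal (pow_le_one₀ (hθ0 p x) (hθ1 p x))
    calc ENNReal.ofReal (θ p x ^ 2) * V p x ≤ 1 * V p x := by gcongr
      _ = V p x := one_mul _
  -- the functions `G p`
  set G : ℕ → ℝ × ℝ → ℝ≥0∞ := fun p => if p ∈ PP a l then
    (fun x => ENNReal.ofReal (θ p x ^ 4) * V p x) else 0 with hG
  have hGp : ∀ p ∈ PP a l, ∀ x, G p x = ENNReal.ofReal (θ p x ^ 4) * V p x := by
    intro p hp x
    simp only [hG]
    rw [if_pos hp]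
  have hGm : ∀ p, Measurable (G p) := by
    intro p
    by_cases hp : p ∈ PP a l
    · have e : G p = fun x => ENNReal.ofReal (θ p x ^ 4) * V p x := by
        funext x
        exact hGp p hp x
      rw [e]
      exact (((hθm p).pow_const 4).ennreal_ofReal).mul (hVm p hp)
    · have e : G p = 0 := by
        simp only [hG]
        rw [if_neg hp]
      rw [e]
      exact measurable_zero
  have hGV : ∀ p ∈ PP a l, ∀ x, G p x ≤ V p x := by
    intro p hp x
    rw [hGp p hp x]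
    have h1 : ENNReal.ofReal (θ p x ^ 4) ≤ 1 := by
      rw [← ENNReal.ofReal_one]
      exact ENNReal.ofReal_le_ofReal (pow_le_one₀ (hθ0 p x) (hθ1 p x))
    calc ENNReal.ofReal (θ p x ^ 4) * V p x ≤ 1 * V p x := by gcongr
      _ = V p x := one_mul _
  -- bound for `Dn 1`
  have hDn : ∀ i b x, Dn a l sl 1 V i b x ≤ 2 ^ (3 * m) := by
    intro i b x
    have h1 : ∀ y, ∑ p ∈ near a l i b, V p y ≤ 2 ^ (3 * m) := by
      intro y
      calc ∑ p ∈ near a l i b, V p y ≤ ∑ p ∈ PP a l, V p y :=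
            Finset.sum_le_sum_of_subset (near_sub a l i b)
        _ ≤ ∑ p ∈ PP a l, 2 ^ (4 * a) := Finset.sum_le_sum fun p hp => hVb p hp y
        _ = ((3 * 2 ^ (l + 8 * a) : ℕ) : ℝ≥0∞) * 2 ^ (4 * a) := by
            rw [Finset.sum_const, nsmul_eq_mul, PP, Finset.card_range]
        _ ≤ ((2 ^ 2 * 2 ^ (l + 8 * a) : ℕ) : ℝ≥0∞) * 2 ^ (4 * a) := by
            gcongr
            norm_num
        _ = 2 ^ (2 + (l + 8 * a) + 4 * a) := by
            push_cast
            ring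
        _ ≤ 2 ^ (3 * m) := by
            apply pow_le_pow_right₀ (by norm_num)
            omega
    refine av_le hAVG _ _ _ _ _ ?_ ?_ (hMe i b) h1 x
    · rw [one_mul]
      exact Lg_pos a l
    · rw [one_mul]
      exact div_pos (Lg_pos a l) (by positivity)
  have hsm : ENNReal.ofReal (2 / 2 ^ (40 * m)) * 2 ^ (3 * m) ≤
      ENNReal.ofReal (1 / 2 ^ (176 * a)) := by
    have e : (2 : ℝ≥0∞) ^ (3 * m) = ENNReal.ofReal (2 ^ (3 * m)) := by
      rw [ENNReal.ofReal_pow (by norm_num), ENNReal.ofReal_ofNat]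
    rw [e, ← ENNReal.ofReal_mul (by positivity)]
    apply ENNReal.ofReal_le_ofReal
    rw [div_mul_eq_mul_div, div_le_div_iff₀ (by positivity) (by positivity), one_mul,
      ← pow_succ', ← pow_add]
    apply pow_le_pow_right₀ (by norm_num)
    omega
  have hcore : ∀ p ∈ PP a l, ∀ i ∈ Finset.range (l + 8 * a + 1), ∀ x,
      G p x * Dn a l sl 1 G i (p / 2 ^ (l + 8 * a - i)) x ≤
        ENNReal.ofReal (5 / 2 ^ (176 * a)) * (ENNReal.ofReal (θ p x ^ 2) * V p x) := by
    intro p hp i hi x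
    set b := p / 2 ^ (l + 8 * a - i) with hb
    have h1 : Dn a l sl 1 G i b x ≤ Dn a l sl 1 V i b x := by
      refine avL_mono _ _ _ _ _ _ (fun y => ?_) x
      exact Finset.sum_le_sum fun p' hp' => hGV p' (near_sub a l i b hp') y
    have h2 : θ p x ^ 2 ≤ 1 - ea a m sl l V i b x := by
      have g1 : θ p x ^ 2 ≤ θ p x := by nlinarith [hθ0 p x, hθ1 p x]
      exact g1.trans ((hθn p x).trans ((hna p).2.2 i hi x))
    have h3 : ENNReal.ofReal (θ p x ^ 2) * Dn a l sl 1 V i b x ≤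
        ENNReal.ofReal (5 / 2 ^ (176 * a)) := by
      calc ENNReal.ofReal (θ p x ^ 2) * Dn a l sl 1 V i b x
          ≤ ENNReal.ofReal (1 - ea a m sl l V i b x) * Dn a l sl 1 V i b x := by
            gcongr
        _ ≤ 4 * ENNReal.ofReal (1 / 2 ^ (176 * a)) +
            ENNReal.ofReal (2 / 2 ^ (40 * m)) * Dn a l sl 1 V i b x := (hea i b).2.2 x
        _ ≤ 4 * ENNReal.ofReal (1 / 2 ^ (176 * a)) +
            ENNReal.ofReal (2 / 2 ^ (40 * m)) * 2 ^ (3 * m) := by
            gcongr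
            exact hDn i b x
        _ ≤ 4 * ENNReal.ofReal (1 / 2 ^ (176 * a)) + ENNReal.ofReal (1 / 2 ^ (176 * a)) := by
            gcongr
        _ = ENNReal.ofReal (5 / 2 ^ (176 * a)) := by
            have e4 : (4 : ℝ≥0∞) = ENNReal.ofReal 4 := by
              rw [ENNReal.ofReal_ofNat]
            rw [e4, ← ENNReal.ofReal_mul (by norm_num), ← ENNReal.ofReal_add (by positivity)
              (by positivity)]
            congr 1
            ring
    have h4 : ENNReal.ofReal (θ p x ^ 4) =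
        ENNReal.ofReal (θ p x ^ 2) * ENNReal.ofReal (θ p x ^ 2) := by
      rw [← ENNReal.ofReal_mul (by positivity)]
      congr 1
      ring
    calc G p x * Dn a l sl 1 G i b x
        ≤ (ENNReal.ofReal (θ p x ^ 4) * V p x) * Dn a l sl 1 V i b x := by
          rw [hGp p hp x]
          gcongr
      _ = (ENNReal.ofReal (θ p x ^ 2) * Dn a l sl 1 V i b x) *
          (ENNReal.ofReal (θ p x ^ 2) * V p x) := by
          rw [h4]
          ring
      _ ≤ ENNReal.ofReal (5 / 2 ^ (176 * a)) * (ENNReal.ofReal (θ p x ^ 2) * V p x) := by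
          gcongr
  -- the bilinear estimate
  have hbil := hHBB a l sl G ha hal hsl1 hsl2 hGm
  set e : ℝ × ℝ → ℝ≥0∞ := fun x => ∑ p ∈ PP a l, avK a l sl p (G p) x with he
  have hr1 : (0 : ℝ) < 4 ^ l * 2 ^ (7 * a) := by positivity
  have hr2 : (0 : ℝ) < 2 ^ (l + 15 * a) := by positivity
  have hem : Measurable e := Finset.measurable_fun_sum _ fun p _ => (hAVG _ _ _ (G p) hr1 hr2
    (hGm p)).1
  have hsum2 : ∫⁻ x, e x ^ 2 ≤ ENNReal.ofReal (10 * 2 ^ (39 * a) * 2 ^ a / 2 ^ (176 * a)) * S := by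
    refine hbil.trans ?_
    have h1 : ∑ p ∈ PP a l, ∑ i ∈ Finset.range (l + 8 * a + 1),
        ∫⁻ x, G p x * Dn a l sl 1 G i (p / 2 ^ (l + 8 * a - i)) x ≤
        ((2 * 2 ^ a : ℕ) : ℝ≥0∞) * ENNReal.ofReal (5 / 2 ^ (176 * a)) * S := by
      calc ∑ p ∈ PP a l, ∑ i ∈ Finset.range (l + 8 * a + 1),
          ∫⁻ x, G p x * Dn a l sl 1 G i (p / 2 ^ (l + 8 * a - i)) x
          ≤ ∑ p ∈ PP a l, ∑ i ∈ Finset.range (l + 8 * a + 1),
            ENNReal.ofReal (5 / 2 ^ (176 * a)) *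
              ∫⁻ x, ENNReal.ofReal (θ p x ^ 2) * V p x := by
            refine Finset.sum_le_sum fun p hp => Finset.sum_le_sum fun i hi => ?_
            rw [← lintegral_const_mul' _ _ ENNReal.ofReal_ne_top]
            exact lintegral_mono fun x => hcore p hp i hi x
        _ = ((l + 8 * a + 1 : ℕ) : ℝ≥0∞) * ENNReal.ofReal (5 / 2 ^ (176 * a)) * S := by
            rw [hS, Finset.mul_sum]
            refine Finset.sum_congr rfl fun p _ => ?_
            rw [Finset.sum_const, Finset.card_range, nsmul_eq_mul]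
            ring
        _ ≤ ((2 * 2 ^ a : ℕ) : ℝ≥0∞) * ENNReal.ofReal (5 / 2 ^ (176 * a)) * S := by
            gcongr
            have := pow_big a ha
            omega
    calc (2 : ℝ≥0∞) ^ (39 * a) * ∑ p ∈ PP a l, ∑ i ∈ Finset.range (l + 8 * a + 1),
        ∫⁻ x, G p x * Dn a l sl 1 G i (p / 2 ^ (l + 8 * a - i)) x
        ≤ 2 ^ (39 * a) * (((2 * 2 ^ a : ℕ) : ℝ≥0∞) * ENNReal.ofReal (5 / 2 ^ (176 * a)) * S) := by
          gcongr
      _ = ENNReal.ofReal (10 * 2 ^ (39 * a) * 2 ^ a / 2 ^ (176 * a)) * S := by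
          have e1 : (2 : ℝ≥0∞) ^ (39 * a) = ENNReal.ofReal (2 ^ (39 * a)) := by
            rw [ENNReal.ofReal_pow (by norm_num), ENNReal.ofReal_ofNat]
          have e2 : ((2 * 2 ^ a : ℕ) : ℝ≥0∞) = ENNReal.ofReal (2 * 2 ^ a) := by
            rw [← ENNReal.ofReal_natCast]
            congr 1
            push_cast
            ring
          rw [e1, e2, ← ENNReal.ofReal_mul (by positivity), ← mul_assoc,
            ← ENNReal.ofReal_mul (by positivity)]
          congr 2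
          ring
  -- pairing with the neighbourhood
  have hnm : MeasurableSet (nb a l Y) := (nb_open a l Y).measurableSet
  have hm1 : Measurable ((nb a l Y).indicator (1 : ℝ × ℝ → ℝ≥0∞)) := measurable_one.indicator hnm
  have hT : ∑ p ∈ PP a l, ∫⁻ x, ENNReal.ofReal (θ p x ^ 4) * V p x *
      avK a l sl p ((nb a l Y).indicator 1) x ≤
      ENNReal.ofReal (1 / 2 ^ (98 * a)) * volume (nb a l Y) +
        ENNReal.ofReal (2 ^ (98 * a)) * ∫⁻ x, e x ^ 2 := by
    calc ∑ p ∈ PP a l, ∫⁻ x, ENNReal.ofReal (θ p x ^ 4) * V p x *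
        avK a l sl p ((nb a l Y).indicator 1) x
        = ∑ p ∈ PP a l, ∫⁻ x, avK a l sl p (G p) x * (nb a l Y).indicator 1 x := by
          refine Finset.sum_congr rfl fun p hp => ?_
          have h1 := (hAVG (tp sl (l + 8 * a) p) (4 ^ l * 2 ^ (7 * a)) (2 ^ (l + 15 * a))
            ((nb a l Y).indicator 1) hr1 hr2 hm1).2.2.1 (G p) (hGm p)
          refine Eq.trans ?_ h1
          refine lintegral_congr fun x => ?_
          rw [hGp p hp x]
          rfl
      _ = ∫⁻ x, e x * (nb a l Y).indicator 1 x := by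
          have hav : ∀ p ∈ PP a l, Measurable
              (fun x => avK a l sl p (G p) x * (nb a l Y).indicator 1 x) := fun p _ =>
            ((hAVG (tp sl (l + 8 * a) p) (4 ^ l * 2 ^ (7 * a)) (2 ^ (l + 15 * a))
              (G p) hr1 hr2 (hGm p)).1).mul hm1
          rw [← lintegral_finsetSum _ hav]
          refine lintegral_congr fun x => ?_
          rw [he, Finset.sum_mul]
      _ ≤ ∫⁻ x, (ENNReal.ofReal (1 / 2 ^ (98 * a)) * (nb a l Y).indicator 1 x +
          ENNReal.ofReal (2 ^ (98 * a)) * e x ^ 2) := by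
          refine lintegral_mono fun x => ?_
          by_cases hx : x ∈ nb a l Y
          · rw [indicator_of_mem hx, Pi.one_apply, mul_one, mul_one]
            rcases le_total (e x) (ENNReal.ofReal (1 / 2 ^ (98 * a))) with h | h
            · exact h.trans (self_le_add_right _ _)
            · refine le_trans ?_ (self_le_add_left _ _)
              calc e x = ENNReal.ofReal (2 ^ (98 * a)) * ENNReal.ofReal (1 / 2 ^ (98 * a)) *
                  e x := by
                    rw [← ENNReal.ofReal_mul (by positivity), mul_one_div_cancel (by positivity),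
                      ENNReal.ofReal_one, one_mul]
                _ ≤ ENNReal.ofReal (2 ^ (98 * a)) * e x * e x := by gcongr
                _ = ENNReal.ofReal (2 ^ (98 * a)) * e x ^ 2 := by ring
          · rw [indicator_of_notMem hx, mul_zero]
            exact zero_le
      _ = ENNReal.ofReal (1 / 2 ^ (98 * a)) * volume (nb a l Y) +
          ENNReal.ofReal (2 ^ (98 * a)) * ∫⁻ x, e x ^ 2 := by
          rw [lintegral_add_left (hm1.const_mul _), lintegral_const_mul' _ _ ENNReal.ofReal_ne_top,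
            lintegral_const_mul' _ _ ENNReal.ofReal_ne_top, lintegral_indicator_one hnm]
  -- conclusion
  have hSf : S ≠ ⊤ := (lt_of_le_of_lt hSA hAf).ne
  set s := S.toReal with hs
  set α := A.toReal with hα
  have eS : S = ENNReal.ofReal s := (ENNReal.ofReal_toReal hSf).symm
  have eA : A = ENNReal.ofReal α := (ENNReal.ofReal_toReal hAf.ne).symm
  have hs0 : 0 ≤ s := ENNReal.toReal_nonneg
  have hα0 : 0 ≤ α := ENNReal.toReal_nonneg
  have hall : S ^ 2 ≤ A * (2 ^ (18 * a) * (ENNReal.ofReal (1 / 2 ^ (98 * a)) *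
      (9 * 2 ^ (60 * a) * A) + ENNReal.ofReal (2 ^ (98 * a)) *
        (ENNReal.ofReal (10 * 2 ^ (39 * a) * 2 ^ a / 2 ^ (176 * a)) * S)) +
      ENNReal.ofReal (1 / 2 ^ (20 * m)) * A) := by
    refine hprg.trans ?_
    gcongr
    refine hT.trans ?_
    gcongr
  have e18 : (2 : ℝ≥0∞) ^ (18 * a) = ENNReal.ofReal (2 ^ (18 * a)) := by
    rw [ENNReal.ofReal_pow (by norm_num), ENNReal.ofReal_ofNat]
  have e60 : (9 : ℝ≥0∞) * 2 ^ (60 * a) = ENNReal.ofReal (9 * 2 ^ (60 * a)) := by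
    rw [ENNReal.ofReal_mul (by norm_num), ENNReal.ofReal_pow (by norm_num), ENNReal.ofReal_ofNat,
      ENNReal.ofReal_ofNat]
  rw [e18, e60, eS, eA, ← ENNReal.ofReal_pow hs0, ← ENNReal.ofReal_mul (by positivity),
    ← ENNReal.ofReal_mul (by positivity), ← ENNReal.ofReal_mul (by positivity),
    ← ENNReal.ofReal_mul (by positivity), ← ENNReal.ofReal_add (by positivity) (by positivity),
    ← ENNReal.ofReal_mul (by positivity), ← ENNReal.ofReal_mul (by positivity),
    ← ENNReal.ofReal_add (by positivity) (by positivity), ← ENNReal.ofReal_mul (by positivity),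
    ENNReal.ofReal_le_ofReal_iff (by positivity)] at hall
  have hfin : s ≤ 4 * (1 / 2 ^ (10 * a)) * α := by
    have hq : (0 : ℝ) < 2 ^ a := by positivity
    have hq10 : (10 : ℝ) ≤ 2 ^ (10 * a) := by
      calc (10 : ℝ) ≤ 2 ^ 4 := by norm_num
        _ ≤ 2 ^ (10 * a) := pow_le_pow_right₀ (by norm_num) (by omega)
    refine fin_real (1 / 2 ^ (10 * a)) s α (by positivity) ?_ hs0 hα0 (hall.trans ?_)
    · exact one_div_le_one_div_of_le (by norm_num) hq10
    · have g1 : (1 : ℝ) / 2 ^ (20 * m) ≤ (1 / 2 ^ (10 * a)) ^ 2 := by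
        rw [div_pow, one_pow, ← pow_mul]
        apply one_div_le_one_div_of_le (by positivity)
        apply pow_le_pow_right₀ (by norm_num)
        omega
      have g2 : (2 : ℝ) ^ (18 * a) * (1 / 2 ^ (98 * a) * (9 * 2 ^ (60 * a) * α) +
          2 ^ (98 * a) * (10 * 2 ^ (39 * a) * 2 ^ a / 2 ^ (176 * a) * s)) =
          9 * (1 / 2 ^ (10 * a)) ^ 2 * α + 10 * (1 / 2 ^ (10 * a)) ^ 2 * s := by
        have f18 : (2 : ℝ) ^ (18 * a) = (2 ^ a) ^ 18 := by rw [← pow_mul, mul_comm]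
        have f98 : (2 : ℝ) ^ (98 * a) = (2 ^ a) ^ 98 := by rw [← pow_mul, mul_comm]
        have f60 : (2 : ℝ) ^ (60 * a) = (2 ^ a) ^ 60 := by rw [← pow_mul, mul_comm]
        have f39 : (2 : ℝ) ^ (39 * a) = (2 ^ a) ^ 39 := by rw [← pow_mul, mul_comm]
        have f176 : (2 : ℝ) ^ (176 * a) = (2 ^ a) ^ 176 := by rw [← pow_mul, mul_comm]
        have f10 : (2 : ℝ) ^ (10 * a) = (2 ^ a) ^ 10 := by rw [← pow_mul, mul_comm]
        rw [f18, f98, f60, f39, f176, f10]
        generalize (2 : ℝ) ^ a = q at hq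
        have hq0 : q ≠ 0 := hq.ne'
        field_simp
      rw [g2]
      gcongr
  rw [eS, eA, ← ENNReal.ofReal_mul (by positivity)]
  apply ENNReal.ofReal_le_ofReal
  refine hfin.trans (le_of_eq ?_)
  ring

end Pool.Agent.SLog
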