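import Pool.Agent.SLog.Targets

/-! SBR: boxes in the frames of a cap and of an ancestor. -/

set_option autoImplicit false

namespace Pool.Agent.SLog

open MeasureTheory Set
open Pool.Agent.KSP (dot)
open Pool.Agent.LLog (tp Nn nv tv)

namespace SBR_

theorem Nn_pos (t : ℝ) : 0 < Nn t := Real.sqrt_pos.2 (by positivity)

theorem Nn_sq (t : ℝ) : Nn t ^ 2 = 1 + t ^ 2 := Real.sq_sqrt (by positivity)

theorem Nn_ge (t : ℝ) : 1 ≤ Nn t := by
  have h1 := Nn_sq t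
  have h2 := Nn_pos t
  nlinarith [sq_nonneg t]

theorem nv_change (t s : ℝ) (ζ : ℝ × ℝ) :
    dot ζ (nv s) = (dot ζ (nv t) * (1 + t * s) + dot ζ (tv t) * (s - t)) / (Nn t * Nn s) := by
  have h1 := (Nn_pos t).ne'
  have h2 := (Nn_pos s).ne'
  have h3 := Nn_sq t
  unfold dot nv tv
  simp only
  field_simp
  rw [h3]
  ring

theorem tv_change (t s : ℝ) (ζ : ℝ × ℝ) :
    dot ζ (tv s) = (dot ζ (tv t) * (1 + t * s) - dot ζ (nv t) * (s - t)) / (Nn t * Nn s) := by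
  have h1 := (Nn_pos t).ne'
  have h2 := (Nn_pos s).ne'
  have h3 := Nn_sq t
  unfold dot nv tv
  simp only
  field_simp
  rw [h3]
  ring

theorem abs_le_NN (t s : ℝ) : |1 + t * s| ≤ Nn t * Nn s := by
  refine abs_le_of_sq_le_sq ?_ (mul_pos (Nn_pos t) (Nn_pos s)).le
  rw [mul_pow, Nn_sq, Nn_sq]
  nlinarith [sq_nonneg (t - s)]

theorem bound (t s u v x y δ : ℝ) (hu : |u| ≤ x) (hv : |v| ≤ y) (hδ : |s - t| ≤ δ) :
    |(u * (1 + t * s) + v * (s - t)) / (Nn t * Nn s)| ≤ x + y * δ := by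
  have hN : 0 < Nn t * Nn s := mul_pos (Nn_pos t) (Nn_pos s)
  have hN1 : 1 ≤ Nn t * Nn s := one_le_mul_of_one_le_of_one_le (Nn_ge t) (Nn_ge s)
  have hx : 0 ≤ x := (abs_nonneg _).trans hu
  have hy : 0 ≤ y := (abs_nonneg _).trans hv
  have hd : 0 ≤ δ := (abs_nonneg _).trans hδ
  rw [abs_div, abs_of_pos hN, div_le_iff₀ hN]
  have h1 : |u * (1 + t * s)| ≤ x * (Nn t * Nn s) := by
    rw [abs_mul]
    exact mul_le_mul hu (abs_le_NN t s) (abs_nonneg _) hx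
  have h2 : |v * (s - t)| ≤ y * δ := by
    rw [abs_mul]
    exact mul_le_mul hv hδ (abs_nonneg _) hy
  have h3 : y * δ ≤ y * δ * (Nn t * Nn s) :=
    le_mul_of_one_le_right (mul_nonneg hy hd) hN1
  calc |u * (1 + t * s) + v * (s - t)| ≤ |u * (1 + t * s)| + |v * (s - t)| := abs_add_le _ _
    _ ≤ x * (Nn t * Nn s) + y * δ * (Nn t * Nn s) := by linarith
    _ = (x + y * δ) * (Nn t * Nn s) := by ring

theorem frames (t s x y δ : ℝ) (ζ : ℝ × ℝ) (hδ : |s - t| ≤ δ) (hx : |dot ζ (nv t)| ≤ x)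
    (hy : |dot ζ (tv t)| ≤ y) :
    |dot ζ (nv s)| ≤ x + y * δ ∧ |dot ζ (tv s)| ≤ y + x * δ := by
  constructor
  · rw [nv_change t s]
    exact bound t s _ _ x y δ hx hy hδ
  · have e : (dot ζ (tv t) * (1 + t * s) - dot ζ (nv t) * (s - t)) / (Nn t * Nn s) =
        (dot ζ (tv t) * (1 + t * s) + (-dot ζ (nv t)) * (s - t)) / (Nn t * Nn s) := by ring
    rw [tv_change t s, e]
    exact bound t s _ _ y x δ hy (by rw [abs_neg]; exact hx) hδ

/-- the slope of a cap and of an ancestor -/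
theorem tp_bounds (j i p : ℕ) (hi : i ≤ j) :
    ((p / 2 ^ (j - i) : ℕ) : ℝ) / 2 ^ i ≤ (p : ℝ) / 2 ^ j ∧
    (p : ℝ) / 2 ^ j ≤ (((p / 2 ^ (j - i) : ℕ) : ℝ) + 1) / 2 ^ i := by
  have h2 : (2 : ℝ) ^ j = 2 ^ (j - i) * 2 ^ i := by
    rw [← pow_add]
    congr 1
    omega
  have hpi : (0 : ℝ) < 2 ^ i := by positivity
  have hpji : (0 : ℝ) < 2 ^ (j - i) := by positivity
  have h3 : (p / 2 ^ (j - i)) * 2 ^ (j - i) ≤ p := Nat.div_mul_le_self _ _
  have h4 : p < (p / 2 ^ (j - i) + 1) * 2 ^ (j - i) := by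
    have := Nat.lt_div_mul_add (a := p) (b := 2 ^ (j - i)) (by positivity)
    linarith
  have h3' : ((p / 2 ^ (j - i) : ℕ) : ℝ) * 2 ^ (j - i) ≤ p := by exact_mod_cast h3
  have h4' : (p : ℝ) ≤ (((p / 2 ^ (j - i) : ℕ) : ℝ) + 1) * 2 ^ (j - i) := by
    exact_mod_cast h4.le
  rw [h2]
  constructor
  · rw [div_le_div_iff₀ hpi (by positivity)]
    nlinarith
  · rw [div_le_div_iff₀ (by positivity) hpi]
    nlinarith

end SBR_

open SBR_ in
theorem pSBR : tSBR := by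
  intro a l i p sl x y ζ _ _ _ hi
  obtain ⟨h1, h2⟩ := tp_bounds (l + 8 * a) i p hi
  have hpi : (0 : ℝ) < 2 ^ i := by positivity
  constructor
  · intro hx hy
    have hδ : |tp sl (l + 8 * a) p - tp sl i (p / 2 ^ (l + 8 * a - i))| ≤ 1 / 2 ^ i := by
      unfold tp
      rw [add_div] at h2
      rw [abs_le]
      constructor <;> linarith
    have := frames _ _ x y _ ζ hδ hx hy
    rw [mul_one_div, mul_one_div] at this
    exact this
  · intro b hb hx hy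
    unfold near at hb
    rw [Finset.mem_filter] at hb
    obtain ⟨-, hb1, hb2⟩ := hb
    have hb1' : ((p / 2 ^ (l + 8 * a - i) : ℕ) : ℝ) ≤ b + 2 := by exact_mod_cast hb1
    have hb2' : (b : ℝ) ≤ ((p / 2 ^ (l + 8 * a - i) : ℕ) : ℝ) + 2 := by exact_mod_cast hb2
    have e1 : (p : ℝ) / 2 ^ (l + 8 * a) ≤ (b : ℝ) / 2 ^ i + 3 / 2 ^ i := by
      refine h2.trans ?_
      rw [← add_div]
      exact div_le_div_of_nonneg_right (by linarith) hpi.le
    have e2 : (b : ℝ) / 2 ^ i - 3 / 2 ^ i ≤ (p : ℝ) / 2 ^ (l + 8 * a) := by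
      refine le_trans ?_ h1
      rw [← sub_div]
      exact div_le_div_of_nonneg_right (by linarith) hpi.le
    have hδ : |tp sl i b - tp sl (l + 8 * a) p| ≤ 3 / 2 ^ i := by
      unfold tp
      rw [abs_le]
      constructor <;> linarith
    have := frames _ _ x y _ ζ hδ hx hy
    rw [mul_div_assoc', mul_div_assoc', mul_comm y 3, mul_comm x 3] at this
    exact this

end Pool.Agent.SLog
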