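import Pool.Agent.SLog.Targets
import Pool.Agent.LLog.SEC

set_option autoImplicit false

/-! Orthogonality of sectors with a band-limited weight of index `j + 3`. -/

namespace Pool.Agent.SLog

open MeasureTheory Set
open scoped ENNReal NNReal ComplexConjugate
open Pool.Agent.KSP (ee dot nr Ex Ex1 Bd Bd1 n1 n2 lg V0 ann cv pCv pPo2)
open Pool.Agent.LLog (PA cp fr GK)

namespace SCP_

open Pool.Agent.LLog.SEC_ (slope fr_core lint_eq)

lemma same {a j p p' : ℕ} {sl : ℝ} {ξ ζ η : ℝ × ℝ} (hξ : ξ ∈ V0) (hζ : ζ ∈ V0)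
    (hs : ζ = ξ + η) (h1 : |η.1| ≤ 1 / 2 ^ (4 * a + (j + 3)) / 2)
    (h2 : |η.2| ≤ 1 / 2 ^ (4 * a + (j + 3)) / 2)
    (c1 : cp sl j p ξ) (c2 : cp sl j p' ζ) (f1 : fr (1 / 2 ^ (4 * a + 2)) (2 ^ j * (ξ.2 / ξ.1 + sl)))
    (f2 : fr (1 / 2 ^ (4 * a + 2)) (2 ^ j * (ζ.2 / ζ.1 + sl))) : p = p' := by
  have hb : (1 : ℝ) / 2 ^ (4 * a + (j + 3)) = (1 / 2 ^ (4 * a + 3)) / 2 ^ j := by
    rw [div_div, ← pow_add]
    congr 2
    ring
  rw [hb] at h1 h2
  have he : (0 : ℝ) < 1 / 2 ^ (4 * a + 3) := by positivity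
  have hsl := slope (j := j) he hξ hζ hs h1 h2
  obtain ⟨g1, g2⟩ := fr_core c1.2.1 c1.2.2 f1
  obtain ⟨g3, g4⟩ := fr_core c2.2.1 c2.2.2 f2
  have h22 : (1 : ℝ) / 2 ^ (4 * a + 2) = 2 * (1 / 2 ^ (4 * a + 3)) := by
    rw [pow_succ _ (4 * a + 2)]
    field_simp
  rw [h22] at g1 g2 g3 g4
  rw [abs_le] at hsl
  obtain ⟨s1, s2⟩ := hsl
  by_contra hne
  rcases lt_or_gt_of_ne hne with hlt | hlt
  · have : (p : ℝ) + 1 ≤ p' := by exact_mod_cast hlt
    nlinarith
  · have : (p' : ℝ) + 1 ≤ p := by exact_mod_cast hlt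
    nlinarith

end SCP_

open SCP_ in
open Pool.Agent.LLog.SEC_ (lint_eq) in
theorem pSCP (h : LLog.tGK) : tSCP := by
  intro a m j n sl Y u ha hY hv hu
  obtain ⟨_, hG1, _, _, hg⟩ := h a m (j + 3) Y ha hY
  obtain ⟨g, hgb, hgs, hge⟩ := hg hv
  set G : ℝ × ℝ → ℝ := fun x => (GK a m (j + 3) Y x).toReal with hGdef
  -- the product functions
  set P : ℕ → ℕ → ℝ × ℝ → ℂ := fun p p' x => (G x : ℂ) * Ex (u p) x * conj (Ex (u p') x) with hP
  have hPe : ∀ p p', P p p' = fun x => Ex (cv g (u p)) x * conj (Ex (u p') x) := by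
    intro p p'
    funext x
    simp only [hP]
    rw [(pCv g (u p) hgb (hu p).1).2.2 x, hge x]
  have hPi : ∀ p p', Integrable (P p p') := by
    intro p p'
    rw [hPe]
    exact (pPo2 _ _ (pCv g (u p) hgb (hu p).1).1 (hu p').1).1
  have hPz : ∀ p p', p ≠ p' → ∫ x, P p p' x = 0 := by
    intro p p' hne
    rw [hPe]
    have e1 := (pPo2 _ _ (pCv g (u p) hgb (hu p).1).1 (hu p').1).2
    rw [e1]
    have e0 : (fun ξ => cv g (u p) ξ * conj (u p' ξ)) = fun _ => 0 := by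
      funext ζ
      by_contra hc
      have hc1 : cv g (u p) ζ ≠ 0 := fun h0 => hc (by rw [h0, zero_mul])
      have hc2 : u p' ζ ≠ 0 := fun h0 => hc (by rw [h0, map_zero, mul_zero])
      obtain ⟨η, hη, hη'⟩ := (pCv g (u p) hgb (hu p).1).2.1 ζ hc1
      obtain ⟨v1, c1, f1⟩ := (hu p).2 _ hη'
      obtain ⟨v2, c2, f2⟩ := (hu p').2 _ hc2
      obtain ⟨b1, b2⟩ := hgs η hη
      exact hne (same (ξ := ζ - η) (ζ := ζ) (η := η) v1 v2 (by abel) b1 b2 c1 c2 f1 f2)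
    rw [e0, integral_zero]
  -- the diagonal
  have hdiag : ∀ p x, P p p x = ((G x * ‖Ex (u p) x‖ ^ 2 : ℝ) : ℂ) := by
    intro p x
    simp only [hP]
    rw [mul_assoc, Complex.mul_conj, Complex.normSq_eq_norm_sq]
    push_cast
    rfl
  have hsum : ∀ x, ((G x * ‖∑ p ∈ Finset.range n, Ex (u p) x‖ ^ 2 : ℝ) : ℂ) =
      ∑ p ∈ Finset.range n, ∑ p' ∈ Finset.range n, P p p' x := by
    intro x
    have e1 : ((‖∑ p ∈ Finset.range n, Ex (u p) x‖ ^ 2 : ℝ) : ℂ) =
        (∑ p ∈ Finset.range n, Ex (u p) x) * conj (∑ p ∈ Finset.range n, Ex (u p) x) := by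
      rw [Complex.mul_conj, Complex.normSq_eq_norm_sq]
    rw [Complex.ofReal_mul, e1, map_sum, Finset.sum_mul_sum, Finset.mul_sum]
    refine Finset.sum_congr rfl fun p _ => ?_
    rw [Finset.mul_sum]
    refine Finset.sum_congr rfl fun p' _ => ?_
    simp only [hP]
    ring
  have hcR : ∀ (f : ℝ × ℝ → ℝ), Integrable (fun x => (f x : ℂ)) → Integrable f := by
    intro f hf
    exact hf.re
  have hdi : ∀ p, Integrable fun x => G x * ‖Ex (u p) x‖ ^ 2 := by
    intro p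
    refine hcR _ ?_
    have : (fun x => ((G x * ‖Ex (u p) x‖ ^ 2 : ℝ) : ℂ)) = P p p := by
      funext x
      exact (hdiag p x).symm
    rw [this]
    exact hPi p p
  have hsi : Integrable fun x => G x * ‖∑ p ∈ Finset.range n, Ex (u p) x‖ ^ 2 := by
    refine hcR _ ?_
    simp only [hsum]
    exact integrable_finsetSum _ fun p _ => integrable_finsetSum _ fun p' _ => hPi p p'
  have hval : ∫ x, G x * ‖∑ p ∈ Finset.range n, Ex (u p) x‖ ^ 2 =
      ∑ p ∈ Finset.range n, ∫ x, G x * ‖Ex (u p) x‖ ^ 2 := by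
    have : ((∫ x, G x * ‖∑ p ∈ Finset.range n, Ex (u p) x‖ ^ 2 : ℝ) : ℂ) =
        ((∑ p ∈ Finset.range n, ∫ x, G x * ‖Ex (u p) x‖ ^ 2 : ℝ) : ℂ) := by
      rw [← integral_complex_ofReal, Complex.ofReal_sum]
      simp only [hsum]
      rw [integral_finsetSum _ fun p _ => integrable_finsetSum _ fun p' _ => hPi p p']
      refine Finset.sum_congr rfl fun p hp => ?_
      rw [integral_finsetSum _ fun p' _ => hPi p p', Finset.sum_eq_single p]
      · rw [← integral_complex_ofReal]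
        exact integral_congr_ae (Filter.Eventually.of_forall fun x => hdiag p x)
      · intro p' _ hne
        exact hPz p p' (Ne.symm hne)
      · intro hc
        exact absurd hp hc
    exact_mod_cast this
  rw [lint_eq hG1 hsi, hval,
    ENNReal.ofReal_sum_of_nonneg fun p _ => integral_nonneg fun x => by positivity]
  refine le_of_eq (Finset.sum_congr rfl fun p _ => ?_)
  rw [lint_eq hG1 (hdi p)]

end Pool.Agent.SLog
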