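import Pool.Agent.SLog.Targets
import Pool.Agent.KSP.Base

set_option autoImplicit false

/-! SLG-SQL: caps can be summed on squares. -/

namespace Pool.Agent.SLog

open MeasureTheory Set
open scoped ENNReal NNReal ComplexConjugate
open Pool.Agent.KSP (ee dot nr Ex Ex1 Bd Bd1 n1 n2 lg V0 ann)
open Pool.Agent.LLog (PA cd cdr cp fr tp Nn nv tv Core bx sa sd Qx kc psi kap GK psR psA anf mu Bf hat)

namespace SQL_

/-- index of the square of side `s` containing `x` -/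
noncomputable def ix (s : ℝ) (x : ℝ × ℝ) : ℤ × ℤ := (⌊x.1 / s⌋, ⌊x.2 / s⌋)

def Q (s : ℝ) (z : ℤ × ℤ) : Set (ℝ × ℝ) := {x | ix s x = z}

/-- the block of nine squares around `z` -/
def Qp (s : ℝ) (z : ℤ × ℤ) : Set (ℝ × ℝ) :=
  {y | |(ix s y).1 - z.1| ≤ 1 ∧ |(ix s y).2 - z.2| ≤ 1}

lemma ix_meas (s : ℝ) : Measurable (ix s) := by
  refine Measurable.prodMk ?_ ?_
  · exact Int.measurable_floor.comp (measurable_fst.div_const s)
  · exact Int.measurable_floor.comp (measurable_snd.div_const s)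

lemma Q_meas (s : ℝ) (z : ℤ × ℤ) : MeasurableSet (Q s z) :=
  ix_meas s (measurableSet_singleton z)

lemma Qp_meas (s : ℝ) (z : ℤ × ℤ) : MeasurableSet (Qp s z) :=
  ix_meas s (t := {w : ℤ × ℤ | |w.1 - z.1| ≤ 1 ∧ |w.2 - z.2| ≤ 1}) (MeasurableSet.of_discrete)

lemma part (s : ℝ) (f : ℝ × ℝ → ℝ≥0∞) : ∫⁻ x, f x = ∑' z, ∫⁻ x in Q s z, f x := by
  have h1 : (⋃ z, Q s z) = univ := by
    ext x
    simp only [mem_iUnion, mem_univ, iff_true]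
    exact ⟨ix s x, rfl⟩
  rw [← lintegral_iUnion (Q_meas s), h1, Measure.restrict_univ]
  intro z z' hne
  refine Set.disjoint_left.2 ?_
  intro x hx hx'
  exact hne (hx.symm.trans hx')

lemma fl {s u : ℝ} (hs : 0 < s) : (⌊u / s⌋ : ℝ) * s ≤ u ∧ u < (⌊u / s⌋ + 1) * s := by
  refine ⟨?_, ?_⟩
  · have := Int.floor_le (u / s)
    rwa [le_div_iff₀ hs] at this
  · have := Int.lt_floor_add_one (u / s)
    rwa [div_lt_iff₀ hs] at this

lemma near1 {s u v : ℝ} (hs : 0 < s) (h : |⌊v / s⌋ - ⌊u / s⌋| ≤ 1) : |u - v| ≤ 3 * s := by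
  obtain ⟨a1, a2⟩ := fl (u := u) hs
  obtain ⟨b1, b2⟩ := fl (u := v) hs
  obtain ⟨c1, c2⟩ := abs_le.1 h
  have d1 : (-1 : ℝ) ≤ (⌊v / s⌋ : ℝ) - ⌊u / s⌋ := by exact_mod_cast c1
  have d2 : (⌊v / s⌋ : ℝ) - ⌊u / s⌋ ≤ 1 := by exact_mod_cast c2
  have e1 : (-1) * s ≤ ((⌊v / s⌋ : ℝ) - ⌊u / s⌋) * s := mul_le_mul_of_nonneg_right d1 hs.le
  have e2 : ((⌊v / s⌋ : ℝ) - ⌊u / s⌋) * s ≤ 1 * s := mul_le_mul_of_nonneg_right d2 hs.le
  rw [sub_mul] at e1 e2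
  rw [add_mul] at a2 b2
  rw [abs_le]
  constructor <;> linarith

lemma far1 {s r u v : ℝ} (hs : 0 < s) (hr : r ≤ s) (h : |u - v| ≤ r) :
    |⌊v / s⌋ - ⌊u / s⌋| ≤ 1 := by
  obtain ⟨a1, a2⟩ := fl (u := u) hs
  obtain ⟨b1, b2⟩ := fl (u := v) hs
  obtain ⟨c1, c2⟩ := abs_le.1 h
  rw [abs_le]
  constructor
  · by_contra hc
    have h1 : ⌊v / s⌋ + 2 ≤ ⌊u / s⌋ := by omega
    have h2 : (⌊v / s⌋ : ℝ) + 2 ≤ ⌊u / s⌋ := by exact_mod_cast h1
    have h3 := mul_le_mul_of_nonneg_right h2 hs.le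
    rw [add_mul] at a2 b2 h3
    linarith
  · by_contra hc
    have h1 : ⌊u / s⌋ + 2 ≤ ⌊v / s⌋ := by omega
    have h2 : (⌊u / s⌋ : ℝ) + 2 ≤ ⌊v / s⌋ := by exact_mod_cast h1
    have h3 := mul_le_mul_of_nonneg_right h2 hs.le
    rw [add_mul] at a2 b2 h3
    linarith

lemma near2 {s : ℝ} (hs : 0 < s) {z : ℤ × ℤ} {x y : ℝ × ℝ} (hx : x ∈ Q s z) (hy : y ∈ Qp s z) :
    |x.1 - y.1| ≤ 3 * s ∧ |x.2 - y.2| ≤ 3 * s := by
  have hx' : ix s x = z := hx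
  obtain ⟨h1, h2⟩ := hy
  rw [← hx'] at h1 h2
  exact ⟨near1 hs h1, near1 hs h2⟩

lemma far2 {s r : ℝ} (hs : 0 < s) (hr : r ≤ s) {z : ℤ × ℤ} {x y : ℝ × ℝ} (hx : x ∈ Q s z)
    (hy : y ∉ Qp s z) : ¬ (|(x - y).1| ≤ r ∧ |(x - y).2| ≤ r) := by
  rintro ⟨h1, h2⟩
  have hx' : ix s x = z := hx
  apply hy
  rw [← hx']
  exact ⟨far1 hs hr h1, far1 hs hr h2⟩

/-- every point is in nine blocks -/
lemma ovl (s : ℝ) (y : ℝ × ℝ) (b : ℝ≥0∞) : ∑' z, (Qp s z).indicator (fun _ => b) y = 9 * b := by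
  set i := (ix s y).1 with hi
  set j := (ix s y).2 with hj
  have hmem : ∀ z : ℤ × ℤ, y ∈ Qp s z ↔
      z ∈ (Finset.Icc (i - 1) (i + 1)) ×ˢ (Finset.Icc (j - 1) (j + 1)) := by
    intro z
    rw [Finset.mem_product, Finset.mem_Icc, Finset.mem_Icc]
    change (|i - z.1| ≤ 1 ∧ |j - z.2| ≤ 1) ↔ _
    rw [abs_le, abs_le]
    constructor
    · rintro ⟨⟨a1, a2⟩, a3, a4⟩
      refine ⟨⟨?_, ?_⟩, ?_, ?_⟩ <;> omega
    · rintro ⟨⟨a1, a2⟩, a3, a4⟩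
      refine ⟨⟨?_, ?_⟩, ?_, ?_⟩ <;> omega
  rw [tsum_eq_sum (s := (Finset.Icc (i - 1) (i + 1)) ×ˢ (Finset.Icc (j - 1) (j + 1)))]
  · have h1 : ∀ z ∈ (Finset.Icc (i - 1) (i + 1)) ×ˢ (Finset.Icc (j - 1) (j + 1)),
        (Qp s z).indicator (fun _ => b) y = b := by
      intro z hz
      rw [indicator_of_mem ((hmem z).2 hz)]
    rw [Finset.sum_congr rfl h1, Finset.sum_const, Finset.card_product, Int.card_Icc,
      Int.card_Icc]
    have h2 : (i + 1 + 1 - (i - 1)).toNat = 3 := by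
      have : i + 1 + 1 - (i - 1) = 3 := by ring
      rw [this]; rfl
    have h3 : (j + 1 + 1 - (j - 1)).toNat = 3 := by
      have : j + 1 + 1 - (j - 1) = 3 := by ring
      rw [this]; rfl
    rw [h2, h3, nsmul_eq_mul]
    norm_num
  · intro z hz
    rw [indicator_of_notMem]
    exact fun h => hz ((hmem z).1 h)

lemma ovl2 (s : ℝ) (f : ℝ × ℝ → ℝ≥0∞) (hf : Measurable f) :
    ∑' z, ∫⁻ y in Qp s z, f y = 9 * ∫⁻ y, f y := by
  have h1 : ∀ z, ∫⁻ y in Qp s z, f y = ∫⁻ y, (Qp s z).indicator f y := fun z =>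
    (lintegral_indicator (Qp_meas s z) f).symm
  simp_rw [h1]
  rw [← lintegral_tsum (fun z => (hf.indicator (Qp_meas s z)).aemeasurable),
    ← lintegral_const_mul _ hf]
  refine lintegral_congr fun y => ?_
  rw [← ovl s y (f y)]
  refine tsum_congr fun z => ?_
  by_cases h : y ∈ Qp s z
  · rw [indicator_of_mem h, indicator_of_mem h]
  · rw [indicator_of_notMem h, indicator_of_notMem h]

/-- the cap determines its number -/
lemma nat_eq {c c' : ℕ} {r : ℝ} (h1 : (c : ℝ) ≤ r) (h2 : r < c + 1) (h3 : (c' : ℝ) ≤ r)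
    (h4 : r < c' + 1) : c = c' := by
  have a1 : (c : ℝ) < c' + 1 := lt_of_le_of_lt h1 h4
  have a2 : (c' : ℝ) < c + 1 := lt_of_le_of_lt h3 h2
  have b1 : c < c' + 1 := by exact_mod_cast a1
  have b2 : c' < c + 1 := by exact_mod_cast a2
  omega

lemma sum_le_one {T : Finset ℕ} {f : ℕ → ℝ≥0∞} (h1 : ∀ p ∈ T, f p ≤ 1)
    (h2 : ∀ p ∈ T, ∀ p' ∈ T, f p ≠ 0 → f p' ≠ 0 → p = p') : ∑ p ∈ T, f p ≤ 1 := by
  by_cases h : ∃ p ∈ T, f p ≠ 0
  · obtain ⟨p, hp, hf⟩ := h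
    have e2 : ∑ p' ∈ T, f p' = f p := by
      refine Finset.sum_eq_single_of_mem p hp ?_
      intro p' hp' hne
      by_contra h0
      exact hne (h2 p hp p' hp' hf h0).symm
    rw [e2]
    exact h1 p hp
  · push Not at h
    rw [Finset.sum_eq_zero fun p hp => h p hp]
    exact zero_le_one

/-- different caps have disjoint supports -/
lemma disj (hP0 : tPPP) {a m l c0 : ℕ} {sg sl : ℝ} (hP : HP a m l sg sl) (ξ : ℝ × ℝ) :
    ∑ p ∈ PP a l, ‖Pp a m sg sl l c0 p ξ‖ₑ ^ 2 ≤ 1 := by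
  have key : ∀ p ∈ PP a l, ‖Pp a m sg sl l c0 p ξ‖ₑ ^ 2 ≠ 0 → cp sl (l + 8 * a) p ξ := by
    intro p hp h0
    refine (hP0 a m l c0 p sg sl hP hp).2.2.1 ξ ?_
    intro h
    apply h0
    rw [h, enorm_zero]
    exact zero_pow two_ne_zero
  refine sum_le_one ?_ ?_
  · intro p hp
    have h := (hP0 a m l c0 p sg sl hP hp).2.1 ξ
    refine pow_le_one' ?_ 2
    rw [← ofReal_norm]
    exact ENNReal.ofReal_le_one.2 h
  · intro p hp p' hp' h0 h0'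
    obtain ⟨-, k1, k2⟩ := key p hp h0
    obtain ⟨-, k3, k4⟩ := key p' hp' h0'
    exact nat_eq k1 k2 k3 k4

lemma bd_mul {μ h : ℝ × ℝ → ℂ} (hμ : Bd μ) (hh : Measurable h) (hb : ∃ B : ℝ, ∀ ξ, ‖h ξ‖ ≤ B) :
    Bd (fun ξ => μ ξ * h ξ) := by
  obtain ⟨m1, ⟨B1, b1⟩, R, hR⟩ := hμ
  obtain ⟨B2, b2⟩ := hb
  refine ⟨m1.mul hh, ⟨B1 * B2, ?_⟩, R, ?_⟩
  · intro ξ
    rw [norm_mul]
    exact mul_le_mul (b1 ξ) (b2 ξ) (norm_nonneg _) ((norm_nonneg _).trans (b1 ξ))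
  · intro ξ h0
    exact hR ξ (left_ne_zero_of_mul h0)

lemma bf_ind {g : ℝ × ℝ → ℂ} (hg : Bf g) {A : Set (ℝ × ℝ)} (hA : MeasurableSet A) :
    Bf (A.indicator g) := by
  obtain ⟨m1, ⟨B, b⟩, h3⟩ := hg
  refine ⟨m1.indicator hA, ⟨B, ?_⟩, ?_⟩
  · intro x
    exact (norm_indicator_le_norm_self g x).trans (b x)
  · refine (measure_mono ?_).trans_lt h3
    intro x hx
    have hx' : A.indicator g x ≠ 0 := hx
    exact fun h => hx' (by
      by_cases hxA : x ∈ A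
      · rw [indicator_of_mem hxA]; exact h
      · rw [indicator_of_notMem hxA])

/-- splitting a convolution -/
lemma conv_split {K g : ℝ × ℝ → ℂ} (hK : Integrable K) (hg : Measurable g)
    (hb : ∃ B : ℝ, ∀ x, ‖g x‖ ≤ B) {A : Set (ℝ × ℝ)} (hA : MeasurableSet A) (x : ℝ × ℝ) :
    ‖∫ y, K (x - y) * g y‖ₑ ≤ ‖∫ y, K (x - y) * A.indicator g y‖ₑ +
      ∫⁻ y in Aᶜ, ‖K (x - y)‖ₑ * ‖g y‖ₑ := by
  obtain ⟨B, hB⟩ := hb
  have hKx : Integrable (fun y => K (x - y)) := hK.comp_sub_left x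
  have i1 : Integrable (fun y => K (x - y) * A.indicator g y) := by
    refine hKx.mul_bdd (c := B) (hg.indicator hA).aestronglyMeasurable ?_
    exact ae_of_all _ fun y => (norm_indicator_le_norm_self g y).trans (hB y)
  have i2 : Integrable (fun y => K (x - y) * Aᶜ.indicator g y) := by
    refine hKx.mul_bdd (c := B) (hg.indicator hA.compl).aestronglyMeasurable ?_
    exact ae_of_all _ fun y => (norm_indicator_le_norm_self g y).trans (hB y)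
  have e1 : ∫ y, K (x - y) * g y = (∫ y, K (x - y) * A.indicator g y) +
      ∫ y, K (x - y) * Aᶜ.indicator g y := by
    rw [← integral_add i1 i2]
    refine integral_congr_ae (ae_of_all _ fun y => ?_)
    by_cases h : y ∈ A
    · have h' : y ∉ Aᶜ := fun h2 => h2 h
      simp only [indicator_of_mem h, indicator_of_notMem h', mul_zero, add_zero]
    · have h' : y ∈ Aᶜ := h
      simp only [indicator_of_notMem h, indicator_of_mem h', mul_zero, zero_add]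
  rw [e1]
  refine (enorm_add_le _ _).trans (add_le_add le_rfl ?_)
  refine (enorm_integral_le_lintegral_enorm _).trans ?_
  rw [← lintegral_indicator hA.compl]
  refine lintegral_mono fun y => ?_
  rw [enorm_mul]
  by_cases h : y ∈ Aᶜ
  · rw [indicator_of_mem h, indicator_of_mem h]
  · rw [indicator_of_notMem h, indicator_of_notMem h, enorm_zero, mul_zero]

lemma sq_add_le (a b : ℝ≥0∞) : (a + b) ^ 2 ≤ 2 * a ^ 2 + 2 * b ^ 2 := by
  have h := ENNReal.rpow_add_le_mul_rpow_add_rpow a b (p := 2) (by norm_num)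
  have e : (2 : ℝ≥0∞) ^ ((2 : ℝ) - 1) = 2 := by
    norm_num
  rw [e, ENNReal.rpow_two, ENNReal.rpow_two, ENNReal.rpow_two, mul_add] at h
  exact h

/-- the tail of the kernels -/
def tl (r : ℝ) : Set (ℝ × ℝ) := {z : ℝ × ℝ | ¬ (|z.1| ≤ r ∧ |z.2| ≤ r)}

lemma tl_meas (r : ℝ) : MeasurableSet (tl r) := by
  have h1 : MeasurableSet {z : ℝ × ℝ | |z.1| ≤ r} :=
    measurableSet_le measurable_fst.norm measurable_const
  have h2 : MeasurableSet {z : ℝ × ℝ | |z.2| ≤ r} :=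
    measurableSet_le measurable_snd.norm measurable_const
  exact (h1.inter h2).compl

/-- pointwise bound by the local part and the tail -/
lemma pw (hC : Pool.Agent.LLog.tCVK) {μ g : ℝ × ℝ → ℂ} (hμ : Bd μ) (hK : Integrable (Ex μ))
    (hg : Bf g) {s r : ℝ} (hs : 0 < s) (hr : r ≤ s) {z : ℤ × ℤ} {x : ℝ × ℝ} (hx : x ∈ Q s z) :
    ‖Ex (fun ξ => μ ξ * hat g ξ) x‖ₑ ^ 2 ≤
      2 * ‖Ex (fun ξ => μ ξ * hat ((Qp s z).indicator g) ξ) x‖ₑ ^ 2 +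
      2 * (∫⁻ y in univ, (tl r).indicator (fun w => ‖Ex μ w‖ₑ) (x - y) * ‖g y‖ₑ) ^ 2 := by
  have h1 := (hC μ hμ).2 g hg x
  have h2 := (hC μ hμ).2 _ (bf_ind hg (Qp_meas s z)) x
  rw [h1, h2]
  refine le_trans ?_ (sq_add_le _ _)
  refine pow_le_pow_left' ?_ 2
  refine (conv_split hK hg.1 hg.2.1 (Qp_meas s z) x).trans (add_le_add le_rfl ?_)
  rw [Measure.restrict_univ, ← lintegral_indicator (Qp_meas s z).compl]
  refine lintegral_mono fun y => ?_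
  by_cases h : y ∈ (Qp s z)ᶜ
  · have h' : x - y ∈ tl r := far2 hs hr hx h
    rw [indicator_of_mem h, indicator_of_mem h']
  · rw [indicator_of_notMem h]
    exact zero_le

/-- the local parts -/
lemma near3 (hP0 : tPPP) (hH : Pool.Agent.LLog.tHAT) {a m l c0 : ℕ} {sg sl : ℝ} {g : ℝ × ℝ → ℂ}
    {Φ : ℕ → ℝ × ℝ → ℝ≥0∞} {W : ℝ × ℝ → ℝ≥0∞} (hP : HP a m l sg sl) (hg : Bf g)
    {s : ℝ} (hs : 0 < s)
    (hW : ∀ p ∈ PP a l, ∀ x y : ℝ × ℝ, |x.1 - y.1| ≤ 3 * s → |x.2 - y.2| ≤ 3 * s → Φ p x ≤ W y)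
    (z : ℤ × ℤ) :
    ∑ p ∈ PP a l, ∫⁻ x in Q s z,
      ‖Ex (fun ξ => Pp a m sg sl l c0 p ξ * hat ((Qp s z).indicator g) ξ) x‖ₑ ^ 2 * Φ p x ≤
    ∫⁻ y in Qp s z, ‖g y‖ₑ ^ 2 * W y := by
  set g1 := (Qp s z).indicator g with hg1
  have hf : Bf g1 := bf_ind hg (Qp_meas s z)
  obtain ⟨hcont, hbdd, hpl, -⟩ := hH g1 hf
  have hmeas : Measurable (hat g1) := hcont.measurable
  set Wz : ℝ≥0∞ := ⨅ y ∈ Qp s z, W y with hWz
  have hbd : ∀ p ∈ PP a l, Bd (fun ξ => Pp a m sg sl l c0 p ξ * hat g1 ξ) :=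
    fun p hp => bd_mul (hP0 a m l c0 p sg sl hP hp).1 hmeas hbdd
  have h1 : ∀ p ∈ PP a l, ∫⁻ x in Q s z,
      ‖Ex (fun ξ => Pp a m sg sl l c0 p ξ * hat g1 ξ) x‖ₑ ^ 2 * Φ p x ≤
      (∫⁻ ξ, ‖Pp a m sg sl l c0 p ξ‖ₑ ^ 2 * ‖hat g1 ξ‖ₑ ^ 2) * Wz := by
    intro p hp
    have hpl2 := Pool.Agent.KSP.pPl2 _ (hbd p hp)
    have hm : Measurable (fun x => ‖Ex (fun ξ => Pp a m sg sl l c0 p ξ * hat g1 ξ) x‖ₑ ^ 2) :=
      hpl2.1.measurable.enorm.pow_const 2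
    calc ∫⁻ x in Q s z, ‖Ex (fun ξ => Pp a m sg sl l c0 p ξ * hat g1 ξ) x‖ₑ ^ 2 * Φ p x
        ≤ ∫⁻ x in Q s z, ‖Ex (fun ξ => Pp a m sg sl l c0 p ξ * hat g1 ξ) x‖ₑ ^ 2 * Wz := by
          refine setLIntegral_mono' (Q_meas s z) fun x hx => ?_
          refine mul_le_mul' le_rfl ?_
          refine le_iInf fun y => le_iInf fun hy => ?_
          obtain ⟨k1, k2⟩ := near2 hs hx hy
          exact hW p hp x y k1 k2
      _ ≤ ∫⁻ x, ‖Ex (fun ξ => Pp a m sg sl l c0 p ξ * hat g1 ξ) x‖ₑ ^ 2 * Wz :=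
          lintegral_mono' Measure.restrict_le_self le_rfl
      _ = (∫⁻ x, ‖Ex (fun ξ => Pp a m sg sl l c0 p ξ * hat g1 ξ) x‖ₑ ^ 2) * Wz :=
          lintegral_mul_const _ hm
      _ = (∫⁻ ξ, ‖Pp a m sg sl l c0 p ξ‖ₑ ^ 2 * ‖hat g1 ξ‖ₑ ^ 2) * Wz := by
          rw [hpl2.2, n2]
          congr 1
          refine lintegral_congr fun ξ => ?_
          rw [enorm_mul, mul_pow]
  have hm1 : ∀ p ∈ PP a l,
      Measurable (fun ξ => ‖Pp a m sg sl l c0 p ξ‖ₑ ^ 2 * ‖hat g1 ξ‖ₑ ^ 2) := fun p hp =>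
    ((hP0 a m l c0 p sg sl hP hp).1.1.enorm.pow_const 2).mul (hmeas.enorm.pow_const 2)
  calc ∑ p ∈ PP a l, ∫⁻ x in Q s z,
        ‖Ex (fun ξ => Pp a m sg sl l c0 p ξ * hat g1 ξ) x‖ₑ ^ 2 * Φ p x
      ≤ ∑ p ∈ PP a l, (∫⁻ ξ, ‖Pp a m sg sl l c0 p ξ‖ₑ ^ 2 * ‖hat g1 ξ‖ₑ ^ 2) * Wz :=
        Finset.sum_le_sum h1
    _ = (∑ p ∈ PP a l, ∫⁻ ξ, ‖Pp a m sg sl l c0 p ξ‖ₑ ^ 2 * ‖hat g1 ξ‖ₑ ^ 2) * Wz :=
        (Finset.sum_mul _ _ _).symm
    _ = (∫⁻ ξ, ∑ p ∈ PP a l, ‖Pp a m sg sl l c0 p ξ‖ₑ ^ 2 * ‖hat g1 ξ‖ₑ ^ 2) * Wz := by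
        rw [lintegral_finsetSum' _ (fun p hp => (hm1 p hp).aemeasurable)]
    _ ≤ (∫⁻ ξ, ‖hat g1 ξ‖ₑ ^ 2) * Wz := by
        refine mul_le_mul' (lintegral_mono fun ξ => ?_) le_rfl
        rw [← Finset.sum_mul]
        calc _ ≤ 1 * ‖hat g1 ξ‖ₑ ^ 2 := mul_le_mul' (disj hP0 hP ξ) le_rfl
          _ = _ := one_mul _
    _ = (∫⁻ y in Qp s z, ‖g y‖ₑ ^ 2) * Wz := by
        rw [hpl, ← lintegral_indicator (Qp_meas s z)]
        congr 1
        refine lintegral_congr fun y => ?_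
        by_cases h : y ∈ Qp s z
        · rw [hg1, indicator_of_mem h, indicator_of_mem h]
        · rw [hg1, indicator_of_notMem h, indicator_of_notMem h, enorm_zero,
            zero_pow two_ne_zero]
    _ = ∫⁻ y in Qp s z, ‖g y‖ₑ ^ 2 * Wz :=
        (lintegral_mul_const _ (hg.1.enorm.pow_const 2)).symm
    _ ≤ ∫⁻ y in Qp s z, ‖g y‖ₑ ^ 2 * W y := by
        refine setLIntegral_mono' (Qp_meas s z) fun y hy => ?_
        exact mul_le_mul' le_rfl (iInf₂_le y hy)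

/-- sizes -/
lemma size {a m l : ℕ} (h : PA a m) (hl : l ≤ m) : (6 : ℝ) * 2 ^ (l + 8 * a) * (1 / 2 ^ (50 * m)) ≤
    1 / 2 ^ (20 * m) := by
  obtain ⟨ha, h1, h2⟩ := h
  have h3 : 8 * a + 3 ≤ m := by
    have e : 16 * a + 6 ≤ 2 ^ a := by
      have : ∀ n : ℕ, 16 * (20 + n) + 6 ≤ 2 ^ (20 + n) := by
        intro n
        induction n with
        | zero => norm_num
        | succ k ih =>
          have : 2 ^ (20 + (k + 1)) = 2 * 2 ^ (20 + k) := by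
            rw [← pow_succ', add_assoc]
          rw [this]
          have h5 : 1 ≤ 2 ^ (20 + k) := Nat.one_le_two_pow
          omega
      have h4 := this (a - 20)
      rwa [Nat.add_sub_cancel' ha] at h4
    omega
  have h6 : (6 : ℝ) * 2 ^ (l + 8 * a) ≤ 2 ^ (30 * m) := by
    calc (6 : ℝ) * 2 ^ (l + 8 * a) ≤ 2 ^ 3 * 2 ^ (l + 8 * a) := by
          refine mul_le_mul_of_nonneg_right (by norm_num) (by positivity)
      _ = 2 ^ (3 + (l + 8 * a)) := (pow_add _ _ _).symm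
      _ ≤ 2 ^ (30 * m) := pow_le_pow_right₀ (by norm_num) (by omega)
  have h7 : (2 : ℝ) ^ (50 * m) = 2 ^ (30 * m) * 2 ^ (20 * m) := by
    rw [← pow_add]
    congr 1
    ring
  rw [h7]
  calc (6 : ℝ) * 2 ^ (l + 8 * a) * (1 / (2 ^ (30 * m) * 2 ^ (20 * m)))
      ≤ 2 ^ (30 * m) * (1 / (2 ^ (30 * m) * 2 ^ (20 * m))) :=
        mul_le_mul_of_nonneg_right h6 (by positivity)
    _ = 1 / 2 ^ (20 * m) := by
        have : (2 : ℝ) ^ (30 * m) ≠ 0 := by positivity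
        field_simp

end SQL_

open SQL_

theorem pSQL (hP0 : tPPP) (hH : Pool.Agent.LLog.tHAT) (hC : Pool.Agent.LLog.tCVK)
    (hY : Pool.Agent.LLog.tYNG) : tSQL := by
  intro a m l c0 sg sl g Φ W hP hg hΦ hWm hW
  set s : ℝ := 2 ^ (l + 16 * a) with hs
  set r : ℝ := 2 ^ (l + 15 * a) with hr
  have hs0 : 0 < s := by positivity
  have hrs : r ≤ s := pow_le_pow_right₀ (by norm_num) (by omega)
  obtain ⟨hcont, hbdd, -, -⟩ := hH g hg
  have hmeas : Measurable (hat g) := hcont.measurable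
  -- the kernels
  have hKm : ∀ p ∈ PP a l, Measurable (Ex (Pp a m sg sl l c0 p)) := fun p hp =>
    (Pool.Agent.KSP.pPl2 _ (hP0 a m l c0 p sg sl hP hp).1).1.measurable
  have hKi : ∀ p ∈ PP a l, Integrable (Ex (Pp a m sg sl l c0 p)) := by
    intro p hp
    refine ⟨(hKm p hp).aestronglyMeasurable, ?_⟩
    refine lt_of_le_of_lt (hP0 a m l c0 p sg sl hP hp).2.2.2.1 ?_
    exact ENNReal.pow_lt_top (by norm_num)
  -- local parts
  set N : ℕ → ℤ × ℤ → ℝ × ℝ → ℂ := fun p z =>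
    Ex (fun ξ => Pp a m sg sl l c0 p ξ * hat ((Qp s z).indicator g) ξ) with hN
  have hNm : ∀ p ∈ PP a l, ∀ z, Measurable (fun x => ‖N p z x‖ₑ ^ 2 * Φ p x) := by
    intro p hp z
    obtain ⟨k1, k2, -, -⟩ := hH _ (bf_ind hg (Qp_meas s z))
    have := Pool.Agent.KSP.pPl2 _ (bd_mul (hP0 a m l c0 p sg sl hP hp).1 k1.measurable k2)
    exact (this.1.measurable.enorm.pow_const 2).mul (hΦ p).1
  -- tails
  set T : ℕ → ℝ × ℝ → ℝ≥0∞ := fun p x =>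
    ∫⁻ y in univ, (tl r).indicator (fun w => ‖Ex (Pp a m sg sl l c0 p) w‖ₑ) (x - y) * ‖g y‖ₑ with hT
  have hTb : ∀ p ∈ PP a l, ∫⁻ x, T p x ^ 2 ≤
      ENNReal.ofReal (1 / 2 ^ (50 * m)) * ∫⁻ x, ‖g x‖ₑ ^ 2 := by
    intro p hp
    have h1 := hY ((tl r).indicator (fun w => ‖Ex (Pp a m sg sl l c0 p) w‖ₑ)) (fun y => ‖g y‖ₑ)
      univ univ univ ((hKm p hp).enorm.indicator (tl_meas r)) hg.1.enorm MeasurableSet.univ
      MeasurableSet.univ MeasurableSet.univ (fun _ _ _ _ => mem_univ _)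
    have h2 : ∫⁻ z in univ, (tl r).indicator (fun w => ‖Ex (Pp a m sg sl l c0 p) w‖ₑ) z ≤
        ENNReal.ofReal (1 / 2 ^ (25 * m)) := by
      rw [Measure.restrict_univ, lintegral_indicator (tl_meas r)]
      exact (hP0 a m l c0 p sg sl hP hp).2.2.2.2
    have h3 : ENNReal.ofReal (1 / 2 ^ (25 * m)) ^ 2 = ENNReal.ofReal (1 / 2 ^ (50 * m)) := by
      rw [← ENNReal.ofReal_pow (by positivity), div_pow, one_pow, ← pow_mul]
      congr 3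
      ring
    calc ∫⁻ x, T p x ^ 2 = ∫⁻ x in univ, T p x ^ 2 := by rw [Measure.restrict_univ]
      _ ≤ _ := h1
      _ ≤ ENNReal.ofReal (1 / 2 ^ (25 * m)) ^ 2 * ∫⁻ x in univ, ‖g x‖ₑ ^ 2 :=
          mul_le_mul' (pow_le_pow_left' h2 2) le_rfl
      _ = _ := by rw [h3, Measure.restrict_univ]
  -- one cap
  have hone : ∀ p ∈ PP a l,
      ∫⁻ x, ‖Ex (fun ξ => Pp a m sg sl l c0 p ξ * hat g ξ) x‖ₑ ^ 2 * Φ p x ≤
      2 * (∑' z, ∫⁻ x in Q s z, ‖N p z x‖ₑ ^ 2 * Φ p x) + 2 * ∫⁻ x, T p x ^ 2 := by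
    intro p hp
    have h1 : ∀ z, ∫⁻ x in Q s z, ‖Ex (fun ξ => Pp a m sg sl l c0 p ξ * hat g ξ) x‖ₑ ^ 2 * Φ p x ≤
        2 * (∫⁻ x in Q s z, ‖N p z x‖ₑ ^ 2 * Φ p x) + 2 * ∫⁻ x in Q s z, T p x ^ 2 := by
      intro z
      calc ∫⁻ x in Q s z, ‖Ex (fun ξ => Pp a m sg sl l c0 p ξ * hat g ξ) x‖ₑ ^ 2 * Φ p x
          ≤ ∫⁻ x in Q s z, (2 * (‖N p z x‖ₑ ^ 2 * Φ p x) + 2 * T p x ^ 2) := by
            refine setLIntegral_mono' (Q_meas s z) fun x hx => ?_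
            have h2 := pw hC (hP0 a m l c0 p sg sl hP hp).1 (hKi p hp) hg hs0 hrs hx
            calc ‖Ex (fun ξ => Pp a m sg sl l c0 p ξ * hat g ξ) x‖ₑ ^ 2 * Φ p x
                ≤ (2 * ‖N p z x‖ₑ ^ 2 + 2 * T p x ^ 2) * Φ p x := mul_le_mul' h2 le_rfl
              _ = 2 * (‖N p z x‖ₑ ^ 2 * Φ p x) + 2 * T p x ^ 2 * Φ p x := by ring
              _ ≤ 2 * (‖N p z x‖ₑ ^ 2 * Φ p x) + 2 * T p x ^ 2 * 1 :=
                  add_le_add le_rfl (mul_le_mul' le_rfl ((hΦ p).2 x))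
              _ = _ := by rw [mul_one]
        _ = (∫⁻ x in Q s z, 2 * (‖N p z x‖ₑ ^ 2 * Φ p x)) + ∫⁻ x in Q s z, 2 * T p x ^ 2 :=
            lintegral_add_left ((hNm p hp z).const_mul 2) _
        _ = _ := by
            rw [lintegral_const_mul _ (hNm p hp z), lintegral_const_mul' _ _ (by norm_num)]
    rw [part s]
    refine (ENNReal.tsum_le_tsum h1).trans (le_of_eq ?_)
    rw [ENNReal.tsum_add, ENNReal.tsum_mul_left, ENNReal.tsum_mul_left, ← part s]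
  calc ∑ p ∈ PP a l, ∫⁻ x, ‖Ex (fun ξ => Pp a m sg sl l c0 p ξ * hat g ξ) x‖ₑ ^ 2 * Φ p x
      ≤ ∑ p ∈ PP a l, (2 * (∑' z, ∫⁻ x in Q s z, ‖N p z x‖ₑ ^ 2 * Φ p x) +
          2 * ∫⁻ x, T p x ^ 2) := Finset.sum_le_sum hone
    _ = 2 * (∑' z, ∑ p ∈ PP a l, ∫⁻ x in Q s z, ‖N p z x‖ₑ ^ 2 * Φ p x) +
          ∑ p ∈ PP a l, 2 * ∫⁻ x, T p x ^ 2 := by
        rw [Finset.sum_add_distrib, ← Finset.mul_sum]
        congr 2
        exact (Summable.tsum_finsetSum fun p _ => ENNReal.summable).symm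
    _ ≤ 2 * (∑' z, ∫⁻ y in Qp s z, ‖g y‖ₑ ^ 2 * W y) +
          ∑ p ∈ PP a l, 2 * (ENNReal.ofReal (1 / 2 ^ (50 * m)) * ∫⁻ x, ‖g x‖ₑ ^ 2) := by
        refine add_le_add (mul_le_mul' le_rfl (ENNReal.tsum_le_tsum fun z => ?_))
          (Finset.sum_le_sum fun p hp => mul_le_mul' le_rfl (hTb p hp))
        exact near3 hP0 hH hP hg hs0 hW z
    _ ≤ 18 * (∫⁻ x, ‖g x‖ₑ ^ 2 * W x) + ENNReal.ofReal (1 / 2 ^ (20 * m)) * ∫⁻ x, ‖g x‖ₑ ^ 2 := by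
        refine add_le_add ?_ ?_
        · rw [ovl2 s (fun y => ‖g y‖ₑ ^ 2 * W y) ((hg.1.enorm.pow_const 2).mul hWm),
            ← mul_assoc]
          norm_num
        · rw [Finset.sum_const, PP, Finset.card_range, nsmul_eq_mul, ← mul_assoc, ← mul_assoc]
          refine mul_le_mul' ?_ le_rfl
          have e : ((3 * 2 ^ (l + 8 * a) : ℕ) : ℝ≥0∞) * 2 * ENNReal.ofReal (1 / 2 ^ (50 * m)) =
              ENNReal.ofReal (6 * 2 ^ (l + 8 * a) * (1 / 2 ^ (50 * m))) := by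
            rw [ENNReal.ofReal_mul (by positivity), ENNReal.ofReal_mul (by positivity),
              ENNReal.ofReal_pow (by norm_num)]
            congr 1
            push_cast
            rw [mul_right_comm]
            norm_num
          rw [e]
          exact ENNReal.ofReal_le_ofReal (size hP.1 hP.2.2.1)

end Pool.Agent.SLog
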