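import Pool.Agent.SLog.SV6

set_option autoImplicit false

/-! Strong (2,2) bound in a small sector (`tSV`). -/

namespace Pool.Agent.SLog

open MeasureTheory Set
open scoped ENNReal NNReal ComplexConjugate
open Pool.Agent.KSP (ee dot nr Ex Ex1 Bd Bd1 n1 n2 lg V0 ann)
open Pool.Agent.LLog (PA Core kc Bf hat)

namespace SV_

open Pool.Agent.KSP.K_ (Bd_indicator integrable_Ex measurable_Ex measurable_nr n2_indicator
  measurable_ann integrable_Bd sel)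

theorem Ex_bound (h : ℝ × ℝ → ℂ) (x : ℝ × ℝ) : ‖Ex h x‖ ≤ ∫ ξ, ‖h ξ‖ := by
  unfold KSP.Ex
  refine (norm_integral_le_integral_norm _).trans (le_of_eq ?_)
  refine integral_congr_ae (Filter.Eventually.of_forall fun ξ => ?_)
  simp only [norm_mul, KSP.K_.norm_ee, mul_one]

theorem chi_h (hCHI : tCHI) {a m : ℕ} (hPA : PA a m) {h : ℝ × ℝ → ℂ}
    (hV : ∀ ξ, h ξ ≠ 0 → 13 / 10 ≤ nr ξ ∧ nr ξ < 7 / 5 ∧ |ξ.2| ≤ ξ.1 / 5) (ξ : ℝ × ℝ) :
    (chi m ξ : ℂ) * h ξ = h ξ := by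
  by_cases h0 : h ξ = 0
  · rw [h0, mul_zero]
  · obtain ⟨h1, h2, h3⟩ := hV ξ h0
    have h4 := abs_le.1 h3
    have hx0 : 0 ≤ ξ.1 := by linarith [abs_nonneg ξ.2]
    have hn0 : 0 ≤ nr ξ := Real.sqrt_nonneg _
    have e1 : nr ξ ^ 2 = ξ.1 ^ 2 + ξ.2 ^ 2 := by
      unfold KSP.nr
      rw [Real.sq_sqrt (by positivity)]
    have e2 : ξ.2 ^ 2 ≤ (ξ.1 / 5) ^ 2 := by
      rw [← sq_abs]
      exact pow_le_pow_left₀ (abs_nonneg _) h3 2
    have b1 : (5 / 4 : ℝ) ≤ ξ.1 := by nlinarith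
    have b2 : ξ.1 ≤ 29 / 20 := by nlinarith [sq_nonneg ξ.2]
    rw [(hCHI a m hPA).2.2.1 ξ b1 b2 (by linarith)]
    simp

/-- Young's inequality for the difference -/
theorem diff_small (hCHI : tCHI) (hCVK : LLog.tCVK) (hYNG : LLog.tYNG) {a m : ℕ} (hPA : PA a m)
    {h g : ℝ × ℝ → ℂ} (hh : Bd h) (hg : Bf g) :
    ∫⁻ x, ‖Ex (fun ξ => (chi m ξ : ℂ) * h ξ) x - Ex (fun ξ => (chi m ξ : ℂ) * hat g ξ) x‖ₑ ^ 2 ≤
      (2 ^ a) ^ 2 * ∫⁻ x, ‖Ex h x - g x‖ₑ ^ 2 := by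
  obtain ⟨-, -, -, -, c5, c6, -⟩ := hCHI a m hPA
  set X : ℝ × ℝ → ℂ := fun ξ => (chi m ξ : ℂ) with hX
  have hXm : Measurable (Ex X) := measurable_Ex c5.1
  have hXi : Integrable (Ex X) := by
    refine ⟨hXm.aestronglyMeasurable, ?_⟩
    rw [hasFiniteIntegral_iff_enorm]
    exact lt_of_le_of_lt c6 (by exact ENNReal.pow_lt_top (by norm_num))
  have hfm : Measurable (Ex h) := measurable_Ex hh.1
  have key : ∀ x, Ex (fun ξ => X ξ * h ξ) x - Ex (fun ξ => X ξ * hat g ξ) x =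
      ∫ z, Ex X (x - z) * (Ex h z - g z) := by
    intro x
    rw [(hCVK X c5).1 h hh x, (hCVK X c5).2 g hg x, ← integral_sub]
    · refine integral_congr_ae (Filter.Eventually.of_forall fun z => ?_)
      simp only
      ring
    · refine (hXi.comp_sub_left x).mul_bdd (c := ∫ ξ, ‖h ξ‖) hfm.aestronglyMeasurable
        (Filter.Eventually.of_forall fun z => Ex_bound h z)
    · obtain ⟨g1, ⟨B, hB⟩, g3⟩ := hg
      exact (hXi.comp_sub_left x).mul_bdd (c := B) g1.aestronglyMeasurable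
        (Filter.Eventually.of_forall fun z => hB z)
  have hK : Measurable fun z => ‖Ex X z‖ₑ := hXm.enorm
  have hG : Measurable fun z => ‖Ex h z - g z‖ₑ := (hfm.sub hg.1).enorm
  have hy := hYNG (fun z => ‖Ex X z‖ₑ) (fun z => ‖Ex h z - g z‖ₑ) univ univ univ hK hG
    MeasurableSet.univ MeasurableSet.univ MeasurableSet.univ (fun _ _ _ _ => mem_univ _)
  simp only [Measure.restrict_univ] at hy
  calc ∫⁻ x, ‖Ex (fun ξ => X ξ * h ξ) x - Ex (fun ξ => X ξ * hat g ξ) x‖ₑ ^ 2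
      ≤ ∫⁻ x, (∫⁻ z, ‖Ex X (x - z)‖ₑ * ‖Ex h z - g z‖ₑ) ^ 2 := by
        refine lintegral_mono fun x => ?_
        rw [key x]
        gcongr
        refine (enorm_integral_le_lintegral_enorm _).trans (le_of_eq ?_)
        refine lintegral_congr fun z => ?_
        rw [enorm_mul]
    _ ≤ _ := hy
    _ ≤ _ := by gcongr

theorem num2 {m : ℕ} (h : lg m < 20) :
    ((2 * m : ℕ) : ℝ≥0∞) * ((lg (2 * m) : ℕ) : ℝ≥0∞) ^ 5 ≤ 2 ^ 60 := by
  have h1 : m < 2 ^ 19 := by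
    unfold KSP.lg at h
    exact Nat.lt_pow_of_log_lt (by norm_num) (by omega)
  have h2 : lg (2 * m) ≤ 21 := by
    unfold KSP.lg
    have : Nat.log 2 (2 * m) < 21 := Nat.log_lt_of_lt_pow' (by norm_num) (by omega)
    omega
  have h3 : (2 * m) * lg (2 * m) ^ 5 ≤ 2 ^ 60 := by
    calc (2 * m) * lg (2 * m) ^ 5 ≤ (2 * 2 ^ 19) * 21 ^ 5 :=
          Nat.mul_le_mul (by omega) (Nat.pow_le_pow_left h2 5)
      _ ≤ 2 ^ 60 := by norm_num
  exact_mod_cast h3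

end SV_

open SV_
open Pool.Agent.KSP.K_ (Bd_indicator integrable_Ex measurable_Ex measurable_nr n2_indicator
  measurable_ann integrable_Bd sel)

theorem pSV (hCHI : tCHI) (hMU : tMUP) (hTRV : tTRV) (hHAT : LLog.tHAT) (hCVK : LLog.tCVK)
    (hYNG : LLog.tYNG) (hSHF : LLog.tSHF) (hRMG : LLog.tRMG)
    (hOP : tOP) (hOM : tOM) (hINT : tINT) (hDIF : tDIF) (hWKA : tWKA) : tSV := by
  obtain ⟨C1, hC1⟩ := main_f hCHI hMU hTRV hHAT hSHF hOP hOM hINT hDIF hWKA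
  obtain ⟨C2, hC2⟩ := hRMG
  obtain ⟨C3, hC3⟩ := LLog.LIN_.mv4
  refine ⟨C3 * 2 ^ 60 + (4 * C2 + 4 * C1), fun m h hm hh hV => ?_⟩
  have hlg : 1 ≤ lg m := by unfold KSP.lg; omega
  have hlg1 : (1 : ℝ≥0∞) ≤ ((lg m : ℕ) : ℝ≥0∞) ^ 12 := one_le_pow₀ (by exact_mod_cast hlg)
  have hV0 : ∀ ξ, h ξ ≠ 0 → ξ ∈ V0 := by
    intro ξ hξ
    obtain ⟨h1, h2, h3⟩ := hV ξ hξ
    refine ⟨?_, by linarith, by linarith⟩
    have : 0 ≤ ξ.1 := by linarith [abs_nonneg ξ.2]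
    linarith
  have hpos : 0 < 4 ^ m := by positivity
  obtain ⟨k, k1, k2, k3⟩ := sel
    (fun i x => ‖Ex ((ann 1 (1 + (i : ℝ) / 4 ^ m)).indicator h) x‖ₑ)
    (fun i => (measurable_Ex (hh.1.indicator (measurable_ann _ _))).enorm) (4 ^ m - 1)
  have hk4 : ∀ x, k x < 4 ^ m := fun x => by have := k2 x; omega
  have hlin : ∫⁻ x, (⨆ k ∈ Finset.range (4 ^ m),
      ‖Ex ((ann 1 (1 + k / 4 ^ m)).indicator h) x‖ₑ) ^ 2 ≤
      ∫⁻ x, ‖Ex ((ann 1 (1 + k x / 4 ^ m)).indicator h) x‖ₑ ^ 2 := by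
    refine lintegral_mono fun x => ?_
    refine pow_le_pow_left' (iSup₂_le fun i hi => ?_) 2
    have := Finset.mem_range.1 hi
    exact k3 x i (by omega)
  refine hlin.trans ?_
  have hmv := hC3 m k h hm k1 hk4 hh hV0
  by_cases hn : n2 h = 0
  · rw [hn, mul_zero] at hmv ⊢
    exact hmv
  by_cases hsm : lg m < 20
  · refine hmv.trans ?_
    have e0 : ((C3 * 2 ^ 60 + (4 * C2 + 4 * C1) : ℝ≥0) : ℝ≥0∞) =
        C3 * 2 ^ 60 + (4 * C2 + 4 * C1) := by push_cast; ring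
    rw [e0]
    calc (C3 : ℝ≥0∞) * ((2 * m : ℕ) : ℝ≥0∞) * ((lg (2 * m) : ℕ) : ℝ≥0∞) ^ 5 * n2 h
        = C3 * (((2 * m : ℕ) : ℝ≥0∞) * ((lg (2 * m) : ℕ) : ℝ≥0∞) ^ 5) * n2 h := by ring
      _ ≤ C3 * 2 ^ 60 * n2 h := by gcongr; exact num2 hsm
      _ = (C3 * 2 ^ 60) * 1 * n2 h := by ring
      _ ≤ (C3 * 2 ^ 60 + (4 * C2 + 4 * C1)) * ((lg m : ℕ) : ℝ≥0∞) ^ 12 * n2 h := by
          gcongr
          exact le_self_add
  · have hPA : PA (lg m) m := LLog.LIN_.PA_lg hm (not_lt.1 hsm)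
    set a := lg m with ha
    set f : ℝ × ℝ → ℂ := Ex h with hf
    have hfm : Measurable f := measurable_Ex hh.1
    have hpl := KSP.pPl2 h hh
    have hn2 : n2 h < ⊤ := by
      have : MemLp h 2 := KSP.Base_.bd_memLp hh 2
      have h3 := this.2
      rw [eLpNorm_eq_lintegral_rpow_enorm_toReal (by norm_num) (by norm_num)] at h3
      have h4 := (ENNReal.rpow_lt_top_iff_of_pos (by norm_num)).1 h3
      unfold KSP.n2
      convert h4 using 2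
      funext x
      norm_num
    have h2 : ∫⁻ x, ‖f x‖ₑ ^ 2 < ⊤ := by rw [hpl.2]; exact hn2
    set M : ℝ≥0∞ := ((2 * m : ℕ) : ℝ≥0∞) ^ 2 * (2 ^ a) ^ 2 with hM
    have hMt : M ≠ ⊤ := by
      rw [hM]
      exact ENNReal.mul_ne_top (ENNReal.pow_ne_top (ENNReal.natCast_ne_top _))
        (ENNReal.pow_ne_top (ENNReal.pow_ne_top (by norm_num)))
    have hM0 : M ≠ 0 := by
      rw [hM]
      refine mul_ne_zero (pow_ne_zero 2 ?_) (pow_ne_zero 2 (pow_ne_zero _ (by norm_num)))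
      exact_mod_cast (by omega : 2 * m ≠ 0)
    obtain ⟨J0, hJ0⟩ := low_small hfm h2 (ε := n2 h / M)
      (ENNReal.div_pos hn hMt)
    obtain ⟨n, hn1⟩ := pow_unbounded_of_one_lt (∫ ξ, ‖h ξ‖) (by norm_num : (1 : ℝ) < 2)
    set J1 : ℤ := (n : ℤ) - 1 with hJ1
    have hfJ : ∀ x, ‖f x‖ < (2 : ℝ) ^ (J1 + 1) := by
      intro x
      rw [hJ1, sub_add_cancel, zpow_natCast]
      exact lt_of_le_of_lt (Ex_bound h x) hn1
    have hF0 : ∀ x, F0 f J0 J1 x = {x | (2 : ℝ) ^ J0 ≤ ‖f x‖}.indicator f x := fun x =>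
      sum_Icc (hfJ x)
    have hBF0 := F0_Bf hfm h2 J0 J1
    have hlow : ∫⁻ x, ‖Ex h x - F0 f J0 J1 x‖ₑ ^ 2 ≤ n2 h / M := by
      refine le_trans (le_of_eq ?_) hJ0
      have hmA : MeasurableSet {x | ¬ (2 : ℝ) ^ J0 ≤ ‖f x‖} :=
        (measurableSet_le measurable_const hfm.norm).compl
      rw [← lintegral_indicator hmA]
      refine lintegral_congr fun x => ?_
      rw [hF0 x]
      by_cases hx : (2 : ℝ) ^ J0 ≤ ‖f x‖
      · rw [indicator_of_mem (show x ∈ {x | (2 : ℝ) ^ J0 ≤ ‖f x‖} from hx),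
          indicator_of_notMem (show x ∉ {x | ¬ (2 : ℝ) ^ J0 ≤ ‖f x‖} from not_not.2 hx)]
        simp [hf]
      · rw [indicator_of_notMem (show x ∉ {x | (2 : ℝ) ^ J0 ≤ ‖f x‖} from hx),
          indicator_of_mem (show x ∈ {x | ¬ (2 : ℝ) ^ J0 ≤ ‖f x‖} from hx)]
        simp [hf]
    -- the two parts
    have hchiB : Bd (fun ξ => (chi m ξ : ℂ)) := (hCHI a m hPA).2.2.2.2.1
    have hhB : BM h := ⟨hh.1, hh.2.1⟩
    have hhatB : BM (hat (F0 f J0 J1)) := hat_BM hHAT hBF0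
    have hb1 : Bd (fun ξ => (chi m ξ : ℂ) * h ξ) := Bd_mul hchiB hhB
    have hb2 : Bd (fun ξ => (chi m ξ : ℂ) * hat (F0 f J0 J1) ξ) := Bd_mul hchiB hhatB
    set κ : ℝ × ℝ → ℂ := fun ξ => (chi m ξ : ℂ) * h ξ + (-1) * ((chi m ξ : ℂ) *
      hat (F0 f J0 J1) ξ) with hκ
    have hb3 : Bd (fun ξ => (-1 : ℂ) * ((chi m ξ : ℂ) * hat (F0 f J0 J1) ξ)) := by
      obtain ⟨u1, ⟨B, u2⟩, R, u3⟩ := hb2
      refine ⟨u1.const_mul _, ⟨B, fun ξ => ?_⟩, R, fun ξ hξ => u3 ξ fun h0 => hξ ?_⟩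
      · rw [norm_mul, norm_neg, norm_one, one_mul]
        exact u2 ξ
      · simp only at h0
        simp only [h0, mul_zero]
    have hbκ : Bd κ := by
      obtain ⟨u1, ⟨B, u2⟩, R, u3⟩ := hb1
      obtain ⟨v1, ⟨B', v2⟩, R', v3⟩ := hb3
      refine ⟨u1.add v1, ⟨B + B', fun ξ => (norm_add_le _ _).trans (add_le_add (u2 ξ) (v2 ξ))⟩,
        max R R', fun ξ hξ => ?_⟩
      by_cases h0 : (chi m ξ : ℂ) * h ξ = 0
      · have h1 : (-1 : ℂ) * ((chi m ξ : ℂ) * hat (F0 f J0 J1) ξ) ≠ 0 := fun h1 =>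
          hξ (by rw [hκ]; simp only [h0, h1, add_zero])
        exact ⟨(v3 ξ h1).1.trans (le_max_right _ _), (v3 ξ h1).2.trans (le_max_right _ _)⟩
      · exact ⟨(u3 ξ h0).1.trans (le_max_left _ _), (u3 ξ h0).2.trans (le_max_left _ _)⟩
    have hκn : n2 κ ≤ (2 ^ a) ^ 2 * (n2 h / M) := by
      rw [← (KSP.pPl2 κ hbκ).2]
      have e1 : ∀ x, Ex κ x = Ex (fun ξ => (chi m ξ : ℂ) * h ξ) x -
          Ex (fun ξ => (chi m ξ : ℂ) * hat (F0 f J0 J1) ξ) x := by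
        intro x
        rw [hκ, LLog.LIN_.Ex_add hb1 hb3, Ex_smul]
        ring
      simp only [e1]
      exact (diff_small hCHI hCVK hYNG hPA hh hBF0).trans (by gcongr)
    have hκV : ∀ ξ, κ ξ ≠ 0 → ξ ∈ V0 := by
      intro ξ hξ
      refine chi_V0 hCHI hPA fun h0 => hξ ?_
      rw [hκ]
      simp [h0]
    have hmono : Monotone fun j : ℕ => 1 + (j : ℝ) / 4 ^ m := by
      intro i j hij
      have : (i : ℝ) ≤ j := by exact_mod_cast hij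
      simp only
      gcongr
    have hrm := hC2 (2 * m) (fun j => 1 + (j : ℝ) / 4 ^ m) k κ (by omega) hmono k1
      (fun x => by rw [pow_mul]; exact hk4 x) hbκ
    have hsplit : ∀ x, Ex ((ann 1 (1 + k x / 4 ^ m)).indicator h) x =
        Ex ({ξ | nr ξ < 1 + (k x : ℝ) / 4 ^ m}.indicator κ) x +
        Ex ((ann 1 (1 + k x / 4 ^ m)).indicator
          (fun ξ => (chi m ξ : ℂ) * hat (F0 f J0 J1) ξ)) x := by
      intro x
      have e1 : {ξ | nr ξ < 1 + (k x : ℝ) / 4 ^ m}.indicator κ =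
          (ann 1 (1 + k x / 4 ^ m)).indicator κ := (LLog.LIN_.ann_eq_rb hκV _).symm
      rw [e1, ← LLog.LIN_.Ex_add (Bd_indicator hbκ (measurable_ann _ _))
        (Bd_indicator hb2 (measurable_ann _ _))]
      congr 1
      funext ξ
      by_cases hξ : ξ ∈ ann 1 (1 + k x / 4 ^ m)
      · rw [indicator_of_mem hξ, indicator_of_mem hξ, indicator_of_mem hξ, hκ]
        simp only
        rw [chi_h hCHI hPA hV ξ]
        ring
      · rw [indicator_of_notMem hξ, indicator_of_notMem hξ, indicator_of_notMem hξ, add_zero]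
    have hmain := hC1 a m k f J0 J1 hPA ha.symm.symm k1 hk4 hfm h2
    have hMM : (C2 : ℝ≥0∞) * ((2 * m : ℕ) : ℝ≥0∞) ^ 2 * ((2 ^ a) ^ 2 * (n2 h / M)) = C2 * n2 h := by
      rw [show (C2 : ℝ≥0∞) * ((2 * m : ℕ) : ℝ≥0∞) ^ 2 * ((2 ^ a) ^ 2 * (n2 h / M)) =
        C2 * (M * (n2 h / M)) by rw [hM]; ring, ENNReal.mul_div_cancel hM0 hMt]
    calc ∫⁻ x, ‖Ex ((ann 1 (1 + k x / 4 ^ m)).indicator h) x‖ₑ ^ 2
        ≤ ∫⁻ x, (4 * ‖Ex ({ξ | nr ξ < 1 + (k x : ℝ) / 4 ^ m}.indicator κ) x‖ₑ ^ 2 +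
          4 * ‖Ex ((ann 1 (1 + k x / 4 ^ m)).indicator
            (fun ξ => (chi m ξ : ℂ) * hat (F0 f J0 J1) ξ)) x‖ₑ ^ 2) := by
          refine lintegral_mono fun x => ?_
          rw [hsplit x]
          exact (pow_le_pow_left' (enorm_add_le _ _) 2).trans (KSP.K_.sq_add _ _)
      _ = 4 * (∫⁻ x, ‖Ex ({ξ | nr ξ < 1 + (k x : ℝ) / 4 ^ m}.indicator κ) x‖ₑ ^ 2) +
          4 * ∫⁻ x, ‖Ex ((ann 1 (1 + k x / 4 ^ m)).indicator
            (fun ξ => (chi m ξ : ℂ) * hat (F0 f J0 J1) ξ)) x‖ₑ ^ 2 := by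
          rw [lintegral_add_right _ (Measurable.const_mul (LLog.LIN_.meas_param (g := fun i =>
            Ex ((ann 1 (1 + (i : ℕ) / 4 ^ m)).indicator
              (fun ξ => (chi m ξ : ℂ) * hat (F0 f J0 J1) ξ)))
            (fun i => measurable_Ex (hb2.1.indicator (measurable_ann _ _))) k1) 4),
            lintegral_const_mul' _ _ (by norm_num), lintegral_const_mul' _ _ (by norm_num)]
      _ ≤ 4 * (C2 * n2 h) + 4 * (C1 * (a : ℝ≥0∞) ^ 12 * n2 h) := by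
          gcongr
          · refine hrm.trans ?_
            rw [← hMM]
            gcongr
          · refine hmain.trans (le_of_eq ?_)
            rw [hpl.2]
      _ ≤ 4 * (C2 * ((a : ℝ≥0∞) ^ 12 * n2 h)) + 4 * (C1 * (a : ℝ≥0∞) ^ 12 * n2 h) := by
          gcongr
          calc n2 h = 1 * n2 h := (one_mul _).symm
            _ ≤ _ := by gcongr
      _ = (4 * C2 + 4 * C1) * (a : ℝ≥0∞) ^ 12 * n2 h := by ring
      _ ≤ (C3 * 2 ^ 60 + (4 * C2 + 4 * C1)) * (a : ℝ≥0∞) ^ 12 * n2 h := by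
          gcongr ?_ * _ * _
          exact le_add_self
      _ = _ := by push_cast; ring

end Pool.Agent.SLog
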