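import Pool.Agent.SLog.Targets
import Pool.Agent.KSP.K

set_option autoImplicit false

/-! TEL: the sum over all levels for core functions. -/

namespace Pool.Agent.SLog

open MeasureTheory Set
open scoped ENNReal NNReal ComplexConjugate
open Pool.Agent.KSP (ee dot nr Ex Ex1 Bd Bd1 n1 n2 lg V0 ann)
open Pool.Agent.LLog (PA cd cdr cp fr tp Nn nv tv Core bx sa sd Qx kc psi kap GK psR psA anf mu Bf hat)

namespace TEL_

open Pool.Agent.KSP.K_ (integrable_Ex measurable_nr)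

/-! ### linearity -/

theorem Bd_zero : Bd (fun _ : ℝ × ℝ => (0 : ℂ)) :=
  ⟨measurable_const, ⟨0, fun _ => by rw [norm_zero]⟩, 0, fun _ h => absurd rfl h⟩

theorem Bd_add {f g : ℝ × ℝ → ℂ} (hf : Bd f) (hg : Bd g) : Bd (fun ξ => f ξ + g ξ) := by
  obtain ⟨f1, ⟨B, hB⟩, R, hR⟩ := hf
  obtain ⟨g1, ⟨B', hB'⟩, R', hR'⟩ := hg
  refine ⟨f1.add g1, ⟨B + B', fun ξ => (norm_add_le _ _).trans (add_le_add (hB ξ) (hB' ξ))⟩,
    max R R', fun ξ hξ => ?_⟩
  by_cases h : f ξ = 0
  · have h' : g ξ ≠ 0 := by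
      intro h0
      apply hξ
      show f ξ + g ξ = 0
      rw [h, h0, add_zero]
    exact ⟨(hR' ξ h').1.trans (le_max_right _ _), (hR' ξ h').2.trans (le_max_right _ _)⟩
  · exact ⟨(hR ξ h).1.trans (le_max_left _ _), (hR ξ h).2.trans (le_max_left _ _)⟩

theorem Bd_mul {f g : ℝ × ℝ → ℂ} (hf : Bd f) (hg : Measurable g) (hgB : ∃ B : ℝ, ∀ ξ, ‖g ξ‖ ≤ B) :
    Bd (fun ξ => f ξ * g ξ) := by
  obtain ⟨f1, ⟨B, hB⟩, R, hR⟩ := hf
  obtain ⟨B', hB'⟩ := hgB
  refine ⟨f1.mul hg, ⟨B * B', fun ξ => ?_⟩, R, fun ξ hξ => hR ξ fun h0 => hξ ?_⟩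
  · rw [norm_mul]
    exact mul_le_mul (hB ξ) (hB' ξ) (norm_nonneg _) ((norm_nonneg _).trans (hB ξ))
  · show f ξ * g ξ = 0
    rw [h0, zero_mul]

theorem Ex_add {f g : ℝ × ℝ → ℂ} (hf : Bd f) (hg : Bd g) (x : ℝ × ℝ) :
    Ex (fun ξ => f ξ + g ξ) x = Ex f x + Ex g x := by
  unfold KSP.Ex
  rw [← integral_add (integrable_Ex hf x) (integrable_Ex hg x)]
  refine integral_congr_ae (Filter.Eventually.of_forall fun ξ => ?_)
  simp only
  ring

theorem Ex_zero (x : ℝ × ℝ) : Ex (fun _ => 0) x = 0 := by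
  unfold KSP.Ex
  simp

theorem sum_Bd {ι : Type} (s : Finset ι) (f : ι → ℝ × ℝ → ℂ) (hf : ∀ i ∈ s, Bd (f i)) :
    Bd (fun ξ => ∑ i ∈ s, f i ξ) ∧ ∀ x, Ex (fun ξ => ∑ i ∈ s, f i ξ) x = ∑ i ∈ s, Ex (f i) x := by
  classical
  induction s using Finset.induction_on with
  | empty =>
    refine ⟨?_, fun x => ?_⟩
    · simp only [Finset.sum_empty]
      exact Bd_zero
    · simp only [Finset.sum_empty]
      exact Ex_zero x
  | insert i s hi ih =>
    obtain ⟨h1, h2⟩ := ih fun j hj => hf j (Finset.mem_insert_of_mem hj)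
    have h3 := hf i (Finset.mem_insert_self i s)
    simp only [Finset.sum_insert hi]
    refine ⟨Bd_add h3 h1, fun x => ?_⟩
    rw [Ex_add h3 h1, h2]

theorem ite_Bd (P : Prop) [Decidable P] {f : ℝ × ℝ → ℂ} (hf : Bd f) :
    Bd (fun ξ => if P then f ξ else 0) ∧
    ∀ x, Ex (fun ξ => if P then f ξ else 0) x = if P then Ex f x else 0 := by
  by_cases h : P
  · have e : (fun ξ => if P then f ξ else 0) = f := by
      funext ξ
      rw [if_pos h]
    rw [e]
    exact ⟨hf, fun x => by rw [if_pos h]⟩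
  · have e : (fun ξ => if P then f ξ else 0) = fun _ => 0 := by
      funext ξ
      rw [if_neg h]
    rw [e]
    exact ⟨Bd_zero, fun x => by rw [if_neg h, Ex_zero]⟩

/-! ### combinatorics of the digits -/

theorem floor4 (r : ℝ) (l : ℕ) : ⌊4 ^ l * r⌋₊ = ⌊4 ^ (l + 1) * r⌋₊ / 4 := by
  have h := Nat.floor_div_natCast (4 ^ (l + 1) * r) 4
  rw [← h]
  congr 1
  push_cast
  rw [pow_succ]
  ring

theorem tele (c n : ℕ → ℕ) (hc : ∀ l, c l = c (l + 1) / 4) (hn : ∀ l, n l = n (l + 1) / 4) (z : ℂ)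
    (a0 M : ℕ) (h : a0 < M) :
    ∑ l ∈ Finset.Ioc a0 M, (if n l / 4 = c l / 4 ∧ n l < c l then z else 0) =
      if n a0 = c a0 ∧ n M < c M then z else 0 := by
  induction M, h using Nat.le_induction with
  | base =>
    rw [Finset.sum_Ioc_succ_top le_rfl, Finset.Ioc_self, Finset.sum_empty, zero_add]
    rw [hc a0, hn a0]
  | succ M hM ih =>
    rw [Finset.sum_Ioc_succ_top (by omega), ih]
    have h1 := hc M
    have h2 := hn M
    by_cases h0 : n a0 = c a0
    · by_cases h3 : n M < c M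
      · have h4 : n (M + 1) < c (M + 1) := by omega
        have h5 : ¬ (n (M + 1) / 4 = c (M + 1) / 4 ∧ n (M + 1) < c (M + 1)) := by omega
        rw [if_pos ⟨h0, h3⟩, if_neg h5, if_pos ⟨h0, h4⟩, add_zero]
      · rw [if_neg (fun h => h3 h.2), zero_add]
        by_cases h4 : n (M + 1) < c (M + 1)
        · have h5 : n (M + 1) / 4 = c (M + 1) / 4 := by omega
          rw [if_pos ⟨h5, h4⟩, if_pos ⟨h0, h4⟩]
        · rw [if_neg (fun h => h4 h.2), if_neg (fun h => h4 h.2)]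
    · -- different at the start, different for ever
      have hne : ∀ L, a0 ≤ L → n L ≠ c L := by
        intro L hL
        induction L, hL using Nat.le_induction with
        | base => exact h0
        | succ L hL ih' =>
          have := hc L
          have := hn L
          omega
      have h5 := hne M (by omega)
      have q1 : ¬ (n a0 = c a0 ∧ n M < c M) := fun h => h0 h.1
      have q2 : ¬ (n (M + 1) / 4 = c (M + 1) / 4 ∧ n (M + 1) < c (M + 1)) := by
        rintro ⟨h, -⟩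
        omega
      have q3 : ¬ (n a0 = c a0 ∧ n (M + 1) < c (M + 1)) := fun h => h0 h.1
      rw [if_neg q1, if_neg q2, if_neg q3, add_zero]

theorem t_one (c n t : ℕ) (z : ℂ) (ht : 1 ≤ t) :
    (if t ≤ c % 4 then (if c - t = n then z else 0) else 0) =
      if n / 4 = c / 4 ∧ n + t = c then z else 0 := by
  by_cases h1 : t ≤ c % 4
  · rw [if_pos h1]
    by_cases h2 : c - t = n
    · have q : n / 4 = c / 4 ∧ n + t = c := by omega
      rw [if_pos h2, if_pos q]
    · have q : ¬ (n / 4 = c / 4 ∧ n + t = c) := by omega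
      rw [if_neg h2, if_neg q]
  · have q : ¬ (n / 4 = c / 4 ∧ n + t = c) := by omega
    rw [if_neg h1, if_neg q]

theorem t_sum (c n : ℕ) (z : ℂ) :
    ∑ t ∈ Finset.Icc 1 3, (if t ≤ c % 4 then (if c - t = n then z else 0) else 0) =
      if n / 4 = c / 4 ∧ n < c then z else 0 := by
  have hI : Finset.Icc 1 3 = {1, 2, 3} := by rfl
  rw [hI, Finset.sum_insert (by decide), Finset.sum_insert (by decide), Finset.sum_singleton,
    t_one c n 1 z le_rfl, t_one c n 2 z (by norm_num), t_one c n 3 z (by norm_num)]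
  by_cases h : n / 4 = c / 4 ∧ n < c
  · rw [if_pos h]
    obtain ⟨h1, h2⟩ := h
    have h3 : n + 1 = c ∨ n + 2 = c ∨ n + 3 = c := by omega
    rcases h3 with h3 | h3 | h3
    · have q2 : ¬ (n / 4 = c / 4 ∧ n + 2 = c) := by omega
      have q3 : ¬ (n / 4 = c / 4 ∧ n + 3 = c) := by omega
      rw [if_pos ⟨h1, h3⟩, if_neg q2, if_neg q3, add_zero, add_zero]
    · have q2 : ¬ (n / 4 = c / 4 ∧ n + 1 = c) := by omega
      have q3 : ¬ (n / 4 = c / 4 ∧ n + 3 = c) := by omega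
      rw [if_neg q2, if_pos ⟨h1, h3⟩, if_neg q3, add_zero, zero_add]
    · have q2 : ¬ (n / 4 = c / 4 ∧ n + 1 = c) := by omega
      have q3 : ¬ (n / 4 = c / 4 ∧ n + 2 = c) := by omega
      rw [if_neg q2, if_neg q3, if_pos ⟨h1, h3⟩, zero_add, zero_add]
  · have q1 : ¬ (n / 4 = c / 4 ∧ n + 1 = c) := by omega
    have q2 : ¬ (n / 4 = c / 4 ∧ n + 2 = c) := by omega
    have q3 : ¬ (n / 4 = c / 4 ∧ n + 3 = c) := by omega
    rw [if_neg h, if_neg q1, if_neg q2, if_neg q3, add_zero, add_zero]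

theorem big {a m : ℕ} (h : PA a m) : 10 * a < m := by
  obtain ⟨h1, -, h3⟩ := h
  have h4 : ∀ b : ℕ, 20 ≤ b → 20 * b < 2 ^ b := by
    intro b hb
    induction b, hb using Nat.le_induction with
    | base => norm_num
    | succ b hb ih =>
      rw [pow_succ]
      omega
  have := h4 a h1
  omega

/-- the value of the sum over the caps -/
theorem p_sum (hMUC : tMUC) (hMUP : tMUP) (hBXV : tBXV) {a m l c : ℕ} {sg sl : ℝ}
    {H : ℝ × ℝ → ℂ} (hHP : HP a m l sg sl)
    (hCore : Core a m sg sl (fun ξ => (chi m ξ : ℂ) * H ξ)) (hc : c ∈ CC l) (ξ : ℝ × ℝ) :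
    ∑ p ∈ PP a l, Mu a m sg sl l c p ξ * H ξ =
      if c = ⌊4 ^ l * (nr ξ - sg)⌋₊ then (chi m ξ : ℂ) * H ξ else 0 := by
  obtain ⟨hPA, hl1, hl2, hsg0, hsg1, hsl1, hsl2⟩ := hHP
  have hHP : HP a m l sg sl := ⟨hPA, hl1, hl2, hsg0, hsg1, hsl1, hsl2⟩
  by_cases h0 : (chi m ξ : ℂ) * H ξ = 0
  · rw [h0, ite_self]
    apply Finset.sum_eq_zero
    intro p _
    rcases mul_eq_zero.1 h0 with h1 | h1
    · unfold Mu
      split_ifs
      · rw [h1]
        ring
      · ring
    · rw [h1, mul_zero]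
  · have hchi : chi m ξ ≠ 0 := by
      intro h
      apply h0
      rw [h]
      simp
    obtain ⟨hV0, hfr1, hfr2⟩ := hCore.2 ξ h0
    have hε : (0 : ℝ) < 1 / 2 ^ (4 * a) / 3 := by positivity
    have hε' : (1 : ℝ) / 2 ^ (4 * a) / 3 ≤ 1 / 2 ^ (4 * a) := by
      have : (0 : ℝ) < 1 / 2 ^ (4 * a) := by positivity
      linarith
    have hcell : ∀ p ∈ PP a l, Mu a m sg sl l c p ξ ≠ 0 → cd sg l c ξ ∧ cp sl (l + 8 * a) p ξ := by
      intro p hp hne
      have h1 := (hMUP a m l c p sg sl hHP hc hp).2.2.1 ξ hne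
      have h2 := (hBXV a l c p sg sl (1 / 2 ^ (4 * a) / 3) ξ hPA.1 hl1 hsl1 hsl2 hp hε' h1).1 hε
      exact ⟨h2.2.1, h2.2.2.1⟩
    have hnr : 0 ≤ nr ξ - sg := by
      have := hV0.2.1
      linarith
    have h4 : (0 : ℝ) < 4 ^ l := by positivity
    have hnn : 0 ≤ 4 ^ l * (nr ξ - sg) := by positivity
    by_cases hcn : c = ⌊4 ^ l * (nr ξ - sg)⌋₊
    · rw [if_pos hcn]
      have hcd : cd sg l c ξ := by
        unfold LLog.cd LLog.cdr
        rw [hcn]
        exact ⟨Nat.floor_le hnn, Nat.lt_floor_add_one _⟩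
      -- the cap
      have hx1 : 0 < ξ.1 := by
        have h1 := hV0.1
        have h2 := hV0.2.1
        rcases lt_or_eq_of_le ((abs_nonneg _).trans h1) with h | h
        · exact h
        · exfalso
          rw [← h] at h1
          have h3 : ξ.2 = 0 := abs_nonpos_iff.1 h1
          unfold KSP.nr at h2
          rw [← h, h3] at h2
          norm_num at h2
      have hsl : |ξ.2 / ξ.1| ≤ 1 := by
        rw [abs_div, abs_of_pos hx1, div_le_one hx1]
        exact hV0.1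
      have hs0 : 0 ≤ ξ.2 / ξ.1 + sl := by linarith [(abs_le.1 hsl).1]
      have hs3 : ξ.2 / ξ.1 + sl < 3 := by linarith [(abs_le.1 hsl).2]
      have h2j : (0 : ℝ) < 2 ^ (l + 8 * a) := by positivity
      have hp0 : ⌊2 ^ (l + 8 * a) * (ξ.2 / ξ.1 + sl)⌋₊ ∈ PP a l := by
        unfold PP
        rw [Finset.mem_range]
        apply (Nat.floor_lt (by positivity)).2
        push_cast
        rw [mul_comm]
        exact mul_lt_mul_of_pos_right hs3 h2j
      have hcp : cp sl (l + 8 * a) ⌊2 ^ (l + 8 * a) * (ξ.2 / ξ.1 + sl)⌋₊ ξ :=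
        ⟨hx1, Nat.floor_le (by positivity), Nat.lt_floor_add_one _⟩
      rw [Finset.sum_eq_single_of_mem _ hp0]
      · have h3a : 3 * a ≤ m := by omega
        rw [(hMUC a m l c _ sg sl hHP hc hp0).1 ξ hchi hcd hcp (hfr1 l hl2) (hfr1 (3 * a) h3a)
          (hfr2 (l + 8 * a) (by omega))]
      · intro p hp hne
        by_cases hM : Mu a m sg sl l c p ξ = 0
        · rw [hM, zero_mul]
        · exfalso
          obtain ⟨-, -, h2, h3⟩ := hcell p hp hM
          apply hne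
          symm
          exact (Nat.floor_eq_iff (by positivity)).2 ⟨h2, h3⟩
    · rw [if_neg hcn]
      apply Finset.sum_eq_zero
      intro p hp
      by_cases hM : Mu a m sg sl l c p ξ = 0
      · rw [hM, zero_mul]
      · exfalso
        obtain ⟨⟨h2, h3⟩, -⟩ := hcell p hp hM
        apply hcn
        symm
        exact (Nat.floor_eq_iff hnn).2 ⟨h2, h3⟩

end TEL_

open TEL_

theorem pTEL (hMUC : tMUC) (hMUP : tMUP) (hBXV : tBXV) : tTEL := by
  intro a m sg sl k H hPA hsg0 hsg1 hsl1 hsl2 hk hHm hHB hCore x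
  have hρ0 : 0 ≤ 1 + (k x : ℝ) / 4 ^ m - sg := by
    have : (0 : ℝ) ≤ (k x : ℝ) / 4 ^ m := by positivity
    linarith
  have hρ2 : 1 + (k x : ℝ) / 4 ^ m - sg < 2 := by
    have h1 : (k x : ℝ) < 4 ^ m := by exact_mod_cast hk x
    have h2 : (k x : ℝ) / 4 ^ m < 1 := (div_lt_one (by positivity)).2 h1
    linarith
  have hcCC : ∀ l t : ℕ, kc m sg k l x - t ∈ CC l := by
    intro l t
    unfold CC
    rw [Finset.mem_range]
    have h1 : kc m sg k l x < 2 * 4 ^ l := by
      unfold LLog.kc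
      apply (Nat.floor_lt (by positivity)).2
      push_cast
      rw [mul_comm]
      exact mul_lt_mul_of_pos_right hρ2 (by positivity)
    omega
  have hHP : ∀ l ∈ Finset.Ioc (10 * a) m, HP a m l sg sl := by
    intro l hl
    obtain ⟨h1, h2⟩ := Finset.mem_Ioc.1 hl
    exact ⟨hPA, h1, h2, hsg0, hsg1, hsl1, hsl2⟩
  -- the frequency side
  have hp := fun (l : ℕ) (hl : l ∈ Finset.Ioc (10 * a) m) (t : ℕ) =>
    sum_Bd (PP a l) (fun p ξ => Mu a m sg sl l (kc m sg k l x - t) p ξ * H ξ) (fun p hp =>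
      Bd_mul (hMUP a m l _ p sg sl (hHP l hl) (hcCC l t) hp).1 hHm hHB)
  have ht := fun (l : ℕ) (hl : l ∈ Finset.Ioc (10 * a) m) (t : ℕ) =>
    ite_Bd (t ≤ kc m sg k l x % 4) (hp l hl t).1
  have hs := fun (l : ℕ) (hl : l ∈ Finset.Ioc (10 * a) m) =>
    sum_Bd (Finset.Icc 1 3) (fun t ξ => if t ≤ kc m sg k l x % 4 then
      ∑ p ∈ PP a l, Mu a m sg sl l (kc m sg k l x - t) p ξ * H ξ else 0) (fun t _ => (ht l hl t).1)
  have hL := sum_Bd (Finset.Ioc (10 * a) m) (fun l ξ => ∑ t ∈ Finset.Icc 1 3,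
      if t ≤ kc m sg k l x % 4 then
      ∑ p ∈ PP a l, Mu a m sg sl l (kc m sg k l x - t) p ξ * H ξ else 0) (fun l hl => (hs l hl).1)
  have hAF : AF a m sg sl k H x = Ex (fun ξ => ∑ l ∈ Finset.Ioc (10 * a) m, ∑ t ∈ Finset.Icc 1 3,
      if t ≤ kc m sg k l x % 4 then
      ∑ p ∈ PP a l, Mu a m sg sl l (kc m sg k l x - t) p ξ * H ξ else 0) x := by
    rw [hL.2 x]
    unfold AF
    apply Finset.sum_congr rfl
    intro l hl
    rw [(hs l hl).2 x]
    apply Finset.sum_congr rfl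
    intro t _
    rw [(ht l hl t).2 x, (hp l hl t).2 x]
    unfold TF
    rfl
  rw [hAF]
  congr 1
  funext ξ
  have h1 : ∀ l ∈ Finset.Ioc (10 * a) m, (∑ t ∈ Finset.Icc 1 3,
      if t ≤ kc m sg k l x % 4 then
      ∑ p ∈ PP a l, Mu a m sg sl l (kc m sg k l x - t) p ξ * H ξ else 0) =
      if ⌊4 ^ l * (nr ξ - sg)⌋₊ / 4 = kc m sg k l x / 4 ∧ ⌊4 ^ l * (nr ξ - sg)⌋₊ < kc m sg k l x
      then (chi m ξ : ℂ) * H ξ else 0 := by
    intro l hl
    rw [← t_sum]
    apply Finset.sum_congr rfl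
    intro t _
    rw [p_sum hMUC hMUP hBXV (hHP l hl) hCore (hcCC l t) ξ]
  rw [Finset.sum_congr rfl h1,
    tele (fun l => kc m sg k l x) (fun l => ⌊4 ^ l * (nr ξ - sg)⌋₊)
      (fun l => floor4 _ l) (fun l => floor4 _ l) _ (10 * a) m (big hPA)]
  by_cases h0 : (chi m ξ : ℂ) * H ξ = 0
  · rw [h0, ite_self]
    by_cases hS : ξ ∈ {ξ | sg + kc m sg k (10 * a) x / 4 ^ (10 * a) ≤ nr ξ ∧
        nr ξ < sg + kc m sg k m x / 4 ^ m}
    · rw [indicator_of_mem hS, h0]
    · rw [indicator_of_notMem hS]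
  · obtain ⟨hV0, -, -⟩ := hCore.2 ξ h0
    have hnr : 0 ≤ nr ξ - sg := by
      have := hV0.2.1
      linarith
    have e1 : (⌊4 ^ (10 * a) * (nr ξ - sg)⌋₊ = kc m sg k (10 * a) x ∧
        ⌊4 ^ m * (nr ξ - sg)⌋₊ < kc m sg k m x) ↔
        (kc m sg k (10 * a) x ≤ ⌊4 ^ (10 * a) * (nr ξ - sg)⌋₊ ∧
        ⌊4 ^ m * (nr ξ - sg)⌋₊ < kc m sg k m x) := by
      constructor
      · rintro ⟨h1, h2⟩
        exact ⟨h1.ge, h2⟩
      · rintro ⟨h1, h2⟩
        refine ⟨le_antisymm ?_ h1, h2⟩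
        -- monotonicity of the floors
        have hmono : ∀ d : ℕ, 10 * a + d ≤ m →
            ⌊4 ^ (m - d) * (nr ξ - sg)⌋₊ ≤ kc m sg k (m - d) x := by
          intro d
          induction d with
          | zero =>
            intro _
            exact h2.le
          | succ d ih =>
            intro hd
            have h3 := ih (by omega)
            have e3 : m - d = m - (d + 1) + 1 := by omega
            have e4 := floor4 (nr ξ - sg) (m - (d + 1))
            have e5 := floor4 (1 + (k x : ℝ) / 4 ^ m - sg) (m - (d + 1))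
            unfold LLog.kc at h3 ⊢
            rw [e3] at h3
            omega
        have h4 := hmono (m - 10 * a) (by have := big hPA; omega)
        have e3 : m - (m - 10 * a) = 10 * a := by have := big hPA; omega
        rw [e3] at h4
        exact h4
    have e2 : (kc m sg k (10 * a) x ≤ ⌊4 ^ (10 * a) * (nr ξ - sg)⌋₊ ∧
        ⌊4 ^ m * (nr ξ - sg)⌋₊ < kc m sg k m x) ↔
        ξ ∈ {ξ | sg + kc m sg k (10 * a) x / 4 ^ (10 * a) ≤ nr ξ ∧
        nr ξ < sg + kc m sg k m x / 4 ^ m} := by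
      have p1 : (0 : ℝ) < 4 ^ (10 * a) := by positivity
      have p2 : (0 : ℝ) < 4 ^ m := by positivity
      show _ ↔ (sg + kc m sg k (10 * a) x / 4 ^ (10 * a) ≤ nr ξ ∧
        nr ξ < sg + kc m sg k m x / 4 ^ m)
      rw [Nat.le_floor_iff (by positivity), Nat.floor_lt (by positivity)]
      constructor
      · rintro ⟨h1, h2⟩
        constructor
        · have h3 : (kc m sg k (10 * a) x : ℝ) / 4 ^ (10 * a) ≤ nr ξ - sg := by
            rw [div_le_iff₀ p1]
            linarith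
          linarith
        · have h3 : nr ξ - sg < (kc m sg k m x : ℝ) / 4 ^ m := by
            rw [lt_div_iff₀ p2]
            linarith
          linarith
      · rintro ⟨h1, h2⟩
        constructor
        · have h3 : (kc m sg k (10 * a) x : ℝ) / 4 ^ (10 * a) ≤ nr ξ - sg := by linarith
          rw [div_le_iff₀ p1] at h3
          linarith
        · have h3 : nr ξ - sg < (kc m sg k m x : ℝ) / 4 ^ m := by linarith
          rw [lt_div_iff₀ p2] at h3
          linarith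
    have e3 := e1.trans e2
    by_cases hS : ξ ∈ {ξ | sg + kc m sg k (10 * a) x / 4 ^ (10 * a) ≤ nr ξ ∧
        nr ξ < sg + kc m sg k m x / 4 ^ m}
    · rw [indicator_of_mem hS, if_pos (e3.2 hS)]
    · rw [indicator_of_notMem hS, if_neg (fun h => hS (e3.1 h))]

end Pool.Agent.SLog
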