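import Pool.Agent.SLog.Targets
import Pool.Agent.LLog.HAT

/-! THN: functions supported in a strip have little energy in thin annuli. -/

set_option autoImplicit false

namespace Pool.Agent.SLog

open MeasureTheory Set FourierTransform
open scoped ENNReal NNReal ComplexConjugate
open Pool.Agent.KSP (ee dot nr Ex Ex1)
open Pool.Agent.KSP.Base_ (memLp_of gen_norm Ex1_eq)
open Pool.Agent.LLog (Bf hat)
open Pool.Agent.LLog.HAT_ (norm_ee continuous_ee bf_int)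

namespace THN_

/-- Cauchy-Schwarz -/
lemma cs {α : Type*} [MeasurableSpace α] (μ : Measure α) (f g : α → ℝ≥0∞)
    (hf : AEMeasurable f μ) (hg : AEMeasurable g μ) :
    (∫⁻ a, f a * g a ∂μ) ^ 2 ≤ (∫⁻ a, f a ^ 2 ∂μ) * ∫⁻ a, g a ^ 2 ∂μ := by
  have h := ENNReal.lintegral_mul_le_Lp_mul_Lq μ Real.HolderConjugate.two_two hf hg
  have h2 : ∀ x : ℝ≥0∞, (x ^ (1 / (2 : ℝ))) ^ 2 = x := by
    intro x
    rw [← ENNReal.rpow_natCast, ← ENNReal.rpow_mul]
    norm_num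
  calc (∫⁻ a, f a * g a ∂μ) ^ 2
      ≤ ((∫⁻ a, f a ^ (2 : ℝ) ∂μ) ^ (1 / (2 : ℝ)) * (∫⁻ a, g a ^ (2 : ℝ) ∂μ) ^ (1 / (2 : ℝ))) ^ 2 :=
        pow_le_pow_left' h 2
    _ = (∫⁻ a, f a ^ (2 : ℝ) ∂μ) * ∫⁻ a, g a ^ (2 : ℝ) ∂μ := by
        rw [mul_pow, h2, h2]
    _ = (∫⁻ a, f a ^ 2 ∂μ) * ∫⁻ a, g a ^ 2 ∂μ := by
        simp only [ENNReal.rpow_ofNat]

/-- two points of a slice -/
lemma slice_dist {R δ s t t' : ℝ} (hδ : 0 < δ) (hδ1 : δ ≤ 1) (hR : 1 ≤ R)
    (h1 : |s| ≤ t) (h2 : R ≤ nr (t, s)) (h1' : |s| ≤ t')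
    (h3' : nr (t', s) < R + δ) : t' - t ≤ 3 * δ := by
  have ht : 0 ≤ t := (abs_nonneg _).trans h1
  have ht' : 0 ≤ t' := (abs_nonneg _).trans h1'
  have e1 : R ^ 2 ≤ t ^ 2 + s ^ 2 := by
    have h4 : nr (t, s) ^ 2 = t ^ 2 + s ^ 2 := by
      unfold nr
      exact Real.sq_sqrt (by positivity)
    rw [← h4]
    exact pow_le_pow_left₀ (by linarith) h2 2
  have e2 : t' ^ 2 + s ^ 2 ≤ (R + δ) ^ 2 := by
    have h4 : nr (t', s) ^ 2 = t' ^ 2 + s ^ 2 := by
      unfold nr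
      exact Real.sq_sqrt (by positivity)
    rw [← h4]
    exact pow_le_pow_left₀ (Real.sqrt_nonneg _) h3'.le 2
  have e3 : s ^ 2 ≤ t ^ 2 := by
    rw [← sq_abs s]
    exact pow_le_pow_left₀ (abs_nonneg _) h1 2
  have e4 : 0.7 * R ≤ t := by
    by_contra h
    rw [not_le] at h
    nlinarith
  by_contra h
  rw [not_le] at h
  have e5 : t' ^ 2 - t ^ 2 ≤ 3 * R * δ := by nlinarith
  have e6 : 3 * δ * (1.4 * R) < (t' - t) * (t' + t) := by
    have h7 : 1.4 * R ≤ t' + t := by nlinarith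
    have h8 : 0 < 1.4 * R := by linarith
    nlinarith
  nlinarith

/-- the slices of the annulus are short -/
lemma slice_vol {R δ : ℝ} (hδ : 0 < δ) (hδ1 : δ ≤ 1) (hR : 1 ≤ R) (s : ℝ) :
    volume {t : ℝ | |s| ≤ t ∧ R ≤ nr (t, s) ∧ nr (t, s) < R + δ} ≤ ENNReal.ofReal (3 * δ) := by
  refine (Real.volume_le_diam _).trans (Metric.ediam_le ?_)
  rintro t ⟨h1, h2, h3⟩ t' ⟨h1', h2', h3'⟩
  rw [edist_dist]
  refine ENNReal.ofReal_le_ofReal ?_
  rw [Real.dist_eq, abs_le]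
  have a1 := slice_dist hδ hδ1 hR h1 h2 h1' h3'
  have a2 := slice_dist hδ hδ1 hR h1' h2' h1 h3
  constructor <;> linarith

/-- transform in the second variable -/
noncomputable def G (g : ℝ × ℝ → ℂ) (x s : ℝ) : ℂ := ∫ z, g (x, z) * ee (-(z * s))

lemma G_meas {g : ℝ × ℝ → ℂ} (hg : Measurable g) : Measurable (fun p : ℝ × ℝ => G g p.1 p.2) := by
  have hm : Measurable fun p : (ℝ × ℝ) × ℝ => g (p.1.1, p.2) * ee (-(p.2 * p.1.2)) := by
    refine (hg.comp (by fun_prop)).mul (continuous_ee.measurable.comp (by fun_prop))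
  exact (hm.stronglyMeasurable.integral_prod_right' (ν := (volume : Measure ℝ))).measurable

lemma hat_slice {g : ℝ × ℝ → ℂ} (hg : Bf g) (t s : ℝ) :
    hat g (t, s) = ∫ x, G g x s * ee (-(x * t)) := by
  unfold hat
  have hint : Integrable (fun x : ℝ × ℝ => g x * ee (-(dot x (t, s)))) := by
    refine (bf_int hg).mul_bdd (c := 1) ?_ (ae_of_all _ fun p => (norm_ee _).le)
    have : Continuous fun x : ℝ × ℝ => ee (-(dot x (t, s))) := by
      refine continuous_ee.comp ?_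
      unfold dot
      fun_prop
    exact this.aestronglyMeasurable
  rw [Measure.volume_eq_prod] at hint ⊢
  rw [integral_prod _ hint]
  congr 1
  funext x
  unfold G
  rw [← integral_mul_const]
  congr 1
  funext z
  rw [mul_assoc]
  congr 1
  unfold ee dot
  rw [← Complex.exp_add]
  congr 1
  push_cast
  ring

lemma G_zero {g : ℝ × ℝ → ℂ} {S y : ℝ} (hS : ∀ x, g x ≠ 0 → |x.1 - y| ≤ S / 2) {x : ℝ}
    (hx : ¬ |x - y| ≤ S / 2) (s : ℝ) : G g x s = 0 := by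
  unfold G
  have : ∀ z, g (x, z) * ee (-(z * s)) = 0 := by
    intro z
    have : g (x, z) = 0 := by
      by_contra h
      exact hx (hS (x, z) h)
    rw [this, zero_mul]
  simp [this]

lemma hat_bound {g : ℝ × ℝ → ℂ} (hg : Bf g) {S y : ℝ} (hS0 : 0 < S)
    (hS : ∀ x, g x ≠ 0 → |x.1 - y| ≤ S / 2) (t s : ℝ) :
    ‖hat g (t, s)‖ₑ ^ 2 ≤ ENNReal.ofReal S * ∫⁻ x, ‖G g x s‖ₑ ^ 2 := by
  have hGm : Measurable (fun x => G g x s) :=
    (G_meas hg.1).comp (measurable_id.prodMk measurable_const)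
  let I : Set ℝ := Icc (y - S / 2) (y + S / 2)
  have h1 : ‖hat g (t, s)‖ₑ ≤ ∫⁻ x, I.indicator 1 x * ‖G g x s‖ₑ := by
    rw [hat_slice hg]
    refine (enorm_integral_le_lintegral_enorm _).trans (lintegral_mono fun x => ?_)
    rw [enorm_mul]
    have e1 : ‖ee (-(x * t))‖ₑ = 1 := by
      rw [← ofReal_norm_eq_enorm, norm_ee, ENNReal.ofReal_one]
    rw [e1, mul_one]
    by_cases hx : x ∈ I
    · rw [indicator_of_mem hx, Pi.one_apply, one_mul]
    · have : G g x s = 0 := by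
        refine G_zero hS (fun h => hx ?_) s
        rw [abs_le] at h
        exact ⟨by linarith, by linarith⟩
      rw [this]
      simp
  have hI : Measurable (I.indicator (1 : ℝ → ℝ≥0∞)) := measurable_one.indicator measurableSet_Icc
  calc ‖hat g (t, s)‖ₑ ^ 2 ≤ (∫⁻ x, I.indicator 1 x * ‖G g x s‖ₑ) ^ 2 := pow_le_pow_left' h1 2
    _ ≤ (∫⁻ x, I.indicator (1 : ℝ → ℝ≥0∞) x ^ 2) * ∫⁻ x, ‖G g x s‖ₑ ^ 2 :=
        cs volume _ _ hI.aemeasurable hGm.enorm.aemeasurable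
    _ = ENNReal.ofReal S * ∫⁻ x, ‖G g x s‖ₑ ^ 2 := by
        congr 1
        have e2 : ∀ x, I.indicator (1 : ℝ → ℝ≥0∞) x ^ 2 = I.indicator 1 x := by
          intro x
          by_cases hx : x ∈ I
          · rw [indicator_of_mem hx]; simp
          · rw [indicator_of_notMem hx]; simp
        simp_rw [e2]
        rw [lintegral_indicator_one measurableSet_Icc, Real.volume_Icc]
        congr 1
        ring

/-- Plancherel on the slices -/
lemma planch {g : ℝ × ℝ → ℂ} (hg : Bf g) :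
    ∫⁻ s, ∫⁻ x, ‖G g x s‖ₑ ^ 2 = ∫⁻ x, ‖g x‖ₑ ^ 2 := by
  obtain ⟨hm, ⟨B, hB⟩, hv⟩ := hg
  have hGm : Measurable (fun p : ℝ × ℝ => ‖G g p.1 p.2‖ₑ ^ 2) := (G_meas hm).enorm.pow_const 2
  have hsw : ∫⁻ s, ∫⁻ x, ‖G g x s‖ₑ ^ 2 = ∫⁻ x, ∫⁻ s, ‖G g x s‖ₑ ^ 2 :=
    lintegral_lintegral_swap (f := fun s x => ‖G g x s‖ₑ ^ 2)
      (hGm.comp measurable_swap).aemeasurable
  rw [hsw]
  have hset : MeasurableSet {x : ℝ × ℝ | g x ≠ 0} := hm (measurableSet_singleton (0 : ℂ)).compl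
  have hae : ∀ᵐ x : ℝ, volume (Prod.mk x ⁻¹' {x : ℝ × ℝ | g x ≠ 0}) < ⊤ := by
    refine Measure.ae_measure_lt_top hset ?_
    rw [← Measure.volume_eq_prod]
    exact hv.ne
  have h1 : ∫⁻ x, ∫⁻ s, ‖G g x s‖ₑ ^ 2 = ∫⁻ x, ∫⁻ z, ‖g (x, z)‖ₑ ^ 2 := by
    refine lintegral_congr_ae ?_
    filter_upwards [hae] with x hx
    let u : ℝ → ℂ := fun z => g (x, z)
    have hum : Measurable u := hm.comp (by fun_prop)
    have hLp : ∀ p : ℝ≥0∞, MemLp u p := fun p =>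
      memLp_of hum (fun z => hB (x, z)) (S := Prod.mk x ⁻¹' {x : ℝ × ℝ | g x ≠ 0})
        (measurable_prodMk_left hset) hx (fun z hz => by
          by_contra h
          exact hz h) p
    have hint : Integrable u := memLp_one_iff_integrable.1 (hLp 1)
    have e1 : ∀ s, G g x s = Ex1 u (-s) := by
      intro s
      unfold G Ex1
      congr 1
      funext z
      congr 2
      ring
    calc ∫⁻ s, ‖G g x s‖ₑ ^ 2 = ∫⁻ s, ‖Ex1 u (-s)‖ₑ ^ 2 := by simp_rw [e1]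
      _ = ∫⁻ s, ‖Ex1 u s‖ₑ ^ 2 := lintegral_neg_eq_self (fun s => ‖Ex1 u s‖ₑ ^ 2)
      _ = ∫⁻ s, ‖(𝓕⁻ u : ℝ → ℂ) s‖ₑ ^ 2 := by rw [Ex1_eq]
      _ = ∫⁻ z, ‖u z‖ₑ ^ 2 := gen_norm hint (hLp 2)
  rw [h1, Measure.volume_eq_prod, lintegral_prod _ (hm.enorm.pow_const 2).aemeasurable]

end THN_

open THN_ in
theorem pTHN : tTHN := by
  intro S δ R y g hS hδ hδ1 hR hg hsupp
  set A : Set (ℝ × ℝ) := {ξ | |ξ.2| ≤ ξ.1 ∧ R ≤ nr ξ ∧ nr ξ < R + δ} with hA
  have hnr : Measurable nr := by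
    unfold nr
    fun_prop
  have hAm : MeasurableSet A := by
    refine (measurableSet_le (by fun_prop) measurable_fst).inter
      ((measurableSet_le measurable_const hnr).inter (measurableSet_lt hnr measurable_const))
  have hhat : Measurable (hat g) := (Pool.Agent.LLog.pHAT g hg).1.measurable
  have hGm : Measurable (fun p : ℝ × ℝ => ‖G g p.1 p.2‖ₑ ^ 2) := (G_meas hg.1).enorm.pow_const 2
  have hW : Measurable (fun s => ∫⁻ x, ‖G g x s‖ₑ ^ 2) := hGm.lintegral_prod_left'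
  rw [← lintegral_indicator hAm]
  have hf : Measurable (A.indicator fun ξ => ‖hat g ξ‖ₑ ^ 2) :=
    (hhat.enorm.pow_const 2).indicator hAm
  calc ∫⁻ ξ, A.indicator (fun ξ => ‖hat g ξ‖ₑ ^ 2) ξ
      = ∫⁻ s, ∫⁻ t, A.indicator (fun ξ => ‖hat g ξ‖ₑ ^ 2) (t, s) := by
        rw [Measure.volume_eq_prod, lintegral_prod_symm _ hf.aemeasurable]
    _ ≤ ∫⁻ s, ENNReal.ofReal (3 * δ) * (ENNReal.ofReal S * ∫⁻ x, ‖G g x s‖ₑ ^ 2) := by
        refine lintegral_mono fun s => ?_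
        set W := ENNReal.ofReal S * ∫⁻ x, ‖G g x s‖ₑ ^ 2 with hWdef
        set As : Set ℝ := {t : ℝ | |s| ≤ t ∧ R ≤ nr (t, s) ∧ nr (t, s) < R + δ} with hAs
        have hAsm : MeasurableSet As := measurable_prodMk_right hAm
        calc ∫⁻ t, A.indicator (fun ξ => ‖hat g ξ‖ₑ ^ 2) (t, s)
            ≤ ∫⁻ t, As.indicator (fun _ => W) t := by
              refine lintegral_mono fun t => ?_
              by_cases ht : t ∈ As
              · have ht' : (t, s) ∈ A := ht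
                rw [indicator_of_mem ht, indicator_of_mem ht']
                exact hat_bound hg hS hsupp t s
              · have ht' : (t, s) ∉ A := ht
                rw [indicator_of_notMem ht']
                exact zero_le
          _ = W * volume As := by rw [lintegral_indicator_const hAsm]
          _ ≤ W * ENNReal.ofReal (3 * δ) := by
              gcongr
              exact slice_vol hδ hδ1 hR s
          _ = ENNReal.ofReal (3 * δ) * W := mul_comm _ _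
    _ = ENNReal.ofReal (3 * δ) * (ENNReal.ofReal S * ∫⁻ s, ∫⁻ x, ‖G g x s‖ₑ ^ 2) := by
        rw [lintegral_const_mul _ (hW.const_mul _), lintegral_const_mul _ hW]
    _ = ENNReal.ofReal (3 * S * δ) * ∫⁻ x, ‖g x‖ₑ ^ 2 := by
        rw [planch hg, ← mul_assoc, ← ENNReal.ofReal_mul (by positivity)]
        congr 2
        ring

end Pool.Agent.SLog
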