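import Pool.Agent.SLog.Targets
import Pool.Agent.KSP.Base

set_option autoImplicit false

/-! SLG-VB: simple bounds for the pieces `vv`, `VV`. -/

namespace Pool.Agent.SLog

open MeasureTheory Set
open scoped ENNReal NNReal ComplexConjugate
open Pool.Agent.KSP (ee dot nr Ex Ex1 Bd Bd1 n1 n2 lg V0 ann sq)
open Pool.Agent.LLog (PA cd cdr cp fr tp Nn nv tv Core bx sa sd Qx kc psi kap GK psR psA anf mu Bf hat)

namespace VB_

/-- integer part determines the cell -/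
lemma nat_eq {c c' : ℕ} {r : ℝ} (h1 : (c : ℝ) ≤ r) (h2 : r < c + 1) (h3 : (c' : ℝ) ≤ r)
    (h4 : r < c' + 1) : c = c' := by
  have a1 : (c : ℝ) < c' + 1 := lt_of_le_of_lt h1 h4
  have a2 : (c' : ℝ) < c + 1 := lt_of_le_of_lt h3 h2
  have b1 : c < c' + 1 := by exact_mod_cast a1
  have b2 : c' < c + 1 := by exact_mod_cast a2
  omega

/-- a double sum with at most one nonzero term, all terms `≤ 1` -/
lemma sum_le_one {S T : Finset ℕ} {f : ℕ → ℕ → ℝ≥0∞}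
    (h1 : ∀ c ∈ S, ∀ p ∈ T, f c p ≤ 1)
    (h2 : ∀ c ∈ S, ∀ p ∈ T, ∀ c' ∈ S, ∀ p' ∈ T, f c p ≠ 0 → f c' p' ≠ 0 → c = c' ∧ p = p') :
    ∑ c ∈ S, ∑ p ∈ T, f c p ≤ 1 := by
  by_cases h : ∃ c ∈ S, ∃ p ∈ T, f c p ≠ 0
  · obtain ⟨c, hc, p, hp, hf⟩ := h
    have e1 : ∑ c' ∈ S, ∑ p' ∈ T, f c' p' = ∑ p' ∈ T, f c p' := by
      refine Finset.sum_eq_single_of_mem c hc ?_
      intro c' hc' hne
      refine Finset.sum_eq_zero ?_
      intro p' hp'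
      by_contra h0
      exact hne ((h2 c hc p hp c' hc' p' hp' hf h0).1).symm
    have e2 : ∑ p' ∈ T, f c p' = f c p := by
      refine Finset.sum_eq_single_of_mem p hp ?_
      intro p' hp' hne
      by_contra h0
      exact hne ((h2 c hc p hp c hc p' hp' hf h0).2).symm
    rw [e1, e2]
    exact h1 c hc p hp
  · push Not at h
    have : ∑ c ∈ S, ∑ p ∈ T, f c p = 0 :=
      Finset.sum_eq_zero fun c hc => Finset.sum_eq_zero fun p hp => h c hc p hp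
    rw [this]
    exact zero_le_one

/-- different cells have disjoint supports -/
lemma disj (hM : tMUP) (hX : tBXV) {a m l : ℕ} {sg sl : ℝ} (hP : HP a m l sg sl) (ξ : ℝ × ℝ) :
    ∑ c ∈ CC l, ∑ p ∈ PP a l, ‖Mu a m sg sl l c p ξ‖ₑ ≤ 1 := by
  have hcell : ∀ c ∈ CC l, ∀ p ∈ PP a l, ‖Mu a m sg sl l c p ξ‖ₑ ≠ 0 →
      cd sg l c ξ ∧ cp sl (l + 8 * a) p ξ := by
    intro c hc p hp h0
    have h0' : Mu a m sg sl l c p ξ ≠ 0 := by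
      intro h
      exact h0 (by rw [h, enorm_zero])
    have hb := (hM a m l c p sg sl hP hc hp).2.2.1 ξ h0'
    have hpos : (0 : ℝ) < 1 / 2 ^ (4 * a) / 3 := by positivity
    have hle : (1 : ℝ) / 2 ^ (4 * a) / 3 ≤ 1 / 2 ^ (4 * a) := by
      have : (0 : ℝ) ≤ 1 / 2 ^ (4 * a) := by positivity
      linarith
    obtain ⟨⟨ha, -, -⟩, hl, -, -, -, h1, h2⟩ := hP
    have := (hX a l c p sg sl _ ξ ha hl h1 h2 hp hle hb).1 hpos
    exact ⟨this.2.1, this.2.2.1⟩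
  refine sum_le_one ?_ ?_
  · intro c hc p hp
    have h := ((hM a m l c p sg sl hP hc hp).2.1 ξ).2
    rw [← ofReal_norm]
    exact ENNReal.ofReal_le_one.2 h
  · intro c hc p hp c' hc' p' hp' h0 h0'
    obtain ⟨⟨k1, k2⟩, -, k3, k4⟩ := hcell c hc p hp h0
    obtain ⟨⟨n1, n2⟩, -, n3, n4⟩ := hcell c' hc' p' hp' h0'
    exact ⟨nat_eq k1 k2 n1 n2, nat_eq k3 k4 n3 n4⟩

lemma bd_mul {μ h : ℝ × ℝ → ℂ} (hμ : Bd μ) (hh : Measurable h) (hb : ∃ B : ℝ, ∀ ξ, ‖h ξ‖ ≤ B) :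
    Bd (fun ξ => μ ξ * h ξ) := by
  obtain ⟨m1, ⟨B1, b1⟩, R, hR⟩ := hμ
  obtain ⟨B2, b2⟩ := hb
  refine ⟨m1.mul hh, ⟨B1 * B2, ?_⟩, R, ?_⟩
  · intro ξ
    rw [norm_mul]
    exact mul_le_mul (b1 ξ) (b2 ξ) (norm_nonneg _) ((norm_nonneg _).trans (b1 ξ))
  · intro ξ h0
    exact hR ξ (left_ne_zero_of_mul h0)

/-- convolution with an integrable kernel, sup bound -/
lemma sup_bound {K g : ℝ × ℝ → ℂ} {A B : ℝ} (hK : Measurable K)
    (hA : ∫⁻ z, ‖K z‖ₑ ≤ ENNReal.ofReal A) (hA0 : 0 ≤ A) (hB : ∀ x, ‖g x‖ ≤ B) (x : ℝ × ℝ) :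
    ‖∫ z, K (x - z) * g z‖ ≤ A * B := by
  have hB0 : 0 ≤ B := (norm_nonneg _).trans (hB 0)
  have e : ‖∫ z, K (x - z) * g z‖ₑ ≤ ENNReal.ofReal (A * B) := by
    calc ‖∫ z, K (x - z) * g z‖ₑ ≤ ∫⁻ z, ‖K (x - z) * g z‖ₑ :=
          enorm_integral_le_lintegral_enorm _
      _ ≤ ∫⁻ z, ‖K (x - z)‖ₑ * ENNReal.ofReal B := by
          refine lintegral_mono fun z => ?_
          rw [enorm_mul]
          refine mul_le_mul' le_rfl ?_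
          rw [← ofReal_norm]
          exact ENNReal.ofReal_le_ofReal (hB z)
      _ = (∫⁻ z, ‖K (x - z)‖ₑ) * ENNReal.ofReal B := by
          rw [lintegral_mul_const]
          exact (hK.comp (measurable_const.sub measurable_id)).enorm
      _ = (∫⁻ z, ‖K z‖ₑ) * ENNReal.ofReal B := by
          rw [lintegral_sub_left_eq_self (fun z => ‖K z‖ₑ) x]
      _ ≤ ENNReal.ofReal A * ENNReal.ofReal B := mul_le_mul' hA le_rfl
      _ = ENNReal.ofReal (A * B) := (ENNReal.ofReal_mul hA0).symm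
  rw [← ofReal_norm] at e
  exact (ENNReal.ofReal_le_ofReal_iff (mul_nonneg hA0 hB0)).1 e

end VB_

open VB_

theorem pVB (hM : tMUP) (hX : tBXV) (hC : Pool.Agent.LLog.tCVK) (hH : Pool.Agent.LLog.tHAT) :
    tVB := by
  intro a m l sg sl g hP hg
  obtain ⟨hcont, hbdd, hpl, -⟩ := hH g hg
  have hmeas : Measurable (hat g) := hcont.measurable
  have hbd : ∀ c ∈ CC l, ∀ p ∈ PP a l, Bd (fun ξ => Mu a m sg sl l c p ξ * hat g ξ) :=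
    fun c hc p hp => bd_mul (hM a m l c p sg sl hP hc hp).1 hmeas hbdd
  have hVV : ∀ c ∈ CC l, ∀ p ∈ PP a l, ∫⁻ x, VV a m sg sl l g c p x ≤
      ∫⁻ ξ, ‖Mu a m sg sl l c p ξ‖ₑ * ‖hat g ξ‖ₑ ^ 2 := by
    intro c hc p hp
    have h1 := (Pool.Agent.KSP.pPl2 _ (hbd c hc p hp)).2
    have h2 : ∫⁻ x, VV a m sg sl l g c p x =
        n2 (fun ξ => Mu a m sg sl l c p ξ * hat g ξ) := h1
    rw [h2, n2]
    refine lintegral_mono fun ξ => ?_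
    have h3 : ‖Mu a m sg sl l c p ξ‖ₑ ≤ 1 := by
      rw [← ofReal_norm]
      exact ENNReal.ofReal_le_one.2 ((hM a m l c p sg sl hP hc hp).2.1 ξ).2
    calc ‖Mu a m sg sl l c p ξ * hat g ξ‖ₑ ^ 2
        = ‖Mu a m sg sl l c p ξ‖ₑ * ‖Mu a m sg sl l c p ξ‖ₑ * ‖hat g ξ‖ₑ ^ 2 := by
          rw [enorm_mul, mul_pow, sq ‖Mu a m sg sl l c p ξ‖ₑ]
      _ ≤ ‖Mu a m sg sl l c p ξ‖ₑ * 1 * ‖hat g ξ‖ₑ ^ 2 := by gcongr
      _ = ‖Mu a m sg sl l c p ξ‖ₑ * ‖hat g ξ‖ₑ ^ 2 := by rw [mul_one]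
  have hsum : (∑ c ∈ CC l, ∑ p ∈ PP a l, ∫⁻ ξ, ‖Mu a m sg sl l c p ξ‖ₑ * ‖hat g ξ‖ₑ ^ 2) ≤
      ∫⁻ x, ‖g x‖ₑ ^ 2 := by
    have hm : ∀ c ∈ CC l, ∀ p ∈ PP a l,
        Measurable (fun ξ => ‖Mu a m sg sl l c p ξ‖ₑ * ‖hat g ξ‖ₑ ^ 2) := fun c hc p hp =>
      ((hM a m l c p sg sl hP hc hp).1.1.enorm).mul (hmeas.enorm.pow_const 2)
    rw [← hpl]
    calc (∑ c ∈ CC l, ∑ p ∈ PP a l, ∫⁻ ξ, ‖Mu a m sg sl l c p ξ‖ₑ * ‖hat g ξ‖ₑ ^ 2)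
        = ∑ c ∈ CC l, ∫⁻ ξ, ∑ p ∈ PP a l, ‖Mu a m sg sl l c p ξ‖ₑ * ‖hat g ξ‖ₑ ^ 2 := by
          refine Finset.sum_congr rfl fun c hc => ?_
          rw [lintegral_finsetSum' _ (fun p hp => (hm c hc p hp).aemeasurable)]
      _ = ∫⁻ ξ, ∑ c ∈ CC l, ∑ p ∈ PP a l, ‖Mu a m sg sl l c p ξ‖ₑ * ‖hat g ξ‖ₑ ^ 2 := by
          rw [lintegral_finsetSum' _ (fun c hc =>
            (Finset.measurable_sum _ (fun p hp => hm c hc p hp)).aemeasurable)]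
      _ ≤ ∫⁻ ξ, ‖hat g ξ‖ₑ ^ 2 := by
          refine lintegral_mono fun ξ => ?_
          have : ∑ c ∈ CC l, ∑ p ∈ PP a l, ‖Mu a m sg sl l c p ξ‖ₑ * ‖hat g ξ‖ₑ ^ 2 =
              (∑ c ∈ CC l, ∑ p ∈ PP a l, ‖Mu a m sg sl l c p ξ‖ₑ) * ‖hat g ξ‖ₑ ^ 2 := by
            rw [Finset.sum_mul]
            refine Finset.sum_congr rfl fun c _ => ?_
            rw [Finset.sum_mul]
          rw [this]
          calc _ ≤ 1 * ‖hat g ξ‖ₑ ^ 2 := mul_le_mul' (disj hM hX hP ξ) le_rfl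
            _ = _ := one_mul _
  refine ⟨?_, hsum, ?_⟩
  · intro c hc p hp
    refine ⟨(Pool.Agent.KSP.pPl2 _ (hbd c hc p hp)).1, hbd c hc p hp, ?_, hVV c hc p hp⟩
    intro B hB x
    have hMp := hM a m l c p sg sl hP hc hp
    have h1 : vv a m sg sl l g c p x = ∫ z, Ex (Mu a m sg sl l c p) (x - z) * g z :=
      (hC _ hMp.1).2 g hg x
    rw [h1]
    have hK : Measurable (Ex (Mu a m sg sl l c p)) :=
      (Pool.Agent.KSP.pPl2 _ hMp.1).1.measurable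
    refine sup_bound hK ?_ (by positivity) hB x
    refine hMp.2.2.2.2.1.trans ?_
    rw [ENNReal.ofReal_pow (by norm_num)]
    norm_num
  · exact (Finset.sum_le_sum fun c hc => Finset.sum_le_sum fun p hp => hVV c hc p hp).trans hsum

end Pool.Agent.SLog
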