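import Pool.Agent.SLog.Targets
import Pool.Agent.KSP.Base
import Pool.Agent.SLog.VB

set_option autoImplicit false

/-! SLG-TRV: trivial bounds for `TF`. -/

namespace Pool.Agent.SLog

open MeasureTheory Set
open scoped ENNReal NNReal ComplexConjugate
open Pool.Agent.KSP (ee dot nr Ex Ex1 Bd Bd1 n1 n2 lg V0 ann sq)
open Pool.Agent.LLog (PA cd cdr cp fr tp Nn nv tv Core bx sa sd Qx kc psi kap GK psR psA anf mu Bf hat)

namespace TRV_

lemma ee_norm (t : ℝ) : ‖ee t‖ = 1 := by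
  unfold ee
  have : (2 * Real.pi * Complex.I * (t : ℂ)) = ((2 * Real.pi * t : ℝ) : ℂ) * Complex.I := by
    push_cast; ring
  rw [this, Complex.norm_exp_ofReal_mul_I]

lemma ee_cont : Continuous ee := by
  unfold ee
  fun_prop

lemma bd_int {h : ℝ × ℝ → ℂ} (hh : Bd h) : Integrable h := by
  obtain ⟨h1, ⟨B, hB⟩, R, hR⟩ := hh
  have h2 : h = (Icc (-R) R ×ˢ Icc (-R) R).indicator h := by
    ext ξ
    by_cases hx : ξ ∈ Icc (-R) R ×ˢ Icc (-R) R
    · rw [indicator_of_mem hx]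
    · rw [indicator_of_notMem hx]
      by_contra h3
      obtain ⟨h4, h5⟩ := hR ξ h3
      rw [abs_le] at h4 h5
      exact hx ⟨h4, h5⟩
  rw [h2, integrable_indicator_iff (measurableSet_Icc.prod measurableSet_Icc)]
  refine Measure.integrableOn_of_bounded (M := B) ?_ h1.aestronglyMeasurable
    (Filter.Eventually.of_forall hB)
  exact ((isCompact_Icc.prod isCompact_Icc).measure_lt_top).ne

lemma int_ee {h : ℝ × ℝ → ℂ} (hh : Integrable h) (x : ℝ × ℝ) :
    Integrable (fun ξ => h ξ * ee (dot x ξ)) := by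
  refine hh.mul_bdd (c := 1) ?_ ?_
  · refine (ee_cont.comp ?_).aestronglyMeasurable
    unfold dot
    fun_prop
  · exact Filter.Eventually.of_forall fun ξ => (ee_norm _).le

lemma Ex_sum {S : Finset ℕ} {u : ℕ → ℝ × ℝ → ℂ} (hu : ∀ i ∈ S, Bd (u i)) (x : ℝ × ℝ) :
    Ex (fun ξ => ∑ i ∈ S, u i ξ) x = ∑ i ∈ S, Ex (u i) x := by
  unfold Ex
  rw [← integral_finsetSum _ fun i hi => int_ee (bd_int (hu i hi)) x]
  refine integral_congr_ae (Filter.Eventually.of_forall fun ξ => ?_)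
  simp only [Finset.sum_mul]

lemma bd_sum {S : Finset ℕ} {u : ℕ → ℝ × ℝ → ℂ} (hu : ∀ i ∈ S, Bd (u i)) :
    Bd (fun ξ => ∑ i ∈ S, u i ξ) := by
  classical
  induction S using Finset.induction_on with
  | empty =>
    refine ⟨?_, ⟨0, fun ξ => ?_⟩, 0, fun ξ h => ?_⟩
    · simp
    · simp
    · simp at h
  | insert i S hi ih =>
    obtain ⟨m1, ⟨B1, b1⟩, R1, r1⟩ := hu i (Finset.mem_insert_self i S)
    obtain ⟨m2, ⟨B2, b2⟩, R2, r2⟩ := ih (fun j hj => hu j (Finset.mem_insert_of_mem hj))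
    refine ⟨?_, ⟨B1 + B2, fun ξ => ?_⟩, max R1 R2, fun ξ h => ?_⟩
    · simp only [Finset.sum_insert hi]
      exact m1.add m2
    · simp only [Finset.sum_insert hi]
      exact (norm_add_le _ _).trans (add_le_add (b1 ξ) (b2 ξ))
    · simp only [Finset.sum_insert hi] at h
      by_cases h1 : u i ξ = 0
      · have h2 : ∑ j ∈ S, u j ξ ≠ 0 := by
          intro h3
          apply h
          rw [h1, h3, add_zero]
        obtain ⟨k1, k2⟩ := r2 ξ h2
        exact ⟨k1.trans (le_max_right _ _), k2.trans (le_max_right _ _)⟩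
      · obtain ⟨k1, k2⟩ := r1 ξ h1
        exact ⟨k1.trans (le_max_left _ _), k2.trans (le_max_left _ _)⟩

lemma kc_meas (m : ℕ) (sg : ℝ) {k : ℝ × ℝ → ℕ} (hk : Measurable k) (l : ℕ) :
    Measurable (kc m sg k l) := by
  unfold kc
  refine Nat.measurable_floor.comp ?_
  have h1 : Measurable (fun x => (k x : ℝ)) := (measurable_from_top (f := fun n : ℕ => (n : ℝ))).comp hk
  exact (((h1.div_const _).const_add 1).sub_const sg).const_mul _

lemma kc_lt {a m l : ℕ} {sg sl : ℝ} (hP : HP a m l sg sl) {k : ℝ × ℝ → ℕ}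
    (hk : ∀ x, k x < 4 ^ m) (x : ℝ × ℝ) : kc m sg k l x < 2 * 4 ^ l := by
  obtain ⟨-, -, -, h0, h1, -, -⟩ := hP
  unfold kc
  rw [Nat.floor_lt']
  · have h2 : (k x : ℝ) / 4 ^ m < 1 := by
      rw [div_lt_one (by positivity)]
      exact_mod_cast hk x
    push_cast
    have h3 : (0 : ℝ) < 4 ^ l := by positivity
    nlinarith
  · positivity

/-- `TF` is one of finitely many functions, or zero -/
lemma TF_le {a m l t : ℕ} {sg sl : ℝ} {k : ℝ × ℝ → ℕ} (hC : ∀ x, t ≤ kc m sg k l x % 4 →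
    kc m sg k l x - t ∈ CC l) (H : ℝ × ℝ → ℂ) (N : ℂ → ℝ≥0∞) (hN : N 0 = 0) (x : ℝ × ℝ) :
    N (TF a m sg sl k l t H x) ≤
      ∑ c ∈ CC l, N (∑ p ∈ PP a l, Ex (fun ξ => Mu a m sg sl l c p ξ * H ξ) x) := by
  unfold TF
  split_ifs with h
  · exact Finset.single_le_sum (f := fun c => N (∑ p ∈ PP a l,
      Ex (fun ξ => Mu a m sg sl l c p ξ * H ξ) x)) (fun _ _ => zero_le) (hC x h)
  · rw [hN]
    exact zero_le

lemma TF_meas {a m l t : ℕ} {sg sl : ℝ} {k : ℝ × ℝ → ℕ} (hk : Measurable k)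
    (hC : ∀ x, t ≤ kc m sg k l x % 4 → kc m sg k l x - t ∈ CC l) (H : ℝ × ℝ → ℂ)
    (hm : ∀ c ∈ CC l, Measurable (fun x => ∑ p ∈ PP a l,
      Ex (fun ξ => Mu a m sg sl l c p ξ * H ξ) x)) :
    Measurable (TF a m sg sl k l t H) := by
  classical
  have e : TF a m sg sl k l t H = fun x => ∑ c ∈ CC l,
      ({x | t ≤ kc m sg k l x % 4 ∧ kc m sg k l x - t = c} : Set (ℝ × ℝ)).indicator
        (fun x => ∑ p ∈ PP a l, Ex (fun ξ => Mu a m sg sl l c p ξ * H ξ) x) x := by
    funext x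
    unfold TF
    split_ifs with h
    · rw [Finset.sum_eq_single_of_mem _ (hC x h)]
      · rw [indicator_of_mem]
        exact ⟨h, rfl⟩
      · intro c _ hne
        rw [indicator_of_notMem]
        rintro ⟨-, h2⟩
        exact hne h2.symm
    · symm
      refine Finset.sum_eq_zero fun c _ => ?_
      rw [indicator_of_notMem]
      rintro ⟨h2, -⟩
      exact h h2
  rw [e]
  refine Finset.measurable_sum _ fun c hc => ?_
  refine (hm c hc).indicator ?_
  have h1 := kc_meas m sg hk l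
  have h2 : {x | t ≤ kc m sg k l x % 4 ∧ kc m sg k l x - t = c} =
      (kc m sg k l) ⁻¹' {n | t ≤ n % 4 ∧ n - t = c} := rfl
  rw [h2]
  exact h1 (Set.to_countable _).measurableSet

/-- convolution with an integrable kernel, `L¹` bound -/
lemma l1_bound {K g : ℝ × ℝ → ℂ} {A : ℝ≥0∞} (hK : Measurable K) (hg : Measurable g)
    (hA : ∫⁻ z, ‖K z‖ₑ ≤ A) :
    ∫⁻ x, ‖∫ z, K (x - z) * g z‖ₑ ≤ A * ∫⁻ z, ‖g z‖ₑ := by
  calc ∫⁻ x, ‖∫ z, K (x - z) * g z‖ₑ ≤ ∫⁻ x, ∫⁻ z, ‖K (x - z)‖ₑ * ‖g z‖ₑ := by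
        refine lintegral_mono fun x => ?_
        refine (enorm_integral_le_lintegral_enorm _).trans ?_
        refine lintegral_mono fun z => ?_
        rw [enorm_mul]
    _ = ∫⁻ z, ∫⁻ x, ‖K (x - z)‖ₑ * ‖g z‖ₑ := by
        rw [lintegral_lintegral_swap]
        have h1 : Measurable (fun p : (ℝ × ℝ) × (ℝ × ℝ) => ‖K (p.1 - p.2)‖ₑ) :=
          (hK.comp (measurable_fst.sub measurable_snd)).enorm
        have h2 : Measurable (fun p : (ℝ × ℝ) × (ℝ × ℝ) => ‖g p.2‖ₑ) :=
          (hg.comp measurable_snd).enorm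
        exact (h1.mul h2).aemeasurable
    _ = ∫⁻ z, (∫⁻ x, ‖K x‖ₑ) * ‖g z‖ₑ := by
        refine lintegral_congr fun z => ?_
        rw [lintegral_mul_const]
        · rw [lintegral_sub_right_eq_self (fun x => ‖K x‖ₑ) z]
        · exact (hK.comp (measurable_id.sub measurable_const)).enorm
    _ = (∫⁻ x, ‖K x‖ₑ) * ∫⁻ z, ‖g z‖ₑ := by
        rw [lintegral_const_mul _ hg.enorm]
    _ ≤ A * ∫⁻ z, ‖g z‖ₑ := mul_le_mul' hA le_rfl

end TRV_

open VB_ TRV_

theorem pTRV (hM : tMUP) (hX : tBXV) (hV : tVB) (hCv : Pool.Agent.LLog.tCVK) : tTRV := by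
  intro a m l t sg sl k hP ht1 ht3 hk hk4
  have hC : ∀ x, t ≤ kc m sg k l x % 4 → kc m sg k l x - t ∈ CC l := by
    intro x _
    have := kc_lt hP hk4 x
    unfold CC
    rw [Finset.mem_range]
    omega
  refine ⟨hC, ?_, ?_⟩
  · intro H hHm hHb
    have hbd : ∀ c ∈ CC l, ∀ p ∈ PP a l, Bd (fun ξ => Mu a m sg sl l c p ξ * H ξ) :=
      fun c hc p hp => bd_mul (hM a m l c p sg sl hP hc hp).1 hHm hHb
    have hmeas : ∀ c ∈ CC l, Measurable (fun x => ∑ p ∈ PP a l,
        Ex (fun ξ => Mu a m sg sl l c p ξ * H ξ) x) := by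
      intro c hc
      refine Finset.measurable_sum _ fun p hp => ?_
      exact (Pool.Agent.KSP.pPl2 _ (hbd c hc p hp)).1.measurable
    refine ⟨TF_meas hk hC H hmeas, ?_⟩
    have hMm : ∀ c ∈ CC l, Measurable (fun ξ => ‖∑ p ∈ PP a l, Mu a m sg sl l c p ξ * H ξ‖ₑ ^ 2) := by
      intro c hc
      refine Measurable.pow_const (Measurable.enorm ?_) 2
      exact Finset.measurable_sum _ fun p hp => (hbd c hc p hp).1
    have hchi : ∀ c p ξ, chi m ξ = 0 → Mu a m sg sl l c p ξ = 0 := by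
      intro c p ξ h
      unfold Mu
      split_ifs
      · rw [h, Complex.ofReal_zero, zero_mul]
      · rfl
    calc ∫⁻ x, ‖TF a m sg sl k l t H x‖ₑ ^ 2
        ≤ ∫⁻ x, ∑ c ∈ CC l, ‖∑ p ∈ PP a l, Ex (fun ξ => Mu a m sg sl l c p ξ * H ξ) x‖ₑ ^ 2 := by
          refine lintegral_mono fun x => ?_
          exact TF_le hC H (fun z => ‖z‖ₑ ^ 2) (by simp) x
      _ = ∑ c ∈ CC l, ∫⁻ x, ‖∑ p ∈ PP a l, Ex (fun ξ => Mu a m sg sl l c p ξ * H ξ) x‖ₑ ^ 2 := by
          rw [lintegral_finsetSum' _ (fun c hc => ((hmeas c hc).enorm.pow_const 2).aemeasurable)]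
      _ = ∑ c ∈ CC l, ∫⁻ ξ, ‖∑ p ∈ PP a l, Mu a m sg sl l c p ξ * H ξ‖ₑ ^ 2 := by
          refine Finset.sum_congr rfl fun c hc => ?_
          have h1 := (Pool.Agent.KSP.pPl2 _ (bd_sum (hbd c hc))).2
          unfold n2 at h1
          rw [← h1]
          refine lintegral_congr fun x => ?_
          rw [Ex_sum (hbd c hc)]
      _ = ∫⁻ ξ, ∑ c ∈ CC l, ‖∑ p ∈ PP a l, Mu a m sg sl l c p ξ * H ξ‖ₑ ^ 2 := by
          rw [lintegral_finsetSum' _ (fun c hc => (hMm c hc).aemeasurable)]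
      _ ≤ ∫⁻ ξ, ({ξ | chi m ξ ≠ 0} : Set (ℝ × ℝ)).indicator (fun ξ => ‖H ξ‖ₑ ^ 2) ξ := by
          refine lintegral_mono fun ξ => ?_
          by_cases hc0 : chi m ξ = 0
          · have : ∑ c ∈ CC l, ‖∑ p ∈ PP a l, Mu a m sg sl l c p ξ * H ξ‖ₑ ^ 2 = 0 := by
              refine Finset.sum_eq_zero fun c _ => ?_
              have : ∑ p ∈ PP a l, Mu a m sg sl l c p ξ * H ξ = 0 :=
                Finset.sum_eq_zero fun p _ => by rw [hchi c p ξ hc0, zero_mul]
              rw [this]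
              simp
            rw [this]
            exact zero_le
          · rw [indicator_of_mem (by exact hc0)]
            have hd := disj hM hX hP ξ
            calc ∑ c ∈ CC l, ‖∑ p ∈ PP a l, Mu a m sg sl l c p ξ * H ξ‖ₑ ^ 2
                ≤ ∑ c ∈ CC l, (∑ p ∈ PP a l, ‖Mu a m sg sl l c p ξ‖ₑ) ^ 2 * ‖H ξ‖ₑ ^ 2 := by
                  refine Finset.sum_le_sum fun c _ => ?_
                  rw [← mul_pow]
                  refine pow_le_pow_left₀ zero_le ?_ 2
                  rw [← Finset.sum_mul, enorm_mul]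
                  exact mul_le_mul' (enorm_sum_le _ _) le_rfl
              _ ≤ ∑ c ∈ CC l, (∑ p ∈ PP a l, ‖Mu a m sg sl l c p ξ‖ₑ) * ‖H ξ‖ₑ ^ 2 := by
                  refine Finset.sum_le_sum fun c hc => ?_
                  refine mul_le_mul' ?_ le_rfl
                  have h1 : ∑ p ∈ PP a l, ‖Mu a m sg sl l c p ξ‖ₑ ≤ 1 :=
                    (Finset.single_le_sum (f := fun c => ∑ p ∈ PP a l, ‖Mu a m sg sl l c p ξ‖ₑ)
                      (fun _ _ => zero_le) hc).trans hd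
                  calc (∑ p ∈ PP a l, ‖Mu a m sg sl l c p ξ‖ₑ) ^ 2
                      = (∑ p ∈ PP a l, ‖Mu a m sg sl l c p ξ‖ₑ) *
                        (∑ p ∈ PP a l, ‖Mu a m sg sl l c p ξ‖ₑ) := by rw [pow_two]
                    _ ≤ (∑ p ∈ PP a l, ‖Mu a m sg sl l c p ξ‖ₑ) * 1 := mul_le_mul' le_rfl h1
                    _ = _ := mul_one _
              _ = (∑ c ∈ CC l, ∑ p ∈ PP a l, ‖Mu a m sg sl l c p ξ‖ₑ) * ‖H ξ‖ₑ ^ 2 := by
                  rw [Finset.sum_mul]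
              _ ≤ 1 * ‖H ξ‖ₑ ^ 2 := mul_le_mul' hd le_rfl
              _ = ‖H ξ‖ₑ ^ 2 := one_mul _
      _ ≤ ∫⁻ ξ in {ξ | chi m ξ ≠ 0}, ‖H ξ‖ₑ ^ 2 := by
          exact lintegral_indicator_le _ _
  · intro g hg
    obtain ⟨hPA, hal, hlm, -, -, -, -⟩ := id hP
    have ha20 : 20 ≤ a := hPA.1
    obtain ⟨hVc, -, -⟩ := hV a m l sg sl g hP hg
    refine ⟨?_, ?_⟩
    · calc ∫⁻ x, ‖TF a m sg sl k l t (hat g) x‖ₑ
          ≤ ∫⁻ x, ∑ c ∈ CC l, ‖∑ p ∈ PP a l, Ex (fun ξ => Mu a m sg sl l c p ξ * hat g ξ) x‖ₑ := by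
            refine lintegral_mono fun x => ?_
            exact TF_le hC (hat g) (fun z => ‖z‖ₑ) (by simp) x
        _ ≤ ∫⁻ x, ∑ c ∈ CC l, ∑ p ∈ PP a l, ‖vv a m sg sl l g c p x‖ₑ := by
            refine lintegral_mono fun x => ?_
            refine Finset.sum_le_sum fun c _ => ?_
            exact enorm_sum_le _ _
        _ = ∑ c ∈ CC l, ∑ p ∈ PP a l, ∫⁻ x, ‖vv a m sg sl l g c p x‖ₑ := by
            rw [lintegral_finsetSum' _ (fun c hc => (Finset.measurable_sum _
              (fun p hp => ((hVc c hc p hp).1.measurable.enorm))).aemeasurable)]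
            refine Finset.sum_congr rfl fun c hc => ?_
            rw [lintegral_finsetSum' _ (fun p hp => ((hVc c hc p hp).1.measurable.enorm).aemeasurable)]
        _ ≤ ∑ c ∈ CC l, ∑ p ∈ PP a l, 2 ^ (2 * a) * ∫⁻ x, ‖g x‖ₑ := by
            refine Finset.sum_le_sum fun c hc => Finset.sum_le_sum fun p hp => ?_
            have hMp := hM a m l c p sg sl hP hc hp
            have h1 : ∀ x, vv a m sg sl l g c p x = ∫ z, Ex (Mu a m sg sl l c p) (x - z) * g z :=
              (hCv _ hMp.1).2 g hg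
            simp only [h1]
            exact l1_bound (Pool.Agent.KSP.pPl2 _ hMp.1).1.measurable hg.1 hMp.2.2.2.2.1
        _ = ((2 * 4 ^ l) * ((3 * 2 ^ (l + 8 * a)) * 2 ^ (2 * a))) * ∫⁻ x, ‖g x‖ₑ := by
            rw [Finset.sum_const, Finset.sum_const]
            unfold CC PP
            rw [Finset.card_range, Finset.card_range, nsmul_eq_mul, nsmul_eq_mul]
            push_cast
            ring
        _ ≤ 2 ^ (5 * m) * ∫⁻ x, ‖g x‖ₑ := by
            refine mul_le_mul' ?_ le_rfl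
            have h2 : (2 * 4 ^ l) * ((3 * 2 ^ (l + 8 * a)) * 2 ^ (2 * a)) ≤ 2 ^ (5 * m) := by
              calc (2 * 4 ^ l) * ((3 * 2 ^ (l + 8 * a)) * 2 ^ (2 * a))
                  ≤ (2 * 4 ^ l) * ((4 * 2 ^ (l + 8 * a)) * 2 ^ (2 * a)) := by
                    gcongr
                    norm_num
                _ = 2 ^ (3 + 3 * l + 10 * a) := by
                    have : (4 : ℕ) = 2 ^ 2 := by norm_num
                    rw [this, ← pow_mul]
                    ring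
                _ ≤ 2 ^ (5 * m) := Nat.pow_le_pow_right (by norm_num) (by omega)
            exact_mod_cast h2
    · intro B hB x
      have hB0 : 0 ≤ B := (norm_nonneg _).trans (hB 0)
      unfold TF
      split_ifs with h
      · have hc := hC x h
        calc ‖∑ p ∈ PP a l, Ex (fun ξ => Mu a m sg sl l (kc m sg k l x - t) p ξ * hat g ξ) x‖
            ≤ ∑ p ∈ PP a l, ‖vv a m sg sl l g (kc m sg k l x - t) p x‖ := norm_sum_le _ _
          _ ≤ ∑ p ∈ PP a l, 2 ^ (2 * a) * B :=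
              Finset.sum_le_sum fun p hp => (hVc _ hc p hp).2.2.1 B hB x
          _ = ((3 * 2 ^ (l + 8 * a)) * 2 ^ (2 * a)) * B := by
              rw [Finset.sum_const]
              unfold PP
              rw [Finset.card_range, nsmul_eq_mul]
              push_cast
              ring
          _ ≤ 2 ^ (5 * m) * B := by
              refine mul_le_mul_of_nonneg_right ?_ hB0
              have h2 : (3 * 2 ^ (l + 8 * a)) * 2 ^ (2 * a) ≤ 2 ^ (5 * m) := by
                calc (3 * 2 ^ (l + 8 * a)) * 2 ^ (2 * a)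
                    ≤ (4 * 2 ^ (l + 8 * a)) * 2 ^ (2 * a) := by
                      gcongr
                      norm_num
                  _ = 2 ^ (2 + l + 10 * a) := by
                      have : (4 : ℕ) = 2 ^ 2 := by norm_num
                      rw [this]
                      ring
                  _ ≤ 2 ^ (5 * m) := Nat.pow_le_pow_right (by norm_num) (by omega)
              exact_mod_cast h2
      · rw [norm_zero]
        positivity

end Pool.Agent.SLog
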