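import Pool.Agent.SLog.Targets
import Pool.Agent.LLog.DUA

set_option autoImplicit false

/-! UND: the dual form of UNP. -/

namespace Pool.Agent.SLog

open MeasureTheory Set
open scoped ENNReal NNReal ComplexConjugate
open Pool.Agent.KSP (ee dot nr Ex Ex1 Bd Bd1 n1 n2 lg V0 ann sq pPl2)
open Pool.Agent.KSP.Base_
open Pool.Agent.LLog (hat Bf)
open Pool.Agent.LLog.DUA_

namespace UND_

lemma norm_ee (t : ℝ) : ‖ee t‖ = 1 := Pool.Agent.LLog.HAT_.norm_ee t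

lemma int_Ex {h : ℝ × ℝ → ℂ} (hh : Bd h) (x : ℝ × ℝ) :
    Integrable (fun ξ => h ξ * ee (dot x ξ)) := by
  have h1 : Integrable h := memLp_one_iff_integrable.1 (bd_memLp hh 1)
  have hm : Measurable (fun ξ : ℝ × ℝ => ee (dot x ξ)) := by
    unfold ee dot
    fun_prop
  exact h1.mul_bdd (c := 1) hm.aestronglyMeasurable (ae_of_all _ (fun ξ => (norm_ee _).le))

lemma Ex_sum (S : Finset ℕ) (h : ℕ → ℝ × ℝ → ℂ) (hh : ∀ p ∈ S, Bd (h p)) (x : ℝ × ℝ) :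
    Ex (fun ξ => ∑ p ∈ S, h p ξ) x = ∑ p ∈ S, Ex (h p) x := by
  unfold Ex
  rw [← integral_finsetSum S (fun p hp => int_Ex (hh p hp) x)]
  congr 1
  funext ξ
  rw [Finset.sum_mul]

lemma ex_memLp {k : ℝ × ℝ → ℂ} (hk : Bd k) : MemLp (Ex k) 2 := by
  refine ⟨(pPl2 k hk).1.aestronglyMeasurable, ?_⟩
  have h0 : ∀ f : ℝ × ℝ → ℂ, ∫⁻ x, ‖f x‖ₑ ^ 2 = eLpNorm f 2 (volume : Measure (ℝ × ℝ)) ^ 2 := by
    intro f
    rw [eLpNorm_eq_lintegral_rpow_enorm_toReal (by norm_num) (by norm_num)]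
    simp only [ENNReal.toReal_ofNat, ENNReal.rpow_ofNat]
    rw [← ENNReal.rpow_natCast, ← ENNReal.rpow_mul]
    norm_num
  have h1 : eLpNorm (Ex k) 2 ^ 2 < ⊤ := by
    rw [← h0, (pPl2 k hk).2, n2, h0]
    exact ENNReal.pow_lt_top (bd_memLp hk 2).2
  by_contra h
  rw [not_lt, top_le_iff] at h
  rw [h] at h1
  simp at h1

lemma alg (S : Finset ℕ) (u : ℕ → ℂ) (hu : ∀ p ∈ S, conj (u p) = u p) (h z : ℂ) :
    (∑ p ∈ S, u p * h) * conj z = h * conj (∑ p ∈ S, u p * z) := by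
  rw [map_sum, Finset.sum_mul, Finset.mul_sum]
  refine Finset.sum_congr rfl fun p hp => ?_
  rw [map_mul, hu p hp]
  ring

lemma EE_eq (l : ℕ) (w : ℕ → ℝ × ℝ → ℂ) : EE l w = ⋃ c ∈ CC l, {x | w c x ≠ 0} := by
  ext x
  simp [EE]

lemma EE_meas {l : ℕ} {w : ℕ → ℝ × ℝ → ℂ} (hw : Fm w) : MeasurableSet (EE l w) := by
  rw [EE_eq]
  exact Finset.measurableSet_biUnion _ fun c _ =>
    (hw.1 c).1.1 (measurableSet_singleton (0 : ℂ)).compl

lemma sum_sq_le {l : ℕ} {w : ℕ → ℝ × ℝ → ℂ} (hw : Fm w) :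
    ∑ c ∈ CC l, ∫⁻ x, ‖w c x‖ₑ ^ 2 ≤ volume (EE l w) := by
  rw [← lintegral_finsetSum _ fun c _ => ((hw.1 c).1.1.enorm.pow_const 2),
    ← lintegral_indicator_one (EE_meas hw)]
  refine lintegral_mono fun x => ?_
  by_cases hx : x ∈ EE l w
  · have hx' := hx
    obtain ⟨c0, hc0, hc1⟩ := hx'
    have h1 : ∑ c ∈ CC l, ‖w c x‖ₑ ^ 2 = ‖w c0 x‖ₑ ^ 2 := by
      refine Finset.sum_eq_single c0 (fun c _ hne => ?_) (fun h => absurd hc0 h)
      have : w c x = 0 := by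
        by_contra h2
        exact hne (hw.2 x c c0 h2 hc1)
      rw [this]
      simp
    have h2 : ‖w c0 x‖ₑ ≤ 1 := by
      rw [← ofReal_norm]
      exact ENNReal.ofReal_le_one.2 ((hw.1 c0).2 x)
    rw [h1, indicator_of_mem hx]
    calc ‖w c0 x‖ₑ ^ 2 ≤ 1 ^ 2 := pow_le_pow_left₀ zero_le h2 2
      _ = _ := by simp
  · rw [indicator_of_notMem hx]
    refine le_of_eq (Finset.sum_eq_zero fun c hc => ?_)
    have : w c x = 0 := by
      by_contra h2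
      exact hx ⟨c, hc, h2⟩
    rw [this]
    simp

end UND_

open UND_

theorem pUND (hH : LLog.tHAT) (hMUP : tMUP) (hVB : tVB) (hUNP : tUNP) : tUND := by
  obtain ⟨C, hC⟩ := hUNP
  refine ⟨C, ?_⟩
  intro a m l sg sl U w hP hU hFm hwU
  have hbf : ∀ c, Bf (w c) := fun c => (hFm.1 c).1
  have hcp : ∀ c ∈ CC l, ∀ p ∈ PP a l, Bd (fun ξ => Mu a m sg sl l c p ξ * hat (w c) ξ) :=
    fun c hc p hp => ((hVB a m l sg sl (w c) hP (hbf c)).1 c hc p hp).2.1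
  set κ : ℕ → ℝ × ℝ → ℂ := fun c ξ => ∑ p ∈ PP a l, Mu a m sg sl l c p ξ * hat (w c) ξ with hκd
  have hκ : ∀ c ∈ CC l, Bd (κ c) := fun c hc =>
    bd_sum (PP a l) (fun p ξ => Mu a m sg sl l c p ξ * hat (w c) ξ) (hcp c hc)
  set k : ℝ × ℝ → ℂ := fun ξ => ∑ c ∈ CC l, κ c ξ with hkd
  have hk : Bd k := bd_sum (CC l) κ hκ
  have hEx : ∀ x, ∑ c ∈ CC l, ∑ p ∈ PP a l, vv a m sg sl l (w c) c p x = Ex k x := by
    intro x
    rw [hkd, Ex_sum (CC l) κ hκ x]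
    refine Finset.sum_congr rfl fun c hc => ?_
    rw [hκd]
    simp only
    rw [Ex_sum (PP a l) (fun p ξ => Mu a m sg sl l c p ξ * hat (w c) ξ) (hcp c hc) x]
    rfl
  have hgp : ∀ c ∈ CC l, ∀ p ∈ PP a l, Bd (fun ξ => Mu a m sg sl l c p ξ * k ξ) :=
    fun c hc p hp => bd_mul (hMUP a m l c p sg sl hP hc hp).1 hk
  set g : ℕ → ℝ × ℝ → ℂ := fun c ξ => ∑ p ∈ PP a l, Mu a m sg sl l c p ξ * k ξ with hgd
  have hg : ∀ c ∈ CC l, Bd (g c) := fun c hc =>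
    bd_sum (PP a l) (fun p ξ => Mu a m sg sl l c p ξ * k ξ) (hgp c hc)
  have hind : ∀ c ∈ CC l, MemLp ((U c).indicator (Ex (g c))) 2 (volume : Measure (ℝ × ℝ)) :=
    fun c hc => (ex_memLp (hg c hc)).indicator (hU c).1
  have hwm : ∀ c, MemLp (w c) 2 (volume : Measure (ℝ × ℝ)) := fun c =>
    Pool.Agent.LLog.HAT_.bf_memLp (hbf c) 2
  have hpair : ∀ c ∈ CC l, inner ℂ (J k) (J (κ c)) =
      inner ℂ (J ((U c).indicator (Ex (g c)))) (J (w c)) := by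
    intro c hc
    rw [J_inner (bd_memLp (hκ c hc) 2) (bd_memLp hk 2), J_inner (hwm c) (hind c hc)]
    have h1 := (hH (w c) (hbf c)).2.2.2 _ (hg c hc)
    have h2 : ∫ ξ, κ c ξ * conj (k ξ) = ∫ ξ, hat (w c) ξ * conj (g c ξ) := by
      congr 1
      funext ξ
      exact alg (PP a l) (fun p => Mu a m sg sl l c p ξ)
        (fun p hp => ((hMUP a m l c p sg sl hP hc hp).2.1 ξ).1) (hat (w c) ξ) (k ξ)
    rw [h2, ← h1]
    congr 1
    funext x
    by_cases hx : w c x = 0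
    · rw [hx, zero_mul, zero_mul]
    · rw [indicator_of_mem (hwU c x hx)]
  set N : ℝ := ‖J k‖ ^ 2 with hN
  have hN2 : n2 k = ENNReal.ofReal N := J_norm (bd_memLp hk 2)
  have hN0 : 0 ≤ N := by positivity
  set A : ℝ := ∑ c ∈ CC l, ‖J ((U c).indicator (Ex (g c)))‖ ^ 2 with hA
  set B : ℝ := ∑ c ∈ CC l, ‖J (w c)‖ ^ 2 with hB
  have hA0 : 0 ≤ A := Finset.sum_nonneg fun c _ => by positivity
  have hB0 : 0 ≤ B := Finset.sum_nonneg fun c _ => by positivity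
  have hNAB : N ^ 2 ≤ A * B := by
    obtain ⟨-, m2⟩ := J_sum (CC l) κ fun c hc => bd_memLp (hκ c hc) 2
    have h1 : ((N : ℝ) : ℂ) =
        ∑ c ∈ CC l, inner ℂ (J ((U c).indicator (Ex (g c)))) (J (w c)) := by
      have h2 : inner ℂ (J k) (J k) =
          ∑ c ∈ CC l, inner ℂ (J ((U c).indicator (Ex (g c)))) (J (w c)) := by
        have h3 : J k = ∑ c ∈ CC l, J (κ c) := m2
        conv_lhs => rw [h3]
        rw [inner_sum, ← h3]
        exact Finset.sum_congr rfl fun c hc => hpair c hc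
      rw [← h2, inner_self_eq_norm_sq_to_K, hN]
      norm_cast
    have h2 : N ≤ ∑ c ∈ CC l, ‖J ((U c).indicator (Ex (g c)))‖ * ‖J (w c)‖ := by
      have h3 : ‖((N : ℝ) : ℂ)‖ = N := by
        rw [Complex.norm_real, Real.norm_eq_abs, abs_of_nonneg hN0]
      rw [← h3, h1]
      exact (norm_sum_le _ _).trans (Finset.sum_le_sum fun c _ => norm_inner_le_norm _ _)
    calc N ^ 2 ≤ (∑ c ∈ CC l, ‖J ((U c).indicator (Ex (g c)))‖ * ‖J (w c)‖) ^ 2 :=
          pow_le_pow_left₀ hN0 h2 2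
      _ ≤ _ := Finset.sum_mul_sq_le_sq_mul_sq _ _ _
  -- the two sums
  have hAe : ENNReal.ofReal A ≤ C * ENNReal.ofReal (1 / 2 ^ (10 * a)) * ENNReal.ofReal N := by
    obtain ⟨k1, k2, -⟩ := hk
    have h1 := hC a m l sg sl U k hP hU k1 k2
    have h2 : ∫⁻ ξ, ‖k ξ‖ₑ ^ 2 = ENNReal.ofReal N := hN2
    rw [h2] at h1
    refine le_trans (le_of_eq ?_) h1
    rw [hA, ENNReal.ofReal_sum_of_nonneg fun c _ => by positivity]
    refine Finset.sum_congr rfl fun c hc => ?_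
    rw [← J_norm (hind c hc), ← lintegral_indicator (hU c).1]
    refine lintegral_congr fun x => ?_
    by_cases hx : x ∈ U c
    · rw [indicator_of_mem hx, indicator_of_mem hx, hgd]
      simp only
      rw [Ex_sum (PP a l) (fun p ξ => Mu a m sg sl l c p ξ * k ξ) (hgp c hc) x]
    · rw [indicator_of_notMem hx, indicator_of_notMem hx]
      simp
  have hBe : ENNReal.ofReal B ≤ volume (EE l w) := by
    refine le_trans (le_of_eq ?_) (sum_sq_le hFm)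
    rw [hB, ENNReal.ofReal_sum_of_nonneg fun c _ => by positivity]
    exact Finset.sum_congr rfl fun c _ => (J_norm (hwm c)).symm
  have hfin : ENNReal.ofReal N ≤ C * ENNReal.ofReal (1 / 2 ^ (10 * a)) * volume (EE l w) := by
    rcases eq_or_ne (ENNReal.ofReal N) 0 with h0 | h0
    · rw [h0]
      exact zero_le
    · have h1 : ENNReal.ofReal N * ENNReal.ofReal N ≤
          ENNReal.ofReal N * (C * ENNReal.ofReal (1 / 2 ^ (10 * a)) * volume (EE l w)) := by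
        calc ENNReal.ofReal N * ENNReal.ofReal N = ENNReal.ofReal (N ^ 2) := by
              rw [← ENNReal.ofReal_mul hN0, pow_two]
          _ ≤ ENNReal.ofReal (A * B) := ENNReal.ofReal_le_ofReal hNAB
          _ = ENNReal.ofReal A * ENNReal.ofReal B := ENNReal.ofReal_mul hA0
          _ ≤ (C * ENNReal.ofReal (1 / 2 ^ (10 * a)) * ENNReal.ofReal N) * volume (EE l w) :=
              mul_le_mul' hAe hBe
          _ = _ := by ring
      exact (ENNReal.mul_le_mul_iff_right h0 ENNReal.ofReal_ne_top).1 h1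
  calc ∫⁻ x, ‖∑ c ∈ CC l, ∑ p ∈ PP a l, vv a m sg sl l (w c) c p x‖ₑ ^ 2
      = ∫⁻ x, ‖Ex k x‖ₑ ^ 2 := lintegral_congr fun x => by rw [hEx x]
    _ = n2 k := (pPl2 k hk).2
    _ = ENNReal.ofReal N := hN2
    _ ≤ _ := hfin

end Pool.Agent.SLog
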