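import Pool.Agent.SLog.Targets
import Pool.Agent.LLog.CHD

set_option autoImplicit false

/-! MP_ee701d_an, strong bound: C1 unpopular points. -/

namespace Pool.Agent.SLog

open MeasureTheory Set
open scoped ENNReal NNReal ComplexConjugate
open Pool.Agent.KSP (ee dot nr Ex Ex1 Bd Bd1 n1 n2 lg V0 ann sq)
open Pool.Agent.LLog (PA cd cdr cp fr tp Nn nv tv Core bx sa sd Qx kc psi kap GK psR psA anf mu Bf hat)

namespace UNP_

lemma bd_zero : Bd (fun _ : ℝ × ℝ => (0 : ℂ)) :=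
  ⟨measurable_const, ⟨0, fun _ => by simp⟩, 0, fun _ h => absurd rfl h⟩

lemma bd_add {f g : ℝ × ℝ → ℂ} (hf : Bd f) (hg : Bd g) : Bd (fun ξ => f ξ + g ξ) := by
  obtain ⟨m1, ⟨B1, h1⟩, R1, r1⟩ := hf
  obtain ⟨m2, ⟨B2, h2⟩, R2, r2⟩ := hg
  refine ⟨m1.add m2, ⟨B1 + B2, fun ξ => (norm_add_le _ _).trans (add_le_add (h1 ξ) (h2 ξ))⟩,
    max R1 R2, fun ξ hξ => ?_⟩
  by_cases h : f ξ = 0
  · have : g ξ ≠ 0 := by
      intro h'
      apply hξ
      change f ξ + g ξ = 0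
      rw [h, h', add_zero]
    exact ⟨(r2 ξ this).1.trans (le_max_right _ _), (r2 ξ this).2.trans (le_max_right _ _)⟩
  · exact ⟨(r1 ξ h).1.trans (le_max_left _ _), (r1 ξ h).2.trans (le_max_left _ _)⟩

lemma bd_sum (S : Finset ℕ) (h : ℕ → ℝ × ℝ → ℂ) (hh : ∀ p ∈ S, Bd (h p)) :
    Bd (fun ξ => ∑ p ∈ S, h p ξ) := by
  classical
  induction S using Finset.induction_on with
  | empty => simpa using bd_zero
  | insert q S hq ih =>
    have h1 := bd_add (hh q (Finset.mem_insert_self q S))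
      (ih fun p hp => hh p (Finset.mem_insert_of_mem hp))
    have e : (fun ξ => ∑ p ∈ insert q S, h p ξ) = fun ξ => h q ξ + ∑ p ∈ S, h p ξ := by
      funext ξ
      rw [Finset.sum_insert hq]
    rw [e]
    exact h1

lemma bd_mul {k H : ℝ × ℝ → ℂ} (hk : Bd k) (hH : Measurable H) {B : ℝ} (hB : ∀ ξ, ‖H ξ‖ ≤ B) :
    Bd (fun ξ => k ξ * H ξ) := by
  obtain ⟨hm, ⟨C, hC⟩, R, hR⟩ := hk
  refine ⟨hm.mul hH, ⟨C * B, fun ξ => ?_⟩, R, fun ξ hξ => hR ξ (left_ne_zero_of_mul hξ)⟩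
  rw [norm_mul]
  exact mul_le_mul (hC ξ) (hB ξ) (norm_nonneg _) ((norm_nonneg _).trans (hC ξ))

lemma numer {a m l : ℕ} (h : PA a m) (hl : l ≤ m) :
    ((2 * l + 1 : ℕ) : ℝ≥0∞) * ENNReal.ofReal (1 / √((2 : ℝ) ^ (24 * a) / 4)) ≤
      ENNReal.ofReal (1 / 2 ^ (10 * a)) := by
  have e : √((2 : ℝ) ^ (24 * a) / 4) = 2 ^ (12 * a) / 2 := by
    rw [show (2 : ℝ) ^ (24 * a) / 4 = (2 ^ (12 * a) / 2) ^ 2 by
      rw [show 24 * a = 12 * a + 12 * a by ring, pow_add]; ring]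
    exact Real.sqrt_sq (by positivity)
  rw [e]
  have e2 : ((2 * l + 1 : ℕ) : ℝ≥0∞) = ENNReal.ofReal ((2 * l + 1 : ℕ) : ℝ) :=
    (ENNReal.ofReal_natCast _).symm
  rw [e2, ← ENNReal.ofReal_mul (by positivity)]
  apply ENNReal.ofReal_le_ofReal
  obtain ⟨ha, hm, _⟩ := h
  have h1 : ((2 * l + 1 : ℕ) : ℝ) ≤ 2 * 2 ^ a := by
    have : 2 * l + 1 ≤ 2 * 2 ^ a := by omega
    exact_mod_cast this
  have h2 : (4 : ℝ) ≤ 2 ^ a := by
    calc (4 : ℝ) = 2 ^ 2 := by norm_num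
      _ ≤ 2 ^ a := pow_le_pow_right₀ (by norm_num) (by omega)
  have hp : (0 : ℝ) < 2 ^ (10 * a) := by positivity
  have e3 : (2 : ℝ) ^ (12 * a) = 2 ^ (10 * a) * (2 ^ a * 2 ^ a) := by
    rw [← pow_add, ← pow_add]
    congr 1
    ring
  have h3 : ((2 * l + 1 : ℕ) : ℝ) * (1 / (2 ^ (12 * a) / 2)) = ((2 * l + 1 : ℕ) : ℝ) * 2 / 2 ^ (12 * a) := by
    field_simp
  rw [h3, e3, div_le_div_iff₀ (by positivity) hp, one_mul, mul_comm (2 ^ (10 * a))]
  have h4 : ((2 * l + 1 : ℕ) : ℝ) * 2 ≤ 2 ^ a * 2 ^ a := by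
    calc ((2 * l + 1 : ℕ) : ℝ) * 2 ≤ (2 * 2 ^ a) * 2 := by linarith
      _ = 4 * 2 ^ a := by ring
      _ ≤ 2 ^ a * 2 ^ a := by gcongr
  exact mul_le_mul_of_nonneg_right h4 hp.le

end UNP_

open UNP_ in
theorem pUNP (hM : tMUP) (hV : tBXV) (hL : KSP.tL) : tUNP := by
  obtain ⟨C, hC⟩ := hL
  refine ⟨C, fun a m l sg sl U H hHP hU hHm hHb => ?_⟩
  obtain ⟨B, hB⟩ := hHb
  have hPA := hHP.1
  have ha : 20 ≤ a := hPA.1
  have hal : 10 * a < l := hHP.2.1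
  have hlm : l ≤ m := hHP.2.2.1
  have hsl1 : 1 ≤ sl := hHP.2.2.2.2.2.1
  have hsl2 : sl < 2 := hHP.2.2.2.2.2.2
  have hq : (0 : ℝ) < 1 / 2 ^ (4 * a) := by positivity
  -- the cell of a point where `Mu` does not vanish
  have cell : ∀ c ∈ CC l, ∀ p ∈ PP a l, ∀ ξ, Mu a m sg sl l c p ξ ≠ 0 →
      ξ ∈ V0 ∧ cd sg l c ξ ∧ cp sl (l + 8 * a) p ξ := by
    intro c hc p hp ξ hξ
    have h1 := (hM a m l c p sg sl hHP hc hp).2.2.1 ξ hξ
    have h2 := (hV a l c p sg sl (1 / 2 ^ (4 * a) / 3) ξ ha hal hsl1 hsl2 hp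
      (by linarith) h1).1 (by positivity)
    exact ⟨h2.1, h2.2.1, h2.2.2.1⟩
  have hbd : ∀ c ∈ CC l, ∀ p ∈ PP a l, Bd (fun ξ => Mu a m sg sl l c p ξ * H ξ) :=
    fun c hc p hp => bd_mul (hM a m l c p sg sl hHP hc hp).1 hHm hB
  set hh : ℕ → ℝ × ℝ → ℂ := fun c ξ => ∑ p ∈ PP a l, Mu a m sg sl l c p ξ * H ξ with hhdef
  have hhB : ∀ c ∈ CC l, Bd (hh c) := fun c hc =>
    bd_sum (PP a l) (fun p ξ => Mu a m sg sl l c p ξ * H ξ) (hbd c hc)
  have hEx : ∀ c ∈ CC l, ∀ x, ∑ p ∈ PP a l, Ex (fun ξ => Mu a m sg sl l c p ξ * H ξ) x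
      = Ex (hh c) x := fun c hc x =>
    (LLog.CHD_.Ex_sum (PP a l) (fun p ξ => Mu a m sg sl l c p ξ * H ξ) (hbd c hc) x).symm
  -- one radial interval
  have one : ∀ c ∈ CC l,
      ∫⁻ x in U c, ‖∑ p ∈ PP a l, Ex (fun ξ => Mu a m sg sl l c p ξ * H ξ) x‖ₑ ^ 2 ≤
        C * ENNReal.ofReal (1 / 2 ^ (10 * a)) * n2 (hh c) := by
    intro c hc
    have e0 : ∫⁻ x in U c, ‖∑ p ∈ PP a l, Ex (fun ξ => Mu a m sg sl l c p ξ * H ξ) x‖ₑ ^ 2
        = ∫⁻ x in U c, ‖Ex (hh c) x‖ₑ ^ 2 := by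
      refine lintegral_congr fun x => ?_
      rw [hEx c hc x]
    rw [e0]
    have h4 : (0 : ℝ) < 4 ^ l := by positivity
    by_cases hρ : 1 ≤ sg + c / 4 ^ l ∧ sg + c / 4 ^ l ≤ 2
    · have h1 := hC (2 * l) (sg + c / 4 ^ l) (2 ^ (24 * a) / 4) (U c) (hh c) hρ.1 hρ.2
        (by positivity) (hU c).1 (by
          intro y
          have h2 := (hU c).2 y
          have e1 : 2 * l / 2 = l := by omega
          rw [e1]
          refine h2.trans (le_of_eq ?_)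
          congr 1
          field_simp) (hhB c hc) (by
          intro ξ hξ
          obtain ⟨p, hp, hp2⟩ := Finset.exists_ne_zero_of_sum_ne_zero hξ
          have h3 := cell c hc p hp ξ (left_ne_zero_of_mul hp2)
          refine ⟨h3.1, ?_⟩
          obtain ⟨h5, h6⟩ := h3.2.1
          have e2 : (2 : ℝ) ^ (2 * l) = 4 ^ l := by rw [pow_mul]; norm_num
          rw [e2]
          constructor
          · have : (c : ℝ) / 4 ^ l ≤ nr ξ - sg := by
              rw [div_le_iff₀ h4]; linarith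
            linarith
          · have : nr ξ - sg < (c + 1) / 4 ^ l := by
              rw [lt_div_iff₀ h4]; linarith
            rw [add_div] at this
            linarith)
      refine h1.trans ?_
      have h2 := numer hPA hlm
      calc (C : ℝ≥0∞) * ((2 * l + 1 : ℕ) : ℝ≥0∞) * ENNReal.ofReal (1 / √((2 : ℝ) ^ (24 * a) / 4))
            * n2 (hh c)
          = C * (((2 * l + 1 : ℕ) : ℝ≥0∞) * ENNReal.ofReal (1 / √((2 : ℝ) ^ (24 * a) / 4)))
            * n2 (hh c) := by ring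
        _ ≤ C * ENNReal.ofReal (1 / 2 ^ (10 * a)) * n2 (hh c) := by gcongr
    · have hz : ∀ p ∈ PP a l, ∀ ξ, Mu a m sg sl l c p ξ = 0 := by
        intro p hp ξ
        by_contra hne
        apply hρ
        have h3 := cell c hc p hp ξ hne
        refine ⟨?_, ?_⟩
        · by_contra hlt
          apply hne
          unfold Mu
          rw [if_neg hlt]
        · have h5 := h3.2.1.1
          have : (c : ℝ) / 4 ^ l ≤ nr ξ - sg := by
            rw [div_le_iff₀ h4]; linarith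
          have h6 : nr ξ < 2 := h3.1.2.2
          linarith
      have hz2 : hh c = fun _ => 0 := by
        funext ξ
        exact Finset.sum_eq_zero fun p hp => by rw [hz p hp ξ, zero_mul]
      have hz3 : ∀ x, Ex (hh c) x = 0 := by
        intro x
        rw [hz2]
        unfold Ex
        simp
      simp only [hz3, enorm_zero, ne_eq, OfNat.ofNat_ne_zero, not_false_eq_true, zero_pow,
        lintegral_zero]
      exact bot_le
  -- orthogonality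
  have orth : ∀ ξ, ∑ c ∈ CC l, ‖hh c ξ‖ₑ ^ 2 ≤ ‖H ξ‖ₑ ^ 2 := by
    intro ξ
    by_cases hex : ∃ c ∈ CC l, ∃ p ∈ PP a l, Mu a m sg sl l c p ξ ≠ 0
    · obtain ⟨c0, hc0, p0, hp0, hne⟩ := hex
      have hcell := cell c0 hc0 p0 hp0 ξ hne
      have hother : ∀ c ∈ CC l, ∀ p ∈ PP a l, ¬ (c = c0 ∧ p = p0) → Mu a m sg sl l c p ξ = 0 := by
        intro c hc p hp hcp
        by_contra hne'
        have h1 := cell c hc p hp ξ hne'
        exact hcp ⟨LLog.CHD_.cd_uniq h1.2.1 hcell.2.1, LLog.CHD_.cp_uniq h1.2.2 hcell.2.2⟩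
      have e1 : ∀ c ∈ CC l, c ≠ c0 → ‖hh c ξ‖ₑ ^ 2 = 0 := by
        intro c hc hcc
        have : hh c ξ = 0 := Finset.sum_eq_zero fun p hp => by
          rw [hother c hc p hp (fun h => hcc h.1), zero_mul]
        rw [this]
        simp
      rw [Finset.sum_eq_single c0 e1 (fun h => absurd hc0 h)]
      have e2 : hh c0 ξ = Mu a m sg sl l c0 p0 ξ * H ξ := by
        refine Finset.sum_eq_single p0 (fun p hp hpp => ?_) (fun h => absurd hp0 h)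
        rw [hother c0 hc0 p hp (fun h => hpp h.2), zero_mul]
      rw [e2, enorm_mul]
      have h1 : ‖Mu a m sg sl l c0 p0 ξ‖ₑ ≤ 1 := by
        have h2 := ((hM a m l c0 p0 sg sl hHP hc0 hp0).2.1 ξ).2
        rw [← ofReal_norm]
        exact ENNReal.ofReal_le_one.2 h2
      calc (‖Mu a m sg sl l c0 p0 ξ‖ₑ * ‖H ξ‖ₑ) ^ 2 ≤ (1 * ‖H ξ‖ₑ) ^ 2 := by gcongr
        _ = ‖H ξ‖ₑ ^ 2 := by rw [one_mul]
    · push Not at hex
      have : ∑ c ∈ CC l, ‖hh c ξ‖ₑ ^ 2 = 0 := by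
        refine Finset.sum_eq_zero fun c hc => ?_
        have : hh c ξ = 0 := Finset.sum_eq_zero fun p hp => by rw [hex c hc p hp, zero_mul]
        rw [this]
        simp
      rw [this]
      exact bot_le
  calc ∑ c ∈ CC l, ∫⁻ x in U c, ‖∑ p ∈ PP a l, Ex (fun ξ => Mu a m sg sl l c p ξ * H ξ) x‖ₑ ^ 2
      ≤ ∑ c ∈ CC l, C * ENNReal.ofReal (1 / 2 ^ (10 * a)) * n2 (hh c) := Finset.sum_le_sum one
    _ = C * ENNReal.ofReal (1 / 2 ^ (10 * a)) * ∑ c ∈ CC l, n2 (hh c) := by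
        rw [Finset.mul_sum]
    _ = C * ENNReal.ofReal (1 / 2 ^ (10 * a)) * ∫⁻ ξ, ∑ c ∈ CC l, ‖hh c ξ‖ₑ ^ 2 := by
        congr 1
        unfold n2
        rw [lintegral_finsetSum' (CC l) fun c hc => ((hhB c hc).1.enorm.pow_const 2).aemeasurable]
    _ ≤ C * ENNReal.ofReal (1 / 2 ^ (10 * a)) * ∫⁻ ξ, ‖H ξ‖ₑ ^ 2 := by
        gcongr with ξ
        exact orth ξ

end Pool.Agent.SLog
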