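import Pool.Agent.SLog.Targets

set_option autoImplicit false

/-! MP_ee701d_an: `L⁴` norm of the square function (job SLG-V2, helper60). -/

namespace Pool.Agent.SLog

open MeasureTheory Set
open scoped ENNReal NNReal ComplexConjugate
open Pool.Agent.KSP (ee dot nr Ex Ex1 Bd Bd1 n1 n2 lg V0 ann)
open Pool.Agent.LLog (PA cd cdr cp fr tp Nn nv tv Core bx sa sd Qx kc psi kap GK psR psA anf mu Bf hat)

namespace V2_

theorem ptw (m : ℕ) (y : ℝ≥0∞) (hy : y ≤ 2 ^ (4 * m)) :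
    y ^ 2 ≤ ((2 : ℝ≥0∞) ^ (9 * m))⁻¹ * y + ∑ n ∈ Finset.range (13 * m),
      4 * (2 ^ n * ((2 : ℝ≥0∞) ^ (9 * m))⁻¹) ^ 2 *
        (if 2 ^ n * ((2 : ℝ≥0∞) ^ (9 * m))⁻¹ < y then 1 else 0) := by
  set δ := ((2 : ℝ≥0∞) ^ (9 * m))⁻¹ with hδ
  by_cases h0 : y ≤ δ
  · refine le_trans ?_ (self_le_add_right _ _)
    rw [sq]
    gcongr
  · have hex : ∃ n, y ≤ 2 ^ n * δ := by
      refine ⟨13 * m, hy.trans (le_of_eq ?_)⟩
      rw [hδ, show 13 * m = 4 * m + 9 * m by ring, pow_add, mul_assoc,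
        ENNReal.mul_inv_cancel (by positivity) (by finiteness), mul_one]
    classical
    set n₀ := Nat.find hex with hn₀
    have h1 : y ≤ 2 ^ n₀ * δ := Nat.find_spec hex
    have h2 : n₀ ≠ 0 := by
      intro h
      rw [h, pow_zero, one_mul] at h1
      exact h0 h1
    obtain ⟨n, hn⟩ := Nat.exists_eq_succ_of_ne_zero h2
    have h3 : ¬ y ≤ 2 ^ n * δ := Nat.find_min hex (by omega)
    have h4 : n₀ ≤ 13 * m := Nat.find_min' hex (hy.trans (le_of_eq (by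
      rw [hδ, show 13 * m = 4 * m + 9 * m by ring, pow_add, mul_assoc,
        ENNReal.mul_inv_cancel (by positivity) (by finiteness), mul_one])))
    have h5 : y ≤ 2 * (2 ^ n * δ) := by
      rw [hn, Nat.succ_eq_add_one, pow_succ] at h1
      calc y ≤ _ := h1
        _ = _ := by ring
    refine le_trans ?_ (self_le_add_left _ _)
    refine le_trans ?_ (Finset.single_le_sum (f := fun n => 4 * (2 ^ n * δ) ^ 2 *
        (if 2 ^ n * δ < y then 1 else 0)) (fun _ _ => by positivity)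
        (Finset.mem_range.2 (show n < 13 * m by omega)))
    rw [if_pos (not_le.1 h3), mul_one]
    calc y ^ 2 ≤ (2 * (2 ^ n * δ)) ^ 2 := by gcongr
      _ = _ := by ring

theorem level (e v K δ t : ℝ≥0∞) (he : e ≠ ⊤) (ht0 : t ≠ 0) (ht : t * δ ≤ 1)
    (h1 : t * v ≤ e) (h2 : t * v ≤ K * e ^ (1 / 2 : ℝ) * v ^ (1 / 2 : ℝ) + δ * e) :
    t ^ 2 * v ≤ (4 * K ^ 2 + 2) * e := by
  by_cases hv0 : v = 0
  · simp [hv0]
  have hv : v ≠ ⊤ := by
    intro h
    rw [h, ENNReal.mul_top ht0] at h1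
    exact he (top_le_iff.1 h1)
  have hsq : ∀ z : ℝ≥0∞, (z ^ (1 / 2 : ℝ)) ^ 2 = z := by
    intro z
    rw [← ENNReal.rpow_natCast, ← ENNReal.rpow_mul]
    norm_num
  rcases le_total (δ * e) (K * e ^ (1 / 2 : ℝ) * v ^ (1 / 2 : ℝ)) with h | h
  · have h3 : t * v ≤ 2 * (K * e ^ (1 / 2 : ℝ) * v ^ (1 / 2 : ℝ)) := by
      refine h2.trans ?_
      rw [two_mul]
      gcongr
    have h4 : (t * v) ^ 2 ≤ (2 * (K * e ^ (1 / 2 : ℝ) * v ^ (1 / 2 : ℝ))) ^ 2 := by gcongr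
    have h5 : (2 * (K * e ^ (1 / 2 : ℝ) * v ^ (1 / 2 : ℝ))) ^ 2 = 4 * K ^ 2 * e * v := by
      rw [mul_pow, mul_pow, mul_pow, hsq, hsq]
      ring
    rw [h5, show (t * v) ^ 2 = t ^ 2 * v * v by ring] at h4
    have h6 := (ENNReal.mul_le_mul_iff_left hv0 hv).1 h4
    refine h6.trans ?_
    gcongr
    exact self_le_add_right _ _
  · have h3 : t * v ≤ 2 * (δ * e) := by
      refine h2.trans ?_
      rw [two_mul]
      gcongr
    calc t ^ 2 * v = t * (t * v) := by ring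
      _ ≤ t * (2 * (δ * e)) := by gcongr
      _ = 2 * ((t * δ) * e) := by ring
      _ ≤ 2 * (1 * e) := by gcongr
      _ = 2 * e := by ring
      _ ≤ _ := by
        gcongr
        exact self_le_add_left _ _

theorem core {α : Type*} [MeasurableSpace α] (μ : Measure α) (F : α → ℝ≥0∞) (hF : Measurable F)
    (m : ℕ) (e K : ℝ≥0∞) (he : e ≠ ⊤) (h1 : ∫⁻ x, F x ∂μ ≤ e)
    (h2 : ∀ Z, MeasurableSet Z → ∫⁻ x in Z, F x ∂μ ≤
      K * e ^ (1 / 2 : ℝ) * μ Z ^ (1 / 2 : ℝ) + ((2 : ℝ≥0∞) ^ (9 * m))⁻¹ * e)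
    (h3 : ∀ x, F x ≤ 2 ^ (4 * m)) :
    ∫⁻ x, F x ^ 2 ∂μ ≤ (1 + 52 * m * (4 * K ^ 2 + 2)) * e := by
  set δ := ((2 : ℝ≥0∞) ^ (9 * m))⁻¹ with hδ
  have hδ1 : δ ≤ 1 := by
    rw [hδ, ENNReal.inv_le_one]
    exact one_le_pow₀ (by norm_num)
  have hδ0 : δ ≠ 0 := by
    rw [hδ]
    exact ENNReal.inv_ne_zero.2 (by finiteness)
  have hms : ∀ n : ℕ, MeasurableSet {x | 2 ^ n * δ < F x} := fun n =>
    measurableSet_lt measurable_const hF
  have hint : ∀ n : ℕ, ∫⁻ x, 4 * (2 ^ n * δ) ^ 2 * (if 2 ^ n * δ < F x then 1 else 0) ∂μ =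
      4 * (2 ^ n * δ) ^ 2 * μ {x | 2 ^ n * δ < F x} := by
    intro n
    rw [lintegral_const_mul _ (Measurable.ite (hms n) measurable_const measurable_const)]
    congr 1
    rw [← lintegral_indicator_one (hms n)]
    refine lintegral_congr (fun x => ?_)
    simp only [Set.indicator_apply, Set.mem_ofPred_eq, Pi.one_apply]
  calc ∫⁻ x, F x ^ 2 ∂μ ≤ ∫⁻ x, (δ * F x + ∑ n ∈ Finset.range (13 * m),
      4 * (2 ^ n * δ) ^ 2 * (if 2 ^ n * δ < F x then 1 else 0)) ∂μ :=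
        lintegral_mono (fun x => ptw m (F x) (h3 x))
    _ = δ * ∫⁻ x, F x ∂μ + ∑ n ∈ Finset.range (13 * m),
        4 * (2 ^ n * δ) ^ 2 * μ {x | 2 ^ n * δ < F x} := by
      rw [lintegral_add_left (hF.const_mul _), lintegral_const_mul _ hF,
        lintegral_finsetSum _ (fun n _ => Measurable.const_mul
          (Measurable.ite (hms n) measurable_const measurable_const) _)]
      congr 1
      exact Finset.sum_congr rfl (fun n _ => hint n)
    _ ≤ 1 * e + ∑ n ∈ Finset.range (13 * m), 4 * ((4 * K ^ 2 + 2) * e) := by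
      refine add_le_add (mul_le_mul' hδ1 h1) (Finset.sum_le_sum fun n hn => ?_)
      rw [mul_assoc]
      refine mul_le_mul' le_rfl ?_
      have hn' := Finset.mem_range.1 hn
      have hlow : 2 ^ n * δ * μ {x | 2 ^ n * δ < F x} ≤ ∫⁻ x in {x | 2 ^ n * δ < F x}, F x ∂μ := by
        rw [← setLIntegral_const]
        exact setLIntegral_mono hF (fun x hx => le_of_lt hx)
      refine level e _ K δ (2 ^ n * δ) he (by
        refine mul_ne_zero (by positivity) hδ0) ?_ ?_ (hlow.trans (h2 _ (hms n)))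
      · calc 2 ^ n * δ * δ ≤ 2 ^ (9 * m + 9 * m) * δ * δ := by
              gcongr
              · norm_num
              · omega
          _ = (2 ^ (9 * m) * δ) * (2 ^ (9 * m) * δ) := by rw [pow_add]; ring
          _ ≤ 1 := by
            rw [hδ, ENNReal.mul_inv_cancel (by positivity) (by finiteness)]
            simp
      · exact hlow.trans ((setLIntegral_le_lintegral _ _).trans h1)
    _ = _ := by
      rw [Finset.sum_const, Finset.card_range, nsmul_eq_mul]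
      push_cast
      ring

theorem m_large (a m : ℕ) (h : PA a m) : 3 + 12 * a ≤ m := by
  obtain ⟨h1, -, h3⟩ := h
  obtain ⟨b, rfl⟩ := Nat.exists_eq_add_of_le h1
  have h4 : b < 2 ^ b := Nat.lt_two_pow_self
  rw [pow_add] at h3
  norm_num at h3
  omega

theorem F_le (a m l : ℕ) (sg sl : ℝ) (w : ℕ → ℝ × ℝ → ℂ) (hVB : tVB) (hHP : HP a m l sg sl)
    (hFm : Fm w) (x : ℝ × ℝ) :
    ∑ c ∈ CC l, ∑ p ∈ PP a l, VV a m sg sl l (w c) c p x ≤ 2 ^ (4 * m) := by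
  have h1 : ∀ c ∈ CC l, ∀ p ∈ PP a l, VV a m sg sl l (w c) c p x ≤ 2 ^ (4 * a) := by
    intro c hc p hp
    have h2 := ((hVB a m l sg sl (w c) hHP (hFm.1 c).1).1 c hc p hp).2.2.1 1 (hFm.1 c).2 x
    rw [mul_one] at h2
    have h3 : ‖vv a m sg sl l (w c) c p x‖ₑ ≤ 2 ^ (2 * a) := by
      rw [← ofReal_norm]
      refine (ENNReal.ofReal_le_ofReal h2).trans (le_of_eq ?_)
      rw [ENNReal.ofReal_pow (by norm_num)]
      norm_num
    unfold VV
    calc _ ≤ ((2 : ℝ≥0∞) ^ (2 * a)) ^ 2 := by gcongr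
      _ = _ := by rw [← pow_mul]; congr 1; ring
  calc ∑ c ∈ CC l, ∑ p ∈ PP a l, VV a m sg sl l (w c) c p x
      ≤ ∑ c ∈ CC l, ∑ p ∈ PP a l, (2 : ℝ≥0∞) ^ (4 * a) :=
        Finset.sum_le_sum (fun c hc => Finset.sum_le_sum (fun p hp => h1 c hc p hp))
    _ = (((2 * 4 ^ l) * (3 * 2 ^ (l + 8 * a)) * 2 ^ (4 * a) : ℕ) : ℝ≥0∞) := by
      simp only [Finset.sum_const, CC, PP, Finset.card_range, nsmul_eq_mul]
      push_cast
      ring
    _ ≤ ((2 ^ (4 * m) : ℕ) : ℝ≥0∞) := by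
      have hm := m_large a m hHP.1
      have hl : l ≤ m := hHP.2.2.1
      have h5 : (2 * 4 ^ l) * (3 * 2 ^ (l + 8 * a)) * 2 ^ (4 * a) = 6 * 2 ^ (3 * l + 12 * a) := by
        rw [show (4 : ℕ) = 2 ^ 2 by norm_num, ← pow_mul]
        ring
      rw [h5]
      have h6 : 6 * 2 ^ (3 * l + 12 * a) ≤ 2 ^ 3 * 2 ^ (3 * l + 12 * a) :=
        Nat.mul_le_mul_right _ (by norm_num)
      have h7 : 2 ^ 3 * 2 ^ (3 * l + 12 * a) ≤ 2 ^ (4 * m) := by
        rw [← pow_add]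
        exact Nat.pow_le_pow_right (by norm_num) (by omega)
      exact_mod_cast h6.trans h7
    _ = _ := by push_cast; rfl

theorem meas_EE (l : ℕ) (w : ℕ → ℝ × ℝ → ℂ) (hFm : Fm w) :
    MeasurableSet (EE l w) ∧ volume (EE l w) < ⊤ := by
  have h1 : EE l w = ⋃ c ∈ CC l, {x | w c x ≠ 0} := by
    ext x
    simp [EE]
  have hm : ∀ c, MeasurableSet {x | w c x ≠ 0} := fun c =>
    ((hFm.1 c).1.1 (measurableSet_singleton (0 : ℂ))).compl
  rw [h1]
  refine ⟨Finset.measurableSet_biUnion _ (fun c _ => hm c), ?_⟩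
  refine (measure_biUnion_finset_le _ _).trans_lt ?_
  exact ENNReal.sum_lt_top.2 (fun c _ => (hFm.1 c).1.2.2)

theorem int_F (a m l : ℕ) (sg sl : ℝ) (w : ℕ → ℝ × ℝ → ℂ) (hVB : tVB) (hHP : HP a m l sg sl)
    (hFm : Fm w) (hmeas : ∀ c ∈ CC l, ∀ p ∈ PP a l, Measurable (VV a m sg sl l (w c) c p)) :
    ∫⁻ x, ∑ c ∈ CC l, ∑ p ∈ PP a l, VV a m sg sl l (w c) c p x ≤ volume (EE l w) := by
  rw [lintegral_finsetSum _ (fun c hc => Finset.measurable_sum _ (fun p hp => hmeas c hc p hp))]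
  have h1 : ∀ c ∈ CC l, ∫⁻ x, ∑ p ∈ PP a l, VV a m sg sl l (w c) c p x ≤
      ∫⁻ x, ‖w c x‖ₑ ^ 2 := by
    intro c hc
    rw [lintegral_finsetSum _ (fun p hp => hmeas c hc p hp)]
    refine le_trans ?_ (hVB a m l sg sl (w c) hHP (hFm.1 c).1).2.2
    exact Finset.single_le_sum (f := fun c' => ∑ p ∈ PP a l, ∫⁻ x,
      VV a m sg sl l (w c) c' p x) (fun _ _ => zero_le) hc
  refine (Finset.sum_le_sum h1).trans ?_
  rw [← lintegral_finsetSum _ (fun c _ => ((hFm.1 c).1.1.enorm.pow_const 2))]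
  rw [← lintegral_indicator_one (meas_EE l w hFm).1]
  refine lintegral_mono (fun x => ?_)
  by_cases hx : x ∈ EE l w
  · rw [Set.indicator_of_mem hx]
    obtain ⟨c, hc, hcx⟩ := hx
    rw [Finset.sum_eq_single_of_mem c hc]
    · have h2 := (hFm.1 c).2 x
      have h3 : ‖w c x‖ₑ ≤ 1 := by
        rw [← ofReal_norm]
        exact ENNReal.ofReal_le_one.2 h2
      simpa using pow_le_one' h3 2
    · intro c' _ hne
      by_cases h : w c' x = 0
      · simp [h]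
      · exact absurd (hFm.2 x c' c h hcx) hne
  · rw [Set.indicator_of_notMem hx]
    refine le_of_eq (Finset.sum_eq_zero (fun c hc => ?_))
    have : w c x = 0 := by
      by_contra h
      exact hx ⟨c, hc, h⟩
    simp [this]

end V2_

open V2_ in
theorem pV2 (h_K0 : tK0) (h_VB : tVB) : tV2 := by
  obtain ⟨C, hC⟩ := h_K0
  refine ⟨1 + 52 * (4 * C ^ 2 + 2), ?_⟩
  intro a m l sg sl w hHP hFm
  have hmeas : ∀ c ∈ CC l, ∀ p ∈ PP a l, Measurable (VV a m sg sl l (w c) c p) := by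
    intro c hc p hp
    have := ((h_VB a m l sg sl (w c) hHP (hFm.1 c).1).1 c hc p hp).1
    exact this.measurable.enorm.pow_const 2
  have hF : Measurable (fun x => ∑ c ∈ CC l, ∑ p ∈ PP a l, VV a m sg sl l (w c) c p x) :=
    Finset.measurable_sum _ (fun c hc => Finset.measurable_sum _ (fun p hp => hmeas c hc p hp))
  have hδ : ENNReal.ofReal (1 / 2 ^ (9 * m)) = ((2 : ℝ≥0∞) ^ (9 * m))⁻¹ := by
    rw [one_div, ENNReal.ofReal_inv_of_pos (by positivity), ENNReal.ofReal_pow (by norm_num)]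
    norm_num
  have h := core volume _ hF m (volume (EE l w)) (C * 2 ^ (34 * a)) (meas_EE l w hFm).2.ne
    (int_F a m l sg sl w h_VB hHP hFm hmeas)
    (fun Z hZ => by
      have := hC a m l sg sl w Z hHP hFm hZ
      rwa [hδ] at this)
    (F_le a m l sg sl w h_VB hHP hFm)
  refine h.trans ?_
  gcongr
  have hm : (m : ℝ≥0∞) ≤ 2 ^ a := by
    exact_mod_cast hHP.1.2.1.le
  have h2a : (1 : ℝ≥0∞) ≤ 2 ^ a := one_le_pow₀ (by norm_num)
  have h1 : (4 * ((C : ℝ≥0∞) * 2 ^ (34 * a)) ^ 2 + 2) ≤ (4 * (C : ℝ≥0∞) ^ 2 + 2) * 2 ^ (68 * a) := by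
    rw [add_mul]
    refine add_le_add (le_of_eq ?_) ?_
    · rw [mul_pow, ← pow_mul, show 34 * a * 2 = 68 * a by ring]
      ring
    · exact le_mul_of_one_le_right (by positivity) (one_le_pow₀ (by norm_num))
  calc 1 + 52 * (m : ℝ≥0∞) * (4 * ((C : ℝ≥0∞) * 2 ^ (34 * a)) ^ 2 + 2)
      ≤ 1 * 2 ^ (70 * a) + 52 * 2 ^ a * ((4 * (C : ℝ≥0∞) ^ 2 + 2) * 2 ^ (68 * a)) := by
        refine add_le_add ?_ (mul_le_mul' (mul_le_mul' le_rfl hm) h1)
        rw [one_mul]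
        exact one_le_pow₀ (by norm_num)
    _ = 1 * 2 ^ (70 * a) + 52 * (4 * (C : ℝ≥0∞) ^ 2 + 2) * 2 ^ (69 * a) := by
        rw [show 69 * a = a + 68 * a by ring, pow_add]
        ring
    _ ≤ 1 * 2 ^ (70 * a) + 52 * (4 * (C : ℝ≥0∞) ^ 2 + 2) * 2 ^ (70 * a) := by
        gcongr
        · norm_num
        · norm_num
    _ = _ := by push_cast; ring

end Pool.Agent.SLog
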