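import Pool.Agent.SLog.Targets
import Pool.Agent.KSP.Base

set_option autoImplicit false

/-! SLG-WKA: weak type bound for the operators `AF`. -/

namespace Pool.Agent.SLog

open MeasureTheory Set
open scoped ENNReal NNReal ComplexConjugate
open Pool.Agent.KSP (ee dot nr Ex Ex1 Bd Bd1 n1 n2 lg V0 ann)
open Pool.Agent.LLog (PA cd cdr cp fr tp Nn nv tv Core bx sa sd Qx kc psi kap GK psR psA anf mu Bf hat)

namespace WKA_

lemma nr_meas : Measurable nr := by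
  unfold nr
  exact ((measurable_fst.pow_const 2).add (measurable_snd.pow_const 2)).sqrt

lemma ann_meas (x y : ℝ) : MeasurableSet (ann x y) :=
  (measurableSet_le measurable_const nr_meas).inter (measurableSet_lt nr_meas measurable_const)

lemma bd_ind {h : ℝ × ℝ → ℂ} (hh : Bd h) {S : Set (ℝ × ℝ)} (hS : MeasurableSet S) :
    Bd (S.indicator h) := by
  obtain ⟨h1, ⟨B, hB⟩, R, hR⟩ := hh
  refine ⟨h1.indicator hS, ⟨B, fun ξ => ?_⟩, R, fun ξ h0 => ?_⟩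
  · by_cases hx : ξ ∈ S
    · rw [indicator_of_mem hx]
      exact hB ξ
    · rw [indicator_of_notMem hx, norm_zero]
      exact (norm_nonneg _).trans (hB ξ)
  · by_cases hx : ξ ∈ S
    · rw [indicator_of_mem hx] at h0
      exact hR ξ h0
    · rw [indicator_of_notMem hx] at h0
      exact absurd rfl h0

lemma bd_mul {μ h : ℝ × ℝ → ℂ} (hμ : Bd μ) (hh : Measurable h) (hb : ∃ B : ℝ, ∀ ξ, ‖h ξ‖ ≤ B) :
    Bd (fun ξ => μ ξ * h ξ) := by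
  obtain ⟨m1, ⟨B1, b1⟩, R, hR⟩ := hμ
  obtain ⟨B2, b2⟩ := hb
  refine ⟨m1.mul hh, ⟨B1 * B2, ?_⟩, R, ?_⟩
  · intro ξ
    rw [norm_mul]
    exact mul_le_mul (b1 ξ) (b2 ξ) (norm_nonneg _) ((norm_nonneg _).trans (b1 ξ))
  · intro ξ h0
    exact hR ξ (left_ne_zero_of_mul h0)

/-- `x ↦ F (k x) x` is measurable -/
lemma comp_meas {k : ℝ × ℝ → ℕ} (hk : Measurable k) {F : ℕ → ℝ × ℝ → ℂ}
    (hF : ∀ n, Measurable (F n)) : Measurable (fun x => F (k x) x) := by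
  have h1 : Measurable (fun P : (ℝ × ℝ) × ℕ => F P.2 P.1) :=
    measurable_from_prod_countable_left fun n => hF n
  exact h1.comp (measurable_id.prodMk hk)

/-- the sum of a function with weak type bound and a function in `L²` -/
lemma split {A S : ℝ × ℝ → ℂ} {M : ℝ × ℝ → ℝ≥0∞} {lam : ℝ≥0∞} {X Y : ℝ≥0∞}
    (hA : Measurable A) (hS : Measurable S) (hM : ∀ x, ‖S x‖ₑ ≤ M x)
    (h1 : (lam / 2) ^ 2 * volume {x | lam / 2 < M x} ≤ X)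
    (h2 : ∫⁻ x, ‖S x - A x‖ₑ ^ 2 ≤ Y) :
    lam ^ 2 * volume {x | lam < ‖A x‖ₑ} ≤ 4 * X + 4 * Y := by
  have hsub : {x | lam < ‖A x‖ₑ} ⊆ {x | lam / 2 < M x} ∪
      {x | (lam / 2) ^ 2 ≤ ‖S x - A x‖ₑ ^ 2} := by
    intro x hx
    by_contra hn
    simp only [mem_union, Set.mem_ofPred_eq, not_or, not_lt, not_le] at hn hx
    obtain ⟨n1, n2⟩ := hn
    have n3 : ‖S x - A x‖ₑ < lam / 2 := by
      by_contra hc
      have hc' := not_lt.1 hc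
      exact absurd n2 (not_lt.2 (pow_le_pow_left' hc' 2))
    have e : ‖A x‖ₑ ≤ ‖S x‖ₑ + ‖S x - A x‖ₑ := by
      have : A x = S x - (S x - A x) := by ring
      calc ‖A x‖ₑ = ‖S x - (S x - A x)‖ₑ := by rw [← this]
        _ ≤ _ := enorm_sub_le
    have : ‖A x‖ₑ ≤ lam := by
      calc ‖A x‖ₑ ≤ ‖S x‖ₑ + ‖S x - A x‖ₑ := e
        _ ≤ lam / 2 + lam / 2 := add_le_add ((hM x).trans n1) n3.le
        _ = lam := ENNReal.add_halves lam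
    exact absurd hx (not_lt.2 this)
  have h3 : (lam / 2) ^ 2 * volume {x | (lam / 2) ^ 2 ≤ ‖S x - A x‖ₑ ^ 2} ≤ Y :=
    (mul_meas_ge_le_lintegral ((hS.sub hA).enorm.pow_const 2) _).trans h2
  have e4 : lam ^ 2 = 4 * (lam / 2) ^ 2 := by
    have : lam = 2 * (lam / 2) := by
      rw [ENNReal.mul_div_cancel (by norm_num) (by norm_num)]
    calc lam ^ 2 = (2 * (lam / 2)) ^ 2 := by rw [← this]
      _ = 4 * (lam / 2) ^ 2 := by rw [mul_pow]; norm_num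
  calc lam ^ 2 * volume {x | lam < ‖A x‖ₑ}
      ≤ lam ^ 2 * (volume {x | lam / 2 < M x} +
          volume {x | (lam / 2) ^ 2 ≤ ‖S x - A x‖ₑ ^ 2}) := by
        gcongr
        exact (measure_mono hsub).trans (measure_union_le _ _)
    _ = 4 * ((lam / 2) ^ 2 * volume {x | lam / 2 < M x}) +
          4 * ((lam / 2) ^ 2 * volume {x | (lam / 2) ^ 2 ≤ ‖S x - A x‖ₑ ^ 2}) := by
        rw [e4]; ring
    _ ≤ 4 * X + 4 * Y := by gcongr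

end WKA_

open WKA_

theorem pWKA (hW : Pool.Agent.LLog.tWV) (hD : tDIF) (hCh : tCHI) : tWKA := by
  obtain ⟨C1, hW⟩ := hW
  obtain ⟨C2, hD⟩ := hD
  refine ⟨4 * C1 + 4 * C2, ?_⟩
  intro a m sg sl k H G lam hPA ha hs0 hs1 hl1 hl2 hk hk2 hH hHb hG hCore
  obtain ⟨hAm, hdif⟩ := hD a m sg sl k H G hPA hs0 hs1 hl1 hl2 hk hk2 hH hHb hG hCore
  obtain ⟨-, c01, -, csup, cBd, -, -⟩ := hCh a m hPA
  have hBd : Bd (fun ξ => (chi m ξ : ℂ) * H ξ) := bd_mul cBd hH hHb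
  have ha1 : 20 ≤ a := hPA.1
  have hm : 1 ≤ m := by
    have h2 : 2 ^ a ≤ 2 * m := hPA.2.2
    have h3 : 1 ≤ 2 ^ a := Nat.one_le_two_pow
    omega
  have hV : ∀ ξ, (fun ξ => (chi m ξ : ℂ) * H ξ) ξ ≠ 0 → ξ ∈ V0 := by
    intro ξ h0
    have h1 : chi m ξ ≠ 0 := by
      intro h
      apply h0
      simp only [h, Complex.ofReal_zero, zero_mul]
    obtain ⟨k1, k2, k3⟩ := csup ξ h1
    have k4 := abs_le.1 k3
    have hsq : ξ.2 ^ 2 ≤ 1 / 4 := by nlinarith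
    refine ⟨by linarith, ?_, ?_⟩
    · rw [nr]
      apply Real.le_sqrt_of_sq_le
      nlinarith [sq_nonneg ξ.2]
    · rw [nr]
      rw [Real.sqrt_lt' (by norm_num)]
      nlinarith
  set S : ℝ × ℝ → ℂ := fun x => Ex ((ann 1 (1 + k x / 4 ^ m)).indicator
    (fun ξ => (chi m ξ : ℂ) * H ξ)) x with hS
  have hSm : Measurable S := by
    refine comp_meas (F := fun n x => Ex ((ann 1 (1 + (n : ℝ) / 4 ^ m)).indicator
      (fun ξ => (chi m ξ : ℂ) * H ξ)) x) hk ?_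
    intro n
    exact (Pool.Agent.KSP.pPl2 _ (bd_ind hBd (ann_meas _ _))).1.measurable
  have h1 := hW m (fun ξ => (chi m ξ : ℂ) * H ξ) ((lam : ℝ≥0∞) / 2) hm hBd hV
  have hn2 : n2 (fun ξ => (chi m ξ : ℂ) * H ξ) ≤ ∫⁻ ξ, ‖H ξ‖ₑ ^ 2 := by
    rw [n2]
    refine lintegral_mono fun ξ => ?_
    have h3 : ‖(chi m ξ : ℂ)‖ₑ ≤ 1 := by
      rw [← ofReal_norm]
      refine ENNReal.ofReal_le_one.2 ?_
      rw [Complex.norm_real, Real.norm_eq_abs, abs_le]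
      exact ⟨by linarith [(c01 ξ).1], (c01 ξ).2⟩
    calc ‖(chi m ξ : ℂ) * H ξ‖ₑ ^ 2 = (‖(chi m ξ : ℂ)‖ₑ * ‖H ξ‖ₑ) ^ 2 := by rw [enorm_mul]
      _ ≤ (1 * ‖H ξ‖ₑ) ^ 2 := by gcongr
      _ = ‖H ξ‖ₑ ^ 2 := by rw [one_mul]
  have h2 := split (A := AF a m sg sl k H) (S := S)
    (M := fun x => ⨆ k ∈ Finset.range (4 ^ m),
      ‖Ex ((ann 1 (1 + (k : ℝ) / 4 ^ m)).indicator (fun ξ => (chi m ξ : ℂ) * H ξ)) x‖ₑ)
    hAm hSm ?_ h1 hdif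
  · refine h2.trans ?_
    rw [← ha]
    have ha11 : (a : ℝ≥0∞) ^ 2 ≤ (a : ℝ≥0∞) ^ 11 := by
      refine pow_le_pow_right₀ ?_ (by norm_num)
      exact_mod_cast (by omega : 1 ≤ a)
    set I := ∫⁻ ξ, ‖H ξ‖ₑ ^ 2 with hI
    set J := ∫⁻ ξ in {ξ | chi m ξ ≠ 0} \ G, ‖H ξ‖ₑ ^ 2 with hJ
    calc 4 * (C1 * (a : ℝ≥0∞) ^ 11 * n2 (fun ξ => (chi m ξ : ℂ) * H ξ)) +
          4 * (C2 * (a : ℝ≥0∞) ^ 2 * I + C2 * (m : ℝ≥0∞) ^ 2 * J)
        ≤ 4 * (C1 * (a : ℝ≥0∞) ^ 11 * I) +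
          4 * (C2 * (a : ℝ≥0∞) ^ 11 * I + C2 * (m : ℝ≥0∞) ^ 2 * J) := by gcongr
      _ = (4 * C1 + 4 * C2) * (a : ℝ≥0∞) ^ 11 * I + 4 * C2 * (m : ℝ≥0∞) ^ 2 * J := by ring
      _ ≤ (4 * C1 + 4 * C2) * (a : ℝ≥0∞) ^ 11 * I +
          (4 * C1 + 4 * C2) * (m : ℝ≥0∞) ^ 2 * J := by
          gcongr
          exact le_add_self
      _ = _ := by push_cast; ring
  · intro x
    exact le_iSup₂_of_le (k x) (Finset.mem_range.2 (hk2 x)) le_rfl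

end Pool.Agent.SLog
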