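import Pool.Agent.LLog.All
import Pool.Agent.KSP.All2
import Pool.Agent.SLog.AVG
import Pool.Agent.SLog.BDZ
import Pool.Agent.SLog.BES
import Pool.Agent.SLog.BXV
import Pool.Agent.SLog.CHI
import Pool.Agent.SLog.CHN
import Pool.Agent.SLog.CNT
import Pool.Agent.SLog.D
import Pool.Agent.SLog.DIF
import Pool.Agent.SLog.E
import Pool.Agent.SLog.EBS
import Pool.Agent.SLog.ETA
import Pool.Agent.SLog.ETP
import Pool.Agent.SLog.FRQ
import Pool.Agent.SLog.HBB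
import Pool.Agent.SLog.INT
import Pool.Agent.SLog.K0
import Pool.Agent.SLog.KKM
import Pool.Agent.SLog.KN
import Pool.Agent.SLog.KQ
import Pool.Agent.SLog.KRN
import Pool.Agent.SLog.KS
import Pool.Agent.SLog.L4
import Pool.Agent.SLog.LCP
import Pool.Agent.SLog.LGT
import Pool.Agent.SLog.MAI
import Pool.Agent.SLog.MUC
import Pool.Agent.SLog.MUP
import Pool.Agent.SLog.OM
import Pool.Agent.SLog.OP
import Pool.Agent.SLog.OVL
import Pool.Agent.SLog.PPP
import Pool.Agent.SLog.PQ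
import Pool.Agent.SLog.PRG
import Pool.Agent.SLog.REM
import Pool.Agent.SLog.SBR
import Pool.Agent.SLog.SCP
import Pool.Agent.SLog.SQL
import Pool.Agent.SLog.SV
import Pool.Agent.SLog.TEL
import Pool.Agent.SLog.THN
import Pool.Agent.SLog.TRV
import Pool.Agent.SLog.UND
import Pool.Agent.SLog.UNP
import Pool.Agent.SLog.V2
import Pool.Agent.SLog.VB
import Pool.Agent.SLog.WKA
import Pool.Agent.SLog.EKE
import Pool.Agent.SLog.EETM
import Pool.Agent.SLog.ESM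
import Pool.Agent.SLog.ESS
import Pool.Agent.SLog.EDS
import Pool.Agent.SLog.EFA0
import Pool.Agent.SLog.EFA1
import Pool.Agent.SLog.EFB
import Pool.Agent.SLog.BR4

set_option autoImplicit false

/-! Strong type bound with `(log m)^12` (MP_ee701d_an): the composition of all parts. -/

namespace Pool.Agent.SLog

open Pool.Agent.LLog (aKAP aGK aMUS aMUK pHAT pCVK pYNG pFRM pPRD pPSI pMAV pGEO pKAK pRMG pSHF fWV)
open Pool.Agent.KSP (pPl2 fL)

theorem fCHI : tCHI := pCHI (pPSI pMAV) (pPRD pFRM)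

theorem fMUP : tMUP := pMUP fCHI aMUS aMUK pCVK pGEO (pPSI pMAV) pFRM

theorem fMUC : tMUC := pMUC fCHI aMUS (pPSI pMAV)

theorem fSCP : tSCP := pSCP aGK

theorem fLCP : tLCP := pLCP fSCP aGK

theorem fVB : tVB := pVB fMUP pBXV pCVK pHAT

theorem fETA : tETA := pETA aKAP (pPRD pFRM) pCVK pFRM pHAT

theorem fETP : tETP := pETP fETA pAVG

theorem fKRN : tKRN := pKRN fMUP pCVK pYNG pAVG pPl2

theorem fUNP : tUNP := pUNP fMUP pBXV fL

theorem fUND : tUND := pUND pHAT fMUP fVB fUNP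

theorem fPRG : tPRG := pPRG pHAT fKRN fLCP fMUP pBXV fVB

theorem fFRQ : tFRQ := pFRQ pCHN fETA fETP pSBR pBXV fMUP fVB

theorem fLGT : tLGT := pLGT fPRG fETP fETA pAVG fFRQ fVB

theorem fHBB : tHBB := pHBB pAVG pSBR

theorem fREM : tREM := pREM fPRG fETP fETA pAVG fHBB fFRQ fVB

theorem fOVL : tOVL := pOVL fETP pAVG fVB

theorem fKKM : tKKM := pKKM pKAK pAVG

theorem fPPP : tPPP := pPPP fCHI (pPSI pMAV) (pPRD pFRM) pCVK pGEO

theorem fKQ : tKQ := pKQ fMUP pBXV pTHN pCVK pYNG pHAT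

theorem fK0 : tK0 := pK0 fKQ fKKM

theorem fKN : tKN := pKN fKQ fKKM pAVG pSBR fVB

theorem fV2 : tV2 := pV2 fK0 fVB

theorem fBDZ : tBDZ := pBDZ fLCP fFRQ pBXV fOVL fK0 fKN pAVG fVB fETA fETP

theorem fMAI : tMAI := pMAI (pL4 pCNT) fFRQ fOVL fV2 fETA fETP pAVG fVB

theorem fD : tD := pD pPQ fUND fLGT fREM fBDZ fMAI fFRQ fVB fKN

theorem fEBS : tEBS := pEBS pBES fMUC fPPP (pPSI pMAV) pFRM pHAT

theorem fSQL : tSQL := pSQL fPPP pHAT pCVK pYNG

theorem fE : tE := pE pPQ fUNP fLCP fEBS fSQL fKKM fVB pBXV fMUP pHAT pFRM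

theorem fTRV : tTRV := pTRV fMUP pBXV fVB pCVK

theorem fTEL : tTEL := pTEL fMUC fMUP pBXV

theorem fDIF : tDIF := pDIF fCHI fMUP fTRV fTEL pRMG

theorem fOP : tOP := pOP fD fTRV fVB fMUP pHAT

theorem fOM : tOM := pOM fE fTRV pHAT

theorem fWKA : tWKA := pWKA fWV fDIF fCHI

/-- strong type (2,2) of the sums over `2^m` radii, `(log m)^12` -/
theorem fSV : tSV :=
  pSV fCHI fMUP fTRV pHAT pCVK pYNG pSHF pRMG fOP fOM pINT fDIF fWKA

theorem fKs : tKs 12 := pKS12 fSV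

end Pool.Agent.SLog

namespace Pool.Agent.SEnd

open Pool.Agent.KSP (pPlE pSobI pEt0 pPt fAH)
open Pool.Agent.SLog (tKs)

theorem gKE {α : ℕ} (h : tKs α) : tKEs α := pKEs α h

theorem gSm {α : ℕ} (h : tKs α) : tSms α := pSms α (pEtms α pPlE (gKE h) pSobI) (pEt0 pPlE pSobI)

theorem gSS {α : ℕ} (h : tKs α) : tSSs α := pSSs α (gSm h)

theorem gDS {α : ℕ} (h : tKs α) : tDSs α := pDSs α (gSS h) pPlE

theorem gFA0 {α : ℕ} (h : tKs α) : tFA0s α := pFA0s α pPt (gSm h) fAH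

theorem gFA1 {α : ℕ} (h : tKs α) : tFA1s α := pFA1s α (gFA0 h)

theorem gFB {α : ℕ} (h : tKs α) : tFBs α := pFBs α pPt (gSS h)

theorem fDSs : tDSs 12 := gDS Pool.Agent.SLog.fKs

theorem fFA1s : tFA1s 12 := gFA1 Pool.Agent.SLog.fKs

theorem fFBs : tFBs 12 := gFB Pool.Agent.SLog.fKs

theorem fBRs : tBRs 12 := pBRs fDSs pPlE

end Pool.Agent.SEnd

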