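import Pool.Agent.SLog.EndTargets
import Pool.Agent.KSP.DS
import Pool.Agent.MBS.J9

set_option autoImplicit false

/-! Bochner-Riesz means of order `δ`, `0 < δ ≤ 1`, as averages of ball partial sums. -/

namespace Pool.Agent.SEnd

open MeasureTheory FourierTransform Set Filter Topology
open scoped ENNReal NNReal
open Pool.Agent.MBS (E ex S)
open Pool.Agent.KSP (IE BdE tPlE)

/-- Bochner-Riesz mean of order `δ` -/
noncomputable def BRm (δ : ℝ) (f : E 2 → ℂ) (R : ℝ) (x : E 2) : ℂ :=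
  ∫ ξ in Metric.closedBall (0 : E 2) R, (((1 - ‖ξ‖ ^ 2 / R ^ 2) ^ δ : ℝ) : ℂ) * (𝓕 f ξ * ex x ξ)

namespace BR_

lemma int_w {δ : ℝ} (hδ : 0 < δ) {a : ℝ} (ha : 0 ≤ a) (ha1 : a ≤ 1) :
    ∫ s in Ioo (0 : ℝ) 1, (Iic a).indicator (fun s => δ * s ^ (δ - 1)) s = a ^ δ := by
  rw [setIntegral_indicator measurableSet_Iic]
  have h1 : (Ioo (0 : ℝ) 1 ∩ Iic a : Set ℝ) =ᵐ[volume] (Ioc 0 a : Set ℝ) := by
    have h2 : Ioc (0 : ℝ) 1 ∩ Iic a = Ioc 0 a := by
      ext s
      simp only [mem_inter_iff, mem_Ioc, mem_Iic]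
      constructor
      · rintro ⟨⟨h1, _⟩, h3⟩
        exact ⟨h1, h3⟩
      · rintro ⟨h1, h3⟩
        exact ⟨⟨h1, h3.trans ha1⟩, h3⟩
    rw [← h2]
    exact Ioo_ae_eq_Ioc.inter (ae_eq_refl _)
  rw [setIntegral_congr_set h1, ← intervalIntegral.integral_of_le ha,
    intervalIntegral.integral_const_mul, integral_rpow (Or.inl (by linarith))]
  rw [sub_add_cancel, Real.zero_rpow hδ.ne', sub_zero]
  field_simp

lemma integ_w {δ : ℝ} (hδ : 0 < δ) : IntegrableOn (fun s : ℝ => δ * s ^ (δ - 1)) (Ioo 0 1) := by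
  have h := (intervalIntegral.intervalIntegrable_rpow' (a := 0) (b := 1) (r := δ - 1)
    (by linarith)).const_mul δ
  rw [intervalIntegrable_iff_integrableOn_Ioo_of_le zero_le_one] at h
  exact h

lemma lint_w {δ : ℝ} (hδ : 0 < δ) :
    ∫⁻ s in Ioo (0 : ℝ) 1, ENNReal.ofReal (δ * s ^ (δ - 1)) = 1 := by
  rw [← ofReal_integral_eq_lintegral_ofReal (integ_w hδ)]
  · have h := int_w hδ zero_le_one le_rfl
    have h2 : ∫ s in Ioo (0 : ℝ) 1, (Iic (1 : ℝ)).indicator (fun s => δ * s ^ (δ - 1)) s =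
        ∫ s in Ioo (0 : ℝ) 1, δ * s ^ (δ - 1) := by
      refine setIntegral_congr_fun measurableSet_Ioo fun s hs => ?_
      exact indicator_of_mem (by exact hs.2.le) _
    rw [← h2, h, Real.one_rpow, ENNReal.ofReal_one]
  · refine (ae_restrict_iff' measurableSet_Ioo).2 (Eventually.of_forall fun s hs => ?_)
    have := Real.rpow_nonneg hs.1.le (δ - 1)
    positivity

/-- joint measurability of the partial sums -/
lemma meas_S {f : E 2 → ℂ} (hf : Integrable f) :
    Measurable (fun p : ℝ × E 2 => S f p.1 p.2) := by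
  have hH : Continuous (𝓕 f) := MBS.J8.fourier_cont hf
  have hexc : Continuous (fun q : (ℝ × E 2) × E 2 => ex q.1.2 q.2) :=
    MBS.ex_continuous.comp ((continuous_snd.comp continuous_fst).prodMk continuous_snd)
  have h1 : StronglyMeasurable (fun q : (ℝ × E 2) × E 2 =>
      ({q : (ℝ × E 2) × E 2 | ‖q.2‖ ≤ q.1.1}.indicator
        (fun q => 𝓕 f q.2 * ex q.1.2 q.2)) q) := by
    refine Measurable.stronglyMeasurable (Measurable.indicator ?_ ?_)
    · exact ((hH.comp continuous_snd).mul hexc).measurable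
    · exact (isClosed_le (by fun_prop) (by fun_prop)).measurableSet
  have h2 := h1.integral_prod_right' (ν := (volume : Measure (E 2)))
  have h3 : (fun p : ℝ × E 2 => S f p.1 p.2) = fun p => ∫ ξ : E 2,
      ({q : (ℝ × E 2) × E 2 | ‖q.2‖ ≤ q.1.1}.indicator
        (fun q => 𝓕 f q.2 * ex q.1.2 q.2)) (p, ξ) := by
    funext p
    simp only [S]
    rw [← integral_indicator Metric.isClosed_closedBall.measurableSet]
    refine integral_congr_ae (Eventually.of_forall fun ξ => ?_)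
    show (Metric.closedBall 0 p.1).indicator (fun ξ => 𝓕 f ξ * ex p.2 ξ) ξ =
      {q : (ℝ × E 2) × E 2 | ‖q.2‖ ≤ q.1.1}.indicator (fun q => 𝓕 f q.2 * ex q.1.2 q.2) (p, ξ)
    by_cases h4 : ‖ξ‖ ≤ p.1
    · rw [indicator_of_mem (mem_closedBall_zero_iff.2 h4), indicator_of_mem (by exact h4)]
    · rw [indicator_of_notMem (fun h => h4 (mem_closedBall_zero_iff.1 h)),
        indicator_of_notMem (by exact h4)]
  rw [h3]
  exact h2.measurable

/-- the kernel of the representation -/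
noncomputable def Fk (δ : ℝ) (f : E 2 → ℂ) (R : ℝ) (x : E 2) (ξ : E 2) (s : ℝ) : ℂ :=
  ((Iic (1 - ‖ξ‖ ^ 2 / R ^ 2)).indicator (fun s => δ * s ^ (δ - 1)) s : ℝ) * (𝓕 f ξ * ex x ξ)

lemma Fk_int {δ : ℝ} (hδ : 0 < δ) {f : E 2 → ℂ} (hf : Integrable f) (R : ℝ) (x : E 2) :
    Integrable (Function.uncurry (Fk δ f R x))
      ((volume.restrict (Metric.closedBall (0 : E 2) R)).prod
        (volume.restrict (Ioo (0 : ℝ) 1))) := by
  have hH : Continuous (𝓕 f) := MBS.J8.fourier_cont hf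
  obtain ⟨B, hB⟩ := (isCompact_closedBall (0 : E 2) R).exists_bound_of_continuousOn
    (f := 𝓕 f) hH.continuousOn
  have hex : Continuous fun ξ : E 2 => ex x ξ :=
    MBS.ex_continuous.comp (Continuous.prodMk_right x)
  have hfin : IsFiniteMeasure (volume.restrict (Metric.closedBall (0 : E 2) R)) :=
    ⟨by rw [Measure.restrict_apply_univ]; exact measure_closedBall_lt_top⟩
  have hint : Integrable (fun p : E 2 × ℝ => (max B 0) * (δ * p.2 ^ (δ - 1)))
      ((volume.restrict (Metric.closedBall (0 : E 2) R)).prod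
        (volume.restrict (Ioo (0 : ℝ) 1))) :=
    Integrable.mul_prod (f := fun _ : E 2 => max B 0) (integrable_const _) (integ_w hδ)
  refine Integrable.mono' hint ?_ ?_
  · refine Measurable.aestronglyMeasurable ?_
    unfold Fk Function.uncurry
    refine Measurable.mul ?_ ((hH.comp continuous_fst).mul (hex.comp continuous_fst)).measurable
    refine Complex.measurable_ofReal.comp ?_
    have h1 : (fun p : E 2 × ℝ => (Iic (1 - ‖p.1‖ ^ 2 / R ^ 2)).indicator
        (fun s => δ * s ^ (δ - 1)) p.2) =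
        {p : E 2 × ℝ | p.2 ≤ 1 - ‖p.1‖ ^ 2 / R ^ 2}.indicator
          (fun p => δ * p.2 ^ (δ - 1)) := by
      funext p
      simp only [indicator_apply, mem_ofPred_eq, mem_Iic]
    rw [h1]
    refine Measurable.indicator ?_ (isClosed_le (by fun_prop) (by fun_prop)).measurableSet
    exact (measurable_snd.pow_const _).const_mul _
  · rw [Measure.prod_restrict, ae_restrict_iff'
      (Metric.isClosed_closedBall.measurableSet.prod measurableSet_Ioo)]
    refine Eventually.of_forall fun p hp => ?_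
    have h2 : ‖𝓕 f p.1‖ ≤ max B 0 := (hB _ hp.1).trans (le_max_left _ _)
    have h3 : 0 ≤ δ * p.2 ^ (δ - 1) := by
      have := Real.rpow_nonneg hp.2.1.le (δ - 1)
      positivity
    unfold Fk Function.uncurry
    rw [norm_mul, norm_mul, MBS.ex_norm, mul_one, Complex.norm_real, Real.norm_eq_abs, mul_comm]
    refine mul_le_mul h2 ?_ (abs_nonneg _) (le_max_right _ _)
    by_cases h4 : p.2 ∈ Iic (1 - ‖p.1‖ ^ 2 / R ^ 2)
    · rw [indicator_of_mem h4, abs_of_nonneg h3]
    · rw [indicator_of_notMem h4, abs_zero]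
      exact h3

lemma rep {δ : ℝ} (hδ : 0 < δ) {f : E 2 → ℂ} (hf : Integrable f) {R : ℝ} (hR : 0 < R) (x : E 2) :
    BRm δ f R x = ∫ s in Ioo (0 : ℝ) 1, ((δ * s ^ (δ - 1) : ℝ) : ℂ) *
      S f (√(R ^ 2 * (1 - s))) x := by
  have h1 : BRm δ f R x = ∫ ξ in Metric.closedBall (0 : E 2) R,
      ∫ s in Ioo (0 : ℝ) 1, Fk δ f R x ξ s := by
    unfold BRm
    refine setIntegral_congr_fun Metric.isClosed_closedBall.measurableSet fun ξ hξ => ?_
    rw [mem_closedBall_zero_iff] at hξ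
    have h2 : ‖ξ‖ ^ 2 / R ^ 2 ≤ 1 := by
      rw [div_le_one (by positivity)]
      gcongr
    have h3 : 0 ≤ ‖ξ‖ ^ 2 / R ^ 2 := by positivity
    simp only [Fk]
    rw [integral_mul_const, integral_complex_ofReal, int_w hδ (by linarith) (by linarith)]
  rw [h1, integral_integral_swap (Fk_int hδ hf R x)]
  refine setIntegral_congr_fun measurableSet_Ioo fun s hs => ?_
  have hs1 : 0 < 1 - s := by linarith [hs.2]
  have h4 : ∀ ξ : E 2, (s ≤ 1 - ‖ξ‖ ^ 2 / R ^ 2) ↔ ‖ξ‖ ≤ √(R ^ 2 * (1 - s)) := by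
    intro ξ
    have h0 : 0 ≤ R ^ 2 * (1 - s) := by positivity
    rw [Real.le_sqrt (norm_nonneg _) h0, ← div_le_iff₀' (by positivity)]
    constructor <;> intro h <;> linarith
  have h5 : √(R ^ 2 * (1 - s)) ≤ R := by
    rw [Real.sqrt_le_left hR.le]
    nlinarith [hs.1, sq_nonneg R]
  simp only [S]
  rw [← integral_const_mul]
  have h6 : Metric.closedBall (0 : E 2) (√(R ^ 2 * (1 - s))) ⊆ Metric.closedBall (0 : E 2) R :=
    Metric.closedBall_subset_closedBall h5
  rw [← inter_eq_right.2 h6, ← setIntegral_indicator Metric.isClosed_closedBall.measurableSet]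
  refine setIntegral_congr_fun Metric.isClosed_closedBall.measurableSet fun ξ _ => ?_
  simp only [Fk]
  by_cases h7 : ‖ξ‖ ≤ √(R ^ 2 * (1 - s))
  · rw [indicator_of_mem (mem_closedBall_zero_iff.2 h7), indicator_of_mem (by exact (h4 ξ).2 h7)]
  · rw [indicator_of_notMem (fun h => h7 (mem_closedBall_zero_iff.1 h)),
      indicator_of_notMem (s := Iic (1 - ‖ξ‖ ^ 2 / R ^ 2)) (fun h => h7 ((h4 ξ).1 h))]
    simp

lemma BR_le {δ : ℝ} (hδ : 0 < δ) {f : E 2 → ℂ} (hf : Integrable f) {R : ℝ} (hR : 0 < R)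
    (x : E 2) : ‖BRm δ f R x‖ₑ ^ 2 ≤ ∫⁻ s in Ioo (0 : ℝ) 1,
      ENNReal.ofReal (δ * s ^ (δ - 1)) * ‖S f (√(R ^ 2 * (1 - s))) x‖ₑ ^ 2 := by
  have hwm : Measurable fun s : ℝ => ENNReal.ofReal (δ * s ^ (δ - 1)) :=
    ENNReal.measurable_ofReal.comp ((measurable_id.pow_const _).const_mul _)
  have hSm : Measurable fun s : ℝ => ‖S f (√(R ^ 2 * (1 - s))) x‖ₑ := by
    have h1 : Measurable fun s : ℝ => ((√(R ^ 2 * (1 - s)), x) : ℝ × E 2) := by fun_prop
    exact ((meas_S hf).comp h1).enorm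
  rw [rep hδ hf hR x]
  calc _ ≤ (∫⁻ s in Ioo (0 : ℝ) 1, ENNReal.ofReal (δ * s ^ (δ - 1)) *
        ‖S f (√(R ^ 2 * (1 - s))) x‖ₑ) ^ 2 := by
        gcongr
        refine (enorm_integral_le_lintegral_enorm _).trans (le_of_eq ?_)
        refine setLIntegral_congr_fun measurableSet_Ioo fun s hs => ?_
        rw [enorm_mul, ← ofReal_norm (((δ * s ^ (δ - 1) : ℝ) : ℂ)), Complex.norm_real,
          Real.norm_of_nonneg]
        have := Real.rpow_nonneg hs.1.le (δ - 1)
        positivity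
    _ = (∫⁻ s, 1 * ‖S f (√(R ^ 2 * (1 - s))) x‖ₑ
          ∂((volume.restrict (Ioo (0 : ℝ) 1)).withDensity
            fun s => ENNReal.ofReal (δ * s ^ (δ - 1)))) ^ 2 := by
        simp only [one_mul]
        rw [lintegral_withDensity_eq_lintegral_mul _ hwm hSm]
        rfl
    _ ≤ _ := by
        refine (MBS.J9.cs _ aemeasurable_const hSm.aemeasurable).trans (le_of_eq ?_)
        rw [lintegral_withDensity_eq_lintegral_mul _ hwm (by fun_prop),
          lintegral_withDensity_eq_lintegral_mul _ hwm (hSm.pow_const 2)]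
        simp only [one_pow, Pi.mul_apply, mul_one, lint_w hδ, one_mul]

end BR_

end Pool.Agent.SEnd
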