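import Pool.Agent.SLog.BR1

set_option autoImplicit false

/-! Bochner-Riesz means of order `δ`: dyadic decomposition of the average. -/

namespace Pool.Agent.SEnd

open MeasureTheory FourierTransform Set Filter Topology
open scoped ENNReal NNReal

namespace BR_

lemma lint_dil (F : ℝ → ℝ≥0∞) (C : ℝ) (hC : 0 < C) :
    ∫⁻ s, F (C⁻¹ * s) = ENNReal.ofReal C * ∫⁻ u, F u := by
  have hC' : C⁻¹ ≠ 0 := (inv_pos.2 hC).ne'
  have h := (measurableEmbedding_mulLeft₀ hC').lintegral_map (μ := volume) F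
  rw [← h, Real.map_volume_mul_left hC', inv_inv, abs_of_pos hC, lintegral_smul_measure]
  rfl

lemma aff (G : ℝ → ℝ≥0∞) (a b : ℝ) {Q : ℝ} (hQ : 0 < Q) :
    ∫⁻ s in Ioc a b, G (Q * (1 - s)) =
      ENNReal.ofReal Q⁻¹ * ∫⁻ q in Ioc (Q * (1 - b)) (Q * (1 - a)), G q := by
  have h1 : ∫⁻ q in Ioc (Q * (1 - b)) (Q * (1 - a)), G q =
      ∫⁻ q in Ico (Q * (1 - b)) (Q * (1 - a)), G q :=
    setLIntegral_congr Ico_ae_eq_Ioc.symm
  rw [h1, ← lintegral_indicator measurableSet_Ioc, ← lintegral_indicator measurableSet_Ico,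
    ← lint_dil _ Q⁻¹ (inv_pos.2 hQ), inv_inv,
    ← lintegral_sub_left_eq_self
      (fun s => (Ico (Q * (1 - b)) (Q * (1 - a))).indicator (fun q => G q) (Q * s)) 1]
  refine lintegral_congr fun s => ?_
  simp only [indicator_apply]
  have h2 : (s ∈ Ioc a b) ↔ Q * (1 - s) ∈ Ico (Q * (1 - b)) (Q * (1 - a)) := by
    simp only [mem_Ioc, mem_Ico, mul_le_mul_iff_right₀ hQ, mul_lt_mul_iff_right₀ hQ]
    constructor <;> rintro ⟨h3, h4⟩ <;> constructor <;> linarith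
  by_cases h3 : s ∈ Ioc a b
  · rw [if_pos h3, if_pos (h2.1 h3)]
  · rw [if_neg h3, if_neg (fun h => h3 (h2.2 h))]

lemma cover {s : ℝ} (h0 : 0 < s) (h1 : s ≤ 1 / 2) :
    ∃ k : ℕ, s ∈ Ioc ((1 / 2 : ℝ) ^ (k + 2)) ((1 / 2) ^ (k + 1)) := by
  obtain ⟨n, h2, h3⟩ := exists_nat_pow_near_of_lt_one (x := 2 * s) (y := 1 / 2) (by linarith)
    (by linarith) (by norm_num) (by norm_num)
  refine ⟨n, ?_, ?_⟩
  · rw [pow_succ]
    linarith
  · rw [pow_succ]
    linarith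

lemma w_le {δ : ℝ} (hδ : 0 < δ) (hδ1 : δ ≤ 1) (k : ℕ) {s : ℝ} (hs : (1 / 2 : ℝ) ^ (k + 2) ≤ s) :
    δ * s ^ (δ - 1) ≤ 2 ^ (k + 2) * (δ * 2 ^ (-(δ * k))) := by
  have h1 : s ^ (δ - 1) ≤ ((1 / 2 : ℝ) ^ (k + 2)) ^ (δ - 1) :=
    Real.rpow_le_rpow_of_nonpos (by positivity) hs (by linarith)
  have h2 : ((1 / 2 : ℝ) ^ (k + 2)) ^ (δ - 1) = 2 ^ ((k + 2 : ℕ) * (1 - δ)) := by
    rw [one_div, inv_pow, Real.inv_rpow (by positivity), ← Real.rpow_neg (by positivity),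
      ← Real.rpow_natCast, ← Real.rpow_mul (by norm_num)]
    congr 1
    ring
  have h3 : (2 : ℝ) ^ (((k + 2 : ℕ) : ℝ) * (1 - δ)) ≤ 2 ^ (k + 2) * 2 ^ (-(δ * k)) := by
    rw [← Real.rpow_natCast, ← Real.rpow_add (by norm_num)]
    apply Real.rpow_le_rpow_of_exponent_le (by norm_num)
    push_cast
    nlinarith
  calc δ * s ^ (δ - 1) ≤ δ * (2 ^ (k + 2) * 2 ^ (-(δ * k))) := by
        gcongr
        exact h1.trans (h2.le.trans h3)
    _ = _ := by ring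

lemma dyad {G : ℝ → ℝ≥0∞} (N : ℕ → ℝ≥0∞)
    (hN : ∀ (k : ℕ) (Q : ℝ), 0 < Q → ∫⁻ q in Ioc (Q * (1 - (1 / 2) ^ (k + 1))) Q, G q ≤
      ENNReal.ofReal (Q * (1 / 2) ^ (k + 1)) * N k)
    {δ : ℝ} (hδ : 0 < δ) (hδ1 : δ ≤ 1) {Q : ℝ} (hQ : 0 < Q) :
    ∫⁻ s in Ioo (0 : ℝ) 1, ENNReal.ofReal (δ * s ^ (δ - 1)) * G (Q * (1 - s)) ≤
      3 * ∑' k : ℕ, ENNReal.ofReal (δ * 2 ^ (-(δ * k))) * N k := by
  have hsub : Ioo (0 : ℝ) 1 ⊆ Ioc (1 / 2 : ℝ) 1 ∪
      ⋃ k : ℕ, Ioc ((1 / 2 : ℝ) ^ (k + 2)) ((1 / 2) ^ (k + 1)) := by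
    intro s hs
    by_cases h : 1 / 2 < s
    · exact Or.inl ⟨h, hs.2.le⟩
    · exact Or.inr (mem_iUnion.2 (cover hs.1 (not_lt.1 h)))
  have hk : ∀ k : ℕ, ∫⁻ s in Ioc ((1 / 2 : ℝ) ^ (k + 2)) ((1 / 2) ^ (k + 1)),
      ENNReal.ofReal (δ * s ^ (δ - 1)) * G (Q * (1 - s)) ≤
      2 * (ENNReal.ofReal (δ * 2 ^ (-(δ * k))) * N k) := by
    intro k
    calc _ ≤ ∫⁻ s in Ioc ((1 / 2 : ℝ) ^ (k + 2)) ((1 / 2) ^ (k + 1)),
          ENNReal.ofReal (2 ^ (k + 2) * (δ * 2 ^ (-(δ * k)))) * G (Q * (1 - s)) := by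
          refine setLIntegral_mono' measurableSet_Ioc fun s hs => ?_
          exact mul_le_mul' (ENNReal.ofReal_le_ofReal (w_le hδ hδ1 k hs.1.le)) le_rfl
      _ = ENNReal.ofReal (2 ^ (k + 2) * (δ * 2 ^ (-(δ * k)))) * (ENNReal.ofReal Q⁻¹ *
          ∫⁻ q in Ioc (Q * (1 - (1 / 2) ^ (k + 1))) (Q * (1 - (1 / 2) ^ (k + 2))), G q) := by
          rw [lintegral_const_mul' _ _ ENNReal.ofReal_ne_top, aff G _ _ hQ]
      _ ≤ ENNReal.ofReal (2 ^ (k + 2) * (δ * 2 ^ (-(δ * k)))) * (ENNReal.ofReal Q⁻¹ *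
          (ENNReal.ofReal (Q * (1 / 2) ^ (k + 1)) * N k)) := by
          gcongr
          refine (lintegral_mono_set ?_).trans (hN k Q hQ)
          refine Ioc_subset_Ioc_right ?_
          have : (0 : ℝ) < (1 / 2) ^ (k + 2) := by positivity
          nlinarith
      _ = _ := by
          have e : ENNReal.ofReal (2 ^ (k + 2) * (δ * 2 ^ (-(δ * k)))) * ENNReal.ofReal Q⁻¹ *
              ENNReal.ofReal (Q * (1 / 2) ^ (k + 1)) = 2 * ENNReal.ofReal (δ * 2 ^ (-(δ * k))) := by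
            rw [show (2 : ℝ≥0∞) = ENNReal.ofReal 2 by simp, ← ENNReal.ofReal_mul (by positivity),
              ← ENNReal.ofReal_mul (by positivity), ← ENNReal.ofReal_mul (by positivity)]
            congr 1
            rw [pow_succ (2 : ℝ) (k + 1), one_div, inv_pow]
            field_simp
          rw [← mul_assoc, ← mul_assoc, e, mul_assoc]
  have h0 : ∫⁻ s in Ioc (1 / 2 : ℝ) 1, ENNReal.ofReal (δ * s ^ (δ - 1)) * G (Q * (1 - s)) ≤
      ENNReal.ofReal (δ * 2 ^ (-(δ * (0 : ℕ)))) * N 0 := by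
    have hb : ∀ s ∈ Ioc (1 / 2 : ℝ) 1, δ * s ^ (δ - 1) ≤ 2 * δ := by
      intro s hs
      have h1 : s ^ (δ - 1) ≤ (1 / 2 : ℝ) ^ (δ - 1) :=
        Real.rpow_le_rpow_of_nonpos (by positivity) hs.1.le (by linarith)
      have h2 : (1 / 2 : ℝ) ^ (δ - 1) ≤ 2 := by
        rw [one_div, Real.inv_rpow (by positivity), ← Real.rpow_neg (by positivity)]
        calc (2 : ℝ) ^ (-(δ - 1)) ≤ 2 ^ (1 : ℝ) :=
              Real.rpow_le_rpow_of_exponent_le (by norm_num) (by linarith)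
          _ = 2 := Real.rpow_one 2
      nlinarith
    have hsum : ∫⁻ q in Ioc 0 (Q / 2), G q ≤ ENNReal.ofReal (Q / 2) * N 0 := by
      have hsub2 : Ioc (0 : ℝ) (Q / 2) ⊆ ⋃ j : ℕ,
          Ioc (Q * (1 / 2) ^ (j + 1) * (1 - (1 / 2) ^ (0 + 1))) (Q * (1 / 2) ^ (j + 1)) := by
        intro q hq
        obtain ⟨k, hk1, hk2⟩ := cover (s := q / Q) (div_pos hq.1 hQ)
          (by rw [div_le_iff₀ hQ]; linarith [hq.2])
        rw [lt_div_iff₀ hQ] at hk1
        rw [div_le_iff₀ hQ] at hk2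
        refine mem_iUnion.2 ⟨k, ?_, ?_⟩
        · rw [pow_succ] at hk1
          linarith
        · linarith
      calc _ ≤ ∑' j : ℕ, ∫⁻ q in
            Ioc (Q * (1 / 2) ^ (j + 1) * (1 - (1 / 2) ^ (0 + 1))) (Q * (1 / 2) ^ (j + 1)), G q :=
            (lintegral_mono_set hsub2).trans (lintegral_iUnion_le _ _)
        _ ≤ ∑' j : ℕ, ENNReal.ofReal (Q * (1 / 2) ^ (j + 1) * (1 / 2) ^ (0 + 1)) * N 0 :=
            ENNReal.tsum_le_tsum fun j => hN 0 (Q * (1 / 2) ^ (j + 1)) (by positivity)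
        _ = _ := by
            rw [ENNReal.tsum_mul_right, ← ENNReal.ofReal_tsum_of_nonneg]
            · congr 2
              have h5 : ∀ j : ℕ, Q * (1 / 2 : ℝ) ^ (j + 1) * (1 / 2) ^ (0 + 1) =
                  Q / 4 * (1 / 2) ^ j := by
                intro j
                rw [pow_succ]
                ring
              simp only [h5]
              rw [tsum_mul_left, tsum_geometric_two]
              ring
            · intro j
              positivity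
            · have h5 : ∀ j : ℕ, Q * (1 / 2 : ℝ) ^ (j + 1) * (1 / 2) ^ (0 + 1) =
                  Q / 4 * (1 / 2) ^ j := by
                intro j
                rw [pow_succ]
                ring
              simp only [h5]
              exact summable_geometric_two.mul_left _
    calc _ ≤ ∫⁻ s in Ioc (1 / 2 : ℝ) 1, ENNReal.ofReal (2 * δ) * G (Q * (1 - s)) := by
          refine setLIntegral_mono' measurableSet_Ioc fun s hs => ?_
          exact mul_le_mul' (ENNReal.ofReal_le_ofReal (hb s hs)) le_rfl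
      _ = ENNReal.ofReal (2 * δ) * (ENNReal.ofReal Q⁻¹ * ∫⁻ q in Ioc 0 (Q / 2), G q) := by
          rw [lintegral_const_mul' _ _ ENNReal.ofReal_ne_top, aff G _ _ hQ]
          congr 4
          ring_nf
      _ ≤ ENNReal.ofReal (2 * δ) * (ENNReal.ofReal Q⁻¹ * (ENNReal.ofReal (Q / 2) * N 0)) := by
          gcongr
      _ = _ := by
          rw [← mul_assoc (ENNReal.ofReal Q⁻¹), ← ENNReal.ofReal_mul (by positivity), ← mul_assoc,
            ← ENNReal.ofReal_mul (by positivity)]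
          congr 2
          simp only [Nat.cast_zero, mul_zero, neg_zero, Real.rpow_zero]
          field_simp
  calc _ ≤ (∫⁻ s in Ioc (1 / 2 : ℝ) 1, ENNReal.ofReal (δ * s ^ (δ - 1)) * G (Q * (1 - s))) +
        ∫⁻ s in ⋃ k : ℕ, Ioc ((1 / 2 : ℝ) ^ (k + 2)) ((1 / 2) ^ (k + 1)),
          ENNReal.ofReal (δ * s ^ (δ - 1)) * G (Q * (1 - s)) :=
        (lintegral_mono_set hsub).trans (lintegral_union_le _ _ _)
    _ ≤ (∑' k : ℕ, ENNReal.ofReal (δ * 2 ^ (-(δ * k))) * N k) +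
        ∑' k : ℕ, 2 * (ENNReal.ofReal (δ * 2 ^ (-(δ * k))) * N k) := by
        refine add_le_add (h0.trans ?_) ((lintegral_iUnion_le _ _).trans
          (ENNReal.tsum_le_tsum hk))
        exact ENNReal.le_tsum (f := fun k : ℕ => ENNReal.ofReal (δ * 2 ^ (-(δ * k))) * N k) 0
    _ = _ := by
        rw [ENNReal.tsum_mul_left]
        ring

end BR_

end Pool.Agent.SEnd
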