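import Pool.Agent.SLog.BR2
import Pool.Agent.MBS.J7

set_option autoImplicit false

/-! Bochner-Riesz means of order `δ`: window averages of `|S_r f|²` and separated radii. -/

namespace Pool.Agent.SEnd

open MeasureTheory FourierTransform Set Filter Topology
open scoped ENNReal NNReal
open Pool.Agent.MBS (E ex S)
open Pool.Agent.KSP (IE BdE tPlE)

namespace BR_

lemma add_sq_le (a b : ℝ≥0∞) : (a + b) ^ 2 ≤ 2 * a ^ 2 + 2 * b ^ 2 := by
  have h := ENNReal.rpow_add_le_mul_rpow_add_rpow a b (p := 2) (by norm_num)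
  norm_num at h
  calc (a + b) ^ 2 ≤ 2 * (a ^ 2 + b ^ 2) := by exact_mod_cast h
    _ = _ := by ring

/-- the error terms -/
noncomputable def Dj (f : E 2 → ℂ) (y : ℝ) (j : ℤ) (q : ℝ) (x : E 2) : ℝ≥0∞ :=
  ‖S f (√q) x - S f (√(y ^ j)) x‖ₑ ^ 2

noncomputable def Err (f : E 2 → ℂ) (h : ℝ) (x : E 2) : ℝ≥0∞ :=
  ∑' j : ℤ, ENNReal.ofReal (h * (1 + h) ^ j)⁻¹ *
    ∫⁻ q in Ioc ((1 + h) ^ j) ((1 + h) ^ (j + 1)), Dj f (1 + h) j q x

/-- the radii -/
def AA (h : ℝ) : Set ℝ := range fun j : ℤ => √((1 + h) ^ j)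

noncomputable def NN (f : E 2 → ℂ) (h : ℝ) (x : E 2) : ℝ≥0∞ :=
  2 * (⨆ R ∈ AA h, ‖S f R x‖ₑ) ^ 2 + 2 * Err f h x

lemma Dj_meas {f : E 2 → ℂ} (hf : Integrable f) (y : ℝ) (j : ℤ) :
    Measurable (fun p : ℝ × E 2 => Dj f y j p.1 p.2) := by
  have h1 : Measurable (fun p : ℝ × E 2 => S f (√p.1) p.2) := by
    have h2 : Measurable fun p : ℝ × E 2 => ((√p.1, p.2) : ℝ × E 2) := by fun_prop
    exact (meas_S hf).comp h2
  have h3 : Measurable (fun p : ℝ × E 2 => S f (√(y ^ j)) p.2) := by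
    have h2 : Measurable fun p : ℝ × E 2 => ((√(y ^ j), p.2) : ℝ × E 2) := by fun_prop
    exact (meas_S hf).comp h2
  exact (h1.sub h3).enorm.pow_const 2

lemma Dj_meas1 {f : E 2 → ℂ} (hf : Integrable f) (y : ℝ) (j : ℤ) (x : E 2) :
    Measurable (fun q : ℝ => Dj f y j q x) := by
  have h2 : Measurable fun q : ℝ => ((q, x) : ℝ × E 2) := by fun_prop
  have h3 := (Dj_meas hf y j).comp h2
  have e : (fun q : ℝ => Dj f y j q x) =
      (fun p : ℝ × E 2 => Dj f y j p.1 p.2) ∘ fun q : ℝ => ((q, x) : ℝ × E 2) := by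
    funext q
    rfl
  rw [e]
  exact h3

lemma Dj_meas2 {f : E 2 → ℂ} (hf : Integrable f) (y : ℝ) (j : ℤ) :
    Measurable (Function.uncurry fun (x : E 2) (q : ℝ) => Dj f y j q x) := by
  have h2 : Measurable fun p : E 2 × ℝ => ((p.2, p.1) : ℝ × E 2) := measurable_swap
  have h3 := (Dj_meas hf y j).comp h2
  have e : (Function.uncurry fun (x : E 2) (q : ℝ) => Dj f y j q x) =
      (fun p : ℝ × E 2 => Dj f y j p.1 p.2) ∘ fun p : E 2 × ℝ => ((p.2, p.1) : ℝ × E 2) := by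
    funext q
    rfl
  rw [e]
  exact h3

lemma window {f : E 2 → ℂ} (hf : Integrable f) {h : ℝ} (h0 : 0 < h) (h1 : h < 1) {Q : ℝ}
    (hQ : 0 < Q) (x : E 2) :
    ∫⁻ q in Ioc (Q * (1 - h)) Q, ‖S f (√q) x‖ₑ ^ 2 ≤ ENNReal.ofReal (Q * h) * NN f h x := by
  set y : ℝ := 1 + h with hy
  have hy1 : 1 < y := by linarith
  have hy0 : 0 < y := by linarith
  set A : ℝ≥0∞ := ⨆ R ∈ AA h, ‖S f R x‖ₑ with hA
  have pt : ∀ q ∈ Ioc (Q * (1 - h)) Q, ‖S f (√q) x‖ₑ ^ 2 ≤ 2 * A ^ 2 +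
      ∑' j : ℤ, 2 * ENNReal.ofReal (Q * (y ^ j)⁻¹) *
        (Ioc (y ^ j) (y ^ (j + 1))).indicator (fun q => Dj f y j q x) q := by
    intro q hq
    have hq0 : 0 < q := lt_of_le_of_lt (mul_nonneg hQ.le (by linarith)) hq.1
    obtain ⟨j, hj⟩ := exists_mem_Ioc_zpow hq0 hy1
    have hyj : 0 < y ^ j := zpow_pos hy0 j
    have h2 : ‖S f (√q) x‖ₑ ≤ ‖S f (√(y ^ j)) x‖ₑ + ‖S f (√q) x - S f (√(y ^ j)) x‖ₑ := by
      calc ‖S f (√q) x‖ₑ = ‖S f (√(y ^ j)) x + (S f (√q) x - S f (√(y ^ j)) x)‖ₑ := by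
            congr 1
            ring
        _ ≤ _ := enorm_add_le _ _
    have h3 : ‖S f (√(y ^ j)) x‖ₑ ≤ A := by
      rw [hA]
      exact le_iSup₂_of_le (√(y ^ j)) ⟨j, rfl⟩ le_rfl
    have h4 : 1 ≤ ENNReal.ofReal (Q * (y ^ j)⁻¹) := by
      rw [← ENNReal.ofReal_one]
      refine ENNReal.ofReal_le_ofReal ?_
      rw [← div_eq_mul_inv, one_le_div hyj]
      exact hj.1.le.trans hq.2
    calc ‖S f (√q) x‖ₑ ^ 2 ≤
        (‖S f (√(y ^ j)) x‖ₑ + ‖S f (√q) x - S f (√(y ^ j)) x‖ₑ) ^ 2 := by gcongr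
      _ ≤ 2 * ‖S f (√(y ^ j)) x‖ₑ ^ 2 + 2 * ‖S f (√q) x - S f (√(y ^ j)) x‖ₑ ^ 2 :=
          add_sq_le _ _
      _ ≤ 2 * A ^ 2 + 2 * ENNReal.ofReal (Q * (y ^ j)⁻¹) *
          (Ioc (y ^ j) (y ^ (j + 1))).indicator (fun q => Dj f y j q x) q := by
          rw [indicator_of_mem hj]
          unfold Dj
          refine add_le_add (by gcongr) ?_
          calc 2 * ‖S f (√q) x - S f (√(y ^ j)) x‖ₑ ^ 2 =
              2 * 1 * ‖S f (√q) x - S f (√(y ^ j)) x‖ₑ ^ 2 := by rw [mul_one]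
            _ ≤ _ := by gcongr
      _ ≤ _ := by
          gcongr
          exact ENNReal.le_tsum (f := fun j : ℤ => 2 * ENNReal.ofReal (Q * (y ^ j)⁻¹) *
            (Ioc (y ^ j) (y ^ (j + 1))).indicator (fun q => Dj f y j q x) q) j
  have hm : ∀ j : ℤ, Measurable fun q => 2 * ENNReal.ofReal (Q * (y ^ j)⁻¹) *
      (Ioc (y ^ j) (y ^ (j + 1))).indicator (fun q => Dj f y j q x) q := fun j =>
    ((Dj_meas1 hf y j x).indicator measurableSet_Ioc).const_mul _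
  have hj : ∀ j : ℤ, ∫⁻ q in Ioc (Q * (1 - h)) Q, 2 * ENNReal.ofReal (Q * (y ^ j)⁻¹) *
      (Ioc (y ^ j) (y ^ (j + 1))).indicator (fun q => Dj f y j q x) q ≤
      ENNReal.ofReal (Q * h) * (2 * (ENNReal.ofReal (h * y ^ j)⁻¹ *
          ∫⁻ q in Ioc (y ^ j) (y ^ (j + 1)), Dj f y j q x)) := by
    intro j
    have h5 : ∫⁻ q in Ioc (Q * (1 - h)) Q,
        (Ioc (y ^ j) (y ^ (j + 1))).indicator (fun q => Dj f y j q x) q ≤
        ∫⁻ q in Ioc (y ^ j) (y ^ (j + 1)), Dj f y j q x := by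
      rw [← lintegral_indicator (s := Ioc (y ^ j) (y ^ (j + 1))) measurableSet_Ioc]
      exact setLIntegral_le_lintegral _ _
    have h6 : ENNReal.ofReal (Q * (y ^ j)⁻¹) =
        ENNReal.ofReal (Q * h) * ENNReal.ofReal (h * y ^ j)⁻¹ := by
      rw [← ENNReal.ofReal_mul (by positivity)]
      congr 1
      rw [mul_inv]
      field_simp
    rw [lintegral_const_mul _ ((Dj_meas1 hf y j x).indicator measurableSet_Ioc)]
    refine (mul_le_mul' le_rfl h5).trans (le_of_eq ?_)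
    rw [h6]
    ring
  calc _ ≤ ∫⁻ q in Ioc (Q * (1 - h)) Q, (2 * A ^ 2 +
      ∑' j : ℤ, 2 * ENNReal.ofReal (Q * (y ^ j)⁻¹) *
        (Ioc (y ^ j) (y ^ (j + 1))).indicator (fun q => Dj f y j q x) q) :=
        setLIntegral_mono' measurableSet_Ioc pt
    _ = 2 * A ^ 2 * ENNReal.ofReal (Q * h) +
        ∑' j : ℤ, ∫⁻ q in Ioc (Q * (1 - h)) Q, 2 * ENNReal.ofReal (Q * (y ^ j)⁻¹) *
        (Ioc (y ^ j) (y ^ (j + 1))).indicator (fun q => Dj f y j q x) q := by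
        rw [lintegral_add_left measurable_const, lintegral_const, Measure.restrict_apply_univ,
          Real.volume_Ioc, lintegral_tsum fun j => (hm j).aemeasurable]
        congr 3
        ring
    _ ≤ 2 * A ^ 2 * ENNReal.ofReal (Q * h) +
        ∑' j : ℤ, ENNReal.ofReal (Q * h) * (2 * (ENNReal.ofReal (h * y ^ j)⁻¹ *
          ∫⁻ q in Ioc (y ^ j) (y ^ (j + 1)), Dj f y j q x)) :=
        add_le_add le_rfl (ENNReal.tsum_le_tsum hj)
    _ = _ := by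
        rw [ENNReal.tsum_mul_left, ENNReal.tsum_mul_left]
        unfold NN Err
        ring

/-- difference of two partial sums -/
lemma diff_eq {f : E 2 → ℂ} (hf : Integrable f) {a b : ℝ} (hab : a ≤ b) (x : E 2) :
    S f b x - S f a x = IE ({ξ : E 2 | a < ‖ξ‖ ∧ ‖ξ‖ ≤ b}.indicator (𝓕 f)) x := by
  have hH : Continuous (𝓕 f) := MBS.J8.fourier_cont hf
  have hex : Continuous fun ξ : E 2 => ex x ξ :=
    MBS.ex_continuous.comp (Continuous.prodMk_right x)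
  have hi : ∀ r : ℝ, IntegrableOn (fun ξ => 𝓕 f ξ * ex x ξ) (Metric.closedBall (0 : E 2) r) :=
    fun r => (hH.mul hex).continuousOn.integrableOn_compact (isCompact_closedBall _ _)
  have hms : MeasurableSet {ξ : E 2 | a < ‖ξ‖ ∧ ‖ξ‖ ≤ b} :=
    (measurableSet_lt measurable_const measurable_norm).inter
      (measurableSet_le measurable_norm measurable_const)
  unfold S IE
  have hsub : Metric.closedBall (0 : E 2) a ⊆ Metric.closedBall (0 : E 2) b :=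
    Metric.closedBall_subset_closedBall hab
  have h1 := setIntegral_sdiff (μ := volume) (f := fun ξ => 𝓕 f ξ * ex x ξ)
    (Metric.isClosed_closedBall (x := (0 : E 2)) (ε := a)).measurableSet (hi b) hsub
  rw [← h1]
  have h2 : Metric.closedBall (0 : E 2) b \ Metric.closedBall (0 : E 2) a =
      {ξ : E 2 | a < ‖ξ‖ ∧ ‖ξ‖ ≤ b} := by
    ext ξ
    simp only [Set.mem_sdiff, mem_closedBall_zero_iff, mem_ofPred_eq, not_le]
    exact and_comm
  rw [h2, ← integral_indicator hms]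
  refine integral_congr_ae (Eventually.of_forall fun ξ => ?_)
  simp only [indicator_apply]
  by_cases h3 : ξ ∈ {ξ : E 2 | a < ‖ξ‖ ∧ ‖ξ‖ ≤ b}
  · rw [if_pos h3, if_pos h3]
  · rw [if_neg h3, if_neg h3, zero_mul]

lemma diff_int {f : E 2 → ℂ} (hP : tPlE) (hf : Integrable f) {a b : ℝ} (hab : a ≤ b) :
    ∫⁻ x, ‖S f b x - S f a x‖ₑ ^ 2 = ∫⁻ ξ in {ξ : E 2 | a < ‖ξ‖ ∧ ‖ξ‖ ≤ b}, ‖𝓕 f ξ‖ₑ ^ 2 := by
  have hH : Continuous (𝓕 f) := MBS.J8.fourier_cont hf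
  have hms : MeasurableSet {ξ : E 2 | a < ‖ξ‖ ∧ ‖ξ‖ ≤ b} :=
    (measurableSet_lt measurable_const measurable_norm).inter
      (measurableSet_le measurable_norm measurable_const)
  have hB : BdE ({ξ : E 2 | a < ‖ξ‖ ∧ ‖ξ‖ ≤ b}.indicator (𝓕 f)) := by
    obtain ⟨B, hB⟩ := (isCompact_closedBall (0 : E 2) b).exists_bound_of_continuousOn
      (f := 𝓕 f) hH.continuousOn
    refine ⟨hH.measurable.indicator hms, ⟨max B 0, fun ξ => ?_⟩, b, fun ξ hξ => ?_⟩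
    · by_cases h3 : ξ ∈ {ξ : E 2 | a < ‖ξ‖ ∧ ‖ξ‖ ≤ b}
      · rw [indicator_of_mem h3]
        exact (hB ξ (mem_closedBall_zero_iff.2 h3.2)).trans (le_max_left _ _)
      · rw [indicator_of_notMem h3, norm_zero]
        exact le_max_right _ _
    · by_contra h4
      exact hξ (indicator_of_notMem (fun h5 => h4 h5.2) _)
  simp only [diff_eq hf hab]
  rw [(hP _ hB).2, ← lintegral_indicator hms]
  refine lintegral_congr fun ξ => ?_
  by_cases h3 : ξ ∈ {ξ : E 2 | a < ‖ξ‖ ∧ ‖ξ‖ ≤ b}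
  · rw [indicator_of_mem h3, indicator_of_mem h3]
  · rw [indicator_of_notMem h3, indicator_of_notMem h3]
    simp

lemma err_int {f : E 2 → ℂ} (hP : tPlE) (hf : Integrable f) (h2 : MemLp f 2) {h : ℝ}
    (h0 : 0 < h) : ∫⁻ x, Err f h x ≤ ∫⁻ x, ‖f x‖ₑ ^ 2 := by
  set y : ℝ := 1 + h with hy
  have hy1 : 1 < y := by linarith
  have hy0 : 0 < y := by linarith
  have hH : Continuous (𝓕 f) := MBS.J8.fourier_cont hf
  have hms : ∀ a b : ℝ, MeasurableSet {ξ : E 2 | a < ‖ξ‖ ∧ ‖ξ‖ ≤ b} := fun a b =>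
    (measurableSet_lt measurable_const measurable_norm).inter
      (measurableSet_le measurable_norm measurable_const)
  have hm1 : ∀ j : ℤ, Measurable fun x =>
      ∫⁻ q in Ioc (y ^ j) (y ^ (j + 1)), Dj f y j q x := by
    intro j
    exact (Dj_meas2 hf y j).lintegral_prod_right'
  unfold Err
  rw [lintegral_tsum fun j => ((hm1 j).const_mul _).aemeasurable, ← MBS.J8.plancherel_sq hf h2]
  calc _ ≤ ∑' j : ℤ, ∫⁻ ξ in {ξ : E 2 | √(y ^ j) < ‖ξ‖ ∧ ‖ξ‖ ≤ √(y ^ (j + 1))},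
      ‖𝓕 f ξ‖ₑ ^ 2 := by
        refine ENNReal.tsum_le_tsum fun j => ?_
        have hyj : 0 < y ^ j := zpow_pos hy0 j
        rw [lintegral_const_mul _ (hm1 j), lintegral_lintegral_swap
          (Dj_meas2 hf y j).aemeasurable]
        have h3 : ∀ q ∈ Ioc (y ^ j) (y ^ (j + 1)), ∫⁻ x, Dj f y j q x ≤
            ∫⁻ ξ in {ξ : E 2 | √(y ^ j) < ‖ξ‖ ∧ ‖ξ‖ ≤ √(y ^ (j + 1))}, ‖𝓕 f ξ‖ₑ ^ 2 := by
          intro q hq
          unfold Dj
          rw [diff_int hP hf (Real.sqrt_le_sqrt hq.1.le)]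
          refine lintegral_mono_set fun ξ hξ => ⟨hξ.1, hξ.2.trans (Real.sqrt_le_sqrt hq.2)⟩
        calc _ ≤ ENNReal.ofReal (h * y ^ j)⁻¹ * ∫⁻ _ in Ioc (y ^ j) (y ^ (j + 1)),
            ∫⁻ ξ in {ξ : E 2 | √(y ^ j) < ‖ξ‖ ∧ ‖ξ‖ ≤ √(y ^ (j + 1))}, ‖𝓕 f ξ‖ₑ ^ 2 := by
              exact mul_le_mul' le_rfl (setLIntegral_mono' measurableSet_Ioc h3)
          _ = ENNReal.ofReal (h * y ^ j)⁻¹ * ENNReal.ofReal (h * y ^ j) *
            ∫⁻ ξ in {ξ : E 2 | √(y ^ j) < ‖ξ‖ ∧ ‖ξ‖ ≤ √(y ^ (j + 1))}, ‖𝓕 f ξ‖ₑ ^ 2 := by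
              rw [lintegral_const, Measure.restrict_apply_univ, Real.volume_Ioc,
                zpow_add_one₀ hy0.ne', mul_assoc]
              congr 1
              rw [mul_comm]
              congr 2
              rw [hy]
              ring
          _ = _ := by
              rw [← ENNReal.ofReal_mul (by positivity), inv_mul_cancel₀ (by positivity),
                ENNReal.ofReal_one, one_mul]
    _ = ∫⁻ ξ in ⋃ j : ℤ, {ξ : E 2 | √(y ^ j) < ‖ξ‖ ∧ ‖ξ‖ ≤ √(y ^ (j + 1))}, ‖𝓕 f ξ‖ₑ ^ 2 := by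
        rw [lintegral_iUnion (fun j => hms _ _)]
        have key : ∀ i j : ℤ, i < j → Disjoint
            {ξ : E 2 | √(y ^ i) < ‖ξ‖ ∧ ‖ξ‖ ≤ √(y ^ (i + 1))}
            {ξ : E 2 | √(y ^ j) < ‖ξ‖ ∧ ‖ξ‖ ≤ √(y ^ (j + 1))} := by
          intro i j hij
          rw [Set.disjoint_left]
          intro ξ h4 h5
          have h6 : √(y ^ (i + 1)) ≤ √(y ^ j) :=
            Real.sqrt_le_sqrt (zpow_le_zpow_right₀ hy1.le (by omega))
          have := h4.2.trans h6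
          exact absurd h5.1 (not_lt.2 this)
        intro i j hij
        rcases lt_or_gt_of_ne hij with h4 | h4
        · exact key i j h4
        · exact (key j i h4).symm
    _ ≤ _ := setLIntegral_le_lintegral _ _

end BR_

end Pool.Agent.SEnd
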