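import Pool.Agent.LLog.Targets

set_option autoImplicit false

/-! MP_ee701d_an: disc partial sums in the plane, strong (2,2) with a constant polynomial in `log m`
(`4^m` radii per octave).  Definitions.  Proofs: Blueprint.lean.txt.

All parameters are powers of `q = 2^a`; `l` is a level, `j = l + 8 a` the level of the caps. -/

namespace Pool.Agent.SLog

open MeasureTheory Set
open scoped ENNReal NNReal ComplexConjugate
open Pool.Agent.KSP (ee dot nr Ex Ex1 Bd Bd1 n1 n2 lg V0 ann)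
open Pool.Agent.LLog (PA cd cdr cp fr tp Nn nv tv Core bx sa sd Qx kc psi kap GK psR psA anf mu Bf hat)

/-- the codes of the radial intervals of level `l` -/
def CC (l : ℕ) : Finset ℕ := Finset.range (2 * 4 ^ l)

/-- the caps of level `l + 8 a` -/
def PP (a l : ℕ) : Finset ℕ := Finset.range (3 * 2 ^ (l + 8 * a))

/-- the hypotheses on the parameters -/
def HP (a m l : ℕ) (sg sl : ℝ) : Prop :=
  PA a m ∧ 10 * a < l ∧ l ≤ m ∧ 0 ≤ sg ∧ sg < 1 ∧ 1 ≤ sl ∧ sl < 2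

/-! ### Frequency side -/

/-- smooth cutoff, `1` on `[5/4, 29/20] × [-2/5, 2/5]`, `0` outside `[6/5, 3/2] × [-1/2, 1/2]` -/
noncomputable def chi (m : ℕ) (ξ : ℝ × ℝ) : ℝ :=
  psi (40 * m) (6 / 5) (3 / 2) (1 / 20) ξ.1 * psi (40 * m) (-(1 / 2)) (1 / 2) (1 / 10) ξ.2

/-- multiplier of the radial interval `c` of level `l` and the cap `p` of level `l + 8 a` -/
noncomputable def Mu (a m : ℕ) (sg sl : ℝ) (l c p : ℕ) (ξ : ℝ × ℝ) : ℂ :=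
  open Classical in
  if 1 ≤ sg + c / 4 ^ l then (chi m ξ : ℂ) * mu a m sg sl l (l + 8 * a) c p ξ else 0

/-- multiplier of the cap `p` without the radial factor, radii near `sg + c0 4^{-3a}` -/
noncomputable def Pp (a m : ℕ) (sg sl : ℝ) (l c0 p : ℕ) (ξ : ℝ × ℝ) : ℂ :=
  ((chi m ξ * anf a m sg sl (l + 8 * a) p c0 ξ *
    psi (40 * m) (sg + (c0 - 1) / 4 ^ (3 * a)) (sg + (c0 + 2) / 4 ^ (3 * a)) (1 / 4 ^ (3 * a))
      (dot ξ (nv (tp sl (l + 8 * a) p))) : ℝ) : ℂ)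

/-- the cell `(c, p)` with margins `ε` (in the part of the plane where `chi` lives) -/
def BX (a l : ℕ) (sg sl ε : ℝ) (c p : ℕ) : Set (ℝ × ℝ) :=
  {ξ | 6 / 5 - (1 / 2 ^ (4 * a) - ε) ≤ ξ.1 ∧ ξ.1 ≤ 3 / 2 + (1 / 2 ^ (4 * a) - ε) ∧
    |ξ.2| ≤ 1 / 2 + (1 / 2 ^ (4 * a) - ε) ∧
    c + ε ≤ 4 ^ l * (nr ξ - sg) ∧ 4 ^ l * (nr ξ - sg) ≤ c + 1 - ε ∧
    p + ε ≤ 2 ^ (l + 8 * a) * (ξ.2 / ξ.1 + sl) ∧ 2 ^ (l + 8 * a) * (ξ.2 / ξ.1 + sl) ≤ p + 1 - ε}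

/-- frequency piece of `g`, on the `x` side -/
noncomputable def vv (a m : ℕ) (sg sl : ℝ) (l : ℕ) (g : ℝ × ℝ → ℂ) (c p : ℕ) (x : ℝ × ℝ) : ℂ :=
  Ex (fun ξ => Mu a m sg sl l c p ξ * hat g ξ) x

/-- its square -/
noncomputable def VV (a m : ℕ) (sg sl : ℝ) (l : ℕ) (g : ℝ × ℝ → ℂ) (c p : ℕ) (x : ℝ × ℝ) : ℝ≥0∞ :=
  ‖vv a m sg sl l g c p x‖ₑ ^ 2

/-! ### Averages -/

/-- average over the box with centre `x` -/
noncomputable def av (t A B : ℝ) (g : ℝ × ℝ → ℝ≥0∞) (x : ℝ × ℝ) : ℝ≥0∞ :=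
  (ENNReal.ofReal (4 * A * B))⁻¹ * ∫⁻ y in bx t x A B, g y

/-- average over the box of size of the kernel of `Mu` -/
noncomputable def avK (a l : ℕ) (sl : ℝ) (p : ℕ) (g : ℝ × ℝ → ℝ≥0∞) (x : ℝ × ℝ) : ℝ≥0∞ :=
  av (tp sl (l + 8 * a) p) (4 ^ l * 2 ^ (7 * a)) (2 ^ (l + 15 * a)) g x

/-- half length of the boxes of the cutoffs -/
noncomputable def Lg (a l : ℕ) : ℝ := 4 ^ l * 2 ^ (26 * a)

/-- average over `k` times the box of direction number `b` of level `i` -/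
noncomputable def avL (a l : ℕ) (sl k : ℝ) (i b : ℕ) (g : ℝ × ℝ → ℝ≥0∞) (x : ℝ × ℝ) : ℝ≥0∞ :=
  av (tp sl i b) (k * Lg a l) (k * Lg a l / 2 ^ i) g x

/-- the caps near the direction number `b` of level `i` -/
def near (a l i b : ℕ) : Finset ℕ :=
  (PP a l).filter (fun p => p / 2 ^ (l + 8 * a - i) ≤ b + 2 ∧ b ≤ p / 2 ^ (l + 8 * a - i) + 2)

/-- local density of `∑ G_p`, `p` near the direction number `b` of level `i` -/
noncomputable def Dn (a l : ℕ) (sl k : ℝ) (G : ℕ → ℝ × ℝ → ℝ≥0∞) (i b : ℕ) (x : ℝ × ℝ) : ℝ≥0∞ :=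
  avL a l sl k i b (fun y => ∑ p ∈ near a l i b, G p y) x

/-- Kakeya maximal function of a set -/
noncomputable def KM (A B : ℝ) (Z : Set (ℝ × ℝ)) (y : ℝ × ℝ) : ℝ≥0∞ :=
  ⨆ (t : ℝ) (_ : t ∈ Icc (-2 : ℝ) 2) (x0 : ℝ × ℝ) (_ : y ∈ bx t x0 A B), av t A B (Z.indicator 1) x0

/-- neighbourhood of radius `2^l q^15` (an open set) -/
def nb (a l : ℕ) (Y : Set (ℝ × ℝ)) : Set (ℝ × ℝ) :=
  {x | ∃ y ∈ Y, |y.1 - x.1| < 2 ^ (l + 15 * a) ∧ |y.2 - x.2| < 2 ^ (l + 15 * a)}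

/-- points of squares of side `2^l q^18` in which `X` has density at least `q^{-60}` -/
def Pq (a l : ℕ) (X : Set (ℝ × ℝ)) : Set (ℝ × ℝ) :=
  {x | ENNReal.ofReal (sd a l ^ 2 / 2 ^ (60 * a)) ≤ volume (X ∩ {y | Qx a 0 l y = Qx a 0 l x})}

/-! ### Smooth cutoffs on the `x` side -/

/-- kernel of integral `1`, frequencies `|ζ · nv| ≤ b1 / 2`, `|ζ · tv| ≤ b2 / 2` -/
noncomputable def Ps (m : ℕ) (t b1 b2 : ℝ) (z : ℝ × ℝ) : ℝ :=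
  kap (40 * m) b1 (dot z (nv t)) * kap (40 * m) b2 (dot z (tv t))

/-- `1_A * Ps` -/
noncomputable def et (m : ℕ) (t b1 b2 : ℝ) (A : Set (ℝ × ℝ)) (x : ℝ × ℝ) : ℝ :=
  ∫ y in A, Ps m t b1 b2 (x - y)

/-- `4^{-l} q^{-24}` -/
noncomputable def bb (a l : ℕ) : ℝ := 1 / (4 ^ l * 2 ^ (24 * a))

/-- the cutoff of direction number `b` of level `i` -/
noncomputable def eti (a m : ℕ) (sl : ℝ) (l i b : ℕ) (A : Set (ℝ × ℝ)) (x : ℝ × ℝ) : ℝ :=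
  et m (tp sl i b) (bb a l) (2 ^ i * bb a l) A x

/-- points where the box of the cap `p` has a part `≥ q^{-58}` in `nb Y` -/
def Hv (a l : ℕ) (sl : ℝ) (Y : Set (ℝ × ℝ)) (p : ℕ) : Set (ℝ × ℝ) :=
  {x | ENNReal.ofReal (1 / 2 ^ (58 * a)) ≤ avL a l sl 2 (l + 8 * a) p ((nb a l Y).indicator 1) x}

/-- smooth version of `Hv` -/
noncomputable def eh (a m : ℕ) (sl : ℝ) (l : ℕ) (Y : Set (ℝ × ℝ)) (p : ℕ) (x : ℝ × ℝ) : ℝ :=
  eti a m sl l (l + 8 * a) p (Hv a l sl Y p) x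

/-- active set of direction number `b` of level `i` -/
def Ac (a l : ℕ) (sl : ℝ) (G : ℕ → ℝ × ℝ → ℝ≥0∞) (i b : ℕ) : Set (ℝ × ℝ) :=
  {x | ENNReal.ofReal (1 / 2 ^ (176 * a)) ≤ Dn a l sl 2 G i b x}

/-- smooth version of `Ac` -/
noncomputable def ea (a m : ℕ) (sl : ℝ) (l : ℕ) (G : ℕ → ℝ × ℝ → ℝ≥0∞) (i b : ℕ) (x : ℝ × ℝ) : ℝ :=
  eti a m sl l i b (Ac a l sl G i b) x

/-- cutoff to the points that are active at no level, for the cap `p` -/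
noncomputable def na (a m : ℕ) (sl : ℝ) (l : ℕ) (G : ℕ → ℝ × ℝ → ℝ≥0∞) (p : ℕ) (x : ℝ × ℝ) : ℝ :=
  ∏ i ∈ Finset.range (l + 8 * a + 1), (1 - ea a m sl l G i (p / 2 ^ (l + 8 * a - i)) x)

/-! ### Families -/

/-- families of functions of absolute value `≤ 1` with disjoint supports of finite measure -/
def Fm (w : ℕ → ℝ × ℝ → ℂ) : Prop :=
  (∀ c, Bf (w c) ∧ ∀ x, ‖w c x‖ ≤ 1) ∧ ∀ x c c', w c x ≠ 0 → w c' x ≠ 0 → c = c'

/-- union of the supports -/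
def EE (l : ℕ) (w : ℕ → ℝ × ℝ → ℂ) : Set (ℝ × ℝ) := {x | ∃ c ∈ CC l, w c x ≠ 0}

/-- popular families: `Y c` contains the support of `w c`, its neighbourhoods are not much larger
and have bounded overlap -/
def Pf (a l : ℕ) (w : ℕ → ℝ × ℝ → ℂ) (Y : ℕ → Set (ℝ × ℝ)) : Prop :=
  Fm w ∧ (∀ c, MeasurableSet (Y c) ∧ ∀ x, w c x ≠ 0 → x ∈ Y c) ∧
  (∀ c, volume (nb a l (nb a l (Y c))) ≤ 9 * 2 ^ (60 * a) * volume {x | w c x ≠ 0}) ∧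
  ∀ x, (open Classical in (((CC l).filter (fun c => x ∈ nb a l (Y c))).card : ℝ≥0∞)) ≤
    9 * 2 ^ (60 * a)

/-- local density of everything -/
noncomputable def NN (a m : ℕ) (sg sl : ℝ) (l : ℕ) (w : ℕ → ℝ × ℝ → ℂ) (k : ℝ) (x : ℝ × ℝ) :
    ℝ≥0∞ :=
  ∑ c ∈ CC l, ∑ i ∈ Finset.range (l + 8 * a + 1), ∑ b ∈ Finset.range (3 * 2 ^ i),
    Dn a l sl k (fun p => VV a m sg sl l (w c) c p) i b x

/-! ### The operators -/

/-- the part of the annulus that consists of the `t`-th radial interval of level `l` to the left of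
the radius `1 + k(x) 4^{-m}` (inside the same interval of level `l - 1`), on the frequency side -/
noncomputable def TF (a m : ℕ) (sg sl : ℝ) (k : ℝ × ℝ → ℕ) (l t : ℕ) (H : ℝ × ℝ → ℂ)
    (x : ℝ × ℝ) : ℂ :=
  if t ≤ kc m sg k l x % 4 then
    ∑ p ∈ PP a l, Ex (fun ξ => Mu a m sg sl l (kc m sg k l x - t) p ξ * H ξ) x
  else 0

/-- all levels -/
noncomputable def AF (a m : ℕ) (sg sl : ℝ) (k : ℝ × ℝ → ℕ) (H : ℝ × ℝ → ℂ) (x : ℝ × ℝ) : ℂ :=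
  ∑ l ∈ Finset.Ioc (10 * a) m, ∑ t ∈ Finset.Icc 1 3, TF a m sg sl k l t H x

end Pool.Agent.SLog
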