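import Pool.Agent.SLog.EndTargets
import Pool.Agent.KSP.Sm

set_option autoImplicit false

/-! Strong bounds for disc partial sums (MP_ee701d_an), item S4: the multipliers `muS` on one
octave. -/

namespace Pool.Agent.SEnd

open MeasureTheory FourierTransform Set Filter Topology
open scoped ENNReal NNReal
open Pool.Agent.MBS (E ex T S Sstar et ps mul pm Tstar Pstar MF)
open Pool.Agent.KSP (lg IE BdE muS BI)
open Pool.Agent.LLog (lw2)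
open Pool.Agent.SLog (tKs)

open Pool.Agent.KSP.Sm_ in
theorem pSms (α : ℕ) (h1 : tEtms α) (h0 : KSP.tEt0) : tSms α := by
  obtain ⟨C1, hC1⟩ := h1
  obtain ⟨C0, hC0⟩ := h0
  refine ⟨4 * (C1 + C0), fun m c h hm hc hh => ?_⟩
  set I := ∫⁻ ξ in {ξ : E 2 | c / 2 ≤ ‖ξ‖ ∧ ‖ξ‖ ≤ 2 * c}, ‖h ξ‖ₑ ^ 2 with hI
  set A := fun x : E 2 => ⨆ R ∈ Icc c (2 * c),
      ‖T (fun ξ : E 2 => et (2 ^ m * (1 - ‖ξ‖ ^ 2 / R ^ 2)) * th c ξ) h x‖ₑ with hA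
  set B := fun x : E 2 => ⨆ R ∈ Icc c (2 * c),
      ‖T (fun ξ : E 2 => et (1 - ‖ξ‖ ^ 2 / R ^ 2) * th c ξ) h x‖ₑ with hB
  have hAm : Measurable A := sup_meas c (2 ^ m) (by positivity) hc hh
  have b1 : ∫⁻ x, A x ^ 2 ≤ C1 * ((lg m : ℕ) : ℝ≥0∞) ^ α * I :=
    (hC1 m c (th c) h hm hc (th_cont c) (th_bd c) hh).trans (by gcongr; exact weight c hc h)
  have b0 : ∫⁻ x, B x ^ 2 ≤ C0 * I :=
    (hC0 c (th c) h hc (th_cont c) (th_bd c) hh).trans (by gcongr; exact weight c hc h)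
  have hl1 : (1 : ℝ≥0∞) ≤ ((lg m : ℕ) : ℝ≥0∞) := by
    have : 1 ≤ lg m := by unfold lg; omega
    exact_mod_cast this
  have b0' : ∫⁻ x, B x ^ 2 ≤ C0 * ((lg m : ℕ) : ℝ≥0∞) ^ α * I := by
    refine b0.trans ?_
    calc (C0 : ℝ≥0∞) * I = C0 * 1 ^ α * I := by rw [one_pow, mul_one]
      _ ≤ C0 * ((lg m : ℕ) : ℝ≥0∞) ^ α * I := by gcongr
  calc ∫⁻ x, (⨆ R ∈ Icc c (2 * c), ‖T (muS m R) h x‖ₑ) ^ 2
      ≤ ∫⁻ x, 4 * (A x ^ 2 + B x ^ 2) := by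
        refine lintegral_mono fun x => ?_
        refine le_trans ?_ (sq_add_le (A x) (B x))
        gcongr
        refine iSup₂_le fun R hR => ?_
        rw [T_muS m hc hR hh x]
        refine (enorm_sub_le).trans (add_le_add ?_ ?_)
        · exact le_iSup₂_of_le R hR le_rfl
        · exact le_iSup₂_of_le R hR le_rfl
    _ = 4 * ((∫⁻ x, A x ^ 2) + ∫⁻ x, B x ^ 2) := by
        rw [lintegral_const_mul' _ _ (by norm_num), lintegral_add_left (hAm.pow_const 2)]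
    _ ≤ 4 * (C1 * ((lg m : ℕ) : ℝ≥0∞) ^ α * I + C0 * ((lg m : ℕ) : ℝ≥0∞) ^ α * I) := by gcongr
    _ = ((4 * (C1 + C0) : ℝ≥0) : ℝ≥0∞) * ((lg m : ℕ) : ℝ≥0∞) ^ α * I := by
        push_cast
        ring

end Pool.Agent.SEnd
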