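import Pool.Agent.SLog.Defs

set_option autoImplicit false

/-! MP_ee701d_an, strong (2,2) bound with constant polynomial in `log m`: exact targets.
Proofs: Blueprint.lean.txt. -/

namespace Pool.Agent.SLog

open MeasureTheory Set
open scoped ENNReal NNReal ComplexConjugate
open Pool.Agent.KSP (ee dot nr Ex Ex1 Bd Bd1 n1 n2 lg V0 ann sq)
open Pool.Agent.LLog (PA cd cdr cp fr tp Nn nv tv Core bx sa sd Qx kc psi kap GK psR psA anf mu Bf hat)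

/-! ### A. Multipliers, cutoffs, localisation -/

/-- A1 the cutoff `chi` -/
def tCHI : Prop := ∀ (a m : ℕ), PA a m →
  Measurable (chi m) ∧ (∀ ξ, 0 ≤ chi m ξ ∧ chi m ξ ≤ 1) ∧
  (∀ ξ : ℝ × ℝ, 5 / 4 ≤ ξ.1 → ξ.1 ≤ 29 / 20 → |ξ.2| ≤ 2 / 5 → chi m ξ = 1) ∧
  (∀ ξ : ℝ × ℝ, chi m ξ ≠ 0 → 6 / 5 ≤ ξ.1 ∧ ξ.1 ≤ 3 / 2 ∧ |ξ.2| ≤ 1 / 2) ∧
  Bd (fun ξ => (chi m ξ : ℂ)) ∧
  ∫⁻ z, ‖Ex (fun ξ => (chi m ξ : ℂ)) z‖ₑ ≤ 2 ^ a ∧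
  ∫⁻ z in {z : ℝ × ℝ | ¬ (|z.1| ≤ 2 ^ (2 * a) ∧ |z.2| ≤ 2 ^ (2 * a))},
      ‖Ex (fun ξ => (chi m ξ : ℂ)) z‖ₑ ≤ ENNReal.ofReal (1 / 2 ^ (35 * m))

/-- A2 the multipliers `Mu` -/
def tMUP : Prop := ∀ (a m l c p : ℕ) (sg sl : ℝ), HP a m l sg sl → c ∈ CC l → p ∈ PP a l →
  Bd (Mu a m sg sl l c p) ∧
  (∀ ξ, conj (Mu a m sg sl l c p ξ) = Mu a m sg sl l c p ξ ∧ ‖Mu a m sg sl l c p ξ‖ ≤ 1) ∧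
  (∀ ξ, Mu a m sg sl l c p ξ ≠ 0 → ξ ∈ BX a l sg sl (1 / 2 ^ (4 * a) / 3) c p) ∧
  ∫⁻ ξ, ‖Mu a m sg sl l c p ξ‖ₑ ≤ ENNReal.ofReal (4 / (4 ^ l * 2 ^ (l + 8 * a))) ∧
  ∫⁻ z, ‖Ex (Mu a m sg sl l c p) z‖ₑ ≤ 2 ^ (2 * a) ∧
  ∫⁻ z in (bx (tp sl (l + 8 * a) p) 0 (4 ^ l * 2 ^ (7 * a)) (2 ^ (l + 15 * a)))ᶜ,
      ‖Ex (Mu a m sg sl l c p) z‖ₑ ≤ ENNReal.ofReal (1 / 2 ^ (25 * m))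

/-- A3 values of `Mu` on the core; factorisation -/
def tMUC : Prop := ∀ (a m l c p : ℕ) (sg sl : ℝ), HP a m l sg sl → c ∈ CC l → p ∈ PP a l →
  (∀ ξ, chi m ξ ≠ 0 → cd sg l c ξ → cp sl (l + 8 * a) p ξ →
    fr (2 / 2 ^ (4 * a)) (4 ^ l * (nr ξ - sg)) → fr (2 / 2 ^ (4 * a)) (4 ^ (3 * a) * (nr ξ - sg)) →
    fr (2 / 2 ^ (4 * a)) (2 ^ (l + 8 * a) * (ξ.2 / ξ.1 + sl)) →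
    Mu a m sg sl l c p ξ = (chi m ξ : ℂ)) ∧
  (1 ≤ sg + c / 4 ^ l → ∀ ξ, Mu a m sg sl l c p ξ =
    (psR a m sg l c (dot ξ (nv (tp sl (l + 8 * a) p))) : ℂ) *
      Pp a m sg sl l (c / 4 ^ (l - 3 * a)) p ξ)

/-- A4 the multipliers `Pp` -/
def tPPP : Prop := ∀ (a m l c0 p : ℕ) (sg sl : ℝ), HP a m l sg sl → p ∈ PP a l →
  Bd (Pp a m sg sl l c0 p) ∧ (∀ ξ, ‖Pp a m sg sl l c0 p ξ‖ ≤ 1) ∧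
  (∀ ξ, Pp a m sg sl l c0 p ξ ≠ 0 → cp sl (l + 8 * a) p ξ) ∧
  ∫⁻ z, ‖Ex (Pp a m sg sl l c0 p) z‖ₑ ≤ 2 ^ (3 * a) ∧
  ∫⁻ z in {z : ℝ × ℝ | ¬ (|z.1| ≤ 2 ^ (l + 15 * a) ∧ |z.2| ≤ 2 ^ (l + 15 * a))},
      ‖Ex (Pp a m sg sl l c0 p) z‖ₑ ≤ ENNReal.ofReal (1 / 2 ^ (25 * m))

/-- A5 cells with margins: where they live, small shifts -/
def tBXV : Prop := ∀ (a l c p : ℕ) (sg sl ε : ℝ) (ξ : ℝ × ℝ), 20 ≤ a → 10 * a < l → 1 ≤ sl →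
  sl < 2 → p ∈ PP a l → ε ≤ 1 / 2 ^ (4 * a) → ξ ∈ BX a l sg sl ε c p →
  (0 < ε → ξ ∈ V0 ∧ cd sg l c ξ ∧ cp sl (l + 8 * a) p ξ ∧
    fr ε (4 ^ l * (nr ξ - sg)) ∧ fr ε (2 ^ (l + 8 * a) * (ξ.2 / ξ.1 + sl))) ∧
  (0 ≤ ε → ∀ ζ : ℝ × ℝ, |dot ζ (nv (tp sl (l + 8 * a) p))| ≤ 1 / (4 ^ l * 2 ^ (7 * a)) →
    |dot ζ (tv (tp sl (l + 8 * a) p))| ≤ 1 / 2 ^ (l + 14 * a) →
    ξ + ζ ∈ BX a l sg sl (ε - 1 / 2 ^ (5 * a)) c p)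

/-- A6 boxes in the frames of a cap and of an ancestor -/
def tSBR : Prop := ∀ (a l i p : ℕ) (sl x y : ℝ) (ζ : ℝ × ℝ), 1 ≤ sl → sl < 2 → p ∈ PP a l →
  i ≤ l + 8 * a →
  (|dot ζ (nv (tp sl i (p / 2 ^ (l + 8 * a - i))))| ≤ x →
    |dot ζ (tv (tp sl i (p / 2 ^ (l + 8 * a - i))))| ≤ y →
    |dot ζ (nv (tp sl (l + 8 * a) p))| ≤ x + y / 2 ^ i ∧
    |dot ζ (tv (tp sl (l + 8 * a) p))| ≤ y + x / 2 ^ i) ∧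
  ∀ b, p ∈ near a l i b → |dot ζ (nv (tp sl (l + 8 * a) p))| ≤ x →
    |dot ζ (tv (tp sl (l + 8 * a) p))| ≤ y →
    |dot ζ (nv (tp sl i b))| ≤ x + 3 * y / 2 ^ i ∧ |dot ζ (tv (tp sl i b))| ≤ y + 3 * x / 2 ^ i

/-- A7 products -/
def tCHN : Prop := ∀ (n : ℕ) (t : ℝ) (k0 : ℝ × ℝ → ℂ) (e : ℕ → ℝ × ℝ → ℂ) (α β : ℕ → ℝ), Bd k0 →
  (∀ i < n, Bd (e i) ∧ 0 ≤ α i ∧ 0 ≤ β i ∧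
    ∀ ζ, e i ζ ≠ 0 → |dot ζ (nv t)| ≤ α i ∧ |dot ζ (tv t)| ≤ β i) →
  ∃ k, Bd k ∧ (∀ ξ, k ξ ≠ 0 → ∃ ξ0, k0 ξ0 ≠ 0 ∧
    |dot (ξ - ξ0) (nv t)| ≤ ∑ i ∈ Finset.range n, α i ∧
    |dot (ξ - ξ0) (tv t)| ≤ ∑ i ∈ Finset.range n, β i) ∧
    ∀ x, Ex k x = Ex k0 x * ∏ i ∈ Finset.range n, (1 - Ex (e i) x)

/-- A8 the smooth cutoffs -/
def tETA : Prop := ∀ (m : ℕ) (t b1 b2 : ℝ) (A : Set (ℝ × ℝ)), 1 ≤ m → 0 < b1 → 0 < b2 →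
  MeasurableSet A → volume A < ⊤ →
  Measurable (et m t b1 b2 A) ∧ (∀ x, 0 ≤ et m t b1 b2 A x ∧ et m t b1 b2 A x ≤ 1) ∧
  (∀ x A' B', 40 * m / b1 < A' → 40 * m / b2 < B' → (∀ y ∈ bx t x A' B', y ∉ A) →
    et m t b1 b2 A x ≤ 2 / 2 ^ (40 * m)) ∧
  (∀ x A' B', 40 * m / b1 < A' → 40 * m / b2 < B' → (∀ y ∈ bx t x A' B', y ∈ A) →
    1 - 2 / 2 ^ (40 * m) ≤ et m t b1 b2 A x) ∧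
  ∃ g, Bd g ∧ (∀ ζ, g ζ ≠ 0 → |dot ζ (nv t)| ≤ b1 / 2 ∧ |dot ζ (tv t)| ≤ b2 / 2) ∧
    ∀ x, Ex g x = (et m t b1 b2 A x : ℂ)

/-- A9 averages over boxes -/
def tAVG : Prop := ∀ (t A B : ℝ) (g : ℝ × ℝ → ℝ≥0∞), 0 < A → 0 < B → Measurable g →
  Measurable (av t A B g) ∧ (∀ x, volume (bx t x A B) = ENNReal.ofReal (4 * A * B)) ∧
  (∀ f : ℝ × ℝ → ℝ≥0∞, Measurable f → ∫⁻ x, f x * av t A B g x = ∫⁻ x, av t A B f x * g x) ∧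
  (∀ x, (∀ y, g y ≤ 1) → av t A B g x ≤ 1) ∧
  (∀ (t' A' B' : ℝ) (x y : ℝ × ℝ), 0 < A' → 0 < B' → bx t x A B ⊆ bx t' y A' B' →
    av t A B g x ≤ ENNReal.ofReal (A' * B' / (A * B)) * av t' A' B' g y) ∧
  ∀ (x y : ℝ × ℝ) (A' B' : ℝ), y ∈ bx t x A' B' → bx t y A B ⊆ bx t x (A + A') (B + B')

/-- A10 cutoffs of sets where an average is large -/
def tETP : Prop := ∀ (a m l i b : ℕ) (sl : ℝ) (τ : ℝ≥0) (G : ℝ × ℝ → ℝ≥0∞) (A : Set (ℝ × ℝ)),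
  PA a m → 0 < τ → Measurable G → ∫⁻ x, G x ≠ ⊤ → A = {x | (τ : ℝ≥0∞) ≤ avL a l sl 2 i b G x} →
  MeasurableSet A ∧ volume A < ⊤ ∧
  (∀ x, ENNReal.ofReal (1 - eti a m sl l i b A x) * avL a l sl 1 i b G x ≤
    4 * τ + ENNReal.ofReal (2 / 2 ^ (40 * m)) * avL a l sl 1 i b G x) ∧
  ∀ x, ENNReal.ofReal (eti a m sl l i b A x) * τ ≤
    9 / 4 * avL a l sl 3 i b G x + ENNReal.ofReal (2 / 2 ^ (40 * m)) * τ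

/-- A11 sectors are orthogonal with respect to the weights `GK` of finer frequency -/
def tSCP : Prop := ∀ (a m j n : ℕ) (sl : ℝ) (Y : Set (ℝ × ℝ)) (u : ℕ → ℝ × ℝ → ℂ), PA a m →
  MeasurableSet Y → volume Y < ⊤ →
  (∀ p, Bd (u p) ∧ ∀ ξ, u p ξ ≠ 0 → ξ ∈ V0 ∧ cp sl j p ξ ∧
    fr (1 / 2 ^ (4 * a + 2)) (2 ^ j * (ξ.2 / ξ.1 + sl))) →
  ∫⁻ x, GK a m (j + 3) Y x * ‖∑ p ∈ Finset.range n, Ex (u p) x‖ₑ ^ 2 ≤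
    ∑ p ∈ Finset.range n, ∫⁻ x, GK a m (j + 3) Y x * ‖Ex (u p) x‖ₑ ^ 2

/-- A12 local orthogonality of the sectors -/
def tLCP : Prop := ∀ (a m l n : ℕ) (sl : ℝ) (Y : Set (ℝ × ℝ)) (u : ℕ → ℝ × ℝ → ℂ), PA a m →
  l ≤ m → MeasurableSet Y → volume (nb a l Y) < ⊤ →
  (∀ p < n, Bd (u p) ∧ ∀ ξ, u p ξ ≠ 0 → ξ ∈ V0 ∧ cp sl (l + 8 * a) p ξ ∧
    fr (1 / 2 ^ (4 * a + 2)) (2 ^ (l + 8 * a) * (ξ.2 / ξ.1 + sl))) →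
  ∫⁻ x in Y, ‖∑ p ∈ Finset.range n, Ex (u p) x‖ₑ ^ 2 ≤
    2 * (∑ p ∈ Finset.range n, ∫⁻ x in nb a l Y, ‖Ex (u p) x‖ₑ ^ 2) +
      ENNReal.ofReal (1 / 2 ^ (38 * m)) * ∑ p ∈ Finset.range n, n2 (u p)

/-- A13 the kernels of `Mu` average -/
def tKRN : Prop := ∀ (a m l c p : ℕ) (sg sl : ℝ) (Y : Set (ℝ × ℝ)) (k : ℝ × ℝ → ℂ),
  HP a m l sg sl → c ∈ CC l → p ∈ PP a l → MeasurableSet Y → Bd k →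
  ∫⁻ x in Y, ‖Ex (fun ξ => Mu a m sg sl l c p ξ * k ξ) x‖ₑ ^ 2 ≤
    2 ^ (17 * a) * (∫⁻ x, ‖Ex k x‖ₑ ^ 2 * avK a l sl p (Y.indicator 1) x) +
      ENNReal.ofReal (1 / 2 ^ (40 * m)) * n2 k

/-- A14 simple bounds for the pieces -/
def tVB : Prop := ∀ (a m l : ℕ) (sg sl : ℝ) (g : ℝ × ℝ → ℂ), HP a m l sg sl → Bf g →
  (∀ c ∈ CC l, ∀ p ∈ PP a l, Continuous (vv a m sg sl l g c p) ∧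
    Bd (fun ξ => Mu a m sg sl l c p ξ * hat g ξ) ∧
    (∀ B : ℝ, (∀ x, ‖g x‖ ≤ B) → ∀ x, ‖vv a m sg sl l g c p x‖ ≤ 2 ^ (2 * a) * B) ∧
    ∫⁻ x, VV a m sg sl l g c p x ≤
      ∫⁻ ξ, ‖Mu a m sg sl l c p ξ‖ₑ * ‖hat g ξ‖ₑ ^ 2) ∧
  (∑ c ∈ CC l, ∑ p ∈ PP a l, ∫⁻ ξ, ‖Mu a m sg sl l c p ξ‖ₑ * ‖hat g ξ‖ₑ ^ 2) ≤
    ∫⁻ x, ‖g x‖ₑ ^ 2 ∧
  ∑ c ∈ CC l, ∑ p ∈ PP a l, ∫⁻ x, VV a m sg sl l g c p x ≤ ∫⁻ x, ‖g x‖ₑ ^ 2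

/-- A15 frequency supports of the pieces multiplied by cutoffs -/
def tFRQ : Prop := ∀ (a m l c p : ℕ) (sg sl : ℝ) (w : ℝ × ℝ → ℂ) (Y : Set (ℝ × ℝ)),
  HP a m l sg sl → c ∈ CC l → p ∈ PP a l → Bf w → MeasurableSet Y → volume (nb a l Y) < ⊤ →
  (∃ k, Bd k ∧ (∀ ξ, k ξ ≠ 0 → ξ ∈ BX a l sg sl (1 / 2 ^ (4 * a) / 4) c p) ∧
    ∀ x, Ex k x = (eh a m sl l Y p x : ℂ) * vv a m sg sl l w c p x) ∧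
  (∃ k, Bd k ∧ (∀ ξ, k ξ ≠ 0 → ξ ∈ BX a l sg sl (1 / 2 ^ (4 * a) / 4) c p) ∧
    ∀ x, Ex k x = (1 - eh a m sl l Y p x : ℂ) * vv a m sg sl l w c p x) ∧
  (∃ k, Bd k ∧ (∀ ξ, k ξ ≠ 0 → ξ ∈ BX a l sg sl (1 / 2 ^ (4 * a) / 4) c p) ∧
    ∀ x, Ex k x = ((eh a m sl l Y p x * na a m sl l (VV a m sg sl l w c) p x : ℝ) : ℂ) *
      vv a m sg sl l w c p x) ∧
  (∃ k, Bd k ∧ ∀ x, Ex k x = (((1 - eh a m sl l Y p x) ^ 2 : ℝ) : ℂ) *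
      vv a m sg sl l w c p x) ∧
  (∃ k, Bd k ∧
    ∀ x, Ex k x = (((eh a m sl l Y p x * na a m sl l (VV a m sg sl l w c) p x) ^ 2 : ℝ) : ℂ) *
      vv a m sg sl l w c p x)

/-! ### B. Geometry -/

/-- B1 bilinear estimate for averages in different directions -/
def tHBB : Prop := ∀ (a l : ℕ) (sl : ℝ) (G : ℕ → ℝ × ℝ → ℝ≥0∞), 20 ≤ a → 10 * a < l → 1 ≤ sl →
  sl < 2 → (∀ p, Measurable (G p)) →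
  ∫⁻ x, (∑ p ∈ PP a l, avK a l sl p (G p) x) ^ 2 ≤
    2 ^ (39 * a) * ∑ p ∈ PP a l, ∑ i ∈ Finset.range (l + 8 * a + 1),
      ∫⁻ x, G p x * Dn a l sl 1 G i (p / 2 ^ (l + 8 * a - i)) x

/-- B2 Kakeya maximal function -/
def tKKM : Prop := ∃ C : ℝ≥0, ∀ (N : ℕ) (A B : ℝ) (Z : Set (ℝ × ℝ)) (φ : ℝ × ℝ → ℝ≥0∞),
  MeasurableSet Z → 0 < B → B ≤ A → Measurable φ → (∀ x, φ x ≤ 1) →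
  Measurable (KM A B Z) ∧ (∀ y, KM A B Z y ≤ 1) ∧
  ∫⁻ x, φ x * KM A B Z x ≤
    C * (N + 1) * ENNReal.ofReal (1 + Real.log (A / B)) * (∫⁻ x, φ x) ^ (1 / 2 : ℝ) *
      volume Z ^ (1 / 2 : ℝ) + ENNReal.ofReal (1 / 2 ^ N) * ∫⁻ x, φ x

/-- B3 functions supported in a strip have little energy in thin annuli -/
def tTHN : Prop := ∀ (S δ R y : ℝ) (g : ℝ × ℝ → ℂ), 0 < S → 0 < δ → δ ≤ 1 → 1 ≤ R → Bf g →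
  (∀ x, g x ≠ 0 → |x.1 - y| ≤ S / 2) →
  ∫⁻ ξ in {ξ : ℝ × ℝ | |ξ.2| ≤ ξ.1 ∧ R ≤ nr ξ ∧ nr ξ < R + δ}, ‖hat g ξ‖ₑ ^ 2 ≤
    ENNReal.ofReal (3 * S * δ) * ∫⁻ x, ‖g x‖ₑ ^ 2

/-- B4 number of pairs of cells with a given sum -/
def tCNT : Prop := ∃ C : ℕ, ∀ (a l c : ℕ) (sg sl : ℝ) (ζ : ℝ × ℝ) (S : Finset (ℕ × ℕ)), 20 ≤ a →
  10 * a < l → 0 ≤ sg → sg < 1 → 1 ≤ sl → sl < 2 →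
  (∀ P ∈ S, P.1 ∈ PP a l ∧ P.2 ∈ PP a l ∧
    ∃ ξ ∈ BX a l sg sl (1 / 2 ^ (4 * a) / 4) c P.1,
      ζ - ξ ∈ BX a l sg sl (1 / 2 ^ (4 * a) / 4) c P.2) →
  S.card ≤ C * 2 ^ (16 * a)

/-- B5 Cordoba's `L⁴` estimate -/
def tL4 : Prop := ∃ C : ℝ≥0, ∀ (a l c : ℕ) (sg sl : ℝ) (F : Finset ℕ) (k : ℕ → ℝ × ℝ → ℂ),
  20 ≤ a → 10 * a < l → 0 ≤ sg → sg < 1 → 1 ≤ sl → sl < 2 → F ⊆ PP a l →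
  (∀ p ∈ F, Bd (k p) ∧ ∀ ξ, k p ξ ≠ 0 → ξ ∈ BX a l sg sl (1 / 2 ^ (4 * a) / 4) c p) →
  ∫⁻ x, ‖∑ p ∈ F, Ex (k p) x‖ₑ ^ 4 ≤
    C * 2 ^ (16 * a) * ∫⁻ x, (∑ p ∈ F, ‖Ex (k p) x‖ₑ ^ 2) ^ 2

/-- B6 popular squares -/
def tPQ : Prop := ∀ (a l : ℕ) (X : ℕ → Set (ℝ × ℝ)), 20 ≤ a →
  (∀ c, MeasurableSet (X c) ∧ volume (X c) < ⊤) → (∀ c c', c ≠ c' → Disjoint (X c) (X c')) →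
  (∀ c, MeasurableSet (Pq a l (X c))) ∧
  (∀ c, volume (nb a l (nb a l (Pq a l (X c)))) ≤
    9 * 2 ^ (60 * a) * volume (X c ∩ Pq a l (X c))) ∧
  (∀ x, (open Classical in
    (((CC l).filter (fun c => x ∈ nb a l (Pq a l (X c)))).card : ℝ≥0∞)) ≤ 9 * 2 ^ (60 * a)) ∧
  ∀ c y, volume ((X c \ Pq a l (X c)) ∩ sq y (2 ^ l)) ≤
    ENNReal.ofReal (4 * 4 ^ l / 2 ^ (24 * a))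

/-! ### C. The dual estimate -/

/-- C1 unpopular points -/
def tUNP : Prop := ∃ C : ℝ≥0, ∀ (a m l : ℕ) (sg sl : ℝ) (U : ℕ → Set (ℝ × ℝ)) (H : ℝ × ℝ → ℂ),
  HP a m l sg sl → (∀ c, MeasurableSet (U c) ∧
    ∀ y, volume (U c ∩ sq y (2 ^ l)) ≤ ENNReal.ofReal (4 * 4 ^ l / 2 ^ (24 * a))) →
  Measurable H → (∃ B : ℝ, ∀ ξ, ‖H ξ‖ ≤ B) →
  ∑ c ∈ CC l, ∫⁻ x in U c, ‖∑ p ∈ PP a l, Ex (fun ξ => Mu a m sg sl l c p ξ * H ξ) x‖ₑ ^ 2 ≤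
    C * ENNReal.ofReal (1 / 2 ^ (10 * a)) * ∫⁻ ξ, ‖H ξ‖ₑ ^ 2

/-- C2 the dual form -/
def tUND : Prop := ∃ C : ℝ≥0, ∀ (a m l : ℕ) (sg sl : ℝ) (U : ℕ → Set (ℝ × ℝ))
    (w : ℕ → ℝ × ℝ → ℂ), HP a m l sg sl → (∀ c, MeasurableSet (U c) ∧
    ∀ y, volume (U c ∩ sq y (2 ^ l)) ≤ ENNReal.ofReal (4 * 4 ^ l / 2 ^ (24 * a))) →
  Fm w → (∀ c x, w c x ≠ 0 → x ∈ U c) →
  ∫⁻ x, ‖∑ c ∈ CC l, ∑ p ∈ PP a l, vv a m sg sl l (w c) c p x‖ₑ ^ 2 ≤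
    C * ENNReal.ofReal (1 / 2 ^ (10 * a)) * volume (EE l w)

/-- C3 pairing with the function -/
def tPRG : Prop := ∀ (a m l c : ℕ) (sg sl : ℝ) (w : ℝ × ℝ → ℂ) (Y : Set (ℝ × ℝ))
    (θ : ℕ → ℝ × ℝ → ℝ), HP a m l sg sl → c ∈ CC l → Bf w → (∀ x, ‖w x‖ ≤ 1) →
  MeasurableSet Y → volume (nb a l Y) < ⊤ → (∀ x, w x ≠ 0 → x ∈ Y) →
  (∀ p ∈ PP a l, Measurable (θ p) ∧ (∀ x, 0 ≤ θ p x ∧ θ p x ≤ 1) ∧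
    ∃ k, Bd k ∧ ∀ x, Ex k x = ((θ p x ^ 2 : ℝ) : ℂ) * vv a m sg sl l w c p x) →
  (∑ p ∈ PP a l, ∫⁻ x, ENNReal.ofReal (θ p x ^ 2) * VV a m sg sl l w c p x) ^ 2 ≤
    volume {x | w x ≠ 0} * (2 ^ (18 * a) * (∑ p ∈ PP a l, ∫⁻ x, ENNReal.ofReal (θ p x ^ 4) *
      VV a m sg sl l w c p x * avK a l sl p ((nb a l Y).indicator 1) x) +
      ENNReal.ofReal (1 / 2 ^ (20 * m)) * volume {x | w x ≠ 0})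

/-- C4 light part -/
def tLGT : Prop := ∀ (a m l c : ℕ) (sg sl : ℝ) (w : ℝ × ℝ → ℂ) (Y : Set (ℝ × ℝ)),
  HP a m l sg sl → c ∈ CC l → Bf w → (∀ x, ‖w x‖ ≤ 1) →
  MeasurableSet Y → volume (nb a l Y) < ⊤ → (∀ x, w x ≠ 0 → x ∈ Y) →
  ∑ p ∈ PP a l, ∫⁻ x, ENNReal.ofReal ((1 - eh a m sl l Y p x) ^ 2) * VV a m sg sl l w c p x ≤
    ENNReal.ofReal (8 / 2 ^ (10 * a)) * volume {x | w x ≠ 0}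

/-- C5 part that is active at no level -/
def tREM : Prop := ∀ (a m l c : ℕ) (sg sl : ℝ) (w : ℝ × ℝ → ℂ) (Y : Set (ℝ × ℝ)),
  HP a m l sg sl → c ∈ CC l → Bf w → (∀ x, ‖w x‖ ≤ 1) →
  MeasurableSet Y → volume (nb a l Y) ≤ 9 * 2 ^ (60 * a) * volume {x | w x ≠ 0} →
  (∀ x, w x ≠ 0 → x ∈ Y) →
  ∑ p ∈ PP a l, ∫⁻ x,
      ENNReal.ofReal ((eh a m sl l Y p x * na a m sl l (VV a m sg sl l w c) p x) ^ 2) *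
      VV a m sg sl l w c p x ≤
    ENNReal.ofReal (4 / 2 ^ (10 * a)) * volume {x | w x ≠ 0}

/-- C6 weighted square sums of all pieces -/
def tKQ : Prop := ∀ (a m l : ℕ) (sg sl : ℝ) (w : ℕ → ℝ × ℝ → ℂ) (Φ : ℕ → ℝ × ℝ → ℝ≥0∞)
    (W : ℝ × ℝ → ℝ≥0∞), HP a m l sg sl → Fm w → (∀ p, Measurable (Φ p) ∧ ∀ x, Φ p x ≤ 1) →
  Measurable W →
  (∀ p ∈ PP a l, ∀ y z : ℝ × ℝ, |y.1 - z.1| ≤ 2 ^ (l + 16 * a) → |y.2 - z.2| ≤ 2 ^ (l + 16 * a) →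
    av (tp sl (l + 8 * a) p) (2 * (4 ^ l * 2 ^ (7 * a))) (4 * 2 ^ (l + 16 * a)) (Φ p) z ≤ W y) →
  ∑ c ∈ CC l, ∑ p ∈ PP a l, ∫⁻ x, Φ p x * VV a m sg sl l (w c) c p x ≤
    2 ^ (32 * a) * (∫⁻ x in EE l w, W x) + ENNReal.ofReal (1 / 2 ^ (20 * m)) * volume (EE l w)

/-- C7 square sums on a set -/
def tK0 : Prop := ∃ C : ℝ≥0, ∀ (a m l : ℕ) (sg sl : ℝ) (w : ℕ → ℝ × ℝ → ℂ) (Z : Set (ℝ × ℝ)),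
  HP a m l sg sl → Fm w → MeasurableSet Z →
  ∫⁻ x in Z, ∑ c ∈ CC l, ∑ p ∈ PP a l, VV a m sg sl l (w c) c p x ≤
    C * 2 ^ (34 * a) * volume (EE l w) ^ (1 / 2 : ℝ) * volume Z ^ (1 / 2 : ℝ) +
      ENNReal.ofReal (1 / 2 ^ (9 * m)) * volume (EE l w)

/-- C8 the local densities on a set -/
def tKN : Prop := ∃ C : ℝ≥0, ∀ (a m l k : ℕ) (sg sl : ℝ) (w : ℕ → ℝ × ℝ → ℂ) (Z : Set (ℝ × ℝ)),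
  HP a m l sg sl → Fm w → MeasurableSet Z → 1 ≤ k → k ≤ 4 →
  Measurable (NN a m sg sl l w k) ∧
  ∫⁻ x, NN a m sg sl l w k x ≤ 2 ^ (2 * a) * volume (EE l w) ∧
  ∫⁻ x in Z, NN a m sg sl l w k x ≤
    C * 2 ^ (36 * a) * volume (EE l w) ^ (1 / 2 : ℝ) * volume Z ^ (1 / 2 : ℝ) +
      ENNReal.ofReal (1 / 2 ^ (7 * m)) * volume (EE l w)

/-- C9 `L⁴` norm of the square function -/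
def tV2 : Prop := ∃ C : ℝ≥0, ∀ (a m l : ℕ) (sg sl : ℝ) (w : ℕ → ℝ × ℝ → ℂ),
  HP a m l sg sl → Fm w →
  ∫⁻ x, (∑ c ∈ CC l, ∑ p ∈ PP a l, VV a m sg sl l (w c) c p x) ^ 2 ≤
    C * 2 ^ (70 * a) * volume (EE l w)

/-- C10 overlap of the cutoffs -/
def tOVL : Prop := ∀ (a m l : ℕ) (sg sl : ℝ) (w : ℕ → ℝ × ℝ → ℂ) (Y : ℕ → Set (ℝ × ℝ)),
  HP a m l sg sl → Pf a l w Y → ∀ x,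
  (∀ p ∈ PP a l, ∑ c ∈ CC l, ENNReal.ofReal (eh a m sl l (Y c) p x) ≤ 21 * 2 ^ (118 * a)) ∧
  ∑ c ∈ CC l, ∑ i ∈ Finset.range (l + 8 * a + 1), ∑ b ∈ Finset.range (3 * 2 ^ i),
    ENNReal.ofReal (ea a m sl l (VV a m sg sl l (w c) c) i b x) ≤
    3 * 2 ^ (176 * a) * (NN a m sg sl l w 3 x + 1)

/-- C11 heavy part on the set where the density is large -/
def tBDZ : Prop := ∃ C : ℝ≥0, ∀ (a m l : ℕ) (sg sl : ℝ) (w : ℕ → ℝ × ℝ → ℂ)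
    (Y : ℕ → Set (ℝ × ℝ)), HP a m l sg sl → Pf a l w Y →
  ∫⁻ x in {x | 2 ^ (210 * a) < NN a m sg sl l w 3 x}, ‖∑ c ∈ CC l, ∑ p ∈ PP a l,
      (eh a m sl l (Y c) p x : ℂ) * vv a m sg sl l (w c) c p x‖ₑ ^ 2 ≤
    C * ENNReal.ofReal (1 / 2 ^ (20 * a)) * volume (EE l w)

/-- C12 main part -/
def tMAI : Prop := ∃ C : ℝ≥0, ∀ (a m l : ℕ) (sg sl : ℝ) (w : ℕ → ℝ × ℝ → ℂ)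
    (Y : ℕ → Set (ℝ × ℝ)), HP a m l sg sl → Pf a l w Y →
  ∫⁻ x in {x | NN a m sg sl l w 3 x ≤ 2 ^ (210 * a)}, ‖∑ c ∈ CC l, ∑ p ∈ PP a l,
      ((eh a m sl l (Y c) p x * (1 - na a m sl l (VV a m sg sl l (w c) c) p x) : ℝ) : ℂ) *
        vv a m sg sl l (w c) c p x‖ₑ ^ 4 ≤
    C * 2 ^ (1250 * a) * volume (EE l w)

/-- C13 the dual estimate -/
def tD : Prop := ∃ C : ℝ≥0, ∀ (a m l : ℕ) (sg sl : ℝ) (w : ℕ → ℝ × ℝ → ℂ),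
  HP a m l sg sl → Fm w → ∃ v1 v2 : ℝ × ℝ → ℂ, Measurable v1 ∧ Measurable v2 ∧
  (∀ x, ∑ c ∈ CC l, ∑ p ∈ PP a l, vv a m sg sl l (w c) c p x = v1 x + v2 x) ∧
  ∫⁻ x, ‖v1 x‖ₑ ^ 4 ≤ C * 2 ^ (1250 * a) * volume (EE l w) ∧
  ∫⁻ x, ‖v2 x‖ₑ ^ 2 ≤ C * ENNReal.ofReal (1 / 2 ^ (9 * a)) * volume (EE l w)

/-! ### E. Bounded functions -/

/-- E1 Bessel on short intervals -/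
def tBES : Prop := ∀ (n N : ℕ) (T : ℝ) (F : ℝ → ℂ), 0 < T → Measurable F →
  (∃ B : ℝ, ∀ s, ‖F s‖ ≤ B) →
  ∑ c ∈ Finset.range n, ‖∫ s in Ico (-(N * T)) (N * T), F s * ee (c * s / T)‖ₑ ^ 2 ≤
    ENNReal.ofReal (2 * N * T) * ∫⁻ s in Ico (-(N * T)) (N * T), ‖F s‖ₑ ^ 2

/-- E2 all radial intervals of a base interval, one cap -/
def tEBS : Prop := ∀ (a m l c0 p : ℕ) (sg sl : ℝ) (Y : Set (ℝ × ℝ)) (g : ℝ × ℝ → ℂ),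
  HP a m l sg sl → p ∈ PP a l → MeasurableSet Y → Bf g →
  ∑ c ∈ (CC l).filter (fun c => c / 4 ^ (l - 3 * a) = c0),
      ∫⁻ x in Y, VV a m sg sl l g c p x ≤
    2 ^ (13 * a) * (∫⁻ x, ‖Ex (fun ξ => Pp a m sg sl l c0 p ξ * hat g ξ) x‖ₑ ^ 2 *
      sa (tp sl (l + 8 * a) p) (4 ^ l * 2 ^ (6 * a)) Y x) +
    ENNReal.ofReal (1 / 2 ^ (30 * m)) * ∫⁻ x, ‖g x‖ₑ ^ 2

/-- E3 caps can be summed on squares -/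
def tSQL : Prop := ∀ (a m l c0 : ℕ) (sg sl : ℝ) (g : ℝ × ℝ → ℂ) (Φ : ℕ → ℝ × ℝ → ℝ≥0∞)
    (W : ℝ × ℝ → ℝ≥0∞), HP a m l sg sl → Bf g → (∀ p, Measurable (Φ p) ∧ ∀ x, Φ p x ≤ 1) →
  Measurable W →
  (∀ p ∈ PP a l, ∀ x y : ℝ × ℝ, |x.1 - y.1| ≤ 3 * 2 ^ (l + 16 * a) →
    |x.2 - y.2| ≤ 3 * 2 ^ (l + 16 * a) → Φ p x ≤ W y) →
  ∑ p ∈ PP a l, ∫⁻ x, ‖Ex (fun ξ => Pp a m sg sl l c0 p ξ * hat g ξ) x‖ₑ ^ 2 * Φ p x ≤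
    18 * (∫⁻ x, ‖g x‖ₑ ^ 2 * W x) + ENNReal.ofReal (1 / 2 ^ (20 * m)) * ∫⁻ x, ‖g x‖ₑ ^ 2

/-- E4 the estimate for bounded functions -/
def tE : Prop := ∃ C : ℝ≥0, ∀ (a m l : ℕ) (sg sl : ℝ) (X : ℕ → Set (ℝ × ℝ)) (g : ℝ × ℝ → ℂ),
  HP a m l sg sl → (∀ c, MeasurableSet (X c) ∧ volume (X c) < ⊤) →
  (∀ c c', c ≠ c' → Disjoint (X c) (X c')) → Bf g → (∀ x, ‖g x‖ ≤ 1) →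
  ∑ c ∈ CC l, ∫⁻ x in X c, ‖∑ p ∈ PP a l, vv a m sg sl l g c p x‖ₑ ^ 2 ≤
    C * ENNReal.ofReal (1 / 2 ^ (9 * a)) * (∫⁻ x, ‖g x‖ₑ ^ 2) +
      C * 2 ^ (60 * a) * (∑ c ∈ CC l, volume (X c)) ^ (1 / 2 : ℝ) *
        (∫⁻ x, ‖g x‖ₑ ^ 2) ^ (1 / 2 : ℝ)

/-! ### F. The operators -/

/-- F1 trivial bounds -/
def tTRV : Prop := ∀ (a m l t : ℕ) (sg sl : ℝ) (k : ℝ × ℝ → ℕ), HP a m l sg sl → 1 ≤ t → t ≤ 3 →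
  Measurable k → (∀ x, k x < 4 ^ m) →
  (∀ x, t ≤ kc m sg k l x % 4 → kc m sg k l x - t ∈ CC l) ∧
  (∀ H : ℝ × ℝ → ℂ, Measurable H → (∃ B : ℝ, ∀ ξ, ‖H ξ‖ ≤ B) →
    Measurable (TF a m sg sl k l t H) ∧
    ∫⁻ x, ‖TF a m sg sl k l t H x‖ₑ ^ 2 ≤ ∫⁻ ξ in {ξ | chi m ξ ≠ 0}, ‖H ξ‖ₑ ^ 2) ∧
  ∀ g : ℝ × ℝ → ℂ, Bf g →
    ∫⁻ x, ‖TF a m sg sl k l t (hat g) x‖ₑ ≤ 2 ^ (5 * m) * ∫⁻ x, ‖g x‖ₑ ∧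
    ∀ B : ℝ, (∀ x, ‖g x‖ ≤ B) → ∀ x, ‖TF a m sg sl k l t (hat g) x‖ ≤ 2 ^ (5 * m) * B

/-- F2 large functions -/
def tOP : Prop := ∃ C : ℝ≥0, ∀ (a m l t : ℕ) (sg sl : ℝ) (k : ℝ × ℝ → ℕ) (g : ℝ × ℝ → ℂ)
    (lam : ℝ≥0), HP a m l sg sl → 1 ≤ t → t ≤ 3 → Measurable k → (∀ x, k x < 4 ^ m) → Bf g →
  (∀ x, g x ≠ 0 → 1 ≤ ‖g x‖) →
  (lam : ℝ≥0∞) ^ 2 * volume {x | (lam : ℝ≥0∞) < ‖TF a m sg sl k l t (hat g) x‖ₑ} ≤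
    C * (ENNReal.ofReal (1 / 2 ^ (9 * a)) + 2 ^ (420 * a) * (lam : ℝ≥0∞) ^ (2 / 3 : ℝ)) *
      ∫⁻ x, ‖g x‖ₑ ^ 2

/-- F3 small functions -/
def tOM : Prop := ∃ C : ℝ≥0, ∀ (a m l t : ℕ) (sg sl : ℝ) (k : ℝ × ℝ → ℕ) (g : ℝ × ℝ → ℂ)
    (lam : ℝ≥0), HP a m l sg sl → 1 ≤ t → t ≤ 3 → Measurable k → (∀ x, k x < 4 ^ m) → Bf g →
  (∀ x, ‖g x‖ ≤ 1) →
  (lam : ℝ≥0∞) ^ 4 * volume {x | (lam : ℝ≥0∞) < ‖TF a m sg sl k l t (hat g) x‖ₑ} ≤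
    C * (ENNReal.ofReal (1 / 2 ^ (9 * a)) * (lam : ℝ≥0∞) ^ 2 + 2 ^ (120 * a)) *
      ∫⁻ x, ‖g x‖ₑ ^ 2

/-- F4 the sum over all levels for core functions -/
def tTEL : Prop := ∀ (a m : ℕ) (sg sl : ℝ) (k : ℝ × ℝ → ℕ) (H : ℝ × ℝ → ℂ), PA a m →
  0 ≤ sg → sg < 1 → 1 ≤ sl → sl < 2 → (∀ x, k x < 4 ^ m) → Measurable H →
  (∃ B : ℝ, ∀ ξ, ‖H ξ‖ ≤ B) → Core a m sg sl (fun ξ => (chi m ξ : ℂ) * H ξ) → ∀ x,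
  AF a m sg sl k H x = Ex ({ξ | sg + kc m sg k (10 * a) x / 4 ^ (10 * a) ≤ nr ξ ∧
    nr ξ < sg + kc m sg k m x / 4 ^ m}.indicator (fun ξ => (chi m ξ : ℂ) * H ξ)) x

/-- F5 comparison with the partial sums -/
def tDIF : Prop := ∃ C : ℝ≥0, ∀ (a m : ℕ) (sg sl : ℝ) (k : ℝ × ℝ → ℕ) (H : ℝ × ℝ → ℂ)
    (G : Set (ℝ × ℝ)), PA a m → 0 ≤ sg → sg < 1 → 1 ≤ sl → sl < 2 → Measurable k →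
  (∀ x, k x < 4 ^ m) → Measurable H → (∃ B : ℝ, ∀ ξ, ‖H ξ‖ ≤ B) → MeasurableSet G →
  Core a m sg sl (G.indicator (fun ξ => (chi m ξ : ℂ) * H ξ)) →
  Measurable (AF a m sg sl k H) ∧
  ∫⁻ x, ‖Ex ((ann 1 (1 + k x / 4 ^ m)).indicator (fun ξ => (chi m ξ : ℂ) * H ξ)) x -
      AF a m sg sl k H x‖ₑ ^ 2 ≤
    C * a ^ 2 * (∫⁻ ξ, ‖H ξ‖ₑ ^ 2) + C * m ^ 2 * ∫⁻ ξ in {ξ | chi m ξ ≠ 0} \ G, ‖H ξ‖ₑ ^ 2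

/-- F6 weak type bound for the operators -/
def tWKA : Prop := ∃ C : ℝ≥0, ∀ (a m : ℕ) (sg sl : ℝ) (k : ℝ × ℝ → ℕ) (H : ℝ × ℝ → ℂ)
    (G : Set (ℝ × ℝ)) (lam : ℝ≥0), PA a m → a = lg m → 0 ≤ sg → sg < 1 → 1 ≤ sl → sl < 2 →
  Measurable k → (∀ x, k x < 4 ^ m) → Measurable H → (∃ B : ℝ, ∀ ξ, ‖H ξ‖ ≤ B) →
  MeasurableSet G → Core a m sg sl (G.indicator (fun ξ => (chi m ξ : ℂ) * H ξ)) →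
  (lam : ℝ≥0∞) ^ 2 * volume {x | (lam : ℝ≥0∞) < ‖AF a m sg sl k H x‖ₑ} ≤
    C * a ^ 11 * (∫⁻ ξ, ‖H ξ‖ₑ ^ 2) + C * m ^ 2 * ∫⁻ ξ in {ξ | chi m ξ ≠ 0} \ G, ‖H ξ‖ₑ ^ 2

/-- F7 interpolation (a lemma on functions) -/
def tINT : Prop := ∃ C : ℝ≥0, ∀ (a m n : ℕ) (J0 J1 : ℤ) (F : ℕ → ℤ → ℝ × ℝ → ℂ)
    (G : ℤ → ℝ≥0∞) (K : ℝ≥0) (Nr : ℤ → ℝ≥0∞), PA a m → n ≤ 3 * m → 1 ≤ K →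
  (∀ ν j, Measurable (F ν j)) →
  (∀ ν < n, ∀ j, ∀ lam : ℝ≥0,
    (lam : ℝ≥0∞) ^ 2 * volume {x | (2 : ℝ≥0∞) ^ j * lam < ‖F ν j x‖ₑ} ≤
    K * (ENNReal.ofReal (1 / 2 ^ (9 * a)) + 2 ^ (420 * a) * (lam : ℝ≥0∞) ^ (2 / 3 : ℝ)) *
      ((2 : ℝ≥0∞) ^ (-2 * j) * G j)) →
  (∀ ν < n, ∀ j, ∀ lam : ℝ≥0,
    (lam : ℝ≥0∞) ^ 4 * volume {x | (2 : ℝ≥0∞) ^ j * lam < ‖F ν j x‖ₑ} ≤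
    K * (ENNReal.ofReal (1 / 2 ^ (9 * a)) * (lam : ℝ≥0∞) ^ 2 + 2 ^ (120 * a)) *
      ((2 : ℝ≥0∞) ^ (-2 * j) * G j)) →
  (∀ ν < n, ∀ j, ∀ lam : ℝ≥0,
    lam * volume {x | (2 : ℝ≥0∞) ^ j * lam < ‖F ν j x‖ₑ} ≤
      2 ^ (5 * m) * ((2 : ℝ≥0∞) ^ (-2 * j) * G j)) →
  (∀ ν < n, ∀ j x, ‖F ν j x‖ₑ ≤ 2 ^ (5 * m) * (2 : ℝ≥0∞) ^ (j + 1)) →
  (∀ i : ℤ, ∀ lam : ℝ≥0, (lam : ℝ≥0∞) ^ 2 * volume {x | (lam : ℝ≥0∞) < ‖∑ ν ∈ Finset.range n,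
    ∑ j ∈ (Finset.Icc J0 J1).filter (fun j => |j - i| ≤ 700 * a), F ν j x‖ₑ} ≤ Nr i) →
  ∫⁻ x, ‖∑ ν ∈ Finset.range n, ∑ j ∈ Finset.Icc J0 J1, F ν j x‖ₑ ^ 2 ≤
    C * (∑' i, Nr i) + C * K * ∑ j ∈ Finset.Icc J0 J1, G j

/-- F8 strong bound in a small sector -/
def tSV : Prop := ∃ C : ℝ≥0, ∀ (m : ℕ) (h : ℝ × ℝ → ℂ), 1 ≤ m → Bd h →
  (∀ ξ, h ξ ≠ 0 → 13 / 10 ≤ nr ξ ∧ nr ξ < 7 / 5 ∧ |ξ.2| ≤ ξ.1 / 5) →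
  ∫⁻ x, (⨆ k ∈ Finset.range (4 ^ m), ‖Ex ((ann 1 (1 + k / 4 ^ m)).indicator h) x‖ₑ) ^ 2 ≤
    C * ((lg m : ℕ) : ℝ≥0∞) ^ 12 * n2 h

/-- F9 strong bound on the annulus, `2^m` radii, exponent `α` -/
def tKs (α : ℕ) : Prop := ∃ C : ℝ≥0, ∀ (m : ℕ) (h : ℝ × ℝ → ℂ), 1 ≤ m → Bd h →
  (∀ ξ, h ξ ≠ 0 → 1 ≤ nr ξ ∧ nr ξ < 2) →
  ∫⁻ x, (⨆ k ∈ Finset.range (2 ^ m), ‖Ex ((ann 1 (1 + k / 2 ^ m)).indicator h) x‖ₑ) ^ 2 ≤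
    C * ((lg m : ℕ) : ℝ≥0∞) ^ α * n2 h

end Pool.Agent.SLog
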