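import Pool.Agent.LLog.EndTargets
import Pool.Agent.SLog.Targets

set_option autoImplicit false

/-! Strong type bounds for disc partial sums (MP_ee701d_an), `2^m` radii per octave with a power of
`log m`: from the annulus to `S^*`, exact targets.  The exponent `α` of the logarithm is a
parameter.  Final targets: `tDSs`, `tFA1s`, `tFBs`.  The proofs are those of Pool/Agent/KSP with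
`m (lg m)^5` replaced by `(lg m)^α`. -/

namespace Pool.Agent.SEnd

open MeasureTheory FourierTransform Set Filter Topology
open scoped ENNReal NNReal
open Pool.Agent.MBS (E ex T S Sstar et ps mul pm Tstar Pstar MF)
open Pool.Agent.KSP (lg IE BdE muS BI)
open Pool.Agent.LLog (lw2)
open Pool.Agent.SLog (tKs)

/-- S2 transfer to `E 2`, all dilations -/
def tKEs (α : ℕ) : Prop := ∃ C : ℝ≥0, ∀ (m : ℕ) (c : ℝ) (h : E 2 → ℂ), 1 ≤ m → 0 < c → BdE h →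
  ∫⁻ x, (⨆ k ∈ Finset.range (2 ^ m),
      ‖IE ({ξ : E 2 | c ≤ ‖ξ‖ ∧ ‖ξ‖ < c * (1 + k / 2 ^ m)}.indicator h) x‖ₑ) ^ 2 ≤
    C * ((lg m : ℕ) : ℝ≥0∞) ^ α * ∫⁻ ξ in {ξ : E 2 | c ≤ ‖ξ‖ ∧ ‖ξ‖ < 2 * c}, ‖h ξ‖ₑ ^ 2

/-- S3 the multipliers `et(2^m u)` on one octave -/
def tEtms (α : ℕ) : Prop := ∃ C : ℝ≥0, ∀ (m : ℕ) (c : ℝ) (θ : E 2 → ℝ) (h : E 2 → ℂ), 1 ≤ m →
  0 < c → Continuous θ → (∀ ξ, 0 ≤ θ ξ ∧ θ ξ ≤ 1) → Continuous h →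
  ∫⁻ x, (⨆ R ∈ Icc c (2 * c),
      ‖T (fun ξ => et (2 ^ m * (1 - ‖ξ‖ ^ 2 / R ^ 2)) * θ ξ) h x‖ₑ) ^ 2 ≤
    C * ((lg m : ℕ) : ℝ≥0∞) ^ α * ∫⁻ ξ in {ξ : E 2 | ‖ξ‖ ≤ 2 * c}, ‖θ ξ‖ₑ ^ 2 * ‖h ξ‖ₑ ^ 2

/-- S4 one octave -/
def tSms (α : ℕ) : Prop := ∃ C : ℝ≥0, ∀ (m : ℕ) (c : ℝ) (h : E 2 → ℂ), 1 ≤ m → 0 < c →
  Continuous h →
  ∫⁻ x, (⨆ R ∈ Icc c (2 * c), ‖T (muS m R) h x‖ₑ) ^ 2 ≤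
    C * ((lg m : ℕ) : ℝ≥0∞) ^ α *
      ∫⁻ ξ in {ξ : E 2 | c / 2 ≤ ‖ξ‖ ∧ ‖ξ‖ ≤ 2 * c}, ‖h ξ‖ₑ ^ 2

/-- S5 all octaves -/
def tSSs (α : ℕ) : Prop := ∃ C : ℝ≥0, ∀ (m : ℕ) (f : E 2 → ℂ), 1 ≤ m → Integrable f →
  MemLp f 2 →
  ∫⁻ x, (⨆ (R : ℝ) (_ : 0 < R), ‖T (muS m R) (𝓕 f) x‖ₑ) ^ 2 ≤
    C * ((lg m : ℕ) : ℝ≥0∞) ^ α * ∫⁻ x, ‖f x‖ₑ ^ 2

/-- S6 `δ`-separated radii -/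
def tDSs (α : ℕ) : Prop := ∃ C : ℝ≥0, ∀ (δ : ℝ) (A : Set ℝ) (f : E 2 → ℂ), 0 < δ → δ ≤ 1 / 2 →
  (∀ R ∈ A, 0 < R) → (∀ R ∈ A, ∀ R' ∈ A, R < R' → R + δ * R' ≤ R') →
  Measurable f → Integrable f → MemLp f 2 →
  ∫⁻ x, (⨆ R ∈ A, ‖S f R x‖ₑ) ^ 2 ≤
    C * ENNReal.ofReal (Real.log (3 + Real.log δ⁻¹) ^ α) * ∫⁻ x, ‖f x‖ₑ ^ 2

/-- S7 the Nash quotient -/
def tFBs (α : ℕ) : Prop := ∀ s : ℝ, 0 < s → ∃ C : ℝ, ∀ (f : E 2 → ℂ) (Q : ℝ), Measurable f →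
  Integrable f → MemLp f 2 → 1 ≤ Q →
  (∫⁻ x, ‖f x‖ₑ) ^ s * (∫⁻ ξ, ENNReal.ofReal (‖ξ‖ ^ (2 * s)) * ‖𝓕 f ξ‖ₑ ^ 2) ^ (1 / 2 : ℝ)
    ≤ ENNReal.ofReal Q * ((∫⁻ x, ‖f x‖ₑ ^ 2) ^ (1 / 2 : ℝ)) ^ (1 + s) →
  ∫⁻ x, Sstar f x ^ 2 ≤
    ENNReal.ofReal (C * Real.log (3 + Real.log Q) ^ α) * ∫⁻ x, ‖f x‖ₑ ^ 2

/-- S8 local maximal inequality with the weight `lw2 α` -/
def tFA0s (α : ℕ) : Prop := ∃ C : ℝ≥0, ∀ (f : E 2 → ℂ) (x0 : E 2), Measurable f → Integrable f →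
  MemLp f 2 →
  ∫⁻ x in Metric.closedBall x0 1, Sstar f x ^ 2 ≤
    C * ∫⁻ ξ, ‖𝓕 f ξ‖ₑ ^ 2 * ENNReal.ofReal (lw2 α ξ)

/-- S9 the same for all `g ∈ L²(lw2 α)` on the Fourier side -/
def tFA1s (α : ℕ) : Prop := ∃ C : ℝ≥0, ∀ (g : E 2 → ℂ) (x0 : E 2), Measurable g →
  ∫⁻ x in Metric.closedBall x0 1, (⨆ (R : ℝ) (_ : 0 < R), ‖BI g R x‖ₑ) ^ 2 ≤
    C * ∫⁻ ξ, ‖g ξ‖ₑ ^ 2 * ENNReal.ofReal (lw2 α ξ)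

end Pool.Agent.SEnd
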