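import Pool.Agent.SLog.Targets
import Pool.Agent.LLog.KAK

set_option autoImplicit false

/-! SLog HBB: bilinear estimate for averages over boxes in different directions. -/

namespace Pool.Agent.SLog

open MeasureTheory Set
open scoped ENNReal NNReal
open Pool.Agent.KSP (dot)
open Pool.Agent.LLog (tp Nn nv tv bx)

namespace HBB_

/-- the level of a pair -/
lemma exists_level (p p' j : ℕ) (h0 : p' / 2 ^ j ≤ p / 2 ^ j + 2 ∧ p / 2 ^ j ≤ p' / 2 ^ j + 2) :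
    ∃ i, i ≤ j ∧ (p' / 2 ^ (j - i) ≤ p / 2 ^ (j - i) + 2 ∧ p / 2 ^ (j - i) ≤ p' / 2 ^ (j - i) + 2) ∧
      (i < j → p' + 2 ^ (j - (i + 1)) < p ∨ p + 2 ^ (j - (i + 1)) < p') := by
  classical
  have aux : ∀ (s u v : ℕ), ¬ (u / 2 ^ s ≤ v / 2 ^ s + 1) → v + 2 ^ s < u := by
    intro s u v h
    have h1 : v / 2 ^ s + 2 ≤ u / 2 ^ s := by omega
    have h2 : 2 ^ s * (u / 2 ^ s) ≤ u := Nat.mul_div_le u (2 ^ s)
    have h3 : v < 2 ^ s * (v / 2 ^ s + 1) := by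
      rw [mul_comm]
      exact Nat.lt_mul_of_div_lt (Nat.lt_succ_self _) (by positivity)
    have h4 : 2 ^ s * (v / 2 ^ s + 2) ≤ 2 ^ s * (u / 2 ^ s) := Nat.mul_le_mul_left _ h1
    have h5 : 2 ^ s * (v / 2 ^ s + 2) = 2 ^ s * (v / 2 ^ s + 1) + 2 ^ s := by ring
    omega
  let P : ℕ → Prop := fun i => p' / 2 ^ (j - i) ≤ p / 2 ^ (j - i) + 1 ∧
    p / 2 ^ (j - i) ≤ p' / 2 ^ (j - i) + 1
  refine ⟨Nat.findGreatest P j, Nat.findGreatest_le j, ?_, ?_⟩
  · by_cases h : Nat.findGreatest P j = 0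
    · rw [h]
      simpa using h0
    · have h1 := Nat.findGreatest_of_ne_zero (P := P) (n := j) rfl h
      have h2 : P (Nat.findGreatest P j) := h1
      exact ⟨by have := h2.1; omega, by have := h2.2; omega⟩
  · intro hlt
    have h1 : ¬ P (Nat.findGreatest P j + 1) :=
      Nat.findGreatest_is_greatest (Nat.lt_succ_self _) hlt
    by_cases h2 : p' / 2 ^ (j - (Nat.findGreatest P j + 1)) ≤
        p / 2 ^ (j - (Nat.findGreatest P j + 1)) + 1
    · left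
      refine aux _ _ _ ?_
      intro h3
      exact h1 ⟨h2, h3⟩
    · right
      exact aux _ _ _ h2

lemma Nn_le (t : ℝ) (h : |t| ≤ 2) : Nn t ^ 2 ≤ 5 := by
  rw [LLog.KAK_.Nn_sq]
  have := abs_le.1 h
  nlinarith

lemma alpha_eq (t t' : ℝ) : dot (nv t) (tv t') = (t - t') / (Nn t * Nn t') := by
  have hN := LLog.KAK_.Nn_pos t
  have hN' := LLog.KAK_.Nn_pos t'
  simp only [dot, nv, tv]
  field_simp
  ring

lemma vol_strips (t t' δ B A : ℝ) (x x' : ℝ × ℝ) (ht : |t| ≤ 2) (ht' : |t'| ≤ 2) (hδ : 0 < δ)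
    (hB : 0 < B) (h : δ ≤ |t - t'|) :
    volume (bx t x A B ∩ bx t' x' A B) ≤ ENNReal.ofReal (20 * B ^ 2 / δ) := by
  have hN := LLog.KAK_.Nn_pos t
  have hN' := LLog.KAK_.Nn_pos t'
  have h5 : Nn t * Nn t' ≤ 5 := by
    have h1 := Nn_le t ht
    have h2 := Nn_le t' ht'
    nlinarith [sq_nonneg (Nn t - Nn t')]
  have hα : dot (nv t) (tv t') ≠ 0 := by
    rw [alpha_eq]
    have : t - t' ≠ 0 := by
      intro h0
      rw [h0, abs_zero] at h
      linarith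
    positivity
  refine (LLog.KAK_.inter_le t t' x x' A B hB hα).trans ?_
  apply ENNReal.ofReal_le_ofReal
  rw [alpha_eq, abs_div, abs_of_pos (mul_pos hN hN'), div_div_eq_mul_div]
  have h6 : 0 < |t - t'| := hδ.trans_le h
  rw [div_le_div_iff₀ h6 hδ]
  have h7 : 4 * B ^ 2 * (Nn t * Nn t') ≤ 4 * B ^ 2 * 5 :=
    mul_le_mul_of_nonneg_left h5 (by positivity)
  calc 4 * B ^ 2 * (Nn t * Nn t') * δ ≤ 4 * B ^ 2 * 5 * |t - t'| :=
        mul_le_mul h7 h hδ.le (by positivity)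
    _ = 20 * B ^ 2 * |t - t'| := by ring

lemma abs_tp (a l p : ℕ) (sl : ℝ) (h1 : 1 ≤ sl) (h2 : sl < 2) (hp : p ∈ PP a l) :
    |tp sl (l + 8 * a) p| ≤ 2 := by
  have hp' : p < 3 * 2 ^ (l + 8 * a) := Finset.mem_range.1 hp
  have hp2 : (p : ℝ) < 3 * 2 ^ (l + 8 * a) := by exact_mod_cast hp'
  have h3 : (0 : ℝ) < 2 ^ (l + 8 * a) := by positivity
  have h4 : (p : ℝ) / 2 ^ (l + 8 * a) < 3 := by
    rw [div_lt_iff₀ h3]
    linarith
  have h5 : 0 ≤ (p : ℝ) / 2 ^ (l + 8 * a) := by positivity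
  unfold tp
  rw [abs_le]
  constructor <;> linarith

lemma r_rel (a l : ℕ) : (4 : ℝ) ^ l * 2 ^ (7 * a) ≤ 2 ^ (l + 8 * a) * 2 ^ (l + 15 * a) := by
  have h : (2 : ℝ) ^ (l + 8 * a) * 2 ^ (l + 15 * a) = 4 ^ l * 2 ^ (23 * a) := by
    rw [← pow_add, show (4 : ℝ) = 2 ^ 2 by norm_num, ← pow_mul, ← pow_add]
    congr 1
    ring
  rw [h]
  refine mul_le_mul_of_nonneg_left ?_ (by positivity)
  exact pow_le_pow_right₀ (by norm_num) (by omega)

/-- volume of the intersection of two boxes -/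
lemma vol_le (a l p p' i : ℕ) (sl : ℝ) (h1 : 1 ≤ sl) (h2 : sl < 2) (hp : p ∈ PP a l)
    (hp' : p' ∈ PP a l) (hi : i ≤ l + 8 * a)
    (hlt : i < l + 8 * a → p' + 2 ^ (l + 8 * a - (i + 1)) < p ∨ p + 2 ^ (l + 8 * a - (i + 1)) < p')
    (y z : ℝ × ℝ) :
    volume (bx (tp sl (l + 8 * a) p) y (4 ^ l * 2 ^ (7 * a)) (2 ^ (l + 15 * a)) ∩
      bx (tp sl (l + 8 * a) p') z (4 ^ l * 2 ^ (7 * a)) (2 ^ (l + 15 * a))) ≤
      ENNReal.ofReal (40 * (2 ^ (l + 15 * a)) ^ 2 * 2 ^ i) := by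
  rcases Nat.lt_or_ge i (l + 8 * a) with h | h
  · have h3 := hlt h
    have e1 : l + 8 * a = (l + 8 * a - (i + 1)) + (i + 1) := by omega
    have hδ : (1 : ℝ) / 2 ^ (i + 1) ≤ |tp sl (l + 8 * a) p - tp sl (l + 8 * a) p'| := by
      have e2 : tp sl (l + 8 * a) p - tp sl (l + 8 * a) p' =
          ((p : ℝ) - p') / 2 ^ (l + 8 * a) := by
        unfold tp
        ring
      have e3 : (1 : ℝ) / 2 ^ (i + 1) = 2 ^ (l + 8 * a - (i + 1)) / 2 ^ (l + 8 * a) := by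
        have e4 : (2 : ℝ) ^ (l + 8 * a) = 2 ^ (l + 8 * a - (i + 1)) * 2 ^ (i + 1) := by
          rw [← pow_add]
          congr 1
        rw [e4]
        field_simp
      rw [e2, abs_div, abs_of_pos (by positivity : (0 : ℝ) < 2 ^ (l + 8 * a)), e3]
      refine div_le_div_of_nonneg_right ?_ (by positivity)
      rcases h3 with h4 | h4
      · have h5 : (p' : ℝ) + 2 ^ (l + 8 * a - (i + 1)) < p := by exact_mod_cast h4
        exact le_trans (by linarith) (le_abs_self _)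
      · have h5 : (p : ℝ) + 2 ^ (l + 8 * a - (i + 1)) < p' := by exact_mod_cast h4
        rw [abs_sub_comm]
        exact le_trans (by linarith) (le_abs_self _)
    refine (vol_strips _ _ _ _ _ y z (abs_tp a l p sl h1 h2 hp) (abs_tp a l p' sl h1 h2 hp')
      (by positivity) (by positivity) hδ).trans ?_
    apply ENNReal.ofReal_le_ofReal
    apply le_of_eq
    rw [pow_succ]
    field_simp
    ring
  · have hij : i = l + 8 * a := le_antisymm hi h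
    refine (measure_mono inter_subset_left).trans ?_
    rw [LLog.KAK_.bx_vol _ _ _ _ (by positivity) (by positivity)]
    apply ENNReal.ofReal_le_ofReal
    rw [hij]
    have h3 := r_rel a l
    have h4 : (0 : ℝ) < 2 ^ (l + 15 * a) := by positivity
    have h5 : (0 : ℝ) < 2 ^ (l + 8 * a) := by positivity
    calc (4 : ℝ) * (4 ^ l * 2 ^ (7 * a)) * 2 ^ (l + 15 * a)
        ≤ 4 * (2 ^ (l + 8 * a) * 2 ^ (l + 15 * a)) * 2 ^ (l + 15 * a) := by
          refine mul_le_mul_of_nonneg_right ?_ h4.le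
          exact mul_le_mul_of_nonneg_left h3 (by norm_num)
      _ = 4 * ((2 ^ (l + 15 * a)) ^ 2 * 2 ^ (l + 8 * a)) := by ring
      _ ≤ 40 * ((2 ^ (l + 15 * a)) ^ 2 * 2 ^ (l + 8 * a)) :=
          mul_le_mul_of_nonneg_right (by norm_num) (by positivity)
      _ = 40 * (2 ^ (l + 15 * a)) ^ 2 * 2 ^ (l + 8 * a) := by ring

lemma mem_symm (t : ℝ) (x z : ℝ × ℝ) (A B : ℝ) : z ∈ bx t x A B ↔ x ∈ bx t z A B := by
  have h : ∀ e : ℝ × ℝ, dot (z - x) e = - dot (x - z) e := by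
    intro e
    simp only [dot, Prod.fst_sub, Prod.snd_sub]
    ring
  simp only [bx, mem_ofPred_eq, h, abs_neg]

lemma meas_pair (t A B : ℝ) : MeasurableSet {q : (ℝ × ℝ) × (ℝ × ℝ) | q.2 ∈ bx t q.1 A B} := by
  have h1 : Measurable fun q : (ℝ × ℝ) × (ℝ × ℝ) => |dot (q.2 - q.1) (nv t)| := by
    unfold dot
    fun_prop
  have h2 : Measurable fun q : (ℝ × ℝ) × (ℝ × ℝ) => |dot (q.2 - q.1) (tv t)| := by
    unfold dot
    fun_prop
  exact (measurableSet_lt h1 measurable_const).inter (measurableSet_lt h2 measurable_const)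

/-- Tonelli -/
lemma swap (t t' A B : ℝ) (y : ℝ × ℝ) (g : ℝ × ℝ → ℝ≥0∞) (hg : Measurable g) :
    ∫⁻ x in bx t y A B, ∫⁻ z in bx t' x A B, g z =
      ∫⁻ z, g z * volume (bx t y A B ∩ bx t' z A B) := by
  classical
  set S : Set ((ℝ × ℝ) × (ℝ × ℝ)) := {q | q.2 ∈ bx t' q.1 A B} with hS
  have hSm : MeasurableSet S := meas_pair t' A B
  have e1 : ∀ x, ∫⁻ z in bx t' x A B, g z = ∫⁻ z, S.indicator (fun q => g q.2) (x, z) := by
    intro x
    rw [← lintegral_indicator (LLog.KAK_.bx_meas t' x A B)]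
    rfl
  simp only [e1]
  have hm : Measurable (S.indicator (fun q : (ℝ × ℝ) × (ℝ × ℝ) => g q.2)) :=
    (hg.comp measurable_snd).indicator hSm
  rw [lintegral_lintegral_swap (f := fun x z => S.indicator (fun q => g q.2) (x, z))
    hm.aemeasurable]
  refine lintegral_congr fun z => ?_
  have e2 : ∀ x, S.indicator (fun q : (ℝ × ℝ) × (ℝ × ℝ) => g q.2) (x, z) =
      (bx t' z A B).indicator (fun _ => g z) x := by
    intro x
    by_cases h : (x, z) ∈ S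
    · rw [indicator_of_mem h, indicator_of_mem ((mem_symm t' x z A B).1 h)]
    · rw [indicator_of_notMem h, indicator_of_notMem (fun h' => h ((mem_symm t' x z A B).2 h'))]
  simp only [e2]
  rw [lintegral_indicator (LLog.KAK_.bx_meas t' z A B), setLIntegral_const,
    Measure.restrict_apply (LLog.KAK_.bx_meas t' z A B), inter_comm]

lemma bounds (a l i : ℕ) (ha : 20 ≤ a) (hi : i ≤ l + 8 * a) :
    2 * ((4 : ℝ) ^ l * 2 ^ (7 * a) + 3 * 2 ^ (l + 15 * a) / 2 ^ i) < 1 * Lg a l ∧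
    2 * ((2 : ℝ) ^ (l + 15 * a) + 3 * (4 ^ l * 2 ^ (7 * a)) / 2 ^ i) < 1 * Lg a l / 2 ^ i := by
  have hL : Lg a l = 4 ^ l * 2 ^ (26 * a) := rfl
  have h4l : (0 : ℝ) < 4 ^ l := by positivity
  have e4 : (4 : ℝ) ^ l = 2 ^ (2 * l) := by
    rw [show (4 : ℝ) = 2 ^ 2 by norm_num, ← pow_mul]
  have hq : (16 : ℝ) ≤ 2 ^ a := by
    calc (16 : ℝ) = 2 ^ 4 := by norm_num
      _ ≤ 2 ^ a := pow_le_pow_right₀ (by norm_num) (by omega)
  have g1 : 16 * ((4 : ℝ) ^ l * 2 ^ (7 * a)) ≤ 4 ^ l * 2 ^ (26 * a) := by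
    have : (16 : ℝ) * 2 ^ (7 * a) ≤ 2 ^ (26 * a) := by
      calc (16 : ℝ) * 2 ^ (7 * a) ≤ 2 ^ a * 2 ^ (7 * a) :=
            mul_le_mul_of_nonneg_right hq (by positivity)
        _ = 2 ^ (a + 7 * a) := by rw [pow_add]
        _ ≤ 2 ^ (26 * a) := pow_le_pow_right₀ (by norm_num) (by omega)
    nlinarith
  have g2 : 16 * (2 : ℝ) ^ (l + 15 * a) ≤ 4 ^ l * 2 ^ (26 * a) := by
    rw [e4, ← pow_add]
    calc 16 * (2 : ℝ) ^ (l + 15 * a) ≤ 2 ^ a * 2 ^ (l + 15 * a) :=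
          mul_le_mul_of_nonneg_right hq (by positivity)
      _ = 2 ^ (a + (l + 15 * a)) := (pow_add _ _ _).symm
      _ ≤ 2 ^ (2 * l + 26 * a) := pow_le_pow_right₀ (by norm_num) (by omega)
  have g3 : 16 * ((2 : ℝ) ^ (l + 15 * a) * 2 ^ i) ≤ 4 ^ l * 2 ^ (26 * a) := by
    rw [e4, ← pow_add, ← pow_add]
    calc 16 * (2 : ℝ) ^ (l + 15 * a + i) ≤ 2 ^ a * 2 ^ (l + 15 * a + i) :=
          mul_le_mul_of_nonneg_right hq (by positivity)
      _ = 2 ^ (a + (l + 15 * a + i)) := (pow_add _ _ _).symm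
      _ ≤ 2 ^ (2 * l + 26 * a) := pow_le_pow_right₀ (by norm_num) (by omega)
  have hLpos : (0 : ℝ) < 4 ^ l * 2 ^ (26 * a) := by positivity
  rw [one_mul, hL]
  constructor
  · have h1 : 3 * (2 : ℝ) ^ (l + 15 * a) / 2 ^ i ≤ 3 * 2 ^ (l + 15 * a) :=
      div_le_self (by positivity) (one_le_pow₀ (by norm_num))
    linarith
  · have hi0 : (0 : ℝ) < 2 ^ i := by positivity
    rw [lt_div_iff₀ hi0]
    have h1 : 2 * ((2 : ℝ) ^ (l + 15 * a) + 3 * (4 ^ l * 2 ^ (7 * a)) / 2 ^ i) * 2 ^ i =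
        2 * (2 ^ (l + 15 * a) * 2 ^ i) + 6 * (4 ^ l * 2 ^ (7 * a)) := by
      field_simp
      ring
    rw [h1]
    linarith

/-- position of the second box -/
lemma mem_big (hSBR : tSBR) (a l p p' i : ℕ) (sl : ℝ) (ha : 20 ≤ a) (h1 : 1 ≤ sl) (h2 : sl < 2)
    (hp : p ∈ PP a l) (hp' : p' ∈ PP a l) (hi : i ≤ l + 8 * a) (b : ℕ) (hb : p ∈ near a l i b)
    (hb' : p' ∈ near a l i b) (y z : ℝ × ℝ)
    (hne : (bx (tp sl (l + 8 * a) p) y (4 ^ l * 2 ^ (7 * a)) (2 ^ (l + 15 * a)) ∩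
      bx (tp sl (l + 8 * a) p') z (4 ^ l * 2 ^ (7 * a)) (2 ^ (l + 15 * a))).Nonempty) :
    z ∈ bx (tp sl i b) y (1 * Lg a l) (1 * Lg a l / 2 ^ i) := by
  obtain ⟨w, hw, hw'⟩ := hne
  have e1 := (hSBR a l i p sl (4 ^ l * 2 ^ (7 * a)) (2 ^ (l + 15 * a)) (w - y) h1 h2 hp hi).2 b hb
    hw.1.le hw.2.le
  have e2 := (hSBR a l i p' sl (4 ^ l * 2 ^ (7 * a)) (2 ^ (l + 15 * a)) (w - z) h1 h2 hp' hi).2 b
    hb' hw'.1.le hw'.2.le
  have h : ∀ e : ℝ × ℝ, dot (z - y) e = dot (w - y) e - dot (w - z) e := by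
    intro e
    simp only [dot, Prod.fst_sub, Prod.snd_sub]
    ring
  obtain ⟨b1, b2⟩ := bounds a l i ha hi
  constructor
  · show |dot (z - y) (nv (tp sl i b))| < _
    rw [h]
    refine lt_of_le_of_lt (abs_sub _ _) (lt_of_le_of_lt (add_le_add e1.1 e2.1) ?_)
    linarith
  · show |dot (z - y) (tv (tp sl i b))| < _
    rw [h]
    refine lt_of_le_of_lt (abs_sub _ _) (lt_of_le_of_lt (add_le_add e1.2 e2.2) ?_)
    linarith

lemma const_le (a l i : ℕ) (ha : 20 ≤ a) :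
    (4 * (4 ^ l * 2 ^ (7 * a)) * 2 ^ (l + 15 * a))⁻¹ *
      ((4 * (4 ^ l * 2 ^ (7 * a)) * 2 ^ (l + 15 * a))⁻¹ *
        (40 * ((2 : ℝ) ^ (l + 15 * a)) ^ 2 * 2 ^ i)) ≤
      2 ^ (39 * a) * (4 * (1 * Lg a l) * (1 * Lg a l / 2 ^ i))⁻¹ := by
  have hL : Lg a l = 4 ^ l * 2 ^ (26 * a) := rfl
  have e1 : (2 : ℝ) ^ (26 * a) = 2 ^ (19 * a) * 2 ^ (7 * a) := by
    rw [← pow_add]; congr 1; ring
  have hq : (16 : ℝ) ≤ 2 ^ a := by
    calc (16 : ℝ) = 2 ^ 4 := by norm_num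
      _ ≤ 2 ^ a := pow_le_pow_right₀ (by norm_num) (by omega)
  have e2 : (2 : ℝ) ^ (39 * a) = 2 ^ a * (2 ^ (19 * a)) ^ 2 := by
    rw [← pow_mul, ← pow_add]; congr 1; ring
  have hr1 : (0 : ℝ) < 4 ^ l * 2 ^ (7 * a) := by positivity
  have hr2 : (0 : ℝ) < 2 ^ (l + 15 * a) := by positivity
  have hc : (0 : ℝ) < 2 ^ (19 * a) := by positivity
  have hi : (0 : ℝ) < 2 ^ i := by positivity
  rw [hL, e2, e1]
  generalize hR1 : (4 : ℝ) ^ l * 2 ^ (7 * a) = r1 at *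
  have e3 : (4 : ℝ) ^ l * (2 ^ (19 * a) * 2 ^ (7 * a)) = 2 ^ (19 * a) * r1 := by
    rw [← hR1]; ring
  rw [e3]
  generalize (2 : ℝ) ^ (l + 15 * a) = r2 at *
  generalize (2 : ℝ) ^ (19 * a) = c at *
  generalize (2 : ℝ) ^ i = d at *
  have e4 : (4 * r1 * r2)⁻¹ * ((4 * r1 * r2)⁻¹ * (40 * r2 ^ 2 * d)) = (5 / 2) * d / r1 ^ 2 := by
    field_simp
    ring
  have e5 : (2 : ℝ) ^ a * c ^ 2 * (4 * (1 * (c * r1)) * (1 * (c * r1) / d))⁻¹ =
      (2 ^ a / 4) * d / r1 ^ 2 := by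
    field_simp
  rw [e4, e5]
  refine div_le_div_of_nonneg_right ?_ (by positivity)
  refine mul_le_mul_of_nonneg_right ?_ hi.le
  linarith

/-- the pointwise estimate -/
lemma key (hSBR : tSBR) (a l p p' i : ℕ) (sl : ℝ) (ha : 20 ≤ a) (h1 : 1 ≤ sl) (h2 : sl < 2)
    (hp : p ∈ PP a l) (hp' : p' ∈ PP a l) (hi : i ≤ l + 8 * a)
    (hlt : i < l + 8 * a → p' + 2 ^ (l + 8 * a - (i + 1)) < p ∨ p + 2 ^ (l + 8 * a - (i + 1)) < p')
    (b : ℕ) (hb : p ∈ near a l i b) (hb' : p' ∈ near a l i b) (g : ℝ × ℝ → ℝ≥0∞)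
    (hg : Measurable g) (y : ℝ × ℝ) :
    avK a l sl p (avK a l sl p' g) y ≤ 2 ^ (39 * a) * avL a l sl 1 i b g y := by
  have hr1 : (0 : ℝ) < 4 ^ l * 2 ^ (7 * a) := by positivity
  have hr2 : (0 : ℝ) < 2 ^ (l + 15 * a) := by positivity
  have hLg : (0 : ℝ) < Lg a l := by unfold Lg; positivity
  have hD : (0 : ℝ) < 4 * (1 * Lg a l) * (1 * Lg a l / 2 ^ i) := by positivity
  unfold avK avL av
  rw [lintegral_const_mul' _ _ (by
    rw [Ne, ENNReal.inv_eq_top, ENNReal.ofReal_eq_zero, not_le]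
    positivity)]
  rw [swap _ _ _ _ _ g hg]
  have e1 : ∫⁻ z, g z * volume (bx (tp sl (l + 8 * a) p) y (4 ^ l * 2 ^ (7 * a))
      (2 ^ (l + 15 * a)) ∩ bx (tp sl (l + 8 * a) p') z (4 ^ l * 2 ^ (7 * a)) (2 ^ (l + 15 * a))) ≤
      (ENNReal.ofReal (40 * (2 ^ (l + 15 * a)) ^ 2 * 2 ^ i)) *
        ∫⁻ z in bx (tp sl i b) y (1 * Lg a l) (1 * Lg a l / 2 ^ i), g z := by
    rw [← lintegral_const_mul' _ _ ENNReal.ofReal_ne_top,
      ← lintegral_indicator (LLog.KAK_.bx_meas _ _ _ _)]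
    refine lintegral_mono fun z => ?_
    by_cases hz : z ∈ bx (tp sl i b) y (1 * Lg a l) (1 * Lg a l / 2 ^ i)
    · rw [indicator_of_mem hz, mul_comm]
      exact mul_le_mul_left (vol_le a l p p' i sl h1 h2 hp hp' hi hlt y z) _
    · rw [indicator_of_notMem hz]
      have hem : bx (tp sl (l + 8 * a) p) y (4 ^ l * 2 ^ (7 * a)) (2 ^ (l + 15 * a)) ∩
          bx (tp sl (l + 8 * a) p') z (4 ^ l * 2 ^ (7 * a)) (2 ^ (l + 15 * a)) = ∅ := by
        rw [← not_nonempty_iff_eq_empty]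
        exact fun hne => hz (mem_big hSBR a l p p' i sl ha h1 h2 hp hp' hi b hb hb' y z hne)
      rw [hem, measure_empty, mul_zero]
  have e5 := mul_le_mul_right e1
    ((ENNReal.ofReal (4 * (4 ^ l * 2 ^ (7 * a)) * 2 ^ (l + 15 * a)))⁻¹)
  have e6 := mul_le_mul_right e5
    ((ENNReal.ofReal (4 * (4 ^ l * 2 ^ (7 * a)) * 2 ^ (l + 15 * a)))⁻¹)
  refine e6.trans ?_
  rw [← mul_assoc, ← mul_assoc, ← mul_assoc ((2 : ℝ≥0∞) ^ (39 * a))]
  refine mul_le_mul' ?_ le_rfl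
  rw [← ENNReal.ofReal_inv_of_pos (by positivity), ← ENNReal.ofReal_inv_of_pos hD,
    ← ENNReal.ofReal_mul (by positivity), ← ENNReal.ofReal_mul (by positivity)]
  have e2 : (2 : ℝ≥0∞) ^ (39 * a) = ENNReal.ofReal (2 ^ (39 * a)) := by
    rw [ENNReal.ofReal_pow (by norm_num)]
    norm_num
  rw [e2, ← ENNReal.ofReal_mul (by positivity)]
  apply ENNReal.ofReal_le_ofReal
  rw [mul_assoc]
  exact const_le a l i ha

end HBB_

open HBB_ in
theorem pHBB (hAVG : tAVG) (hSBR : tSBR) : tHBB := by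
  classical
  intro a l sl G ha hl h1 h2 hG
  have hr1 : (0 : ℝ) < 4 ^ l * 2 ^ (7 * a) := by positivity
  have hr2 : (0 : ℝ) < 2 ^ (l + 15 * a) := by positivity
  have hLg : (0 : ℝ) < Lg a l := by unfold Lg; positivity
  have hUm : ∀ p (g : ℝ × ℝ → ℝ≥0∞), Measurable g → Measurable (avK a l sl p g) := fun p g hg =>
    (hAVG (tp sl (l + 8 * a) p) _ _ g hr1 hr2 hg).1
  have hW : Measurable (fun x => ∑ p' ∈ PP a l, avK a l sl p' (G p') x) :=
    Finset.measurable_fun_sum _ fun p' _ => hUm p' _ (hG p')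
  have e1 : ∫⁻ x, (∑ p ∈ PP a l, avK a l sl p (G p) x) ^ 2 =
      ∑ p ∈ PP a l, ∫⁻ x, avK a l sl p (G p) x * ∑ p' ∈ PP a l, avK a l sl p' (G p') x := by
    rw [← lintegral_finsetSum (PP a l) (f := fun p x => avK a l sl p (G p) x *
      ∑ p' ∈ PP a l, avK a l sl p' (G p') x) fun p _ => (hUm p _ (hG p)).mul hW]
    refine lintegral_congr fun x => ?_
    rw [← Finset.sum_mul, sq]
  rw [e1, Finset.mul_sum]
  refine Finset.sum_le_sum fun p hp => ?_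
  have e2 : ∫⁻ x, avK a l sl p (G p) x * ∑ p' ∈ PP a l, avK a l sl p' (G p') x =
      ∫⁻ x, G p x * avK a l sl p (fun y => ∑ p' ∈ PP a l, avK a l sl p' (G p') y) x :=
    ((hAVG (tp sl (l + 8 * a) p) _ _ _ hr1 hr2 hW).2.2.1 (G p) (hG p)).symm
  have e3 : ∀ x, avK a l sl p (fun y => ∑ p' ∈ PP a l, avK a l sl p' (G p') y) x =
      ∑ p' ∈ PP a l, avK a l sl p (avK a l sl p' (G p')) x := by
    intro x
    show (ENNReal.ofReal (4 * (4 ^ l * 2 ^ (7 * a)) * 2 ^ (l + 15 * a)))⁻¹ *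
      ∫⁻ y in bx (tp sl (l + 8 * a) p) x (4 ^ l * 2 ^ (7 * a)) (2 ^ (l + 15 * a)),
        ∑ p' ∈ PP a l, avK a l sl p' (G p') y = _
    rw [lintegral_finsetSum (PP a l) (f := fun p' y => avK a l sl p' (G p') y)
      fun p' _ => hUm p' _ (hG p'), Finset.mul_sum]
    rfl
  have e4 : ∀ x, ∑ p' ∈ PP a l, avK a l sl p (avK a l sl p' (G p')) x ≤
      2 ^ (39 * a) * ∑ i ∈ Finset.range (l + 8 * a + 1),
        Dn a l sl 1 G i (p / 2 ^ (l + 8 * a - i)) x := by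
    intro x
    have hlev : ∀ p' ∈ PP a l, ∃ i, i ≤ l + 8 * a ∧
        p' ∈ near a l i (p / 2 ^ (l + 8 * a - i)) ∧
        avK a l sl p (avK a l sl p' (G p')) x ≤
          2 ^ (39 * a) * avL a l sl 1 i (p / 2 ^ (l + 8 * a - i)) (G p') x := by
      intro p' hp'
      have hp3 : p / 2 ^ (l + 8 * a) ≤ 2 := by
        have : p < 3 * 2 ^ (l + 8 * a) := Finset.mem_range.1 hp
        have := Nat.div_lt_of_lt_mul (m := p) (n := 2 ^ (l + 8 * a)) (k := 3) (by linarith)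
        omega
      have hp3' : p' / 2 ^ (l + 8 * a) ≤ 2 := by
        have : p' < 3 * 2 ^ (l + 8 * a) := Finset.mem_range.1 hp'
        have := Nat.div_lt_of_lt_mul (m := p') (n := 2 ^ (l + 8 * a)) (k := 3) (by linarith)
        omega
      obtain ⟨i, hi, hn, hlt⟩ := exists_level p p' (l + 8 * a)
        ⟨hp3'.trans (Nat.le_add_left _ _), hp3.trans (Nat.le_add_left _ _)⟩
      have hb' : p' ∈ near a l i (p / 2 ^ (l + 8 * a - i)) := by
        unfold near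
        rw [Finset.mem_filter]
        exact ⟨hp', hn⟩
      have hb : p ∈ near a l i (p / 2 ^ (l + 8 * a - i)) := by
        unfold near
        rw [Finset.mem_filter]
        exact ⟨hp, by omega, by omega⟩
      exact ⟨i, hi, hb', key hSBR a l p p' i sl ha h1 h2 hp hp' hi hlt _ hb hb' (G p') (hG p') x⟩
    have e5 : ∑ i ∈ Finset.range (l + 8 * a + 1), Dn a l sl 1 G i (p / 2 ^ (l + 8 * a - i)) x =
        ∑ p' ∈ PP a l, ∑ i ∈ Finset.range (l + 8 * a + 1),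
          if p' ∈ near a l i (p / 2 ^ (l + 8 * a - i)) then
            avL a l sl 1 i (p / 2 ^ (l + 8 * a - i)) (G p') x else 0 := by
      rw [Finset.sum_comm]
      refine Finset.sum_congr rfl fun i _ => ?_
      rw [← Finset.sum_filter]
      have e6 : (PP a l).filter (fun p' => p' ∈ near a l i (p / 2 ^ (l + 8 * a - i))) =
          near a l i (p / 2 ^ (l + 8 * a - i)) := by
        ext z
        simp only [Finset.mem_filter, near]
        tauto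
      rw [e6]
      unfold Dn avL av
      rw [lintegral_finsetSum (near a l i (p / 2 ^ (l + 8 * a - i))) (f := fun p' y => G p' y)
        fun p' _ => hG p', Finset.mul_sum]
    rw [e5, Finset.mul_sum]
    refine Finset.sum_le_sum fun p' hp' => ?_
    obtain ⟨i, hi, hn, hle⟩ := hlev p' hp'
    refine hle.trans (mul_le_mul_right ?_ _)
    have h7 := Finset.single_le_sum (f := fun i => if p' ∈ near a l i (p / 2 ^ (l + 8 * a - i)) then
      avL a l sl 1 i (p / 2 ^ (l + 8 * a - i)) (G p') x else 0) (fun _ _ => zero_le)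
      (Finset.mem_range.2 (Nat.lt_succ_of_le hi))
    simp only [hn, if_true] at h7
    exact h7
  have hDm : ∀ i ∈ Finset.range (l + 8 * a + 1),
      Measurable (fun x => G p x * Dn a l sl 1 G i (p / 2 ^ (l + 8 * a - i)) x) := by
    intro i _
    refine (hG p).mul ?_
    exact (hAVG (tp sl i _) _ _ _ (by positivity) (by positivity)
      (Finset.measurable_fun_sum _ fun p' _ => hG p')).1
  rw [e2, ← lintegral_finsetSum (Finset.range (l + 8 * a + 1))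
    (f := fun i x => G p x * Dn a l sl 1 G i (p / 2 ^ (l + 8 * a - i)) x) hDm]
  rw [← lintegral_const_mul' _ _ (by exact ENNReal.pow_ne_top (by norm_num))]
  refine lintegral_mono fun x => ?_
  rw [e3 x, ← Finset.mul_sum]
  calc G p x * ∑ p' ∈ PP a l, avK a l sl p (avK a l sl p' (G p')) x
      ≤ G p x * (2 ^ (39 * a) * ∑ i ∈ Finset.range (l + 8 * a + 1),
        Dn a l sl 1 G i (p / 2 ^ (l + 8 * a - i)) x) := mul_le_mul_right (e4 x) _
    _ = 2 ^ (39 * a) * (G p x * ∑ i ∈ Finset.range (l + 8 * a + 1),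
        Dn a l sl 1 G i (p / 2 ^ (l + 8 * a - i)) x) := by ring

end Pool.Agent.SLog
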