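import Pool.Agent.SLog.Targets

set_option autoImplicit false

/-! MP_ee701d_an, target PQ: popular squares. -/

namespace Pool.Agent.SLog

open MeasureTheory Set
open scoped ENNReal NNReal
open Pool.Agent.KSP (sq)
open Pool.Agent.LLog (Qx sd)

namespace PQ_

theorem sd_pos (a l : ℕ) : 0 < sd a l := by unfold sd; positivity

theorem Qx_eq (a l : ℕ) (x : ℝ × ℝ) : Qx a 0 l x = (⌊x.1 / sd a l⌋, ⌊x.2 / sd a l⌋) := by
  simp [Qx]

theorem measurable_Qx (a l : ℕ) : Measurable (Qx a 0 l) := by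
  have h : Qx a 0 l = fun x : ℝ × ℝ => (⌊x.1 / sd a l⌋, ⌊x.2 / sd a l⌋) := by
    funext x; exact Qx_eq a l x
  rw [h]
  exact (Int.measurable_floor.comp (measurable_fst.div_const _)).prodMk
    (Int.measurable_floor.comp (measurable_snd.div_const _))

/-- the square with index `z` -/
def cell (a l : ℕ) (z : ℤ × ℤ) : Set (ℝ × ℝ) := {y | Qx a 0 l y = z}

theorem cell_eq (a l : ℕ) (z : ℤ × ℤ) : cell a l z =
    Ico (z.1 * sd a l) ((z.1 + 1) * sd a l) ×ˢ Ico (z.2 * sd a l) ((z.2 + 1) * sd a l) := by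
  have hS := sd_pos a l
  ext y
  simp only [cell, Set.mem_ofPred_eq, Qx_eq, Prod.ext_iff, Int.floor_eq_iff, Set.mem_prod,
    Set.mem_Ico, le_div_iff₀ hS, div_lt_iff₀ hS]

theorem measurable_cell (a l : ℕ) (z : ℤ × ℤ) : MeasurableSet (cell a l z) := by
  rw [cell_eq]
  exact measurableSet_Ico.prod measurableSet_Ico

theorem vol_cell (a l : ℕ) (z : ℤ × ℤ) : volume (cell a l z) = ENNReal.ofReal (sd a l ^ 2) := by
  have hS := sd_pos a l
  rw [cell_eq, Measure.volume_eq_prod, Measure.prod_prod, Real.volume_Ico, Real.volume_Ico,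
    ← ENNReal.ofReal_mul (by nlinarith)]
  congr 1
  ring

/-- popular indices -/
def pop (a l : ℕ) (X : Set (ℝ × ℝ)) : Set (ℤ × ℤ) :=
  {z | ENNReal.ofReal (sd a l ^ 2 / 2 ^ (60 * a)) ≤ volume (X ∩ cell a l z)}

theorem mem_Pq (a l : ℕ) (X : Set (ℝ × ℝ)) (x : ℝ × ℝ) :
    x ∈ Pq a l X ↔ Qx a 0 l x ∈ pop a l X := Iff.rfl

theorem measurable_Pq (a l : ℕ) (X : Set (ℝ × ℝ)) : MeasurableSet (Pq a l X) := by
  have : Pq a l X = Qx a 0 l ⁻¹' (pop a l X) := rfl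
  rw [this]
  exact measurable_Qx a l (MeasurableSet.of_discrete)

/-- threshold times `2^(60 a)` -/
theorem thr (a l : ℕ) : ENNReal.ofReal (sd a l ^ 2) =
    2 ^ (60 * a) * ENNReal.ofReal (sd a l ^ 2 / 2 ^ (60 * a)) := by
  have h2 : (2 : ℝ≥0∞) ^ (60 * a) = ENNReal.ofReal (2 ^ (60 * a)) := by
    rw [ENNReal.ofReal_pow (by norm_num)]
    norm_num
  rw [h2, ← ENNReal.ofReal_mul (by positivity)]
  congr 1
  field_simp

/-- the nine shifts -/
noncomputable def nine : Finset (ℤ × ℤ) := Finset.Icc (-1) 1 ×ˢ Finset.Icc (-1) 1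

theorem nine_card : nine.card = 9 := by decide

theorem floor_close (S : ℝ) (hS : 0 < S) (x y : ℝ) (h : |x - y| < S) :
    ⌊y / S⌋ - ⌊x / S⌋ ∈ Finset.Icc (-1 : ℤ) 1 := by
  rw [abs_lt] at h
  have h1 : y / S < x / S + 1 := by
    rw [div_add_one hS.ne', div_lt_div_iff_of_pos_right hS]; linarith
  have h2 : x / S < y / S + 1 := by
    rw [div_add_one hS.ne', div_lt_div_iff_of_pos_right hS]; linarith
  have h3 : ⌊y / S⌋ ≤ ⌊x / S⌋ + 1 := by
    have := Int.floor_le_floor h1.le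
    rwa [Int.floor_add_one] at this
  have h4 : ⌊x / S⌋ ≤ ⌊y / S⌋ + 1 := by
    have := Int.floor_le_floor h2.le
    rwa [Int.floor_add_one] at this
  rw [Finset.mem_Icc]
  omega

theorem Qx_close (a l : ℕ) (x y : ℝ × ℝ) (h1 : |x.1 - y.1| < sd a l) (h2 : |x.2 - y.2| < sd a l) :
    Qx a 0 l y - Qx a 0 l x ∈ nine := by
  rw [Qx_eq, Qx_eq, nine, Finset.mem_product]
  exact ⟨floor_close _ (sd_pos a l) _ _ h1, floor_close _ (sd_pos a l) _ _ h2⟩

theorem two_le_sd (a l : ℕ) (ha : 20 ≤ a) : 2 * (2 : ℝ) ^ (l + 15 * a) ≤ sd a l := by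
  unfold sd
  rw [← pow_succ']
  exact pow_le_pow_right₀ (by norm_num) (by omega)

theorem nb_Pq (a l : ℕ) (ha : 20 ≤ a) (X : Set (ℝ × ℝ)) (x : ℝ × ℝ) (hx : x ∈ nb a l (Pq a l X)) :
    ∃ d ∈ nine, Qx a 0 l x + d ∈ pop a l X := by
  obtain ⟨y, hy, h1, h2⟩ := hx
  have h3 := two_le_sd a l ha
  have h4 : (0 : ℝ) < 2 ^ (l + 15 * a) := by positivity
  refine ⟨Qx a 0 l y - Qx a 0 l x, Qx_close a l x y ?_ ?_, ?_⟩
  · rw [abs_sub_comm]; linarith
  · rw [abs_sub_comm]; linarith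
  · rw [add_sub_cancel]; exact hy

theorem nbnb_Pq (a l : ℕ) (ha : 20 ≤ a) (X : Set (ℝ × ℝ)) (x : ℝ × ℝ)
    (hx : x ∈ nb a l (nb a l (Pq a l X))) :
    ∃ z ∈ pop a l X, ∃ d ∈ nine, Qx a 0 l x = z + d := by
  obtain ⟨w, ⟨y, hy, h1, h2⟩, h5, h6⟩ := hx
  have h3 := two_le_sd a l ha
  refine ⟨Qx a 0 l y, hy, Qx a 0 l x - Qx a 0 l y, Qx_close a l y x ?_ ?_, ?_⟩
  · calc |y.1 - x.1| ≤ |y.1 - w.1| + |w.1 - x.1| := abs_sub_le _ _ _
      _ < sd a l := by linarith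
  · calc |y.2 - x.2| ≤ |y.2 - w.2| + |w.2 - x.2| := abs_sub_le _ _ _
      _ < sd a l := by linarith
  · rw [add_sub_cancel]

theorem part2 (a l : ℕ) (ha : 20 ≤ a) (X : Set (ℝ × ℝ)) (hX : MeasurableSet X) :
    volume (nb a l (nb a l (Pq a l X))) ≤ 9 * 2 ^ (60 * a) * volume (X ∩ Pq a l X) := by
  have hsub : nb a l (nb a l (Pq a l X)) ⊆
      ⋃ z : pop a l X, ⋃ d ∈ nine, cell a l (z.1 + d) := by
    intro x hx
    obtain ⟨z, hz, d, hd, h⟩ := nbnb_Pq a l ha X x hx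
    rw [Set.mem_iUnion]
    refine ⟨⟨z, hz⟩, ?_⟩
    rw [Set.mem_iUnion₂]
    exact ⟨d, hd, h⟩
  have h1 : volume (⋃ z : pop a l X, ⋃ d ∈ nine, cell a l (z.1 + d)) ≤
      ∑' z : pop a l X, 9 * ENNReal.ofReal (sd a l ^ 2) := by
    refine (measure_iUnion_le _).trans (ENNReal.tsum_le_tsum fun z => ?_)
    refine (measure_biUnion_finset_le _ _).trans ?_
    rw [Finset.sum_congr rfl fun d _ => vol_cell a l (z.1 + d), Finset.sum_const, nine_card]
    simp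
  have h2 : X ∩ Pq a l X = ⋃ z : pop a l X, X ∩ cell a l z.1 := by
    ext x
    simp only [Set.mem_inter_iff, Set.mem_iUnion, mem_Pq]
    constructor
    · rintro ⟨h, h'⟩
      exact ⟨⟨_, h'⟩, h, rfl⟩
    · rintro ⟨z, h, h'⟩
      refine ⟨h, ?_⟩
      have h3 : Qx a 0 l x = z.1 := h'
      rw [h3]; exact z.2
  have h3 : volume (X ∩ Pq a l X) = ∑' z : pop a l X, volume (X ∩ cell a l z.1) := by
    rw [h2]
    refine measure_iUnion ?_ fun z => hX.inter (measurable_cell a l z.1)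
    intro z z' hzz
    refine Set.disjoint_left.mpr ?_
    rintro x ⟨_, h4⟩ ⟨_, h5⟩
    have h4' : Qx a 0 l x = z.1 := h4
    have h5' : Qx a 0 l x = z'.1 := h5
    exact hzz (Subtype.ext (h4'.symm.trans h5'))
  rw [h3, ← ENNReal.tsum_mul_left]
  refine (measure_mono hsub).trans (h1.trans (ENNReal.tsum_le_tsum fun z => ?_))
  rw [thr, mul_assoc]
  gcongr
  exact z.2

theorem part3a (a l : ℕ) (X : ℕ → Set (ℝ × ℝ)) (hX : ∀ c, MeasurableSet (X c))
    (hd : ∀ c c', c ≠ c' → Disjoint (X c) (X c')) (z : ℤ × ℤ) (F : Finset ℕ)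
    (hF : ∀ c ∈ F, z ∈ pop a l (X c)) : (F.card : ℝ≥0∞) ≤ 2 ^ (60 * a) := by
  have hS := sd_pos a l
  set D : ℝ≥0∞ := ENNReal.ofReal (sd a l ^ 2 / 2 ^ (60 * a)) with hD
  have hD0 : D ≠ 0 := by
    rw [hD]
    exact (ENNReal.ofReal_pos.mpr (by positivity)).ne'
  have hDt : D ≠ ⊤ := ENNReal.ofReal_ne_top
  have h1 : (F.card : ℝ≥0∞) * D ≤ ∑ c ∈ F, volume (X c ∩ cell a l z) := by
    rw [← nsmul_eq_mul, ← Finset.sum_const]
    exact Finset.sum_le_sum fun c hc => hF c hc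
  have h2 : ∑ c ∈ F, volume (X c ∩ cell a l z) ≤ volume (cell a l z) := by
    rw [← measure_biUnion_finset]
    · exact measure_mono (Set.iUnion₂_subset fun c _ => Set.inter_subset_right)
    · intro c _ c' _ hcc
      exact (hd c c' hcc).mono Set.inter_subset_left Set.inter_subset_left
    · intro c _
      exact (hX c).inter (measurable_cell a l z)
  have h3 : (F.card : ℝ≥0∞) * D ≤ 2 ^ (60 * a) * D := by
    refine h1.trans (h2.trans ?_)
    rw [vol_cell, thr]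
  exact (ENNReal.mul_le_mul_iff_left hD0 hDt).mp h3

theorem part3 (a l : ℕ) (ha : 20 ≤ a) (X : ℕ → Set (ℝ × ℝ)) (hX : ∀ c, MeasurableSet (X c))
    (hd : ∀ c c', c ≠ c' → Disjoint (X c) (X c')) (x : ℝ × ℝ) (F : Finset ℕ)
    (hF : ∀ c ∈ F, x ∈ nb a l (Pq a l (X c))) : (F.card : ℝ≥0∞) ≤ 9 * 2 ^ (60 * a) := by
  classical
  have h1 : F ⊆ nine.biUnion (fun d => F.filter (fun c => Qx a 0 l x + d ∈ pop a l (X c))) := by
    intro c hc
    obtain ⟨d, hd1, hd2⟩ := nb_Pq a l ha (X c) x (hF c hc)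
    rw [Finset.mem_biUnion]
    exact ⟨d, hd1, Finset.mem_filter.mpr ⟨hc, hd2⟩⟩
  have h2 : F.card ≤ ∑ d ∈ nine, (F.filter (fun c => Qx a 0 l x + d ∈ pop a l (X c))).card :=
    (Finset.card_le_card h1).trans Finset.card_biUnion_le
  calc (F.card : ℝ≥0∞)
      ≤ ((∑ d ∈ nine, (F.filter (fun c => Qx a 0 l x + d ∈ pop a l (X c))).card : ℕ) : ℝ≥0∞) := by
        exact_mod_cast h2
    _ = ∑ d ∈ nine, ((F.filter (fun c => Qx a 0 l x + d ∈ pop a l (X c))).card : ℝ≥0∞) := by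
        push_cast; rfl
    _ ≤ ∑ d ∈ nine, 2 ^ (60 * a) := by
        refine Finset.sum_le_sum fun d _ => ?_
        exact part3a a l X hX hd (Qx a 0 l x + d) _ fun c hc => (Finset.mem_filter.mp hc).2
    _ = 9 * 2 ^ (60 * a) := by
        rw [Finset.sum_const, nine_card]
        simp

theorem thr4 (a l : ℕ) : sd a l ^ 2 / 2 ^ (60 * a) = (4 : ℝ) ^ l / 2 ^ (24 * a) := by
  unfold sd
  rw [div_eq_div_iff (by positivity) (by positivity)]
  have h4 : (4 : ℝ) = 2 ^ 2 := by norm_num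
  rw [h4, ← pow_mul, ← pow_mul, ← pow_add, ← pow_add]
  congr 1
  ring

/-- the four shifts -/
noncomputable def four : Finset (ℤ × ℤ) := Finset.Icc 0 1 ×ˢ Finset.Icc 0 1

theorem four_card : four.card = 4 := by decide

theorem floor_ico (S r : ℝ) (hS : 0 < S) (hr : r ≤ S) (x y : ℝ) (h1 : y ≤ x) (h2 : x < y + r) :
    ⌊x / S⌋ - ⌊y / S⌋ ∈ Finset.Icc (0 : ℤ) 1 := by
  have h3 : y / S ≤ x / S := by
    rw [div_le_div_iff_of_pos_right hS]; exact h1
  have h4 : x / S < y / S + 1 := by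
    rw [div_add_one hS.ne', div_lt_div_iff_of_pos_right hS]; linarith
  have h5 : ⌊y / S⌋ ≤ ⌊x / S⌋ := Int.floor_le_floor h3
  have h6 : ⌊x / S⌋ ≤ ⌊y / S⌋ + 1 := by
    have := Int.floor_le_floor h4.le
    rwa [Int.floor_add_one] at this
  rw [Finset.mem_Icc]
  omega

theorem part4a (a l : ℕ) (X : Set (ℝ × ℝ)) (z : ℤ × ℤ) :
    volume ((X \ Pq a l X) ∩ cell a l z) ≤ ENNReal.ofReal (sd a l ^ 2 / 2 ^ (60 * a)) := by
  by_cases h : z ∈ pop a l X
  · have h1 : (X \ Pq a l X) ∩ cell a l z = ∅ := by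
      refine Set.eq_empty_iff_forall_notMem.mpr ?_
      rintro x ⟨⟨_, h2⟩, h3⟩
      apply h2
      have h3' : Qx a 0 l x = z := h3
      rw [mem_Pq, h3']
      exact h
    rw [h1, measure_empty]
    exact zero_le
  · have h1 : volume (X ∩ cell a l z) < ENNReal.ofReal (sd a l ^ 2 / 2 ^ (60 * a)) := by
      rw [← not_le]; exact h
    exact (measure_mono (Set.inter_subset_inter_left _ Set.sdiff_subset)).trans h1.le

theorem part4 (a l : ℕ) (X : Set (ℝ × ℝ)) (y : ℝ × ℝ) :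
    volume ((X \ Pq a l X) ∩ sq y (2 ^ l)) ≤ ENNReal.ofReal (4 * 4 ^ l / 2 ^ (24 * a)) := by
  have hS := sd_pos a l
  have hr : (2 : ℝ) ^ l ≤ sd a l := by
    unfold sd
    exact pow_le_pow_right₀ (by norm_num) (by omega)
  have hsub : (X \ Pq a l X) ∩ sq y (2 ^ l) ⊆
      ⋃ d ∈ four, (X \ Pq a l X) ∩ cell a l (Qx a 0 l y + d) := by
    rintro x ⟨h1, h2⟩
    obtain ⟨⟨h3, h4⟩, ⟨h5, h6⟩⟩ := h2
    rw [Set.mem_iUnion₂]
    refine ⟨Qx a 0 l x - Qx a 0 l y, ?_, h1, ?_⟩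
    · rw [Qx_eq, Qx_eq, four, Finset.mem_product]
      exact ⟨floor_ico _ _ hS hr _ _ h3 h4, floor_ico _ _ hS hr _ _ h5 h6⟩
    · show Qx a 0 l x = _
      rw [add_sub_cancel]
  refine (measure_mono hsub).trans ((measure_biUnion_finset_le _ _).trans ?_)
  refine (Finset.sum_le_sum fun d _ => part4a a l X _).trans ?_
  rw [Finset.sum_const, four_card, thr4, mul_div_assoc, ENNReal.ofReal_mul (by norm_num)]
  simp

end PQ_

theorem pPQ : tPQ := by
  classical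
  intro a l X ha hX hd
  refine ⟨fun c => PQ_.measurable_Pq a l (X c), fun c => PQ_.part2 a l ha (X c) (hX c).1, ?_,
    fun c y => PQ_.part4 a l (X c) y⟩
  intro x
  apply PQ_.part3 a l ha X (fun c => (hX c).1) hd x
  intro c hc
  exact (Finset.mem_filter.mp hc).2

end Pool.Agent.SLog
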