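import Pool.Agent.SLog.Targets
import Pool.Agent.LLog.LIN1
import Pool.Agent.LLog.LIN3
import Pool.Agent.LLog.HAT

set_option autoImplicit false

/-! Strong (2,2) bound, linearity lemmas for the operators. -/

namespace Pool.Agent.SLog

open MeasureTheory Set
open scoped ENNReal NNReal ComplexConjugate
open Pool.Agent.KSP (ee dot nr Ex Ex1 Bd Bd1 n1 n2 lg V0 ann)
open Pool.Agent.LLog (PA Core kc Bf hat)

namespace SV_

open Pool.Agent.KSP.K_ (Bd_indicator integrable_Ex measurable_Ex measurable_nr n2_indicator)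
open Pool.Agent.LLog.HAT_ (bf_int norm_ee)

theorem norm_hat_int {g : ℝ × ℝ → ℂ} (hg : Bf g) (ξ : ℝ × ℝ) :
    Integrable fun x => g x * ee (-(dot x ξ)) := by
  refine (bf_int hg).norm.mono' ?_ (Filter.Eventually.of_forall fun x => ?_)
  · refine (hg.1.mul ?_).aestronglyMeasurable
    refine KSP.K_.measurable_ee.comp ?_
    unfold KSP.dot
    fun_prop
  · rw [norm_mul, norm_ee, mul_one]

theorem Bf_zero : Bf (fun _ : ℝ × ℝ => (0 : ℂ)) :=
  ⟨measurable_const, ⟨0, fun _ => by simp⟩, by simp⟩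

theorem Bf_smul {g : ℝ × ℝ → ℂ} (hg : Bf g) (c : ℂ) : Bf (fun x => c * g x) := by
  obtain ⟨h1, ⟨B, hB⟩, h3⟩ := hg
  refine ⟨h1.const_mul c, ⟨‖c‖ * B, fun x => ?_⟩, lt_of_le_of_lt (measure_mono ?_) h3⟩
  · rw [norm_mul]
    gcongr
    exact hB x
  · intro x hx h0
    exact hx (by simp only [h0, mul_zero])

theorem Bf_add {g g' : ℝ × ℝ → ℂ} (hg : Bf g) (hg' : Bf g') : Bf (fun x => g x + g' x) := by
  obtain ⟨h1, ⟨B, hB⟩, h3⟩ := hg
  obtain ⟨h1', ⟨B', hB'⟩, h3'⟩ := hg'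
  refine ⟨h1.add h1', ⟨B + B', fun x => (norm_add_le _ _).trans (add_le_add (hB x) (hB' x))⟩,
    lt_of_le_of_lt (measure_mono (t := {x | g x ≠ 0} ∪ {x | g' x ≠ 0}) ?_)
      (measure_union_lt_top h3 h3')⟩
  intro x hx
  by_contra hcon
  simp only [mem_union, mem_setOf_eq, not_or, not_not] at hcon
  exact hx (by simp only [hcon.1, hcon.2, add_zero])

theorem Bf_sum {ι : Type} (s : Finset ι) {f : ι → ℝ × ℝ → ℂ} (hf : ∀ i ∈ s, Bf (f i)) :
    Bf (fun x => ∑ i ∈ s, f i x) := by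
  classical
  induction s using Finset.induction_on with
  | empty => simpa using Bf_zero
  | insert i s hi ih =>
    simp only [Finset.sum_insert hi]
    exact Bf_add (hf i (Finset.mem_insert_self i s))
      (ih fun j hj => hf j (Finset.mem_insert_of_mem hj))

theorem Bf_indicator {g : ℝ × ℝ → ℂ} (hg : Bf g) {S : Set (ℝ × ℝ)} (hS : MeasurableSet S) :
    Bf (S.indicator g) := by
  obtain ⟨h1, ⟨B, hB⟩, h3⟩ := hg
  refine ⟨h1.indicator hS, ⟨B, fun x => ?_⟩, lt_of_le_of_lt (measure_mono ?_) h3⟩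
  · by_cases h : x ∈ S
    · rw [indicator_of_mem h]; exact hB x
    · rw [indicator_of_notMem h, norm_zero]; exact (norm_nonneg _).trans (hB x)
  · intro x hx h0
    refine hx ?_
    by_cases h : x ∈ S
    · rw [indicator_of_mem h, h0]
    · rw [indicator_of_notMem h]

theorem hat_sum {ι : Type} (s : Finset ι) {f : ι → ℝ × ℝ → ℂ} (hf : ∀ i ∈ s, Bf (f i)) :
    hat (fun x => ∑ i ∈ s, f i x) = fun ξ => ∑ i ∈ s, hat (f i) ξ := by
  funext ξ
  unfold LLog.hat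
  rw [← integral_finset_sum _ fun i hi => norm_hat_int (hf i hi) ξ]
  refine integral_congr_ae (Filter.Eventually.of_forall fun x => ?_)
  simp only [Finset.sum_mul]

theorem hat_smul (g : ℝ × ℝ → ℂ) (c : ℂ) :
    hat (fun x => c * g x) = fun ξ => c * hat g ξ := by
  funext ξ
  unfold LLog.hat
  rw [← integral_const_mul]
  refine integral_congr_ae (Filter.Eventually.of_forall fun x => ?_)
  simp only
  ring

/-- bounded measurable -/
def BM (H : ℝ × ℝ → ℂ) : Prop := Measurable H ∧ ∃ B : ℝ, ∀ ξ, ‖H ξ‖ ≤ B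

theorem hat_BM (hHAT : LLog.tHAT) {g : ℝ × ℝ → ℂ} (hg : Bf g) : BM (hat g) :=
  ⟨(hHAT g hg).1.measurable, (hHAT g hg).2.1⟩

theorem BM_sum {ι : Type} (s : Finset ι) {f : ι → ℝ × ℝ → ℂ} (hf : ∀ i ∈ s, BM (f i)) :
    BM (fun x => ∑ i ∈ s, f i x) := by
  classical
  induction s using Finset.induction_on with
  | empty => exact ⟨by simp, 0, fun _ => by simp⟩
  | insert i s hi ih =>
    simp only [Finset.sum_insert hi]
    obtain ⟨a1, B1, b1⟩ := hf i (Finset.mem_insert_self i s)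
    obtain ⟨a2, B2, b2⟩ := ih fun j hj => hf j (Finset.mem_insert_of_mem hj)
    exact ⟨a1.add a2, B1 + B2, fun x => (norm_add_le _ _).trans (add_le_add (b1 x) (b2 x))⟩

theorem Bd_mul {μ H : ℝ × ℝ → ℂ} (hμ : Bd μ) (hH : BM H) : Bd (fun ξ => μ ξ * H ξ) := by
  obtain ⟨h1, ⟨B, hB⟩, R, hR⟩ := hμ
  obtain ⟨h2, B', hB'⟩ := hH
  refine ⟨h1.mul h2, ⟨B * B', fun ξ => ?_⟩, R, fun ξ hξ => hR ξ fun h0 => hξ ?_⟩
  · rw [norm_mul]
    exact mul_le_mul (hB ξ) (hB' ξ) (norm_nonneg _) ((norm_nonneg _).trans (hB ξ))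
  · simp only [h0, zero_mul]

theorem Ex_sum {ι : Type} (s : Finset ι) {f : ι → ℝ × ℝ → ℂ} (hf : ∀ i ∈ s, Bd (f i))
    (x : ℝ × ℝ) : Ex (fun ξ => ∑ i ∈ s, f i ξ) x = ∑ i ∈ s, Ex (f i) x := by
  unfold KSP.Ex
  rw [← integral_finset_sum _ fun i hi => integrable_Ex (hf i hi) x]
  refine integral_congr_ae (Filter.Eventually.of_forall fun x => ?_)
  simp only [Finset.sum_mul]

theorem Ex_smul (f : ℝ × ℝ → ℂ) (c : ℂ) (x : ℝ × ℝ) :
    Ex (fun ξ => c * f ξ) x = c * Ex f x := by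
  unfold KSP.Ex
  rw [← integral_const_mul]
  refine integral_congr_ae (Filter.Eventually.of_forall fun x => ?_)
  simp only
  ring

theorem TF_sum (hMU : tMUP) (hTRV : tTRV) {a m l t : ℕ} {sg sl : ℝ} {k : ℝ × ℝ → ℕ}
    (hP : HP a m l sg sl)
    (ht : 1 ≤ t) (ht3 : t ≤ 3) (hk : Measurable k) (hk4 : ∀ x, k x < 4 ^ m) {ι : Type}
    (s : Finset ι) {f : ι → ℝ × ℝ → ℂ} (hf : ∀ i ∈ s, BM (f i)) (x : ℝ × ℝ) :
    TF a m sg sl k l t (fun ξ => ∑ i ∈ s, f i ξ) x = ∑ i ∈ s, TF a m sg sl k l t (f i) x := by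
  unfold TF
  split_ifs with h
  · have hc := (hTRV a m l t sg sl k hP ht ht3 hk hk4).1 x h
    rw [Finset.sum_comm]
    refine Finset.sum_congr rfl fun p hp => ?_
    rw [← Ex_sum s fun i hi => Bd_mul (hMU a m l _ p sg sl hP hc hp).1 (hf i hi)]
    congr 1
    funext ξ
    rw [Finset.mul_sum]
  · simp

theorem TF_smul {a m l t : ℕ} {sg sl : ℝ} {k : ℝ × ℝ → ℕ} (H : ℝ × ℝ → ℂ) (c : ℂ)
    (x : ℝ × ℝ) :
    TF a m sg sl k l t (fun ξ => c * H ξ) x = c * TF a m sg sl k l t H x := by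
  unfold TF
  split_ifs with h
  · rw [Finset.mul_sum]
    refine Finset.sum_congr rfl fun p _ => ?_
    rw [← Ex_smul]
    congr 1
    funext ξ
    ring
  · simp

end SV_

end Pool.Agent.SLog
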