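import Pool.Agent.SLog.SV1

set_option autoImplicit false

/-! Strong (2,2) bound: dyadic pieces of a function. -/

namespace Pool.Agent.SLog

open MeasureTheory Set
open scoped ENNReal NNReal ComplexConjugate
open Pool.Agent.KSP (ee dot nr Ex Ex1 Bd Bd1 n1 n2 lg V0 ann)
open Pool.Agent.LLog (PA Core kc Bf hat)

namespace SV_

/-- the points where `|f| ~ 2^j` -/
def lv (f : ℝ × ℝ → ℂ) (j : ℤ) : Set (ℝ × ℝ) := {x | (2 : ℝ) ^ j ≤ ‖f x‖ ∧ ‖f x‖ < (2 : ℝ) ^ (j + 1)}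

/-- the dyadic piece -/
noncomputable def fj (f : ℝ × ℝ → ℂ) (j : ℤ) : ℝ × ℝ → ℂ := (lv f j).indicator f

theorem lv_meas {f : ℝ × ℝ → ℂ} (hf : Measurable f) (j : ℤ) : MeasurableSet (lv f j) :=
  (measurableSet_le measurable_const hf.norm).inter (measurableSet_lt hf.norm measurable_const)

theorem lv_disj {f : ℝ × ℝ → ℂ} {x : ℝ × ℝ} {i j : ℤ} (hi : x ∈ lv f i) (hj : x ∈ lv f j) :
    i = j := by
  have key : ∀ i j : ℤ, x ∈ lv f i → x ∈ lv f j → ¬ i < j := by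
    intro i j hi hj h
    have h1 : (2 : ℝ) ^ (i + 1) ≤ (2 : ℝ) ^ j := zpow_le_zpow_right₀ (by norm_num) h
    exact absurd (hi.2.trans_le (h1.trans hj.1)) (lt_irrefl _)
  exact le_antisymm (not_lt.1 (key j i hj hi)) (not_lt.1 (key i j hi hj))

theorem fj_ne {f : ℝ × ℝ → ℂ} {j : ℤ} {x : ℝ × ℝ} (h : fj f j x ≠ 0) : x ∈ lv f j := by
  by_contra hcon
  exact h (indicator_of_notMem hcon _)

theorem fj_of_mem {f : ℝ × ℝ → ℂ} {j : ℤ} {x : ℝ × ℝ} (h : x ∈ lv f j) : fj f j x = f x :=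
  indicator_of_mem h _

theorem fj_of_notMem {f : ℝ × ℝ → ℂ} {j : ℤ} {x : ℝ × ℝ} (h : x ∉ lv f j) : fj f j x = 0 :=
  indicator_of_notMem h _

theorem fj_norm_lt (f : ℝ × ℝ → ℂ) (j : ℤ) (x : ℝ × ℝ) : ‖fj f j x‖ < (2 : ℝ) ^ (j + 1) := by
  by_cases h : x ∈ lv f j
  · rw [fj_of_mem h]; exact h.2
  · rw [fj_of_notMem h, norm_zero]; positivity

theorem lv_vol {f : ℝ × ℝ → ℂ} (hf : Measurable f) (h2 : ∫⁻ x, ‖f x‖ₑ ^ 2 < ⊤) (j : ℤ) :
    volume (lv f j) < ⊤ := by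
  have hp : (0 : ℝ) < (2 : ℝ) ^ j := by positivity
  have h1 : volume (lv f j) ≤ volume {x | ENNReal.ofReal ((2 : ℝ) ^ j) ^ 2 ≤ ‖f x‖ₑ ^ 2} := by
    refine measure_mono fun x hx => ?_
    have : ENNReal.ofReal ((2 : ℝ) ^ j) ≤ ‖f x‖ₑ := by
      rw [← ofReal_norm]
      exact ENNReal.ofReal_le_ofReal hx.1
    exact pow_le_pow_left' this 2
  refine lt_of_le_of_lt (h1.trans (meas_ge_le_lintegral_div
    (hf.enorm.pow_const 2).aemeasurable ?_ ?_)) ?_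
  · exact pow_ne_zero 2 (by simpa using hp)
  · exact ENNReal.pow_ne_top ENNReal.ofReal_ne_top
  · exact ENNReal.div_lt_top h2.ne (pow_ne_zero 2 (by simpa using hp))

theorem fj_Bf {f : ℝ × ℝ → ℂ} (hf : Measurable f) (h2 : ∫⁻ x, ‖f x‖ₑ ^ 2 < ⊤) (j : ℤ) :
    Bf (fj f j) := by
  refine ⟨hf.indicator (lv_meas hf j), ⟨(2 : ℝ) ^ (j + 1), fun x => (fj_norm_lt f j x).le⟩,
    lt_of_le_of_lt (measure_mono fun x hx => fj_ne hx) (lv_vol hf h2 j)⟩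

/-- sums of pieces -/
theorem sum_sq (f : ℝ × ℝ → ℂ) (s : Finset ℤ) (x : ℝ × ℝ) :
    ‖∑ j ∈ s, fj f j x‖ₑ ^ 2 = ∑ j ∈ s, ‖fj f j x‖ₑ ^ 2 := by
  by_cases h : ∃ j ∈ s, fj f j x ≠ 0
  · obtain ⟨j, hj, hne⟩ := h
    have hz : ∀ i, i ≠ j → fj f i x = 0 := by
      intro i hij
      by_contra hcon
      exact hij (lv_disj (fj_ne hcon) (fj_ne hne))
    rw [Finset.sum_eq_single_of_mem j hj fun i _ hij => hz i hij,
      Finset.sum_eq_single_of_mem j hj fun i _ hij => by rw [hz i hij]; simp]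
  · push Not at h
    rw [Finset.sum_eq_zero h, Finset.sum_eq_zero fun j hj => by rw [h j hj]; simp]
    simp

theorem sum_sq_le (f : ℝ × ℝ → ℂ) (s : Finset ℤ) (x : ℝ × ℝ) :
    ∑ j ∈ s, ‖fj f j x‖ₑ ^ 2 ≤ ‖f x‖ₑ ^ 2 := by
  classical
  refine LLog.LIN_.sum_le_one _ _ _ (fun j _ => ?_) ?_
  · gcongr
    exact enorm_indicator_le_enorm_self _ _
  · intro i _ j _ hi hj
    have hne : ∀ j, ‖fj f j x‖ₑ ^ 2 ≠ 0 → fj f j x ≠ 0 := by
      intro j hj h0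
      exact hj (by rw [h0]; simp)
    exact lv_disj (fj_ne (hne i hi)) (fj_ne (hne j hj))

theorem int_sum_sq {f : ℝ × ℝ → ℂ} (hf : Measurable f) (s : Finset ℤ) :
    ∫⁻ x, ‖∑ j ∈ s, fj f j x‖ₑ ^ 2 = ∑ j ∈ s, ∫⁻ x, ‖fj f j x‖ₑ ^ 2 := by
  simp only [sum_sq]
  exact lintegral_finsetSum _ fun j _ => ((hf.indicator (lv_meas hf j)).enorm.pow_const 2)

theorem int_sum_le {f : ℝ × ℝ → ℂ} (hf : Measurable f) (s : Finset ℤ) :
    ∑ j ∈ s, ∫⁻ x, ‖fj f j x‖ₑ ^ 2 ≤ ∫⁻ x, ‖f x‖ₑ ^ 2 := by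
  have hm : ∀ j, Measurable fun x => ‖fj f j x‖ₑ ^ 2 := fun j =>
    (show Measurable (fj f j) from hf.indicator (lv_meas hf j)).enorm.pow_const 2
  rw [← lintegral_finsetSum s fun j _ => hm j]
  exact lintegral_mono fun x => sum_sq_le f s x

/-- the pieces between two levels -/
theorem sum_Icc {f : ℝ × ℝ → ℂ} {J0 J1 : ℤ} {x : ℝ × ℝ} (h1 : ‖f x‖ < (2 : ℝ) ^ (J1 + 1)) :
    ∑ j ∈ Finset.Icc J0 J1, fj f j x = {x | (2 : ℝ) ^ J0 ≤ ‖f x‖}.indicator f x := by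
  by_cases h0 : (2 : ℝ) ^ J0 ≤ ‖f x‖
  · rw [indicator_of_mem (show x ∈ {x | (2 : ℝ) ^ J0 ≤ ‖f x‖} from h0)]
    have hpos : 0 < ‖f x‖ := lt_of_lt_of_le (by positivity) h0
    obtain ⟨n, hn⟩ := exists_mem_Ico_zpow (y := (2 : ℝ)) hpos (by norm_num)
    have hx : x ∈ lv f n := hn
    have e1 : J0 ≤ n := by
      by_contra hcon
      have : (2 : ℝ) ^ (n + 1) ≤ (2 : ℝ) ^ J0 := zpow_le_zpow_right₀ (by norm_num) (by omega)
      linarith [hn.2]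
    have e2 : n ≤ J1 := by
      by_contra hcon
      have : (2 : ℝ) ^ (J1 + 1) ≤ (2 : ℝ) ^ n := zpow_le_zpow_right₀ (by norm_num) (by omega)
      linarith [hn.1]
    rw [Finset.sum_eq_single_of_mem n (Finset.mem_Icc.2 ⟨e1, e2⟩) fun i _ hij => ?_]
    · exact fj_of_mem hx
    · by_contra hcon
      exact hij (lv_disj (fj_ne hcon) hx)
  · rw [indicator_of_notMem (show x ∉ {x | (2 : ℝ) ^ J0 ≤ ‖f x‖} from h0)]
    refine Finset.sum_eq_zero fun j hj => ?_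
    refine fj_of_notMem fun hcon => h0 ?_
    exact (zpow_le_zpow_right₀ (by norm_num) (Finset.mem_Icc.1 hj).1).trans hcon.1

/-- the low part is small -/
theorem low_small {f : ℝ × ℝ → ℂ} (hf : Measurable f) (h2 : ∫⁻ x, ‖f x‖ₑ ^ 2 < ⊤) {ε : ℝ≥0∞}
    (hε : 0 < ε) : ∃ J0 : ℤ, ∫⁻ x in {x | ¬ (2 : ℝ) ^ J0 ≤ ‖f x‖}, ‖f x‖ₑ ^ 2 ≤ ε := by
  set A : ℕ → Set (ℝ × ℝ) := fun n => {x | ¬ (2 : ℝ) ^ (-(n : ℤ)) ≤ ‖f x‖} with hA
  have hAm : ∀ n, MeasurableSet (A n) := fun n =>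
    (measurableSet_le measurable_const hf.norm).compl
  have hlim : Filter.Tendsto (fun n => ∫⁻ x, (A n).indicator (fun x => ‖f x‖ₑ ^ 2) x)
      Filter.atTop (nhds (∫⁻ _ : ℝ × ℝ, 0)) := by
    refine tendsto_lintegral_of_dominated_convergence (fun x => ‖f x‖ₑ ^ 2)
      (fun n => ((hf.enorm.pow_const 2).indicator (hAm n))) (fun n => ?_) h2.ne ?_
    · exact Filter.Eventually.of_forall fun x => indicator_le_self _ _ _
    · refine Filter.Eventually.of_forall fun x => ?_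
      by_cases hx : ‖f x‖ = 0
      · have : ∀ n, (A n).indicator (fun x => ‖f x‖ₑ ^ 2) x = 0 := by
          intro n
          have h0 : ‖f x‖ₑ = 0 := by rw [← ofReal_norm, hx]; simp
          by_cases h : x ∈ A n
          · rw [indicator_of_mem h]; simp [h0]
          · rw [indicator_of_notMem h]
        simp only [this]
        exact tendsto_const_nhds
      · have hpos : 0 < ‖f x‖ := lt_of_le_of_ne (norm_nonneg _) (Ne.symm hx)
        obtain ⟨N, hN⟩ := exists_pow_lt_of_lt_one hpos (y := (1 / 2 : ℝ)) (by norm_num)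
        refine tendsto_const_nhds.congr' ?_
        filter_upwards [Filter.eventually_ge_atTop N] with n hn
        rw [indicator_of_notMem]
        simp only [hA, mem_ofPred_eq, not_not]
        rw [zpow_neg, zpow_natCast, ← inv_pow]
        calc ((2 : ℝ)⁻¹) ^ n ≤ (2 : ℝ)⁻¹ ^ N := pow_le_pow_of_le_one (by norm_num) (by norm_num) hn
          _ = (1 / 2) ^ N := by norm_num
          _ ≤ ‖f x‖ := hN.le
  simp only [lintegral_zero] at hlim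
  obtain ⟨n, hn⟩ := ((ENNReal.tendsto_nhds_zero.1 hlim) ε hε).exists
  refine ⟨-(n : ℤ), ?_⟩
  rw [← lintegral_indicator (hAm n)]
  exact hn

end SV_

end Pool.Agent.SLog
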