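import Pool.Agent.SLog.SV2

set_option autoImplicit false

/-! Strong (2,2) bound: estimates for the dyadic pieces. -/

namespace Pool.Agent.SLog

open MeasureTheory Set
open scoped ENNReal NNReal ComplexConjugate
open Pool.Agent.KSP (ee dot nr Ex Ex1 Bd Bd1 n1 n2 lg V0 ann)
open Pool.Agent.LLog (PA Core kc Bf hat)

namespace SV_

theorem enorm_two (j : ℤ) : ‖(((2 : ℝ) ^ j : ℝ) : ℂ)‖ₑ = (2 : ℝ≥0∞) ^ j := by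
  rw [← ofReal_norm, Complex.norm_real, Real.norm_eq_abs, abs_of_pos (by positivity)]
  have : (2 : ℝ≥0∞) = ((2 : ℝ≥0) : ℝ≥0∞) := by norm_num
  rw [this, ← ENNReal.coe_zpow (by norm_num), ENNReal.ofReal]
  congr 1
  ext
  push_cast
  rw [Real.coe_toNNReal _ (by positivity)]

theorem two_pos (j : ℤ) : (2 : ℝ≥0∞) ^ j ≠ 0 := (ENNReal.zpow_pos (by norm_num) (by norm_num) j).ne'

theorem two_top (j : ℤ) : (2 : ℝ≥0∞) ^ j ≠ ⊤ := ENNReal.zpow_ne_top (by norm_num) (by norm_num) j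

theorem two_neg2 (j : ℤ) : (2 : ℝ≥0∞) ^ (-2 * j) = ((2 : ℝ≥0∞) ^ (-j)) ^ 2 := by
  rw [sq, ← ENNReal.zpow_add (by norm_num) (by norm_num)]
  congr 1
  ring

theorem two_mul_neg (j : ℤ) : (2 : ℝ≥0∞) ^ j * (2 : ℝ≥0∞) ^ (-j) = 1 := by
  rw [← ENNReal.zpow_add (by norm_num) (by norm_num)]
  simp

/-- the piece normalised by `2^i` -/
noncomputable def gj (f : ℝ × ℝ → ℂ) (i j : ℤ) : ℝ × ℝ → ℂ :=
  fun x => (((2 : ℝ) ^ (-i) : ℝ) : ℂ) * fj f j x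

theorem gj_Bf {f : ℝ × ℝ → ℂ} (hf : Measurable f) (h2 : ∫⁻ x, ‖f x‖ₑ ^ 2 < ⊤) (i j : ℤ) :
    Bf (gj f i j) := Bf_smul (fj_Bf hf h2 j) _

theorem gj_int {f : ℝ × ℝ → ℂ} (hf : Measurable f) (i j : ℤ) :
    ∫⁻ x, ‖gj f i j x‖ₑ ^ 2 = (2 : ℝ≥0∞) ^ (-2 * i) * ∫⁻ x, ‖fj f j x‖ₑ ^ 2 := by
  have hm : Measurable fun x => ‖fj f j x‖ₑ ^ 2 :=
    (show Measurable (fj f j) from hf.indicator (lv_meas hf j)).enorm.pow_const 2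
  rw [← lintegral_const_mul _ hm]
  refine lintegral_congr fun x => ?_
  rw [gj, enorm_mul, enorm_two, mul_pow, two_neg2]

theorem gj_TF {a m l t : ℕ} {sg sl : ℝ} {k : ℝ × ℝ → ℕ} (f : ℝ × ℝ → ℂ) (i j : ℤ) (x : ℝ × ℝ) :
    ‖TF a m sg sl k l t (hat (gj f i j)) x‖ₑ =
      (2 : ℝ≥0∞) ^ (-i) * ‖TF a m sg sl k l t (hat (fj f j)) x‖ₑ := by
  unfold gj
  rw [hat_smul, TF_smul, enorm_mul, enorm_two]

theorem gj_set {a m l t : ℕ} {sg sl : ℝ} {k : ℝ × ℝ → ℕ} (f : ℝ × ℝ → ℂ) (i j : ℤ)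
    (lam : ℝ≥0∞) :
    {x | (2 : ℝ≥0∞) ^ i * lam < ‖TF a m sg sl k l t (hat (fj f j)) x‖ₑ} =
      {x | lam < ‖TF a m sg sl k l t (hat (gj f i j)) x‖ₑ} := by
  ext x
  simp only [mem_ofPred_eq]
  rw [gj_TF]
  set y := ‖TF a m sg sl k l t (hat (fj f j)) x‖ₑ
  constructor
  · intro h
    have h1 := ENNReal.mul_lt_mul_right (two_pos (-i)) (two_top (-i)) h
    calc lam = (2 : ℝ≥0∞) ^ (-i) * ((2 : ℝ≥0∞) ^ i * lam) := by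
          rw [← mul_assoc, mul_comm ((2 : ℝ≥0∞) ^ (-i)), two_mul_neg, one_mul]
      _ < _ := h1
  · intro h
    have h1 := ENNReal.mul_lt_mul_right (two_pos i) (two_top i) h
    calc (2 : ℝ≥0∞) ^ i * lam < (2 : ℝ≥0∞) ^ i * ((2 : ℝ≥0∞) ^ (-i) * y) := h1
      _ = y := by rw [← mul_assoc, two_mul_neg, one_mul]

/-- large functions -/
theorem op_j {C : ℝ≥0} {a m l t : ℕ} {sg sl : ℝ} {k : ℝ × ℝ → ℕ}
    (hC : ∀ (g : ℝ × ℝ → ℂ) (lam : ℝ≥0), Bf g → (∀ x, g x ≠ 0 → 1 ≤ ‖g x‖) →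
      (lam : ℝ≥0∞) ^ 2 * volume {x | (lam : ℝ≥0∞) < ‖TF a m sg sl k l t (hat g) x‖ₑ} ≤
        C * (ENNReal.ofReal (1 / 2 ^ (9 * a)) + 2 ^ (420 * a) * (lam : ℝ≥0∞) ^ (2 / 3 : ℝ)) *
          ∫⁻ x, ‖g x‖ₑ ^ 2)
    {f : ℝ × ℝ → ℂ} (hf : Measurable f) (h2 : ∫⁻ x, ‖f x‖ₑ ^ 2 < ⊤) (j : ℤ) (lam : ℝ≥0) :
    (lam : ℝ≥0∞) ^ 2 * volume {x | (2 : ℝ≥0∞) ^ j * lam <
        ‖TF a m sg sl k l t (hat (fj f j)) x‖ₑ} ≤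
      C * (ENNReal.ofReal (1 / 2 ^ (9 * a)) + 2 ^ (420 * a) * (lam : ℝ≥0∞) ^ (2 / 3 : ℝ)) *
        ((2 : ℝ≥0∞) ^ (-2 * j) * ∫⁻ x, ‖fj f j x‖ₑ ^ 2) := by
  rw [gj_set, ← gj_int hf]
  refine hC _ _ (gj_Bf hf h2 _ _) fun x hx => ?_
  have hx' : fj f j x ≠ 0 := fun h0 => hx (by rw [gj, h0, mul_zero])
  have h1 := (fj_ne hx').1
  rw [gj, norm_mul, Complex.norm_real, Real.norm_eq_abs, abs_of_pos (by positivity),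
    fj_of_mem (fj_ne hx'), zpow_neg]
  rw [← div_eq_inv_mul, le_div_iff₀ (by positivity), one_mul]
  exact h1

/-- small functions -/
theorem om_j {C : ℝ≥0} {a m l t : ℕ} {sg sl : ℝ} {k : ℝ × ℝ → ℕ}
    (hC : ∀ (g : ℝ × ℝ → ℂ) (lam : ℝ≥0), Bf g → (∀ x, ‖g x‖ ≤ 1) →
      (lam : ℝ≥0∞) ^ 4 * volume {x | (lam : ℝ≥0∞) < ‖TF a m sg sl k l t (hat g) x‖ₑ} ≤
        C * (ENNReal.ofReal (1 / 2 ^ (9 * a)) * (lam : ℝ≥0∞) ^ 2 + 2 ^ (120 * a)) *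
          ∫⁻ x, ‖g x‖ₑ ^ 2)
    {f : ℝ × ℝ → ℂ} (hf : Measurable f) (h2 : ∫⁻ x, ‖f x‖ₑ ^ 2 < ⊤) (j : ℤ) (lam : ℝ≥0) :
    (lam : ℝ≥0∞) ^ 4 * volume {x | (2 : ℝ≥0∞) ^ j * lam <
        ‖TF a m sg sl k l t (hat (fj f j)) x‖ₑ} ≤
      (16 * C) * (ENNReal.ofReal (1 / 2 ^ (9 * a)) * (lam : ℝ≥0∞) ^ 2 + 2 ^ (120 * a)) *
        ((2 : ℝ≥0∞) ^ (-2 * j) * ∫⁻ x, ‖fj f j x‖ₑ ^ 2) := by
  have e1 : (2 : ℝ≥0∞) ^ j * lam = (2 : ℝ≥0∞) ^ (j + 1) * ((lam / 2 : ℝ≥0) : ℝ≥0∞) := by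
    rw [ENNReal.zpow_add (by norm_num) (by norm_num), zpow_one, mul_assoc]
    congr 1
    rw [show (2 : ℝ≥0∞) = ((2 : ℝ≥0) : ℝ≥0∞) by norm_num, ← ENNReal.coe_mul]
    congr 1
    field_simp
  have h := hC (gj f (j + 1) j) (lam / 2) (gj_Bf hf h2 _ _) fun x => by
    rw [gj, norm_mul, Complex.norm_real, Real.norm_eq_abs, abs_of_pos (by positivity), zpow_neg,
      ← div_eq_inv_mul, div_le_one (by positivity)]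
    exact (fj_norm_lt f j x).le
  rw [← gj_set, ← e1, gj_int hf] at h
  have e2 : (lam : ℝ≥0∞) ^ 4 = 16 * ((lam / 2 : ℝ≥0) : ℝ≥0∞) ^ 4 := by
    rw [show (16 : ℝ≥0∞) = ((16 : ℝ≥0) : ℝ≥0∞) by norm_num, ← ENNReal.coe_pow, ← ENNReal.coe_pow,
      ← ENNReal.coe_mul]
    congr 1
    field_simp
    norm_num
  have e3 : (((lam / 2 : ℝ≥0)) : ℝ≥0∞) ≤ lam := by
    exact_mod_cast half_le_self (by positivity)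
  have e4 : (2 : ℝ≥0∞) ^ (-2 * (j + 1)) ≤ (2 : ℝ≥0∞) ^ (-2 * j) := by
    rw [two_neg2, two_neg2]
    refine pow_le_pow_left' ?_ 2
    rw [show -j = -(j + 1) + 1 by ring, ENNReal.zpow_add (by norm_num) (by norm_num), zpow_one]
    calc (2 : ℝ≥0∞) ^ (-(j + 1)) = (2 : ℝ≥0∞) ^ (-(j + 1)) * 1 := (mul_one _).symm
      _ ≤ _ := by gcongr; norm_num
  rw [e2, mul_assoc]
  calc 16 * (((lam / 2 : ℝ≥0) : ℝ≥0∞) ^ 4 *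
      volume {x | (2 : ℝ≥0∞) ^ j * lam < ‖TF a m sg sl k l t (hat (fj f j)) x‖ₑ})
      ≤ 16 * (C * (ENNReal.ofReal (1 / 2 ^ (9 * a)) * ((lam / 2 : ℝ≥0) : ℝ≥0∞) ^ 2 +
          2 ^ (120 * a)) * ((2 : ℝ≥0∞) ^ (-2 * (j + 1)) * ∫⁻ x, ‖fj f j x‖ₑ ^ 2)) := by
        gcongr
    _ ≤ 16 * (C * (ENNReal.ofReal (1 / 2 ^ (9 * a)) * (lam : ℝ≥0∞) ^ 2 +
          2 ^ (120 * a)) * ((2 : ℝ≥0∞) ^ (-2 * j) * ∫⁻ x, ‖fj f j x‖ₑ ^ 2)) := by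
        gcongr
    _ = _ := by ring

/-- the trivial `L¹` bound -/
theorem l1_j {a m l t : ℕ} {sg sl : ℝ} {k : ℝ × ℝ → ℕ}
    (hC : ∀ g : ℝ × ℝ → ℂ, Bf g → ∫⁻ x, ‖TF a m sg sl k l t (hat g) x‖ₑ ≤
      2 ^ (5 * m) * ∫⁻ x, ‖g x‖ₑ)
    (hM : ∀ g : ℝ × ℝ → ℂ, Bf g → Measurable (TF a m sg sl k l t (hat g)))
    {f : ℝ × ℝ → ℂ} (hf : Measurable f) (h2 : ∫⁻ x, ‖f x‖ₑ ^ 2 < ⊤) (j : ℤ) (lam : ℝ≥0) :
    (lam : ℝ≥0∞) * volume {x | (2 : ℝ≥0∞) ^ j * lam <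
        ‖TF a m sg sl k l t (hat (fj f j)) x‖ₑ} ≤
      2 ^ (5 * m) * ((2 : ℝ≥0∞) ^ (-2 * j) * ∫⁻ x, ‖fj f j x‖ₑ ^ 2) := by
  rw [gj_set, ← gj_int hf]
  have hB := gj_Bf hf h2 j j
  calc (lam : ℝ≥0∞) * volume {x | (lam : ℝ≥0∞) < ‖TF a m sg sl k l t (hat (gj f j j)) x‖ₑ}
      ≤ (lam : ℝ≥0∞) * volume {x | (lam : ℝ≥0∞) ≤ ‖TF a m sg sl k l t (hat (gj f j j)) x‖ₑ} := by
        gcongr
        intro h
        exact h.le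
    _ ≤ ∫⁻ x, ‖TF a m sg sl k l t (hat (gj f j j)) x‖ₑ :=
        mul_meas_ge_le_lintegral (hM _ hB).enorm _
    _ ≤ 2 ^ (5 * m) * ∫⁻ x, ‖gj f j j x‖ₑ := hC _ hB
    _ ≤ 2 ^ (5 * m) * ∫⁻ x, ‖gj f j j x‖ₑ ^ 2 := by
        gcongr with x
        by_cases h0 : gj f j j x = 0
        · rw [h0]; simp
        · have hx' : fj f j x ≠ 0 := fun h => h0 (by rw [gj, h, mul_zero])
          have h1 := (fj_ne hx').1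
          have h3 : 1 ≤ ‖gj f j j x‖ := by
            rw [gj, norm_mul, Complex.norm_real, Real.norm_eq_abs, abs_of_pos (by positivity),
              fj_of_mem (fj_ne hx'), zpow_neg, ← div_eq_inv_mul, le_div_iff₀ (by positivity),
              one_mul]
            exact h1
          have h4 : 1 ≤ ‖gj f j j x‖ₑ := by
            rw [← ofReal_norm, ← ENNReal.ofReal_one]
            exact ENNReal.ofReal_le_ofReal h3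
          calc ‖gj f j j x‖ₑ = ‖gj f j j x‖ₑ * 1 := (mul_one _).symm
            _ ≤ ‖gj f j j x‖ₑ * ‖gj f j j x‖ₑ := by gcongr
            _ = _ := (sq _).symm

/-- the trivial uniform bound -/
theorem li_j {a m l t : ℕ} {sg sl : ℝ} {k : ℝ × ℝ → ℕ}
    (hC : ∀ g : ℝ × ℝ → ℂ, Bf g → ∀ B : ℝ, (∀ x, ‖g x‖ ≤ B) → ∀ x,
      ‖TF a m sg sl k l t (hat g) x‖ ≤ 2 ^ (5 * m) * B)
    {f : ℝ × ℝ → ℂ} (hf : Measurable f) (h2 : ∫⁻ x, ‖f x‖ₑ ^ 2 < ⊤) (j : ℤ) (x : ℝ × ℝ) :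
    ‖TF a m sg sl k l t (hat (fj f j)) x‖ₑ ≤ 2 ^ (5 * m) * (2 : ℝ≥0∞) ^ (j + 1) := by
  have h := hC (fj f j) (fj_Bf hf h2 j) ((2 : ℝ) ^ (j + 1)) (fun x => (fj_norm_lt f j x).le) x
  rw [← enorm_two (j + 1), ← ofReal_norm, ← ofReal_norm]
  have e : (2 : ℝ≥0∞) ^ (5 * m) = ENNReal.ofReal ((2 : ℝ) ^ (5 * m)) := by
    rw [ENNReal.ofReal_pow (by norm_num)]
    norm_num
  rw [e, ← ENNReal.ofReal_mul (by positivity)]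
  refine ENNReal.ofReal_le_ofReal (h.trans (le_of_eq ?_))
  rw [Complex.norm_real, Real.norm_eq_abs, abs_of_pos (by positivity)]

end SV_

end Pool.Agent.SLog
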