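import Pool.Agent.SLog.SV3

set_option autoImplicit false

/-! Strong (2,2) bound: interpolation for the operator `AF`. -/

namespace Pool.Agent.SLog

open MeasureTheory Set
open scoped ENNReal NNReal ComplexConjugate
open Pool.Agent.KSP (ee dot nr Ex Ex1 Bd Bd1 n1 n2 lg V0 ann)
open Pool.Agent.LLog (PA Core kc Bf hat)

namespace SV_

/-- level number `ν` -/
def ll (a ν : ℕ) : ℕ := 10 * a + 1 + ν / 3

/-- sibling number `ν` -/
def tt (ν : ℕ) : ℕ := 1 + ν % 3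

theorem reindex {M : Type} [AddCommMonoid M] (a n : ℕ) (G : ℕ → ℕ → M) :
    ∑ ν ∈ Finset.range (3 * n), G (ll a ν) (tt ν) =
      ∑ l ∈ Finset.Ioc (10 * a) (10 * a + n), ∑ t ∈ Finset.Icc 1 3, G l t := by
  induction n with
  | zero => simp
  | succ n ih =>
    have e1 : 3 * (n + 1) = 3 * n + 1 + 1 + 1 := by ring
    rw [e1, Finset.sum_range_succ, Finset.sum_range_succ, Finset.sum_range_succ, ih]
    have e2 : Finset.Ioc (10 * a) (10 * a + (n + 1)) =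
        insert (10 * a + n + 1) (Finset.Ioc (10 * a) (10 * a + n)) := by
      ext z
      simp only [Finset.mem_Ioc, Finset.mem_insert]
      omega
    rw [e2, Finset.sum_insert (by simp)]
    have e3 : Finset.Icc 1 3 = {1, 2, 3} := by decide
    rw [e3]
    rw [Finset.sum_insert (by decide), Finset.sum_insert (by decide), Finset.sum_singleton]
    have a1 : ll a (3 * n) = 10 * a + n + 1 := by unfold ll; omega
    have a2 : ll a (3 * n + 1) = 10 * a + n + 1 := by unfold ll; omega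
    have a3 : ll a (3 * n + 1 + 1) = 10 * a + n + 1 := by unfold ll; omega
    have b1 : tt (3 * n) = 1 := by unfold tt; omega
    have b2 : tt (3 * n + 1) = 2 := by unfold tt; omega
    have b3 : tt (3 * n + 1 + 1) = 3 := by unfold tt; omega
    rw [a1, a2, a3, b1, b2, b3, add_comm (G _ 1 + _), ← add_assoc, ← add_assoc]

/-- the functions of the interpolation lemma -/
noncomputable def FF (a m : ℕ) (sg sl : ℝ) (k : ℝ × ℝ → ℕ) (f : ℝ × ℝ → ℂ) (ν : ℕ) (j : ℤ)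
    (x : ℝ × ℝ) : ℂ :=
  if ν < 3 * (m - 10 * a) then TF a m sg sl k (ll a ν) (tt ν) (hat (fj f j)) x else 0

theorem HP_ll {a m ν : ℕ} {sg sl : ℝ} (hPA : PA a m) (h0 : 0 ≤ sg) (h1 : sg < 1) (s0 : 1 ≤ sl)
    (s1 : sl < 2) (hν : ν < 3 * (m - 10 * a)) :
    HP a m (ll a ν) sg sl ∧ 1 ≤ tt ν ∧ tt ν ≤ 3 := by
  exact ⟨⟨hPA, by unfold ll; omega, by unfold ll; omega, h0, h1, s0, s1⟩, by unfold tt; omega,
    by unfold tt; omega⟩

theorem AF_sum (hMU : tMUP) (hTRV : tTRV) (hHAT : LLog.tHAT) {a m : ℕ} {sg sl : ℝ}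
    {k : ℝ × ℝ → ℕ}
    (hPA : PA a m) (h0 : 0 ≤ sg) (h1 : sg < 1) (s0 : 1 ≤ sl)
    (s1 : sl < 2) (hk : Measurable k) (hk4 : ∀ x, k x < 4 ^ m) {f : ℝ × ℝ → ℂ}
    (hf : Measurable f) (h2 : ∫⁻ x, ‖f x‖ₑ ^ 2 < ⊤) (s : Finset ℤ) (x : ℝ × ℝ) :
    AF a m sg sl k (hat (fun x => ∑ j ∈ s, fj f j x)) x =
      ∑ ν ∈ Finset.range (3 * (m - 10 * a)), ∑ j ∈ s, FF a m sg sl k f ν j x := by
  have hm : 10 * a ≤ m := LLog.LIN_.ten hPA
  unfold AF
  rw [hat_sum s fun j _ => fj_Bf hf h2 j]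
  have e1 : Finset.Ioc (10 * a) m = Finset.Ioc (10 * a) (10 * a + (m - 10 * a)) := by
    congr 1
    omega
  rw [e1, ← reindex a (m - 10 * a)
    (fun l t => TF a m sg sl k l t (fun ξ => ∑ j ∈ s, hat (fj f j) ξ) x)]
  refine Finset.sum_congr rfl fun ν hν => ?_
  have hν' := Finset.mem_range.1 hν
  obtain ⟨hP, ht1, ht3⟩ := HP_ll hPA h0 h1 s0 s1 hν'
  rw [TF_sum hMU hTRV hP ht1 ht3 hk hk4 s fun j _ => hat_BM hHAT (fj_Bf hf h2 j)]
  refine Finset.sum_congr rfl fun j _ => ?_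
  rw [FF, if_pos hν']

/-- interpolation: reduction to the weak type sums -/
theorem interp (hMU : tMUP) (hTRV : tTRV) (hHAT : LLog.tHAT) (hOP : tOP) (hOM : tOM)
    (hINT : tINT) : ∃ C : ℝ≥0, ∀ (a m : ℕ) (sg sl : ℝ) (k : ℝ × ℝ → ℕ) (f : ℝ × ℝ → ℂ)
      (J0 J1 : ℤ) (Nr : ℤ → ℝ≥0∞), PA a m → 0 ≤ sg → sg < 1 → 1 ≤ sl → sl < 2 → Measurable k →
      (∀ x, k x < 4 ^ m) → Measurable f → ∫⁻ x, ‖f x‖ₑ ^ 2 < ⊤ →
      (∀ i : ℤ, ∀ lam : ℝ≥0, (lam : ℝ≥0∞) ^ 2 * volume {x | (lam : ℝ≥0∞) <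
        ‖AF a m sg sl k (hat (fun x => ∑ j ∈ (Finset.Icc J0 J1).filter
          (fun j => |j - i| ≤ 700 * a), fj f j x)) x‖ₑ} ≤ Nr i) →
      ∫⁻ x, ‖AF a m sg sl k (hat (fun x => ∑ j ∈ Finset.Icc J0 J1, fj f j x)) x‖ₑ ^ 2 ≤
        C * (∑' i, Nr i) + C * ∫⁻ x, ‖f x‖ₑ ^ 2 := by
  obtain ⟨C1, hC1⟩ := hOP
  obtain ⟨C2, hC2⟩ := hOM
  obtain ⟨C3, hC3⟩ := hINT
  refine ⟨C3 + C3 * (1 + C1 + 16 * C2), fun a m sg sl k f J0 J1 Nr hPA h0 h1 s0 s1 hk hk4 hf h2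
    hN => ?_⟩
  have hm : 10 * a ≤ m := LLog.LIN_.ten hPA
  have hTM : ∀ ν < 3 * (m - 10 * a), ∀ g : ℝ × ℝ → ℂ, Bf g →
      Measurable (TF a m sg sl k (ll a ν) (tt ν) (hat g)) := by
    intro ν hν g hg
    obtain ⟨hP, ht1, ht3⟩ := HP_ll hPA h0 h1 s0 s1 hν
    exact ((hTRV a m _ _ sg sl k hP ht1 ht3 hk hk4).2.1 (hat g) (hat_BM hHAT hg).1
      (hat_BM hHAT hg).2).1
  have key := hC3 a m (3 * (m - 10 * a)) J0 J1 (FF a m sg sl k f)
    (fun j => ∫⁻ x, ‖fj f j x‖ₑ ^ 2) (1 + C1 + 16 * C2) Nr hPA (by omega)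
    (le_add_of_le_of_nonneg (le_add_of_le_of_nonneg le_rfl (by positivity)) (by positivity))
    ?_ ?_ ?_ ?_ ?_ ?_
  · simp only [AF_sum hMU hTRV hHAT hPA h0 h1 s0 s1 hk hk4 hf h2]
    refine key.trans ?_
    have h3 := int_sum_le hf (Finset.Icc J0 J1)
    push_cast
    calc (C3 : ℝ≥0∞) * (∑' i, Nr i) + C3 * (1 + C1 + 16 * C2) *
          ∑ j ∈ Finset.Icc J0 J1, ∫⁻ x, ‖fj f j x‖ₑ ^ 2
        ≤ (C3 : ℝ≥0∞) * (∑' i, Nr i) + C3 * (1 + C1 + 16 * C2) * ∫⁻ x, ‖f x‖ₑ ^ 2 := by gcongr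
      _ ≤ (C3 + C3 * (1 + C1 + 16 * C2)) * (∑' i, Nr i) +
          (C3 + C3 * (1 + C1 + 16 * C2)) * ∫⁻ x, ‖f x‖ₑ ^ 2 := by
          gcongr
          · exact le_self_add
          · exact le_add_self
  · intro ν j
    by_cases hν : ν < 3 * (m - 10 * a)
    · have : FF a m sg sl k f ν j = TF a m sg sl k (ll a ν) (tt ν) (hat (fj f j)) := by
        funext x
        rw [FF, if_pos hν]
      rw [this]
      exact hTM ν hν _ (fj_Bf hf h2 j)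
    · have : FF a m sg sl k f ν j = fun _ => 0 := by
        funext x
        rw [FF, if_neg hν]
      rw [this]
      exact measurable_const
  · intro ν hν j lam
    obtain ⟨hP, ht1, ht3⟩ := HP_ll hPA h0 h1 s0 s1 hν
    simp only [FF, if_pos hν]
    refine (op_j (fun g lam hg hg1 => hC1 a m _ _ sg sl k g lam hP ht1 ht3 hk hk4 hg hg1) hf h2 j
      lam).trans ?_
    gcongr
    exact le_trans le_add_self le_self_add
  · intro ν hν j lam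
    obtain ⟨hP, ht1, ht3⟩ := HP_ll hPA h0 h1 s0 s1 hν
    simp only [FF, if_pos hν]
    refine (om_j (fun g lam hg hg1 => hC2 a m _ _ sg sl k g lam hP ht1 ht3 hk hk4 hg hg1) hf h2 j
      lam).trans ?_
    gcongr
    push_cast
    exact le_add_self
  · intro ν hν j lam
    obtain ⟨hP, ht1, ht3⟩ := HP_ll hPA h0 h1 s0 s1 hν
    simp only [FF, if_pos hν]
    exact l1_j (fun g hg => ((hTRV a m _ _ sg sl k hP ht1 ht3 hk hk4).2.2 g hg).1)
      (hTM ν hν) hf h2 j lam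
  · intro ν hν j x
    obtain ⟨hP, ht1, ht3⟩ := HP_ll hPA h0 h1 s0 s1 hν
    simp only [FF, if_pos hν]
    exact li_j (fun g hg => ((hTRV a m _ _ sg sl k hP ht1 ht3 hk hk4).2.2 g hg).2) hf h2 j x
  · intro i lam
    have := hN i lam
    simp only [AF_sum hMU hTRV hHAT hPA h0 h1 s0 s1 hk hk4 hf h2] at this
    exact this

end SV_

end Pool.Agent.SLog
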