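import Pool.Agent.SLog.SV4

set_option autoImplicit false

/-! Strong (2,2) bound: the near pieces, choice of the shift. -/

namespace Pool.Agent.SLog

open MeasureTheory Set
open scoped ENNReal NNReal ComplexConjugate
open Pool.Agent.KSP (ee dot nr Ex Ex1 Bd Bd1 n1 n2 lg V0 ann)
open Pool.Agent.LLog (PA Core kc Bf hat)

namespace SV_

open Pool.Agent.KSP.K_ (Bd_indicator integrable_Ex measurable_Ex measurable_nr n2_indicator)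

/-- the near sum at height `2^i` -/
noncomputable def Gi (a : ℕ) (f : ℝ × ℝ → ℂ) (J0 J1 i : ℤ) (x : ℝ × ℝ) : ℂ :=
  ∑ j ∈ (Finset.Icc J0 J1).filter (fun j => |j - i| ≤ 700 * a), fj f j x

/-- the truncated function -/
noncomputable def F0 (f : ℝ × ℝ → ℂ) (J0 J1 : ℤ) (x : ℝ × ℝ) : ℂ :=
  ∑ j ∈ Finset.Icc J0 J1, fj f j x

/-- the heights with a near sum -/
noncomputable def II (a : ℕ) (J0 J1 : ℤ) : Finset ℤ := Finset.Icc (J0 - 700 * a) (J1 + 700 * a)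

theorem Gi_zero {a : ℕ} {f : ℝ × ℝ → ℂ} {J0 J1 i : ℤ} (hi : i ∉ II a J0 J1) :
    Gi a f J0 J1 i = fun _ => 0 := by
  funext x
  unfold Gi
  rw [Finset.sum_eq_zero]
  intro j hj
  exfalso
  rw [Finset.mem_filter, Finset.mem_Icc] at hj
  apply hi
  rw [II, Finset.mem_Icc]
  have := abs_le.1 hj.2
  constructor <;> omega

theorem hat_zero : hat (fun _ : ℝ × ℝ => (0 : ℂ)) = fun _ => 0 := by
  funext ξ
  simp [LLog.hat]

/-- total energy of the near sums -/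
theorem Gi_energy {f : ℝ × ℝ → ℂ} (hf : Measurable f) (a : ℕ) (J0 J1 : ℤ) :
    ∑ i ∈ II a J0 J1, ∫⁻ x, ‖Gi a f J0 J1 i x‖ₑ ^ 2 ≤
      ((1400 * a + 1 : ℕ) : ℝ≥0∞) * ∫⁻ x, ‖f x‖ₑ ^ 2 := by
  classical
  have e1 : ∀ i, ∫⁻ x, ‖Gi a f J0 J1 i x‖ₑ ^ 2 =
      ∑ j ∈ Finset.Icc J0 J1, if |j - i| ≤ 700 * a then ∫⁻ x, ‖fj f j x‖ₑ ^ 2 else 0 := by
    intro i
    rw [← Finset.sum_filter]
    exact int_sum_sq hf _
  simp only [e1]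
  rw [Finset.sum_comm]
  calc ∑ j ∈ Finset.Icc J0 J1, ∑ i ∈ II a J0 J1,
        (if |j - i| ≤ 700 * a then ∫⁻ x, ‖fj f j x‖ₑ ^ 2 else 0)
      ≤ ∑ j ∈ Finset.Icc J0 J1, ((1400 * a + 1 : ℕ) : ℝ≥0∞) * ∫⁻ x, ‖fj f j x‖ₑ ^ 2 := by
        refine Finset.sum_le_sum fun j _ => ?_
        rw [← Finset.sum_filter, Finset.sum_const, nsmul_eq_mul]
        gcongr
        have hsub : (II a J0 J1).filter (fun i => |j - i| ≤ 700 * a) ⊆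
            Finset.Icc (j - 700 * a) (j + 700 * a) := by
          intro i hi
          rw [Finset.mem_filter] at hi
          have := abs_le.1 hi.2
          rw [Finset.mem_Icc]
          constructor <;> omega
        refine (Finset.card_le_card hsub).trans ?_
        rw [Int.card_Icc]
        omega
    _ = ((1400 * a + 1 : ℕ) : ℝ≥0∞) * ∑ j ∈ Finset.Icc J0 J1, ∫⁻ x, ‖fj f j x‖ₑ ^ 2 := by
        rw [Finset.mul_sum]
    _ ≤ _ := by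
        gcongr
        exact int_sum_le hf _

theorem F0_energy {f : ℝ × ℝ → ℂ} (hf : Measurable f) (J0 J1 : ℤ) :
    ∫⁻ x, ‖F0 f J0 J1 x‖ₑ ^ 2 ≤ ∫⁻ x, ‖f x‖ₑ ^ 2 := by
  unfold F0
  rw [int_sum_sq hf]
  exact int_sum_le hf _

/-- square function of finitely many functions on the support of `chi` -/
noncomputable def Sq (m : ℕ) (s : Finset ℤ) (H0 : ℝ × ℝ → ℂ) (H : ℤ → ℝ × ℝ → ℂ) (ξ : ℝ × ℝ) : ℂ :=
  open Classical in
  if chi m ξ ≠ 0 then ((√(‖H0 ξ‖ ^ 2 + ∑ i ∈ s, ‖H i ξ‖ ^ 2) : ℝ) : ℂ) else 0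

theorem Sq_Bd (hCHI : tCHI) {a m : ℕ} (hPA : PA a m) (s : Finset ℤ) {H0 : ℝ × ℝ → ℂ}
    {H : ℤ → ℝ × ℝ → ℂ} (h0 : BM H0) (hH : ∀ i, BM (H i)) : Bd (Sq m s H0 H) := by
  classical
  obtain ⟨c1, -, -, c4, -⟩ := hCHI a m hPA
  obtain ⟨m0, B0, b0⟩ := h0
  choose B hB using fun i => (hH i).2
  refine ⟨?_, ⟨√(B0 ^ 2 + ∑ i ∈ s, B i ^ 2), fun ξ => ?_⟩, 2, fun ξ hξ => ?_⟩
  · unfold Sq
    refine Measurable.ite ?_ ?_ measurable_const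
    · exact (c1 (measurableSet_singleton (0 : ℝ))).compl
    · refine Complex.measurable_ofReal.comp (Real.continuous_sqrt.measurable.comp ?_)
      refine (m0.norm.pow_const 2).add ?_
      exact Finset.measurable_sum _ fun i _ => ((hH i).1.norm.pow_const 2)
  · unfold Sq
    split_ifs with h
    · rw [Complex.norm_real, Real.norm_eq_abs, abs_of_nonneg (Real.sqrt_nonneg _)]
      refine Real.sqrt_le_sqrt (add_le_add (pow_le_pow_left₀ (norm_nonneg _) (b0 ξ) 2)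
        (Finset.sum_le_sum fun i _ => pow_le_pow_left₀ (norm_nonneg _) (hB i ξ) 2))
    · rw [norm_zero]
      exact Real.sqrt_nonneg _
  · have hc : chi m ξ ≠ 0 := by
      by_contra hcon
      exact hξ (by unfold Sq; rw [if_neg (not_not.2 hcon)])
    obtain ⟨h1, h2, h3⟩ := c4 ξ hc
    exact ⟨by rw [abs_of_nonneg (by linarith)]; linarith, by linarith⟩

theorem chi_V0 (hCHI : tCHI) {a m : ℕ} (hPA : PA a m) {ξ : ℝ × ℝ} (h : chi m ξ ≠ 0) :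
    ξ ∈ V0 := by
  obtain ⟨-, -, -, c4, -⟩ := hCHI a m hPA
  obtain ⟨h1, h2, h3⟩ := c4 ξ h
  have h4 := abs_le.1 h3
  refine ⟨by linarith, ?_, ?_⟩
  · unfold KSP.nr
    rw [Real.one_le_sqrt]
    nlinarith [sq_nonneg ξ.2]
  · unfold KSP.nr
    rw [Real.sqrt_lt' (by norm_num)]
    nlinarith [sq_nonneg ξ.2]

theorem Sq_enorm {m : ℕ} {s : Finset ℤ} {H0 : ℝ × ℝ → ℂ} {H : ℤ → ℝ × ℝ → ℂ} {ξ : ℝ × ℝ}
    (h : chi m ξ ≠ 0) : ‖Sq m s H0 H ξ‖ₑ ^ 2 = ‖H0 ξ‖ₑ ^ 2 + ∑ i ∈ s, ‖H i ξ‖ₑ ^ 2 := by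
  classical
  unfold Sq
  rw [if_pos h]
  have hn : 0 ≤ ‖H0 ξ‖ ^ 2 + ∑ i ∈ s, ‖H i ξ‖ ^ 2 := by positivity
  have e : ∀ z : ℂ, ‖z‖ₑ ^ 2 = ENNReal.ofReal (‖z‖ ^ 2) := fun z => by
    rw [← ofReal_norm, ENNReal.ofReal_pow (norm_nonneg _)]
  simp only [e]
  rw [Complex.norm_real, Real.norm_eq_abs, abs_of_nonneg (Real.sqrt_nonneg _), Real.sq_sqrt hn,
    ENNReal.ofReal_add (by positivity) (by positivity), ENNReal.ofReal_sum_of_nonneg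
      fun i _ => by positivity]

theorem Sq_ne {m : ℕ} {s : Finset ℤ} {H0 : ℝ × ℝ → ℂ} {H : ℤ → ℝ × ℝ → ℂ} {ξ : ℝ × ℝ}
    (h : chi m ξ ≠ 0) (h' : H0 ξ ≠ 0 ∨ ∃ i ∈ s, H i ξ ≠ 0) : Sq m s H0 H ξ ≠ 0 := by
  intro h0
  have h1 := Sq_enorm (s := s) (H0 := H0) (H := H) h
  rw [h0, enorm_zero, zero_pow (by norm_num)] at h1
  have h2 := add_eq_zero.1 h1.symm
  rcases h' with h' | ⟨i, hi, h'⟩
  · exact h' (by simpa using h2.1)
  · exact h' (by simpa using (Finset.sum_eq_zero_iff.1 h2.2) i hi)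

/-- `Core` passes to the members -/
theorem core_of (hCHI : tCHI) {a m : ℕ} {sg sl : ℝ} (hPA : PA a m) {s : Finset ℤ}
    {H0 : ℝ × ℝ → ℂ} {H : ℤ → ℝ × ℝ → ℂ} {G : Set (ℝ × ℝ)} (hG : MeasurableSet G)
    (hc : Core a m sg sl (G.indicator (Sq m s H0 H))) {K : ℝ × ℝ → ℂ} (hK : BM K)
    (hne : ∀ ξ, K ξ ≠ 0 → H0 ξ ≠ 0 ∨ ∃ i ∈ s, H i ξ ≠ 0) :
    Core a m sg sl (G.indicator (fun ξ => (chi m ξ : ℂ) * K ξ)) := by
  refine ⟨Bd_indicator (Bd_mul (hCHI a m hPA).2.2.2.2.1 hK) hG, fun ξ hξ => hc.2 ξ ?_⟩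
  have hmem : ξ ∈ G := by
    by_contra hcon
    exact hξ (indicator_of_notMem hcon _)
  rw [indicator_of_mem hmem] at hξ ⊢
  have h1 : chi m ξ ≠ 0 := fun h0 => hξ (by simp [h0])
  have h2 : K ξ ≠ 0 := fun h0 => hξ (by simp [h0])
  exact Sq_ne h1 (hne ξ h2)

theorem num1 {a m : ℕ} (hPA : PA a m) :
    (m : ℝ≥0∞) ^ 2 * (ENNReal.ofReal (16 / 2 ^ (3 * a)) * ((1400 * a + 2 : ℕ) : ℝ≥0∞)) ≤ 1 := by
  obtain ⟨ha, hm, -⟩ := hPA
  have h1 : 16 * (1400 * a + 2) ≤ 2 ^ a := by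
    clear hm
    induction a, ha using Nat.le_induction with
    | base => norm_num
    | succ n hn ih => rw [pow_succ]; omega
  have h2 : (m : ℝ) ≤ 2 ^ a := by exact_mod_cast hm.le
  have e1 : (m : ℝ≥0∞) = ENNReal.ofReal m := (ENNReal.ofReal_natCast m).symm
  have e2 : ((1400 * a + 2 : ℕ) : ℝ≥0∞) = ENNReal.ofReal ((1400 * a + 2 : ℕ) : ℝ) :=
    (ENNReal.ofReal_natCast _).symm
  rw [e1, e2, ← ENNReal.ofReal_pow (by positivity), ← ENNReal.ofReal_mul (by positivity),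
    ← ENNReal.ofReal_mul (by positivity), ← ENNReal.ofReal_one]
  refine ENNReal.ofReal_le_ofReal ?_
  have h3 : (16 : ℝ) * ((1400 * a + 2 : ℕ) : ℝ) ≤ 2 ^ a := by exact_mod_cast h1
  have h4 : (m : ℝ) ^ 2 ≤ (2 ^ a) ^ 2 := pow_le_pow_left₀ (by positivity) h2 2
  rw [show (m : ℝ) ^ 2 * (16 / 2 ^ (3 * a) * ((1400 * a + 2 : ℕ) : ℝ)) =
    (m : ℝ) ^ 2 * (16 * ((1400 * a + 2 : ℕ) : ℝ)) / 2 ^ (3 * a) by ring, div_le_one (by positivity)]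
  calc (m : ℝ) ^ 2 * (16 * ((1400 * a + 2 : ℕ) : ℝ)) ≤ (2 ^ a) ^ 2 * 2 ^ a := by gcongr
    _ = 2 ^ (3 * a) := by ring

end SV_

end Pool.Agent.SLog
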