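import Pool.Agent.SLog.SV5

set_option autoImplicit false

/-! Strong (2,2) bound: the estimate for the truncated function. -/

namespace Pool.Agent.SLog

open MeasureTheory Set
open scoped ENNReal NNReal ComplexConjugate
open Pool.Agent.KSP (ee dot nr Ex Ex1 Bd Bd1 n1 n2 lg V0 ann)
open Pool.Agent.LLog (PA Core kc Bf hat)

namespace SV_

open Pool.Agent.KSP.K_ (Bd_indicator integrable_Ex measurable_Ex measurable_nr n2_indicator)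

theorem F0_Bf {f : ℝ × ℝ → ℂ} (hf : Measurable f) (h2 : ∫⁻ x, ‖f x‖ₑ ^ 2 < ⊤) (J0 J1 : ℤ) :
    Bf (F0 f J0 J1) := Bf_sum _ fun j _ => fj_Bf hf h2 j

theorem Gi_Bf {f : ℝ × ℝ → ℂ} (hf : Measurable f) (h2 : ∫⁻ x, ‖f x‖ₑ ^ 2 < ⊤) (a : ℕ)
    (J0 J1 i : ℤ) : Bf (Gi a f J0 J1 i) := Bf_sum _ fun j _ => fj_Bf hf h2 j

theorem sq_add2 (u v : ℂ) : ‖u‖ₑ ^ 2 ≤ 4 * ‖u - v‖ₑ ^ 2 + 4 * ‖v‖ₑ ^ 2 := by
  refine le_trans ?_ (KSP.K_.sq_add _ _)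
  gcongr
  calc ‖u‖ₑ = ‖(u - v) + v‖ₑ := by rw [sub_add_cancel]
    _ ≤ _ := enorm_add_le _ _

theorem main_f (hCHI : tCHI) (hMU : tMUP) (hTRV : tTRV) (hHAT : LLog.tHAT) (hSHF : LLog.tSHF)
    (hOP : tOP) (hOM : tOM) (hINT : tINT) (hDIF : tDIF) (hWKA : tWKA) :
    ∃ C : ℝ≥0, ∀ (a m : ℕ) (k : ℝ × ℝ → ℕ) (f : ℝ × ℝ → ℂ) (J0 J1 : ℤ), PA a m → a = lg m →
      Measurable k → (∀ x, k x < 4 ^ m) → Measurable f → ∫⁻ x, ‖f x‖ₑ ^ 2 < ⊤ →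
      ∫⁻ x, ‖Ex ((ann 1 (1 + k x / 4 ^ m)).indicator
        (fun ξ => (chi m ξ : ℂ) * hat (F0 f J0 J1) ξ)) x‖ₑ ^ 2 ≤
      C * (a : ℝ≥0∞) ^ 12 * ∫⁻ x, ‖f x‖ₑ ^ 2 := by
  classical
  obtain ⟨CI, hCI⟩ := interp hMU hTRV hHAT hOP hOM hINT
  obtain ⟨CD, hCD⟩ := hDIF
  obtain ⟨CW, hCW⟩ := hWKA
  refine ⟨4 * (2 * CD) + 4 * (CI * (1403 * CW) + CI), fun a m k f J0 J1 hPA ham hk hk4 hf h2 => ?_⟩
  have hBF0 := F0_Bf hf h2 J0 J1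
  have hBG := fun i => Gi_Bf hf h2 a J0 J1 i
  set H0 : ℝ × ℝ → ℂ := hat (F0 f J0 J1) with hH0
  set H : ℤ → ℝ × ℝ → ℂ := fun i => hat (Gi a f J0 J1 i) with hH
  set s : Finset ℤ := II a J0 J1 with hs
  set e : ℝ≥0∞ := ∫⁻ x, ‖f x‖ₑ ^ 2 with he
  have hBM0 : BM H0 := hat_BM hHAT hBF0
  have hBM : ∀ i, BM (H i) := fun i => hat_BM hHAT (hBG i)
  have hSB := Sq_Bd hCHI hPA s hBM0 hBM
  obtain ⟨sg, sl, h0, h1, s0, s1, G, hG, hcore, hn2⟩ := hSHF a m (Sq m s H0 H) hPA hSB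
    (fun ξ hξ => chi_V0 hCHI hPA fun hc => hξ (by unfold Sq; rw [if_neg (not_not.2 hc)]))
  have hchim : Measurable (chi m) := (hCHI a m hPA).1
  have hcs : MeasurableSet {ξ | chi m ξ ≠ 0} := (hchim (measurableSet_singleton (0 : ℝ))).compl
  -- energies
  have E0 : ∫⁻ ξ, ‖H0 ξ‖ₑ ^ 2 ≤ e := by
    rw [hH0, (hHAT _ hBF0).2.2.1]
    exact F0_energy hf J0 J1
  have E1 : ∑ i ∈ s, ∫⁻ ξ, ‖H i ξ‖ₑ ^ 2 ≤ ((1400 * a + 1 : ℕ) : ℝ≥0∞) * e := by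
    refine le_trans (le_of_eq (Finset.sum_congr rfl fun i _ => ?_)) (Gi_energy hf a J0 J1)
    rw [hH, (hHAT _ (hBG i)).2.2.1]
  have hmH : ∀ i, Measurable fun ξ => ‖H i ξ‖ₑ ^ 2 := fun i => (hBM i).1.enorm.pow_const 2
  have hmH0 : Measurable fun ξ => ‖H0 ξ‖ₑ ^ 2 := hBM0.1.enorm.pow_const 2
  have E2 : n2 (Sq m s H0 H) ≤ ((1400 * a + 2 : ℕ) : ℝ≥0∞) * e := by
    calc n2 (Sq m s H0 H) ≤ ∫⁻ ξ, (‖H0 ξ‖ₑ ^ 2 + ∑ i ∈ s, ‖H i ξ‖ₑ ^ 2) := by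
          refine lintegral_mono fun ξ => ?_
          by_cases hc : chi m ξ = 0
          · have : Sq m s H0 H ξ = 0 := by unfold Sq; rw [if_neg (not_not.2 hc)]
            rw [this]
            simp
          · exact (Sq_enorm hc).le
      _ = (∫⁻ ξ, ‖H0 ξ‖ₑ ^ 2) + ∑ i ∈ s, ∫⁻ ξ, ‖H i ξ‖ₑ ^ 2 := by
          rw [lintegral_add_left hmH0, lintegral_finsetSum _ fun i _ => hmH i]
      _ ≤ e + ((1400 * a + 1 : ℕ) : ℝ≥0∞) * e := add_le_add E0 E1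
      _ = _ := by push_cast; ring
  -- bad part
  set D : Set (ℝ × ℝ) := {ξ | chi m ξ ≠ 0} \ G with hD
  have hDm : MeasurableSet D := hcs.diff hG
  have E3 : ∫⁻ ξ in D, (‖H0 ξ‖ₑ ^ 2 + ∑ i ∈ s, ‖H i ξ‖ₑ ^ 2) ≤
      ENNReal.ofReal (16 / 2 ^ (3 * a)) * (((1400 * a + 2 : ℕ) : ℝ≥0∞) * e) := by
    calc ∫⁻ ξ in D, (‖H0 ξ‖ₑ ^ 2 + ∑ i ∈ s, ‖H i ξ‖ₑ ^ 2) ≤ n2 (Gᶜ.indicator (Sq m s H0 H)) := by
          rw [← lintegral_indicator hDm]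
          refine lintegral_mono fun ξ => ?_
          by_cases hξ : ξ ∈ D
          · rw [indicator_of_mem hξ, indicator_of_mem (show ξ ∈ Gᶜ from hξ.2)]
            exact (Sq_enorm hξ.1).ge
          · rw [indicator_of_notMem hξ]
            exact bot_le
      _ ≤ _ := hn2.trans (by gcongr)
  have E4 : (m : ℝ≥0∞) ^ 2 * ∫⁻ ξ in D, (‖H0 ξ‖ₑ ^ 2 + ∑ i ∈ s, ‖H i ξ‖ₑ ^ 2) ≤ e := by
    calc (m : ℝ≥0∞) ^ 2 * ∫⁻ ξ in D, (‖H0 ξ‖ₑ ^ 2 + ∑ i ∈ s, ‖H i ξ‖ₑ ^ 2)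
        ≤ (m : ℝ≥0∞) ^ 2 * (ENNReal.ofReal (16 / 2 ^ (3 * a)) *
            (((1400 * a + 2 : ℕ) : ℝ≥0∞) * e)) := by gcongr
      _ = ((m : ℝ≥0∞) ^ 2 * (ENNReal.ofReal (16 / 2 ^ (3 * a)) *
            ((1400 * a + 2 : ℕ) : ℝ≥0∞))) * e := by ring
      _ ≤ 1 * e := by gcongr; exact num1 hPA
      _ = e := one_mul e
  have E5 : (m : ℝ≥0∞) ^ 2 * ∫⁻ ξ in D, ‖H0 ξ‖ₑ ^ 2 ≤ e := by
    refine le_trans ?_ E4
    gcongr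
    exact le_self_add
  have E6 : ∑ i ∈ s, (m : ℝ≥0∞) ^ 2 * ∫⁻ ξ in D, ‖H i ξ‖ₑ ^ 2 ≤ e := by
    rw [← Finset.mul_sum, ← lintegral_finsetSum _ fun i _ => hmH i]
    refine le_trans ?_ E4
    gcongr
    exact le_add_self
  -- cores
  have K0 : Core a m sg sl (G.indicator (fun ξ => (chi m ξ : ℂ) * H0 ξ)) :=
    core_of hCHI hPA hG hcore hBM0 fun ξ h => Or.inl h
  have Ki : ∀ i, Core a m sg sl (G.indicator (fun ξ => (chi m ξ : ℂ) * H i ξ)) := by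
    intro i
    refine core_of hCHI hPA hG hcore (hBM i) fun ξ h => ?_
    by_cases hi : i ∈ s
    · exact Or.inr ⟨i, hi, h⟩
    · exfalso
      apply h
      rw [hH]
      simp only
      rw [Gi_zero hi, hat_zero]
  -- the near sums
  set Nr : ℤ → ℝ≥0∞ := fun i => CW * (a : ℝ≥0∞) ^ 11 * (∫⁻ ξ, ‖H i ξ‖ₑ ^ 2) +
    CW * (m : ℝ≥0∞) ^ 2 * ∫⁻ ξ in D, ‖H i ξ‖ₑ ^ 2 with hNr
  have hnear : ∀ i : ℤ, ∀ lam : ℝ≥0, (lam : ℝ≥0∞) ^ 2 * volume {x | (lam : ℝ≥0∞) <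
      ‖AF a m sg sl k (hat (fun x => ∑ j ∈ (Finset.Icc J0 J1).filter
        (fun j => |j - i| ≤ 700 * a), fj f j x)) x‖ₑ} ≤ Nr i := fun i lam =>
    hCW a m sg sl k (H i) G lam hPA ham h0 h1 s0 s1 hk hk4 (hBM i).1 (hBM i).2 hG (Ki i)
  have hint := hCI a m sg sl k f J0 J1 Nr hPA h0 h1 s0 s1 hk hk4 hf h2 hnear
  have hNsum : ∑' i, Nr i ≤ (1403 * CW : ℝ≥0) * (a : ℝ≥0∞) ^ 12 * e := by
    rw [tsum_eq_sum (s := s) fun i hi => ?_]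
    · simp only [hNr]
      rw [Finset.sum_add_distrib, ← Finset.mul_sum]
      have e1 : ∑ i ∈ s, (CW : ℝ≥0∞) * (m : ℝ≥0∞) ^ 2 * ∫⁻ ξ in D, ‖H i ξ‖ₑ ^ 2 =
          CW * ∑ i ∈ s, (m : ℝ≥0∞) ^ 2 * ∫⁻ ξ in D, ‖H i ξ‖ₑ ^ 2 := by
        rw [Finset.mul_sum]
        exact Finset.sum_congr rfl fun i _ => by ring
      rw [e1]
      have ha1 : (1 : ℝ≥0∞) ≤ a := by exact_mod_cast (by have := hPA.1; omega : 1 ≤ a)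
      have ha12 : (1 : ℝ≥0∞) ≤ (a : ℝ≥0∞) ^ 12 := one_le_pow₀ ha1
      calc (CW : ℝ≥0∞) * (a : ℝ≥0∞) ^ 11 * (∑ i ∈ s, ∫⁻ ξ, ‖H i ξ‖ₑ ^ 2) +
            CW * ∑ i ∈ s, (m : ℝ≥0∞) ^ 2 * ∫⁻ ξ in D, ‖H i ξ‖ₑ ^ 2
          ≤ (CW : ℝ≥0∞) * (a : ℝ≥0∞) ^ 11 * (((1400 * a + 1 : ℕ) : ℝ≥0∞) * e) + CW * e := by
            gcongr
        _ ≤ (CW : ℝ≥0∞) * (a : ℝ≥0∞) ^ 11 * ((1402 * a) * e) +
            CW * ((a : ℝ≥0∞) ^ 12 * e) := by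
            gcongr
            · push_cast
              calc (1400 : ℝ≥0∞) * a + 1 ≤ 1400 * a + a := by gcongr
                _ ≤ 1400 * a + 2 * a := by
                  gcongr
                  calc (a : ℝ≥0∞) = 1 * a := (one_mul _).symm
                    _ ≤ 2 * a := by gcongr; norm_num
                _ = _ := by ring
            · calc e = 1 * e := (one_mul e).symm
                _ ≤ _ := by gcongr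
        _ = _ := by push_cast; ring
    · simp only [hNr, hH]
      rw [Gi_zero hi, hat_zero]
      simp
  -- difference
  have hdif := (hCD a m sg sl k H0 G hPA h0 h1 s0 s1 hk hk4 hBM0.1 hBM0.2 hG K0).2
  have hAFm := (hCD a m sg sl k H0 G hPA h0 h1 s0 s1 hk hk4 hBM0.1 hBM0.2 hG K0).1
  have ha1 : (1 : ℝ≥0∞) ≤ a := by exact_mod_cast (by have := hPA.1; omega : 1 ≤ a)
  have ha12 : (a : ℝ≥0∞) ^ 2 ≤ (a : ℝ≥0∞) ^ 12 := pow_le_pow_right₀ ha1 (by norm_num)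
  have ha0 : (1 : ℝ≥0∞) ≤ (a : ℝ≥0∞) ^ 12 := one_le_pow₀ ha1
  have hE : (CD : ℝ≥0∞) * (m : ℝ≥0∞) ^ 2 * ∫⁻ ξ in D, ‖H0 ξ‖ₑ ^ 2 ≤ CD * e := by
    rw [mul_assoc]
    gcongr
  calc ∫⁻ x, ‖Ex ((ann 1 (1 + k x / 4 ^ m)).indicator (fun ξ => (chi m ξ : ℂ) * H0 ξ)) x‖ₑ ^ 2
      ≤ ∫⁻ x, (4 * ‖Ex ((ann 1 (1 + k x / 4 ^ m)).indicator
          (fun ξ => (chi m ξ : ℂ) * H0 ξ)) x - AF a m sg sl k H0 x‖ₑ ^ 2 +
          4 * ‖AF a m sg sl k H0 x‖ₑ ^ 2) := lintegral_mono fun x => sq_add2 _ _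
    _ = 4 * (∫⁻ x, ‖Ex ((ann 1 (1 + k x / 4 ^ m)).indicator
          (fun ξ => (chi m ξ : ℂ) * H0 ξ)) x - AF a m sg sl k H0 x‖ₑ ^ 2) +
          4 * ∫⁻ x, ‖AF a m sg sl k H0 x‖ₑ ^ 2 := by
        rw [lintegral_add_right _ ((hAFm.enorm.pow_const 2).const_mul 4),
          lintegral_const_mul' _ _ (by norm_num), lintegral_const_mul' _ _ (by norm_num)]
    _ ≤ 4 * (CD * (a : ℝ≥0∞) ^ 2 * e + CD * e) +
          4 * (CI * ((1403 * CW : ℝ≥0) * (a : ℝ≥0∞) ^ 12 * e) + CI * e) := by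
        gcongr
        · refine hdif.trans ?_
          gcongr
        · refine hint.trans ?_
          gcongr
    _ ≤ 4 * (CD * (a : ℝ≥0∞) ^ 12 * e + CD * ((a : ℝ≥0∞) ^ 12 * e)) +
          4 * (CI * ((1403 * CW : ℝ≥0) * (a : ℝ≥0∞) ^ 12 * e) + CI * ((a : ℝ≥0∞) ^ 12 * e)) := by
        have : e ≤ (a : ℝ≥0∞) ^ 12 * e := by
          calc e = 1 * e := (one_mul e).symm
            _ ≤ _ := by gcongr
        gcongr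
    _ = _ := by push_cast; ring

end SV_

end Pool.Agent.SLog
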